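import Pool.Agent.Run7.h225.HG.Iface2

/-!
# SYS1: the hypothesis of the theorem on tuples for a general system

Adapted from `Pool/Agent/Run7/h893/HO/Gen2.lean` and `Pool/Agent/Y119/HY/Fam.lean`.
-/

set_option autoImplicit false

open PowerSeries Matrix
open Pool.Agent.Y113 hiding Bm
open Pool.Agent.Y120.GF Pool.Agent.Y120.GH Pool.Agent.Y119.HZ
open Pool.Agent.Y119.HY (cm E Hf Yf Rel Gal Sol)

namespace Pool.Agent.Run7.h225.HG.SYS1

variable {n : ℕ} {N B : Matrix (Fin n) (Fin n) ℚ} {H W : Matrix (Fin n) (Fin n) ℚ⟦X⟧}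

lemma cm_nil (hS : Sys n N B H W) : cm N ^ n = 0 := by
  rw [← Pool.Agent.Y119.HY.cm_pow, hS.nil, Pool.Agent.Y119.HY.cm_zero]

/-- the system at the origin -/
theorem ode_sys (h : Sys n N B H W) : (1 - X : ℚ⟦X⟧) • (th H + H * km N) =
    ((1 - X : ℚ⟦X⟧) • km N + (X : ℚ⟦X⟧) • km B) * H := by
  have hS : (1 - X : ℚ⟦X⟧) • (th H + H * km N - km N * H) = (X : ℚ⟦X⟧) • (km B * H) := by
    have hc : ∀ k, cf (th H + H * km N - km N * H) k =
        (k : ℚ) • cf H k + (cf H k * N - N * cf H k) := by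
      intro k
      have h1 : cf (th H + H * km N - km N * H) k =
          cf (th H) k + cf (H * km N) k - cf (km N * H) k := by
        ext i j
        unfold cf
        simp only [Matrix.map_apply, Matrix.sub_apply, Matrix.add_apply, map_sub, map_add]
      rw [h1, cf_th, cf_mul_km, cf_km_mul, add_sub_assoc]
    ext i j k
    rw [Matrix.smul_apply, Matrix.smul_apply, smul_eq_mul, smul_eq_mul, sub_mul, one_mul, map_sub]
    have h2 : ∀ k, coeff k ((th H + H * km N - km N * H) i j) =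
        ((k : ℚ) • cf H k + (cf H k * N - N * cf H k)) i j := fun k => congrFun (congrFun (hc k) i) j
    have h3 : ∀ k, coeff k ((km B * H) i j) = (B * cf H k) i j := by
      intro k
      exact congrFun (congrFun (cf_km_mul B H k) i) j
    rcases k with _ | k
    · rw [coeff_zero_X_mul, coeff_zero_X_mul, h2, h.zero]
      simp
    · rw [coeff_succ_X_mul, coeff_succ_X_mul, h2, h2, h3]
      have h4 := congrFun (congrFun (h.step k) i) j
      simp only [Matrix.add_apply, Matrix.smul_apply, Matrix.sub_apply, smul_eq_mul] at h4 ⊢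
      push_cast
      linear_combination h4
  rw [smul_sub] at hS
  rw [add_mul, smul_mul_assoc, smul_mul_assoc, ← hS]
  abel

/-- the integral matrix -/
noncomputable def A1g (n D : ℕ) (N' b : Fin n → Fin n → ℤ) (i j : Fin n) : Polynomial ℤ :=
  Polynomial.C ((D : ℤ) * N' i j) * (1 - Polynomial.X) + Polynomial.C (b i j) * Polynomial.X

lemma ps_A1g {D : ℕ} {N' b : Fin n → Fin n → ℤ} (hN : ∀ i j, N i j = N' i j) (hb : ∀ i j, (b i j : ℚ) = D * B i j)
    (i j : Fin n) : ps (A1g n D N' b i j) = C (D : ℚ) * ((1 - X) * C (N i j) + X * C (B i j)) := by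
  unfold ps A1g
  rw [Polynomial.map_add, Polynomial.map_mul, Polynomial.map_mul, Polynomial.map_sub, Polynomial.map_one, Polynomial.map_X,
    Polynomial.map_C, Polynomial.map_C, Polynomial.coe_add, Polynomial.coe_mul, Polynomial.coe_mul,
    Polynomial.coe_C, Polynomial.coe_C, Polynomial.coe_sub, Polynomial.coe_one, Polynomial.coe_X]
  have e1 : (Int.castRingHom ℚ) (b i j) = D * B i j := hb i j
  have e2 : (Int.castRingHom ℚ) ((D : ℤ) * N' i j) = D * N i j := by
    rw [hN]
    simp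
  rw [e1, e2, map_mul, map_mul]
  ring

lemma ode_int_s (h : Sys n N B H W) {D : ℕ} {N' b : Fin n → Fin n → ℤ} (hN : ∀ i j, N i j = N' i j)
    (hb : ∀ i j, (b i j : ℚ) = D * B i j) (i j : Fin n) :
    ps (T1 D) * (X * d⁄dX ℚ (H i j) + ∑ k, H i k * C (N k j)) = ∑ k, ps (A1g n D N' b i k) * H k j := by
  have h1 := congrFun (congrFun (ode_sys h) i) j
  rw [Matrix.smul_apply, Matrix.add_apply, Matrix.mul_apply, Matrix.mul_apply, smul_eq_mul] at h1
  rw [ps_T1, mul_assoc]
  have h2 : X * d⁄dX ℚ (H i j) = th H i j := rfl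
  have h3 : ∑ k, H i k * C (N k j) = ∑ k, H i k * km N k j := rfl
  rw [h2, h3, h1, Finset.mul_sum]
  refine Finset.sum_congr rfl fun k _ => ?_
  rw [ps_A1g hN hb, Matrix.add_apply, Matrix.smul_apply, Matrix.smul_apply, smul_eq_mul, smul_eq_mul, km_apply, km_apply]
  ring

/-- the system for the entries of the holomorphic part -/
noncomputable def A2g (n D : ℕ) (N' b : Fin n → Fin n → ℤ) (p q : Fin n × Fin n) : Polynomial ℤ :=
  (if q.2 = p.2 then A1g n D N' b p.1 q.1 else 0) - (if q.1 = p.1 then T1 D * Polynomial.C (N' q.2 p.2) else 0)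

/-- summation -/
lemma sum_A2g {R : Type*} [CommRing R] (f : Polynomial ℤ →+* R) (D : ℕ) (N' b : Fin n → Fin n → ℤ) (p : Fin n × Fin n)
    (x : Fin n × Fin n → R) : ∑ q, f (A2g n D N' b p q) * x q =
      ∑ k, f (A1g n D N' b p.1 k) * x (k, p.2) - f (T1 D) * ∑ l : Fin n, f (Polynomial.C (N' l p.2)) * x (p.1, l) := by
  unfold A2g
  simp only [map_sub, sub_mul, Finset.sum_sub_distrib]
  congr 1
  · rw [Fintype.sum_prod_type]
    refine Finset.sum_congr rfl fun k _ => ?_
    rw [Finset.sum_eq_single p.2]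
    · simp
    · intro l _ hl
      rw [if_neg hl, map_zero, zero_mul]
    · intro h
      exact absurd (Finset.mem_univ _) h
  · rw [Fintype.sum_prod_type, Finset.sum_eq_single p.1]
    · rw [Finset.mul_sum]
      refine Finset.sum_congr rfl fun l _ => ?_
      rw [if_pos rfl, map_mul]
      ring
    · intro k _ hk
      refine Finset.sum_eq_zero fun l _ => ?_
      rw [if_neg hk, map_zero, zero_mul]
    · intro h
      exact absurd (Finset.mem_univ _) h

lemma psR_N' {N' : Fin n → Fin n → ℤ} (hN : ∀ i j, N i j = N' i j) (l j : Fin n) :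
    psR (Polynomial.C (N' l j)) = C (N l j) := by
  rw [psR_apply]
  unfold ps
  rw [Polynomial.map_C, Polynomial.coe_C, hN]
  simp

lemma cxR_N' {N' : Fin n → Fin n → ℤ} (hN : ∀ i j, N i j = N' i j) (l j : Fin n) :
    cxR (Polynomial.C (N' l j)) = C (cm N l j) := by
  show cx (psR (Polynomial.C (N' l j))) = _
  rw [psR_N' hN, cx_C]
  rfl

lemma ode_A2_s (h : Sys n N B H W) {D : ℕ} {N' b : Fin n → Fin n → ℤ} (hN : ∀ i j, N i j = N' i j)
    (hb : ∀ i j, (b i j : ℚ) = D * B i j)
    (p : Fin n × Fin n) : ps (Polynomial.X * T1 D) * d⁄dX ℚ (H p.1 p.2) =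
      ∑ q, ps (A2g n D N' b p q) * H q.1 q.2 := by
  have h1 := sum_A2g psR D N' b p (fun q => H q.1 q.2)
  simp only [psR_N' hN] at h1
  simp only [psR_apply] at h1
  rw [h1, ← ode_int_s h hN hb, ps_X_mul]
  have h2 : ∑ l, C (N l p.2) * H p.1 l = ∑ k, H p.1 k * C (N k p.2) :=
    Finset.sum_congr rfl fun l _ => mul_comm _ _
  rw [h2]
  ring

/-- the fundamental matrix of the system for the entries -/
noncomputable def PhiG {n : ℕ} (N : Matrix (Fin n) (Fin n) ℚ) (H : Matrix (Fin n) (Fin n) ℚ⟦X⟧) (p q : Fin n × Fin n) :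
    Polynomial (PowerSeries ℂ) :=
  ∑ c, Polynomial.C (cx (H p.1 c)) * (pE (cm N) c q.1 q.2 p.2).map (C (R := ℂ))

lemma PhiG_coeff (N : Matrix (Fin n) (Fin n) ℚ) (H : Matrix (Fin n) (Fin n) ℚ⟦X⟧) (p q : Fin n × Fin n) (k : ℕ) :
    (PhiG N H p q).coeff k = ∑ c, cx (H p.1 c) * C ((pE (cm N) c q.1 q.2 p.2).coeff k) := by
  unfold PhiG
  rw [Polynomial.finsetSum_coeff]
  refine Finset.sum_congr rfl fun c _ => ?_
  rw [Polynomial.coeff_C_mul, Polynomial.coeff_map]

theorem PhiG_ode (h : Sys n N B H W) {D : ℕ} {N' b : Fin n → Fin n → ℤ} (hN' : ∀ i j, N i j = N' i j)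
    (hb : ∀ i j, (b i j : ℚ) = D * B i j)
    (p q : Fin n × Fin n) (k : ℕ) : cxR (T1 D) * ((X : PowerSeries ℂ) * PowerSeries.derivative ℂ ((PhiG N H p q).coeff k) +
      ((k : PowerSeries ℂ) + 1) * (PhiG N H p q).coeff (k + 1)) = ∑ l, cxR (A2g n D N' b p l) * (PhiG N H l q).coeff k := by
  have hN : cm N ^ n = 0 := cm_nil h
  rw [sum_A2g]
  simp only [cxR_N' hN']
  simp only [PhiG_coeff]
  set M := cm N with hMd
  obtain ⟨i, j⟩ := p
  obtain ⟨a, c'⟩ := q
  -- the equation over the complex numbers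
  have hode : ∀ i j, cxR (T1 D) * (X * PowerSeries.derivative ℂ (cx (H i j)) + ∑ k, cx (H i k) * C (M k j)) =
      ∑ k, cxR (A1g n D N' b i k) * cx (H k j) := by
    intro i j
    have h1 := congrArg cx (ode_int_s h hN' hb i j)
    rw [map_mul, map_add, map_mul, map_sum, map_sum, cx_der] at h1
    have h2 : cx (X : ℚ⟦X⟧) = X := by rw [cx, map_X]
    rw [h2] at h1
    simp only [map_mul, cx_C] at h1
    exact h1
  -- the derivative of the coefficients
  have hd : PowerSeries.derivative ℂ (∑ c, cx (H i c) * C ((pE M c a c' j).coeff k)) =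
      ∑ c, PowerSeries.derivative ℂ (cx (H i c)) * C ((pE M c a c' j).coeff k) := by
    rw [map_sum]
    refine Finset.sum_congr rfl fun c _ => ?_
    rw [Derivation.leibniz, PowerSeries.derivative_C]
    simp only [smul_eq_mul]
    ring
  have hk : ((k : PowerSeries ℂ) + 1) * ∑ c, cx (H i c) * C ((pE M c a c' j).coeff (k + 1)) =
      ∑ c, (∑ d, cx (H i d) * C (M d c)) * C ((pE M c a c' j).coeff k) -
      ∑ l, C (M l j) * ∑ c, cx (H i c) * C ((pE M c a c' l).coeff k) := by
    have e1 : ((k : PowerSeries ℂ) + 1) = C ((k : ℂ) + 1) := by rw [map_add, map_one, map_natCast]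
    have e2 : ∀ c, C ((k : ℂ) + 1) * (cx (H i c) * C ((pE M c a c' j).coeff (k + 1))) =
        cx (H i c) * (∑ d, C (M c d) * C ((pE M d a c' j).coeff k)) -
        cx (H i c) * ∑ d, C (M d j) * C ((pE M c a c' d).coeff k) := by
      intro c
      have e3 : C ((k : ℂ) + 1) * C ((pE M c a c' j).coeff (k + 1)) =
          (∑ d, C (M c d) * C ((pE M d a c' j).coeff k)) - ∑ d, C (M d j) * C ((pE M c a c' d).coeff k) := by
        rw [← map_mul, pE_deriv hN, map_sub, map_sum, map_sum]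
        simp only [map_mul]
      rw [← mul_sub, ← e3]
      ring
    rw [e1, Finset.mul_sum, Finset.sum_congr rfl fun c _ => e2 c, Finset.sum_sub_distrib]
    congr 1
    · simp only [Finset.mul_sum, Finset.sum_mul]
      rw [Finset.sum_comm]
      exact Finset.sum_congr rfl fun c _ => Finset.sum_congr rfl fun d _ => by ring
    · simp only [Finset.mul_sum]
      rw [Finset.sum_comm]
      exact Finset.sum_congr rfl fun c _ => Finset.sum_congr rfl fun d _ => by ring
  rw [hd, hk]
  have hmain : cxR (T1 D) * ((X : PowerSeries ℂ) * ∑ c, PowerSeries.derivative ℂ (cx (H i c)) * C ((pE M c a c' j).coeff k) +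
      ∑ c, (∑ d, cx (H i d) * C (M d c)) * C ((pE M c a c' j).coeff k)) =
      ∑ k', cxR (A1g n D N' b i k') * ∑ c, cx (H k' c) * C ((pE M c a c' j).coeff k) := by
    have e1 : (X : PowerSeries ℂ) * ∑ c, PowerSeries.derivative ℂ (cx (H i c)) * C ((pE M c a c' j).coeff k) +
        ∑ c, (∑ d, cx (H i d) * C (M d c)) * C ((pE M c a c' j).coeff k) =
        ∑ c, (X * PowerSeries.derivative ℂ (cx (H i c)) + ∑ d, cx (H i d) * C (M d c)) *
          C ((pE M c a c' j).coeff k) := by
      rw [Finset.mul_sum, ← Finset.sum_add_distrib]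
      exact Finset.sum_congr rfl fun c _ => by ring
    rw [e1, Finset.mul_sum]
    have e2 : ∀ c, cxR (T1 D) * ((X * PowerSeries.derivative ℂ (cx (H i c)) + ∑ d, cx (H i d) * C (M d c)) *
          C ((pE M c a c' j).coeff k)) = ∑ k', cxR (A1g n D N' b i k') * (cx (H k' c) * C ((pE M c a c' j).coeff k)) := by
      intro c
      rw [← mul_assoc, hode i c, Finset.sum_mul]
      exact Finset.sum_congr rfl fun k' _ => by ring
    rw [Finset.sum_congr rfl fun c _ => e2 c, Finset.sum_comm]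
    exact Finset.sum_congr rfl fun k' _ => by rw [Finset.mul_sum]
  rw [← hmain]
  ring

lemma rho_PhiG (h : Sys n N B H W) (p q : Fin n × Fin n) : rho (PhiG N H p q) = if p = q then 1 else 0 := by
  have hN : cm N ^ n = 0 := cm_nil h
  have hN' : (-cm N) ^ n = 0 := by rw [neg_pow, hN, mul_zero]
  unfold PhiG
  rw [map_sum]
  have h1 : ∀ c, rho (Polynomial.C (cx (H p.1 c)) * (pE (cm N) c q.1 q.2 p.2).map (C (R := ℂ))) =
      (if p.1 = c then 1 else 0) * ((if c = q.1 then 1 else 0) * (if q.2 = p.2 then 1 else 0)) := by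
    intro c
    unfold rho
    rw [map_mul, RingHom.comp_apply, RingHom.comp_apply, Polynomial.coe_evalRingHom, Polynomial.eval_C]
    congr 1
    · rw [← coeff_zero_eq_constantCoeff_apply, coeff_cx]
      have h2 : coeff 0 (H p.1 c) = (1 : Matrix (Fin n) (Fin n) ℚ) p.1 c := by
        rw [← h.zero]
        rfl
      rw [h2, Matrix.one_apply]
      split_ifs <;> simp
    · have h3 : Polynomial.eval 0 ((pE (cm N) c q.1 q.2 p.2).map (C (R := ℂ))) =
          C ((pE (cm N) c q.1 q.2 p.2).eval 0) := by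
        have := Polynomial.eval_map_apply (p := pE (cm N) c q.1 q.2 p.2) (C (R := ℂ)) 0
        rw [map_zero] at this
        exact this
      rw [h3]
      unfold pE
      rw [Polynomial.eval_mul, Ep_eval_zero hN, Ep_eval_zero hN']
      simp
  simp only [h1]
  rw [Finset.sum_eq_single p.1]
  · rw [if_pos rfl, one_mul]
    by_cases h2 : p = q
    · rw [if_pos h2, h2, if_pos rfl, if_pos rfl, one_mul]
    · rw [if_neg h2]
      by_cases h3 : p.1 = q.1
      · rw [if_neg (fun h4 : q.2 = p.2 => h2 (Prod.ext h3 h4.symm)), mul_zero]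
      · rw [if_neg h3, zero_mul]
  · intro c _ hc
    rw [if_neg (Ne.symm hc), zero_mul]
  · intro h
    exact absurd (Finset.mem_univ _) h

theorem qu_s (h : Sys n N B H W) {D : ℕ} {N' b : Fin n → Fin n → ℤ} (hN' : ∀ i j, N i j = N' i j)
    (hb : ∀ i j, (b i j : ℚ) = D * B i j) :
    QU0 (Polynomial.X * T1 D) (fun a c : Fin (n * n) => A2g n D N' b (ix n a) (ix n c)) := by
  classical
  obtain ⟨B₀, hB0, hB⟩ := pE_bound (cm N)
  obtain ⟨C₁, hC₁, hs, -⟩ := Pool.Agent.Y119.HY.SDc.unif (y := fun p : Fin n × Fin n => H p.1 p.2) fun p => h.sH p.1 p.2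
  refine ⟨1, one_ne_zero, 0, (n * B₀ + 1) * C₁, Matrix.of fun a c => PhiG N H (ix n a) (ix n c), fun a c k m => ?_,
    fun a c k => ?_, ?_⟩
  · rw [Matrix.of_apply, PhiG_coeff, map_sum]
    have h1 : ∀ d, ‖coeff m (cx (H (ix n a).1 d) * C ((pE (cm N) d (ix n c).1 (ix n c).2 (ix n a).2).coeff k))‖ ≤
        C₁ ^ (m + 1) * B₀ := by
      intro d
      rw [coeff_mul_C, norm_mul, norm_coeff_cx]
      exact mul_le_mul (hs (_, d) m) (hB _ _ _ _ _) (norm_nonneg _) (by positivity)
    refine (norm_sum_le _ _).trans ((Finset.sum_le_sum fun d _ => h1 d).trans ?_)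
    rw [Finset.sum_const, Finset.card_univ, Fintype.card_fin, nsmul_eq_mul, mul_pow]
    have h2 : (n : ℝ) * B₀ ≤ (n * B₀ + 1) ^ (m + 1) := by
      have h3 : 0 ≤ (n : ℝ) * B₀ := by positivity
      exact le_trans (by linarith) (le_self_pow₀ (by linarith) (by omega))
    calc (n : ℝ) * (C₁ ^ (m + 1) * B₀) = (n * B₀) * C₁ ^ (m + 1) := by ring
      _ ≤ _ := mul_le_mul_of_nonneg_right h2 (by positivity)
  · have h1 := PhiG_ode h hN' hb (ix n a) (ix n c) k
    simp only [expand_poly one_ne_zero, Polynomial.expand_one]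
    simp only [← cxR_apply]
    rw [Nat.cast_zero, zero_mul, sub_zero, Nat.cast_one, one_mul, pow_one]
    have h2 : ∑ l : Fin (n * n), cxR (A2g n D N' b (ix n a) (ix n l)) *
        ((Matrix.of fun a c => PhiG N H (ix n a) (ix n c)) l c).coeff k =
        ∑ l, cxR (A2g n D N' b (ix n a) l) * (PhiG N H l (ix n c)).coeff k :=
      Equiv.sum_comp (ix n) fun l => cxR (A2g n D N' b (ix n a) l) * (PhiG N H l (ix n c)).coeff k
    rw [h2, ← h1, map_mul]
    have h3 : cxR Polynomial.X = (X : PowerSeries ℂ) := by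
      rw [cxR_apply, Polynomial.map_X, Polynomial.coe_X]
    rw [h3, mul_assoc]
    rfl
  · intro h0
    have h1 := congrArg rho h0
    rw [RingHom.map_det, map_zero] at h1
    have h2 : rho.mapMatrix (Matrix.of fun a c : Fin (n * n) => PhiG N H (ix n a) (ix n c)) = 1 := by
      ext a c
      rw [RingHom.mapMatrix_apply, Matrix.map_apply, Matrix.of_apply, rho_PhiG h, Matrix.one_apply]
      by_cases h3 : a = c
      · rw [if_pos h3, if_pos (by rw [h3])]
      · rw [if_neg h3, if_neg fun h4 => h3 ((ix n).injective h4)]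
    rw [h2, Matrix.det_one] at h1
    exact one_ne_zero h1

/-- a common denominator -/
lemma exists_bg (B : Matrix (Fin n) (Fin n) ℚ) : ∃ (D : ℕ) (b : Fin n → Fin n → ℤ), D ≠ 0 ∧
    ∀ i j, (b i j : ℚ) = D * B i j := by
  classical
  set D : ℕ := ∏ p : Fin n × Fin n, (B p.1 p.2).den with hD
  have hD0 : D ≠ 0 := Finset.prod_ne_zero_iff.2 fun p _ => (B p.1 p.2).den_nz
  have h1 : ∀ i j, ∃ b : ℤ, (b : ℚ) = D * B i j := by
    intro i j
    obtain ⟨c, hc⟩ : (B i j).den ∣ D :=
      Finset.dvd_prod_of_mem (fun p : Fin n × Fin n => (B p.1 p.2).den) (Finset.mem_univ (i, j))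
    refine ⟨c * (B i j).num, ?_⟩
    have h2 := Rat.mul_den_eq_num (B i j)
    rw [hc]
    push_cast
    rw [← h2]
    ring
  choose b hb using h1
  exact ⟨D, b, hD0, hb⟩

end Pool.Agent.Run7.h225.HG.SYS1

namespace Pool.Agent.Run7.h225.HG

/-- **the hypothesis of the theorem on tuples** -/
theorem p_SYS1 : S_SYS1 := by
  intro n N B H W h δ
  obtain ⟨N', hN'⟩ := h.int
  obtain ⟨D, b, hD, hb⟩ := SYS1.exists_bg B
  obtain ⟨q, C, hG⟩ := gsysL (N := N) h.nil h.inv (SYS1.ode_int_s h hN' hb) h.sH h.sW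
  have hG' := hG.reindex (ix n)
  have hT : Polynomial.X * T1 D ≠ 0 := by
    refine mul_ne_zero Polynomial.X_ne_zero (mul_ne_zero (Polynomial.C_ne_zero.2 (by exact_mod_cast hD)) ?_)
    intro h0
    have := congrArg (Polynomial.eval 0) h0
    simp at this
  refine family_gsys (h := hfg H) (A := fun a c => SYS1.A2g n D N' b (ix n a) (ix n c)) hT (fun i => ?_) hG'
    (SYS1.qu_s h hN' hb) δ
  have h1 := SYS1.ode_A2_s h hN' hb (ix n i)
  have h2 : ∑ j : Fin (n * n), ps (SYS1.A2g n D N' b (ix n i) (ix n j)) * hfg H j =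
      ∑ q, ps (SYS1.A2g n D N' b (ix n i) q) * H q.1 q.2 :=
    Equiv.sum_comp (ix n) fun q => ps (SYS1.A2g n D N' b (ix n i) q) * H q.1 q.2
  exact h1.trans h2.symm

end Pool.Agent.Run7.h225.HG
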