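import Pool.Agent.Run7.h225.HG.Iface2

/-!
# SYS2: the theorem on tuples for general systems and general torsors

Adapted from `Pool/Agent/Run7/h893/HO/Fam.lean` and `Pool/Agent/Y119/HY/{Rl,Fin,Fin2}.lean`.
-/

set_option autoImplicit false

open PowerSeries Matrix
open Pool.Agent.Y113 hiding Bm
open Pool.Agent.Y120.GF Pool.Agent.Y120.GH Pool.Agent.Y119.HZ
open Pool.Agent.Y119.HY (cm E Hf Yf Rel Gal Sol E_mul_neg Ep Ep_eval Vr)

namespace Pool.Agent.Run7.h225.HG.SYS2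

section one

variable {n : ℕ} {N B : Matrix (Fin n) (Fin n) ℚ} {H W : Matrix (Fin n) (Fin n) ℚ⟦X⟧}

lemma cm_nil (hS : Sys n N B H W) : cm N ^ n = 0 := by
  rw [← Pool.Agent.Y119.HY.cm_pow, hS.nil, Pool.Agent.Y119.HY.cm_zero]

/-- the coefficients solve the recursion over the complex numbers -/
lemma sol (h : Sys n N B H W) : Sol (cm N) (cm B) (Hcg H) := by
  refine ⟨?_, fun k => ?_⟩
  · unfold Hcg
    rw [h.zero, Pool.Agent.Y119.HY.cm_one]
  · ext i j
    have h1 := congrFun (congrFun (h.step k) i) j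
    unfold Hcg
    rw [← Pool.Agent.Y119.HY.cm_mul, ← Pool.Agent.Y119.HY.cm_mul, ← Pool.Agent.Y119.HY.cm_mul,
      ← Pool.Agent.Y119.HY.cm_mul, ← Pool.Agent.Y119.HY.cm_mul]
    simp only [Matrix.add_apply, Matrix.smul_apply, Matrix.sub_apply, smul_eq_mul,
      Pool.Agent.Y119.HY.cm_apply] at h1 ⊢
    exact_mod_cast congrArg (fun q : ℚ => (q : ℂ)) h1

/-- the entries converge for `t > 1` -/
lemma Cv_H (h : Sys n N B H W) {t : ℝ} (ht : 1 < t) (i j : Fin n) : Cv t (H i j) := by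
  have h1 := ((sol h).growth (cm_nil h) i j).summable
    (r := 1 / t) (by positivity) (by rw [div_lt_one (by linarith)]; exact ht)
  refine h1.congr fun m => ?_
  congr 1
  unfold Hcg
  rw [Pool.Agent.Y119.HY.cm_apply]
  have h3 : ((cf H m i j : ℚ) : ℂ) = (((coeff m (H i j) : ℚ) : ℝ) : ℂ) := by
    push_cast
    rfl
  rw [h3, Complex.norm_real, Real.norm_eq_abs]

/-- the values -/
lemma ev_H (t : ℝ) (i j : Fin n) : ((ev t (H i j) : ℝ) : ℂ) = Hf (Hcg H) (((1 / t : ℝ)) : ℂ) i j := by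
  unfold Hf
  rw [Matrix.of_apply]
  unfold Pool.Agent.Y119.HY.ps ev
  rw [Complex.ofReal_tsum]
  refine tsum_congr fun m => ?_
  have h3 : Hcg H m i j = ((coeff m (H i j) : ℚ) : ℂ) := rfl
  show _ = Hcg H m i j * _
  rw [h3]
  push_cast
  rfl

lemma ev_aeval_s (h : Sys n N B H W) {t : ℝ} (ht : 1 < t) (R : MvPolynomial (Fin (n * n)) (Polynomial ℚ)) :
    Cv t (MvPolynomial.aeval (hfg H) R) ∧ ((ev t (MvPolynomial.aeval (hfg H) R) : ℝ) : ℂ) =
      MvPolynomial.eval₂ (evq (((1 / t : ℝ)) : ℂ)) (fun j => ((ev t (hfg H j) : ℝ) : ℂ)) R := by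
  have ht0 : 0 < t := by linarith
  induction R using MvPolynomial.induction_on with
  | C p =>
    have h1 : MvPolynomial.aeval (hfg H) (MvPolynomial.C p) = (p : ℚ⟦X⟧) := by
      rw [MvPolynomial.aeval_C, PowerSeries.algebraMap_apply']
      simp
    rw [h1, MvPolynomial.eval₂_C]
    refine ⟨Cv.coe p, ?_⟩
    rw [ev_coe]
    unfold evq
    have h2 : (((1 / t : ℝ)) : ℂ) = algebraMap ℝ ℂ (1 / t) := rfl
    rw [h2]
    show _ = Polynomial.aeval (algebraMap ℝ ℂ (1 / t)) p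
    rw [Polynomial.aeval_algebraMap_apply]
    rfl
  | add p q hp hq =>
    rw [map_add, MvPolynomial.eval₂_add, ← hp.2, ← hq.2, Cv.ev_add ht0 hp.1 hq.1]
    refine ⟨Cv.add ht0 hp.1 hq.1, ?_⟩
    push_cast
    rfl
  | mul_X p j hp =>
    have h1 : Cv t (hfg H j) := Cv_H h ht _ _
    rw [map_mul, MvPolynomial.aeval_X, MvPolynomial.eval₂_mul, MvPolynomial.eval₂_X, ← hp.2, Cv.ev_mul ht0 hp.1 h1]
    refine ⟨Cv.mul ht0 hp.1 h1, ?_⟩
    push_cast
    rfl

/-- **invariance of the relations between the entries of the holomorphic part** -/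
theorem rel_inv_s (h : Sys n N B H W) {R : MvPolynomial (Fin (n * n)) (Polynomial ℚ)}
    (hR : MvPolynomial.aeval (hfg H) R = 0) {x : ℝ} (hx : 0 < x) (hx1 : x < 1) {g : Matrix (Fin n) (Fin n) ℂ}
    (hg : g ∈ Gal (Yf (cm N) (Hcg H))) {Z : Matrix (Fin n) (Fin n) ℂ}
    (hZ : Yf (cm N) (Hcg H) (x : ℂ) * g * E (cm N) (-Complex.log x) = Z) :
    MvPolynomial.eval₂ (evq (x : ℂ)) (fun j => Z (ix n j).1 (ix n j).2) R = 0 := by
  have hN : cm N ^ n = 0 := cm_nil h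
  -- the relation
  have hrel : PR (cm N) R ∈ Rel (Yf (cm N) (Hcg H)) := by
    intro y hy hy1
    rw [ev_PR]
    have e1 : Yf (cm N) (Hcg H) (y : ℂ) * E (cm N) (-Complex.log y) = Hf (Hcg H) (y : ℂ) := by
      unfold Yf
      rw [Matrix.mul_assoc, E_mul_neg hN, mul_one]
    rw [e1]
    have hy' : 1 < 1 / y := by rw [lt_div_iff₀ hy]; linarith
    have h1 := (ev_aeval_s h hy' R).2
    rw [hR] at h1
    have h2 : ev (1 / y) (0 : ℚ⟦X⟧) = 0 := by
      unfold ev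
      simp
    rw [h2, Complex.ofReal_zero, one_div_one_div] at h1
    have h3 : (fun j => ((ev (1 / y) (hfg H j) : ℝ) : ℂ)) = fun j => Hf (Hcg H) (y : ℂ) (ix n j).1 (ix n j).2 := by
      funext j
      unfold hfg
      rw [ev_H, one_div_one_div]
    rw [h3] at h1
    exact h1.symm
  have h1 := hg _ hrel x hx hx1
  rw [ev_PR, hZ] at h1
  exact h1

/-- the rational coefficients of `exp (- N L)` -/
noncomputable def qeg (N : Matrix (Fin n) (Fin n) ℚ) (l : ℕ) (c d : Fin n) : ℚ :=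
  (-1) ^ l / (l.factorial : ℚ) * (N ^ l) c d

lemma E_qeg (N : Matrix (Fin n) (Fin n) ℚ) (L : ℂ) (c d : Fin n) :
    E (cm N) (-L) c d = ∑ l ∈ Finset.range n, ((qeg N l c d : ℚ) : ℂ) * L ^ l := by
  unfold E
  rw [Matrix.sum_apply]
  refine Finset.sum_congr rfl fun l _ => ?_
  rw [Matrix.smul_apply, ← Pool.Agent.Y119.HY.cm_pow, Pool.Agent.Y119.HY.cm_apply, smul_eq_mul, neg_pow]
  unfold qeg
  push_cast
  ring

end one

variable {k : ℕ} {n : Fin k → ℕ}

/-- the part with rational coefficients -/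
noncomputable def rpg (N : ∀ i, Matrix (Fin (n i)) (Fin (n i)) ℚ) (i : Fin k) (a c d : Fin (n i)) :
    MvPolynomial (Vx n) ℚ :=
  MvPolynomial.X ⟨i, some ((ix (n i)).symm (a, c))⟩ *
    ∑ l ∈ Finset.range (n i), MvPolynomial.C (qeg (N i) l c d) * MvPolynomial.X ⟨i, none⟩ ^ l

/-- the substitution -/
noncomputable def subg (N : ∀ i, Matrix (Fin (n i)) (Fin (n i)) ℚ) (Ω : ∀ i, Matrix (Fin (n i)) (Fin (n i)) ℂ)
    (v : Ix n) : MvPolynomial (Vx n) ℂ :=
  ∑ c, ∑ d, MvPolynomial.map (algebraMap ℚ ℂ) (rpg N v.1 v.2.1 c d) * MvPolynomial.C (Ω v.1 d v.2.2)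

lemma aeval_rpg (N : ∀ i, Matrix (Fin (n i)) (Fin (n i)) ℚ) (Z : ∀ i, Matrix (Fin (n i)) (Fin (n i)) ℂ) (l : Fin k → ℂ)
    (i : Fin k) (a c d : Fin (n i)) :
    MvPolynomial.aeval (pt (fun i j => Z i (ix (n i) j).1 (ix (n i) j).2) l)
      (MvPolynomial.map (algebraMap ℚ ℂ) (rpg N i a c d)) = Z i a c * E (cm (N i)) (-l i) c d := by
  unfold rpg
  rw [map_mul, map_mul, MvPolynomial.map_X, MvPolynomial.aeval_X, map_sum, map_sum, E_qeg]
  congr 1
  · unfold pt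
    simp
  · refine Finset.sum_congr rfl fun e _ => ?_
    rw [map_mul, map_mul, map_pow, map_pow, MvPolynomial.map_X, MvPolynomial.aeval_X, MvPolynomial.map_C, MvPolynomial.aeval_C]
    rfl

lemma aeval_subg (N : ∀ i, Matrix (Fin (n i)) (Fin (n i)) ℚ) (Ω : ∀ i, Matrix (Fin (n i)) (Fin (n i)) ℂ)
    (Z : ∀ i, Matrix (Fin (n i)) (Fin (n i)) ℂ) (l : Fin k → ℂ)
    (v : Ix n) : MvPolynomial.aeval (pt (fun i j => Z i (ix (n i) j).1 (ix (n i) j).2) l) (subg N Ω v) =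
      pv (fun i => Z i * E (cm (N i)) (-l i) * Ω i) v := by
  show _ = (Z v.1 * E (cm (N v.1)) (-l v.1) * Ω v.1) v.2.1 v.2.2
  unfold subg
  rw [map_sum, Matrix.mul_apply]
  simp only [map_sum, map_mul, aeval_rpg, Matrix.mul_apply, Finset.sum_mul]
  rw [Finset.sum_comm]
  refine Finset.sum_congr rfl fun d _ => Finset.sum_congr rfl fun c _ => ?_
  rw [MvPolynomial.aeval_C]
  rfl

/-! ### degrees -/

lemma deg_subg (N : ∀ i, Matrix (Fin (n i)) (Fin (n i)) ℚ) (Ω : ∀ i, Matrix (Fin (n i)) (Fin (n i)) ℂ) (v : Ix n) :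
    (subg N Ω v).totalDegree ≤ dg n := by
  unfold subg
  refine (MvPolynomial.totalDegree_finsetSum _ _).trans (Finset.sup_le fun c _ => ?_)
  refine (MvPolynomial.totalDegree_finsetSum _ _).trans (Finset.sup_le fun d _ => ?_)
  refine (MvPolynomial.totalDegree_mul _ _).trans ?_
  rw [MvPolynomial.totalDegree_C, add_zero]
  have h0 : (MvPolynomial.map (algebraMap ℚ ℂ) (rpg N v.1 v.2.1 c d)).totalDegree ≤ (rpg N v.1 v.2.1 c d).totalDegree :=
    Finset.sup_mono (MvPolynomial.support_map_subset _ _)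
  refine h0.trans ?_
  unfold rpg
  refine (MvPolynomial.totalDegree_mul _ _).trans ?_
  rw [MvPolynomial.totalDegree_X]
  have h1 : n v.1 ≤ ∑ i, n i := Finset.single_le_sum (f := n) (fun _ _ => Nat.zero_le _) (Finset.mem_univ _)
  have h2 : (∑ l ∈ Finset.range (n v.1), MvPolynomial.C (qeg (N v.1) l c d) *
      (MvPolynomial.X ⟨v.1, none⟩ : MvPolynomial (Vx n) ℚ) ^ l).totalDegree ≤ n v.1 := by
    refine (MvPolynomial.totalDegree_finsetSum _ _).trans (Finset.sup_le fun l hl => ?_)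
    refine (MvPolynomial.totalDegree_mul _ _).trans ?_
    rw [MvPolynomial.totalDegree_C, zero_add, MvPolynomial.totalDegree_X_pow]
    exact (Finset.mem_range.1 hl).le
  unfold dg
  omega

lemma MV_mul_subg {V : Submodule ℚ ℂ} (N : ∀ i, Matrix (Fin (n i)) (Fin (n i)) ℚ)
    (Ω : ∀ i, Matrix (Fin (n i)) (Fin (n i)) ℂ) {p : MvPolynomial (Vx n) ℂ} (hp : MV V p)
    (v : Ix n) : MV (Ext V (fo Ω)) (p * subg N Ω v) := by
  unfold subg
  rw [Finset.mul_sum]
  refine MV.sum _ fun c _ => ?_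
  rw [Finset.mul_sum]
  refine MV.sum _ fun d _ => ?_
  rw [← mul_assoc]
  intro m
  rw [mul_comm, MvPolynomial.coeff_C_mul, mul_comm]
  exact mem_Ext_one Ω (some ⟨v.1, d, v.2.2⟩) (hp.mul_rat _ m)

/-- the substitution -/
noncomputable def subg' (N : ∀ i, Matrix (Fin (n i)) (Fin (n i)) ℚ) (Ω : ∀ i, Matrix (Fin (n i)) (Fin (n i)) ℂ) :
    Jx n → MvPolynomial (Vx n) ℂ
  | ⟨i, none⟩ => MvPolynomial.X ⟨i, none⟩
  | ⟨i, some p⟩ => subg N Ω ⟨i, p⟩

lemma aeval_subg' (N : ∀ i, Matrix (Fin (n i)) (Fin (n i)) ℚ) (Ω : ∀ i, Matrix (Fin (n i)) (Fin (n i)) ℂ)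
    (Z : ∀ i, Matrix (Fin (n i)) (Fin (n i)) ℂ) (l : Fin k → ℂ)
    (v : Jx n) : MvPolynomial.aeval (pt (fun i j => Z i (ix (n i) j).1 (ix (n i) j).2) l) (subg' N Ω v) =
      pw l (fun i => Z i * E (cm (N i)) (-l i) * Ω i) v := by
  obtain ⟨i, _ | p⟩ := v
  · show MvPolynomial.aeval _ (MvPolynomial.X _) = _
    rw [MvPolynomial.aeval_X]
    rfl
  · exact aeval_subg N Ω Z l ⟨i, p⟩

lemma deg_subg' (N : ∀ i, Matrix (Fin (n i)) (Fin (n i)) ℚ) (Ω : ∀ i, Matrix (Fin (n i)) (Fin (n i)) ℂ) (v : Jx n) :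
    (subg' N Ω v).totalDegree ≤ dg n := by
  obtain ⟨i, _ | p⟩ := v
  · show (MvPolynomial.X _ : MvPolynomial (Vx n) ℂ).totalDegree ≤ _
    rw [MvPolynomial.totalDegree_X]
    unfold dg
    omega
  · exact deg_subg N Ω ⟨i, p⟩

lemma MV_mul_subg' {V : Submodule ℚ ℂ} (N : ∀ i, Matrix (Fin (n i)) (Fin (n i)) ℚ)
    (Ω : ∀ i, Matrix (Fin (n i)) (Fin (n i)) ℂ) {p : MvPolynomial (Vx n) ℂ} (hp : MV V p)
    (v : Jx n) : MV (Ext V (fo Ω)) (p * subg' N Ω v) := by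
  obtain ⟨i, _ | q⟩ := v
  · have h1 := MV.ext Ω (hp.mul_rat (MvPolynomial.X ⟨i, none⟩))
    rwa [MvPolynomial.map_X] at h1
  · exact MV_mul_subg N Ω hp ⟨i, q⟩

lemma MV_msg' (N : ∀ i, Matrix (Fin (n i)) (Fin (n i)) ℚ) (Ω : ∀ i, Matrix (Fin (n i)) (Fin (n i)) ℂ)
    {V : Submodule ℚ ℂ} {c : ℂ} (hc : c ∈ V) (ms : Multiset (Jx n)) :
    MV (Vn Ω V (Multiset.card ms)) (MvPolynomial.C c * (ms.map (subg' N Ω)).prod) ∧
      (MvPolynomial.C c * (ms.map (subg' N Ω)).prod).totalDegree ≤ Multiset.card ms * dg n := by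
  classical
  induction ms using Multiset.induction_on with
  | empty =>
    rw [Multiset.map_zero, Multiset.prod_zero, mul_one, Multiset.card_zero, zero_mul, MvPolynomial.totalDegree_C]
    refine ⟨fun m => ?_, le_rfl⟩
    rw [MvPolynomial.coeff_C]
    split_ifs
    · exact hc
    · exact V.zero_mem
  | cons v ms ih =>
    have h1 : MvPolynomial.C c * ((v ::ₘ ms).map (subg' N Ω)).prod =
        (MvPolynomial.C c * (ms.map (subg' N Ω)).prod) * subg' N Ω v := by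
      rw [Multiset.map_cons, Multiset.prod_cons]
      ring
    rw [h1, Multiset.card_cons]
    refine ⟨MV_mul_subg' N Ω ih.1 v, (MvPolynomial.totalDegree_mul _ _).trans ?_⟩
    rw [add_mul, one_mul]
    exact add_le_add ih.2 (deg_subg' N Ω v)

/-- the substituted polynomial -/
theorem aeval_MVg' (N : ∀ i, Matrix (Fin (n i)) (Fin (n i)) ℚ) (Ω : ∀ i, Matrix (Fin (n i)) (Fin (n i)) ℂ)
    {V : Submodule ℚ ℂ} {δ : ℕ} {P : MvPolynomial (Jx n) ℂ}
    (hP : P.totalDegree ≤ δ) (hV : ∀ s, P.coeff s ∈ V) :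
    MV (Vn Ω V δ) (MvPolynomial.aeval (subg' N Ω) P) ∧ (MvPolynomial.aeval (subg' N Ω) P).totalDegree ≤ δ * dg n := by
  classical
  have h1 : MvPolynomial.aeval (subg' N Ω) P = ∑ s ∈ P.support, MvPolynomial.C (P.coeff s) *
      ((Finsupp.toMultiset s).map (subg' N Ω)).prod := by
    rw [MvPolynomial.aeval_def, MvPolynomial.eval₂_eq]
    refine Finset.sum_congr rfl fun s _ => ?_
    congr 1
    rw [Finsupp.toMultiset_map, Finsupp.prod_toMultiset, Finsupp.prod_mapDomain_index (by simp) (by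
      intro a b c
      rw [pow_add])]
    rfl
  have h2 : ∀ s ∈ P.support, Multiset.card (Finsupp.toMultiset s) ≤ δ := by
    intro s hs
    rw [Finsupp.card_toMultiset]
    exact (MvPolynomial.le_totalDegree hs).trans hP
  rw [h1]
  refine ⟨MV.sum _ fun s hs => MV_mono Ω (h2 s hs) (MV_msg' N Ω (hV s) _).1, ?_⟩
  refine (MvPolynomial.totalDegree_finsetSum _ _).trans (Finset.sup_le fun s hs => ?_)
  exact (MV_msg' N Ω (hV s) _).2.trans (Nat.mul_le_mul_right _ (h2 s hs))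

/-! ### specialised relations vanish on the torsors -/

variable {N B : ∀ i, Matrix (Fin (n i)) (Fin (n i)) ℚ} {H W : ∀ i, Matrix (Fin (n i)) (Fin (n i)) ℚ⟦X⟧}

theorem relI_vanish_s (hS : ∀ i, Sys (n i) (N i) (B i) (H i) (W i)) {δ : ℕ} {t : Fin k → ℕ} (ht : ∀ i, 2 ≤ t i)
    {Z : ∀ i, Matrix (Fin (n i)) (Fin (n i)) ℂ}
    (hZ : ∀ i, ∃ g ∈ Gal (Yf (cm (N i)) (Hcg (H i))),
      Yf (cm (N i)) (Hcg (H i)) (((1 / (t i : ℝ) : ℝ)) : ℂ) * g * E (cm (N i)) (-Complex.log (((1 / (t i : ℝ) : ℝ)) : ℂ)) = Z i)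
    (l : Fin k → ℂ)
    {P : MvPolynomial (Vx n) ℂ} (hP : P ∈ relI δ (fun i => hfg (H i)) t) :
    MvPolynomial.aeval (pt (fun i j => Z i (ix (n i) j).1 (ix (n i) j).2) l) P = 0 := by
  set θ := pt (fun i j => Z i (ix (n i) j).1 (ix (n i) j).2) l with hθ
  have h1 : relI δ (fun i => hfg (H i)) t ≤ RingHom.ker (MvPolynomial.aeval (R := ℂ) θ).toRingHom := by
    unfold relI
    rw [Ideal.span_le]
    rintro _ ⟨i, R, -, hR, rfl⟩
    show (MvPolynomial.aeval θ) (MvPolynomial.rename (fun j => (⟨i, some j⟩ : Vx n)) (MvPolynomial.map (spec (t i)) R)) = 0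
    rw [MvPolynomial.aeval_rename, MvPolynomial.aeval_def, MvPolynomial.eval₂_map]
    have h2 : (algebraMap ℂ ℂ).comp (spec (t i)) = evq (((1 / (t i : ℝ) : ℝ)) : ℂ) := by
      rw [← spec_eq]
      rfl
    rw [h2]
    have h3 : (2 : ℝ) ≤ t i := by exact_mod_cast ht i
    obtain ⟨g, hg, hgZ⟩ := hZ i
    have h4 := rel_inv_s (hS i) (R := R) hR (x := 1 / (t i : ℝ)) (by positivity)
      (by rw [div_lt_one (by linarith)]; linarith) hg hgZ
    have h5 : (θ ∘ fun j => (⟨i, some j⟩ : Vx n)) = fun j : Fin (n i * n i) =>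
        Z i (ix (n i) j).1 (ix (n i) j).2 := by
      funext j
      rfl
    rw [h5]
    exact h4
  exact h1 hP

end Pool.Agent.Run7.h225.HG.SYS2

namespace Pool.Agent.Run7.h225.HG

open SYS2 in
/-- **Few exceptional tuples.** -/
theorem p_SYS2 : S_SYS2 := by
  classical
  intro h1S k δ D n N B H W T hS hT
  obtain ⟨c, C, hc, hC, hmain⟩ := tuples k (δ * dg n) ((Fintype.card (Option (Ix n))) ^ δ * D) (fun i => n i * n i)
    (fun i => hfg (H i)) (fun i => by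
      obtain ⟨C₁, -, hs, -⟩ := Pool.Agent.Y119.HY.SDc.unif
        (y := fun p : Fin (n i) × Fin (n i) => H i p.1 p.2) fun p => (hS i).sH p.1 p.2
      exact ⟨C₁, fun j m => hs (ix (n i) j) m⟩) (fun i => h1S (n i) (N i) (B i) (H i) (W i) (hS i) _)
  refine ⟨c, C, hc, hC, ?_⟩
  intro V _ hV Ω x N' hx hN' S hSS
  obtain ⟨hfin, hrank⟩ := Vn_fin Ω V δ
  refine hmain (Vn Ω V δ) (hrank.trans (Nat.mul_le_mul_left _ hV)) x N' hN' S fun t htS => ?_
  obtain ⟨hbox, P, hPd, hPV, hP0, l, g, hg, hPg⟩ := hSS t htS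
  refine ⟨hbox, MvPolynomial.aeval (subg' N Ω) P, (aeval_MVg' N Ω hPd hPV).2, (aeval_MVg' N Ω hPd hPV).1, ?_, ?_⟩
  · -- the value
    have h1 : valpt (fun i => hfg (H i)) t =
        pt (fun i j => Hf (Hcg (H i)) (((1 / (t i : ℝ) : ℝ)) : ℂ) (ix (n i) j).1 (ix (n i) j).2)
          (fun i => ((Real.log (t i) : ℝ) : ℂ)) := by
      unfold valpt
      congr 1
      funext i j
      exact ev_H _ _ _
    have h2 : MvPolynomial.aeval (valpt (fun i => hfg (H i)) t) (MvPolynomial.aeval (subg' N Ω) P) =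
        MvPolynomial.aeval (fun v => MvPolynomial.aeval (valpt (fun i => hfg (H i)) t) (subg' N Ω v)) P :=
      MvPolynomial.aeval_bind₁ _ _ _
    rw [h2, h1]
    have h3 := fun v => aeval_subg' N Ω (fun i => Hf (Hcg (H i)) (((1 / (t i : ℝ) : ℝ)) : ℂ))
      (fun i => ((Real.log (t i) : ℝ) : ℂ)) v
    simp only [h3]
    exact hP0
  · intro hmem
    apply hPg
    have ht2 : ∀ i, 2 ≤ t i := fun i => by
      have := (hbox i).1
      have := hx i
      omega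
    have hN : ∀ i, (cm (N i)) ^ n i = 0 := fun i => cm_nil (hS i)
    set Z : ∀ i, Matrix (Fin (n i)) (Fin (n i)) ℂ := fun i => g i * E (cm (N i)) (l i) with hZd
    have hZ : ∀ i, ∃ γ ∈ Gal (Yf (cm (N i)) (Hcg (H i))),
        Yf (cm (N i)) (Hcg (H i)) (((1 / (t i : ℝ) : ℝ)) : ℂ) * γ *
          E (cm (N i)) (-Complex.log (((1 / (t i : ℝ) : ℝ)) : ℂ)) = Z i := by
      intro i
      have h3 : (2 : ℝ) ≤ t i := by exact_mod_cast ht2 i
      obtain ⟨γ, hγ, hγe⟩ := hT i (1 / (t i : ℝ)) (by positivity) (by rw [div_lt_one (by linarith)]; linarith)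
        (g i) (hg i) (l i + Complex.log (((1 / (t i : ℝ) : ℝ)) : ℂ))
      refine ⟨γ, hγ, ?_⟩
      rw [hγe, Matrix.mul_assoc, ← Pool.Agent.Y119.HY.E_add (hN i), hZd]
      congr 2
      ring
    have h1 := relI_vanish_s hS ht2 hZ l hmem
    have h2 : MvPolynomial.aeval (pt (fun i j => Z i (ix (n i) j).1 (ix (n i) j).2) l) (MvPolynomial.aeval (subg' N Ω) P) =
        MvPolynomial.aeval (fun v => MvPolynomial.aeval (pt (fun i j => Z i
          (ix (n i) j).1 (ix (n i) j).2) l) (subg' N Ω v)) P := MvPolynomial.aeval_bind₁ _ _ _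
    rw [h2] at h1
    have h3 := fun v => aeval_subg' N Ω Z l v
    simp only [h3] at h1
    have h4 : (fun i => Z i * E (cm (N i)) (-l i) * Ω i) = fun i => g i * Ω i := by
      funext i
      have e1 : E (cm (N i)) (l i) * E (cm (N i)) (-l i) = 1 := E_mul_neg (hN i) (l i)
      rw [hZd]
      simp only
      rw [Matrix.mul_assoc (g i), e1, mul_one]
    rw [h4] at h1
    exact h1

end Pool.Agent.Run7.h225.HG
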