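import Pool.Agent.Run7.h225.HG.Two
import Pool.Agent.Run7.h225.HG.SYS1
import Pool.Agent.Run7.h225.HG.SYS2
import Pool.Agent.Run7.h893.HO.Odd

/-!
# The families of the theorem on tuples
-/

set_option autoImplicit false

open Matrix PowerSeries
open Pool.Agent.Y113 hiding Bm
open Pool.Agent.Y119.HZ
open Pool.Agent.Y119.HY (Am Jm Bm Hq cm E Hf Hc Yf Gal Sol PG Lens cm_mul cm_add ec uc Ac_ec Ac_last
  cm_zero cm_one cm_transpose cm_apply Ac_nil mem_Lens symm_Lens Jm_rel conj_E E_mul_neg)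
open Run7.h893.HO

namespace Pool.Agent.Run7.h225.HG

/-- A hypergeometric family with the torsor `T` of the relations. -/
structure Fm (n : ℕ) (Q : Polynomial ℚ) (T : ℂ → Set (Matrix (Fin n) (Fin n) ℂ)) : Prop where
  g : QG n Q
  sdc : ∀ i j, SDc (Hp n Q i j)
  wex : ∃ W : Matrix (Fin n) (Fin n) ℚ⟦X⟧, Hp n Q * W = 1 ∧ ∀ i j, SDc (W i j)
  tor : ∀ x : ℝ, 0 < x → x < 1 → ∀ X ∈ T x, ∀ c : ℂ, ∃ g ∈ Gal (Yf (cm (Am n)) (Hc n Q)),
    Yf (cm (Am n)) (Hc n Q) x * g = X * E (cm (Am n)) c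
  mem : ∀ x : ℝ, 0 < x → x < 1 → Yf (cm (Am n)) (Hc n Q) x ∈ T x

lemma Hcg_Hp (n : ℕ) (Q : Polynomial ℚ) : Hcg (Hp n Q) = Hc n Q := by
  funext k
  unfold Hcg Hc
  rw [cf_Hp]

/-- the system -/
theorem Fm.sys {n : ℕ} {Q : Polynomial ℚ} (hQ : QG n Q) (hH : ∀ i j, SDc (Hp n Q i j))
    {W : Matrix (Fin n) (Fin n) ℚ⟦X⟧} (hW : Hp n Q * W = 1) (hW' : ∀ i j, SDc (W i j)) :
    Sys n (Am n) (Bm n Q) (Hp n Q) W where
  int := ⟨fun i j => if (j : ℕ) = (i : ℕ) + 1 then 1 else 0, fun i j => by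
    unfold Am
    rw [Matrix.of_apply]
    by_cases h : (j : ℕ) = (i : ℕ) + 1
    · simp [h]
    · simp [h]⟩
  nil := Pool.Agent.Y119.HY.Am_nil
  zero := by rw [cf_Hp, Pool.Agent.Y119.HY.Hq_zero]
  step := fun k => by
    ext i j
    rw [cf_Hp, cf_Hp]
    have h := step_q_g hQ k i j
    simp only [Matrix.add_apply, Matrix.smul_apply, Matrix.sub_apply, smul_eq_mul]
    exact h
  inv := hW
  sH := hH
  sW := hW'

/-- **Few exceptional tuples.** -/
theorem tuples_fm (k δ D : ℕ) (n : Fin k → ℕ) (Q : Fin k → Polynomial ℚ)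
    (T : ∀ i, ℂ → Set (Matrix (Fin (n i)) (Fin (n i)) ℂ)) (hQ : ∀ i, Fm (n i) (Q i) (T i)) :
    ∃ c C : ℝ, 0 < c ∧ 0 ≤ C ∧ ∀ (V : Submodule ℚ ℂ) [Module.Finite ℚ V], Module.finrank ℚ V ≤ D →
      ∀ Ω : (∀ i, Matrix (Fin (n i)) (Fin (n i)) ℂ), ∀ (x : Fin k → ℕ) (N : ℕ), (∀ i, 1 ≤ x i) → 1 ≤ N →
      ∀ S : Finset (Fin k → ℕ), (∀ t ∈ S, (∀ i, x i < t i ∧ t i ≤ x i + N) ∧ ∃ P : MvPolynomial (Jx n) ℂ,
        P.totalDegree ≤ δ ∧ (∀ s, P.coeff s ∈ V) ∧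
        MvPolynomial.aeval (pw (fun i => ((Real.log (t i) : ℝ) : ℂ)) fun i => Yt (n i) (Q i) (t i) * Ω i) P = 0 ∧
        ∃ (l : Fin k → ℂ) (g : ∀ i, Matrix (Fin (n i)) (Fin (n i)) ℂ),
          (∀ i, g i ∈ T i (((1 / (t i : ℝ) : ℝ)) : ℂ)) ∧
          MvPolynomial.aeval (pw l fun i => g i * Ω i) P ≠ 0) →
      (S.card : ℝ) ≤ C * (N : ℝ) ^ (k - 1) * ∑ i, (1 + N / ((x i : ℝ) + N) ^ c) := by
  have hW := fun i => (hQ i).wex
  choose W hW1 hW2 using hW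
  have h := p_SYS2 p_SYS1 k δ D n (fun i => Am (n i)) (fun i => Bm (n i) (Q i)) (fun i => Hp (n i) (Q i)) W T
    (fun i => Fm.sys (hQ i).g (hQ i).sdc (hW1 i) (hW2 i)) (fun i x hx hx1 X hX c => by
      rw [Hcg_Hp]
      exact (hQ i).tor x hx hx1 X hX c)
  have hY : ∀ (i : Fin k) (t : ℕ), Ytg (Am (n i)) (Hp (n i) (Q i)) t = Yt (n i) (Q i) t := by
    intro i t
    unfold Ytg Yt
    rw [Hcg_Hp]
  simp only [hY] at h
  exact h

/-- the families with an invariant form -/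
theorem Fm.ofFam {n : ℕ} {Q : Polynomial ℚ} {J0 : Matrix (Fin n) (Fin n) ℂ} {B : ℂ → Matrix (Fin n) (Fin n) ℂ}
    (hF : Fam n Q J0 B) : Fm n Q (fun z => {X | X.transpose * B z * X = J0}) where
  g := hF.g
  sdc := hF.sdc
  wex := hF.wex
  tor := by
    intro x hx hx1 X hX c
    obtain ⟨g, hg, hgX⟩ := torsor_inv hF.det (hF.form x hx hx1) (show X.transpose * B x * X = J0 from hX)
    have hE := Pool.Agent.Y119.HY.E_isom (Ac_nil (n := n)) hF.zero c
    exact ⟨g * E (cm (Am n)) c, hF.inv _ (isom_mul hg hE), by rw [← Matrix.mul_assoc, hgX]⟩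
  mem := fun x hx hx1 => hF.form x hx hx1

/-! ### families of special linear type -/

section sl

variable {n : ℕ} {α : Fin n → ℚ}

lemma QA_monic (α : Fin n → ℚ) : (QA α).Monic := by
  unfold QA
  exact Polynomial.monic_prod_of_monic _ _ fun i _ => Polynomial.monic_X_add_C _

lemma QA_deg (α : Fin n → ℚ) : (QA α).natDegree = n := by
  unfold QA
  rw [Polynomial.natDegree_prod_of_monic _ _ fun i _ => Polynomial.monic_X_add_C _]
  simp only [Polynomial.natDegree_X_add_C]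
  rw [Finset.sum_const, Finset.card_univ, Fintype.card_fin, smul_eq_mul, mul_one]

lemma QA_coeff (hn : 1 ≤ n) (α : Fin n → ℚ) : (QA α).coeff (n - 1) = ∑ j, α j := by
  have h1 : (QA α).nextCoeff = (QA α).coeff (n - 1) := by
    rw [Polynomial.nextCoeff_of_natDegree_pos (by rw [QA_deg]; omega), QA_deg]
  rw [← h1]
  unfold QA
  rw [Polynomial.Monic.nextCoeff_prod _ _ fun i _ => Polynomial.monic_X_add_C _]
  simp only [Polynomial.nextCoeff_X_add_C]

lemma QG_QA (hn : 2 ≤ n) (hα : ∀ j, ∀ l : ℕ, (l : ℚ) + α j ≠ 0) : QG n (QA α) where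
  two := hn
  monic := QA_monic α
  deg := QA_deg α
  ne := by
    intro l
    unfold QA
    rw [Polynomial.eval_prod]
    refine Finset.prod_ne_zero_iff.2 fun i _ => ?_
    rw [Polynomial.eval_add, Polynomial.eval_X, Polynomial.eval_C]
    exact hα i l

lemma dq_QA (α : Fin n → ℚ) : dq n (QA α) = QA fun j => -α j := by
  unfold dq QA
  rw [Polynomial.prod_comp]
  have h1 : Polynomial.C ((-1 : ℚ) ^ n) = ∏ _j : Fin n, Polynomial.C (-1 : ℚ) := by
    rw [Finset.prod_const, Finset.card_univ, Fintype.card_fin, map_pow]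
  rw [h1, ← Finset.prod_mul_distrib]
  refine Finset.prod_congr rfl fun j _ => ?_
  rw [Polynomial.add_comp, Polynomial.X_comp, Polynomial.C_comp, map_neg, map_neg, map_one]
  ring

lemma RatEq_QA {m : ℕ} {β : Fin m → ℚ} (h : RatEq (QA α) (QA β)) :
    Multiset.map (fun j => Int.fract (α j)) Finset.univ.val = Multiset.map (fun j => Int.fract (β j)) Finset.univ.val := by
  obtain ⟨s, p, hs, hp, h1⟩ := h
  have e : ∀ {r : ℕ} (γ : Fin r → ℚ), (QA γ).map (algebraMap ℚ ℂ) = ∏ j, (Polynomial.X + Polynomial.C ((γ j : ℚ) : ℂ)) := by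
    intro r γ
    unfold QA
    rw [Polynomial.map_prod]
    refine Finset.prod_congr rfl fun j _ => ?_
    rw [Polynomial.map_add, Polynomial.map_X, Polynomial.map_C]
    rfl
  rw [e, e] at h1
  exact p_CLS n m α β s p hs hp h1

lemma nonint (h : ∀ j, ∀ a : ℤ, α j ≠ a) (j : Fin n) (l : ℕ) : (l : ℚ) + α j ≠ 0 := by
  intro h0
  apply h j (-(l : ℤ))
  push_cast
  linear_combination h0

lemma nonint' (h : ∀ j, ∀ a : ℤ, α j ≠ a) (j : Fin n) (l : ℕ) : (l : ℚ) + -α j ≠ 0 := by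
  intro h0
  apply h j (l : ℤ)
  push_cast
  linear_combination -h0

/-- the inverse of the holomorphic part -/
theorem wex_QA (hn : 2 ≤ n) (h : ∀ j, ∀ a : ℤ, α j ≠ a) :
    ∃ W : Matrix (Fin n) (Fin n) ℚ⟦X⟧, Hp n (QA α) * W = 1 ∧ ∀ i j, SDc (W i j) := by
  have hQ := QG_QA hn (nonint h)
  have hQ' : QG n (dq n (QA α)) := by
    rw [dq_QA]
    exact QG_QA hn (nonint' h)
  have hJ := DUAL.Jdet hQ
  refine ⟨km (Jm n (QA α))⁻¹ * ((Hp n (dq n (QA α))).transpose * km (Jm n (QA α))), ?_, ?_⟩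
  · rw [mul_eq_one_comm, Matrix.mul_assoc, DUAL.form hQ hQ']
    unfold km
    rw [← map_mul, Matrix.nonsing_inv_mul _ (Ne.isUnit hJ), map_one]
  · have h1 : ∀ i j, SDc (Hp n (dq n (QA α)) i j) := by
      intro i j
      rw [dq_QA]
      unfold Hp
      rw [Matrix.of_apply]
      exact sdc_hps_g (Fintype.card_fin n) (nonint' h) (QG_QA hn (nonint' h)) i j
    exact SDc_matmul (SDc_km _) (SDc_matmul (fun i j => h1 j i) (SDc_km _))

/-- **families of special linear type** -/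
theorem fm_sl (hASY : S_ASY) (hREFL : S_REFL) (hREFL2 : S_REFL2) (hn : 2 ≤ n) (h : ∀ j, ∀ a : ℤ, α j ≠ a)
    (hc : (∑ j, α j = 0 ∧ Multiset.map (fun j => Int.fract (α j)) Finset.univ.val ≠
        Multiset.map (fun j => Int.fract (-α j)) Finset.univ.val) ∨
      ((∀ a : ℤ, (a : ℚ) ≠ ∑ j, α j) ∧ ((∀ a : ℤ, (a : ℚ) ≠ 2 * ∑ j, α j) ∨ Even n))) :
    Fm n (QA α) (TS n (∑ j, α j)) := by
  have hQ := QG_QA hn (nonint h)
  have hQ' : QG n (dq n (QA α)) := by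
    rw [dq_QA]
    exact QG_QA hn (nonint' h)
  have hs : (QA α).coeff (n - 1) = ∑ j, α j := QA_coeff (by omega) α
  have hG : ∀ g : Matrix (Fin n) (Fin n) ℂ, g.det ^ ((QA α).coeff (n - 1)).den = 1 →
      g ∈ Gal (Yf (cm (Am n)) (Hc n (QA α))) := by
    intro g hg
    rcases hc with ⟨h0, h1⟩ | ⟨h0, h1⟩
    · refine gal_unip hASY hQ hQ' (hs.trans h0) (fun hR => h1 ?_) g ?_
      · rw [dq_QA] at hR
        exact RatEq_QA hR
      · rwa [hs, h0, Rat.den_ofNat, pow_one] at hg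
    · refine gal_refl hREFL hREFL2 hQ hQ' ?_ ?_ g hg
      · rw [hs]
        exact h0
      · rw [hs]
        exact h1
  refine ⟨hQ, fun i j => ?_, wex_QA hn h, ?_, ?_⟩
  · unfold Hp
    rw [Matrix.of_apply]
    exact sdc_hps_g (Fintype.card_fin n) (nonint h) hQ i j
  · intro x hx hx1 X hX c
    rw [← hs] at hX
    exact tor_of hQ hG hx hx1 hX c
  · intro x hx hx1
    rw [← hs]
    exact det_Yf hQ hx hx1

end sl

end Pool.Agent.Run7.h225.HG
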