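import Pool.Agent.Run7.h225.HG.Iface2

/-!
# Piece BLK of the project HYG: direct sums of systems
-/

set_option autoImplicit false

open PowerSeries Matrix
open Pool.Agent.Y113 hiding Bm
open Pool.Agent.Y120.GF Pool.Agent.Y120.GH Pool.Agent.Y119.HZ
open Pool.Agent.Y119.HY (Am Jm Bm Hq cm E Hf Hc Yf Vr Rel Gal Sol PG Lens)

namespace Pool.Agent.Run7.h225.HG

namespace BLK

variable {r : ℕ} {n : Fin r → ℕ}

lemma blk_apply {R : Type} [CommRing R] (M : ∀ j, Matrix (Fin (n j)) (Fin (n j)) R) (a b : Fin (∑ j, n j)) :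
    blk n R M a b = Matrix.blockDiagonal' M (finSigmaFinEquiv.symm a) (finSigmaFinEquiv.symm b) := rfl

lemma blk_map {R S : Type} [CommRing R] [CommRing S] (f : R → S) (hf : f 0 = 0)
    (M : ∀ j, Matrix (Fin (n j)) (Fin (n j)) R) : (blk n R M).map f = blk n S fun j => (M j).map f := by
  ext a b
  rw [Matrix.map_apply, blk_apply, blk_apply, ← Matrix.blockDiagonal'_map M f hf]
  rfl

lemma blk_smul {R : Type} [CommRing R] (c : R) (M : ∀ j, Matrix (Fin (n j)) (Fin (n j)) R) :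
    blk n R (fun j => c • M j) = c • blk n R M := by
  ext a b
  rw [Matrix.smul_apply, blk_apply, blk_apply]
  exact congrFun (congrFun (Matrix.blockDiagonal'_smul c M) _) _

/-- an entry of the block diagonal matrix is zero or an entry of one of the matrices -/
lemma blk_cases (a b : Fin (∑ j, n j)) :
    (∀ (R : Type) [CommRing R] (M : ∀ j, Matrix (Fin (n j)) (Fin (n j)) R), blk n R M a b = 0) ∨
    ∃ (j : Fin r) (i k : Fin (n j)), ∀ (R : Type) [CommRing R] (M : ∀ j, Matrix (Fin (n j)) (Fin (n j)) R),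
      blk n R M a b = M j i k := by
  rcases ha : finSigmaFinEquiv.symm a with ⟨j, i⟩
  rcases hb : finSigmaFinEquiv.symm b with ⟨j', k⟩
  by_cases h : j = j'
  · subst h
    right
    refine ⟨j, i, k, fun R _ M => ?_⟩
    rw [blk_apply, ha, hb, Matrix.blockDiagonal'_apply_eq]
  · left
    intro R _ M
    rw [blk_apply, ha, hb, Matrix.blockDiagonal'_apply_ne _ _ _ h]

lemma le_sum (j : Fin r) : n j ≤ ∑ j, n j := Finset.single_le_sum (f := n) (fun _ _ => Nat.zero_le _) (Finset.mem_univ j)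

lemma blk_pow_zero {R : Type} [CommRing R] (M : ∀ j, Matrix (Fin (n j)) (Fin (n j)) R) (h : ∀ j, M j ^ n j = 0) :
    (blk n R M) ^ (∑ j, n j) = 0 := by
  rw [← map_pow, show M ^ (∑ j, n j) = 0 from funext fun j => pow_eq_zero_of_le (le_sum j) (h j), map_zero]

lemma cm_blk (M : ∀ j, Matrix (Fin (n j)) (Fin (n j)) ℚ) : cm (blk n ℚ M) = blk n ℂ fun j => cm (M j) :=
  blk_map _ (map_zero (algebraMap ℚ ℂ)) M

lemma cf_blk (H : ∀ j, Matrix (Fin (n j)) (Fin (n j)) ℚ⟦X⟧) (k : ℕ) :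
    cf (blk n ℚ⟦X⟧ H) k = blk n ℚ fun j => cf (H j) k :=
  blk_map _ (map_zero (coeff k)) H

lemma Hcg_blk (H : ∀ j, Matrix (Fin (n j)) (Fin (n j)) ℚ⟦X⟧) :
    Hcg (blk n ℚ⟦X⟧ H) = fun k => blk n ℂ fun j => Hcg (H j) k := by
  funext k
  unfold Hcg
  rw [cf_blk, cm_blk]

lemma E_blk (N : ∀ j, Matrix (Fin (n j)) (Fin (n j)) ℂ) (h : ∀ j, N j ^ n j = 0) (c : ℂ) :
    E (blk n ℂ N) c = blk n ℂ fun j => E (N j) c := by
  unfold E
  have h1 : ∀ i : ℕ, (c ^ i / (i.factorial : ℂ)) • (blk n ℂ N) ^ i =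
      blk n ℂ (fun j => (c ^ i / (i.factorial : ℂ)) • N j ^ i) := by
    intro i
    rw [blk_smul, ← map_pow]
    rfl
  simp only [h1]
  rw [← map_sum]
  congr 1
  funext j
  rw [Finset.sum_apply]
  refine (Finset.sum_subset (Finset.range_subset_range.2 (le_sum j)) fun i _ hi => ?_).symm
  rw [Finset.mem_range, not_lt] at hi
  rw [pow_eq_zero_of_le hi (h j), smul_zero]

lemma Hf_blk (H : ∀ j, ℕ → Matrix (Fin (n j)) (Fin (n j)) ℂ) (z : ℂ) :
    Hf (fun k => blk n ℂ fun j => H j k) z = blk n ℂ fun j => Hf (H j) z := by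
  ext a b
  rcases blk_cases a b with h | ⟨j, i, k, h⟩
  · rw [h]
    unfold Hf
    rw [Matrix.of_apply]
    simp only [h]
    unfold Pool.Agent.Y119.HY.ps
    simp
  · rw [h]
    unfold Hf
    rw [Matrix.of_apply, Matrix.of_apply]
    simp only [h]

lemma Yf_blk (N : ∀ j, Matrix (Fin (n j)) (Fin (n j)) ℂ) (hN : ∀ j, N j ^ n j = 0)
    (H : ∀ j, ℕ → Matrix (Fin (n j)) (Fin (n j)) ℂ) (z : ℂ) :
    Yf (blk n ℂ N) (fun k => blk n ℂ fun j => H j k) z = blk n ℂ fun j => Yf (N j) (H j) z := by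
  unfold Yf
  rw [Hf_blk, E_blk N hN, ← map_mul]
  rfl

lemma Sol_blk (N B : ∀ j, Matrix (Fin (n j)) (Fin (n j)) ℂ) (H : ∀ j, ℕ → Matrix (Fin (n j)) (Fin (n j)) ℂ)
    (h : ∀ j, Sol (N j) (B j) (H j)) : Sol (blk n ℂ N) (blk n ℂ B) (fun k => blk n ℂ fun j => H j k) := by
  constructor
  · show blk n ℂ (fun j => H j 0) = 1
    rw [← map_one (blk n ℂ)]
    congr 1
    funext j
    exact (h j).zero
  · intro k
    show ((k : ℂ) + 1) • blk n ℂ (fun j => H j (k + 1)) + (blk n ℂ (fun j => H j (k + 1)) * blk n ℂ N -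
      blk n ℂ N * blk n ℂ (fun j => H j (k + 1))) = (k : ℂ) • blk n ℂ (fun j => H j k) +
      (blk n ℂ (fun j => H j k) * blk n ℂ N - blk n ℂ N * blk n ℂ (fun j => H j k)) +
      blk n ℂ B * blk n ℂ (fun j => H j k)
    simp only [← blk_smul, ← map_mul, ← map_sub, ← map_add]
    congr 1
    funext j
    exact (h j).step k

lemma Sys_blk (N B : ∀ j, Matrix (Fin (n j)) (Fin (n j)) ℚ) (H W : ∀ j, Matrix (Fin (n j)) (Fin (n j)) ℚ⟦X⟧)
    (h : ∀ j, Sys (n j) (N j) (B j) (H j) (W j)) :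
    Sys (∑ j, n j) (blk n ℚ N) (blk n ℚ B) (blk n ℚ⟦X⟧ H) (blk n ℚ⟦X⟧ W) := by
  have h0 : SDc (0 : ℚ⟦X⟧) := by simpa using SDc.int 0
  constructor
  · have h1 : ∀ i j : Fin (∑ j, n j), ∃ m : ℤ, blk n ℚ N i j = m := by
      intro a b
      rcases blk_cases a b with h' | ⟨j, i, k, h'⟩
      · exact ⟨0, by rw [h', Int.cast_zero]⟩
      · obtain ⟨N', hN'⟩ := (h j).int
        exact ⟨N' i k, by rw [h', hN']⟩
    choose N' hN' using h1
    exact ⟨N', hN'⟩
  · exact blk_pow_zero N fun j => (h j).nil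
  · rw [cf_blk, ← map_one (blk n ℚ)]
    congr 1
    funext j
    exact (h j).zero
  · intro k
    simp only [cf_blk, ← blk_smul, ← map_mul, ← map_sub, ← map_add]
    congr 1
    funext j
    exact (h j).step k
  · rw [← map_mul, ← map_one (blk n ℚ⟦X⟧)]
    congr 1
    funext j
    exact (h j).inv
  · intro a b
    rcases blk_cases a b with h' | ⟨j, i, k, h'⟩
    · rw [h']; exact h0
    · rw [h']; exact (h j).sH i k
  · intro a b
    rcases blk_cases a b with h' | ⟨j, i, k, h'⟩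
    · rw [h']; exact h0
    · rw [h']; exact (h j).sW i k

/-- the complex system -/
lemma Sol_of_Sys {m : ℕ} {N B : Matrix (Fin m) (Fin m) ℚ} {H W : Matrix (Fin m) (Fin m) ℚ⟦X⟧} (h : Sys m N B H W) :
    Sol (cm N) (cm B) (Hcg H) := by
  constructor
  · unfold Hcg
    rw [h.zero, Pool.Agent.Y119.HY.cm_one]
  · intro k
    have h1 := congrArg cm (h.step k)
    have hs : ∀ (q : ℚ) (M : Matrix (Fin m) (Fin m) ℚ), cm (q • M) = (q : ℂ) • cm M := by
      intro q M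
      ext i j
      simp [Pool.Agent.Y119.HY.cm_apply]
    have hsub : ∀ M M' : Matrix (Fin m) (Fin m) ℚ, cm (M - M') = cm M - cm M' := fun M M' => map_sub _ _ _
    simp only [Pool.Agent.Y119.HY.cm_add, hsub, Pool.Agent.Y119.HY.cm_mul, hs] at h1
    push_cast at h1
    exact h1

lemma cm_nil {m : ℕ} {N : Matrix (Fin m) (Fin m) ℚ} (h : N ^ m = 0) : cm N ^ m = 0 := by
  rw [← Pool.Agent.Y119.HY.cm_pow, h, Pool.Agent.Y119.HY.cm_zero]

end BLK

open BLK in
theorem p_BLK : S_BLK := by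
  intro r n N B H W h
  have hS := Sys_blk N B H W h
  have hN : ∀ j, cm (N j) ^ n j = 0 := fun j => cm_nil (h j).nil
  have hY : ∀ z : ℂ, Yf (cm (blk n ℚ N)) (Hcg (blk n ℚ⟦X⟧ H)) z = blk n ℂ fun j => Yf (cm (N j)) (Hcg (H j)) z := by
    intro z
    rw [cm_blk, Hcg_blk]
    exact Yf_blk (fun j => cm (N j)) hN (fun j => Hcg (H j)) z
  have hE : ∀ c : ℂ, E (cm (blk n ℚ N)) c = blk n ℂ fun j => E (cm (N j)) c := by
    intro c
    rw [cm_blk]
    exact E_blk (fun j => cm (N j)) hN c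
  refine ⟨hS, hY, hE, ?_, ?_, ?_, ?_⟩
  · intro t
    unfold Ytg
    rw [hE, Hcg_blk, Hf_blk, ← map_mul]
    rfl
  · intro c g hg
    have h1 := Pool.Agent.Y119.HY.conj_E (cm_nil hS.nil) (Sol_of_Sys hS) c _ hg
    rw [hE, hE, ← map_mul, ← map_mul] at h1
    exact h1
  · intro M hM
    have h1 := Pool.Agent.Y119.HY.Gal_closed (Yf (cm (blk n ℚ N)) (Hcg (blk n ℚ⟦X⟧ H))) (blk n (Polynomial ℂ) M)
      (fun c hc => by
        rw [blk_map _ (Polynomial.eval_zero)]
        exact hM c hc)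
    rw [blk_map _ (Polynomial.eval_zero)] at h1
    exact h1
  · intro K M Mi hB hK hM hcon c
    have hK' := Sol_blk (fun j => -cm (B j)) (fun j => -cm (N j)) K hK
    have h1 := Pool.Agent.Y119.HY.conj_mem_Gal (blk_pow_zero _ hB) hK' (M := blk n ℂ M) (Mi := blk n ℂ Mi)
      (by
        rw [← map_mul, ← map_one (blk n ℂ)]
        congr 1
        funext j
        exact hM j) (Y := Yf (cm (blk n ℚ N)) (Hcg (blk n ℚ⟦X⟧ H))) (fun x hx hx1 => by
        rw [hY, Yf_blk _ hB, ← map_mul]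
        congr 1
        funext j
        exact hcon j _ (Pool.Agent.Y119.HY.real_mem_Lens hx hx1)) c
    rw [E_blk _ hB, ← map_mul, ← map_mul] at h1
    exact h1

end Pool.Agent.Run7.h225.HG
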