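import Pool.Agent.Y119.HY.Main

/-!
# The Lie algebra of the relations

`D_X` is the derivation of the polynomials in `z`, `L` and the entries of `Y` with `D_X z = D_X L = 0`, `D_X Y = Y X`. The
matrices `X` for which `D_X` preserves the relations form a linear subspace `LG Y`, which is stable under conjugation, contains
the derivatives of curves in `Gal Y` through `1`, and `1 + t X ∈ Gal Y` if `X ∈ LG Y`, `X² = 0`.
-/

set_option autoImplicit false

open Filter Topology Matrix Pool.Agent.Y119.HY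

namespace Pool.Agent.Run7.h225.HG

variable {n : ℕ}

/-- the derivation -/
noncomputable def Dv (X : Matrix (Fin n) (Fin n) ℂ) : Derivation ℂ (MvPolynomial (Vr n) ℂ) (MvPolynomial (Vr n) ℂ) :=
  MvPolynomial.mkDerivation ℂ fun o : Vr n => o.elim 0 fun o => o.elim 0 fun p =>
    ∑ k, MvPolynomial.C (X k p.2) * MvPolynomial.X (some (some (p.1, k)))

lemma Dv_X (X : Matrix (Fin n) (Fin n) ℂ) (i j : Fin n) : Dv X (MvPolynomial.X (some (some (i, j)))) =
    ∑ k, MvPolynomial.C (X k j) * MvPolynomial.X (some (some (i, k))) := by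
  unfold Dv
  rw [MvPolynomial.mkDerivation_X]
  rfl

lemma Dv_none (X : Matrix (Fin n) (Fin n) ℂ) : Dv X (MvPolynomial.X none) = 0 := by
  unfold Dv
  rw [MvPolynomial.mkDerivation_X]
  rfl

lemma Dv_some (X : Matrix (Fin n) (Fin n) ℂ) : Dv X (MvPolynomial.X (some none)) = 0 := by
  unfold Dv
  rw [MvPolynomial.mkDerivation_X]
  rfl

lemma Dv_add (X X' : Matrix (Fin n) (Fin n) ℂ) : Dv (X + X') = Dv X + Dv X' := by
  refine MvPolynomial.derivation_ext fun o => ?_
  rw [Derivation.add_apply]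
  rcases o with _ | _ | ⟨i, j⟩
  · simp only [Dv_none, add_zero]
  · simp only [Dv_some, add_zero]
  · simp only [Dv_X, Matrix.add_apply, map_add, add_mul, Finset.sum_add_distrib]

lemma Dv_smul (a : ℂ) (X : Matrix (Fin n) (Fin n) ℂ) : Dv (a • X) = a • Dv X := by
  refine MvPolynomial.derivation_ext fun o => ?_
  rw [Derivation.smul_apply]
  rcases o with _ | _ | ⟨i, j⟩
  · simp only [Dv_none, smul_zero]
  · simp only [Dv_some, smul_zero]
  · simp only [Dv_X, Matrix.smul_apply, smul_eq_mul, Finset.smul_sum, MvPolynomial.smul_eq_C_mul, map_mul, mul_assoc]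

/-- the chain rule -/
lemma ev_HD (P : MvPolynomial (Vr n) ℂ) (z L : ℂ) {Z : ℂ → Matrix (Fin n) (Fin n) ℂ} {X : Matrix (Fin n) (Fin n) ℂ} {c : ℂ}
    (h : HD Z (Z c * X) c) : HasDerivAt (fun s => ev P z L (Z s)) (ev (Dv X P) z L (Z c)) c := by
  unfold ev
  induction P using MvPolynomial.induction_on with
  | C a =>
    have e1 : Dv X (MvPolynomial.C a) = 0 := by
      have : (MvPolynomial.C a : MvPolynomial (Vr n) ℂ) = algebraMap ℂ _ a := rfl
      rw [this, Derivation.map_algebraMap]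
    rw [e1]
    simp only [MvPolynomial.eval_C, map_zero]
    exact hasDerivAt_const _ _
  | add p q hp hq =>
    simp only [map_add]
    exact hp.add hq
  | mul_X p o hp =>
    rw [Derivation.leibniz]
    simp only [map_mul, map_add, MvPolynomial.eval_X, smul_eq_mul]
    have ho : HasDerivAt (fun s => pt z L (Z s) o) (MvPolynomial.eval (pt z L (Z c)) (Dv X (MvPolynomial.X o))) c := by
      rcases o with _ | _ | ⟨i, j⟩
      · rw [Dv_none, map_zero]
        exact hasDerivAt_const _ _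
      · rw [Dv_some, map_zero]
        exact hasDerivAt_const _ _
      · rw [Dv_X]
        refine (h i j).congr_deriv ?_
        rw [Matrix.mul_apply, map_sum]
        refine Finset.sum_congr rfl fun k _ => ?_
        rw [map_mul, MvPolynomial.eval_C, MvPolynomial.eval_X, mul_comm]
        rfl
    refine (hp.mul ho).congr_deriv ?_
    ring

/-- the Lie algebra of the relations -/
def LG (Y : ℂ → Matrix (Fin n) (Fin n) ℂ) : Submodule ℂ (Matrix (Fin n) (Fin n) ℂ) where
  carrier := {X | ∀ P ∈ Rel Y, Dv X P ∈ Rel Y}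
  add_mem' := by
    intro X X' h h' P hP x hx hx1
    have h1 := h P hP x hx hx1
    have h2 := h' P hP x hx hx1
    rw [Dv_add, Derivation.add_apply]
    unfold ev at h1 h2 ⊢
    rw [map_add, h1, h2, add_zero]
  zero_mem' := by
    intro P hP x hx hx1
    have : (0 : Matrix (Fin n) (Fin n) ℂ) = (0 : ℂ) • 0 := by rw [smul_zero]
    rw [this, Dv_smul, zero_smul, Derivation.zero_apply]
    unfold ev
    rw [map_zero]
  smul_mem' := by
    intro a X h P hP x hx hx1
    have h1 := h P hP x hx hx1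
    rw [Dv_smul, Derivation.smul_apply]
    unfold ev at h1 ⊢
    rw [MvPolynomial.smul_eval, h1, mul_zero]

variable {Y : ℂ → Matrix (Fin n) (Fin n) ℂ}

lemma mem_LG {X : Matrix (Fin n) (Fin n) ℂ} : X ∈ LG Y ↔ ∀ P ∈ Rel Y, Dv X P ∈ Rel Y := Iff.rfl

/-- derivatives of curves in the group -/
lemma LG_curve {g : ℂ → Matrix (Fin n) (Fin n) ℂ} {X : Matrix (Fin n) (Fin n) ℂ} {c : ℂ} (hg : ∀ᶠ s in 𝓝 c, g s ∈ Gal Y)
    (h1 : g c = 1) (hd : HD g X c) : X ∈ LG Y := by
  intro P hP x hx hx1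
  have h2 : HD (fun s => Y x * g s) (Y x * g c * X) c := by
    refine ((HD.const (Y x) c).mul hd).congr ?_
    rw [zero_mul, zero_add, h1, mul_one]
  have h3 := ev_HD P (x : ℂ) (Complex.log x) h2
  simp only [h1, mul_one] at h3
  have h4 : (fun s => ev P (x : ℂ) (Complex.log x) (Y x * g s)) =ᶠ[𝓝 c] fun _ => 0 := by
    filter_upwards [hg] with s hs
    exact hs P hP x hx hx1
  exact h3.unique ((hasDerivAt_const c (0 : ℂ)).congr_of_eventuallyEq h4)

lemma line_HD (A B X : Matrix (Fin n) (Fin n) ℂ) (c : ℂ) : HD (fun s => A * (1 + s • X) * B) (A * X * B) c := by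
  have h1 : HD (fun s : ℂ => (1 : Matrix (Fin n) (Fin n) ℂ) + s • X) X c := by
    intro i j
    simp only [Matrix.add_apply, Matrix.smul_apply, smul_eq_mul]
    have := ((hasDerivAt_id c).mul_const (X i j)).const_add ((1 : Matrix (Fin n) (Fin n) ℂ) i j)
    rw [one_mul] at this
    exact this
  refine (((HD.const A c).mul h1).mul (HD.const B c)).congr ?_
  rw [zero_mul, zero_add, mul_zero, add_zero]

/-- conjugation, general form -/
lemma LG_conj_gen {g gi : Matrix (Fin n) (Fin n) ℂ} (hg : g * gi = 1) (c : ℂ)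
    (h1 : ∀ P ∈ Rel Y, sb (-c) gi P ∈ Rel Y)
    (h2 : ∀ P ∈ Rel Y, ∀ x : ℝ, 0 < x → x < 1 → ev P (x : ℂ) (Complex.log x + c) (Y (x : ℂ) * g) = 0)
    {X : Matrix (Fin n) (Fin n) ℂ} (hX : X ∈ LG Y) : g * X * gi ∈ LG Y := by
  intro P hP x hx hx1
  have h3 := h2 _ (hX _ (h1 P hP)) x hx hx1
  have e1 := ev_HD (sb (-c) gi P) (x : ℂ) (Complex.log x + c) (Z := fun s => Y x * g * (1 + s • X) * 1) (X := X) (c := 0) (by
    refine (line_HD (Y x * g) 1 X 0).congr ?_
    rw [zero_smul, add_zero, mul_one, mul_one, mul_one])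
  have e2 := ev_HD P (x : ℂ) (Complex.log x) (Z := fun s => Y x * g * (1 + s • X) * gi) (X := g * X * gi) (c := 0) (by
    refine (line_HD (Y x * g) gi X 0).congr ?_
    rw [zero_smul, add_zero, mul_one, Matrix.mul_assoc (Y x) g gi, hg, mul_one]
    simp only [Matrix.mul_assoc])
  have e3 : (fun s : ℂ => ev (sb (-c) gi P) (x : ℂ) (Complex.log x + c) (Y x * g * (1 + s • X) * 1)) =
      fun s => ev P (x : ℂ) (Complex.log x) (Y x * g * (1 + s • X) * gi) := by
    funext s
    rw [ev_sb, add_neg_cancel_right, mul_one]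
  rw [e3] at e1
  have e4 := e1.unique e2
  simp only [zero_smul, add_zero, mul_one] at e4
  rw [h3, Matrix.mul_assoc (Y x) g gi, hg, mul_one] at e4
  exact e4.symm

/-- conjugation by elements of the group -/
lemma LG_conj {g gi : Matrix (Fin n) (Fin n) ℂ} (hgi : g * gi = 1) (hg : g ∈ Gal Y) (hi : gi ∈ Gal Y)
    {X : Matrix (Fin n) (Fin n) ℂ} (hX : X ∈ LG Y) : g * X * gi ∈ LG Y := by
  refine LG_conj_gen hgi 0 (fun P hP x hx hx1 => ?_) (fun P hP x hx hx1 => ?_) hX
  · rw [ev_sb, neg_zero, add_zero]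
    exact hi P hP x hx hx1
  · rw [add_zero]
    exact hg P hP x hx hx1

/-- conjugation by the monodromy at `0` -/
lemma LG_E {N0 N1 : Matrix (Fin n) (Fin n) ℂ} {H : ℕ → Matrix (Fin n) (Fin n) ℂ} (h0 : N0 ^ n = 0) (hH : Sol N0 N1 H)
    (c : ℂ) {X : Matrix (Fin n) (Fin n) ℂ} (hX : X ∈ LG (Yf N0 H)) : E N0 c * X * E N0 (-c) ∈ LG (Yf N0 H) := by
  refine LG_conj_gen (E_mul_neg h0 c) c (fun P hP x hx hx1 => ?_) (fun P hP x hx hx1 => mono_zero h0 hH c hP hx hx1) hX
  rw [ev_sb]
  exact mono_zero h0 hH (-c) hP hx hx1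

/-- the polynomial `P(z, L, Z (1 + t X))` -/
noncomputable def qt (P : MvPolynomial (Vr n) ℂ) (z L : ℂ) (Z X : Matrix (Fin n) (Fin n) ℂ) : Polynomial ℂ :=
  evp P (Polynomial.C z) (Polynomial.C L) (Z.map Polynomial.C * (1 + (Polynomial.X : Polynomial ℂ) • X.map Polynomial.C))

lemma qt_eval (P : MvPolynomial (Vr n) ℂ) (z L : ℂ) (Z X : Matrix (Fin n) (Fin n) ℂ) (t : ℂ) :
    (qt P z L Z X).eval t = ev P z L (Z * (1 + t • X)) := by
  unfold qt
  rw [eval_evp, Polynomial.eval_C, Polynomial.eval_C, map_mul_eval, map_C_eval]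
  congr 2
  ext i j
  simp only [Matrix.map_apply, Matrix.add_apply, Matrix.smul_apply, smul_eq_mul, Polynomial.eval_add, Polynomial.eval_mul,
    Polynomial.eval_X, Polynomial.eval_C]
  congr 1
  rw [Matrix.one_apply, Matrix.one_apply]
  split_ifs <;> simp

lemma qt_deriv {P : MvPolynomial (Vr n) ℂ} {z L : ℂ} {Z X : Matrix (Fin n) (Fin n) ℂ} (hX : X * X = 0) :
    Polynomial.derivative (qt P z L Z X) = qt (Dv X P) z L Z X := by
  refine Polynomial.funext fun t => ?_
  have h1 := (qt P z L Z X).hasDerivAt t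
  have h2 : HD (fun s : ℂ => Z * (1 + s • X)) (Z * (1 + t • X) * X) t := by
    have h5 := line_HD Z 1 X t
    simp only [mul_one] at h5
    refine h5.congr ?_
    rw [Matrix.mul_assoc, add_mul, one_mul, smul_mul_assoc, hX, smul_zero, add_zero]
  have h3 := ev_HD P z L h2
  have h4 : (fun s => ev P z L (Z * (1 + s • X))) = fun s => (qt P z L Z X).eval s := by
    funext s
    rw [qt_eval]
  rw [h4] at h3
  rw [qt_eval]
  exact h1.unique h3

/-- exponentials of nilpotent elements of order two -/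
lemma LG_exp {X : Matrix (Fin n) (Fin n) ℂ} (hX : X ∈ LG Y) (h2 : X * X = 0) (t : ℂ) : 1 + t • X ∈ Gal Y := by
  intro P hP x hx hx1
  rw [← qt_eval]
  have hit : ∀ k : ℕ, (Dv X)^[k] P ∈ Rel Y ∧
      Polynomial.derivative^[k] (qt P (x : ℂ) (Complex.log x) (Y x) X) = qt ((Dv X)^[k] P) (x : ℂ) (Complex.log x) (Y x) X := by
    intro k
    induction k with
    | zero => exact ⟨hP, rfl⟩
    | succ k ih =>
      rw [Function.iterate_succ_apply', Function.iterate_succ_apply', ih.2, qt_deriv h2]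
      exact ⟨hX _ ih.1, rfl⟩
  have h0 : qt P (x : ℂ) (Complex.log x) (Y x) X = 0 := by
    ext k
    rw [Polynomial.coeff_zero]
    have h1 : (Polynomial.derivative^[k] (qt P (x : ℂ) (Complex.log x) (Y x) X)).eval 0 = 0 := by
      rw [(hit k).2, qt_eval, zero_smul, add_zero, mul_one]
      exact (hit k).1 x hx hx1
    rw [← Polynomial.coeff_zero_eq_eval_zero, Polynomial.coeff_iterate_derivative, zero_add] at h1
    have h3 : ((k.descFactorial k : ℕ) : ℂ) * (qt P (x : ℂ) (Complex.log x) (Y x) X).coeff k = 0 := by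
      rw [← nsmul_eq_mul]
      exact h1
    refine (mul_eq_zero.1 h3).resolve_left ?_
    rw [Nat.descFactorial_self]
    exact_mod_cast k.factorial_ne_zero
  rw [h0, Polynomial.eval_zero]

lemma Dv_C (X : Matrix (Fin n) (Fin n) ℂ) (a : ℂ) : Dv X (MvPolynomial.C a) = 0 := by
  have : (MvPolynomial.C a : MvPolynomial (Vr n) ℂ) = algebraMap ℂ _ a := rfl
  rw [this, Derivation.map_algebraMap]

lemma Dv_Dv_X (X X' : Matrix (Fin n) (Fin n) ℂ) (i j : Fin n) : Dv X (Dv X' (MvPolynomial.X (some (some (i, j))))) =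
    ∑ l, MvPolynomial.C ((X * X') l j) * MvPolynomial.X (some (some (i, l))) := by
  rw [Dv_X, map_sum]
  have h1 : ∀ k, Dv X (MvPolynomial.C (X' k j) * MvPolynomial.X (some (some (i, k)))) =
      ∑ l, MvPolynomial.C (X' k j) * (MvPolynomial.C (X l k) * MvPolynomial.X (some (some (i, l)))) := by
    intro k
    rw [Derivation.leibniz, Dv_C, smul_zero, add_zero, Dv_X, smul_eq_mul, Finset.mul_sum]
  rw [Finset.sum_congr rfl fun k _ => h1 k, Finset.sum_comm]
  refine Finset.sum_congr rfl fun l _ => ?_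
  rw [Matrix.mul_apply, map_sum, Finset.sum_mul]
  refine Finset.sum_congr rfl fun k _ => ?_
  rw [map_mul]
  ring

/-- brackets -/
lemma Dv_comm (X X' : Matrix (Fin n) (Fin n) ℂ) (P : MvPolynomial (Vr n) ℂ) :
    Dv X (Dv X' P) - Dv X' (Dv X P) = Dv (X * X' - X' * X) P := by
  have h : ⁅Dv X, Dv X'⁆ = Dv (X * X' - X' * X) := by
    refine MvPolynomial.derivation_ext fun o => ?_
    rw [Derivation.commutator_apply]
    rcases o with _ | _ | ⟨i, j⟩
    · rw [Dv_none, Dv_none, Dv_none, map_zero, map_zero, sub_zero]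
    · rw [Dv_some, Dv_some, Dv_some, map_zero, map_zero, sub_zero]
    · rw [Dv_Dv_X, Dv_Dv_X, Dv_X, ← Finset.sum_sub_distrib]
      refine Finset.sum_congr rfl fun l _ => ?_
      rw [Matrix.sub_apply, map_sub, sub_mul]
  rw [← h, Derivation.commutator_apply]

lemma LG_bracket {X X' : Matrix (Fin n) (Fin n) ℂ} (h : X ∈ LG Y) (h' : X' ∈ LG Y) : X * X' - X' * X ∈ LG Y := by
  intro P hP x hx hx1
  rw [← Dv_comm]
  have h1 := h _ (h' P hP) x hx hx1
  have h2 := h' _ (h P hP) x hx hx1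
  unfold ev at h1 h2 ⊢
  rw [map_sub, h1, h2, sub_zero]

/-- a linear subspace of matrices is closed under specialisation of polynomial families -/
lemma sub_poly (S : Submodule ℂ (Matrix (Fin n) (Fin n) ℂ)) (M : Matrix (Fin n) (Fin n) (Polynomial ℂ)) (T : Set ℂ)
    (hT : T.Infinite) (h : ∀ c ∈ T, M.map (Polynomial.eval c) ∈ S) (c : ℂ) : M.map (Polynomial.eval c) ∈ S := by
  by_contra hc
  obtain ⟨f, hf1, hf2⟩ := Submodule.exists_dual_map_eq_bot_of_notMem hc inferInstance
  have hex : ∃ q : Polynomial ℂ, ∀ c, q.eval c = f (M.map (Polynomial.eval c)) := by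
    refine ⟨∑ i, ∑ j, M i j * Polynomial.C (f (Matrix.single i j 1)), fun c => ?_⟩
    rw [Polynomial.eval_finsetSum]
    conv_rhs => rw [Matrix.matrix_eq_sum_single (M.map (Polynomial.eval c))]
    rw [map_sum]
    refine Finset.sum_congr rfl fun i _ => ?_
    rw [Polynomial.eval_finsetSum, map_sum]
    refine Finset.sum_congr rfl fun j _ => ?_
    have : Matrix.single i j ((M.map (Polynomial.eval c)) i j) = ((M i j).eval c) • Matrix.single i j (1 : ℂ) := by
      rw [Matrix.smul_single, smul_eq_mul, mul_one, Matrix.map_apply]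
    rw [this, map_smul, smul_eq_mul, Polynomial.eval_mul, Polynomial.eval_C]
  obtain ⟨q, hq⟩ := hex
  have h0 : q = 0 := by
    refine Polynomial.eq_zero_of_infinite_isRoot q (hT.mono fun c hc => ?_)
    show q.eval c = 0
    rw [hq]
    have h1 : f (M.map (Polynomial.eval c)) ∈ S.map f := Submodule.mem_map_of_mem (h c hc)
    rw [hf2] at h1
    exact (Submodule.mem_bot ℂ).1 h1
  apply hf1
  rw [← hq, h0, Polynomial.eval_zero]

end Pool.Agent.Run7.h225.HG
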