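import Pool.Agent.Run7.h225.HG.Iface3
import Pool.Agent.Run7.h225.HG.LieG

/-!
# Interface of the project HYG, fourth part: several families at the same fibre, complex reflections included
-/

set_option autoImplicit false

open PowerSeries Matrix
open Pool.Agent.Y113 hiding Bm
open Pool.Agent.Y120.GF Pool.Agent.Y120.GH Pool.Agent.Y119.HZ
open Pool.Agent.Y119.HY (Am Jm Bm Hq cm E Hf Hc Yf Vr Rel Gal Sol PG Lens)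

namespace Pool.Agent.Run7.h225.HG

/-- **ASY2.** As ASY, for `B_i² = s_i B_i`, `s_i ≠ 0` real: if all derivatives of the generating function are bounded on
`(0, 1)`, then it is a polynomial.

Proof. Let `R Φ = B₂ Φ - Φ B₁`, `D Φ = Φ N - N Φ`. With `P_i = B_i / s_i` (idempotent) the four projections
`Φ ↦ P₂ Φ P₁`, `P₂ Φ (1 - P₁)`, `(1 - P₂) Φ P₁`, `(1 - P₂) Φ (1 - P₁)` are eigenprojections `π_i` of `R` with the real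
eigenvalues `ρ_i = s₂ - s₁, s₂, -s₁, 0`. The recursion is `(k + 1 + D) Φ_{k+1} = (k + D + R) Φ_k`, so for large `k`
`Φ_{k+1} = Φ_k + (R - 1) Φ_k / k + O(‖Φ_k‖ / k²)`. Suppose that `Φ_k` is not `0` for large `k` (if one `Φ_k`, `k` large, is
`0`, so are all later ones). Then `c k^(-C) ≤ ‖Φ_k‖ ≤ C k^C` for large `k`. Let `β` be the infimum of the real numbers `b` with
`‖Φ_k‖ = O(k^b)`. Choose `0 < ε < 1/2` such that no `ρ_i` is in `(β, β + 2 ε]` (so `ρ_i ≤ β < β + ε` or `ρ_i > β + 2 ε`); put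
`γ = β + ε`. Let `y_k = π_i Φ_k` and `z_k = k^(1 - ρ_i) y_k`. Then `z_{k+1} - z_k = O(k^(γ - 1 - ρ_i))`. If `ρ_i > γ`, then
`z_k → L_i` and `y_k = k^(ρ_i - 1) L_i + O(k^(γ - 1))`; if `ρ_i < γ`, then `z_k = O(k^(γ - ρ_i))`, `y_k = O(k^(γ - 1))`. Hence
`Φ_k = ∑_{ρ_i > γ} k^(ρ_i - 1) L_i + O(k^(γ - 1))` with `γ - 1 < β`. Let `ρ` be the largest of the `ρ_i > γ` such that the sum
`Ψ` of the `L_j` with `ρ_j = ρ` is not `0` (it exists, as otherwise `Φ_k = O(k^(γ - 1))` contradicts the choice of `β`; the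
`L_i` of different `i` are in different components, so `Ψ ≠ 0` iff one `L_j ≠ 0`). So `k^(1 - ρ) Φ_k → Ψ ≠ 0`. Take a
natural number `p ≥ 1 - ρ` and an entry with `Ψ_ij ≠ 0`: then `Re (k^p (Φ_k)_ij / Ψ_ij) ≥ 1/2` for large `k`, and
`∑ k^p (Φ_k)_ij x^k` is unbounded for `x → 1`. -/
def S_ASY2 : Prop := ∀ (n : ℕ) (N B₁ B₂ : Matrix (Fin n) (Fin n) ℂ) (s₁ s₂ : ℝ) (Φ : ℕ → Matrix (Fin n) (Fin n) ℂ),
  s₁ ≠ 0 → s₂ ≠ 0 → B₁ * B₁ = (s₁ : ℂ) • B₁ → B₂ * B₂ = (s₂ : ℂ) • B₂ →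
  (∀ k : ℕ, ((k : ℂ) + 1) • Φ (k + 1) + (Φ (k + 1) * N - N * Φ (k + 1)) =
    (k : ℂ) • Φ k + (Φ k * N - N * Φ k) + (B₂ * Φ k - Φ k * B₁)) →
  (∀ p : ℕ, ∀ i j, ∀ x : ℝ, 0 < x → x < 1 → Summable fun k : ℕ => (k : ℝ) ^ p * ‖Φ k i j‖ * x ^ k) →
  (∀ p : ℕ, ∃ C : ℝ, ∀ i j, ∀ x : ℝ, 0 < x → x < 1 → ‖∑' k : ℕ, (k : ℂ) ^ p * Φ k i j * (x : ℂ) ^ k‖ ≤ C) →
  ∃ K, ∀ k, K ≤ k → Φ k = 0

/-- The data of the connection between `0` and `1` for a semisimple residue at `1`, `B² = s B`; see `LOCC`. -/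
structure CR {n : ℕ} (s : ℚ) (A B : Matrix (Fin n) (Fin n) ℂ) (H H' K K' : ℕ → Matrix (Fin n) (Fin n) ℂ)
    (M Mi : Matrix (Fin n) (Fin n) ℂ) : Prop where
  hH : Sol A B H
  hH' : Sol (-A.transpose) (-B.transpose) H'
  gK : ∀ i j, PG fun k => K k i j
  gK' : ∀ i j, PG fun k => K' k i j
  l : M * Mi = 1
  r : Mi * M = 1
  iH : ∀ z ∈ Metric.ball (0 : ℂ) 1, (Hf H' z).transpose * Hf H z = 1
  iK : ∀ z ∈ Metric.ball (0 : ℂ) 1, (Hf K' z).transpose * Hf K z = 1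
  con : ∀ z ∈ Lens, Yf A H z =
    Hf K (1 - z) * (1 + (Complex.exp (-(s : ℂ) * Complex.log (1 - z)) - 1) • ((s : ℂ)⁻¹ • B)) * M
  con' : ∀ z ∈ Lens, Yf (-A.transpose) H' z =
    Hf K' (1 - z) * (1 + (Complex.exp ((s : ℂ) * Complex.log (1 - z)) - 1) • ((s : ℂ)⁻¹ • B.transpose)) * Mi.transpose

/-- **INTR.** As INT, for semisimple residues at `1` with `s₁ = s₂ + m`, `m ≥ 0` an integer.

Proof. `Φ(z) = Hf H₂ z * g * (Hf H₁' z)ᵀ` as in INT. With `w = 1 - z`, `P_i = s_i⁻¹ B_i`, `g' = M₂ g Mi₁`, `P₂ g' = g' P₁`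
the data give `Φ(z) = Hf K₂ w (1 + (w^(-s₂) - 1) P₂) g' (1 + (w^(s₁) - 1) P₁) (Hf K₁' w)ᵀ
= Hf K₂ w g' (1 + (w^m - 1) P₁) (Hf K₁' w)ᵀ` on the lens, an analytic function on the ball of radius `1` around `1`. Hence
for all `p` the function `(z d/dz)^p Φ = ∑ k^p Φ_k z^k` is equal to a function `G_p` on the lens which is analytic on
that ball (`G_{p+1} = z G_p'`), so it is bounded on `[1/2, 1)`, and on `(0, 1/2]` since it is analytic on the unit disk.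
By ASY2 `Φ` is a polynomial, and the end of the proof is that of INT. -/
def S_INTR : Prop := S_ASY2 → S_REC → ∀ (n : ℕ) (Q₁ Q₂ : Polynomial ℚ), Run7.h893.HO.QG n Q₁ → Run7.h893.HO.QG n Q₂ →
  ∀ (s₁ s₂ : ℚ) (m : ℕ), Q₁.coeff (n - 1) = s₁ → Q₂.coeff (n - 1) = s₂ → s₁ = s₂ + m → s₁ ≠ 0 → s₂ ≠ 0 →
  ∀ (H₁' K₁ K₁' H₂' K₂ K₂' : ℕ → Matrix (Fin n) (Fin n) ℂ) (M₁ Mi₁ M₂ Mi₂ g gi : Matrix (Fin n) (Fin n) ℂ),
  CR s₁ (cm (Am n)) (cm (Bm n Q₁)) (Hc n Q₁) H₁' K₁ K₁' M₁ Mi₁ →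
  CR s₂ (cm (Am n)) (cm (Bm n Q₂)) (Hc n Q₂) H₂' K₂ K₂' M₂ Mi₂ →
  g * gi = 1 → cm (Am n) * g = g * cm (Am n) →
  g * (Mi₁ * ((s₁ : ℂ)⁻¹ • cm (Bm n Q₁)) * M₁) = (Mi₂ * ((s₂ : ℂ)⁻¹ • cm (Bm n Q₂)) * M₂) * g → RatEq Q₁ Q₂

/-- **LOCJ.** The local monodromy at `1` preserves the relations, general form.
Proof (see `HO/Loc.lean`, `LOCC.lean`, and `conj_mem_Gal` in `HY/Main.lean`): for `P ∈ Rel Y` the function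
`F(u) = P(1 - e^(-u), log(1 - e^(-u)), Hf K (e^(-u)) Λ(-u) M)` is analytic for `Re u > 0` and vanishes for real `u`, hence
everywhere; the value at `u - 2 π i c` is `P(x, log x, Y(x) Mi R M)`, `x = 1 - e^(-u)`. -/
def S_LOCJ : Prop := ∀ (n : ℕ) (Y : ℂ → Matrix (Fin n) (Fin n) ℂ) (K : ℕ → Matrix (Fin n) (Fin n) ℂ)
  (Λ : ℂ → Matrix (Fin n) (Fin n) ℂ) (R M Mi : Matrix (Fin n) (Fin n) ℂ) (c : ℤ), (∀ i j, PG fun k => K k i j) →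
  (∀ i j, Differentiable ℂ fun z => Λ z i j) → M * Mi = 1 →
  (∀ x : ℝ, 0 < x → x < 1 → Y (x : ℂ) = Hf K (1 - (x : ℂ)) * Λ (Complex.log (1 - (x : ℂ))) * M) →
  (∀ z, Λ (z + 2 * Real.pi * Complex.I * c) = Λ z * R) → Mi * R * M ∈ Gal Y

/-- A monoid `S` of tuples of matrices which is closed under specialisation, and a Lie algebra `𝔤` of tuples, with the
usual relations between them. -/
structure LP {r : ℕ} {n : Fin r → ℕ} (N : ∀ j, Matrix (Fin (n j)) (Fin (n j)) ℂ)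
    (S : Submonoid (∀ j, Matrix (Fin (n j)) (Fin (n j)) ℂ))
    (𝔤 : Submodule ℂ (∀ j, Matrix (Fin (n j)) (Fin (n j)) ℂ)) : Prop where
  nil : ∀ j, N j ^ n j = 0
  clos : ∀ M : ∀ j, Matrix (Fin (n j)) (Fin (n j)) (Polynomial ℂ), ∀ T : Set ℂ, T.Infinite →
    (∀ c ∈ T, (fun j => (M j).map (Polynomial.eval c)) ∈ S) → ∀ c, (fun j => (M j).map (Polynomial.eval c)) ∈ S
  econj : ∀ c : ℂ, ∀ g ∈ S, (fun j => E (N j) c * g j * E (N j) (-c)) ∈ S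
  eLie : ∀ c : ℂ, ∀ X ∈ 𝔤, (fun j => E (N j) c * X j * E (N j) (-c)) ∈ 𝔤
  adN : ∀ X ∈ 𝔤, N * X - X * N ∈ 𝔤
  conj : ∀ g gi, g * gi = 1 → g ∈ S → gi ∈ S → ∀ X ∈ 𝔤, g * X * gi ∈ 𝔤
  brk : ∀ X ∈ 𝔤, ∀ Z ∈ 𝔤, X * Z - Z * X ∈ 𝔤
  ex : ∀ X ∈ 𝔤, X * X = 0 → ∀ t : ℂ, 1 + t • X ∈ S
  cur : ∀ g gi, g * gi = 1 → g ∈ S → gi ∈ S → N - g * N * gi ∈ 𝔤

/-- **LGB.** The block systems give such pairs: `S` consists of the `g` with `blk g ∈ Gal`, `𝔤` of the `X` with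
`blk X ∈ LG`. Everything follows from `LieG.lean` (`LG_conj`, `LG_E`, `LG_exp`, `LG_bracket`), `BLK.lean` (`blk` is an
injective ring homomorphism, `conj_E`) and `REFL.lean` (`curve_mem`); `adN` is the derivative of `eLie` at `c = 0` (a linear
form which vanishes on `LG` vanishes on the derivative), `clos` is `Gal_closed` for infinite sets (a polynomial in `c` with
infinitely many zeros is `0`). -/
def S_LGB : Prop := ∀ (r : ℕ) (n : Fin r → ℕ) (N B : ∀ j, Matrix (Fin (n j)) (Fin (n j)) ℚ)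
  (H W : ∀ j, Matrix (Fin (n j)) (Fin (n j)) ℚ⟦X⟧), (∀ j, Sys (n j) (N j) (B j) (H j) (W j)) →
  ∃ (S : Submonoid (∀ j, Matrix (Fin (n j)) (Fin (n j)) ℂ)) (𝔤 : Submodule ℂ (∀ j, Matrix (Fin (n j)) (Fin (n j)) ℂ)),
    (∀ g, g ∈ S ↔ blk n ℂ g ∈ Gal (Yf (cm (blk n ℚ N)) (Hcg (blk n ℚ⟦X⟧ H)))) ∧ LP (fun j => cm (N j)) S 𝔤

/-- `N₀ = P N P + (1 - P) N (1 - P)` -/
noncomputable def n0 {n : ℕ} (N P : Matrix (Fin n) (Fin n) ℂ) : Matrix (Fin n) (Fin n) ℂ :=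
  P * N * P + (1 - P) * N * (1 - P)

/-- `h(m) = tr(P N (1 - P) ad(N₀)^m ((1 - P) N P))`, `P = v ⊗ μ` -/
noncomputable def hm {n : ℕ} (N : Matrix (Fin n) (Fin n) ℂ) (v μ : Fin n → ℂ) (m : ℕ) : ℂ :=
  ((vecMulVec v μ * N * (1 - vecMulVec v μ)) *
    (fun X => n0 N (vecMulVec v μ) * X - X * n0 N (vecMulVec v μ))^[m]
      ((1 - vecMulVec v μ) * N * vecMulVec v μ)).trace

/-- **SEPR.** Separation of complex reflections (`v_j = 0` for the blocks without reflection).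

Proof. `P_j = v_j ⊗ μ_j` (so `P_j = 0` if `v_j = 0`), `ρ = (1 + (ζ_j - 1) P_j)_j`, `α(X) = ρ X ρ⁻¹`, a linear
endomorphism which preserves `𝔤`. It is multiplication by `ζ_j` on `P_j X_j (1 - P_j)`, by `ζ_j⁻¹` on `(1 - P_j) X_j P_j`
and the identity on `P_j X_j P_j + (1 - P_j) X_j (1 - P_j)`. So it is diagonalisable and for each eigenvalue `η` the
projection `π_η` to the eigenspace is a polynomial in `α` and preserves `𝔤`. For `η ≠ 1` we have `π_η(N) ∈ 𝔤`, because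
`(1 - η) π_η(N) = π_η(N - ρ N ρ⁻¹)` (`cur`). So `N - N₀ ∈ 𝔤` for `N₀ = (n0 N_j P_j)_j`, and `ad(N₀)` preserves `𝔤` by `adN`
and `brk`. Let `j₀` be given, `ζ = ζ_{j₀}`, `A = π_ζ(N)`, `B = π_{1/ζ}(N)`, `B_m = ad(N₀)^m B`; all in `𝔤`. Here
`A_j = P_j N_j (1 - P_j)` if `ζ_j = ζ`, `A_j = (1 - P_j) N_j P_j` if `ζ_j = ζ⁻¹`, and `0` otherwise (`ζ² ≠ 1`), similarly
`B_j`. The `A_j` have rank `≤ 1` and square `0`, so `[[A_j, Z], A_j] = 2 A_j Z A_j = 2 tr(A_j Z) A_j`. Let `F` be the set of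
the `f : Fin r → ℂ` with `(f_j A_j)_j ∈ 𝔤`. Then `1 ∈ F`, and `f ∈ F` implies `(f_j tr(A_j B_{m,j}))_j ∈ F`, because
`[[f A, B_m], A] = 2 (f_j tr(A_j B_{m,j}) A_j)_j`. We have `tr(A_j B_{m,j}) = h_j(m)` if `ζ_j = ζ` and
`tr(A_j B_{m,j}) = (-1)^m h_j(m)` if `ζ_j = ζ⁻¹` (`tr([N₀, X] Z) = - tr(X [N₀, Z])`). By the hypothesis, for each `i ≠ j₀` with
`A_i ≠ 0` there is an `m` such that these numbers are different for `i` and `j₀`. The product over these `i` of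
`(h(m_i) - h(m_i)_i) / (h(m_i)_{j₀} - h(m_i)_i)` is in `F`, so the tuple with `A_{j₀}` at `j₀` and `0` elsewhere is in `𝔤`. -/
def S_SEPR : Prop := ∀ (r : ℕ) (n : Fin r → ℕ) (N : ∀ j, Matrix (Fin (n j)) (Fin (n j)) ℂ)
  (S : Submonoid (∀ j, Matrix (Fin (n j)) (Fin (n j)) ℂ)) (𝔤 : Submodule ℂ (∀ j, Matrix (Fin (n j)) (Fin (n j)) ℂ)),
  LP N S 𝔤 → ∀ (v μ : ∀ j, Fin (n j) → ℂ) (ζ : Fin r → ℂ), (∀ j, ζ j ≠ 0) →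
  (∀ j, v j = 0 ∨ (μ j ⬝ᵥ v j = 1 ∧ ζ j ^ 2 ≠ 1)) →
  (fun j => 1 + (ζ j - 1) • vecMulVec (v j) (μ j)) ∈ S → (fun j => 1 + ((ζ j)⁻¹ - 1) • vecMulVec (v j) (μ j)) ∈ S →
  (∀ i j, i ≠ j → v i ≠ 0 → v j ≠ 0 → (ζ i = ζ j → ∃ m, hm (N i) (v i) (μ i) m ≠ hm (N j) (v j) (μ j) m) ∧
    (ζ i * ζ j = 1 → ∃ m, hm (N i) (v i) (μ i) m ≠ (-1) ^ m * hm (N j) (v j) (μ j) m)) →
  ∀ j, v j ≠ 0 → (Pi.single j (vecMulVec (v j) (μ j) * N j - vecMulVec (v j) (μ j) * N j * vecMulVec (v j) (μ j)) :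
    ∀ j, Matrix (Fin (n j)) (Fin (n j)) ℂ) ∈ 𝔤

/-- **REFLA.** Abstract form of REFL: `orbit_mem` and `all_of_orbit` in `REFL.lean` for a subspace `𝔤` with the closure
properties instead of `LG Y`. -/
def S_REFLA : Prop := ∀ (n : ℕ) (N : Matrix (Fin n) (Fin n) ℂ) (v μ : Fin n → ℂ) (ζ : ℂ)
  (𝔤 : Submodule ℂ (Matrix (Fin n) (Fin n) ℂ)), 2 ≤ n → N ^ n = 0 → μ ⬝ᵥ v = 1 → μ ⬝ᵥ ((N ^ (n - 1)) *ᵥ v) ≠ 0 →
  ζ ≠ 0 → ζ ^ 2 ≠ 1 → (∀ c : ℂ, ∀ X ∈ 𝔤, E N c * X * E N (-c) ∈ 𝔤) →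
  (∀ X ∈ 𝔤, (1 + (ζ - 1) • vecMulVec v μ) * X * (1 + (ζ⁻¹ - 1) • vecMulVec v μ) ∈ 𝔤) →
  (∀ X ∈ 𝔤, (1 + (ζ⁻¹ - 1) • vecMulVec v μ) * X * (1 + (ζ - 1) • vecMulVec v μ) ∈ 𝔤) →
  vecMulVec v μ * N - vecMulVec v μ * N * vecMulVec v μ ∈ 𝔤 →
  ∀ w ξ : Fin n → ℂ, ξ ⬝ᵥ w = 0 → vecMulVec w ξ ∈ 𝔤

/-- **SEP'.** As SEP, only the indices with `v_j ≠ 0` have to be separated. (Same proof: `X(β)` depends only on the `β_j` with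
`v_j ≠ 0`.) -/
def S_SEP' : Prop := ∀ (r : ℕ) (n : Fin r → ℕ) (N : ∀ j, Matrix (Fin (n j)) (Fin (n j)) ℂ) (v μ : ∀ j, Fin (n j) → ℂ)
  (S : Submonoid (∀ j, Matrix (Fin (n j)) (Fin (n j)) ℂ)),
  (∀ j, N j ^ n j = 0) → (∀ j, μ j ⬝ᵥ v j = 0) →
  (∀ c : ℂ, ∀ g ∈ S, (fun j => E (N j) c * g j * E (N j) (-c)) ∈ S) →
  (∀ s : ℂ, (fun j => 1 + s • vecMulVec (v j) (μ j)) ∈ S) →
  (∀ M : ∀ j, Matrix (Fin (n j)) (Fin (n j)) (Polynomial ℂ),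
    (∀ c : ℂ, c ≠ 0 → (fun j => (M j).map (Polynomial.eval c)) ∈ S) → (fun j => (M j).map (Polynomial.eval 0)) ∈ S) →
  (∀ i j, i ≠ j → v i ≠ 0 → v j ≠ 0 → (∃ a : ℂ, qf (N i) (v i) (μ i) a * qf (N i) (v i) (μ i) (-a) ≠
      qf (N j) (v j) (μ j) a * qf (N j) (v j) (μ j) (-a)) ∨
    ∃ a b : ℂ, qf (N i) (v i) (μ i) a * qf (N i) (v i) (μ i) (b - a) * qf (N i) (v i) (μ i) (-b) -
        qf (N i) (v i) (μ i) b * qf (N i) (v i) (μ i) (a - b) * qf (N i) (v i) (μ i) (-a) ≠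
      qf (N j) (v j) (μ j) a * qf (N j) (v j) (μ j) (b - a) * qf (N j) (v j) (μ j) (-b) -
        qf (N j) (v j) (μ j) b * qf (N j) (v j) (μ j) (a - b) * qf (N j) (v j) (μ j) (-a)) →
  ∀ j (s : ℂ), Function.update (fun _ => 1) j (1 + s • vecMulVec (v j) (μ j)) ∈ S

/-- **HQ.** The numbers `h(m)` determine the size and the function `q`.

Proof. Let `d = μ(N v)`, `c_k = μ((N - d)^k v)`. By induction `ad(N₀)^m ((1 - P) N P) = w_m ⊗ μ` with `μ(w_m) = 0`,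
`w_0 = (N - d) v`, `w_{m+1} = (N - d) w_m - h(m) v`, `h(m) = μ(N w_m)`: `μ N₀ = d μ` and `N₀ w = N w - μ(N w) v` for
`μ(w) = 0`. So `w_m = (N - d)^(m+1) v - ∑_{l < m} h(l) (N - d)^(m-1-l) v`, and `μ(w_m) = 0` gives
`c_{m+1} = ∑_{l < m} h(l) c_{m-1-l}`, `c_0 = 1`. Hence `h` determines the `c_k`, i.e. the linear form `L(f) = μ(f(N - d) v)` on
`ℂ[x]`. `L` vanishes on the multiples of `(x + d₁)^(n₁)` and of `(x + d₂)^(n₂)` and `L(1) = 1`, so these polynomials are not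
coprime, `d₁ = d₂`. So `μ₁(N₁^k v₁) = μ₂(N₂^k v₂)` for all `k`; the first is `0` for `k ≥ n₁` and not `0` for
`k = n₁ - 1`. Hence `n₁ = n₂` and the functions `q` are the same. The second part is the first one for
`-N₂ᵀ, μ₂, v₂`: `h` for these is `(-1)^m h(m)` (transpose the product in the trace) and `q` is `q(-x)`. -/
def S_HQ : Prop := ∀ (n₁ n₂ : ℕ) (N₁ : Matrix (Fin n₁) (Fin n₁) ℂ) (N₂ : Matrix (Fin n₂) (Fin n₂) ℂ)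
  (v₁ μ₁ : Fin n₁ → ℂ) (v₂ μ₂ : Fin n₂ → ℂ), 1 ≤ n₁ → 1 ≤ n₂ → N₁ ^ n₁ = 0 → N₂ ^ n₂ = 0 → μ₁ ⬝ᵥ v₁ = 1 → μ₂ ⬝ᵥ v₂ = 1 →
  μ₁ ⬝ᵥ ((N₁ ^ (n₁ - 1)) *ᵥ v₁) ≠ 0 → μ₂ ⬝ᵥ ((N₂ ^ (n₂ - 1)) *ᵥ v₂) ≠ 0 →
  ((∀ m, hm N₁ v₁ μ₁ m = hm N₂ v₂ μ₂ m) → n₁ = n₂ ∧ ∀ x, qf N₁ v₁ μ₁ x = qf N₂ v₂ μ₂ x) ∧
  ((∀ m, hm N₁ v₁ μ₁ m = (-1) ^ m * hm N₂ v₂ μ₂ m) → n₁ = n₂ ∧ ∀ x, qf N₁ v₁ μ₁ x = qf N₂ v₂ μ₂ (-x))

/-- the point with the coordinates `l_i` and the entries of the matrices `X_ij` -/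
def pj {k : ℕ} {r : Fin k → ℕ} {n : ∀ i, Fin (r i) → ℕ} (l : Fin k → ℂ)
    (X : ∀ i j, Matrix (Fin (n i j)) (Fin (n i j)) ℂ) :
    (Σ i : Fin k, Option (Σ j : Fin (r i), Fin (n i j) × Fin (n i j))) → ℂ
  | ⟨i, none⟩ => l i
  | ⟨i, some ⟨j, p⟩⟩ => X i j p.1 p.2

/-- **JFIN.** The theorem on tuples for several systems at the same fibres. This is SYS2 for the block systems (BLK), with
`Ω_i = blk (Ω_ij)_j` and the polynomial renamed along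
`⟨i, some ⟨j, (a, b)⟩⟩ ↦ ⟨i, some (finSigmaFinEquiv ⟨j, a⟩, finSigmaFinEquiv ⟨j, b⟩)⟩` (the degree does not increase, the
coefficients are coefficients of `P` or `0`, as the map is injective; `MvPolynomial.aeval_rename`). -/
def S_JFIN : Prop := S_SYS1 → S_SYS2 → S_BLK → ∀ (k δ D : ℕ) (r : Fin k → ℕ) (n : ∀ i, Fin (r i) → ℕ)
  (N B : ∀ i j, Matrix (Fin (n i j)) (Fin (n i j)) ℚ) (H W : ∀ i j, Matrix (Fin (n i j)) (Fin (n i j)) ℚ⟦X⟧)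
  (T : ∀ i, ℂ → Set (∀ j, Matrix (Fin (n i j)) (Fin (n i j)) ℂ)),
  (∀ i j, Sys (n i j) (N i j) (B i j) (H i j) (W i j)) →
  (∀ i, ∀ x : ℝ, 0 < x → x < 1 → ∀ X ∈ T i x, ∀ c : ℂ, ∃ g : ∀ j, Matrix (Fin (n i j)) (Fin (n i j)) ℂ,
    blk (n i) ℂ g ∈ Gal (Yf (cm (blk (n i) ℚ (N i))) (Hcg (blk (n i) ℚ⟦X⟧ (H i)))) ∧
    ∀ j, Yf (cm (N i j)) (Hcg (H i j)) x * g j = X j * E (cm (N i j)) c) →
    ∃ c C : ℝ, 0 < c ∧ 0 ≤ C ∧ ∀ (V : Submodule ℚ ℂ) [Module.Finite ℚ V], Module.finrank ℚ V ≤ D →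
      ∀ Ω : (∀ i j, Matrix (Fin (n i j)) (Fin (n i j)) ℂ), ∀ (x : Fin k → ℕ) (N' : ℕ), (∀ i, 1 ≤ x i) → 1 ≤ N' →
      ∀ S : Finset (Fin k → ℕ), (∀ t ∈ S, (∀ i, x i < t i ∧ t i ≤ x i + N') ∧
        ∃ P : MvPolynomial (Σ i : Fin k, Option (Σ j : Fin (r i), Fin (n i j) × Fin (n i j))) ℂ,
        P.totalDegree ≤ δ ∧ (∀ s, P.coeff s ∈ V) ∧
        MvPolynomial.aeval (pj (fun i => ((Real.log (t i) : ℝ) : ℂ)) fun i j => Ytg (N i j) (H i j) (t i) * Ω i j) P = 0 ∧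
        ∃ (l : Fin k → ℂ) (g : ∀ i j, Matrix (Fin (n i j)) (Fin (n i j)) ℂ),
          (∀ i, g i ∈ T i (((1 / (t i : ℝ) : ℝ)) : ℂ)) ∧
          MvPolynomial.aeval (pj l fun i j => g i j * Ω i j) P ≠ 0) →
      (S.card : ℝ) ≤ C * (N' : ℝ) ^ (k - 1) * ∑ i, (1 + N' / ((x i : ℝ) + N') ^ c)

end Pool.Agent.Run7.h225.HG
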