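import Pool.Agent.Run7.h225.HG.Iface

/-!
# ASY: asymptotics of the matrix recursion (helper366)
-/

set_option autoImplicit false

open Filter Topology

namespace Pool.Agent.Run7.h225.HG

namespace ASYp

section conv

variable {V : Type*} [NormedAddCommGroup V] [CompleteSpace V]

lemma conv_or_zero (w : ℕ → V) (a : ℕ → ℝ) (ha : ∀ k, 0 ≤ a k) (hs : Summable a) (K : ℕ)
    (h : ∀ k, K ≤ k → ‖w (k + 1) - w k‖ ≤ a k * ‖w k‖) :
    (∃ K', ∀ k, K' ≤ k → w k = 0) ∨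
      ∃ x : V, x ≠ 0 ∧ Tendsto w atTop (𝓝 x) := by
  have ht : Tendsto (fun i => ∑' k, a (k + i)) atTop (𝓝 0) := _root_.tendsto_sum_nat_add a
  obtain ⟨K1, hK1⟩ := eventually_atTop.1 (ht.eventually (ge_mem_nhds (show (0 : ℝ) < 1 / 4 by norm_num)))
  set K0 := max K K1 with hK0
  have hT : ∑' k, a (k + K0) ≤ 1 / 4 := hK1 K0 (le_max_right _ _)
  have hs0 : Summable fun k => a (k + K0) := (summable_nat_add_iff K0).2 hs
  have hpart : ∀ m, ∑ l ∈ Finset.range m, a (l + K0) ≤ 1 / 4 := fun m =>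
    (hs0.sum_le_tsum _ fun _ _ => ha _).trans hT
  by_cases hw : w K0 = 0
  · left
    refine ⟨K0, fun k hk => ?_⟩
    induction k, hk using Nat.le_induction with
    | base => exact hw
    | succ k hk ih =>
      have h1 := h k (le_trans (le_max_left _ _) hk)
      rw [ih, norm_zero, mul_zero, sub_zero] at h1
      exact norm_le_zero_iff.1 h1
  right
  have hw0 : 0 < ‖w K0‖ := norm_pos_iff.2 hw
  have key : ∀ m, ‖w (m + K0) - w K0‖ ≤ 2 * ‖w K0‖ * ∑ l ∈ Finset.range m, a (l + K0) := by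
    intro m
    induction m with
    | zero => simp
    | succ m ih =>
      have h1 := h (m + K0) (le_trans (le_max_left K K1) (Nat.le_add_left _ _))
      have h2 : ‖w (m + K0)‖ ≤ 2 * ‖w K0‖ := by
        have h3 : ‖w (m + K0)‖ ≤ ‖w (m + K0) - w K0‖ + ‖w K0‖ := by
          simpa using norm_add_le (w (m + K0) - w K0) (w K0)
        have h4 := hpart m
        have h5 : 2 * ‖w K0‖ * ∑ l ∈ Finset.range m, a (l + K0) ≤ 2 * ‖w K0‖ * (1 / 4) :=
          mul_le_mul_of_nonneg_left h4 (by positivity)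
        linarith
      have e : m + 1 + K0 = m + K0 + 1 := by omega
      rw [Finset.sum_range_succ, mul_add, e]
      calc ‖w (m + K0 + 1) - w K0‖ = ‖(w (m + K0) - w K0) + (w (m + K0 + 1) - w (m + K0))‖ := by
            congr 1; abel
        _ ≤ ‖w (m + K0) - w K0‖ + ‖w (m + K0 + 1) - w (m + K0)‖ := norm_add_le _ _
        _ ≤ _ := by
            refine add_le_add ih (h1.trans ?_)
            rw [mul_comm]
            exact mul_le_mul_of_nonneg_right h2 (ha _)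
  have hb : ∀ m, ‖w (m + K0)‖ ≤ 2 * ‖w K0‖ := by
    intro m
    have h3 : ‖w (m + K0)‖ ≤ ‖w (m + K0) - w K0‖ + ‖w K0‖ := by
      simpa using norm_add_le (w (m + K0) - w K0) (w K0)
    have h5 : 2 * ‖w K0‖ * ∑ l ∈ Finset.range m, a (l + K0) ≤ 2 * ‖w K0‖ * (1 / 4) :=
      mul_le_mul_of_nonneg_left (hpart m) (by positivity)
    have := key m
    linarith
  have hc : CauchySeq fun m => w (m + K0) := by
    refine cauchySeq_of_dist_le_of_summable (fun m => a (m + K0) * (2 * ‖w K0‖)) (fun m => ?_)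
      (hs0.mul_right _)
    rw [dist_comm, dist_eq_norm, Nat.succ_eq_add_one, show m + 1 + K0 = m + K0 + 1 by omega]
    refine (h (m + K0) (le_trans (le_max_left K K1) (Nat.le_add_left _ _))).trans ?_
    exact mul_le_mul_of_nonneg_left (hb m) (ha _)
  obtain ⟨x, hx⟩ := cauchySeq_tendsto_of_complete hc
  refine ⟨x, ?_, (tendsto_add_atTop_iff_nat K0).1 hx⟩
  have h1 : ‖x - w K0‖ ≤ ‖w K0‖ / 2 := by
    refine le_of_tendsto (hx.sub_const (w K0)).norm (Eventually.of_forall fun m => ?_)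
    have h5 : 2 * ‖w K0‖ * ∑ l ∈ Finset.range m, a (l + K0) ≤ 2 * ‖w K0‖ * (1 / 4) :=
      mul_le_mul_of_nonneg_left (hpart m) (by positivity)
    have := key m
    linarith
  intro h0
  rw [h0, zero_sub, norm_neg] at h1
  linarith

omit [CompleteSpace V] in
lemma rate (w : ℕ → V) (x : V) (hx : Tendsto w atTop (𝓝 x)) (a H : ℕ → ℝ) (ha : ∀ k, 0 ≤ a k)
    (hH : Monotone H) (hH1 : ∀ k, 1 ≤ H k) (hs : Summable fun k => H k ^ 2 * a k) (K : ℕ)
    (h : ∀ k, K ≤ k → ‖w (k + 1) - w k‖ ≤ a k * ‖w k‖) :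
    Tendsto (fun k => H k ^ 2 * ‖w k - x‖) atTop (𝓝 0) := by
  obtain ⟨B, hB⟩ := hx.norm.bddAbove_range
  have hB' : ∀ k, ‖w k‖ ≤ B := fun k => hB ⟨k, rfl⟩
  have hs' : Summable a := by
    refine Summable.of_nonneg_of_le ha (fun k => ?_) hs
    have : 1 ≤ H k ^ 2 := one_le_pow₀ (hH1 k)
    nlinarith [ha k]
  have hB0 : 0 ≤ B := (norm_nonneg _).trans (hB' 0)
  have ht : Tendsto (fun i => B * ∑' k, H (k + i) ^ 2 * a (k + i)) atTop (𝓝 0) := by
    have := (_root_.tendsto_sum_nat_add fun k => H k ^ 2 * a k).const_mul B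
    rwa [mul_zero] at this
  refine squeeze_zero' (Eventually.of_forall fun k => by positivity) ?_ ht
  filter_upwards [eventually_ge_atTop K] with k hk
  have h1 : dist (w (0 + k)) x ≤ ∑' m, a (0 + m + k) * B := by
    refine dist_le_tsum_of_dist_le_of_tendsto (f := fun m => w (m + k)) (fun m => a (m + k) * B)
      (fun m => ?_) (((summable_nat_add_iff k).2 hs').mul_right _)
      ((tendsto_add_atTop_iff_nat k).2 hx) 0
    rw [dist_comm, dist_eq_norm, Nat.succ_eq_add_one, show m + 1 + k = m + k + 1 by omega]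
    refine (h (m + k) (by omega)).trans ?_
    exact mul_le_mul_of_nonneg_left (hB' _) (ha _)
  rw [zero_add, dist_eq_norm] at h1
  simp only [zero_add] at h1
  rw [tsum_mul_right] at h1
  have h2 : H k ^ 2 * ∑' m, a (m + k) ≤ ∑' m, H (m + k) ^ 2 * a (m + k) := by
    rw [← tsum_mul_left]
    refine Summable.tsum_le_tsum (fun m => ?_) (((summable_nat_add_iff k).2 hs').mul_left _)
      ((summable_nat_add_iff k).2 hs)
    refine mul_le_mul_of_nonneg_right ?_ (ha _)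
    exact pow_le_pow_left₀ (by linarith [hH1 k]) (hH (Nat.le_add_left _ _)) 2
  calc H k ^ 2 * ‖w k - x‖ ≤ H k ^ 2 * ((∑' m, a (m + k)) * B) :=
        mul_le_mul_of_nonneg_left h1 (by positivity)
    _ = B * (H k ^ 2 * ∑' m, a (m + k)) := by ring
    _ ≤ _ := mul_le_mul_of_nonneg_left h2 hB0

end conv

/-- `2 + h_k` -/
noncomputable def HH (k : ℕ) : ℝ := 2 + ((harmonic (k - 1) : ℚ) : ℝ)

lemma harm_nonneg (m : ℕ) : (0 : ℝ) ≤ ((harmonic m : ℚ) : ℝ) := by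
  have : (0 : ℚ) ≤ harmonic m := by
    unfold harmonic
    exact Finset.sum_nonneg fun _ _ => by positivity
  exact_mod_cast this

lemma HH_ge (k : ℕ) : 2 ≤ HH k := by
  have := harm_nonneg (k - 1)
  unfold HH; linarith

lemma HH_succ {k : ℕ} (hk : 1 ≤ k) : HH (k + 1) = HH k + 1 / k := by
  unfold HH
  obtain ⟨m, rfl⟩ : ∃ m, k = m + 1 := ⟨k - 1, by omega⟩
  rw [Nat.add_sub_cancel, Nat.add_sub_cancel, harmonic_succ]
  push_cast
  rw [one_div]
  ring

lemma HH_mono : Monotone HH := by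
  refine monotone_nat_of_le_succ fun k => ?_
  rcases Nat.eq_zero_or_pos k with h | h
  · subst h
    simp [HH]
  · rw [HH_succ h]
    have : (0 : ℝ) ≤ 1 / k := by positivity
    linarith

lemma HH_le {k : ℕ} (hk : 1 ≤ k) : HH k ≤ 15 * (k : ℝ) ^ (1 / 12 : ℝ) := by
  have h1 := harmonic_le_one_add_log (k - 1)
  have h2 : Real.log ((k - 1 : ℕ) : ℝ) ≤ Real.log k := by
    rcases Nat.eq_zero_or_pos (k - 1) with h | h
    · rw [h]
      simp only [Nat.cast_zero, Real.log_zero]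
      exact Real.log_natCast_nonneg k
    · exact Real.log_le_log (by exact_mod_cast h) (by exact_mod_cast Nat.sub_le _ _)
  have h3 := Real.log_natCast_le_rpow_div k (show (0 : ℝ) < 1 / 12 by norm_num)
  have h4 : (1 : ℝ) ≤ (k : ℝ) ^ (1 / 12 : ℝ) :=
    Real.one_le_rpow (by exact_mod_cast hk) (by norm_num)
  unfold HH
  have h5 : (k : ℝ) ^ (1 / 12 : ℝ) / (1 / 12) = 12 * (k : ℝ) ^ (1 / 12 : ℝ) := by ring
  rw [h5] at h3
  linarith

lemma HH_summable (C : ℝ) : Summable fun k : ℕ => HH k ^ 2 * (C * HH k ^ 4 / (k : ℝ) ^ 2) := by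
  have h0 : Summable fun k : ℕ => |C| * 15 ^ 6 * (k : ℝ) ^ (-(3 / 2) : ℝ) :=
    (Real.summable_nat_rpow.2 (by norm_num)).mul_left _
  refine Summable.of_norm_bounded h0 fun k => ?_
  have hH := HH_ge k
  rcases Nat.eq_zero_or_pos k with h | h
  · subst h
    simp only [CharP.cast_eq_zero]
    rw [Real.zero_rpow (by norm_num)]
    simp
  · have hk : (0 : ℝ) < k := by exact_mod_cast h
    have h1 : HH k ^ 6 ≤ 15 ^ 6 * (k : ℝ) ^ (1 / 2 : ℝ) := by
      calc HH k ^ 6 ≤ (15 * (k : ℝ) ^ (1 / 12 : ℝ)) ^ 6 :=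
            pow_le_pow_left₀ (by linarith) (HH_le h) 6
        _ = 15 ^ 6 * (k : ℝ) ^ (1 / 2 : ℝ) := by
            rw [mul_pow, ← Real.rpow_natCast, ← Real.rpow_natCast, ← Real.rpow_mul hk.le]
            norm_num
    have h2 : (k : ℝ) ^ (-(3 / 2) : ℝ) = (k : ℝ) ^ (1 / 2 : ℝ) / (k : ℝ) ^ 2 := by
      rw [← Real.rpow_natCast, ← Real.rpow_sub hk]
      norm_num
    rw [h2, Real.norm_eq_abs, abs_mul, abs_div, abs_mul, abs_of_nonneg (show 0 ≤ HH k ^ 2 by positivity),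
      abs_of_nonneg (show 0 ≤ HH k ^ 4 by positivity), abs_of_nonneg (show 0 ≤ (k : ℝ) ^ 2 by positivity)]
    calc HH k ^ 2 * (|C| * HH k ^ 4 / (k : ℝ) ^ 2) = |C| * HH k ^ 6 / (k : ℝ) ^ 2 := by ring
      _ ≤ |C| * (15 ^ 6 * (k : ℝ) ^ (1 / 2 : ℝ)) / (k : ℝ) ^ 2 := by gcongr
      _ = _ := by ring

lemma HH_tendsto : Tendsto (fun k => HH k - 2) atTop atTop := by
  have h1 : Tendsto (fun k : ℕ => Real.log (k : ℝ)) atTop atTop :=
    Real.tendsto_log_atTop.comp tendsto_natCast_atTop_atTop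
  refine tendsto_atTop_mono' atTop ?_ h1
  filter_upwards [eventually_ge_atTop 1] with k hk
  have h2 := log_add_one_le_harmonic (k - 1)
  rw [Nat.sub_add_cancel hk] at h2
  unfold HH
  linarith

section alg

variable {V : Type*} [NormedAddCommGroup V] [NormedSpace ℂ V]

/-- `exp (-h R)` for `R³ = 0` -/
noncomputable def PP (R : V →L[ℂ] V) (h : ℂ) (x : V) : V := x - h • R x + (h ^ 2 / 2) • R (R x)

lemma PP_inv {R : V →L[ℂ] V} (hR : ∀ x, R (R (R x)) = 0) (h : ℂ) (x : V) :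
    PP R (-h) (PP R h x) = x := by
  unfold PP
  simp only [map_add, map_sub, map_smul, hR, smul_zero, map_zero]
  module

lemma PP_sub (R : V →L[ℂ] V) (h : ℂ) (x y : V) : PP R h (x - y) = PP R h x - PP R h y := by
  unfold PP
  simp only [map_sub]
  module

lemma PP_step {R : V →L[ℂ] V} (hR : ∀ x, R (R (R x)) = 0) (h t : ℂ) (u e : V) :
    PP R (h + t) (u + t • R u + e) = PP R h u - (t ^ 2 / 2) • R (R u) + PP R (h + t) e := by
  unfold PP
  simp only [map_add, map_smul, hR, smul_zero]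
  module

lemma PP_norm (R : V →L[ℂ] V) (h : ℂ) (x : V) :
    ‖PP R h x‖ ≤ (1 + ‖R‖) ^ 2 * (1 + ‖h‖) ^ 2 * ‖x‖ := by
  unfold PP
  have h1 : ‖R x‖ ≤ ‖R‖ * ‖x‖ := R.le_opNorm x
  have h2 : ‖R (R x)‖ ≤ ‖R‖ * (‖R‖ * ‖x‖) :=
    (R.le_opNorm _).trans (mul_le_mul_of_nonneg_left h1 (norm_nonneg _))
  have h3 : ‖h • R x‖ ≤ ‖h‖ * (‖R‖ * ‖x‖) := by
    rw [norm_smul]
    exact mul_le_mul_of_nonneg_left h1 (norm_nonneg _)
  have h4 : ‖(h ^ 2 / 2) • R (R x)‖ ≤ ‖h‖ ^ 2 / 2 * (‖R‖ * (‖R‖ * ‖x‖)) := by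
    rw [norm_smul, norm_div, norm_pow, Complex.norm_ofNat]
    exact mul_le_mul_of_nonneg_left h2 (by positivity)
  have h5 : ‖x - h • R x + (h ^ 2 / 2) • R (R x)‖ ≤ ‖x‖ + ‖h • R x‖ + ‖(h ^ 2 / 2) • R (R x)‖ :=
    (norm_add_le _ _).trans (add_le_add (norm_sub_le _ _) le_rfl)
  refine h5.trans ((add_le_add (add_le_add le_rfl h3) h4).trans ?_)
  have e1 := norm_nonneg R
  have e2 := norm_nonneg h
  have e3 := norm_nonneg x
  have e4 : 1 + ‖h‖ * ‖R‖ + ‖h‖ ^ 2 / 2 * ‖R‖ ^ 2 ≤ (1 + ‖R‖) ^ 2 * (1 + ‖h‖) ^ 2 := by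
    have : (1 + ‖R‖) * (1 + ‖h‖) ≥ 1 + ‖h‖ * ‖R‖ := by nlinarith
    have h7 : (1 + ‖h‖ * ‖R‖) ^ 2 ≤ ((1 + ‖R‖) * (1 + ‖h‖)) ^ 2 :=
      pow_le_pow_left₀ (by positivity) this 2
    rw [mul_pow] at h7
    have h8 : 0 ≤ ‖h‖ * ‖R‖ := by positivity
    nlinarith [sq_nonneg (‖h‖ * ‖R‖)]
  calc ‖x‖ + ‖h‖ * (‖R‖ * ‖x‖) + ‖h‖ ^ 2 / 2 * (‖R‖ * (‖R‖ * ‖x‖))
      = (1 + ‖h‖ * ‖R‖ + ‖h‖ ^ 2 / 2 * ‖R‖ ^ 2) * ‖x‖ := by ring
    _ ≤ _ := mul_le_mul_of_nonneg_right e4 e3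

lemma abs_main [CompleteSpace V] (D R : V →L[ℂ] V) (hR : ∀ x, R (R (R x)) = 0) (φ : ℕ → V)
    (hφ : ∀ k : ℕ, ((k : ℂ) + 1) • φ (k + 1) + D (φ (k + 1)) =
      (k : ℂ) • φ k + D (φ k) + R (φ k)) :
    (∃ K, ∀ k, K ≤ k → φ k = 0) ∨
      ∃ x : V, x ≠ 0 ∧ ∃ g : ℕ → ℝ, (∀ᶠ k in atTop, 1 ≤ g k) ∧
        Tendsto (fun k : ℕ => (((k : ℝ) / g k : ℝ) : ℂ) • φ k) atTop (𝓝 x) := by
  set h : ℕ → ℝ := fun k => HH k - 2 with hh
  have hh0 : ∀ k, 0 ≤ h k := fun k => by have := HH_ge k; simp only [hh]; linarith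
  have hhH : ∀ k, 1 + h k ≤ HH k := fun k => by simp only [hh]; linarith
  have hhn : ∀ k, ‖((h k : ℝ) : ℂ)‖ = h k := fun k => by
    rw [Complex.norm_real, Real.norm_eq_abs, abs_of_nonneg (hh0 k)]
  set u : ℕ → V := fun k => (k : ℂ) • φ k + D (φ k) with hu
  have hu1 : ∀ k, u (k + 1) = u k + R (φ k) := by
    intro k
    simp only [hu]
    rw [← hφ k]
    push_cast
    rfl
  set K0 : ℕ := ⌈2 * ‖D‖⌉₊ + 1 with hK0
  have hK1 : ∀ k, K0 ≤ k → 1 ≤ k := fun k hk => by omega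
  have hKD : ∀ k, K0 ≤ k → 2 * ‖D‖ ≤ k := by
    intro k hk
    have h1 : 2 * ‖D‖ ≤ (⌈2 * ‖D‖⌉₊ : ℝ) := Nat.le_ceil _
    have h2 : ((⌈2 * ‖D‖⌉₊ : ℕ) : ℝ) ≤ k := by exact_mod_cast (by omega : ⌈2 * ‖D‖⌉₊ ≤ k)
    linarith
  have hφu : ∀ k, K0 ≤ k → ‖φ k‖ ≤ 2 / k * ‖u k‖ := by
    intro k hk
    have hk0 : (0 : ℝ) < k := by exact_mod_cast hK1 k hk
    have h1 : (k : ℝ) * ‖φ k‖ ≤ ‖u k‖ + ‖D‖ * ‖φ k‖ := by
      calc (k : ℝ) * ‖φ k‖ = ‖(k : ℂ) • φ k‖ := by rw [norm_smul, Complex.norm_natCast]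
        _ = ‖u k - D (φ k)‖ := by simp only [hu, add_sub_cancel_right]
        _ ≤ ‖u k‖ + ‖D (φ k)‖ := norm_sub_le _ _
        _ ≤ _ := add_le_add le_rfl (D.le_opNorm _)
    have h2 := hKD k hk
    have h3 : ‖D‖ * ‖φ k‖ ≤ k / 2 * ‖φ k‖ :=
      mul_le_mul_of_nonneg_right (by linarith) (norm_nonneg _)
    have h4 : (k : ℝ) / 2 * ‖φ k‖ ≤ ‖u k‖ := by linarith
    rw [div_mul_eq_mul_div, le_div_iff₀ hk0]
    linarith
  set w : ℕ → V := fun k => PP R (h k) (u k) with hw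
  have huw : ∀ k, u k = PP R (-(h k : ℂ)) (w k) := fun k => (PP_inv hR _ _).symm
  set C : ℝ := (1 + ‖R‖) ^ 4 * (1 + 2 * ‖R‖ * ‖D‖) with hC
  have hC0 : 0 ≤ C := by positivity
  have hstep : ∀ k, K0 ≤ k → ‖w (k + 1) - w k‖ ≤ C * HH k ^ 4 / (k : ℝ) ^ 2 * ‖w k‖ := by
    intro k hk
    have hk1 := hK1 k hk
    have hk0 : (0 : ℝ) < k := by exact_mod_cast hk1
    have hk0' : (k : ℂ) ≠ 0 := by exact_mod_cast hk0.ne'
    set e : V := (-(1 / (k : ℂ))) • R (D (φ k)) with he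
    have h1 : u (k + 1) = u k + (1 / (k : ℂ)) • R (u k) + e := by
      rw [hu1 k, he]
      simp only [hu, map_add, map_smul, smul_add, smul_smul]
      rw [one_div, inv_mul_cancel₀ hk0', one_smul]
      module
    have h2 : ((h (k + 1) : ℝ) : ℂ) = (h k : ℂ) + 1 / (k : ℂ) := by
      simp only [hh]
      rw [HH_succ hk1]
      push_cast
      ring
    have h3 : w (k + 1) - w k = -(((1 / (k : ℂ)) ^ 2 / 2) • R (R (u k))) +
        PP R (h (k + 1)) e := by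
      simp only [hw]
      rw [h2, h1, PP_step hR]
      abel
    have h4 : ‖((1 / (k : ℂ)) ^ 2 / 2) • R (R (u k))‖ ≤ 1 / (k : ℝ) ^ 2 * (‖R‖ ^ 2 * ‖u k‖) := by
      rw [norm_smul, norm_div, norm_pow, norm_div, Complex.norm_natCast, Complex.norm_ofNat,
        norm_one, div_pow, one_pow]
      have h5 : ‖R (R (u k))‖ ≤ ‖R‖ ^ 2 * ‖u k‖ := by
        calc ‖R (R (u k))‖ ≤ ‖R‖ * ‖R (u k)‖ := R.le_opNorm _
          _ ≤ ‖R‖ * (‖R‖ * ‖u k‖) := mul_le_mul_of_nonneg_left (R.le_opNorm _) (norm_nonneg _)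
          _ = _ := by ring
      refine mul_le_mul ?_ h5 (norm_nonneg _) (by positivity)
      have : (0 : ℝ) ≤ 1 / (k : ℝ) ^ 2 := by positivity
      linarith
    have h5 : ‖e‖ ≤ 1 / (k : ℝ) ^ 2 * (2 * ‖R‖ * ‖D‖ * ‖u k‖) := by
      rw [he, norm_smul, norm_neg, norm_div, Complex.norm_natCast, norm_one]
      calc 1 / (k : ℝ) * ‖R (D (φ k))‖ ≤ 1 / (k : ℝ) * (‖R‖ * (‖D‖ * (2 / k * ‖u k‖))) := by
            refine mul_le_mul_of_nonneg_left ?_ (by positivity)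
            refine (R.le_opNorm _).trans (mul_le_mul_of_nonneg_left ?_ (norm_nonneg _))
            exact (D.le_opNorm _).trans (mul_le_mul_of_nonneg_left (hφu k hk) (norm_nonneg _))
        _ = _ := by
            field_simp
    have hHk : 0 ≤ HH k := by have := HH_ge k; linarith
    have h6 : ‖PP R (h (k + 1)) e‖ ≤ (1 + ‖R‖) ^ 2 * HH k ^ 2 * ‖e‖ := by
      refine (PP_norm R _ e).trans ?_
      rw [hhn]
      refine mul_le_mul_of_nonneg_right (mul_le_mul_of_nonneg_left ?_ (by positivity))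
        (norm_nonneg _)
      refine pow_le_pow_left₀ (by have := hh0 (k + 1); linarith) ?_ 2
      simp only [hh]
      rw [HH_succ hk1]
      have : 1 / (k : ℝ) ≤ 1 := by
        rw [div_le_one hk0]
        exact_mod_cast hk1
      linarith
    have h7 : ‖u k‖ ≤ (1 + ‖R‖) ^ 2 * HH k ^ 2 * ‖w k‖ := by
      rw [huw k]
      refine (PP_norm R _ _).trans ?_
      rw [norm_neg, hhn]
      refine mul_le_mul_of_nonneg_right (mul_le_mul_of_nonneg_left ?_ (by positivity))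
        (norm_nonneg _)
      exact pow_le_pow_left₀ (by have := hh0 k; linarith) (hhH k) 2
    have hR0 := norm_nonneg R
    have hD0 := norm_nonneg D
    have hH1 : 1 ≤ HH k ^ 2 := one_le_pow₀ (by have := HH_ge k; linarith)
    have h8 : ‖R‖ ^ 2 ≤ (1 + ‖R‖) ^ 2 * HH k ^ 2 := by
      have : ‖R‖ ^ 2 ≤ (1 + ‖R‖) ^ 2 := pow_le_pow_left₀ hR0 (by linarith) 2
      calc ‖R‖ ^ 2 ≤ (1 + ‖R‖) ^ 2 * 1 := by linarith
        _ ≤ _ := mul_le_mul_of_nonneg_left hH1 (by positivity)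
    rw [h3]
    calc ‖-(((1 / (k : ℂ)) ^ 2 / 2) • R (R (u k))) + PP R (h (k + 1)) e‖
        ≤ ‖((1 / (k : ℂ)) ^ 2 / 2) • R (R (u k))‖ + ‖PP R (h (k + 1)) e‖ := by
          refine (norm_add_le _ _).trans ?_
          rw [norm_neg]
      _ ≤ 1 / (k : ℝ) ^ 2 * (‖R‖ ^ 2 * ‖u k‖) +
          (1 + ‖R‖) ^ 2 * HH k ^ 2 * (1 / (k : ℝ) ^ 2 * (2 * ‖R‖ * ‖D‖ * ‖u k‖)) :=
          add_le_add h4 (h6.trans (mul_le_mul_of_nonneg_left h5 (by positivity)))
      _ ≤ 1 / (k : ℝ) ^ 2 * ((1 + ‖R‖) ^ 2 * HH k ^ 2 * ‖u k‖) +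
          (1 + ‖R‖) ^ 2 * HH k ^ 2 * (1 / (k : ℝ) ^ 2 * (2 * ‖R‖ * ‖D‖ * ‖u k‖)) := by
          refine add_le_add (mul_le_mul_of_nonneg_left ?_ (by positivity)) le_rfl
          exact mul_le_mul_of_nonneg_right h8 (norm_nonneg _)
      _ = (1 + ‖R‖) ^ 2 * HH k ^ 2 * (1 / (k : ℝ) ^ 2) * (1 + 2 * ‖R‖ * ‖D‖) * ‖u k‖ := by ring
      _ ≤ (1 + ‖R‖) ^ 2 * HH k ^ 2 * (1 / (k : ℝ) ^ 2) * (1 + 2 * ‖R‖ * ‖D‖) *
          ((1 + ‖R‖) ^ 2 * HH k ^ 2 * ‖w k‖) := mul_le_mul_of_nonneg_left h7 (by positivity)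
      _ = _ := by rw [hC]; ring
  set a : ℕ → ℝ := fun k => C * HH k ^ 4 / (k : ℝ) ^ 2 with ha
  have ha0 : ∀ k, 0 ≤ a k := fun k => by simp only [ha]; positivity
  have hsH : Summable fun k => HH k ^ 2 * a k := HH_summable C
  have hHH1 : ∀ k, 1 ≤ HH k := fun k => by have := HH_ge k; linarith
  have hs : Summable a := by
    refine Summable.of_nonneg_of_le ha0 (fun k => ?_) hsH
    have : 1 ≤ HH k ^ 2 := one_le_pow₀ (hHH1 k)
    nlinarith [ha0 k]
  rcases conv_or_zero w a ha0 hs K0 hstep with ⟨K', hK'⟩ | ⟨x, hx0, hx⟩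
  · left
    refine ⟨max K' K0, fun k hk => ?_⟩
    have h1 := hK' k (le_trans (le_max_left _ _) hk)
    have h2 : u k = 0 := by
      rw [huw k, h1]
      simp [PP]
    have h3 := hφu k (le_trans (le_max_right _ _) hk)
    rw [h2, norm_zero, mul_zero] at h3
    exact norm_le_zero_iff.1 h3
  right
  have hrate := rate w x hx a HH ha0 HH_mono hHH1 hsH K0 hstep
  set ε : ℕ → V := fun k => PP R (-(h k : ℂ)) (w k - x) with hε
  have hε0 : Tendsto ε atTop (𝓝 0) := by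
    have h1 : Tendsto (fun k => (1 + ‖R‖) ^ 2 * (HH k ^ 2 * ‖w k - x‖)) atTop (𝓝 0) := by
      have := hrate.const_mul ((1 + ‖R‖) ^ 2)
      rwa [mul_zero] at this
    refine squeeze_zero_norm (fun k => ?_) h1
    refine (PP_norm R _ _).trans ?_
    rw [norm_neg, hhn, mul_assoc]
    refine mul_le_mul_of_nonneg_left (mul_le_mul_of_nonneg_right ?_ (norm_nonneg _)) (by positivity)
    exact pow_le_pow_left₀ (by have := hh0 k; linarith) (hhH k) 2
  have hux : ∀ k, u k = x + (h k : ℂ) • R x + ((h k : ℂ) ^ 2 / 2) • R (R x) + ε k := by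
    intro k
    simp only [hε]
    rw [PP_sub, ← huw k]
    unfold PP
    module
  -- the general claim
  have claim : ∀ (g : ℕ → ℝ) (x' : V), (∀ᶠ k in atTop, 1 ≤ g k) →
      Tendsto (fun k => ((1 / g k : ℝ) : ℂ) • u k) atTop (𝓝 x') →
      Tendsto (fun k : ℕ => (((k : ℝ) / g k : ℝ) : ℂ) • φ k) atTop (𝓝 x') := by
    intro g x' _ hg
    have h1 : Tendsto (fun k => ((1 / g k : ℝ) : ℂ) • D (φ k)) atTop (𝓝 0) := by
      have h2 : Tendsto (fun k : ℕ => (2 * ‖D‖ / (k : ℝ)) * ‖((1 / g k : ℝ) : ℂ) • u k‖) atTop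
          (𝓝 (0 * ‖x'‖)) :=
        (tendsto_const_div_atTop_nhds_zero_nat (2 * ‖D‖)).mul hg.norm
      rw [zero_mul] at h2
      refine squeeze_zero_norm' ?_ h2
      filter_upwards [eventually_ge_atTop K0] with k hk
      rw [norm_smul, norm_smul]
      have h3 := (D.le_opNorm (φ k)).trans (mul_le_mul_of_nonneg_left (hφu k hk) (norm_nonneg _))
      calc ‖((1 / g k : ℝ) : ℂ)‖ * ‖D (φ k)‖ ≤ ‖((1 / g k : ℝ) : ℂ)‖ * (‖D‖ * (2 / k * ‖u k‖)) :=
            mul_le_mul_of_nonneg_left h3 (norm_nonneg _)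
        _ = _ := by ring
    have h4 := hg.sub h1
    rw [sub_zero] at h4
    refine h4.congr fun k => ?_
    rw [← smul_sub]
    simp only [hu, add_sub_cancel_right]
    rw [smul_smul]
    congr 1
    push_cast
    ring
  have hhinf : Tendsto h atTop atTop := HH_tendsto
  have hinv : Tendsto (fun k => ((1 / h k : ℝ) : ℂ)) atTop (𝓝 0) := by
    have h1 : Tendsto (fun k => 1 / h k) atTop (𝓝 0) := tendsto_const_nhds.div_atTop hhinf
    have h2 := (Complex.continuous_ofReal.tendsto 0).comp h1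
    rw [Complex.ofReal_zero] at h2
    exact h2
  have hpos : ∀ᶠ k in atTop, 1 ≤ h k := hhinf.eventually_ge_atTop 1
  by_cases h2 : R (R x) = 0
  · by_cases h1 : R x = 0
    · refine ⟨x, hx0, fun _ => 1, Eventually.of_forall fun _ => le_rfl, ?_⟩
      refine claim (fun _ => 1) x (Eventually.of_forall fun _ => le_rfl) ?_
      have h3 := (tendsto_const_nhds (x := x)).add hε0
      rw [add_zero] at h3
      refine h3.congr fun k => ?_
      rw [hux k, h1, map_zero]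
      simp
    · refine ⟨R x, h1, h, hpos, claim h (R x) hpos ?_⟩
      have h3 : Tendsto (fun k => ((1 / h k : ℝ) : ℂ) • x + R x + ((1 / h k : ℝ) : ℂ) • ε k) atTop
          (𝓝 ((0 : ℂ) • x + R x + (0 : ℂ) • (0 : V))) :=
        ((hinv.smul_const x).add tendsto_const_nhds).add (hinv.smul hε0)
      rw [zero_smul, zero_smul, zero_add, add_zero] at h3
      refine h3.congr' ?_
      filter_upwards [hpos] with k hk
      have hk0 : ((h k : ℝ) : ℂ) ≠ 0 := by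
        have : h k ≠ 0 := by linarith
        exact_mod_cast this
      rw [hux k, h2, smul_zero, add_zero, smul_add, smul_add, smul_smul]
      have e : ((1 / h k : ℝ) : ℂ) * ((h k : ℝ) : ℂ) = 1 := by
        push_cast
        field_simp
      rw [e, one_smul]
  · have h20 : (1 / 2 : ℂ) • R (R x) ≠ 0 := smul_ne_zero (by norm_num) h2
    have hpos2 : ∀ᶠ k in atTop, 1 ≤ h k ^ 2 := by
      filter_upwards [hpos] with k hk
      exact one_le_pow₀ hk
    refine ⟨(1 / 2 : ℂ) • R (R x), h20, fun k => h k ^ 2, hpos2,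
      claim (fun k => h k ^ 2) _ hpos2 ?_⟩
    have hinv2 : Tendsto (fun k => ((1 / h k : ℝ) : ℂ) ^ 2) atTop (𝓝 0) := by
      have := hinv.pow 2
      rwa [zero_pow two_ne_zero] at this
    have h3 : Tendsto (fun k => ((1 / h k : ℝ) : ℂ) ^ 2 • x + ((1 / h k : ℝ) : ℂ) • R x +
        (1 / 2 : ℂ) • R (R x) + ((1 / h k : ℝ) : ℂ) ^ 2 • ε k) atTop
        (𝓝 ((0 : ℂ) • x + (0 : ℂ) • R x + (1 / 2 : ℂ) • R (R x) + (0 : ℂ) • (0 : V))) :=
      (((hinv2.smul_const x).add (hinv.smul_const _)).add tendsto_const_nhds).add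
        (hinv2.smul hε0)
    rw [zero_smul, zero_smul, zero_smul, zero_add, zero_add, add_zero] at h3
    refine h3.congr' ?_
    filter_upwards [hpos] with k hk
    have hk0 : ((h k : ℝ) : ℂ) ≠ 0 := by
      have : h k ≠ 0 := by linarith
      exact_mod_cast this
    rw [hux k, smul_add, smul_add, smul_add, smul_smul, smul_smul]
    have e1 : ((1 / h k ^ 2 : ℝ) : ℂ) * ((h k : ℝ) : ℂ) = ((1 / h k : ℝ) : ℂ) := by
      push_cast
      field_simp
    have e2 : ((1 / h k ^ 2 : ℝ) : ℂ) * (((h k : ℝ) : ℂ) ^ 2 / 2) = 1 / 2 := by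
      push_cast
      field_simp
    have e3 : ((1 / h k ^ 2 : ℝ) : ℂ) = ((1 / h k : ℝ) : ℂ) ^ 2 := by
      push_cast
      field_simp
    rw [e1, e2, e3]

end alg

/-- the divergence -/
lemma fin_div (b : ℕ → ℝ) (K : ℕ) (hb : ∀ k, K ≤ k → 1 / (2 * (k : ℝ)) ≤ b k)
    (hs : ∀ x : ℝ, 0 < x → x < 1 → Summable fun k => b k * x ^ k) (C : ℝ)
    (hC : ∀ x : ℝ, 0 < x → x < 1 → ∑' k, b k * x ^ k ≤ C) : False := by
  have hbK : ∀ k, K ≤ k → 0 ≤ b k := fun k hk => le_trans (by positivity) (hb k hk)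
  have h1 : ∀ M, K ≤ M → ∑ k ∈ Finset.range M, b k ≤ C := by
    intro M hM
    have h2 : ∀ x : ℝ, 0 < x → x < 1 → ∑ k ∈ Finset.range M, b k * x ^ k ≤ C := by
      intro x hx0 hx1
      refine ((hs x hx0 hx1).sum_le_tsum _ fun k hk => ?_).trans (hC x hx0 hx1)
      rw [Finset.mem_range, not_lt] at hk
      exact mul_nonneg (hbK k (hM.trans hk)) (by positivity)
    have h3 : Tendsto (fun x : ℝ => ∑ k ∈ Finset.range M, b k * x ^ k) (𝓝[<] 1)
        (𝓝 (∑ k ∈ Finset.range M, b k * 1 ^ k)) := by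
      refine tendsto_nhdsWithin_of_tendsto_nhds ?_
      exact Continuous.tendsto (by fun_prop) 1
    simp only [one_pow, mul_one] at h3
    refine le_of_tendsto h3 ?_
    have h4 : Set.Ioo (0 : ℝ) 1 ∈ 𝓝[<] (1 : ℝ) := Ioo_mem_nhdsLT (by norm_num)
    filter_upwards [h4] with x hx
    exact h2 x hx.1 hx.2
  have h5 : Summable fun k => b (k + K) := by
    refine summable_of_sum_range_le (c := C - ∑ k ∈ Finset.range K, b k)
      (fun k => hbK _ (Nat.le_add_left _ _)) fun m => ?_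
    have h6 := h1 (K + m) (Nat.le_add_right _ _)
    rw [Finset.sum_range_add] at h6
    have h7 : ∑ x ∈ Finset.range m, b (K + x) = ∑ x ∈ Finset.range m, b (x + K) :=
      Finset.sum_congr rfl fun x _ => by rw [add_comm]
    rw [h7] at h6
    linarith
  have h8 : Summable fun k : ℕ => 1 / (2 * ((k + K : ℕ) : ℝ)) :=
    Summable.of_nonneg_of_le (fun k => by positivity) (fun k => hb _ (Nat.le_add_left _ _)) h5
  have h9 : Summable fun k : ℕ => 1 / (2 * (k : ℝ)) := (summable_nat_add_iff K).1 h8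
  have h10 : Summable fun k : ℕ => 1 / (k : ℝ) := by
    have := h9.mul_left 2
    refine this.congr fun k => ?_
    rw [mul_one_div, mul_comm (2 : ℝ) (k : ℝ), ← div_div, div_right_comm, div_self two_ne_zero]
  exact Real.not_summable_one_div_natCast h10

end ASYp

open ASYp

theorem t_asy : S_ASY := by
  intro n N B₁ B₂ Φ hB1 hB2 hrec hsum hbd
  obtain ⟨C, hC⟩ := hbd
  set Dl : Matrix (Fin n) (Fin n) ℂ →ₗ[ℂ] Matrix (Fin n) (Fin n) ℂ :=
    { toFun := fun Ψ => Ψ * N - N * Ψ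
      map_add' := fun A B => by rw [add_mul, mul_add]; abel
      map_smul' := fun c A => by
        rw [smul_mul_assoc, mul_smul_comm, RingHom.id_apply, smul_sub] } with hDl
  set Rl : Matrix (Fin n) (Fin n) ℂ →ₗ[ℂ] Matrix (Fin n) (Fin n) ℂ :=
    { toFun := fun Ψ => B₂ * Ψ - Ψ * B₁
      map_add' := fun A B => by rw [add_mul, mul_add]; abel
      map_smul' := fun c A => by
        rw [smul_mul_assoc, mul_smul_comm, RingHom.id_apply, smul_sub] } with hRl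
  have hDla : ∀ Ψ, Dl Ψ = Ψ * N - N * Ψ := fun _ => rfl
  have hRla : ∀ Ψ, Rl Ψ = B₂ * Ψ - Ψ * B₁ := fun _ => rfl
  set e : (Fin n → Fin n → ℂ) ≃ₗ[ℂ] Matrix (Fin n) (Fin n) ℂ := Matrix.ofLinearEquiv ℂ with he
  set D : (Fin n → Fin n → ℂ) →L[ℂ] (Fin n → Fin n → ℂ) :=
    LinearMap.toContinuousLinearMap (e.symm.toLinearMap ∘ₗ Dl ∘ₗ e.toLinearMap) with hD
  set R : (Fin n → Fin n → ℂ) →L[ℂ] (Fin n → Fin n → ℂ) :=
    LinearMap.toContinuousLinearMap (e.symm.toLinearMap ∘ₗ Rl ∘ₗ e.toLinearMap) with hR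
  have hDa : ∀ x, D x = e.symm (Dl (e x)) := fun _ => rfl
  have hRa : ∀ x, R x = e.symm (Rl (e x)) := fun _ => rfl
  have hR3 : ∀ x, R (R (R x)) = 0 := by
    intro x
    rw [hRa, hRa, hRa, LinearEquiv.apply_symm_apply, LinearEquiv.apply_symm_apply]
    have h0 : ∀ Ψ, Rl (Rl (Rl Ψ)) = 0 := by
      intro Ψ
      simp only [hRla, mul_sub, sub_mul]
      have e1 : B₂ * (B₂ * Ψ) = 0 := by rw [← mul_assoc, hB2, zero_mul]
      have e2 : Ψ * B₁ * B₁ = 0 := by rw [mul_assoc, hB1, mul_zero]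
      have e3 : B₂ * (B₂ * (Ψ * B₁)) = 0 := by rw [← mul_assoc, hB2, zero_mul]
      have e4 : B₂ * Ψ * B₁ * B₁ = 0 := by rw [mul_assoc, hB1, mul_zero]
      simp only [e1, e2, e3, e4, mul_zero, zero_mul, mul_assoc, hB1]
      simp
    rw [h0, map_zero]
  rcases abs_main D R hR3 (fun k => e.symm (Φ k)) (fun k => by
      rw [hDa, hDa, hRa, LinearEquiv.apply_symm_apply, LinearEquiv.apply_symm_apply, hDla, hDla,
        hRla, ← map_smul, ← map_smul, ← map_add, ← map_add, ← map_add]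
      exact congrArg e.symm (hrec k)) with ⟨K, h⟩ | ⟨x, hx0, g, hg, hx⟩
  · exact ⟨K, fun k hk => (LinearEquiv.map_eq_zero_iff e.symm).1 (h k hk)⟩
  exfalso
  obtain ⟨i, j, hij⟩ : ∃ i j, x i j ≠ 0 := by
    by_contra hcon
    push Not at hcon
    exact hx0 (by funext i j; exact hcon i j)
  have hxe : Tendsto (fun k : ℕ => (((k : ℝ) / g k : ℝ) : ℂ) * Φ k i j) atTop (𝓝 (x i j)) := by
    have h1 := (continuous_apply i).continuousAt.tendsto.comp hx
    have h2 := (continuous_apply j).continuousAt.tendsto.comp h1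
    exact h2
  have hre : Tendsto (fun k : ℕ => ((k : ℝ) / g k) * (Φ k i j / x i j).re) atTop (𝓝 1) := by
    have h1 := (hxe.div_const (x i j))
    rw [div_self hij] at h1
    have h2 := (Complex.continuous_re.tendsto 1).comp h1
    rw [Complex.one_re] at h2
    refine h2.congr fun k => ?_
    simp only [Function.comp_apply]
    rw [mul_div_assoc, Complex.re_ofReal_mul]
  have hev : ∀ᶠ k : ℕ in atTop, 1 / (2 * (k : ℝ)) ≤ (Φ k i j / x i j).re := by
    filter_upwards [hre.eventually (lt_mem_nhds (show (1 / 2 : ℝ) < 1 by norm_num)), hg,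
      eventually_ge_atTop 1] with k hk hgk hk1
    have hk0 : (0 : ℝ) < k := by exact_mod_cast hk1
    have hg0 : 0 < g k := by linarith
    rw [div_mul_eq_mul_div, lt_div_iff₀ hg0] at hk
    rw [div_le_iff₀ (by positivity)]
    nlinarith
  obtain ⟨K, hK⟩ := eventually_atTop.1 hev
  have hsm : ∀ y : ℝ, 0 < y → y < 1 → Summable fun k => Φ k i j * (y : ℂ) ^ k := by
    intro y hy0 hy1
    refine Summable.of_norm ?_
    refine (hsum i j y hy0 hy1).congr fun k => ?_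
    rw [norm_mul, norm_pow, Complex.norm_real, Real.norm_eq_abs, abs_of_pos hy0]
  have hcomp : ∀ y : ℝ, ∀ k, (Φ k i j / x i j).re * y ^ k =
      ((Φ k i j * (y : ℂ) ^ k) / x i j).re := by
    intro y k
    have : (Φ k i j * (y : ℂ) ^ k) / x i j = ((y ^ k : ℝ) : ℂ) * (Φ k i j / x i j) := by
      push_cast
      ring
    rw [this, Complex.re_ofReal_mul, mul_comm]
  refine fin_div (fun k => (Φ k i j / x i j).re) K hK (fun y hy0 hy1 => ?_) (C / ‖x i j‖)
    (fun y hy0 hy1 => ?_)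
  · have h1 := Complex.reCLM.summable ((hsm y hy0 hy1).div_const (x i j))
    refine h1.congr fun k => ?_
    rw [hcomp]
    rfl
  · have h1 : ∑' k, (Φ k i j / x i j).re * y ^ k = ((∑' k, Φ k i j * (y : ℂ) ^ k) / x i j).re := by
      rw [← tsum_div_const]
      have h2 := Complex.reCLM.map_tsum ((hsm y hy0 hy1).div_const (x i j))
      rw [Complex.reCLM_apply] at h2
      rw [h2]
      exact tsum_congr fun k => by rw [hcomp]; rfl
    rw [h1]
    refine (Complex.re_le_norm _).trans ?_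
    rw [norm_div]
    exact div_le_div_of_nonneg_right (hC i j y hy0 hy1) (norm_nonneg _)

end Pool.Agent.Run7.h225.HG
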