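import Pool.Agent.Run7.h225.HG.Iface4
import Pool.Agent.Run7.h225.HG.ASY

/-!
# ASY2: asymptotics of the matrix recursion, semisimple residues (helper68)

The comparison sequences are the products `gg K a k = ∏_{j < k} (1 + a / (K + j))`, which replace `k ^ a`.
-/

set_option autoImplicit false

open Filter Topology

namespace Pool.Agent.Run7.h225.HG

namespace ASY2p

/-- the product of the `1 + a / (K + j)`, `j < k` -/
noncomputable def gg (K : ℕ) (a : ℝ) (k : ℕ) : ℝ :=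
  ∏ j ∈ Finset.range k, (1 + a / ((K : ℝ) + j))

lemma gg_zero (K : ℕ) (a : ℝ) : gg K a 0 = 1 := by simp [gg]

lemma gg_succ (K : ℕ) (a : ℝ) (k : ℕ) : gg K a (k + 1) = gg K a k * (1 + a / ((K : ℝ) + k)) := by
  simp [gg, Finset.prod_range_succ]

lemma fac_pos {K : ℕ} {a : ℝ} (hK : 0 < (K : ℝ)) (h : 0 < (K : ℝ) + a) (k : ℕ) :
    0 < 1 + a / ((K : ℝ) + k) := by
  have hk : (0 : ℝ) ≤ k := Nat.cast_nonneg k
  have h1 : 0 < (K : ℝ) + k := by linarith
  have e : 1 + a / ((K : ℝ) + k) = (K + k + a) / (K + k) := by field_simp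
  rw [e]
  exact div_pos (by linarith) h1

lemma gg_pos {K : ℕ} {a : ℝ} (hK : 0 < (K : ℝ)) (h : 0 < (K : ℝ) + a) (k : ℕ) : 0 < gg K a k :=
  Finset.prod_pos fun j _ => fac_pos hK h j

lemma gg_mono {K : ℕ} {a b : ℝ} (hK : 0 < (K : ℝ)) (h : 0 < (K : ℝ) + a) (hab : a ≤ b) (k : ℕ) :
    gg K a k ≤ gg K b k := by
  refine Finset.prod_le_prod (fun j _ => (fac_pos hK h j).le) fun j _ => ?_
  have hk : (0 : ℝ) ≤ j := Nat.cast_nonneg j
  have h1 : 0 < (K : ℝ) + j := by linarith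
  gcongr

lemma gg_shift {K : ℕ} {a : ℝ} (hK : 0 < (K : ℝ)) (k : ℕ) :
    gg K a k * (K + a - 1) = gg K (a - 1) k * (K + k + a - 1) := by
  induction k with
  | zero => simp [gg_zero]
  | succ k ih =>
    have hk : (0 : ℝ) ≤ k := Nat.cast_nonneg k
    have h1 : (K : ℝ) + k ≠ 0 := by linarith
    rw [gg_succ, gg_succ]
    push_cast
    have e : gg K a k * (1 + a / ((K : ℝ) + k)) * (K + a - 1) =
        (gg K a k * (K + a - 1)) * (1 + a / ((K : ℝ) + k)) := by ring
    rw [e, ih]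
    field_simp
    ring

lemma gg_lower {K : ℕ} {a : ℝ} {q : ℕ} (hK : 0 < (K : ℝ)) (hKa : 2 * |a| < K) (hq : 2 * |a| ≤ q)
    (k : ℕ) : 1 ≤ gg K a k * ((K : ℝ) + k) ^ q := by
  have hpos : 0 < (K : ℝ) + a := by
    have := neg_abs_le a
    have := abs_nonneg a
    linarith
  induction k with
  | zero =>
    rw [gg_zero, one_mul, Nat.cast_zero, add_zero]
    have hK1 : (1 : ℝ) ≤ K := by
      have : 0 < K := by exact_mod_cast hK
      exact_mod_cast this
    exact one_le_pow₀ hK1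
  | succ k ih =>
    refine ih.trans ?_
    rw [gg_succ, mul_assoc]
    refine mul_le_mul_of_nonneg_left ?_ (gg_pos hK hpos k).le
    have hk : (0 : ℝ) ≤ k := Nat.cast_nonneg k
    set t : ℝ := (K : ℝ) + k with ht
    have ht0 : 0 < t := by linarith
    have ea : ((K : ℝ) + ((k + 1 : ℕ) : ℝ)) = t * (1 + 1 / t) := by
      rw [mul_add, mul_one, mul_one_div_cancel ht0.ne', ht]
      push_cast
      ring
    rw [ea, mul_pow]
    have h1 : 1 + (q : ℝ) * (1 / t) ≤ (1 + 1 / t) ^ q := by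
      refine one_add_mul_le_pow ?_ q
      have : 0 < 1 / t := by positivity
      linarith
    have h2 : 1 - |a| / t ≤ 1 + a / t := by
      have := neg_abs_le a
      have h3 : -|a| / t ≤ a / t := by gcongr
      have h4 : -|a| / t = -(|a| / t) := by ring
      linarith
    have h3 : 0 ≤ 1 - |a| / t := by
      have h5 : |a| / t ≤ 1 := by
        rw [div_le_one ht0]
        have := abs_nonneg a
        linarith
      linarith
    have h4 : 1 ≤ (1 - |a| / t) * (1 + (q : ℝ) * (1 / t)) := by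
      have e : (1 - |a| / t) * (1 + (q : ℝ) * (1 / t)) = 1 + (q * t - |a| * t - |a| * q) / t ^ 2 := by
        field_simp
        ring
      rw [e]
      have h5 : 0 ≤ (q : ℝ) * t - |a| * t - |a| * q := by
        have h6 : 2 * |a| ≤ t := by linarith
        have h7 := abs_nonneg a
        have h8 : (0 : ℝ) ≤ q := Nat.cast_nonneg q
        nlinarith
      have h6 : 0 ≤ ((q : ℝ) * t - |a| * t - |a| * q) / t ^ 2 := by positivity
      linarith
    have h5 : 1 ≤ (1 + a / t) * (1 + 1 / t) ^ q := by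
      refine h4.trans (mul_le_mul h2 h1 (by positivity) (h3.trans h2))
    calc t ^ q = t ^ q * 1 := (mul_one _).symm
      _ ≤ t ^ q * ((1 + a / t) * (1 + 1 / t) ^ q) := mul_le_mul_of_nonneg_left h5 (by positivity)
      _ = _ := by ring

section abs

variable {V : Type*} [NormedAddCommGroup V] [NormedSpace ℝ V] [CompleteSpace V]

/-- One component. -/
lemma comp {K : ℕ} {b ρ C : ℝ} (hK : 0 < (K : ℝ)) (hρ : 0 < (K : ℝ) + ρ) (hb : 0 < (K : ℝ) + b - 1)
    (hne : b - 1 ≠ ρ) (hC : 0 ≤ C) (y e : ℕ → V)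
    (hy : ∀ k : ℕ, y (k + 1) = (1 + ρ / ((K : ℝ) + k)) • y k + e k)
    (he : ∀ k : ℕ, ‖e k‖ ≤ C * gg K b k / ((K : ℝ) + k) ^ 2) :
    (∃ L : V, L ≠ 0 ∧ Tendsto (fun k => (gg K ρ k)⁻¹ • y k) atTop (𝓝 L)) ∨
      ∃ C' : ℝ, 0 ≤ C' ∧ ∀ k, ‖y k‖ ≤ C' * gg K (b - 1) k := by
  have hb' : 0 < (K : ℝ) + (b - 1) := by linarith
  have gρ := fun k => gg_pos hK hρ k
  have gb := fun k => gg_pos hK hb' k
  set z : ℕ → V := fun k => (gg K ρ k)⁻¹ • y k with hz
  set r : ℕ → ℝ := fun k => gg K (b - 1) k / gg K ρ k with hr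
  have hr0 : ∀ k, 0 < r k := fun k => div_pos (gb k) (gρ k)
  have hyz : ∀ k, y k = gg K ρ k • z k := fun k => by
    simp only [hz]
    rw [smul_smul, mul_inv_cancel₀ (gρ k).ne', one_smul]
  have ht0 : ∀ k : ℕ, 0 < (K : ℝ) + k := fun k => by
    have hk : (0 : ℝ) ≤ k := Nat.cast_nonneg k
    linarith
  have htρ : ∀ k : ℕ, 0 < (K : ℝ) + k + ρ := fun k => by
    have hk : (0 : ℝ) ≤ k := Nat.cast_nonneg k
    linarith
  have hdr : ∀ k : ℕ, r (k + 1) - r k = r k * (b - 1 - ρ) / (K + k + ρ) := by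
    intro k
    simp only [hr]
    rw [gg_succ, gg_succ]
    have h1 := (ht0 k).ne'
    have h2 := (htρ k).ne'
    have h3 := (gρ k).ne'
    have e : 1 + ρ / ((K : ℝ) + k) = (K + k + ρ) / (K + k) := by field_simp
    rw [e]
    field_simp
    ring
  set A : ℝ := C * (K + |b - 1|) / (K * (K + b - 1) * |b - 1 - ρ|) with hA
  have hd0 : 0 < |b - 1 - ρ| := abs_pos.2 (sub_ne_zero.2 hne)
  have hA0 : 0 ≤ A := by
    have := abs_nonneg (b - 1)
    positivity
  have hdz : ∀ k, ‖z (k + 1) - z k‖ ≤ A * |r (k + 1) - r k| := by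
    intro k
    have hk1 := ht0 k
    have hk2 := htρ k
    have e1 : z (k + 1) - z k = (gg K ρ (k + 1))⁻¹ • e k := by
      simp only [hz]
      rw [hy k, smul_add, smul_smul, gg_succ]
      have h3 : (gg K ρ k * (1 + ρ / ((K : ℝ) + k)))⁻¹ * (1 + ρ / ((K : ℝ) + k)) =
          (gg K ρ k)⁻¹ := by
        have := (fac_pos hK hρ k).ne'
        have := (gρ k).ne'
        field_simp
      rw [h3]
      abel
    rw [e1, norm_smul, norm_inv, Real.norm_eq_abs, abs_of_pos (gρ (k + 1)), hdr k, abs_div, abs_mul,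
      abs_of_pos (hr0 k), abs_of_pos hk2]
    have h4 : gg K b k = gg K (b - 1) k * (K + k + b - 1) / (K + b - 1) := by
      rw [eq_div_iff hb.ne']
      exact gg_shift hK k
    have h5 : (K : ℝ) + k + b - 1 ≤ (K + |b - 1|) / K * (K + k) := by
      rw [div_mul_eq_mul_div, le_div_iff₀ hK]
      have h6 := le_abs_self (b - 1)
      have h7 := abs_nonneg (b - 1)
      have hk : (0 : ℝ) ≤ k := Nat.cast_nonneg k
      nlinarith [mul_nonneg h7 hk]
    have h6 : gg K ρ (k + 1) = gg K ρ k * ((K + k + ρ) / (K + k)) := by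
      rw [gg_succ]
      congr 1
      field_simp
    calc (gg K ρ (k + 1))⁻¹ * ‖e k‖ ≤ (gg K ρ (k + 1))⁻¹ * (C * gg K b k / ((K : ℝ) + k) ^ 2) :=
          mul_le_mul_of_nonneg_left (he k) (inv_nonneg.2 (gρ _).le)
      _ = C * (gg K (b - 1) k / gg K ρ k) / ((K + b - 1) * (K + k) * (K + k + ρ)) *
            (K + k + b - 1) := by
          rw [h4, h6]
          have := (gρ k).ne'
          field_simp
      _ ≤ C * (gg K (b - 1) k / gg K ρ k) / ((K + b - 1) * (K + k) * (K + k + ρ)) *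
            ((K + |b - 1|) / K * (K + k)) := by
          refine mul_le_mul_of_nonneg_left h5 ?_
          have := (gρ k)
          have := (gb k)
          positivity
      _ = A * (r k * |b - 1 - ρ| / (K + k + ρ)) := by
          rw [hA]
          simp only [hr]
          have := (gρ k).ne'
          field_simp
  rcases lt_or_gt_of_ne hne with hlt | hgt
  · -- `b - 1 < ρ`
    have hanti : ∀ k, r (k + 1) ≤ r k := by
      intro k
      have := hdr k
      have h1 : r k * (b - 1 - ρ) / (K + k + ρ) ≤ 0 := by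
        refine div_nonpos_of_nonpos_of_nonneg ?_ (htρ k).le
        exact mul_nonpos_of_nonneg_of_nonpos (hr0 k).le (by linarith)
      linarith
    have hdz' : ∀ k, ‖z (k + 1) - z k‖ ≤ A * (r k - r (k + 1)) := by
      intro k
      have h1 := hdz k
      rw [abs_sub_comm, abs_of_nonneg (by linarith [hanti k])] at h1
      exact h1
    have htel : ∀ k m, ‖z (k + m) - z k‖ ≤ A * (r k - r (k + m)) := by
      intro k m
      induction m with
      | zero => simp
      | succ m ih =>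
        calc ‖z (k + (m + 1)) - z k‖ = ‖(z (k + m + 1) - z (k + m)) + (z (k + m) - z k)‖ := by
              congr 1
              rw [← add_assoc]
              abel
          _ ≤ A * (r (k + m) - r (k + m + 1)) + A * (r k - r (k + m)) :=
              (norm_add_le _ _).trans (add_le_add (hdz' _) ih)
          _ = _ := by rw [← add_assoc]; ring
    have hcau : CauchySeq z := by
      refine cauchySeq_of_dist_le_of_summable (fun k => A * (r k - r (k + 1))) (fun k => ?_) ?_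
      · rw [dist_comm, dist_eq_norm]
        exact hdz' k
      · refine summable_of_sum_range_le (c := A * r 0) (fun k => ?_) fun m => ?_
        · exact mul_nonneg hA0 (by linarith [hanti k])
        · rw [← Finset.mul_sum, Finset.sum_range_sub']
          exact mul_le_mul_of_nonneg_left (by linarith [(hr0 m)]) hA0
    obtain ⟨L, hL⟩ := cauchySeq_tendsto_of_complete hcau
    by_cases hL0 : L = 0
    · right
      refine ⟨A, hA0, fun k => ?_⟩
      have h1 : ‖L - z k‖ ≤ A * r k := by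
        have h2 : Tendsto (fun m => z (k + m)) atTop (𝓝 L) := by
          have := (tendsto_add_atTop_iff_nat k).2 hL
          refine this.congr fun m => by rw [add_comm]
        refine le_of_tendsto (h2.sub_const (z k)).norm (Eventually.of_forall fun m => ?_)
        refine (htel k m).trans (mul_le_mul_of_nonneg_left ?_ hA0)
        linarith [hr0 (k + m)]
      rw [hL0, zero_sub, norm_neg] at h1
      rw [hyz k, norm_smul, Real.norm_eq_abs, abs_of_pos (gρ k)]
      calc gg K ρ k * ‖z k‖ ≤ gg K ρ k * (A * r k) := mul_le_mul_of_nonneg_left h1 (gρ k).le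
        _ = _ := by
            simp only [hr]
            have := (gρ k).ne'
            field_simp
    · left
      exact ⟨L, hL0, hL⟩
  · -- `ρ < b - 1`
    right
    have hmono : ∀ k, r k ≤ r (k + 1) := by
      intro k
      have := hdr k
      have h1 : 0 ≤ r k * (b - 1 - ρ) / (K + k + ρ) := by
        refine div_nonneg ?_ (htρ k).le
        exact mul_nonneg (hr0 k).le (by linarith)
      linarith
    have hr1 : ∀ k, 1 ≤ r k := by
      intro k
      have : r 0 = 1 := by simp only [hr, gg_zero, div_one]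
      rw [← this]
      exact monotone_nat_of_le_succ hmono (Nat.zero_le k)
    have htel : ∀ k, ‖z k‖ ≤ ‖z 0‖ + A * (r k - 1) := by
      intro k
      induction k with
      | zero =>
        have : r 0 = 1 := by simp only [hr, gg_zero, div_one]
        rw [this]
        simp
      | succ k ih =>
        have h1 := hdz k
        rw [abs_of_nonneg (by linarith [hmono k])] at h1
        calc ‖z (k + 1)‖ = ‖(z (k + 1) - z k) + z k‖ := by
              congr 1
              abel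
          _ ≤ A * (r (k + 1) - r k) + (‖z 0‖ + A * (r k - 1)) :=
              (norm_add_le _ _).trans (add_le_add h1 ih)
          _ = _ := by ring
    refine ⟨‖z 0‖ + A, by positivity, fun k => ?_⟩
    rw [hyz k, norm_smul, Real.norm_eq_abs, abs_of_pos (gρ k)]
    have h1 : ‖z k‖ ≤ (‖z 0‖ + A) * r k := by
      have h2 := htel k
      have h3 := hr1 k
      have h4 := norm_nonneg (z 0)
      nlinarith
    calc gg K ρ k * ‖z k‖ ≤ gg K ρ k * ((‖z 0‖ + A) * r k) := mul_le_mul_of_nonneg_left h1 (gρ k).le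
      _ = _ := by
          simp only [hr]
          have := (gρ k).ne'
          field_simp

/-- The alternative for the solutions of the recursion. -/
lemma abs2 (D R : V →L[ℝ] V) {ι : Type*} [Fintype ι] (π : ι → V →L[ℝ] V) (ρ : ι → ℝ)
    (hπ : ∀ x, ∑ i, π i x = x) (hR : ∀ i x, π i (R x) = ρ i • π i x) (φ : ℕ → V)
    (hφ : ∀ k : ℕ, ((k : ℝ) + 1) • φ (k + 1) + D (φ (k + 1)) =
      (k : ℝ) • φ k + D (φ k) + R (φ k)) :
    (∃ K, ∀ k, K ≤ k → φ k = 0) ∨
      ∃ (K : ℕ) (i : ι) (L : V), 2 * |ρ i| < K ∧ L ≠ 0 ∧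
        Tendsto (fun k => (gg K (ρ i) k)⁻¹ •
          π i (((K + k : ℕ) : ℝ) • φ (K + k) + D (φ (K + k)))) atTop (𝓝 L) := by
  set c : ℝ := 2 * ‖R‖ with hc
  have hc0 : 0 ≤ c := by positivity
  -- the starting exponent
  obtain ⟨b₀, hb₀, hb₁⟩ : ∃ b₀ : ℝ, c < b₀ ∧ ∀ (m : ℕ) i, b₀ - m - 1 ≠ ρ i := by
    have hcount : (⋃ m : ℕ, Set.range fun i => ρ i + 1 + m : Set ℝ).Countable :=
      Set.countable_iUnion fun m => (Set.finite_range _).countable
    obtain ⟨b, hb1, hb2⟩ := (hcount.dense_compl ℝ).exists_mem_open (isOpen_Ioi (a := c))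
      ⟨c + 1, by simp⟩
    refine ⟨b, hb2, fun m i h => hb1 ?_⟩
    rw [Set.mem_iUnion]
    exact ⟨m, i, by simp only; linarith⟩
  obtain ⟨M, hM⟩ := exists_nat_ge (b₀ + c + 1)
  obtain ⟨K, hKb⟩ := exists_nat_gt (∑ i, 2 * |ρ i| + c + M + 2 * ‖D‖ + 5)
  have hsum : ∀ i, 2 * |ρ i| ≤ ∑ i, 2 * |ρ i| := fun i =>
    Finset.single_le_sum (f := fun i => 2 * |ρ i|) (fun _ _ => by positivity) (Finset.mem_univ i)
  have hsum0 : 0 ≤ ∑ i, 2 * |ρ i| := Finset.sum_nonneg fun _ _ => by positivity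
  have hM0 : (0 : ℝ) ≤ M := Nat.cast_nonneg M
  have hD0 := norm_nonneg D
  have hK0 : 0 < (K : ℝ) := by linarith
  have hKρ : ∀ i, 0 < (K : ℝ) + ρ i := fun i => by
    have := hsum i
    have := neg_abs_le (ρ i)
    have := abs_nonneg (ρ i)
    linarith
  have ht0 : ∀ k : ℕ, 0 < (K : ℝ) + k := fun k => by
    have hk : (0 : ℝ) ≤ k := Nat.cast_nonneg k
    linarith
  set U : ℕ → V := fun k => ((K + k : ℕ) : ℝ) • φ (K + k) + D (φ (K + k)) with hU
  have hφU : ∀ k, ‖φ (K + k)‖ ≤ 2 / (K + k) * ‖U k‖ := by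
    intro k
    have hk : (0 : ℝ) ≤ k := Nat.cast_nonneg k
    have h1 : ((K : ℝ) + k) * ‖φ (K + k)‖ ≤ ‖U k‖ + ‖D‖ * ‖φ (K + k)‖ := by
      calc ((K : ℝ) + k) * ‖φ (K + k)‖ = ‖((K + k : ℕ) : ℝ) • φ (K + k)‖ := by
            rw [norm_smul, Real.norm_eq_abs]
            push_cast
            rw [abs_of_pos (ht0 k)]
        _ = ‖U k - D (φ (K + k))‖ := by simp only [hU, add_sub_cancel_right]
        _ ≤ ‖U k‖ + ‖D (φ (K + k))‖ := norm_sub_le _ _
        _ ≤ _ := add_le_add le_rfl (D.le_opNorm _)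
    have h2 : 2 * ‖D‖ ≤ (K : ℝ) + k := by linarith
    have h3 : ‖D‖ * ‖φ (K + k)‖ ≤ ((K : ℝ) + k) / 2 * ‖φ (K + k)‖ :=
      mul_le_mul_of_nonneg_right (by linarith) (norm_nonneg _)
    rw [div_mul_eq_mul_div, le_div_iff₀ (ht0 k)]
    linarith
  have hU1 : ∀ k, U (k + 1) = U k + R (φ (K + k)) := by
    intro k
    simp only [hU]
    have h1 := hφ (K + k)
    rw [← h1, ← add_assoc]
    push_cast
    rfl
  have hUup : ∀ k, ‖U (k + 1)‖ ≤ (1 + c / (K + k)) * ‖U k‖ := by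
    intro k
    rw [hU1 k]
    calc ‖U k + R (φ (K + k))‖ ≤ ‖U k‖ + ‖R‖ * (2 / (K + k) * ‖U k‖) :=
          (norm_add_le _ _).trans (add_le_add le_rfl ((R.le_opNorm _).trans
            (mul_le_mul_of_nonneg_left (hφU k) (norm_nonneg _))))
      _ = _ := by rw [hc]; ring
  have hUlo : ∀ k, (1 + -c / (K + k)) * ‖U k‖ ≤ ‖U (k + 1)‖ := by
    intro k
    have h1 : ‖U k‖ ≤ ‖U (k + 1)‖ + ‖R (φ (K + k))‖ := by
      have : U k = U (k + 1) - R (φ (K + k)) := by rw [hU1 k]; abel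
      rw [this]
      exact norm_sub_le _ _
    have h2 : ‖R (φ (K + k))‖ ≤ ‖R‖ * (2 / (K + k) * ‖U k‖) :=
      (R.le_opNorm _).trans (mul_le_mul_of_nonneg_left (hφU k) (norm_nonneg _))
    have h3 : (1 + -c / (K + k)) * ‖U k‖ = ‖U k‖ - ‖R‖ * (2 / (K + k) * ‖U k‖) := by
      rw [hc]
      ring
    linarith
  by_cases hUz : U 0 = 0
  · left
    refine ⟨K, fun k hk => ?_⟩
    obtain ⟨m, rfl⟩ := Nat.exists_eq_add_of_le hk
    have h1 : ∀ m, U m = 0 := by
      intro m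
      induction m with
      | zero => exact hUz
      | succ m ih =>
        have h2 := hUup m
        rw [ih, norm_zero, mul_zero] at h2
        exact norm_le_zero_iff.1 h2
    have h2 := hφU m
    rw [h1 m, norm_zero, mul_zero] at h2
    exact norm_le_zero_iff.1 h2
  right
  by_contra hcon
  push Not at hcon
  -- the descent
  have hdes : ∀ m : ℕ, m ≤ M → ∃ C : ℝ, 0 ≤ C ∧ ∀ k, ‖U k‖ ≤ C * gg K (b₀ - m) k := by
    intro m
    induction m with
    | zero =>
      intro _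
      refine ⟨‖U 0‖, norm_nonneg _, fun k => ?_⟩
      rw [Nat.cast_zero, sub_zero]
      induction k with
      | zero => rw [gg_zero, mul_one]
      | succ k ih =>
        rw [gg_succ]
        have h1 : 1 + c / ((K : ℝ) + k) ≤ 1 + b₀ / (K + k) := by
          have := ht0 k
          gcongr
        have h2 : 0 ≤ 1 + b₀ / ((K : ℝ) + k) := by
          have := ht0 k
          have : 0 ≤ b₀ := by linarith
          positivity
        calc ‖U (k + 1)‖ ≤ (1 + c / (K + k)) * ‖U k‖ := hUup k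
          _ ≤ (1 + b₀ / (K + k)) * (‖U 0‖ * gg K b₀ k) :=
              mul_le_mul h1 ih (norm_nonneg _) h2
          _ = _ := by ring
    | succ m ih =>
      intro hm
      obtain ⟨C, hC0, hC⟩ := ih (by omega)
      have hmM : (m : ℝ) + 1 ≤ M := by exact_mod_cast hm
      have hb : 0 < (K : ℝ) + (b₀ - m) - 1 := by linarith
      have hcomp : ∀ i, ∃ C' : ℝ, 0 ≤ C' ∧ ∀ k, ‖π i (U k)‖ ≤ C' * gg K (b₀ - m - 1) k := by
        intro i
        have hy1 : ∀ k : ℕ, π i (U (k + 1)) = (1 + ρ i / ((K : ℝ) + k)) • π i (U k) +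
            -((1 / ((K : ℝ) + k)) • π i (R (D (φ (K + k))))) := by
          intro k
          have h1 : φ (K + k) = (1 / ((K : ℝ) + k)) • (U k - D (φ (K + k))) := by
            simp only [hU, add_sub_cancel_right]
            rw [smul_smul]
            push_cast
            rw [one_div, inv_mul_cancel₀ (ht0 k).ne', one_smul]
          have h2 : U (k + 1) = U k + (1 / ((K : ℝ) + k)) • (R (U k) - R (D (φ (K + k)))) := by
            rw [hU1 k]
            congr 1
            conv_lhs => rw [h1]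
            rw [map_smul, map_sub]
          rw [h2, map_add, map_smul, map_sub, hR, smul_sub, smul_smul, add_smul, one_smul]
          rw [show 1 / ((K : ℝ) + k) * ρ i = ρ i / (K + k) by ring]
          abel
        have hy2 : ∀ k : ℕ, ‖-((1 / ((K : ℝ) + k)) • π i (R (D (φ (K + k)))))‖ ≤
            (‖π i‖ * (‖R‖ * (‖D‖ * (2 * C)))) * gg K (b₀ - m) k / ((K : ℝ) + k) ^ 2 := by
          intro k
          rw [norm_neg, norm_smul, Real.norm_eq_abs, abs_of_pos (by have := ht0 k; positivity)]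
          have h1 : ‖π i (R (D (φ (K + k))))‖ ≤ ‖π i‖ * (‖R‖ * (‖D‖ * (2 / (K + k) * ‖U k‖))) :=
            ((π i).le_opNorm _).trans (mul_le_mul_of_nonneg_left ((R.le_opNorm _).trans
              (mul_le_mul_of_nonneg_left ((D.le_opNorm _).trans
                (mul_le_mul_of_nonneg_left (hφU k) (norm_nonneg _))) (norm_nonneg _)))
              (norm_nonneg _))
          have hk := ht0 k
          calc 1 / ((K : ℝ) + k) * ‖π i (R (D (φ (K + k))))‖
              ≤ 1 / ((K : ℝ) + k) * (‖π i‖ * (‖R‖ * (‖D‖ * (2 / (K + k) * ‖U k‖)))) :=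
                mul_le_mul_of_nonneg_left h1 (by positivity)
            _ ≤ 1 / ((K : ℝ) + k) * (‖π i‖ * (‖R‖ * (‖D‖ * (2 / (K + k) *
                  (C * gg K (b₀ - m) k))))) := by
                gcongr
                exact hC k
            _ = _ := by
                field_simp
        rcases comp hK0 (hKρ i) hb (hb₁ m i) (by positivity) (fun k => π i (U k)) _ hy1 hy2 with
          ⟨L, hL0, hL⟩ | h
        · exact absurd hL (hcon K i L (by have := hsum i; linarith) hL0)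
        · exact h
      choose C' hC'0 hC' using hcomp
      refine ⟨∑ i, C' i, Finset.sum_nonneg fun i _ => hC'0 i, fun k => ?_⟩
      have e : b₀ - ((m + 1 : ℕ) : ℝ) = b₀ - m - 1 := by
        push_cast
        ring
      rw [e]
      calc ‖U k‖ = ‖∑ i, π i (U k)‖ := by rw [hπ]
        _ ≤ ∑ i, ‖π i (U k)‖ := norm_sum_le _ _
        _ ≤ ∑ i, C' i * gg K (b₀ - m - 1) k := Finset.sum_le_sum fun i _ => hC' i k
        _ = _ := by rw [Finset.sum_mul]
  obtain ⟨C, hC0, hC⟩ := hdes M le_rfl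
  have hlow : ∀ k, ‖U 0‖ * gg K (-c) k ≤ ‖U k‖ := by
    intro k
    induction k with
    | zero => rw [gg_zero, mul_one]
    | succ k ih =>
      rw [gg_succ]
      have h1 : 0 ≤ 1 + -c / ((K : ℝ) + k) := (fac_pos hK0 (by linarith) k).le
      calc ‖U 0‖ * (gg K (-c) k * (1 + -c / (K + k))) = (1 + -c / (K + k)) * (‖U 0‖ * gg K (-c) k) := by
            ring
        _ ≤ (1 + -c / (K + k)) * ‖U k‖ := mul_le_mul_of_nonneg_left ih h1
        _ ≤ _ := hUlo k
  have hU0 : 0 < ‖U 0‖ := norm_pos_iff.2 hUz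
  have hcc : 0 < (K : ℝ) + (-c) - 1 := by linarith
  have hlim : ∀ k : ℕ, ‖U 0‖ * (K + k + (-c) - 1) ≤ C * (K + (-c) - 1) := by
    intro k
    have h1 := (hlow k).trans (hC k)
    have h2 : gg K (b₀ - M) k ≤ gg K (-c - 1) k := by
      refine gg_mono hK0 (by linarith) (by linarith) k
    have h3 := gg_shift (K := K) (a := -c) hK0 k
    have h4 : 0 < gg K (-c - 1) k := gg_pos hK0 (by linarith) k
    have h5 : ‖U 0‖ * gg K (-c) k ≤ C * gg K (-c - 1) k :=
      h1.trans (mul_le_mul_of_nonneg_left h2 hC0)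
    have h6 : ‖U 0‖ * gg K (-c) k * (K + (-c) - 1) ≤ C * gg K (-c - 1) k * (K + (-c) - 1) :=
      mul_le_mul_of_nonneg_right h5 hcc.le
    have h7 : ‖U 0‖ * (K + k + (-c) - 1) * gg K (-c - 1) k ≤
        C * (K + (-c) - 1) * gg K (-c - 1) k := by
      calc ‖U 0‖ * (K + k + (-c) - 1) * gg K (-c - 1) k =
          ‖U 0‖ * (gg K (-c - 1) k * (K + k + (-c) - 1)) := by ring
        _ = ‖U 0‖ * gg K (-c) k * (K + (-c) - 1) := by rw [← h3]; ring
        _ ≤ _ := h6
        _ = _ := by ring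
    exact le_of_mul_le_mul_right h7 h4
  obtain ⟨k, hk⟩ := exists_nat_gt (C * (K + (-c) - 1) / ‖U 0‖)
  rw [div_lt_iff₀ hU0] at hk
  have h1 := hlim k
  have h2 : ‖U 0‖ * (K + k + (-c) - 1) = k * ‖U 0‖ + ‖U 0‖ * (K + (-c) - 1) := by ring
  have h3 : 0 < ‖U 0‖ * (K + (-c) - 1) := by positivity
  linarith

end abs

/-- bounded generating functions, with all derivatives -/
def BD (c : ℕ → ℂ) : Prop :=
  (∀ (p : ℕ) (x : ℝ), 0 < x → x < 1 → Summable fun k : ℕ => (k : ℂ) ^ p * c k * (x : ℂ) ^ k) ∧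
    ∀ p : ℕ, ∃ C : ℝ, ∀ x : ℝ, 0 < x → x < 1 → ‖∑' k : ℕ, (k : ℂ) ^ p * c k * (x : ℂ) ^ k‖ ≤ C

lemma BD.add {c d : ℕ → ℂ} (hc : BD c) (hd : BD d) : BD fun k => c k + d k := by
  refine ⟨fun p x hx0 hx1 => ?_, fun p => ?_⟩
  · refine ((hc.1 p x hx0 hx1).add (hd.1 p x hx0 hx1)).congr fun k => ?_
    ring
  · obtain ⟨C, hC⟩ := hc.2 p
    obtain ⟨C', hC'⟩ := hd.2 p
    refine ⟨C + C', fun x hx0 hx1 => ?_⟩
    have e : ∑' k : ℕ, (k : ℂ) ^ p * (c k + d k) * (x : ℂ) ^ k =
        ∑' k : ℕ, (k : ℂ) ^ p * c k * (x : ℂ) ^ k + ∑' k : ℕ, (k : ℂ) ^ p * d k * (x : ℂ) ^ k := by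
      rw [← (hc.1 p x hx0 hx1).tsum_add (hd.1 p x hx0 hx1)]
      exact tsum_congr fun k => by ring
    rw [e]
    exact (norm_add_le _ _).trans (add_le_add (hC x hx0 hx1) (hC' x hx0 hx1))

lemma BD.mul {c : ℕ → ℂ} (hc : BD c) (w : ℂ) : BD fun k => w * c k := by
  refine ⟨fun p x hx0 hx1 => ?_, fun p => ?_⟩
  · refine ((hc.1 p x hx0 hx1).mul_left w).congr fun k => ?_
    ring
  · obtain ⟨C, hC⟩ := hc.2 p
    refine ⟨‖w‖ * C, fun x hx0 hx1 => ?_⟩
    have e : ∑' k : ℕ, (k : ℂ) ^ p * (w * c k) * (x : ℂ) ^ k =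
        w * ∑' k : ℕ, (k : ℂ) ^ p * c k * (x : ℂ) ^ k := by
      rw [← tsum_mul_left]
      exact tsum_congr fun k => by ring
    rw [e, norm_mul]
    exact mul_le_mul_of_nonneg_left (hC x hx0 hx1) (norm_nonneg _)

lemma BD.shift {c : ℕ → ℂ} (hc : BD c) : BD fun k => (k : ℂ) * c k := by
  refine ⟨fun p x hx0 hx1 => ?_, fun p => ?_⟩
  · refine (hc.1 (p + 1) x hx0 hx1).congr fun k => ?_
    ring
  · obtain ⟨C, hC⟩ := hc.2 (p + 1)
    refine ⟨C, fun x hx0 hx1 => ?_⟩
    have e : ∑' k : ℕ, (k : ℂ) ^ p * ((k : ℂ) * c k) * (x : ℂ) ^ k =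
        ∑' k : ℕ, (k : ℂ) ^ (p + 1) * c k * (x : ℂ) ^ k := tsum_congr fun k => by ring
    rw [e]
    exact hC x hx0 hx1

lemma BD.sum {α : Type*} (s : Finset α) (c : α → ℕ → ℂ) (hc : ∀ a ∈ s, BD (c a)) :
    BD fun k => ∑ a ∈ s, c a k := by
  classical
  induction s using Finset.induction_on with
  | empty =>
    refine ⟨fun p x _ _ => ?_, fun p => ⟨0, fun x _ _ => ?_⟩⟩
    · simp
    · simp
  | insert a s ha ih =>
    have h1 := (hc a (Finset.mem_insert_self a s)).add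
      (ih fun b hb => hc b (Finset.mem_insert_of_mem hb))
    simp only [Finset.sum_insert ha]
    exact h1

/-- A sequence with bounded generating functions has no power asymptotics. -/
lemma BD.false {c : ℕ → ℂ} (hc : BD c) {K : ℕ} {a : ℝ} (hKa : 2 * |a| < K) {l : ℂ} (hl : l ≠ 0)
    (ht : Tendsto (fun k => (gg K a k)⁻¹ • c (K + k)) atTop (𝓝 l)) : False := by
  have hK : 0 < (K : ℝ) := by
    have := abs_nonneg a
    linarith
  have hpos : 0 < (K : ℝ) + a := by
    have := neg_abs_le a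
    have := abs_nonneg a
    linarith
  obtain ⟨q, hq⟩ := exists_nat_ge (2 * |a|)
  have hre : Tendsto (fun k => (gg K a k)⁻¹ * (c (K + k) / l).re) atTop (𝓝 1) := by
    have h1 := ht.div_const l
    rw [div_self hl] at h1
    have h2 := (Complex.continuous_re.tendsto 1).comp h1
    rw [Complex.one_re] at h2
    refine h2.congr fun k => ?_
    simp only [Function.comp_apply]
    rw [Complex.real_smul, mul_div_assoc, Complex.re_ofReal_mul]
  obtain ⟨K₁, hK₁⟩ := eventually_atTop.1 (hre.eventually (lt_mem_nhds (show (1 / 2 : ℝ) < 1 by norm_num)))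
  obtain ⟨C, hC⟩ := hc.2 q
  refine ASYp.fin_div (fun k => ((k : ℂ) ^ q * c k / l).re) (K + K₁) (fun k hk => ?_)
    (fun y hy0 hy1 => ?_) (C / ‖l‖) (fun y hy0 hy1 => ?_)
  · obtain ⟨m, rfl⟩ := Nat.exists_eq_add_of_le hk
    have h1 := hK₁ (K₁ + m) (Nat.le_add_right _ _)
    have h2 := gg_lower hK hKa hq (K₁ + m)
    have hg := gg_pos hK hpos (K₁ + m)
    rw [← add_assoc] at h1
    set t : ℝ := (K : ℝ) + ((K₁ + m : ℕ) : ℝ) with ht'
    have ht0 : 1 ≤ t := by
      have h3 : (0 : ℝ) ≤ ((K₁ + m : ℕ) : ℝ) := Nat.cast_nonneg _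
      have h4 : (1 : ℝ) ≤ K := by
        have : 0 < K := by exact_mod_cast hK
        exact_mod_cast this
      rw [ht']
      linarith
    have h3 : gg K a (K₁ + m) / 2 ≤ (c (K + K₁ + m) / l).re := by
      rw [← div_eq_inv_mul, lt_div_iff₀ hg] at h1
      linarith
    have e1 : ((K + K₁ + m : ℕ) : ℂ) = ((t : ℝ) : ℂ) := by
      rw [ht']
      push_cast
      ring
    have e2 : ((K + K₁ + m : ℕ) : ℝ) = t := by
      rw [ht']
      push_cast
      ring
    have e3 : (((K + K₁ + m : ℕ) : ℂ) ^ q * c (K + K₁ + m) / l).re =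
        t ^ q * (c (K + K₁ + m) / l).re := by
      rw [e1, mul_div_assoc, ← Complex.ofReal_pow, Complex.re_ofReal_mul]
    rw [e3, e2]
    have h4 : t ^ q * (gg K a (K₁ + m) / 2) ≤ t ^ q * (c (K + K₁ + m) / l).re :=
      mul_le_mul_of_nonneg_left h3 (by positivity)
    have h5 : 1 / 2 ≤ t ^ q * (gg K a (K₁ + m) / 2) := by
      have : t ^ q * (gg K a (K₁ + m) / 2) = gg K a (K₁ + m) * t ^ q / 2 := by ring
      rw [this]
      linarith
    have h6 : 1 / (2 * t) ≤ 1 / 2 := by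
      rw [div_le_div_iff₀ (by positivity) (by norm_num)]
      linarith
    linarith
  · have h1 := Complex.reCLM.summable ((hc.1 q y hy0 hy1).div_const l)
    refine h1.congr fun k => ?_
    rw [Complex.reCLM_apply]
    have : (k : ℂ) ^ q * c k * (y : ℂ) ^ k / l = ((y ^ k : ℝ) : ℂ) * ((k : ℂ) ^ q * c k / l) := by
      push_cast
      ring
    rw [this, Complex.re_ofReal_mul, mul_comm]
  · have h1 : ∑' k : ℕ, ((k : ℂ) ^ q * c k / l).re * y ^ k =
        ((∑' k : ℕ, (k : ℂ) ^ q * c k * (y : ℂ) ^ k) / l).re := by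
      rw [← tsum_div_const]
      have h2 := Complex.reCLM.map_tsum ((hc.1 q y hy0 hy1).div_const l)
      rw [Complex.reCLM_apply] at h2
      rw [h2]
      refine tsum_congr fun k => ?_
      rw [Complex.reCLM_apply]
      have : (k : ℂ) ^ q * c k * (y : ℂ) ^ k / l = ((y ^ k : ℝ) : ℂ) * ((k : ℂ) ^ q * c k / l) := by
        push_cast
        ring
      rw [this, Complex.re_ofReal_mul, mul_comm]
    rw [h1]
    refine (Complex.re_le_norm _).trans ?_
    rw [norm_div]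
    exact div_le_div_of_nonneg_right (hC y hy0 hy1) (norm_nonneg _)

/-- linear forms on matrices -/
lemma lin_form {n : ℕ} (ℓ : Matrix (Fin n) (Fin n) ℂ →ₗ[ℂ] ℂ) (Ψ : Matrix (Fin n) (Fin n) ℂ) :
    ℓ Ψ = ∑ a, ∑ b, ℓ (Matrix.single a b 1) * Ψ a b := by
  conv_lhs => rw [Matrix.matrix_eq_sum_single Ψ]
  rw [map_sum]
  refine Finset.sum_congr rfl fun a _ => ?_
  rw [map_sum]
  refine Finset.sum_congr rfl fun b _ => ?_
  have : Matrix.single a b (Ψ a b) = Ψ a b • Matrix.single a b (1 : ℂ) := by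
    rw [Matrix.smul_single, smul_eq_mul, mul_one]
  rw [this, map_smul, smul_eq_mul, mul_comm]

end ASY2p

open ASY2p

theorem t_asy2 : S_ASY2 := by
  intro n N B₁ B₂ s₁ s₂ Φ hs₁ hs₂ hB1 hB2 hrec hsum hbd
  -- the maps
  set Dl : Matrix (Fin n) (Fin n) ℂ →ₗ[ℂ] Matrix (Fin n) (Fin n) ℂ :=
    { toFun := fun Ψ => Ψ * N - N * Ψ
      map_add' := fun A B => by rw [add_mul, mul_add]; abel
      map_smul' := fun c A => by
        rw [smul_mul_assoc, mul_smul_comm, RingHom.id_apply, smul_sub] } with hDl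
  set Rl : Matrix (Fin n) (Fin n) ℂ →ₗ[ℂ] Matrix (Fin n) (Fin n) ℂ :=
    { toFun := fun Ψ => B₂ * Ψ - Ψ * B₁
      map_add' := fun A B => by rw [add_mul, mul_add]; abel
      map_smul' := fun c A => by
        rw [smul_mul_assoc, mul_smul_comm, RingHom.id_apply, smul_sub] } with hRl
  set P₁ : Matrix (Fin n) (Fin n) ℂ := (s₁ : ℂ)⁻¹ • B₁ with hP₁
  set P₂ : Matrix (Fin n) (Fin n) ℂ := (s₂ : ℂ)⁻¹ • B₂ with hP₂
  have hs₁' : (s₁ : ℂ) ≠ 0 := Complex.ofReal_ne_zero.2 hs₁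
  have hs₂' : (s₂ : ℂ) ≠ 0 := Complex.ofReal_ne_zero.2 hs₂
  have hBP1 : B₁ = (s₁ : ℂ) • P₁ := by rw [hP₁, smul_smul, mul_inv_cancel₀ hs₁', one_smul]
  have hBP2 : B₂ = (s₂ : ℂ) • P₂ := by rw [hP₂, smul_smul, mul_inv_cancel₀ hs₂', one_smul]
  have hPP1 : P₁ * P₁ = P₁ := by
    rw [hP₁, smul_mul_assoc, mul_smul_comm, hB1, smul_smul, smul_smul]
    congr 1
    field_simp
  have hPP2 : P₂ * P₂ = P₂ := by
    rw [hP₂, smul_mul_assoc, mul_smul_comm, hB2, smul_smul, smul_smul]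
    congr 1
    field_simp
  let Q₁ : Bool → Matrix (Fin n) (Fin n) ℂ := fun b => if b then P₁ else 1 - P₁
  let Q₂ : Bool → Matrix (Fin n) (Fin n) ℂ := fun b => if b then P₂ else 1 - P₂
  let πl : Bool × Bool → Matrix (Fin n) (Fin n) ℂ →ₗ[ℂ] Matrix (Fin n) (Fin n) ℂ := fun i =>
    { toFun := fun Ψ => Q₂ i.1 * Ψ * Q₁ i.2
      map_add' := fun A B => by rw [mul_add, add_mul]
      map_smul' := fun c A => by rw [mul_smul_comm, smul_mul_assoc, RingHom.id_apply] }
  let ρ : Bool × Bool → ℝ := fun i => (if i.1 then s₂ else 0) - (if i.2 then s₁ else 0)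
  have hπR : ∀ i Ψ, πl i (Rl Ψ) = ((ρ i : ℝ) : ℂ) • πl i Ψ := by
    intro i Ψ
    have hq2 : Q₂ i.1 * B₂ = (((if i.1 then s₂ else 0 : ℝ)) : ℂ) • Q₂ i.1 := by
      rw [hBP2, mul_smul_comm]
      rcases i with ⟨_ | _, _⟩
      · simp [Q₂, sub_mul, hPP2]
      · simp [Q₂, hPP2]
    have hq1 : B₁ * Q₁ i.2 = (((if i.2 then s₁ else 0 : ℝ)) : ℂ) • Q₁ i.2 := by
      rw [hBP1, smul_mul_assoc]
      rcases i with ⟨_, _ | _⟩
      · simp [Q₁, mul_sub, hPP1]
      · simp [Q₁, hPP1]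
    show Q₂ i.1 * (B₂ * Ψ - Ψ * B₁) * Q₁ i.2 = _ • (Q₂ i.1 * Ψ * Q₁ i.2)
    have e1 : Q₂ i.1 * (B₂ * Ψ - Ψ * B₁) * Q₁ i.2 =
        Q₂ i.1 * B₂ * Ψ * Q₁ i.2 - Q₂ i.1 * Ψ * (B₁ * Q₁ i.2) := by
      simp only [mul_sub, sub_mul, mul_assoc]
    rw [e1, hq2, hq1]
    simp only [ρ]
    rw [Complex.ofReal_sub, sub_smul, smul_mul_assoc, smul_mul_assoc, mul_smul_comm]
  have hπs : ∀ Ψ, ∑ i, πl i Ψ = Ψ := by
    intro Ψ
    rw [Fintype.sum_prod_type]
    simp only [Fintype.sum_bool]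
    show Q₂ true * Ψ * Q₁ true + Q₂ true * Ψ * Q₁ false +
      (Q₂ false * Ψ * Q₁ true + Q₂ false * Ψ * Q₁ false) = Ψ
    simp only [Q₁, Q₂, if_true, Bool.false_eq_true, if_false]
    noncomm_ring
  set e : (Fin n → Fin n → ℂ) ≃ₗ[ℂ] Matrix (Fin n) (Fin n) ℂ := Matrix.ofLinearEquiv ℂ with he
  let cl : (Matrix (Fin n) (Fin n) ℂ →ₗ[ℂ] Matrix (Fin n) (Fin n) ℂ) →
      ((Fin n → Fin n → ℂ) →L[ℝ] (Fin n → Fin n → ℂ)) := fun T =>
    (LinearMap.toContinuousLinearMap (e.symm.toLinearMap ∘ₗ T ∘ₗ e.toLinearMap)).restrictScalars ℝ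
  have hcl : ∀ T x, cl T x = e.symm (T (e x)) := fun _ _ => rfl
  have hrs : ∀ (a : ℝ) (x : Fin n → Fin n → ℂ), a • x = (a : ℂ) • x := by
    intro a x
    funext i j
    simp [Complex.real_smul]
  rcases abs2 (cl Dl) (cl Rl) (fun i => cl (πl i)) ρ (fun x => by
      simp only [hcl]
      rw [← map_sum, hπs, LinearEquiv.symm_apply_apply]) (fun i x => by
      rw [hcl, hcl, hcl, LinearEquiv.apply_symm_apply, hπR, map_smul, hrs])
      (fun k => e.symm (Φ k)) (fun k => by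
      rw [hcl, hcl, hcl, LinearEquiv.apply_symm_apply, LinearEquiv.apply_symm_apply, hrs, hrs,
        ← map_smul, ← map_smul, ← map_add, ← map_add, ← map_add]
      refine congrArg e.symm ?_
      have := hrec k
      push_cast
      exact this) with ⟨K, h⟩ | ⟨K, i, L, hKρ, hL0, hL⟩
  · exact ⟨K, fun k hk => (LinearEquiv.map_eq_zero_iff e.symm).1 (h k hk)⟩
  exfalso
  obtain ⟨r, s, hrs0⟩ : ∃ r s, L r s ≠ 0 := by
    by_contra hcon
    push Not at hcon
    exact hL0 (by funext i j; exact hcon i j)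
  -- the entries
  have hent : ∀ a b, BD fun k => Φ k a b := by
    intro a b
    refine ⟨fun p x hx0 hx1 => ?_, fun p => ?_⟩
    · refine Summable.of_norm ((hsum p a b x hx0 hx1).congr fun k => ?_)
      rw [norm_mul, norm_mul, norm_pow, norm_pow, Complex.norm_real, Real.norm_eq_abs,
        abs_of_pos hx0, Complex.norm_natCast]
    · obtain ⟨C, hC⟩ := hbd p
      exact ⟨C, fun x hx0 hx1 => hC a b x hx0 hx1⟩
  have hlin : ∀ ℓ : Matrix (Fin n) (Fin n) ℂ →ₗ[ℂ] ℂ, BD fun k => ℓ (Φ k) := by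
    intro ℓ
    have h1 : BD fun k => ∑ a, ∑ b, ℓ (Matrix.single a b 1) * Φ k a b :=
      BD.sum _ _ fun a _ => BD.sum _ _ fun b _ => (hent a b).mul _
    have h2 : (fun k => ℓ (Φ k)) = fun k => ∑ a, ∑ b, ℓ (Matrix.single a b 1) * Φ k a b := by
      funext k
      exact lin_form ℓ (Φ k)
    rw [h2]
    exact h1
  let ev : Matrix (Fin n) (Fin n) ℂ →ₗ[ℂ] ℂ :=
    { toFun := fun Ψ => Ψ r s
      map_add' := fun A B => rfl
      map_smul' := fun c A => rfl }
  have hB : BD fun k => (k : ℂ) * (ev ∘ₗ πl i) (Φ k) + (ev ∘ₗ πl i ∘ₗ Dl) (Φ k) :=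
    (hlin _).shift.add (hlin _)
  have hL1 := (continuous_apply r).continuousAt.tendsto.comp hL
  have hL2 := (continuous_apply s).continuousAt.tendsto.comp hL1
  refine hB.false hKρ hrs0 (hL2.congr fun k => ?_)
  simp only [Function.comp_apply]
  have key : e (((K + k : ℕ) : ℝ) • e.symm (Φ (K + k)) + e.symm (Dl (Φ (K + k)))) =
      (((K + k : ℕ) : ℝ) : ℂ) • Φ (K + k) + Dl (Φ (K + k)) := by
    rw [hrs, ← map_smul, ← map_add, LinearEquiv.apply_symm_apply]
  have key2 : cl (πl i) (((K + k : ℕ) : ℝ) • e.symm (Φ (K + k)) + cl Dl (e.symm (Φ (K + k)))) =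
      e.symm ((((K + k : ℕ) : ℝ) : ℂ) • πl i (Φ (K + k)) + πl i (Dl (Φ (K + k)))) := by
    rw [hcl, hcl, LinearEquiv.apply_symm_apply, key, map_add, map_smul]
  show ((gg K (ρ i) k)⁻¹ • cl (πl i) (((K + k : ℕ) : ℝ) • e.symm (Φ (K + k)) +
    cl Dl (e.symm (Φ (K + k))))) r s = _
  rw [key2]
  show (gg K (ρ i) k)⁻¹ • ((((K + k : ℕ) : ℝ) : ℂ) * (πl i (Φ (K + k))) r s +
    (πl i (Dl (Φ (K + k)))) r s) = _
  congr 1

end Pool.Agent.Run7.h225.HG
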