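import Pool.Agent.Run7.h225.HG.Iface

/-! Project HYG, piece CLS. -/

set_option autoImplicit false

open Matrix

namespace Pool.Agent.Run7.h225.HG

namespace CLS

open Polynomial

theorem roots_shift {s : Polynomial ℂ} (hs : s ≠ 0) :
    (s.comp (X + 1)).roots = s.roots.map (fun r => r - 1) := by
  have h := (IsAlgClosed.splits s).eq_prod_roots
  have h1 : s.comp (X + 1) = C s.leadingCoeff *
      (((s.roots.map (fun r => r - 1)).map (fun a => X - C a)).prod) := by
    conv_lhs => rw [h]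
    rw [mul_comp, C_comp, multiset_prod_comp, Multiset.map_map, Multiset.map_map]
    congr 2
    refine Multiset.map_congr rfl fun r _ => ?_
    simp only [Function.comp_apply, sub_comp, X_comp, C_comp, map_sub, map_one]
    ring
  rw [h1, roots_C_mul _ (leadingCoeff_ne_zero.2 hs), roots_multiset_prod_X_sub_C]

theorem comp_ne {s : Polynomial ℂ} (hs : s ≠ 0) : s.comp (X + 1) ≠ 0 := by
  intro h
  apply hs
  have h1 : (s.comp (X + 1)).comp (X - 1) = s := by
    rw [comp_assoc]
    simp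
  rw [← h1, h, zero_comp]

theorem roots_lin {n : ℕ} (β : Fin n → ℚ) :
    (∏ j, (X + C ((β j : ℚ) : ℂ))).roots = Finset.univ.val.map (fun j => -((β j : ℚ) : ℂ)) := by
  have h1 : ∏ j, (X + C ((β j : ℚ) : ℂ)) =
      (((Finset.univ : Finset (Fin n)).val.map (fun j => -((β j : ℚ) : ℂ))).map
        (fun a => X - C a)).prod := by
    rw [Multiset.map_map, Finset.prod]
    congr 1
    refine Multiset.map_congr rfl fun j _ => ?_
    simp
  rw [h1, roots_multiset_prod_X_sub_C]

theorem lin_ne {n : ℕ} (β : Fin n → ℚ) : ∏ j, (X + C ((β j : ℚ) : ℂ)) ≠ 0 :=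
  Finset.prod_ne_zero_iff.2 fun j _ => X_add_C_ne_zero _

/-- Classes modulo `ℤ`. -/
noncomputable def pi (z : ℂ) : ℂ ⧸ (AddSubgroup.zmultiples (1 : ℂ)) := QuotientAddGroup.mk z

theorem pi_sub (z : ℂ) : pi (z - 1) = pi z := by
  unfold pi
  rw [QuotientAddGroup.eq]
  exact ⟨1, by simp⟩

open Classical in
/-- The fractional part of the negative representative. -/
noncomputable def F (c : ℂ ⧸ (AddSubgroup.zmultiples (1 : ℂ))) : ℚ :=
  if h : ∃ b : ℚ, pi (-((b : ℚ) : ℂ)) = c then Int.fract h.choose else 0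

theorem F_pi (b : ℚ) : F (pi (-((b : ℚ) : ℂ))) = Int.fract b := by
  have h : ∃ b' : ℚ, pi (-((b' : ℚ) : ℂ)) = pi (-((b : ℚ) : ℂ)) := ⟨b, rfl⟩
  unfold F
  rw [dif_pos h]
  have h1 := h.choose_spec
  generalize h.choose = b' at h1
  unfold pi at h1
  rw [QuotientAddGroup.eq] at h1
  obtain ⟨z, hz⟩ := AddSubgroup.mem_zmultiples_iff.1 h1
  rw [Int.fract_eq_fract]
  refine ⟨z, ?_⟩
  have h2 : ((b' - b : ℚ) : ℂ) = ((z : ℚ) : ℂ) := by
    push_cast
    simp only [zsmul_eq_mul, mul_one, neg_neg] at hz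
    rw [hz]
    ring
  exact_mod_cast h2

end CLS

theorem p_CLS : S_CLS := by
  intro n m β γ s p hs hp h
  have h1 := congrArg Polynomial.roots h
  rw [Polynomial.roots_mul (mul_ne_zero (mul_ne_zero (CLS.lin_ne β) hs) (CLS.comp_ne hp)),
    Polynomial.roots_mul (mul_ne_zero (CLS.lin_ne β) hs),
    Polynomial.roots_mul (mul_ne_zero (mul_ne_zero (CLS.lin_ne γ) (CLS.comp_ne hs)) hp),
    Polynomial.roots_mul (mul_ne_zero (CLS.lin_ne γ) (CLS.comp_ne hs)),
    CLS.roots_lin, CLS.roots_lin, CLS.roots_shift hs, CLS.roots_shift hp] at h1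
  have h2 := congrArg (Multiset.map CLS.pi) h1
  simp only [Multiset.map_add, Multiset.map_map, Function.comp_def, CLS.pi_sub] at h2
  have h3 := add_right_cancel (add_right_cancel h2)
  have h4 := congrArg (Multiset.map CLS.F) h3
  simp only [Multiset.map_map, Function.comp_def, CLS.F_pi] at h4
  exact h4

end Pool.Agent.Run7.h225.HG
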