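import Pool.Agent.Run7.h225.HG.Iface2
import Pool.Agent.Run7.h893.HO.Form

/-!
# The dual hypergeometric equation
-/

set_option autoImplicit false

open PowerSeries Matrix
open Pool.Agent.Y119.HZ
open Pool.Agent.Y119.HY (Am Jm Bm Hq cm Hq_zero Jm_rel)
open Run7.h893.HO

namespace Pool.Agent.Run7.h225.HG.DUAL

variable {n : ℕ} {Q : Polynomial ℚ}

lemma dq_coeff (i : ℕ) : (dq n Q).coeff i = (-1) ^ n * (-1) ^ i * Q.coeff i := by
  unfold dq
  rw [Polynomial.coeff_C_mul]
  have h1 : (Q.comp (-Polynomial.X)).coeff i = (-1) ^ i * Q.coeff i := by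
    have h2 : (-Polynomial.X : Polynomial ℚ) = Polynomial.C (-1) * Polynomial.X := by simp
    rw [h2, Polynomial.comp_C_mul_X_coeff, mul_comm]
  rw [h1]
  ring

lemma Jlast (hn : 1 ≤ n) (j : Fin n) : Jm n Q ⟨n - 1, by omega⟩ j = (-1) ^ (n - 1) * Q.coeff j := by
  unfold Jm
  rw [Matrix.of_apply, if_pos (by simp only; omega)]
  congr 2
  simp only
  omega

lemma Jlast' (hn : 1 ≤ n) (i : Fin n) : Jm n Q i ⟨n - 1, by omega⟩ = (-1) ^ (i : ℕ) * Q.coeff i := by
  unfold Jm
  rw [Matrix.of_apply, if_pos (by simp only; omega)]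
  congr 2
  simp only
  omega

theorem rel (hn : 1 ≤ n) : (Bm n (dq n Q)).transpose * Jm n Q + Jm n Q * Bm n Q = 0 := by
  ext i j
  rw [Matrix.add_apply, tBm_mul hn, mul_Bm' hn, dq_coeff, Jlast hn, Jlast' hn, Matrix.zero_apply]
  obtain ⟨m, rfl⟩ : ∃ m, n = m + 1 := ⟨n - 1, by omega⟩
  have h5 : (-1 : ℚ) ^ m * (-1) ^ m = 1 := by rw [← pow_add, Even.neg_one_pow ⟨_, rfl⟩]
  rw [Nat.add_sub_cancel, pow_succ]
  linear_combination (-(-1 : ℚ) ^ (i : ℕ) * Q.coeff i * Q.coeff j) * h5

theorem Jdet (hQ : QG n Q) : (Jm n Q).det ≠ 0 := by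
  have h1 := Matrix.det_permute' (Fin.revPerm : Equiv.Perm (Fin n)) (Jm n Q)
  have h2 : ((Jm n Q).submatrix id (Fin.revPerm : Equiv.Perm (Fin n))).det = ∏ i : Fin n, ((-1) ^ (i : ℕ) * Q.coeff 0) := by
    rw [Matrix.det_of_isLowerTriangular]
    · refine Finset.prod_congr rfl fun i _ => ?_
      rw [Matrix.submatrix_apply]
      unfold Jm
      simp only [Matrix.of_apply, id, Fin.revPerm_apply, Fin.val_rev]
      have := i.2
      rw [if_pos (by omega)]
      congr 2
      omega
    · intro i j hij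
      have hij' : (i : ℕ) < j := hij
      rw [Matrix.submatrix_apply]
      unfold Jm
      simp only [Matrix.of_apply, id, Fin.revPerm_apply, Fin.val_rev]
      have := j.2
      rw [if_neg (by omega)]
  have h3 : ((Jm n Q).submatrix id (Fin.revPerm : Equiv.Perm (Fin n))).det ≠ 0 := by
    rw [h2]
    refine Finset.prod_ne_zero_iff.2 fun i _ => mul_ne_zero (pow_ne_zero _ (by norm_num)) ?_
    have := hQ.ne 0
    rwa [Nat.cast_zero, ← Polynomial.coeff_zero_eq_eval_zero] at this
  intro h0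
  rw [h0, mul_zero] at h1
  exact h3 h1

/-- the pairing of the two fundamental solutions -/
theorem form (hQ : QG n Q) (hQ' : QG n (dq n Q)) :
    (Hp n (dq n Q)).transpose * km (Jm n Q) * Hp n Q = km (Jm n Q) := by
  set Z := (Hp n (dq n Q)).transpose * km (Jm n Q) * Hp n Q with hZ
  set H := Hp n Q with hH
  set H' := Hp n (dq n Q) with hH'
  set J := km (Jm n Q) with hJ
  set G : Matrix (Fin n) (Fin n) ℚ⟦X⟧ := (1 - X : ℚ⟦X⟧) • km (Am n) + (X : ℚ⟦X⟧) • km (Bm n Q) with hG
  set G' : Matrix (Fin n) (Fin n) ℚ⟦X⟧ := (1 - X : ℚ⟦X⟧) • km (Am n) + (X : ℚ⟦X⟧) • km (Bm n (dq n Q)) with hG'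
  have hkm : ∀ M : Matrix (Fin n) (Fin n) ℚ, km M.transpose = (km M).transpose := fun M => rfl
  have hGJ : G'.transpose * J + J * G = 0 := by
    have e1 : (km (Am n)).transpose * J + J * km (Am n) = 0 := by
      rw [hJ, ← hkm]
      unfold km
      rw [← map_mul, ← map_mul, ← map_add, Jm_rel, map_zero]
    have e2 : (km (Bm n (dq n Q))).transpose * J + J * km (Bm n Q) = 0 := by
      rw [hJ, ← hkm]
      unfold km
      rw [← map_mul, ← map_mul, ← map_add, rel (by have := hQ.two; omega), map_zero]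
    have e3 : G'.transpose * J + J * G = (1 - X : ℚ⟦X⟧) • ((km (Am n)).transpose * J + J * km (Am n)) +
        (X : ℚ⟦X⟧) • ((km (Bm n (dq n Q))).transpose * J + J * km (Bm n Q)) := by
      rw [hG, hG', Matrix.transpose_add, Matrix.transpose_smul, Matrix.transpose_smul, add_mul, mul_add, smul_mul_assoc,
        smul_mul_assoc, mul_smul_comm, mul_smul_comm, smul_add, smul_add]
      abel
    rw [e3, e1, e2, smul_zero, smul_zero, add_zero]
  have hode := ode_Hp_g hQ
  rw [← hH, ← hG] at hode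
  have hode' := ode_Hp_g hQ'
  rw [← hH', ← hG'] at hode'
  have hth : (1 - X : ℚ⟦X⟧) • th H = G * H - (1 - X : ℚ⟦X⟧) • (H * km (Am n)) := by
    rw [← hode, smul_add]
    abel
  have hth' : (1 - X : ℚ⟦X⟧) • th H' = G' * H' - (1 - X : ℚ⟦X⟧) • (H' * km (Am n)) := by
    rw [← hode', smul_add]
    abel
  have hthZ : th Z = (th H').transpose * J * H + H'.transpose * J * th H := by
    rw [hZ, th_mul, th_mul, hJ, th_km, Matrix.mul_zero, add_zero, th_transpose]
  have h1 : (1 - X : ℚ⟦X⟧) • (th Z + ((km (Am n)).transpose * Z + Z * km (Am n))) = 0 := by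
    have e1 : (1 - X : ℚ⟦X⟧) • ((th H').transpose * J * H) =
        (H'.transpose * G'.transpose - (1 - X : ℚ⟦X⟧) • ((km (Am n)).transpose * H'.transpose)) * J * H := by
      rw [← smul_mul_assoc, ← smul_mul_assoc, ← Matrix.transpose_smul, hth', Matrix.transpose_sub, Matrix.transpose_smul,
        Matrix.transpose_mul, Matrix.transpose_mul]
    have e2 : (1 - X : ℚ⟦X⟧) • (H'.transpose * J * th H) = H'.transpose * J * (G * H - (1 - X : ℚ⟦X⟧) • (H * km (Am n))) := by
      rw [← mul_smul_comm, hth]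
    rw [smul_add, hthZ, smul_add, e1, e2, smul_add, hZ]
    have e3 : (H'.transpose * G'.transpose - (1 - X : ℚ⟦X⟧) • ((km (Am n)).transpose * H'.transpose)) * J * H =
        H'.transpose * (G'.transpose * J) * H - (1 - X : ℚ⟦X⟧) • ((km (Am n)).transpose * (H'.transpose * J * H)) := by
      rw [sub_mul, sub_mul, smul_mul_assoc, smul_mul_assoc]
      simp only [Matrix.mul_assoc]
    have e4 : H'.transpose * J * (G * H - (1 - X : ℚ⟦X⟧) • (H * km (Am n))) =
        H'.transpose * (J * G) * H - (1 - X : ℚ⟦X⟧) • ((H'.transpose * J * H) * km (Am n)) := by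
      rw [mul_sub, mul_smul_comm]
      simp only [Matrix.mul_assoc]
    rw [e3, e4]
    have e5 : H'.transpose * (G'.transpose * J) * H + H'.transpose * (J * G) * H = 0 := by
      rw [← add_mul, ← mul_add, hGJ, Matrix.mul_zero, Matrix.zero_mul]
    calc _ = H'.transpose * (G'.transpose * J) * H + H'.transpose * (J * G) * H := by abel
      _ = 0 := e5
  have h1X : (1 - X : ℚ⟦X⟧) ≠ 0 := by
    intro h0
    have := congrArg (coeff 0) h0
    simp at this
  have h2 : th Z + ((km (Am n)).transpose * Z + Z * km (Am n)) = 0 := by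
    ext1 i j
    have h3 := congrFun (congrFun h1 i) j
    rw [Matrix.smul_apply, smul_eq_mul, Matrix.zero_apply] at h3
    exact (mul_eq_zero.1 h3).resolve_left h1X
  refine cf_ext fun k => ?_
  have h3 : (k : ℚ) • cf Z k + ((Am n).transpose * cf Z k + cf Z k * Am n) = 0 := by
    have e1 : cf (th Z + ((km (Am n)).transpose * Z + Z * km (Am n))) k =
        cf (th Z) k + (cf ((km (Am n)).transpose * Z) k + cf (Z * km (Am n)) k) := by
      ext i j
      unfold cf
      simp only [Matrix.map_apply, Matrix.add_apply, map_add]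
    rw [h2, cf_th, ← hkm, cf_km_mul, cf_mul_km] at e1
    rw [← e1]
    ext i j
    unfold cf
    simp
  rcases k with _ | k
  · have h4 : ∀ M N : Matrix (Fin n) (Fin n) ℚ⟦X⟧, cf (M * N) 0 = cf M 0 * cf N 0 := by
      intro M N
      ext i j
      unfold cf
      rw [Matrix.map_apply, Matrix.mul_apply, Matrix.mul_apply, map_sum]
      refine Finset.sum_congr rfl fun l _ => ?_
      rw [Matrix.map_apply, Matrix.map_apply, coeff_zero_eq_constantCoeff_apply, coeff_zero_eq_constantCoeff_apply,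
        coeff_zero_eq_constantCoeff_apply, map_mul]
    have h5 : cf H'.transpose 0 = (cf H' 0).transpose := rfl
    rw [hZ, h4, h4, h5, hH, hH', cf_Hp, cf_Hp, Hq_zero, Hq_zero, Matrix.transpose_one, one_mul, mul_one]
  · rw [nil_zero (by exact_mod_cast Nat.succ_ne_zero k) h3]
    ext i j
    unfold cf
    rw [Matrix.map_apply, hJ, km_apply, coeff_C, if_neg (Nat.succ_ne_zero k), Matrix.zero_apply]

end Pool.Agent.Run7.h225.HG.DUAL

namespace Pool.Agent.Run7.h225.HG

theorem p_DUAL : S_DUAL := fun _ _ hQ hQ' =>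
  ⟨DUAL.rel (by have := hQ.two; omega), DUAL.Jdet hQ, DUAL.form hQ hQ'⟩

end Pool.Agent.Run7.h225.HG
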