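import Pool.Agent.Run7.h225.HG.Conn
import Pool.Agent.Run7.h225.HG.DUAL

/-!
# Conjugation and duality of the connection data
-/

set_option autoImplicit false

open Matrix
open Pool.Agent.Y119.HZ
open Pool.Agent.Y119.HY (Am Jm Bm Hq cm E Hf Hc Yf Gal Sol PG Lens DD RR DD_nil RR_left DD_apply ps cm_mul cm_add
  cm_zero cm_one cm_transpose cm_apply Ac_nil mem_Lens symm_Lens)
open Run7.h893.HO

namespace Pool.Agent.Run7.h225.HG

variable {n : ℕ}

/-- the coefficients are determined by the recursion -/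
lemma Sol_unique {N0 N1 : Matrix (Fin n) (Fin n) ℂ} (h0 : N0 ^ n = 0) {H H' : ℕ → Matrix (Fin n) (Fin n) ℂ}
    (hH : Sol N0 N1 H) (hH' : Sol N0 N1 H') : H = H' := by
  obtain ⟨p, hp⟩ := DD_nil h0
  funext k
  induction k with
  | zero => rw [hH.zero, hH'.zero]
  | succ k ih =>
    have h1 : ((k : ℂ) + 1) ≠ 0 := by exact_mod_cast Nat.succ_ne_zero k
    have h2 : ((k : ℂ) + 1) • H (k + 1) + DD N0 (H (k + 1)) = ((k : ℂ) + 1) • H' (k + 1) + DD N0 (H' (k + 1)) := by
      rw [DD_apply, DD_apply, hH.step, hH'.step, ih]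
    rw [← RR_left hp h1 (H (k + 1)), h2, RR_left hp h1]

lemma Sol_conj {N0 N1 : Matrix (Fin n) (Fin n) ℂ} {H : ℕ → Matrix (Fin n) (Fin n) ℂ} (hH : Sol N0 N1 H)
    {U V : Matrix (Fin n) (Fin n) ℂ} (hUV : U * V = 1) (hVU : V * U = 1) :
    Sol (U * N0 * V) (U * N1 * V) (fun k => U * H k * V) := by
  refine ⟨by show U * H 0 * V = 1; rw [hH.zero, mul_one, hUV], fun k => ?_⟩
  have e : ∀ X Y : Matrix (Fin n) (Fin n) ℂ, (U * X * V) * (U * Y * V) = U * (X * Y) * V := by
    intro X Y
    calc (U * X * V) * (U * Y * V) = U * X * (V * U) * Y * V := by simp only [Matrix.mul_assoc]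
      _ = _ := by rw [hVU, mul_one]; simp only [Matrix.mul_assoc]
  simp only [e]
  have h1 := congrArg (fun X => U * X * V) (hH.step k)
  simp only [mul_add, add_mul, mul_sub, sub_mul, Matrix.mul_smul, Matrix.smul_mul] at h1
  exact h1

lemma Hf_conj {H : ℕ → Matrix (Fin n) (Fin n) ℂ} (hg : ∀ i j, PG fun k => H k i j) (U V : Matrix (Fin n) (Fin n) ℂ) {z : ℂ}
    (hz : ‖z‖ < 1) : Hf (fun k => U * H k * V) z = U * Hf H z * V := by
  ext i j
  show ps (fun k => (U * H k * V) i j) z = _
  have h1 : ∀ (i j : Fin n), PG fun k => (U * H k) i j := by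
    intro i j
    simp only [Matrix.mul_apply]
    exact PG.sum _ fun l _ => (hg l j).smul _
  have e1 : ∀ (i j : Fin n), ps (fun k => (U * H k) i j) z = (U * Hf H z) i j := by
    intro i j
    simp only [Matrix.mul_apply]
    rw [Pool.Agent.Y119.HY.ps_sum _ (fun l _ => (hg l j).smul _) hz]
    exact Finset.sum_congr rfl fun l _ => Pool.Agent.Y119.HY.ps_smul _ _
  simp only [Matrix.mul_apply (M := U * _) (N := V), mul_comm _ (V _ j)]
  rw [Pool.Agent.Y119.HY.ps_sum _ (fun l _ => (h1 i l).smul _) hz]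
  refine Finset.sum_congr rfl fun l _ => ?_
  rw [Pool.Agent.Y119.HY.ps_smul, e1]

lemma E_conj (N U V : Matrix (Fin n) (Fin n) ℂ) (hUV : U * V = 1) (hVU : V * U = 1) (s : ℂ) :
    E (U * N * V) s = U * E N s * V := by
  have e : ∀ k : ℕ, (U * N * V) ^ k = U * N ^ k * V := by
    intro k
    induction k with
    | zero => rw [pow_zero, pow_zero, mul_one, hUV]
    | succ k ih =>
      rw [pow_succ, ih, pow_succ]
      calc U * N ^ k * V * (U * N * V) = U * N ^ k * (V * U) * N * V := by simp only [Matrix.mul_assoc]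
        _ = _ := by rw [hVU, mul_one]; simp only [Matrix.mul_assoc]
  unfold E
  rw [Finset.mul_sum, Finset.sum_mul]
  refine Finset.sum_congr rfl fun k _ => ?_
  rw [e, Matrix.mul_smul, Matrix.smul_mul]

lemma Yf_conj {N0 : Matrix (Fin n) (Fin n) ℂ} {H : ℕ → Matrix (Fin n) (Fin n) ℂ} (hg : ∀ i j, PG fun k => H k i j)
    {U V : Matrix (Fin n) (Fin n) ℂ} (hUV : U * V = 1) (hVU : V * U = 1) {z : ℂ} (hz : ‖z‖ < 1) :
    Yf (U * N0 * V) (fun k => U * H k * V) z = U * Yf N0 H z * V := by
  unfold Yf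
  rw [Hf_conj hg U V hz, E_conj _ _ _ hUV hVU]
  calc U * Hf H z * V * (U * E N0 (Complex.log z) * V) = U * Hf H z * (V * U) * E N0 (Complex.log z) * V := by
        simp only [Matrix.mul_assoc]
    _ = _ := by rw [hVU, mul_one]; simp only [Matrix.mul_assoc]

variable {A B : Matrix (Fin n) (Fin n) ℂ} {H H' K K' : ℕ → Matrix (Fin n) (Fin n) ℂ} {M Mi : Matrix (Fin n) (Fin n) ℂ}

lemma nilT {N : Matrix (Fin n) (Fin n) ℂ} (h : N ^ n = 0) : (-N.transpose) ^ n = 0 := CON.nil_transpose h

lemma nilT' {N : Matrix (Fin n) (Fin n) ℂ} (h : (-N) ^ n = 0) : N.transpose ^ n = 0 := by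
  have := CON.nil_transpose h
  rwa [Matrix.transpose_neg, neg_neg] at this

/-- conjugation -/
theorem CD.conj (h : CD A B H H' K K' M Mi) (hA : A ^ n = 0) (hB : (-B) ^ n = 0) {U V : Matrix (Fin n) (Fin n) ℂ}
    (hUV : U * V = 1) (hVU : V * U = 1) :
    CD (U * A * V) (U * B * V) (fun k => U * H k * V) (fun k => V.transpose * H' k * U.transpose)
      (fun k => U * K k * V) (fun k => V.transpose * K' k * U.transpose) (U * M * V) (U * Mi * V) := by
  have hUV' : V.transpose * U.transpose = 1 := by rw [← Matrix.transpose_mul, hUV, Matrix.transpose_one]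
  have hVU' : U.transpose * V.transpose = 1 := by rw [← Matrix.transpose_mul, hVU, Matrix.transpose_one]
  have hgH := h.hH.growth hA
  have hgH' := h.hH'.growth (nilT hA)
  have hgK := h.hK.growth hB
  have hgK' := h.hK'.growth (nilT' hB)
  have eT : ∀ X : Matrix (Fin n) (Fin n) ℂ, (U * X * V).transpose = V.transpose * X.transpose * U.transpose := by
    intro X
    rw [Matrix.transpose_mul, Matrix.transpose_mul, Matrix.mul_assoc]
  have eTn : ∀ X : Matrix (Fin n) (Fin n) ℂ, -(U * X * V).transpose = V.transpose * (-X.transpose) * U.transpose := by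
    intro X
    rw [eT, Matrix.mul_neg, Matrix.neg_mul]
  have en : ∀ X : Matrix (Fin n) (Fin n) ℂ, -(U * X * V) = U * (-X) * V := by
    intro X
    rw [Matrix.mul_neg, Matrix.neg_mul]
  refine ⟨Sol_conj h.hH hUV hVU, ?_, ?_, ?_, ?_, ?_, ?_, ?_, ?_, ?_⟩
  · rw [eTn, eTn]
    exact Sol_conj h.hH' hUV' hVU'
  · rw [en, en]
    exact Sol_conj h.hK hUV hVU
  · rw [eT, eT]
    exact Sol_conj h.hK' hUV' hVU'
  · calc U * M * V * (U * Mi * V) = U * (M * (V * U) * Mi) * V := by simp only [Matrix.mul_assoc]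
      _ = 1 := by rw [hVU, mul_one, h.l, mul_one, hUV]
  · calc U * Mi * V * (U * M * V) = U * (Mi * (V * U) * M) * V := by simp only [Matrix.mul_assoc]
      _ = 1 := by rw [hVU, mul_one, h.r, mul_one, hUV]
  · intro z hz
    have hz' : ‖z‖ < 1 := by rwa [Metric.mem_ball, dist_zero_right] at hz
    rw [Hf_conj hgH' _ _ hz', Hf_conj hgH _ _ hz', Matrix.transpose_mul, Matrix.transpose_mul, Matrix.transpose_transpose,
      Matrix.transpose_transpose]
    calc U * ((Hf H' z).transpose * V) * (U * Hf H z * V) = U * ((Hf H' z).transpose * (V * U) * Hf H z) * V := by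
          simp only [Matrix.mul_assoc]
      _ = 1 := by rw [hVU, mul_one, h.iH z hz, mul_one, hUV]
  · intro z hz
    have hz' : ‖z‖ < 1 := by rwa [Metric.mem_ball, dist_zero_right] at hz
    rw [Hf_conj hgK' _ _ hz', Hf_conj hgK _ _ hz', Matrix.transpose_mul, Matrix.transpose_mul, Matrix.transpose_transpose,
      Matrix.transpose_transpose]
    calc U * ((Hf K' z).transpose * V) * (U * Hf K z * V) = U * ((Hf K' z).transpose * (V * U) * Hf K z) * V := by
          simp only [Matrix.mul_assoc]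
      _ = 1 := by rw [hVU, mul_one, h.iK z hz, mul_one, hUV]
  · intro z hz
    rw [en, Yf_conj hgH hUV hVU (mem_Lens.1 hz).1, Yf_conj hgK hUV hVU (mem_Lens.1 (symm_Lens hz)).1, h.con z hz]
    calc U * (Yf (-B) K (1 - z) * M) * V = U * Yf (-B) K (1 - z) * (1 * M) * V := by
          rw [one_mul]
          simp only [Matrix.mul_assoc]
      _ = _ := by
        rw [← hVU]
        simp only [Matrix.mul_assoc]
  · intro z hz
    rw [eTn, eT, eT, Yf_conj hgH' hUV' hVU' (mem_Lens.1 hz).1, Yf_conj hgK' hUV' hVU' (mem_Lens.1 (symm_Lens hz)).1,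
      h.con' z hz]
    calc V.transpose * (Yf B.transpose K' (1 - z) * Mi.transpose) * U.transpose =
          V.transpose * Yf B.transpose K' (1 - z) * (1 * Mi.transpose) * U.transpose := by
          rw [one_mul]
          simp only [Matrix.mul_assoc]
      _ = _ := by
        rw [← hVU']
        simp only [Matrix.mul_assoc]

/-- the dual system -/
theorem CD.dual (h : CD A B H H' K K' M Mi) :
    CD (-A.transpose) (-B.transpose) H' H K' K Mi.transpose M.transpose := by
  refine ⟨h.hH', ?_, ?_, ?_, ?_, ?_, ?_, ?_, ?_, ?_⟩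
  · rw [Matrix.transpose_neg, Matrix.transpose_neg, Matrix.transpose_transpose, Matrix.transpose_transpose, neg_neg, neg_neg]
    exact h.hH
  · rw [neg_neg, neg_neg]
    exact h.hK'
  · rw [Matrix.transpose_neg, Matrix.transpose_neg, Matrix.transpose_transpose, Matrix.transpose_transpose]
    exact h.hK
  · rw [← Matrix.transpose_mul, h.l, Matrix.transpose_one]
  · rw [← Matrix.transpose_mul, h.r, Matrix.transpose_one]
  · intro z hz
    have h1 := congrArg Matrix.transpose (mul_eq_one_comm.1 (h.iH z hz))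
    rw [Matrix.transpose_mul, Matrix.transpose_transpose, Matrix.transpose_one] at h1
    exact mul_eq_one_comm.1 h1
  · intro z hz
    have h1 := congrArg Matrix.transpose (mul_eq_one_comm.1 (h.iK z hz))
    rw [Matrix.transpose_mul, Matrix.transpose_transpose, Matrix.transpose_one] at h1
    exact mul_eq_one_comm.1 h1
  · intro z hz
    rw [neg_neg]
    exact h.con' z hz
  · intro z hz
    rw [Matrix.transpose_neg, Matrix.transpose_neg, Matrix.transpose_transpose, Matrix.transpose_transpose, neg_neg,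
      Matrix.transpose_transpose]
    exact h.con z hz

end Pool.Agent.Run7.h225.HG
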