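import Pool.Agent.Run7.h225.HG.Iface2

/-!
# Connection between `0` and `1` for a unipotent monodromy at `1`
-/

set_option autoImplicit false

open Filter Topology Matrix Polynomial Pool.Agent.Y119.HY

namespace Pool.Agent.Run7.h225.HG.CON

variable {n : ℕ}

lemma E_transpose (N : Matrix (Fin n) (Fin n) ℂ) (s : ℂ) : (E N s).transpose = E N.transpose s := by
  unfold E
  rw [Matrix.transpose_sum]
  refine Finset.sum_congr rfl fun i _ => ?_
  rw [Matrix.transpose_smul, Matrix.transpose_pow]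

lemma nil_transpose {N : Matrix (Fin n) (Fin n) ℂ} (h : N ^ n = 0) : (-N.transpose) ^ n = 0 := by
  rw [neg_pow, ← Matrix.transpose_pow, h, Matrix.transpose_zero, mul_zero]

/-- the pairing of solutions of the system and of the dual system is constant -/
lemma pair_dual {G : Matrix (Fin n) (Fin n) ℂ} {Y Z : ℂ → Matrix (Fin n) (Fin n) ℂ} {z : ℂ} (hZ : HD Z (-G.transpose * Z z) z)
    (hY : HD Y (G * Y z) z) : HD (fun w => (Z w).transpose * Y w) 0 z := by
  refine (hZ.transpose.mul hY).congr ?_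
  rw [Matrix.transpose_mul, Matrix.transpose_neg, Matrix.transpose_transpose, Matrix.mul_neg, Matrix.neg_mul,
    Matrix.mul_assoc, neg_add_cancel]

variable {N0 N1 : Matrix (Fin n) (Fin n) ℂ} {H H' : ℕ → Matrix (Fin n) (Fin n) ℂ}

lemma Gm_dual (z : ℂ) : Gm (-N0.transpose) (-N1.transpose) z = -(Gm N0 N1 z).transpose := by
  unfold Gm
  rw [Matrix.transpose_add, Matrix.transpose_smul, Matrix.transpose_smul, smul_neg, smul_neg, neg_add]

/-- the pairing is one -/
theorem pair_one (h0 : N0 ^ n = 0) (hH : Sol N0 N1 H) (hH' : Sol (-N0.transpose) (-N1.transpose) H') :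
    (∀ z ∈ Metric.ball (0 : ℂ) 1, (Hf H' z).transpose * Hf H z = 1) ∧
    ∀ z ∈ Lens, (Yf (-N0.transpose) H' z).transpose * Yf N0 H z = 1 := by
  have h0' := nil_transpose h0
  have hhalf : ((1 / 2 : ℝ) : ℂ) ∈ Lens := real_mem_Lens (by norm_num) (by norm_num)
  set S := (Yf (-N0.transpose) H' ((1 / 2 : ℝ) : ℂ)).transpose * Yf N0 H ((1 / 2 : ℝ) : ℂ) with hS
  have hconst : ∀ w ∈ Lens, (Yf (-N0.transpose) H' w).transpose * Yf N0 H w = S := by
    intro w hw
    refine const_Lens (F := fun w => (Yf (-N0.transpose) H' w).transpose * Yf N0 H w) (fun x hx => ?_) hw hhalf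
    have h1 := Yf_ode hH h0 (mem_Lens.1 hx).1 (slit_Lens hx)
    have h2 := Yf_ode hH' h0' (mem_Lens.1 hx).1 (slit_Lens hx)
    rw [Gm_dual] at h2
    exact pair_dual h2 h1
  have hHan : ∀ i j, AnalyticOnNhd ℂ (fun z => ((Hf H' z).transpose * Hf H z) i j) (Metric.ball 0 1) := by
    intro i j
    simp only [Matrix.mul_apply, Matrix.transpose_apply]
    exact Finset.analyticOnNhd_fun_sum _ fun l _ => (Hf_an hH' h0' l i).mul (Hf_an hH h0 l j)
  have hlog : ∀ i j : Fin n, ∀ w ∈ Metric.ball (0 : ℂ) 1, C (((Hf H' w).transpose * Hf H w) i j) +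
      -((Ep N0 * S.map C * Ep (-N0)) i j) = 0 := by
    intro i j
    refine PA.log_zero (f := fun w => C (((Hf H' w).transpose * Hf H w) i j) +
      -((Ep N0 * S.map C * Ep (-N0)) i j)) ((PA.ofFun (hHan i j)).add (PA.const _)) fun x hx hx1 => ?_
    have h1 := hconst x (real_mem_Lens hx hx1)
    have h2 : (Ep N0 * S.map C * Ep (-N0)).map (Polynomial.eval ((Real.log x : ℝ) : ℂ)) =
        (Hf H' x).transpose * Hf H x := by
      rw [map_mul_eval, map_mul_eval, map_C_eval, Ep_eval, Ep_eval, E_neg, ← h1]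
      unfold Yf
      rw [← Complex.ofReal_log hx.le, Matrix.transpose_mul, E_transpose, Matrix.transpose_neg, Matrix.transpose_transpose,
        E_neg]
      set L : ℂ := ((Real.log x : ℝ) : ℂ)
      have h3 : E N0 L * E N0 (-L) = 1 := E_mul_neg h0 L
      calc E N0 L * (E N0 (-L) * (Hf H' x).transpose * (Hf H x * E N0 L)) * E N0 (-L)
          = (E N0 L * E N0 (-L)) * (Hf H' x).transpose * Hf H x * (E N0 L * E N0 (-L)) := by
            simp only [Matrix.mul_assoc]
        _ = _ := by rw [h3, one_mul, mul_one]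
    rw [eval_add, eval_neg, eval_C, ← h2]
    simp only [Matrix.map_apply]
    ring
  -- the constant
  have hS1 : ∀ i j, S i j = (1 : Matrix (Fin n) (Fin n) ℂ) i j := by
    intro i j
    have h5 := congrArg (Polynomial.eval 0) (hlog i j 0 (Metric.mem_ball_self one_pos))
    rw [eval_add, eval_neg, eval_C, Hf_zero hH, Hf_zero hH', Matrix.transpose_one, one_mul, eval_zero] at h5
    have h6 : (Ep N0 * S.map C * Ep (-N0)).map (Polynomial.eval 0) = S := by
      rw [map_mul_eval, map_mul_eval, map_C_eval, Ep_eval, Ep_eval, E_zero h0,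
        E_zero (N := -N0) (by rw [neg_pow, h0, mul_zero]), one_mul, mul_one]
    have h7 := congrFun (congrFun h6 i) j
    rw [Matrix.map_apply] at h7
    rw [h7] at h5
    linear_combination -h5
  have hS2 : S = 1 := by
    ext i j
    exact hS1 i j
  refine ⟨fun z hz => ?_, fun z hz => by rw [hconst z hz, hS2]⟩
  ext i j
  have h5 := congrArg (Polynomial.eval 0) (hlog i j z hz)
  rw [eval_add, eval_neg, eval_C, eval_zero] at h5
  have h6 : (Ep N0 * S.map C * Ep (-N0)).map (Polynomial.eval 0) = S := by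
    rw [map_mul_eval, map_mul_eval, map_C_eval, Ep_eval, Ep_eval, E_zero h0,
      E_zero (N := -N0) (by rw [neg_pow, h0, mul_zero]), one_mul, mul_one]
  have h7 := congrFun (congrFun h6 i) j
  rw [Matrix.map_apply] at h7
  rw [h7, hS1] at h5
  linear_combination h5

end Pool.Agent.Run7.h225.HG.CON

namespace Pool.Agent.Run7.h225.HG

open CON

theorem p_CON : S_CON := by
  intro n A B H hA hB hH
  have hA' := nil_transpose hA
  have hB' : B.transpose ^ n = 0 := by
    have := nil_transpose hB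
    rwa [Matrix.transpose_neg, neg_neg] at this
  obtain ⟨H', hH'⟩ := exists_sol hA' (-B.transpose)
  obtain ⟨K, hK⟩ := exists_sol hB (-A)
  obtain ⟨K', hK'⟩ := exists_sol hB' A.transpose
  have hK'' : Sol (-(-B).transpose) (-(-A).transpose) K' := by
    rw [Matrix.transpose_neg, Matrix.transpose_neg, neg_neg, neg_neg]
    exact hK'
  obtain ⟨pH1, pH2⟩ := pair_one hA hH hH'
  obtain ⟨pK1, pK2⟩ := pair_one hB hK hK''
  rw [Matrix.transpose_neg, neg_neg] at pK2
  have hhalf : ((1 / 2 : ℝ) : ℂ) ∈ Lens := real_mem_Lens (by norm_num) (by norm_num)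
  -- solutions at one, as functions of `z`
  set Z : ℂ → Matrix (Fin n) (Fin n) ℂ := fun z => Yf (-B) K (1 - z) with hZ
  set Z' : ℂ → Matrix (Fin n) (Fin n) ℂ := fun z => Yf B.transpose K' (1 - z) with hZ'
  have hYd : ∀ z ∈ Lens, HD (Yf A H) (Gm A B z * Yf A H z) z := fun z hz =>
    Yf_ode hH hA (mem_Lens.1 hz).1 (slit_Lens hz)
  have hYd' : ∀ z ∈ Lens, HD (Yf (-A.transpose) H') (-(Gm A B z).transpose * Yf (-A.transpose) H' z) z := by
    intro z hz
    have h1 := Yf_ode hH' hA' (mem_Lens.1 hz).1 (slit_Lens hz)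
    rw [Gm_dual] at h1
    exact h1
  have hsub : ∀ z : ℂ, HasDerivAt (fun w : ℂ => 1 - w) (-1) z := fun z => by
    simpa using (hasDerivAt_id z).const_sub 1
  have hZd : ∀ z ∈ Lens, HD Z (Gm A B z * Z z) z := by
    intro z hz
    have hz' := symm_Lens hz
    have h1 := Yf_ode hK hB (mem_Lens.1 hz').1 (slit_Lens hz')
    refine (h1.comp (hsub z)).congr ?_
    rw [hZ, ← smul_mul_assoc]
    congr 1
    unfold Gm
    rw [sub_sub_cancel, smul_neg, smul_neg]
    rw [← neg_add, neg_smul, one_smul, neg_neg, add_comm]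
  have hZd' : ∀ z ∈ Lens, HD Z' (-(Gm A B z).transpose * Z' z) z := by
    intro z hz
    have hz' := symm_Lens hz
    have h1 := Yf_ode hK' hB' (mem_Lens.1 hz').1 (slit_Lens hz')
    refine (h1.comp (hsub z)).congr ?_
    rw [hZ', ← smul_mul_assoc]
    congr 1
    unfold Gm
    rw [sub_sub_cancel, Matrix.transpose_add, Matrix.transpose_smul, Matrix.transpose_smul, neg_smul, one_smul, add_comm]
  -- the connection matrices
  set M := (Z' ((1 / 2 : ℝ) : ℂ)).transpose * Yf A H ((1 / 2 : ℝ) : ℂ) with hM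
  set M' := (Z ((1 / 2 : ℝ) : ℂ)).transpose * Yf (-A.transpose) H' ((1 / 2 : ℝ) : ℂ) with hM'
  have hMc : ∀ z ∈ Lens, (Z' z).transpose * Yf A H z = M := fun z hz =>
    const_Lens (F := fun z => (Z' z).transpose * Yf A H z) (fun x hx => pair_dual (hZd' x hx) (hYd x hx)) hz hhalf
  have hMc' : ∀ z ∈ Lens, (Z z).transpose * Yf (-A.transpose) H' z = M' := by
    intro z hz
    refine const_Lens (F := fun z => (Z z).transpose * Yf (-A.transpose) H' z) (fun x hx => ?_) hz hhalf
    refine pair_dual (G := -(Gm A B x).transpose) ?_ (hYd' x hx)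
    rw [Matrix.transpose_neg, Matrix.transpose_transpose, neg_neg]
    exact hZd x hx
  have hZZ : ∀ z ∈ Lens, (Z' z).transpose * Z z = 1 := fun z hz => pK2 _ (symm_Lens hz)
  have hZZ' : ∀ z ∈ Lens, Z z * (Z' z).transpose = 1 := fun z hz => mul_eq_one_comm.1 (hZZ z hz)
  have hZZ'' : ∀ z ∈ Lens, Z' z * (Z z).transpose = 1 := by
    intro z hz
    have h1 := congrArg Matrix.transpose (hZZ' z hz)
    rwa [Matrix.transpose_mul, Matrix.transpose_transpose, Matrix.transpose_one] at h1
  have hcon : ∀ z ∈ Lens, Yf A H z = Z z * M := by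
    intro z hz
    rw [← hMc z hz, ← Matrix.mul_assoc, hZZ' z hz, one_mul]
  have hcon' : ∀ z ∈ Lens, Yf (-A.transpose) H' z = Z' z * M' := by
    intro z hz
    rw [← hMc' z hz, ← Matrix.mul_assoc, hZZ'' z hz, one_mul]
  have hMM : M'.transpose * M = 1 := by
    have h1 := pH2 _ hhalf
    rw [hcon _ hhalf, hcon' _ hhalf, Matrix.transpose_mul] at h1
    calc M'.transpose * M = M'.transpose * ((Z' ((1 / 2 : ℝ) : ℂ)).transpose * Z ((1 / 2 : ℝ) : ℂ)) * M := by
          rw [hZZ _ hhalf, mul_one]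
      _ = M'.transpose * (Z' ((1 / 2 : ℝ) : ℂ)).transpose * (Z ((1 / 2 : ℝ) : ℂ) * M) := by
          simp only [Matrix.mul_assoc]
      _ = 1 := h1
  refine ⟨H', K, K', M, M'.transpose, ⟨hH, hH', hK, hK', mul_eq_one_comm.1 hMM, hMM, pH1, pK1, hcon, ?_⟩⟩
  rw [Matrix.transpose_transpose]
  exact hcon'

end Pool.Agent.Run7.h225.HG
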