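import Pool.Agent.Run7.h225.HG.Two
import Pool.Agent.Run7.h225.HG.Iface4

/-!
# Connection data for complex reflections: existence, conjugation, duality
-/

set_option autoImplicit false

open Matrix
open Pool.Agent.Y119.HZ
open Pool.Agent.Y119.HY (Am Jm Bm Hq cm E Hf Hc Yf Gal Sol PG Lens ps cm_mul cm_add ec uc Ac_ec Ac_last
  cm_zero cm_one cm_transpose cm_apply Ac_nil mem_Lens symm_Lens Jm_rel conj_E)
open Run7.h893.HO

namespace Pool.Agent.Run7.h225.HG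

variable {n : ℕ} {Q : Polynomial ℚ} {s : ℚ}

lemma PG_conj {K : ℕ → Matrix (Fin n) (Fin n) ℂ} (hg : ∀ i j, PG fun k => K k i j) (U V : Matrix (Fin n) (Fin n) ℂ)
    (i j : Fin n) : PG fun k => (U * K k * V) i j := by
  have h1 : ∀ (i j : Fin n), PG fun k => (U * K k) i j := by
    intro i j
    simp only [Matrix.mul_apply]
    exact PG.sum _ fun l _ => (hg l j).smul _
  simp only [Matrix.mul_apply (M := U * _) (N := V), mul_comm _ (V _ j)]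
  exact PG.sum _ fun l _ => (h1 i l).smul _

variable {A B : Matrix (Fin n) (Fin n) ℂ} {H H' K K' : ℕ → Matrix (Fin n) (Fin n) ℂ} {M Mi : Matrix (Fin n) (Fin n) ℂ}

lemma conj_one_add {U V : Matrix (Fin n) (Fin n) ℂ} (hUV : U * V = 1) (a b : ℂ) (X : Matrix (Fin n) (Fin n) ℂ) :
    1 + a • (b • (U * X * V)) = U * (1 + a • (b • X)) * V := by
  rw [mul_add, mul_one, add_mul, hUV]
  simp only [Matrix.mul_smul, Matrix.smul_mul]

/-- conjugation -/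
theorem CR.conj (h : CR s A B H H' K K' M Mi) (hA : A ^ n = 0) {U V : Matrix (Fin n) (Fin n) ℂ}
    (hUV : U * V = 1) (hVU : V * U = 1) :
    CR s (U * A * V) (U * B * V) (fun k => U * H k * V) (fun k => V.transpose * H' k * U.transpose)
      (fun k => U * K k * V) (fun k => V.transpose * K' k * U.transpose) (U * M * V) (U * Mi * V) := by
  have hUV' : V.transpose * U.transpose = 1 := by rw [← Matrix.transpose_mul, hUV, Matrix.transpose_one]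
  have hVU' : U.transpose * V.transpose = 1 := by rw [← Matrix.transpose_mul, hVU, Matrix.transpose_one]
  have hgH := h.hH.growth hA
  have hgH' := h.hH'.growth (nilT hA)
  have eT : ∀ X : Matrix (Fin n) (Fin n) ℂ, (U * X * V).transpose = V.transpose * X.transpose * U.transpose := by
    intro X
    rw [Matrix.transpose_mul, Matrix.transpose_mul, Matrix.mul_assoc]
  have eTn : ∀ X : Matrix (Fin n) (Fin n) ℂ, -(U * X * V).transpose = V.transpose * (-X.transpose) * U.transpose := by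
    intro X
    rw [eT, Matrix.mul_neg, Matrix.neg_mul]
  refine ⟨Sol_conj h.hH hUV hVU, ?_, PG_conj h.gK U V, PG_conj h.gK' _ _, ?_, ?_, ?_, ?_, ?_, ?_⟩
  · rw [eTn, eTn]
    exact Sol_conj h.hH' hUV' hVU'
  · calc U * M * V * (U * Mi * V) = U * (M * (V * U) * Mi) * V := by simp only [Matrix.mul_assoc]
      _ = 1 := by rw [hVU, mul_one, h.l, mul_one, hUV]
  · calc U * Mi * V * (U * M * V) = U * (Mi * (V * U) * M) * V := by simp only [Matrix.mul_assoc]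
      _ = 1 := by rw [hVU, mul_one, h.r, mul_one, hUV]
  · intro z hz
    have hz' : ‖z‖ < 1 := by rwa [Metric.mem_ball, dist_zero_right] at hz
    rw [Hf_conj hgH' _ _ hz', Hf_conj hgH _ _ hz', Matrix.transpose_mul, Matrix.transpose_mul, Matrix.transpose_transpose,
      Matrix.transpose_transpose]
    calc U * ((Hf H' z).transpose * V) * (U * Hf H z * V) = U * ((Hf H' z).transpose * (V * U) * Hf H z) * V := by
          simp only [Matrix.mul_assoc]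
      _ = 1 := by rw [hVU, mul_one, h.iH z hz, mul_one, hUV]
  · intro z hz
    have hz' : ‖z‖ < 1 := by rwa [Metric.mem_ball, dist_zero_right] at hz
    rw [Hf_conj h.gK' _ _ hz', Hf_conj h.gK _ _ hz', Matrix.transpose_mul, Matrix.transpose_mul,
      Matrix.transpose_transpose, Matrix.transpose_transpose]
    calc U * ((Hf K' z).transpose * V) * (U * Hf K z * V) = U * ((Hf K' z).transpose * (V * U) * Hf K z) * V := by
          simp only [Matrix.mul_assoc]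
      _ = 1 := by rw [hVU, mul_one, h.iK z hz, mul_one, hUV]
  · intro z hz
    rw [Yf_conj hgH hUV hVU (mem_Lens.1 hz).1, Hf_conj h.gK _ _ (mem_Lens.1 (symm_Lens hz)).1, h.con z hz,
      conj_one_add hUV]
    set X := 1 + (Complex.exp (-(s : ℂ) * Complex.log (1 - z)) - 1) • ((s : ℂ)⁻¹ • B)
    calc U * (Hf K (1 - z) * X * M) * V = U * Hf K (1 - z) * (1 * X) * (1 * M) * V := by
          rw [one_mul, one_mul]
          simp only [Matrix.mul_assoc]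
      _ = _ := by
        rw [← hVU]
        simp only [Matrix.mul_assoc]
  · intro z hz
    rw [eTn, eT, eT, Yf_conj hgH' hUV' hVU' (mem_Lens.1 hz).1, Hf_conj h.gK' _ _ (mem_Lens.1 (symm_Lens hz)).1,
      h.con' z hz, conj_one_add hUV']
    set X := 1 + (Complex.exp ((s : ℂ) * Complex.log (1 - z)) - 1) • ((s : ℂ)⁻¹ • B.transpose)
    calc V.transpose * (Hf K' (1 - z) * X * Mi.transpose) * U.transpose =
          V.transpose * Hf K' (1 - z) * (1 * X) * (1 * Mi.transpose) * U.transpose := by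
          rw [one_mul, one_mul]
          simp only [Matrix.mul_assoc]
      _ = _ := by
        rw [← hVU']
        simp only [Matrix.mul_assoc]

/-- the dual system -/
theorem CR.dual (h : CR s A B H H' K K' M Mi) :
    CR (-s) (-A.transpose) (-B.transpose) H' H K' K Mi.transpose M.transpose := by
  have es : (((-s : ℚ) : ℂ))⁻¹ = -(s : ℂ)⁻¹ := by
    rw [Rat.cast_neg, inv_neg]
  refine ⟨h.hH', ?_, h.gK', h.gK, ?_, ?_, ?_, ?_, ?_, ?_⟩
  · rw [Matrix.transpose_neg, Matrix.transpose_neg, Matrix.transpose_transpose, Matrix.transpose_transpose, neg_neg, neg_neg]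
    exact h.hH
  · rw [← Matrix.transpose_mul, h.l, Matrix.transpose_one]
  · rw [← Matrix.transpose_mul, h.r, Matrix.transpose_one]
  · intro z hz
    have h1 := congrArg Matrix.transpose (mul_eq_one_comm.1 (h.iH z hz))
    rw [Matrix.transpose_mul, Matrix.transpose_transpose, Matrix.transpose_one] at h1
    exact mul_eq_one_comm.1 h1
  · intro z hz
    have h1 := congrArg Matrix.transpose (mul_eq_one_comm.1 (h.iK z hz))
    rw [Matrix.transpose_mul, Matrix.transpose_transpose, Matrix.transpose_one] at h1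
    exact mul_eq_one_comm.1 h1
  · intro z hz
    rw [es, Rat.cast_neg, neg_neg, neg_smul_neg]
    exact h.con' z hz
  · intro z hz
    rw [es, Matrix.transpose_neg, Matrix.transpose_neg, Matrix.transpose_transpose, Matrix.transpose_transpose, neg_neg,
      neg_smul_neg, Matrix.transpose_transpose, Rat.cast_neg]
    exact h.con z hz

/-- existence -/
theorem CR_exists (hQ : QG n Q) (htr : ∀ a : ℤ, (a : ℚ) ≠ Q.coeff (n - 1)) :
    ∃ (H' K K' : ℕ → Matrix (Fin n) (Fin n) ℂ) (M Mi : Matrix (Fin n) (Fin n) ℂ),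
      CR (Q.coeff (n - 1)) (cm (Am n)) (cm (Bm n Q)) (Hc n Q) H' K K' M Mi := by
  have hn := hQ.two
  obtain ⟨H', K, K', M, Mi, hH', hK, hK', hl, hr, hi, hcon, hcon', -, -⟩ :=
    LOCC.locc n (Q.coeff (n - 1)) htr (cm (Am n)) (cm (Bm n Q)) (Hc n Q) Ac_nil (Bm_sq (by omega)) (sol_c_g hQ)
  exact ⟨H', K, K', M, Mi, sol_c_g hQ, hH', hK, hK', hl, hr, fun z hz => (hi z hz).1, fun z hz => (hi z hz).2, hcon, hcon'⟩

/-- the projection to the eigenvector at `1` in the basis at `0` -/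
noncomputable def PP (Q : Polynomial ℚ) (s : ℚ) (M Mi : Matrix (Fin n) (Fin n) ℂ) : Matrix (Fin n) (Fin n) ℂ :=
  Mi * ((s : ℂ)⁻¹ • cm (Bm n Q)) * M

lemma PP_vec (Q : Polynomial ℚ) (s : ℚ) (M Mi : Matrix (Fin n) (Fin n) ℂ) :
    PP Q s M Mi = vecMulVec (Mi *ᵥ uc n) (((s : ℂ)⁻¹ • bb n Q) ᵥ* M) := by
  unfold PP
  rw [Bm_vec, ← Matrix.vecMulVec_smul, mul_vecMulVec, vecMulVec_mul]

/-- the functional and the vector of the reflection at `1` -/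
theorem refl_facts' (hQ : QG n Q) (hQ' : QG n (dq n Q)) (hs : Q.coeff (n - 1) = s) (hs0 : s ≠ 0)
    (h : CR s (cm (Am n)) (cm (Bm n Q)) (Hc n Q) H' K K' M Mi) :
    (((s : ℂ)⁻¹ • bb n Q) ᵥ* M) ⬝ᵥ (Mi *ᵥ uc n) = 1 ∧
      (((s : ℂ)⁻¹ • bb n Q) ᵥ* M) ⬝ᵥ ((cm (Am n) ^ (n - 1)) *ᵥ (Mi *ᵥ uc n)) ≠ 0 := by
  have hn := hQ.two
  have hs0' : (s : ℂ) ≠ 0 := by exact_mod_cast hs0
  have hm : (((s : ℂ)⁻¹ • bb n Q) ᵥ* M) ⬝ᵥ ec n ≠ 0 := by
    refine mu_ne hQ h.gK (σ := fun z => Complex.exp (-(s : ℂ) * Complex.log (1 - z)) - 1) fun z hz => ?_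
    rw [h.con z hz, Bm_vec, Matrix.vecMulVec_smul]
  have hv : uc n ⬝ᵥ (Mi *ᵥ uc n) ≠ 0 := by
    refine v_ne hQ hQ' h.hH' h.gK' (b := (s : ℂ)⁻¹ • bb n Q) (σ := fun z => Complex.exp ((s : ℂ) * Complex.log (1 - z)) - 1)
      fun z hz => ?_
    rw [h.con' z hz, Bm_vec, transpose_vecMulVec, Matrix.smul_vecMulVec]
  refine ⟨?_, ?_⟩
  · rw [← dotProduct_mulVec, Matrix.mulVec_mulVec, h.l, one_mulVec, smul_dotProduct, bb_uc (by omega), hs, smul_eq_mul,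
      inv_mul_cancel₀ hs0']
  · rw [Ac_last hn, dotProduct_smul, smul_eq_mul]
    refine mul_ne_zero ?_ hm
    have h1 : uc n ⬝ᵥ (Mi *ᵥ uc n) = (Mi *ᵥ uc n) ⟨n - 1, by omega⟩ := by
      unfold dotProduct
      rw [Finset.sum_eq_single (⟨n - 1, by omega⟩ : Fin n)]
      · unfold uc
        rw [if_pos (by simp only; omega), one_mul]
      · intro b _ hb
        unfold uc
        rw [if_neg, zero_mul]
        intro h'
        exact hb (Fin.ext (by simp only; omega))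
      · intro h'
        exact absurd (Finset.mem_univ _) h'
    rwa [h1] at hv

lemma RatEq.symm {Q₁ Q₂ : Polynomial ℚ} (h : RatEq Q₁ Q₂) : RatEq Q₂ Q₁ := by
  obtain ⟨a, p, ha, hp, h⟩ := h
  refine ⟨p, a, hp, ha, ?_⟩
  linear_combination -h

/-- two families with the same function `q` have the same exponents modulo `ℤ` -/
theorem intwR_same (hINT : S_INTR) (hASY : S_ASY2) (hREC : S_REC) {Q₁ Q₂ : Polynomial ℚ} (hQ₁ : QG n Q₁)
    (hQ₁' : QG n (dq n Q₁)) (hQ₂ : QG n Q₂) (hQ₂' : QG n (dq n Q₂)) {s₁ s₂ : ℚ} {m : ℤ} (hs : s₁ = s₂ + m)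
    (ht₁ : Q₁.coeff (n - 1) = s₁) (ht₂ : Q₂.coeff (n - 1) = s₂) (h1 : s₁ ≠ 0) (h2 : s₂ ≠ 0)
    {H₁' K₁ K₁' H₂' K₂ K₂' : ℕ → Matrix (Fin n) (Fin n) ℂ} {M₁ Mi₁ M₂ Mi₂ : Matrix (Fin n) (Fin n) ℂ}
    (h₁ : CR s₁ (cm (Am n)) (cm (Bm n Q₁)) (Hc n Q₁) H₁' K₁ K₁' M₁ Mi₁)
    (h₂ : CR s₂ (cm (Am n)) (cm (Bm n Q₂)) (Hc n Q₂) H₂' K₂ K₂' M₂ Mi₂)
    (hq : ∀ x, (E (cm (Am n)) x * PP Q₁ s₁ M₁ Mi₁).trace = (E (cm (Am n)) x * PP Q₂ s₂ M₂ Mi₂).trace) : RatEq Q₁ Q₂ := by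
  obtain ⟨-, f₁⟩ := refl_facts' hQ₁ hQ₁' ht₁ h1 h₁
  obtain ⟨-, f₂⟩ := refl_facts' hQ₂ hQ₂' ht₂ h2 h₂
  have hne : ∀ {v μ : Fin n → ℂ}, μ ⬝ᵥ ((cm (Am n) ^ (n - 1)) *ᵥ v) ≠ 0 → (cm (Am n) ^ (n - 1)) *ᵥ v ≠ 0 := by
    intro v μ h h0
    rw [h0, dotProduct_zero] at h
    exact h rfl
  obtain ⟨g, gi, hg1, hg2, hg3, hg4⟩ := exists_g (by have := hQ₁.two; omega) Ac_nil (hne f₁) (hne f₂)
    (μ₁ := ((s₁ : ℂ)⁻¹ • bb n Q₁) ᵥ* M₁) (μ₂ := ((s₂ : ℂ)⁻¹ • bb n Q₂) ᵥ* M₂) fun x => by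
      rw [qf_trace, qf_trace, ← PP_vec, ← PP_vec]
      exact hq x
  have e₁ := PP_vec Q₁ s₁ M₁ Mi₁
  have e₂ := PP_vec Q₂ s₂ M₂ Mi₂
  have key : g * PP Q₁ s₁ M₁ Mi₁ = PP Q₂ s₂ M₂ Mi₂ * g := by
    rw [e₁, e₂, mul_vecMulVec, vecMulVec_mul, hg3, hg4]
  rcases le_total 0 m with hm | hm
  · obtain ⟨k, rfl⟩ := Int.eq_ofNat_of_zero_le hm
    exact hINT hASY hREC n Q₁ Q₂ hQ₁ hQ₂ s₁ s₂ k ht₁ ht₂ (by rw [hs]; push_cast; rfl) h1 h2 H₁' K₁ K₁' H₂' K₂ K₂' M₁ Mi₁ M₂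
      Mi₂ g gi h₁ h₂ hg1 hg2 key
  · obtain ⟨k, hk⟩ := Int.eq_ofNat_of_zero_le (neg_nonneg.2 hm)
    have hg1' : gi * g = 1 := mul_eq_one_comm.1 hg1
    refine (hINT hASY hREC n Q₂ Q₁ hQ₂ hQ₁ s₂ s₁ k ht₂ ht₁ ?_ h2 h1 H₂' K₂ K₂' H₁' K₁ K₁' M₂ Mi₂ M₁
      Mi₁ gi g h₂ h₁ hg1' ?_ ?_).symm
    · have e : (m : ℚ) = -(k : ℚ) := by
        have : m = -(k : ℤ) := by omega
        rw [this]
        push_cast
        rfl
      rw [hs, e]
      ring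
    · calc cm (Am n) * gi = gi * g * (cm (Am n) * gi) := by rw [hg1', one_mul]
        _ = gi * (g * cm (Am n)) * gi := by simp only [Matrix.mul_assoc]
        _ = gi * (cm (Am n) * g) * gi := by rw [hg2]
        _ = gi * cm (Am n) * (g * gi) := by simp only [Matrix.mul_assoc]
        _ = _ := by rw [hg1, mul_one]
    · show gi * PP Q₂ s₂ M₂ Mi₂ = PP Q₁ s₁ M₁ Mi₁ * gi
      calc gi * PP Q₂ s₂ M₂ Mi₂ = gi * (PP Q₂ s₂ M₂ Mi₂ * (g * gi)) := by rw [hg1, mul_one]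
        _ = gi * (PP Q₂ s₂ M₂ Mi₂ * g) * gi := by simp only [Matrix.mul_assoc]
        _ = gi * (g * PP Q₁ s₁ M₁ Mi₁) * gi := by rw [key]
        _ = gi * g * PP Q₁ s₁ M₁ Mi₁ * gi := by simp only [Matrix.mul_assoc]
        _ = _ := by rw [hg1', one_mul]

/-- the connection data of the dual family -/
theorem CR_dq (hQ : QG n Q) (hQ' : QG n (dq n Q)) (h : CR s (cm (Am n)) (cm (Bm n Q)) (Hc n Q) H' K K' M Mi) :
    ∃ (H2 K2 K3 : ℕ → Matrix (Fin n) (Fin n) ℂ), CR (-s) (cm (Am n)) (cm (Bm n (dq n Q))) (Hc n (dq n Q)) H2 K2 K3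
      (Ui n Q * Mi.transpose * (cm (Jm n Q)).transpose) (Ui n Q * M.transpose * (cm (Jm n Q)).transpose) := by
  have hn := hQ.two
  have hJ := DUAL.Jdet hQ
  have h1 := h.dual.conj (nilT Ac_nil) (Ui_mul hJ) (mul_Ui hJ)
  rw [Ui_A hJ, Ui_B hJ (by omega), dual_Hc hQ hQ' h.hH'] at h1
  exact ⟨_, _, _, h1⟩

lemma dq_co (hn : 1 ≤ n) (hs : Q.coeff (n - 1) = s) : (dq n Q).coeff (n - 1) = -s := by
  rw [DUAL.dq_coeff, hs]
  obtain ⟨m, rfl⟩ : ∃ m, n = m + 1 := ⟨n - 1, by omega⟩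
  have h1 : ((-1 : ℚ) ^ m) * (-1) ^ m = 1 := by rw [← pow_add, Even.neg_one_pow ⟨_, rfl⟩]
  rw [Nat.add_sub_cancel, pow_succ]
  linear_combination (-s) * h1

/-- the function `q` of the dual family -/
lemma q_dualR (hQ : QG n Q) (s : ℚ) (M Mi : Matrix (Fin n) (Fin n) ℂ) (x : ℂ) :
    (E (cm (Am n)) x * PP (dq n Q) (-s) (Ui n Q * Mi.transpose * (cm (Jm n Q)).transpose)
      (Ui n Q * M.transpose * (cm (Jm n Q)).transpose)).trace = (E (cm (Am n)) (-x) * PP Q s M Mi).trace := by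
  have e : ∀ (P : Polynomial ℚ) (t : ℚ) (M Mi : Matrix (Fin n) (Fin n) ℂ), PP P t M Mi = (t : ℂ)⁻¹ • XX P M Mi := by
    intro P t M Mi
    unfold PP XX
    rw [Matrix.mul_smul, Matrix.smul_mul]
  rw [e, e, Matrix.mul_smul, Matrix.mul_smul, Matrix.trace_smul, Matrix.trace_smul, q_dual hQ, Rat.cast_neg, inv_neg,
    smul_eq_mul, smul_eq_mul]
  ring

/-- two families with `q₁(x) = q₂(-x)` have dual exponents modulo `ℤ` -/
theorem intwR_dual (hINT : S_INTR) (hASY : S_ASY2) (hREC : S_REC) {Q₁ Q₂ : Polynomial ℚ} (hQ₁ : QG n Q₁)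
    (hQ₁' : QG n (dq n Q₁)) (hQ₂ : QG n Q₂) (hQ₂' : QG n (dq n Q₂)) {s₁ s₂ : ℚ} {m : ℤ} (hs : s₁ + s₂ = m)
    (ht₁ : Q₁.coeff (n - 1) = s₁) (ht₂ : Q₂.coeff (n - 1) = s₂) (h1 : s₁ ≠ 0) (h2 : s₂ ≠ 0)
    {H₁' K₁ K₁' H₂' K₂ K₂' : ℕ → Matrix (Fin n) (Fin n) ℂ} {M₁ Mi₁ M₂ Mi₂ : Matrix (Fin n) (Fin n) ℂ}
    (h₁ : CR s₁ (cm (Am n)) (cm (Bm n Q₁)) (Hc n Q₁) H₁' K₁ K₁' M₁ Mi₁)
    (h₂ : CR s₂ (cm (Am n)) (cm (Bm n Q₂)) (Hc n Q₂) H₂' K₂ K₂' M₂ Mi₂)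
    (hq : ∀ x, (E (cm (Am n)) x * PP Q₁ s₁ M₁ Mi₁).trace = (E (cm (Am n)) (-x) * PP Q₂ s₂ M₂ Mi₂).trace) :
    RatEq Q₁ (dq n Q₂) := by
  obtain ⟨H2, K2, K3, h₃⟩ := CR_dq hQ₂ hQ₂' h₂
  have hn := hQ₁.two
  refine intwR_same hINT hASY hREC hQ₁ hQ₁' hQ₂' (by rw [dq_dq]; exact hQ₂) (s₂ := -s₂) (m := m) ?_ ht₁ (dq_co (by omega) ht₂)
    h1 (neg_ne_zero.2 h2) h₁ h₃ fun x => ?_
  · rw [← hs]
    ring
  · rw [q_dualR hQ₂, hq]

end Pool.Agent.Run7.h225.HG
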