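import Pool.Agent.Run7.h225.HG.Iface5

/-!
# GFS: the entries of the holomorphic part of a general system are a family of G-functions

From the proof of `p_SYS1` (helper209); adapted by helper419.
-/

set_option autoImplicit false

open PowerSeries Matrix
open Pool.Agent.Y113 hiding Bm
open Pool.Agent.Y120.GF Pool.Agent.Y120.GH Pool.Agent.Y119.HZ
open Pool.Agent.Y119.HY (cm E Hf Yf Rel Gal Sol)

namespace Pool.Agent.Run7.h225.HG

/-- **GFS** -/
theorem p_GFS : S_GFS := by
  intro n N B H W h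
  obtain ⟨N', hN'⟩ := h.int
  obtain ⟨D, b, hD, hb⟩ := SYS1.exists_bg B
  obtain ⟨q, C, hG⟩ := gsysL (N := N) h.nil h.inv (SYS1.ode_int_s h hN' hb) h.sH h.sW
  have hG' := hG.reindex (ix n)
  have hT : Polynomial.X * T1 D ≠ 0 := by
    refine mul_ne_zero Polynomial.X_ne_zero (mul_ne_zero (Polynomial.C_ne_zero.2 (by exact_mod_cast hD)) ?_)
    intro h0
    have := congrArg (Polynomial.eval 0) h0
    simp at this
  refine ⟨Polynomial.X * T1 D, fun a c => SYS1.A2g n D N' b (ix n a) (ix n c), hT, fun i => ?_, ⟨C, hG'.size⟩,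
    ⟨q, C, hG'⟩, SYS1.qu_s h hN' hb⟩
  have h1 := SYS1.ode_A2_s h hN' hb (ix n i)
  have h2 : ∑ j : Fin (n * n), ps (SYS1.A2g n D N' b (ix n i) (ix n j)) * hfg H j =
      ∑ q, ps (SYS1.A2g n D N' b (ix n i) q) * H q.1 q.2 :=
    Equiv.sum_comp (ix n) fun q => ps (SYS1.A2g n D N' b (ix n i) q) * H q.1 q.2
  exact h1.trans h2.symm

end Pool.Agent.Run7.h225.HG
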