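import Pool.Agent.Run7.h225.HG.Iface

/-!
# Interface of the project HYG, second part: systems, connection, determinant, duality

The pieces here use the library `Pool.Agent.Y119.HY` / `Pool.Agent.Y119.HZ` (files `Pool/Agent/Y119/HY/*.lean`) and
`Pool/Agent/Run7/h893/HO/*.lean`.
-/

set_option autoImplicit false

open PowerSeries Matrix
open Pool.Agent.Y113 hiding Bm
open Pool.Agent.Y120.GF Pool.Agent.Y120.GH Pool.Agent.Y119.HZ
open Pool.Agent.Y119.HY (Am Jm Bm Hq cm E Hf Hc Yf Vr Rel Gal Sol PG Lens)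

namespace Pool.Agent.Run7.h225.HG

/-- A fundamental solution `H z^N` over `ℚ` of the system `z Y' = (N + z / (1 - z) B) Y`, `N` nilpotent with integral
entries, with the inverse matrix `W`, and the arithmetic properties of the coefficients. -/
structure Sys (n : ℕ) (N B : Matrix (Fin n) (Fin n) ℚ) (H W : Matrix (Fin n) (Fin n) ℚ⟦X⟧) : Prop where
  int : ∃ N' : Fin n → Fin n → ℤ, ∀ i j, N i j = N' i j
  nil : N ^ n = 0
  zero : cf H 0 = 1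
  step : ∀ k : ℕ, ((k : ℚ) + 1) • cf H (k + 1) + (cf H (k + 1) * N - N * cf H (k + 1)) =
    (k : ℚ) • cf H k + (cf H k * N - N * cf H k) + B * cf H k
  inv : H * W = 1
  sH : ∀ i j, SDc (H i j)
  sW : ∀ i j, SDc (W i j)

/-- the entries as a list -/
noncomputable def hfg {n : ℕ} (H : Matrix (Fin n) (Fin n) ℚ⟦X⟧) (a : Fin (n * n)) : ℚ⟦X⟧ := H (ix n a).1 (ix n a).2

/-- the coefficients over the complex numbers -/
noncomputable def Hcg {n : ℕ} (H : Matrix (Fin n) (Fin n) ℚ⟦X⟧) (k : ℕ) : Matrix (Fin n) (Fin n) ℂ := cm (cf H k)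

/-- the period matrix at `1 / t` -/
noncomputable def Ytg {n : ℕ} (N : Matrix (Fin n) (Fin n) ℚ) (H : Matrix (Fin n) (Fin n) ℚ⟦X⟧) (t : ℕ) :
    Matrix (Fin n) (Fin n) ℂ :=
  Hf (Hcg H) (((1 / (t : ℝ) : ℝ)) : ℂ) * E (cm N) (-((Real.log t : ℝ) : ℂ))

/-- **SYS1.** The hypothesis of the theorem on tuples for a general system. This is `hfam_hf_g` (`HO/Gen2.lean`) with
`Am n` replaced by `N`, `Bm n Q` by `B`, `Hp n Q` by `H`, `Hc n Q` by `Hcg H` (see there `ode_Hp_g`, `ode_int_g`, `gsys_Hp_g`,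
`ode_A2_g`, `Phi_ode_g`, `qu_hf_g`; the general tools are `gsysL` in `HY/GalL.lean`, `family_gsys`, `pE_deriv`, `pE_bound`,
`Ep_deriv` in `HY/Fam.lean`). In `A1`, `A2` (`HY/Inv.lean`, `HY/Fam.lean`) the numbers `Ni l j` are to be replaced by
the integral entries `N'` of `N` and the entries of `Am n` in `A1` likewise. -/
def S_SYS1 : Prop := ∀ (n : ℕ) (N B : Matrix (Fin n) (Fin n) ℚ) (H W : Matrix (Fin n) (Fin n) ℚ⟦X⟧), Sys n N B H W → ∀ δ : ℕ,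
  ∃ (B : Finset (Fin δ → Option (Fin (n * n)))) (a : Polynomial ℤ)
      (M : (Fin δ → Option (Fin (n * n))) → B → Polynomial ℤ), a ≠ 0 ∧
      (∀ b, ps a * yw (hfg H) b = ∑ β, ps (M b β) * yw (hfg H) β.1) ∧ One (XF δ fun β : B => yw (hfg H) β.1)

/-- **SYS2.** The theorem on tuples for general systems and general torsors `T i z`: the matrices `Y(x)⁻¹ X E(c)`, `X ∈ T(x)`,
preserve the relations between the entries of `Y`. This is `Run7.h893.HO.tuples_log` (`HO/Fam.lean`) with the same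
replacements (there `Fam.rel_inv`, `relI_vanish_g`; `ev_aeval_g`, `Cv_Hp_g` in `HO/Gen2.lean`, `ev_Hp`, `PR`, `ev_PR` in
`HY/Rl.lean`; `qe`, `E_qe`, `rp`, `sub`, `aeval_rp`, `aeval_sub`, `deg_sub` in `HY/Fin.lean` and `sub'`, `aeval_sub'`,
`deg_sub'`, `MV.mul_sub'`, `MV_ms'`, `aeval_MV'` in `HY/Fin2.lean` use the rational coefficients `qe` of `exp(-N L)` of
`Am n` and have to be copied for `N`). The condition `hT` replaces the invariance under the isometry group: with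
`g_i = Y(x)⁻¹ X E(c)`, `x = 1/t_i`, `c = l_i + log x`, and `κ = E(log x) g_i E(-log x)` one has `H(x) κ = X E(l_i)`. -/
def S_SYS2 : Prop := S_SYS1 → ∀ (k δ D : ℕ) (n : Fin k → ℕ) (N B : ∀ i, Matrix (Fin (n i)) (Fin (n i)) ℚ)
  (H W : ∀ i, Matrix (Fin (n i)) (Fin (n i)) ℚ⟦X⟧) (T : ∀ i, ℂ → Set (Matrix (Fin (n i)) (Fin (n i)) ℂ)),
  (∀ i, Sys (n i) (N i) (B i) (H i) (W i)) →
  (∀ i, ∀ x : ℝ, 0 < x → x < 1 → ∀ X ∈ T i x, ∀ c : ℂ, ∃ g ∈ Gal (Yf (cm (N i)) (Hcg (H i))),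
    Yf (cm (N i)) (Hcg (H i)) x * g = X * E (cm (N i)) c) →
    ∃ c C : ℝ, 0 < c ∧ 0 ≤ C ∧ ∀ (V : Submodule ℚ ℂ) [Module.Finite ℚ V], Module.finrank ℚ V ≤ D →
      ∀ Ω : (∀ i, Matrix (Fin (n i)) (Fin (n i)) ℂ), ∀ (x : Fin k → ℕ) (N' : ℕ), (∀ i, 1 ≤ x i) → 1 ≤ N' →
      ∀ S : Finset (Fin k → ℕ), (∀ t ∈ S, (∀ i, x i < t i ∧ t i ≤ x i + N') ∧ ∃ P : MvPolynomial (Jx n) ℂ,
        P.totalDegree ≤ δ ∧ (∀ s, P.coeff s ∈ V) ∧
        MvPolynomial.aeval (pw (fun i => ((Real.log (t i) : ℝ) : ℂ)) fun i => Ytg (N i) (H i) (t i) * Ω i) P = 0 ∧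
        ∃ (l : Fin k → ℂ) (g : ∀ i, Matrix (Fin (n i)) (Fin (n i)) ℂ),
          (∀ i, g i ∈ T i (((1 / (t i : ℝ) : ℝ)) : ℂ)) ∧
          MvPolynomial.aeval (pw l fun i => g i * Ω i) P ≠ 0) →
      (S.card : ℝ) ≤ C * (N' : ℝ) ^ (k - 1) * ∑ i, (1 + N' / ((x i : ℝ) + N') ^ c)

/-- **DET.** (Liouville.) The determinant of the fundamental solution of `Y' = (N0 / z + N1 / (1 - z)) Y` on `(0, 1)` is
`(1 - x)^(-tr N1)`. Proof: `Yf_ode` (`HY/Loc.lean`) and the derivative of the determinant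
(`(det Y)' = tr(G) det Y` if `Y' = G Y`; `tr N0 = 0` as `N0` is nilpotent), and `det Y → 1` for `x → 0`, because
`det (E N0 s) = 1` and `Hf H` is continuous at `0` with the value `1` (`Hf_an`, `Hf_zero`). -/
def S_DET : Prop := ∀ (n : ℕ) (N0 N1 : Matrix (Fin n) (Fin n) ℂ) (H : ℕ → Matrix (Fin n) (Fin n) ℂ), N0 ^ n = 0 →
  Sol N0 N1 H → ∀ x : ℝ, 0 < x → x < 1 →
  (Yf N0 H (x : ℂ)).det = Complex.exp (-N1.trace * (Real.log (1 - x) : ℝ)) ∧ ∀ c : ℂ, (E N0 c).det = 1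

/-- the dual polynomial -/
noncomputable def dq (n : ℕ) (Q : Polynomial ℚ) : Polynomial ℚ := Polynomial.C ((-1 : ℚ) ^ n) * Q.comp (-Polynomial.X)

/-- **DUAL.** The dual equation. `Jm n Q` is defined in `HY/Data.lean` for all `Q`; `Am^T J + J Am = 0` is `Jm_rel`;
`(Bm Q^∨)^T J + J Bm Q = 0` is a computation with entries: `(J B)_{ij} = J_{i,n-1} q_j = (-1)^i q_i q_j` and
`(B^∨^T J)_{ij} = q^∨_i J_{n-1,j} = (-1)^n (-1)^i q_i (-1)^(n-1) q_j`. The matrix `J` is zero above the antidiagonal and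
has the entries `± Q(0)` on it (`Jm_det` for even `Q` in `HY/Data.lean`). The last statement follows as
`form_Hp` in `HY/Inv.lean` (uniqueness: the coefficients of `Hp_{Q^∨}^T J Hp_Q` satisfy `k S + Am^T S + S Am = 0`). -/
def S_DUAL : Prop := ∀ (n : ℕ) (Q : Polynomial ℚ), Run7.h893.HO.QG n Q → Run7.h893.HO.QG n (dq n Q) →
  (Bm n (dq n Q)).transpose * Jm n Q + Jm n Q * Bm n Q = 0 ∧ (Jm n Q).det ≠ 0 ∧
  (Hp n (dq n Q)).transpose * km (Jm n Q) * Hp n Q = km (Jm n Q)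

/-- The data of the connection between `0` and `1` of the system `Y' = (A / z + B / (1 - z)) Y`: the local fundamental
solutions, those of the dual system and the connection matrix. -/
structure CD {n : ℕ} (A B : Matrix (Fin n) (Fin n) ℂ) (H H' K K' : ℕ → Matrix (Fin n) (Fin n) ℂ)
    (M Mi : Matrix (Fin n) (Fin n) ℂ) : Prop where
  hH : Sol A B H
  hH' : Sol (-A.transpose) (-B.transpose) H'
  hK : Sol (-B) (-A) K
  hK' : Sol B.transpose A.transpose K'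
  l : M * Mi = 1
  r : Mi * M = 1
  iH : ∀ z ∈ Metric.ball (0 : ℂ) 1, (Hf H' z).transpose * Hf H z = 1
  iK : ∀ z ∈ Metric.ball (0 : ℂ) 1, (Hf K' z).transpose * Hf K z = 1
  con : ∀ z ∈ Lens, Yf A H z = Yf (-B) K (1 - z) * M
  con' : ∀ z ∈ Lens, Yf (-A.transpose) H' z = Yf B.transpose K' (1 - z) * Mi.transpose

/-- **CON.** Connection between `0` and `1` for a unipotent monodromy at `1`.
Proof: `exists_sol` (`HY/Loc.lean`) gives `H'`, `K` and `K'`. As in `self_pair`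
(`HY/Main.lean`) the matrix `(Yf (-Aᵀ) H' z)ᵀ * Yf A H z` is constant on the lens and `1` by the value at `0`
(`pair_HD` has a form `J`; redo it for two different systems, or see it as a derivative of a product; the holomorphic parts
also satisfy `(Hf H' z)ᵀ * Hf H z = 1` on the unit disk by `PA.log_zero` or continuation, since
`E(-Aᵀ)(L)ᵀ E(A)(L) = 1`). The same for `K`. Then `M = (Yf (Bᵀ) K' (1 - z))ᵀ * Yf A H z` is constant on the lens (see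
`connect` in `HY/Main.lean`). -/
def S_CON : Prop := ∀ (n : ℕ) (A B : Matrix (Fin n) (Fin n) ℂ) (H : ℕ → Matrix (Fin n) (Fin n) ℂ), A ^ n = 0 →
  (-B) ^ n = 0 → Sol A B H → ∃ (H' K K' : ℕ → Matrix (Fin n) (Fin n) ℂ) (M Mi : Matrix (Fin n) (Fin n) ℂ),
  CD A B H H' K K' M Mi

/-- the polynomials `Q₁`, `Q₂` have the same roots modulo `ℤ` -/
def RatEq (Q₁ Q₂ : Polynomial ℚ) : Prop := ∃ s p : Polynomial ℂ, s ≠ 0 ∧ p ≠ 0 ∧
  Q₁.map (algebraMap ℚ ℂ) * s * p.comp (Polynomial.X + 1) = Q₂.map (algebraMap ℚ ℂ) * s.comp (Polynomial.X + 1) * p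

/-- **INT.** Intertwiners. If a matrix `g` which commutes with the monodromy at `0` maps the local monodromy at `1` of the
first system to that of the second one, then the exponents are the same modulo `ℤ`.

Proof. Let `Φ(z) = Hf H₂ z * g * (Hf H₁' z)ᵀ = Yf_2 g Yf_1⁻¹` and let `Φ_k` be the coefficients of the power series. The
recursion in ASY follows from `Sol` for `H₂` and `H₁'` and `A g = g A`. `Φ` is bounded on `(0, 1/2]` by continuity, and on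
`[1/2, 1)` as follows: `X_i = Mi_i B_i M_i`, `g X₁ = X₂ g` means `B₂ g' = g' B₁` for `g' = M₂ g Mi₁`, and
`Φ(z) = Yf (-B₂) K₂ (1-z) g' (Yf (B₁ᵀ) K₁' (1-z))ᵀ = Hf K₂ (1-z) (1 - ℓ B₂) g' (1 + ℓ B₁) (Hf K₁' (1-z))ᵀ
= Hf K₂ (1-z) g' (Hf K₁' (1-z))ᵀ` with `ℓ = log (1-z)`, as `B₁² = 0` (`(-B) ` has square zero because the trace of `B` is
zero, `B_ij = q_j` for `i = n - 1` and `0` otherwise). By ASY `Φ` is a polynomial. `Φ Hf H₁ = Hf H₂ g` and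
`g e₀ = c e₀`, `c ≠ 0`, (`e₀` spans the kernel of `A`) gives `∑_l Φ_l (H₁)_{k-l} e₀ = c (H₂)_k e₀`, whose first row is the
hypothesis of REC, since `(Hc n Q k) j 0 = k^j aseq n Q k`. -/
def S_INT : Prop := S_ASY → S_REC → ∀ (n : ℕ) (Q₁ Q₂ : Polynomial ℚ), Run7.h893.HO.QG n Q₁ → Run7.h893.HO.QG n Q₂ →
  Q₁.coeff (n - 1) = 0 → Q₂.coeff (n - 1) = 0 →
  ∀ (H₁' K₁ K₁' H₂' K₂ K₂' : ℕ → Matrix (Fin n) (Fin n) ℂ) (M₁ Mi₁ M₂ Mi₂ g gi : Matrix (Fin n) (Fin n) ℂ),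
  CD (cm (Am n)) (cm (Bm n Q₁)) (Hc n Q₁) H₁' K₁ K₁' M₁ Mi₁ → CD (cm (Am n)) (cm (Bm n Q₂)) (Hc n Q₂) H₂' K₂ K₂' M₂ Mi₂ →
  g * gi = 1 → cm (Am n) * g = g * cm (Am n) →
  g * (Mi₁ * cm (Bm n Q₁) * M₁) = (Mi₂ * cm (Bm n Q₂) * M₂) * g → RatEq Q₁ Q₂

/-- block diagonal matrices -/
noncomputable def blk {r : ℕ} (n : Fin r → ℕ) (R : Type) [CommRing R] :
    (∀ j, Matrix (Fin (n j)) (Fin (n j)) R) →+* Matrix (Fin (∑ j, n j)) (Fin (∑ j, n j)) R :=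
  (Matrix.reindexRingEquiv R (finSigmaFinEquiv (m := r) (n := n))).toRingHom.comp
    (Matrix.blockDiagonal'RingHom (fun j => Fin (n j)) R)

/-- **BLK.** Direct sums of systems. All statements are formal: `blk` is a ring homomorphism, compatible with maps of the
coefficients and with `ℕ`-indexed coefficients (`cf`, `cm`, `Hf`), and `E (blk N) c = blk (E (N j) c)` because `E` is the
exponential (`N j ^ n j = 0`, the sum in the definition of `E` for the larger size has only zero terms more); the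
statement on the conjugates is `conj_E`, the closedness is `Gal_closed` and the last one is `conj_mem_Gal` in
`HY/Main.lean` for the block diagonal `K`, `M`. -/
def S_BLK : Prop := ∀ (r : ℕ) (n : Fin r → ℕ) (N B : ∀ j, Matrix (Fin (n j)) (Fin (n j)) ℚ)
  (H W : ∀ j, Matrix (Fin (n j)) (Fin (n j)) ℚ⟦X⟧), (∀ j, Sys (n j) (N j) (B j) (H j) (W j)) →
  Sys (∑ j, n j) (blk n ℚ N) (blk n ℚ B) (blk n ℚ⟦X⟧ H) (blk n ℚ⟦X⟧ W) ∧
  (∀ z : ℂ, Yf (cm (blk n ℚ N)) (Hcg (blk n ℚ⟦X⟧ H)) z = blk n ℂ fun j => Yf (cm (N j)) (Hcg (H j)) z) ∧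
  (∀ c : ℂ, E (cm (blk n ℚ N)) c = blk n ℂ fun j => E (cm (N j)) c) ∧
  (∀ t : ℕ, Ytg (blk n ℚ N) (blk n ℚ⟦X⟧ H) t = blk n ℂ fun j => Ytg (N j) (H j) t) ∧
  (∀ (c : ℂ) (g : ∀ j, Matrix (Fin (n j)) (Fin (n j)) ℂ),
    blk n ℂ g ∈ Gal (Yf (cm (blk n ℚ N)) (Hcg (blk n ℚ⟦X⟧ H))) →
    blk n ℂ (fun j => E (cm (N j)) c * g j * E (cm (N j)) (-c)) ∈ Gal (Yf (cm (blk n ℚ N)) (Hcg (blk n ℚ⟦X⟧ H)))) ∧
  (∀ M : ∀ j, Matrix (Fin (n j)) (Fin (n j)) (Polynomial ℂ),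
    (∀ c : ℂ, c ≠ 0 → blk n ℂ (fun j => (M j).map (Polynomial.eval c)) ∈
      Gal (Yf (cm (blk n ℚ N)) (Hcg (blk n ℚ⟦X⟧ H)))) →
    blk n ℂ (fun j => (M j).map (Polynomial.eval 0)) ∈ Gal (Yf (cm (blk n ℚ N)) (Hcg (blk n ℚ⟦X⟧ H)))) ∧
  (∀ (K : ∀ j, ℕ → Matrix (Fin (n j)) (Fin (n j)) ℂ) (M Mi : ∀ j, Matrix (Fin (n j)) (Fin (n j)) ℂ),
    (∀ j, (-cm (B j)) ^ n j = 0) → (∀ j, Sol (-cm (B j)) (-cm (N j)) (K j)) → (∀ j, M j * Mi j = 1) →
    (∀ j, ∀ z ∈ Lens, Yf (cm (N j)) (Hcg (H j)) z = Yf (-cm (B j)) (K j) (1 - z) * M j) →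
    ∀ c : ℂ, blk n ℂ (fun j => Mi j * E (-cm (B j)) c * M j) ∈ Gal (Yf (cm (blk n ℚ N)) (Hcg (blk n ℚ⟦X⟧ H))))

/-- **LOCC.** The same for a semisimple residue at `1`: `B² = s B` with a rational number `s ∉ ℤ`, `P = B / s`. The
monodromy at `1` is the complex reflection `1 + (exp(-2πi s) - 1) Mi P M` and it preserves the relations.
Proof: `HO/Loc.lean` does this for `s = p / 2`, `p` odd; the only changes: in `half_bound` one needs
`|(k+1)² - s²| ≥ c (k+1)` with `c > 0` depending on the denominator of `s`, `Sf P (exp(-s log w))` instead of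
`exp(-p/2 log w)`, the coordinate `w = exp(-D u)` with the denominator `D` of `s` in `refl_mem_Gal`, and the translation by
`2πi/D` (or work with the coordinate `w = exp(-u)` on the right half plane and translate by `2πi`; then no denominator is
needed at all: `F(u) = P(1 - e^{-u}, log(1 - e^{-u}), Hf K (e^{-u}) Sf(e^{s u}) M)` vanishes for real `u > 0`, hence for
`Re u > 0`, and `u + 2πi` gives the factor `e^{2πi s}`). -/
def S_LOCC : Prop := ∀ (n : ℕ) (s : ℚ), (∀ a : ℤ, (a : ℚ) ≠ s) → ∀ (A B : Matrix (Fin n) (Fin n) ℂ)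
  (H : ℕ → Matrix (Fin n) (Fin n) ℂ), A ^ n = 0 → B * B = (s : ℂ) • B → Sol A B H →
  ∃ (H' K K' : ℕ → Matrix (Fin n) (Fin n) ℂ) (M Mi : Matrix (Fin n) (Fin n) ℂ),
  Sol (-A.transpose) (-B.transpose) H' ∧ (∀ i j, PG fun k => K k i j) ∧ (∀ i j, PG fun k => K' k i j) ∧ M * Mi = 1 ∧
  Mi * M = 1 ∧
  (∀ z ∈ Metric.ball (0 : ℂ) 1, (Hf H' z).transpose * Hf H z = 1 ∧ (Hf K' z).transpose * Hf K z = 1) ∧
  (∀ z ∈ Lens, Yf A H z = Hf K (1 - z) * (1 + (Complex.exp (-(s : ℂ) * Complex.log (1 - z)) - 1) • ((s : ℂ)⁻¹ • B)) * M) ∧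
  (∀ z ∈ Lens, Yf (-A.transpose) H' z =
    Hf K' (1 - z) * (1 + (Complex.exp ((s : ℂ) * Complex.log (1 - z)) - 1) • ((s : ℂ)⁻¹ • B.transpose)) * Mi.transpose) ∧
  (1 + (Complex.exp (2 * Real.pi * Complex.I * s) - 1) • (Mi * ((s : ℂ)⁻¹ • B) * M) ∈ Gal (Yf A H)) ∧
  (1 + (Complex.exp (-(2 * Real.pi * Complex.I * s)) - 1) • (Mi * ((s : ℂ)⁻¹ • B) * M) ∈ Gal (Yf A H))

/-- **REFL.** If the monodromy at `1` is a complex reflection `R = 1 + (ζ - 1) v ⊗ μ`, `μ(v) = 1`, `ζ² ≠ 1`, then all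
transvections preserve the relations.

Proof. For a matrix `X` let `D_X` be the derivation of the polynomials in `z, L, Y_ij` (`MvPolynomial (Vr n) ℂ`) with
`D_X z = D_X L = 0`, `D_X Y = Y X`, and let `𝔤` be the set of the `X` with `D_X P ∈ Rel Y` for all `P ∈ Rel Y`. Facts:
(a) `𝔤` is a linear subspace; (b) `g X g⁻¹ ∈ 𝔤` for `X ∈ 𝔤` and `g, g⁻¹ ∈ Gal Y` (use `sb 0 g P ∈ Rel` as in the proof of
`mul_mem'` for `Gal`); and `E(c) X E(-c) ∈ 𝔤` (use `mono_zero`, see the proof of `conj_E` in `HY/Main.lean`);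
(c) if the matrices `M(c)` of a polynomial family are in `Gal Y` for all `c` and `M(0) = 1`, then `M'(0) ∈ 𝔤`;
(d) for `X ∈ 𝔤` with `X² = 0` we have `1 + t X ∈ Gal Y` (`φ(t) = P(z, L, Y (1 + t X))` has
`φ'(t) = (D_X P)(z, L, Y (1 + t X))`, so all derivatives vanish at `t = 0`).
Let `P = v ⊗ μ`. By (c) for the family `E(c) R E(-c) R⁻¹` we get `X₁ = (A R - R A) R⁻¹ ∈ 𝔤`,
`X₁ = (1 - ζ⁻¹) (1 - P) A P - (ζ - 1) P A (1 - P)`. Conjugation by `R` multiplies `P X (1 - P)` by `ζ` and `(1 - P) X P` by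
`ζ⁻¹` and fixes the rest, `1, ζ, ζ⁻¹` are distinct, so `P X (1 - P), (1 - P) X P ∈ 𝔤` for all `X ∈ 𝔤`; in particular
`P A (1 - P) = v ⊗ ξ ∈ 𝔤`, `ξ = μ A - μ(A v) μ ≠ 0`. The same holds for `P_c = v^c ⊗ μ^c`, `v^c = E(c) v`, `μ^c = μ E(-c)`.
For `b ∈ ℂ` let `D_b` be the space of the `ξ` with `ξ(v^b) = 0`, `v^b ⊗ ξ ∈ 𝔤`. If `ξ ∈ D_b` and `μ^c(v^b) ≠ 0`, then
`π_c ξ = ξ - ξ(v^c) μ^c ∈ D_c` (from `P_c (v^b ⊗ ξ) (1 - P_c) = μ^c(v^b) v^c ⊗ π_c ξ`). If also `μ^b(v^c) ≠ 0`, then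
`π_b π_c ξ = ξ - ξ(v^c) (μ^c - μ^c(v^b) μ^b) ∈ D_b`. Take `0 ≠ ξ ∈ D_b`; `ξ(v^c) ≠ 0` for almost all `c`, so
`μ^c - μ^c(v^b) μ^b ∈ D_b` for almost all `c`, and these span the annihilator of `v^b` since the `μ^c` span the dual space. So
`1 + t v^b ⊗ ξ ∈ Gal Y` for all `ξ` with `ξ(v^b) = 0`, by (d). Now the argument of Step 2 of SLT with the roles of vectors
and functionals exchanged (the set of the `w` such that `1 + t w ⊗ ξ ∈ Gal Y` for all `t` and all `ξ` with `ξ(w) = 0` is a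
linear subspace which contains the `v^b`) gives all transvections. -/
def S_REFL : Prop := ∀ (n : ℕ) (N0 N1 : Matrix (Fin n) (Fin n) ℂ) (H : ℕ → Matrix (Fin n) (Fin n) ℂ) (v μ : Fin n → ℂ) (ζ : ℂ),
  2 ≤ n → N0 ^ n = 0 → Sol N0 N1 H → μ ⬝ᵥ v = 1 → μ ⬝ᵥ ((N0 ^ (n - 1)) *ᵥ v) ≠ 0 → ζ ≠ 0 → ζ ^ 2 ≠ 1 →
  1 + (ζ - 1) • vecMulVec v μ ∈ Gal (Yf N0 H) → 1 + (ζ⁻¹ - 1) • vecMulVec v μ ∈ Gal (Yf N0 H) →
  ∀ w ξ : Fin n → ℂ, ξ ⬝ᵥ w = 0 → 1 + vecMulVec w ξ ∈ Gal (Yf N0 H)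

end Pool.Agent.Run7.h225.HG
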