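import Pool.Agent.Run7.h225.HG.LieG
import Pool.Agent.Run7.h225.HG.Iface2

/-!
# Complex reflections of order larger than two: all transvections preserve the relations
-/

set_option autoImplicit false

open Filter Topology Matrix Pool.Agent.Y119.HY

namespace Pool.Agent.Run7.h225.HG.REFL

variable {n : ℕ} {N : Matrix (Fin n) (Fin n) ℂ} {v μ : Fin n → ℂ}

/-! ### the orbits -/

/-- `v^c = exp(c N) v` -/
noncomputable def vc (N : Matrix (Fin n) (Fin n) ℂ) (v : Fin n → ℂ) (c : ℂ) : Fin n → ℂ := E N c *ᵥ v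

/-- `μ^c = μ exp(-c N)` -/
noncomputable def mc (N : Matrix (Fin n) (Fin n) ℂ) (μ : Fin n → ℂ) (c : ℂ) : Fin n → ℂ := μ ᵥ* E N (-c)

lemma mc_vc (hN : N ^ n = 0) (c d : ℂ) : mc N μ c ⬝ᵥ vc N v d = qf N v μ (d - c) := by
  unfold mc vc qf
  rw [← dotProduct_mulVec, mulVec_mulVec, ← E_add hN, neg_add_eq_sub]

lemma E_mul_comm (hN : N ^ n = 0) (c : ℂ) : E N c * N = N * E N c := by
  unfold E
  rw [Finset.sum_mul, Finset.mul_sum]
  refine Finset.sum_congr rfl fun i _ => ?_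
  rw [smul_mul_assoc, mul_smul_comm, ← pow_succ, ← pow_succ']

lemma conj_vec (A B : Matrix (Fin n) (Fin n) ℂ) (x y : Fin n → ℂ) :
    A * vecMulVec x y * B = vecMulVec (A *ᵥ x) (y ᵥ* B) := by
  rw [mul_vecMulVec, vecMulVec_mul]

lemma E_transpose (N : Matrix (Fin n) (Fin n) ℂ) (c : ℂ) : (E N c).transpose = E N.transpose c := by
  unfold E
  rw [transpose_sum]
  refine Finset.sum_congr rfl fun i _ => ?_
  rw [transpose_smul, transpose_pow]

lemma mc_eq (c : ℂ) : mc N μ c = E N.transpose (-c) *ᵥ μ := by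
  unfold mc
  rw [← E_transpose, mulVec_transpose]

lemma nilT (hN : N ^ n = 0) : N.transpose ^ n = 0 := by rw [← transpose_pow, hN, transpose_zero]

lemma cycT (h : μ ⬝ᵥ ((N ^ (n - 1)) *ᵥ v) ≠ 0) : (N.transpose ^ (n - 1)) *ᵥ μ ≠ 0 := by
  intro h0
  apply h
  rw [dotProduct_mulVec, ← mulVec_transpose, transpose_pow, h0, zero_dotProduct]

lemma cycV (h : μ ⬝ᵥ ((N ^ (n - 1)) *ᵥ v) ≠ 0) : (N ^ (n - 1)) *ᵥ v ≠ 0 := by
  intro h0
  apply h
  rw [h0, dotProduct_zero]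

/-- functionals which vanish on the `v^c` -/
lemma span_v (hN : N ^ n = 0) (h : μ ⬝ᵥ ((N ^ (n - 1)) *ᵥ v) ≠ 0) {l : (Fin n → ℂ) →ₗ[ℂ] ℂ} (hl : ∀ c, l (vc N v c) = 0) :
    l = 0 := by
  by_contra h0
  exact pl_ne hN (cycV h) h0 (Polynomial.funext fun c => by rw [pl_eval, Polynomial.eval_zero]; exact hl c)

/-- functionals which vanish on the `μ^c` -/
lemma span_m (hN : N ^ n = 0) (h : μ ⬝ᵥ ((N ^ (n - 1)) *ᵥ v) ≠ 0) {l : (Fin n → ℂ) →ₗ[ℂ] ℂ} (hl : ∀ c, l (mc N μ c) = 0) :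
    l = 0 := by
  by_contra h0
  refine pl_ne (nilT hN) (cycT h) h0 (Polynomial.funext fun c => ?_)
  rw [pl_eval, Polynomial.eval_zero]
  have := hl (-c)
  rw [mc_eq, neg_neg] at this
  exact this

/-- dot product as a functional -/
noncomputable def dl (x : Fin n → ℂ) : (Fin n → ℂ) →ₗ[ℂ] ℂ where
  toFun := fun w => x ⬝ᵥ w
  map_add' := dotProduct_add x
  map_smul' := fun c w => by rw [dotProduct_smul]; rfl

/-- the functional `ξ ↦ f(x ⊗ ξ)` -/
noncomputable def fr (f : Matrix (Fin n) (Fin n) ℂ →ₗ[ℂ] ℂ) (x : Fin n → ℂ) : (Fin n → ℂ) →ₗ[ℂ] ℂ where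
  toFun := fun ξ => f (vecMulVec x ξ)
  map_add' := fun ξ η => by rw [vecMulVec_add, map_add]
  map_smul' := fun c ξ => by rw [vecMulVec_smul, map_smul]; rfl

/-- the functional `w ↦ f(w ⊗ ξ)` -/
noncomputable def fl (f : Matrix (Fin n) (Fin n) ℂ →ₗ[ℂ] ℂ) (ξ : Fin n → ℂ) : (Fin n → ℂ) →ₗ[ℂ] ℂ where
  toFun := fun w => f (vecMulVec w ξ)
  map_add' := fun w w' => by rw [add_vecMulVec, map_add]
  map_smul' := fun c w => by rw [smul_vecMulVec, map_smul]; rfl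

/-- membership by functionals -/
lemma mem_of_func (S : Submodule ℂ (Matrix (Fin n) (Fin n) ℂ)) {X : Matrix (Fin n) (Fin n) ℂ}
    (h : ∀ f : Matrix (Fin n) (Fin n) ℂ →ₗ[ℂ] ℂ, (∀ Z ∈ S, f Z = 0) → f X = 0) : X ∈ S := by
  by_contra hc
  obtain ⟨f, hf1, hf2⟩ := Submodule.exists_dual_map_eq_bot_of_notMem hc inferInstance
  refine hf1 (h f fun Z hZ => ?_)
  have h1 : f Z ∈ S.map f := Submodule.mem_map_of_mem hZ
  rw [hf2] at h1
  exact (Submodule.mem_bot ℂ).1 h1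

/-- values of a functional on a polynomial family -/
lemma exists_poly (f : Matrix (Fin n) (Fin n) ℂ →ₗ[ℂ] ℂ) (M : Matrix (Fin n) (Fin n) (Polynomial ℂ)) :
    ∃ q : Polynomial ℂ, ∀ c, q.eval c = f (M.map (Polynomial.eval c)) := by
  refine ⟨∑ i, ∑ j, M i j * Polynomial.C (f (Matrix.single i j 1)), fun c => ?_⟩
  rw [Polynomial.eval_finsetSum]
  conv_rhs => rw [Matrix.matrix_eq_sum_single (M.map (Polynomial.eval c))]
  rw [map_sum]
  refine Finset.sum_congr rfl fun i _ => ?_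
  rw [Polynomial.eval_finsetSum, map_sum]
  refine Finset.sum_congr rfl fun j _ => ?_
  have : Matrix.single i j ((M.map (Polynomial.eval c)) i j) = ((M i j).eval c) • Matrix.single i j (1 : ℂ) := by
    rw [Matrix.smul_single, smul_eq_mul, mul_one, Matrix.map_apply]
  rw [this, map_smul, smul_eq_mul, Polynomial.eval_mul, Polynomial.eval_C]

/-- the family `E(c) X E(-c)` is polynomial -/
lemma conj_poly (N X : Matrix (Fin n) (Fin n) ℂ) (c : ℂ) :
    (Ep N * X.map Polynomial.C * Ep (-N)).map (Polynomial.eval c) = E N c * X * E N (-c) := by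
  rw [map_mul_eval, map_mul_eval, map_C_eval, Ep_eval, Ep_eval, E_neg]

lemma pl_natDegree (hn : 1 ≤ n) (l : (Fin n → ℂ) →ₗ[ℂ] ℂ) : (pl N v l).natDegree ≤ n - 1 := by
  unfold pl
  refine Polynomial.natDegree_sum_le_of_forall_le _ _ fun i _ => ?_
  refine (Polynomial.natDegree_monomial_le _).trans ?_
  have := i.2
  omega

/-- **a subspace which contains all `v^b ⊗ ξ` with `ξ(v^b) = 0` contains all `w ⊗ ξ` with `ξ(w) = 0`** -/
theorem all_of_orbit (hn : 1 ≤ n) (hN : N ^ n = 0) (h : μ ⬝ᵥ ((N ^ (n - 1)) *ᵥ v) ≠ 0) (h1 : μ ⬝ᵥ v = 1)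
    (S : Submodule ℂ (Matrix (Fin n) (Fin n) ℂ))
    (hS : ∀ (b : ℂ) (ξ : Fin n → ℂ), ξ ⬝ᵥ vc N v b = 0 → vecMulVec (vc N v b) ξ ∈ S) (w ξ : Fin n → ℂ) (hw : ξ ⬝ᵥ w = 0) :
    vecMulVec w ξ ∈ S := by
  refine mem_of_func S fun f hf => ?_
  -- the value on `P_b`
  obtain ⟨p, hp⟩ := exists_poly f (Ep N * (vecMulVec v μ).map Polynomial.C * Ep (-N))
  have hp' : ∀ b, p.eval b = f (vecMulVec (vc N v b) (mc N μ b)) := by
    intro b
    rw [hp, conj_poly, conj_vec]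
    rfl
  have hval : ∀ (b : ℂ) (η : Fin n → ℂ), f (vecMulVec (vc N v b) η) = p.eval b * (η ⬝ᵥ vc N v b) := by
    intro b η
    have h2 : (η - (η ⬝ᵥ vc N v b) • mc N μ b) ⬝ᵥ vc N v b = 0 := by
      rw [sub_dotProduct, smul_dotProduct, mc_vc hN, sub_self]
      have : qf N v μ 0 = 1 := by
        unfold qf
        rw [E_zero hN, one_mulVec, h1]
      rw [this, smul_eq_mul, mul_one, sub_self]
    have h3 := hf _ (hS b _ h2)
    rw [vecMulVec_sub, vecMulVec_smul, map_sub, map_smul, ← hp', smul_eq_mul] at h3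
    linear_combination h3
  -- degrees
  have hB : (pl N v (dl μ)).coeff (n - 1) ≠ 0 := by
    have := pl_coeff (N := N) v (dl μ) ⟨n - 1, by omega⟩
    simp only at this
    rw [this]
    refine div_ne_zero h ?_
    exact_mod_cast (n - 1).factorial_ne_zero
  have hAB : pl N v (fl f μ) = p * pl N v (dl μ) := by
    refine Polynomial.funext fun b => ?_
    rw [pl_eval, Polynomial.eval_mul, pl_eval]
    exact hval b μ
  have hpc : ∃ κ, p = Polynomial.C κ := by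
    by_cases hp0 : p = 0
    · exact ⟨0, by rw [hp0, map_zero]⟩
    have hB0 : pl N v (dl μ) ≠ 0 := fun h0 => hB (by rw [h0, Polynomial.coeff_zero])
    have h2 := Polynomial.natDegree_mul hp0 hB0
    rw [← hAB] at h2
    have h3 := pl_natDegree (N := N) (v := v) hn (fl f μ)
    have h4 : n - 1 ≤ (pl N v (dl μ)).natDegree := Polynomial.le_natDegree_of_ne_zero hB
    have h5 : p.natDegree = 0 := by omega
    exact ⟨p.coeff 0, Polynomial.eq_C_of_natDegree_eq_zero h5⟩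
  obtain ⟨κ, rfl⟩ := hpc
  have hl : fl f ξ - κ • dl ξ = 0 := span_v hN h fun c => by
    rw [LinearMap.sub_apply, LinearMap.smul_apply]
    have := hval c ξ
    rw [Polynomial.eval_C] at this
    show f (vecMulVec (vc N v c) ξ) - κ • (ξ ⬝ᵥ vc N v c) = 0
    rw [this, smul_eq_mul, sub_self]
  have h6 := congrArg (fun l : (Fin n → ℂ) →ₗ[ℂ] ℂ => l w) hl
  simp only [LinearMap.sub_apply, LinearMap.smul_apply, LinearMap.zero_apply] at h6
  have h7 : f (vecMulVec w ξ) - κ • (ξ ⬝ᵥ w) = 0 := h6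
  rw [hw, smul_zero, sub_zero] at h7
  exact h7

/-! ### the decomposition with respect to a reflection -/

lemma refl_comp {P X : Matrix (Fin n) (Fin n) ℂ} {ζ : ℂ} (hζ : ζ ≠ 0) (hζ2 : ζ ^ 2 ≠ 1)
    (S : Submodule ℂ (Matrix (Fin n) (Fin n) ℂ))
    (h1 : X - (1 + (ζ - 1) • P) * X * (1 + (ζ⁻¹ - 1) • P) ∈ S)
    (h2 : X - (1 + (ζ⁻¹ - 1) • P) * X * (1 + (ζ - 1) • P) ∈ S) : P * X - P * X * P ∈ S := by
  have hζ1 : ζ - 1 ≠ 0 := by
    intro h0
    apply hζ2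
    rw [sub_eq_zero.1 h0, one_pow]
  have hζm : ζ + 1 ≠ 0 := by
    intro h0
    apply hζ2
    rw [eq_neg_of_add_eq_zero_left h0]
    norm_num
  have hD : (1 - ζ) ^ 2 - (1 - ζ⁻¹) ^ 2 ≠ 0 := by
    have e : (1 - ζ) ^ 2 - (1 - ζ⁻¹) ^ 2 = (ζ - 1) ^ 3 * (ζ + 1) / ζ ^ 2 := by
      field_simp
      ring
    rw [e]
    exact div_ne_zero (mul_ne_zero (pow_ne_zero _ hζ1) hζm) (pow_ne_zero _ hζ)
  have e1 : (1 + (ζ - 1) • P) * X * (1 + (ζ⁻¹ - 1) • P) = X + (ζ⁻¹ - 1) • (X * P) + (ζ - 1) • (P * X) +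
      ((ζ - 1) * (ζ⁻¹ - 1)) • (P * X * P) := by
    rw [add_mul, one_mul, mul_add, mul_one, smul_mul_assoc, add_mul, mul_smul_comm, mul_smul_comm, smul_mul_assoc, smul_smul,
      mul_comm (ζ⁻¹ - 1)]
    abel
  have e2 : (1 + (ζ⁻¹ - 1) • P) * X * (1 + (ζ - 1) • P) = X + (ζ - 1) • (X * P) + (ζ⁻¹ - 1) • (P * X) +
      ((ζ - 1) * (ζ⁻¹ - 1)) • (P * X * P) := by
    rw [add_mul, one_mul, mul_add, mul_one, smul_mul_assoc, add_mul, mul_smul_comm, mul_smul_comm, smul_mul_assoc, smul_smul]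
    abel
  rw [e1] at h1
  rw [e2] at h2
  have h3 := S.add_mem (S.smul_mem ((1 - ζ) / ((1 - ζ) ^ 2 - (1 - ζ⁻¹) ^ 2)) h1)
    (S.smul_mem (-(1 - ζ⁻¹) / ((1 - ζ) ^ 2 - (1 - ζ⁻¹) ^ 2)) h2)
  have e3 : ((1 - ζ) / ((1 - ζ) ^ 2 - (1 - ζ⁻¹) ^ 2)) • (X - (X + (ζ⁻¹ - 1) • (X * P) + (ζ - 1) • (P * X) +
      ((ζ - 1) * (ζ⁻¹ - 1)) • (P * X * P))) + (-(1 - ζ⁻¹) / ((1 - ζ) ^ 2 - (1 - ζ⁻¹) ^ 2)) • (X - (X + (ζ - 1) • (X * P) +
      (ζ⁻¹ - 1) • (P * X) + ((ζ - 1) * (ζ⁻¹ - 1)) • (P * X * P))) = P * X - P * X * P := by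
    set D := (1 - ζ) ^ 2 - (1 - ζ⁻¹) ^ 2 with hDd
    ext i j
    simp only [Matrix.add_apply, Matrix.sub_apply, Matrix.smul_apply, smul_eq_mul]
    have hzz : ζ * ζ⁻¹ = 1 := mul_inv_cancel₀ hζ
    set z' := ζ⁻¹
    set x1 := (X * P) i j
    set x2 := (P * X) i j
    set x3 := (P * X * P) i j
    have : (1 - ζ) / D * (X i j - (X i j + (z' - 1) * x1 + (ζ - 1) * x2 + (ζ - 1) * (z' - 1) * x3)) +
        -(1 - z') / D * (X i j - (X i j + (ζ - 1) * x1 + (z' - 1) * x2 + (ζ - 1) * (z' - 1) * x3)) =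
        (((1 - ζ) ^ 2 - (1 - z') ^ 2) * x2 - ((1 - ζ) - (1 - z')) * ((ζ - 1) * (z' - 1)) * x3) / D := by
      ring
    rw [this, ← hDd]
    have h5 : ((1 - ζ) - (1 - z')) * ((ζ - 1) * (z' - 1)) = D := by
      rw [hDd]
      linear_combination (z' - ζ) * hzz
    rw [h5]
    field_simp
  rw [e3] at h3
  exact h3

section main

variable {N1 : Matrix (Fin n) (Fin n) ℂ} {H : ℕ → Matrix (Fin n) (Fin n) ℂ} {ζ : ℂ}

lemma E_neg_HD (hN : N ^ n = 0) (s : ℂ) : HD (fun s => E N (-s)) (-(N * E N (-s))) s := by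
  have h2 : HasDerivAt (fun w : ℂ => -w) (-1) s := (hasDerivAt_id s).neg
  refine ((E_HD hN (-s)).comp h2).congr ?_
  rw [neg_smul, one_smul]

/-- the derivative of `E(s) R E(-s) R⁻¹` -/
lemma curve_mem (hN : N ^ n = 0) (hH : Sol N N1 H) {R Ri : Matrix (Fin n) (Fin n) ℂ} (hRR : R * Ri = 1)
    (hR : R ∈ Gal (Yf N H)) (hRi : Ri ∈ Gal (Yf N H)) : N - R * N * Ri ∈ LG (Yf N H) := by
  refine LG_curve (g := fun s => E N s * R * E N (-s) * Ri) (c := 0) (Eventually.of_forall fun s => ?_) ?_ ?_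
  · exact mul_mem (conj_E hN hH s R hR) hRi
  · simp only [neg_zero, E_zero hN, one_mul, mul_one]
    exact hRR
  · refine ((((E_HD hN 0).mul (HD.const R 0)).mul (E_neg_HD hN 0)).mul (HD.const Ri 0)).congr ?_
    simp only [neg_zero, E_zero hN, one_mul, mul_one, mul_zero, add_zero]
    rw [add_mul, Matrix.mul_assoc N R Ri, hRR, mul_one, mul_neg, neg_mul, ← sub_eq_add_neg]

variable (hn : 2 ≤ n) (hN : N ^ n = 0) (hH : Sol N N1 H) (h1 : μ ⬝ᵥ v = 1) (hcyc : μ ⬝ᵥ ((N ^ (n - 1)) *ᵥ v) ≠ 0)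
  (hζ : ζ ≠ 0) (hζ2 : ζ ^ 2 ≠ 1) (hR : 1 + (ζ - 1) • vecMulVec v μ ∈ Gal (Yf N H))
  (hRi : 1 + (ζ⁻¹ - 1) • vecMulVec v μ ∈ Gal (Yf N H))

lemma refl_mul {P : Matrix (Fin n) (Fin n) ℂ} (hP : P * P = P) (hζ : ζ ≠ 0) :
    (1 + (ζ - 1) • P) * (1 + (ζ⁻¹ - 1) • P) = 1 := by
  rw [add_mul, one_mul, mul_add, mul_one, smul_mul_smul_comm, hP]
  have h1 : (ζ - 1) * (ζ⁻¹ - 1) = -(ζ - 1) - (ζ⁻¹ - 1) := by
    field_simp
    ring
  have h2 : ((ζ - 1) * (ζ⁻¹ - 1)) • P = -((ζ - 1) • P) - (ζ⁻¹ - 1) • P := by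
    rw [h1, sub_smul (-(ζ - 1)) (ζ⁻¹ - 1) P, neg_smul]
  rw [h2]
  abel

lemma proj_sq (x y : Fin n → ℂ) (h : y ⬝ᵥ x = 1) : vecMulVec x y * vecMulVec x y = vecMulVec x y := by
  rw [vecMulVec_mul_vecMulVec, h, one_smul]

include hN h1 in
lemma mc_vc_self (c : ℂ) : mc N μ c ⬝ᵥ vc N v c = 1 := by
  rw [mc_vc hN, sub_self]
  unfold qf
  rw [E_zero hN, one_mulVec, h1]

lemma conj_refl (hN : N ^ n = 0) (a c : ℂ) : E N c * (1 + a • vecMulVec v μ) * E N (-c) =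
    1 + a • vecMulVec (vc N v c) (mc N μ c) := by
  rw [mul_add, mul_one, add_mul, E_mul_neg hN, mul_smul_comm, smul_mul_assoc, conj_vec]
  rfl

include hN hH h1 hζ hζ2 hR hRi in
/-- the component `P_c X (1 - P_c)` -/
lemma comp_mem (c : ℂ) {X : Matrix (Fin n) (Fin n) ℂ} (hX : X ∈ LG (Yf N H)) :
    vecMulVec (vc N v c) (mc N μ c) * X -
      vecMulVec (vc N v c) (mc N μ c) * X * vecMulVec (vc N v c) (mc N μ c) ∈ LG (Yf N H) := by
  have hRc := conj_E hN hH c _ hR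
  have hRic := conj_E hN hH c _ hRi
  rw [conj_refl hN] at hRc hRic
  have hP := proj_sq (vc N v c) (mc N μ c) (mc_vc_self hN h1 c)
  have hζ' : ζ⁻¹ ≠ 0 := inv_ne_zero hζ
  have hm := refl_mul hP hζ
  have hm' := refl_mul hP hζ'
  rw [inv_inv] at hm'
  refine refl_comp hζ hζ2 _ ?_ ?_
  · exact (LG (Yf N H)).sub_mem hX (LG_conj hm hRc hRic hX)
  · exact (LG (Yf N H)).sub_mem hX (LG_conj hm' hRic hRc hX)

include hN hH h1 hζ hζ2 hR hRi in
/-- the component `P N (1 - P)` -/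
lemma comp_N : vecMulVec v μ * N - vecMulVec v μ * N * vecMulVec v μ ∈ LG (Yf N H) := by
  have hP := proj_sq v μ h1
  have hζ' : ζ⁻¹ ≠ 0 := inv_ne_zero hζ
  have hm := refl_mul hP hζ
  have hm' := refl_mul hP hζ'
  rw [inv_inv] at hm'
  exact refl_comp hζ hζ2 _ (curve_mem hN hH hm hR hRi) (curve_mem hN hH hm' hRi hR)

include hn hN hH h1 hcyc hζ hζ2 hR hRi in
/-- all `v^b ⊗ ξ` with `ξ(v^b) = 0` -/
theorem orbit_mem (b : ℂ) (ξ : Fin n → ℂ) (hξ : ξ ⬝ᵥ vc N v b = 0) : vecMulVec (vc N v b) ξ ∈ LG (Yf N H) := by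
  -- a nonzero element
  set η : Fin n → ℂ := μ ᵥ* N - (μ ⬝ᵥ (N *ᵥ v)) • μ with hη
  have hη0 : η ≠ 0 := by
    intro h0
    have e1 : μ ᵥ* N = (μ ⬝ᵥ (N *ᵥ v)) • μ := sub_eq_zero.1 h0
    set m := μ ⬝ᵥ (N *ᵥ v)
    have e2 : ∀ k : ℕ, μ ᵥ* (N ^ k) = m ^ k • μ := by
      intro k
      induction k with
      | zero => rw [pow_zero, pow_zero, vecMul_one, one_smul]
      | succ k ih =>
        rw [pow_succ, ← vecMul_vecMul, ih, smul_vecMul, e1, smul_smul, pow_succ]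
    have hμ : μ ≠ 0 := by
      intro h
      rw [h, zero_dotProduct] at h1
      exact zero_ne_one h1
    have e3 := e2 n
    rw [hN, vecMul_zero] at e3
    have hm0 : m = 0 := by
      rcases smul_eq_zero.1 e3.symm with h | h
      · exact pow_eq_zero_iff (by omega) |>.1 h
      · exact absurd h hμ
    apply hcyc
    rw [dotProduct_mulVec, e2, hm0, zero_pow (by omega), zero_smul, zero_dotProduct]
  have hη1 : ∀ c, vecMulVec (vc N v c) (η ᵥ* E N (-c)) ∈ LG (Yf N H) := by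
    intro c
    have h2 := comp_N hN hH h1 hζ hζ2 hR hRi
    have e1 : vecMulVec v μ * N - vecMulVec v μ * N * vecMulVec v μ = vecMulVec v η := by
      rw [vecMulVec_mul, vecMulVec_mul_vecMulVec, ← dotProduct_mulVec, hη, vecMulVec_sub, vecMulVec_smul]
    rw [e1] at h2
    have h3 := LG_E hN hH c h2
    rw [conj_vec] at h3
    exact h3
  set ηb : Fin n → ℂ := η ᵥ* E N (-b) with hηb
  have hηb0 : ηb ≠ 0 := by
    intro h0
    apply hη0
    have e1 : ηb ᵥ* E N b = η := by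
      rw [hηb, vecMul_vecMul]
      have := E_mul_neg hN (-b)
      rw [neg_neg] at this
      rw [this, vecMul_one]
    rw [← e1, h0, zero_vecMul]
  have hηbv : ηb ⬝ᵥ vc N v b = 0 := by
    have e0 : η ⬝ᵥ v = 0 := by
      rw [hη, sub_dotProduct, smul_dotProduct, h1, ← dotProduct_mulVec, smul_eq_mul, mul_one, sub_self]
    unfold vc
    rw [hηb, ← dotProduct_mulVec, mulVec_mulVec]
    have := E_mul_neg hN (-b)
    rw [neg_neg] at this
    rw [this, one_mulVec, e0]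
  -- transport
  have key : ∀ (c d : ℂ) (θ : Fin n → ℂ), vecMulVec (vc N v c) θ ∈ LG (Yf N H) → mc N μ d ⬝ᵥ vc N v c ≠ 0 →
      vecMulVec (vc N v d) (θ - (θ ⬝ᵥ vc N v d) • mc N μ d) ∈ LG (Yf N H) := by
    intro c d θ hθ hne
    have h2 := comp_mem hN hH h1 hζ hζ2 hR hRi d hθ
    have e1 : vecMulVec (vc N v d) (mc N μ d) * vecMulVec (vc N v c) θ -
        vecMulVec (vc N v d) (mc N μ d) * vecMulVec (vc N v c) θ * vecMulVec (vc N v d) (mc N μ d) =
        (mc N μ d ⬝ᵥ vc N v c) • vecMulVec (vc N v d) (θ - (θ ⬝ᵥ vc N v d) • mc N μ d) := by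
      rw [vecMulVec_mul_vecMulVec, vecMulVec_mul_vecMulVec, vecMulVec_sub, vecMulVec_smul, vecMulVec_smul,
        vecMulVec_smul, smul_dotProduct, smul_sub, smul_eq_mul, mul_smul]
    rw [e1] at h2
    have h3 := (LG (Yf N H)).smul_mem (mc N μ d ⬝ᵥ vc N v c)⁻¹ h2
    rwa [smul_smul, inv_mul_cancel₀ hne, one_smul] at h3
  -- the bad set
  set p1 := pl N v (dl ηb) with hp1
  set p2 := pl N v (dl (mc N μ b)) with hp2
  have hp10 : p1 ≠ 0 := pl_ne hN (cycV hcyc) fun h0 => hηb0 (by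
    funext i
    have := congrArg (fun l : (Fin n → ℂ) →ₗ[ℂ] ℂ => l (Pi.single i 1)) h0
    have h2 : ηb ⬝ᵥ Pi.single i 1 = 0 := this
    rwa [dotProduct_single_one] at h2)
  have hmb0 : mc N μ b ≠ 0 := by
    intro h0
    have := mc_vc_self hN h1 b
    rw [h0, zero_dotProduct] at this
    exact zero_ne_one this
  have hp20 : p2 ≠ 0 := pl_ne hN (cycV hcyc) fun h0 => hmb0 (by
    funext i
    have := congrArg (fun l : (Fin n → ℂ) →ₗ[ℂ] ℂ => l (Pi.single i 1)) h0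
    have h2 : mc N μ b ⬝ᵥ Pi.single i 1 = 0 := this
    rwa [dotProduct_single_one] at h2)
  -- `μ^c(v^b)` as a polynomial in `c`
  set p3 := pl N.transpose μ (dl (vc N v b)) with hp3
  have hvb0 : vc N v b ≠ 0 := by
    intro h0
    have := mc_vc_self hN h1 b
    rw [h0, dotProduct_zero] at this
    exact zero_ne_one this
  have hp30 : p3 ≠ 0 := pl_ne (nilT hN) (cycT hcyc) fun h0 => hvb0 (by
    funext i
    have := congrArg (fun l : (Fin n → ℂ) →ₗ[ℂ] ℂ => l (Pi.single i 1)) h0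
    have h2 : vc N v b ⬝ᵥ Pi.single i 1 = 0 := this
    rwa [dotProduct_single_one] at h2)
  set T : Set ℂ := {c | p1.eval c ≠ 0 ∧ p2.eval c ≠ 0 ∧ p3.eval (-c) ≠ 0} with hT
  have hTinf : T.Infinite := by
    have h2 : (p1 * p2 * p3.comp (-Polynomial.X)) ≠ 0 := by
      refine mul_ne_zero (mul_ne_zero hp10 hp20) fun h0 => hp30 ?_
      have h3 := congrArg (fun q : Polynomial ℂ => q.comp (-Polynomial.X)) h0
      simp only [Polynomial.comp_assoc, Polynomial.zero_comp] at h3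
      have h4 : (-Polynomial.X : Polynomial ℂ).comp (-Polynomial.X) = Polynomial.X := by simp
      rw [h4, Polynomial.comp_X] at h3
      exact h3
    have h3 : Tᶜ ⊆ {c | (p1 * p2 * p3.comp (-Polynomial.X)).IsRoot c} := by
      intro c hc
      simp only [hT, Set.mem_compl_iff, Set.mem_ofPred_eq, not_and_or, not_not] at hc
      show (p1 * p2 * p3.comp (-Polynomial.X)).eval c = 0
      rw [Polynomial.eval_mul, Polynomial.eval_mul, Polynomial.eval_comp, Polynomial.eval_neg, Polynomial.eval_X]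
      rcases hc with h | h | h
      · rw [h]; ring
      · rw [h]; ring
      · rw [h]; ring
    have h4 : (Tᶜ).Finite := (Polynomial.finite_setOfPred_isRoot h2).subset h3
    have h5 := h4.infinite_compl
    rwa [compl_compl] at h5
  have hTmem : ∀ c ∈ T, vecMulVec (vc N v b) (mc N μ c - (mc N μ c ⬝ᵥ vc N v b) • mc N μ b) ∈ LG (Yf N H) := by
    intro c ⟨hc1, hc2, hc3⟩
    rw [hp1, pl_eval] at hc1
    rw [hp2, pl_eval] at hc2
    rw [hp3, pl_eval, ← mc_eq] at hc3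
    have hc1' : ηb ⬝ᵥ vc N v c ≠ 0 := hc1
    have hc2' : mc N μ b ⬝ᵥ vc N v c ≠ 0 := hc2
    have hc3' : mc N μ c ⬝ᵥ vc N v b ≠ 0 := by
      rw [dotProduct_comm]
      exact hc3
    have h2 := key b c ηb (hη1 b) hc3'
    have h3 := key c b _ h2 hc2'
    have h4 := (LG (Yf N H)).sub_mem (hη1 b) h3
    have e1 : ηb - (ηb - (ηb ⬝ᵥ vc N v c) • mc N μ c -
        ((ηb - (ηb ⬝ᵥ vc N v c) • mc N μ c) ⬝ᵥ vc N v b) • mc N μ b) =
        (ηb ⬝ᵥ vc N v c) • (mc N μ c - (mc N μ c ⬝ᵥ vc N v b) • mc N μ b) := by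
      rw [sub_dotProduct, hηbv, smul_dotProduct, zero_sub, smul_sub, smul_smul, neg_smul, smul_eq_mul]
      abel
    rw [← vecMulVec_sub, e1, vecMulVec_smul] at h4
    have h5 := (LG (Yf N H)).smul_mem (ηb ⬝ᵥ vc N v c)⁻¹ h4
    rwa [smul_smul, inv_mul_cancel₀ hc1', one_smul] at h5
  -- conclusion
  refine mem_of_func _ fun f hf => ?_
  set l := fr f (vc N v b) with hl
  have hlT : ∀ c ∈ T, l (mc N μ c) = (mc N μ c ⬝ᵥ vc N v b) * l (mc N μ b) := by
    intro c hc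
    have h2 := hf _ (hTmem c hc)
    have h3 : l (mc N μ c - (mc N μ c ⬝ᵥ vc N v b) • mc N μ b) = 0 := h2
    rw [map_sub, map_smul, smul_eq_mul] at h3
    linear_combination h3
  have hl0 : l - l (mc N μ b) • dl (vc N v b) = 0 := by
    refine span_m hN hcyc fun c => ?_
    have h2 : pl N.transpose μ (l - l (mc N μ b) • dl (vc N v b)) = 0 := by
      have h3 : (pl N.transpose μ (l - l (mc N μ b) • dl (vc N v b))).comp (-Polynomial.X) = 0 := by
        refine Polynomial.eq_zero_of_infinite_isRoot _ (hTinf.mono fun c hc => ?_)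
        show Polynomial.eval c _ = 0
        rw [Polynomial.eval_comp, Polynomial.eval_neg, Polynomial.eval_X, pl_eval, ← mc_eq, LinearMap.sub_apply,
          LinearMap.smul_apply, hlT c hc]
        show (mc N μ c ⬝ᵥ vc N v b) * l (mc N μ b) - l (mc N μ b) • (vc N v b ⬝ᵥ mc N μ c) = 0
        rw [dotProduct_comm (vc N v b), smul_eq_mul]
        ring
      have h4 := congrArg (fun q : Polynomial ℂ => q.comp (-Polynomial.X)) h3
      simp only [Polynomial.comp_assoc, Polynomial.zero_comp] at h4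
      have h5 : (-Polynomial.X : Polynomial ℂ).comp (-Polynomial.X) = Polynomial.X := by simp
      rw [h5, Polynomial.comp_X] at h4
      exact h4
    have h3 := congrArg (Polynomial.eval (-c)) h2
    rw [pl_eval, ← mc_eq, Polynomial.eval_zero] at h3
    exact h3
  have h6 := congrArg (fun l : (Fin n → ℂ) →ₗ[ℂ] ℂ => l ξ) hl0
  simp only [LinearMap.sub_apply, LinearMap.smul_apply, LinearMap.zero_apply] at h6
  have h7 : f (vecMulVec (vc N v b) ξ) - l (mc N μ b) • (vc N v b ⬝ᵥ ξ) = 0 := h6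
  rw [dotProduct_comm, hξ, smul_zero, sub_zero] at h7
  exact h7

end main

theorem refl : S_REFL := by
  intro n N0 N1 H v μ ζ hn hN hH h1 hcyc hζ hζ2 hR hRi w ξ hw
  have h2 := all_of_orbit (by omega) hN hcyc h1 (LG (Yf N0 H))
    (fun b ξ hξ => orbit_mem hn hN hH h1 hcyc hζ hζ2 hR hRi b ξ hξ) w ξ hw
  have h3 := LG_exp h2 (by rw [vecMulVec_mul_vecMulVec, hw, zero_smul, vecMulVec_zero]) 1
  rwa [one_smul] at h3

end Pool.Agent.Run7.h225.HG.REFL
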