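import Pool.Agent.Run7.h225.HG.Crd
import Pool.Agent.Run7.h225.HG.REFL

/-!
# The group of several families at the same fibre, abstract part
-/

set_option autoImplicit false

open Matrix
open Pool.Agent.Y119.HY (E)

namespace Pool.Agent.Run7.h225.HG

open Classical in
/-- the local monodromies at `1` and the conditions of separation -/
structure LM {r : ℕ} {n : Fin r → ℕ} (N : ∀ j, Matrix (Fin (n j)) (Fin (n j)) ℂ)
    (S : Submonoid (∀ j, Matrix (Fin (n j)) (Fin (n j)) ℂ)) (v μ : ∀ j, Fin (n j) → ℂ) (ζ : Fin r → ℂ)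
    (U : Fin r → Prop) (κ : ℂ) : Prop where
  two : ∀ j, 2 ≤ n j
  cyc : ∀ j, μ j ⬝ᵥ ((N j ^ (n j - 1)) *ᵥ v j) ≠ 0
  kap : κ ≠ 0
  zer : ∀ j, ζ j ≠ 0
  ord : ∃ d : ℕ, 0 < d ∧ ∀ j, ¬ U j → ζ j ^ d = 1
  uni : ∀ j, U j → μ j ⬝ᵥ v j = 0
  ref : ∀ j, ¬ U j → μ j ⬝ᵥ v j = 1 ∧ ζ j ^ 2 ≠ 1
  mem : ∀ m : ℤ, (fun j => 1 + (if U j then κ * m else ζ j ^ m - 1) • vecMulVec (v j) (μ j)) ∈ S
  sepU : ∀ i j, i ≠ j → U i → U j → (∃ a : ℂ, qf (N i) (v i) (μ i) a * qf (N i) (v i) (μ i) (-a) ≠
      qf (N j) (v j) (μ j) a * qf (N j) (v j) (μ j) (-a)) ∨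
    ∃ a b : ℂ, qf (N i) (v i) (μ i) a * qf (N i) (v i) (μ i) (b - a) * qf (N i) (v i) (μ i) (-b) -
        qf (N i) (v i) (μ i) b * qf (N i) (v i) (μ i) (a - b) * qf (N i) (v i) (μ i) (-a) ≠
      qf (N j) (v j) (μ j) a * qf (N j) (v j) (μ j) (b - a) * qf (N j) (v j) (μ j) (-b) -
        qf (N j) (v j) (μ j) b * qf (N j) (v j) (μ j) (a - b) * qf (N j) (v j) (μ j) (-a)
  sepR : ∀ i j, i ≠ j → ¬ U i → ¬ U j → (ζ i = ζ j → ∃ m, hm (N i) (v i) (μ i) m ≠ hm (N j) (v j) (μ j) m) ∧
    (ζ i * ζ j = 1 → ∃ m, hm (N i) (v i) (μ i) m ≠ (-1) ^ m * hm (N j) (v j) (μ j) m)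

variable {r : ℕ} {n : Fin r → ℕ} {N : ∀ j, Matrix (Fin (n j)) (Fin (n j)) ℂ}
  {S : Submonoid (∀ j, Matrix (Fin (n j)) (Fin (n j)) ℂ)} {𝔤 : Submodule ℂ (∀ j, Matrix (Fin (n j)) (Fin (n j)) ℂ)}
  {v μ : ∀ j, Fin (n j) → ℂ} {ζ : Fin r → ℂ} {U : Fin r → Prop} {κ : ℂ}

/-- a tuple is a product of its components -/
lemma all_of_single {g : ∀ j, Matrix (Fin (n j)) (Fin (n j)) ℂ} (h : ∀ j, Pi.mulSingle j (g j) ∈ S) : g ∈ S := by
  rw [← Finset.noncommProd_mulSingle g]
  exact Submonoid.noncommProd_mem _ _ _ _ fun j _ => h j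

lemma sq_vec {m : ℕ} {x y : Fin m → ℂ} (h : y ⬝ᵥ x = 0) : vecMulVec x y * vecMulVec x y = 0 := by
  rw [vecMulVec_mul_vecMulVec, h, zero_smul, vecMulVec_zero]

lemma uni_mul {m : ℕ} {x y : Fin m → ℂ} (h : y ⬝ᵥ x = 0) (a b : ℂ) :
    (1 + a • vecMulVec x y) * (1 + b • vecMulVec x y) = 1 + (a + b) • vecMulVec x y := by
  rw [add_mul, one_mul, mul_add, mul_one, smul_mul_smul_comm, sq_vec h, smul_zero, add_zero, add_smul]
  abel

open Classical in
/-- **the unipotent part** -/
theorem uni_part (hL : LP N S 𝔤) (hM : LM N S v μ ζ U κ) (s : ℂ) :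
    (fun j => 1 + s • vecMulVec (if U j then v j else 0) (μ j)) ∈ S := by
  obtain ⟨d, hd, hζ⟩ := hM.ord
  set M : ∀ j, Matrix (Fin (n j)) (Fin (n j)) (Polynomial ℂ) := fun j =>
    1 + (Polynomial.X : Polynomial ℂ) • (vecMulVec (if U j then v j else 0) (μ j)).map Polynomial.C with hMdef
  have hMe : ∀ c : ℂ, (fun j => (M j).map (Polynomial.eval c)) =
      fun j => 1 + c • vecMulVec (if U j then v j else 0) (μ j) := by
    intro c
    funext j
    ext i k
    rw [hMdef]
    simp only [Matrix.map_apply, Matrix.add_apply, Matrix.smul_apply, smul_eq_mul, Polynomial.eval_add,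
      Polynomial.eval_mul, Polynomial.eval_X, Polynomial.eval_C]
    congr 1
    rw [Matrix.one_apply, Matrix.one_apply]
    split_ifs <;> simp
  have h1 := hL.clos M (Set.range fun m : ℕ => κ * ((d * m : ℕ) : ℂ)) ?_ ?_ s
  · rw [hMe] at h1
    exact h1
  · refine Set.infinite_range_of_injective fun a b hab => ?_
    have h2 := mul_left_cancel₀ hM.kap hab
    have h3 : d * a = d * b := by exact_mod_cast h2
    exact Nat.eq_of_mul_eq_mul_left hd h3
  · rintro _ ⟨m, rfl⟩
    rw [hMe]
    have h2 := hM.mem ((d * m : ℕ) : ℤ)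
    refine (congrArg (· ∈ S) ?_).mp h2
    funext j
    by_cases hj : U j
    · rw [if_pos hj, if_pos hj]
      push_cast
      rfl
    · rw [if_neg hj, if_neg hj, zpow_natCast, pow_mul, hζ j hj, one_pow, sub_self, zero_smul, zero_vecMulVec, smul_zero]

open Classical in
/-- **the reflection part** -/
theorem ref_part (hL : LP N S 𝔤) (hM : LM N S v μ ζ U κ) (m : ℤ) :
    (fun j => 1 + (ζ j ^ m - 1) • vecMulVec (if U j then 0 else v j) (μ j)) ∈ S := by
  have h1 := mul_mem (uni_part hL hM (-(κ * m))) (hM.mem m)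
  refine (congrArg (· ∈ S) ?_).mp h1
  funext j
  rw [Pi.mul_apply]
  by_cases hj : U j
  · rw [if_pos hj, if_pos hj, if_pos hj, uni_mul (hM.uni j hj), neg_add_cancel, zero_smul, zero_vecMulVec, smul_zero]
  · rw [if_neg hj, if_neg hj, if_neg hj, zero_vecMulVec, smul_zero, add_zero, one_mul]

open Classical in
/-- **the group** -/
theorem grp (hSEP : S_SEP') (hSEPR : S_SEPR) (hREFLA : S_REFLA) (hL : LP N S 𝔤) (hM : LM N S v μ ζ U κ) :
    (∀ j, U j → ∀ s : ℂ, Pi.mulSingle j (1 + s • vecMulVec (v j) (μ j)) ∈ S) ∧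
    ∀ j, ¬ U j → ∀ g : Matrix (Fin (n j)) (Fin (n j)) ℂ, g.det = 1 → Pi.mulSingle j g ∈ S := by
  have hv0 : ∀ j, v j ≠ 0 := by
    intro j h0
    apply hM.cyc j
    rw [h0, mulVec_zero, dotProduct_zero]
  constructor
  · intro j hj s
    have h1 := hSEP r n N (fun j => if U j then v j else 0) μ S hL.nil (fun i => ?_) hL.econj (uni_part hL hM)
      (fun M hM' => ?_) (fun i k hik hi hk => ?_) j s
    · simp only [if_pos hj] at h1
      exact h1
    · show μ i ⬝ᵥ (if U i then v i else 0) = 0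
      by_cases hi : U i
      · rw [if_pos hi]
        exact hM.uni i hi
      · rw [if_neg hi, dotProduct_zero]
    · exact hL.clos M {c | c ≠ 0} (Set.infinite_of_finite_compl (by
        have : {c : ℂ | c ≠ 0}ᶜ = {0} := by
          ext c
          simp
        rw [this]
        exact Set.finite_singleton 0)) (fun c hc => hM' c hc) 0
    · have hi' : U i := by
        by_contra h
        simp only [if_neg h] at hi
        exact hi rfl
      have hk' : U k := by
        by_contra h
        simp only [if_neg h] at hk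
        exact hk rfl
      simp only [if_pos hi', if_pos hk']
      exact hM.sepU i k hik hi' hk'
  · intro j hj g hg
    have hR := ref_part hL hM 1
    have hR' := ref_part hL hM (-1)
    simp only [zpow_one] at hR
    simp only [_root_.zpow_neg, zpow_one] at hR'
    have hsep := hSEPR r n N S 𝔤 hL (fun j => if U j then 0 else v j) μ ζ hM.zer (fun i => ?_) hR hR'
      (fun i k hik hi hk => ?_) j (by simp only [if_neg hj]; exact hv0 j)
    · simp only [if_neg hj] at hsep
      -- the subspace of the block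
      set 𝔥 : Submodule ℂ (Matrix (Fin (n j)) (Fin (n j)) ℂ) :=
        𝔤.comap (LinearMap.single ℂ (fun j => Matrix (Fin (n j)) (Fin (n j)) ℂ) j) with h𝔥
      have hmem : ∀ X, X ∈ 𝔥 ↔ (Pi.single j X : ∀ j, Matrix (Fin (n j)) (Fin (n j)) ℂ) ∈ 𝔤 := fun X => Iff.rfl
      have hconj : ∀ a b : ∀ j, Matrix (Fin (n j)) (Fin (n j)) ℂ, ∀ X : Matrix (Fin (n j)) (Fin (n j)) ℂ,
          a * Pi.single j X * b = Pi.single j (a j * X * b j) := by
        intro a b X
        funext i
        rw [Pi.mul_apply, Pi.mul_apply]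
        by_cases hi : i = j
        · subst hi
          rw [Pi.single_eq_same, Pi.single_eq_same]
        · rw [Pi.single_eq_of_ne hi, Pi.single_eq_of_ne hi, mul_zero, zero_mul]
      obtain ⟨h1, h2⟩ := hM.ref j hj
      have hP : vecMulVec (v j) (μ j) * vecMulVec (v j) (μ j) = vecMulVec (v j) (μ j) := by
        rw [vecMulVec_mul_vecMulVec, h1, one_smul]
      have hRR : (fun j => 1 + (ζ j - 1) • vecMulVec (if U j then 0 else v j) (μ j)) *
          (fun j => 1 + ((ζ j)⁻¹ - 1) • vecMulVec (if U j then 0 else v j) (μ j)) =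
          (1 : ∀ j, Matrix (Fin (n j)) (Fin (n j)) ℂ) := by
        funext i
        rw [Pi.mul_apply, Pi.one_apply]
        by_cases hi : U i
        · rw [if_pos hi, zero_vecMulVec, smul_zero, smul_zero, add_zero, one_mul]
        · rw [if_neg hi]
          refine REFL.refl_mul ?_ (hM.zer i)
          rw [vecMulVec_mul_vecMulVec, (hM.ref i hi).1, one_smul]
      have hRR' : (fun j => 1 + ((ζ j)⁻¹ - 1) • vecMulVec (if U j then 0 else v j) (μ j)) *
          (fun j => 1 + (ζ j - 1) • vecMulVec (if U j then 0 else v j) (μ j)) =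
          (1 : ∀ j, Matrix (Fin (n j)) (Fin (n j)) ℂ) := by
        funext i
        have := congrFun hRR i
        rw [Pi.mul_apply, Pi.one_apply] at this ⊢
        exact mul_eq_one_comm.1 this
      have htr := hREFLA (n j) (N j) (v j) (μ j) (ζ j) 𝔥 (hM.two j) (hL.nil j) h1 (hM.cyc j) (hM.zer j) h2
        (fun c X hX => ?_) (fun X hX => ?_) (fun X hX => ?_) ?_
      · have h3 := p_SLG (n j) (S.comap (MonoidHom.mulSingle (fun j => Matrix (Fin (n j)) (Fin (n j)) ℂ) j))
          (fun w ξ hw => ?_) g hg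
        · exact h3
        · show Pi.mulSingle j (1 + vecMulVec w ξ) ∈ S
          have h4 := hL.ex _ (htr w ξ hw) ?_ 1
          · refine (congrArg (· ∈ S) ?_).mp h4
            funext i
            rw [Pi.add_apply, Pi.one_apply, one_smul]
            by_cases hi : i = j
            · subst hi
              rw [Pi.mulSingle_eq_same]
              congr 1
              exact Pi.single_eq_same _ _
            · rw [Pi.mulSingle_eq_of_ne hi]
              have : (LinearMap.single ℂ (fun j => Matrix (Fin (n j)) (Fin (n j)) ℂ) j (vecMulVec w ξ)) i = 0 :=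
                Pi.single_eq_of_ne hi _
              rw [this, add_zero]
          · funext i
            rw [Pi.mul_apply, Pi.zero_apply]
            by_cases hi : i = j
            · subst hi
              have : (LinearMap.single ℂ (fun j => Matrix (Fin (n j)) (Fin (n j)) ℂ) i (vecMulVec w ξ)) i = vecMulVec w ξ :=
                Pi.single_eq_same _ _
              rw [this, sq_vec hw]
            · have : (LinearMap.single ℂ (fun j => Matrix (Fin (n j)) (Fin (n j)) ℂ) j (vecMulVec w ξ)) i = 0 :=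
                Pi.single_eq_of_ne hi _
              rw [this, mul_zero]
      · rw [hmem] at hX ⊢
        have h3 := hL.eLie c _ hX
        have h4 := hconj (fun j => E (N j) c) (fun j => E (N j) (-c)) X
        rw [← h4]
        exact h3
      · rw [hmem] at hX ⊢
        have h3 := hL.conj _ _ hRR hR hR' _ hX
        rw [hconj] at h3
        simp only [if_neg hj] at h3
        exact h3
      · rw [hmem] at hX ⊢
        have h3 := hL.conj _ _ hRR' hR' hR _ hX
        rw [hconj] at h3
        simp only [if_neg hj] at h3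
        exact h3
      · rw [hmem]
        exact hsep
    · show (if U i then 0 else v i) = 0 ∨ (μ i ⬝ᵥ (if U i then 0 else v i) = 1 ∧ ζ i ^ 2 ≠ 1)
      by_cases hi : U i
      · left
        rw [if_pos hi]
      · right
        rw [if_neg hi]
        exact hM.ref i hi
    · have hi' : ¬ U i := by
        intro h
        simp only [if_pos h] at hi
        exact hi rfl
      have hk' : ¬ U k := by
        intro h
        simp only [if_pos h] at hk
        exact hk rfl
      simp only [if_neg hi', if_neg hk']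
      exact hM.sepR i k hik hi' hk'

end Pool.Agent.Run7.h225.HG
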