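import Pool.Agent.Run7.h225.HG.SEPT

/-!
# The group of several families at the same fibre, abstract part, all types
-/

set_option autoImplicit false

open Matrix
open Pool.Agent.Y119.HY (E)

namespace Pool.Agent.Run7.h225.HG

open Classical in
/-- the local monodromies at `1` and the conditions of separation, all types -/
structure LM2 {r : ℕ} {n : Fin r → ℕ} (N J : ∀ j, Matrix (Fin (n j)) (Fin (n j)) ℂ)
    (S : Submonoid (∀ j, Matrix (Fin (n j)) (Fin (n j)) ℂ)) (v μ : ∀ j, Fin (n j) → ℂ) (ζ : Fin r → ℂ)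
    (U O : Fin r → Prop) (κ : ℂ) : Prop where
  two : ∀ j, 2 ≤ n j
  cyc : ∀ j, μ j ⬝ᵥ ((N j ^ (n j - 1)) *ᵥ v j) ≠ 0
  kap : κ ≠ 0
  zer : ∀ j, ζ j ≠ 0
  ord : ∃ d : ℕ, 0 < d ∧ ∀ j, ¬ U j → ζ j ^ d = 1
  uni : ∀ j, U j → μ j ⬝ᵥ v j = 0
  ref : ∀ j, ¬ U j → μ j ⬝ᵥ v j = 1 ∧ ζ j ≠ 1
  mem : ∀ m : ℤ, (fun j => 1 + (if U j then κ * m else ζ j ^ m - 1) • vecMulVec (v j) (μ j)) ∈ S
  sepU : ∀ i j, i ≠ j → U i → U j → (∃ a : ℂ, qf (N i) (v i) (μ i) a * qf (N i) (v i) (μ i) (-a) ≠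
      qf (N j) (v j) (μ j) a * qf (N j) (v j) (μ j) (-a)) ∨
    ∃ a b : ℂ, qf (N i) (v i) (μ i) a * qf (N i) (v i) (μ i) (b - a) * qf (N i) (v i) (μ i) (-b) -
        qf (N i) (v i) (μ i) b * qf (N i) (v i) (μ i) (a - b) * qf (N i) (v i) (μ i) (-a) ≠
      qf (N j) (v j) (μ j) a * qf (N j) (v j) (μ j) (b - a) * qf (N j) (v j) (μ j) (-b) -
        qf (N j) (v j) (μ j) b * qf (N j) (v j) (μ j) (a - b) * qf (N j) (v j) (μ j) (-a)
  sepR : ∀ i j, i ≠ j → ¬ U i → ¬ U j → (ζ i = ζ j → ∃ m, hm (N i) (v i) (μ i) m ≠ hm (N j) (v j) (μ j) m) ∧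
    (ζ i * ζ j = 1 → ∃ m, hm (N i) (v i) (μ i) m ≠ (-1) ^ m * hm (N j) (v j) (μ j) m)
  tyO : ∀ j, ¬ U j → ζ j ^ 2 = 1 → O j → OT (N j) (J j) (v j) (μ j)
  tyS : ∀ j, ¬ U j → ζ j ^ 2 = 1 → ¬ O j → ∃ m, Odd m ∧ hm (N j) (v j) (μ j) m ≠ 0
  no23 : ∀ i j, ¬ U i → ζ i ^ 2 = 1 → ¬ U j → ζ j ^ 2 = 1 → ¬ O i → O j → ¬ (n i = 2 ∧ n j = 3)

variable {r : ℕ} {n : Fin r → ℕ} {N J : ∀ j, Matrix (Fin (n j)) (Fin (n j)) ℂ}
  {S : Submonoid (∀ j, Matrix (Fin (n j)) (Fin (n j)) ℂ)} {𝔤 : Submodule ℂ (∀ j, Matrix (Fin (n j)) (Fin (n j)) ℂ)}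
  {v μ : ∀ j, Fin (n j) → ℂ} {ζ : Fin r → ℂ} {U O : Fin r → Prop} {κ : ℂ}

open Classical in
/-- **the unipotent part** -/
theorem uni_part2 (hL : LP N S 𝔤) (hM : LM2 N J S v μ ζ U O κ) (s : ℂ) :
    (fun j => 1 + s • vecMulVec (if U j then v j else 0) (μ j)) ∈ S := by
  obtain ⟨d, hd, hζ⟩ := hM.ord
  set M : ∀ j, Matrix (Fin (n j)) (Fin (n j)) (Polynomial ℂ) := fun j =>
    1 + (Polynomial.X : Polynomial ℂ) • (vecMulVec (if U j then v j else 0) (μ j)).map Polynomial.C with hMdef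
  have hMe : ∀ c : ℂ, (fun j => (M j).map (Polynomial.eval c)) =
      fun j => 1 + c • vecMulVec (if U j then v j else 0) (μ j) := by
    intro c
    funext j
    ext i k
    rw [hMdef]
    simp only [Matrix.map_apply, Matrix.add_apply, Matrix.smul_apply, smul_eq_mul, Polynomial.eval_add,
      Polynomial.eval_mul, Polynomial.eval_X, Polynomial.eval_C]
    congr 1
    rw [Matrix.one_apply, Matrix.one_apply]
    split_ifs <;> simp
  have h1 := hL.clos M (Set.range fun m : ℕ => κ * ((d * m : ℕ) : ℂ)) ?_ ?_ s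
  · rw [hMe] at h1
    exact h1
  · refine Set.infinite_range_of_injective fun a b hab => ?_
    have h2 := mul_left_cancel₀ hM.kap hab
    have h3 : d * a = d * b := by exact_mod_cast h2
    exact Nat.eq_of_mul_eq_mul_left hd h3
  · rintro _ ⟨m, rfl⟩
    rw [hMe]
    have h2 := hM.mem ((d * m : ℕ) : ℤ)
    refine (congrArg (· ∈ S) ?_).mp h2
    funext j
    by_cases hj : U j
    · rw [if_pos hj, if_pos hj]
      push_cast
      rfl
    · rw [if_neg hj, if_neg hj, zpow_natCast, pow_mul, hζ j hj, one_pow, sub_self, zero_smul, zero_vecMulVec, smul_zero]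

open Classical in
/-- **the reflection part** -/
theorem ref_part2 (hL : LP N S 𝔤) (hM : LM2 N J S v μ ζ U O κ) (m : ℤ) :
    (fun j => 1 + (ζ j ^ m - 1) • vecMulVec (if U j then 0 else v j) (μ j)) ∈ S := by
  have h1 := mul_mem (uni_part2 hL hM (-(κ * m))) (hM.mem m)
  refine (congrArg (· ∈ S) ?_).mp h1
  funext j
  rw [Pi.mul_apply]
  by_cases hj : U j
  · rw [if_pos hj, if_pos hj, if_pos hj, uni_mul (hM.uni j hj), neg_add_cancel, zero_smul, zero_vecMulVec, smul_zero]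
  · rw [if_neg hj, if_neg hj, if_neg hj, zero_vecMulVec, smul_zero, add_zero, one_mul]

lemma conj_single (j : Fin r) (a b : ∀ j, Matrix (Fin (n j)) (Fin (n j)) ℂ) (X : Matrix (Fin (n j)) (Fin (n j)) ℂ) :
    a * Pi.single j X * b = Pi.single j (a j * X * b j) := by
  funext i
  rw [Pi.mul_apply, Pi.mul_apply]
  by_cases hi : i = j
  · subst hi
    rw [Pi.single_eq_same, Pi.single_eq_same]
  · rw [Pi.single_eq_of_ne hi, Pi.single_eq_of_ne hi, mul_zero, zero_mul]

lemma single_mul_single (j : Fin r) (X Z : Matrix (Fin (n j)) (Fin (n j)) ℂ) :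
    (Pi.single j X : ∀ j, Matrix (Fin (n j)) (Fin (n j)) ℂ) * Pi.single j Z = Pi.single j (X * Z) := by
  funext i
  rw [Pi.mul_apply]
  by_cases hi : i = j
  · subst hi
    rw [Pi.single_eq_same, Pi.single_eq_same, Pi.single_eq_same]
  · rw [Pi.single_eq_of_ne hi, Pi.single_eq_of_ne hi, Pi.single_eq_of_ne hi, mul_zero]

/-- from the Lie algebra to the group, special linear groups -/
theorem grp_sl (hL : LP N S 𝔤) (j : Fin r) (h : ∀ Z ∈ slm (n j), (Pi.single j Z : ∀ j, Matrix (Fin (n j)) (Fin (n j)) ℂ) ∈ 𝔤)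
    (g : Matrix (Fin (n j)) (Fin (n j)) ℂ) (hg : g.det = 1) : Pi.mulSingle j g ∈ S := by
  refine p_SLG (n j) (S.comap (MonoidHom.mulSingle (fun j => Matrix (Fin (n j)) (Fin (n j)) ℂ) j)) (fun w ξ hw => ?_) g hg
  show Pi.mulSingle j (1 + vecMulVec w ξ) ∈ S
  have h4 := hL.ex _ (h (vecMulVec w ξ) (by rw [mem_slm, trace_vecMulVec, dotProduct_comm, hw])) ?_ 1
  · refine (congrArg (· ∈ S) ?_).mp h4
    funext i
    rw [Pi.add_apply, Pi.one_apply, one_smul]
    by_cases hi : i = j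
    · subst hi
      rw [Pi.mulSingle_eq_same, Pi.single_eq_same]
    · rw [Pi.mulSingle_eq_of_ne hi, Pi.single_eq_of_ne hi, add_zero]
  · rw [single_mul_single, sq_vec hw, Pi.single_zero]

/-- from the Lie algebra to the group, special orthogonal groups -/
theorem grp_so (hSOG : S_SOG) (hex : ∀ X ∈ 𝔤, X * X * X = 0 → ∀ t : ℂ, 1 + t • X + (t ^ 2 / 2) • (X * X) ∈ S)
    (j : Fin r) {J₀ : Matrix (Fin (n j)) (Fin (n j)) ℂ} (hn : 3 ≤ n j) (hs : J₀.transpose = J₀) (hd : J₀.det ≠ 0)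
    (h : ∀ Z ∈ som J₀, (Pi.single j Z : ∀ j, Matrix (Fin (n j)) (Fin (n j)) ℂ) ∈ 𝔤)
    (g : Matrix (Fin (n j)) (Fin (n j)) ℂ) (hg : g.transpose * J₀ * g = J₀) (hg1 : g.det = 1) : Pi.mulSingle j g ∈ S := by
  refine hSOG (n j) J₀ hn hs hd (S.comap (MonoidHom.mulSingle (fun j => Matrix (Fin (n j)) (Fin (n j)) ℂ) j))
    (fun X hX h3 t => ?_) g hg hg1
  show Pi.mulSingle j (1 + t • X + (t ^ 2 / 2) • (X * X)) ∈ S
  have h4 := hex _ (h X hX) ?_ t
  · refine (congrArg (· ∈ S) ?_).mp h4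
    rw [single_mul_single]
    funext i
    rw [Pi.add_apply, Pi.add_apply, Pi.one_apply, Pi.smul_apply, Pi.smul_apply]
    by_cases hi : i = j
    · subst hi
      rw [Pi.mulSingle_eq_same, Pi.single_eq_same, Pi.single_eq_same]
    · rw [Pi.mulSingle_eq_of_ne hi, Pi.single_eq_of_ne hi, Pi.single_eq_of_ne hi, smul_zero, smul_zero, add_zero, add_zero]
  · rw [single_mul_single, single_mul_single, h3, Pi.single_zero]

open Classical in
/-- the reflections of order larger than two -/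
theorem ref_big (hSEPR : S_SEPR2) (hREFLA : S_REFLA) (hL : LP N S 𝔤) (hM : LM2 N J S v μ ζ U O κ) (j : Fin r)
    (hj : ¬ U j) (hz : ζ j ^ 2 ≠ 1) (Z : Matrix (Fin (n j)) (Fin (n j)) ℂ) (hZ : Z ∈ slm (n j)) :
    (Pi.single j Z : ∀ j, Matrix (Fin (n j)) (Fin (n j)) ℂ) ∈ 𝔤 := by
  have hv0 : ∀ j, v j ≠ 0 := by
    intro j h0
    apply hM.cyc j
    rw [h0, mulVec_zero, dotProduct_zero]
  have hR := ref_part2 hL hM 1
  have hR' := ref_part2 hL hM (-1)
  simp only [zpow_one] at hR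
  simp only [_root_.zpow_neg, zpow_one] at hR'
  have hsep := hSEPR r n N S 𝔤 hL (fun j => if U j then 0 else v j) μ ζ hM.zer (fun i => ?_) hR hR'
    (fun i k hik hi hk _ _ => ?_) j (by simp only [if_neg hj]; exact hv0 j) hz
  · simp only [if_neg hj] at hsep
    set 𝔥 : Submodule ℂ (Matrix (Fin (n j)) (Fin (n j)) ℂ) :=
      𝔤.comap (LinearMap.single ℂ (fun j => Matrix (Fin (n j)) (Fin (n j)) ℂ) j) with h𝔥
    have hmem : ∀ X, X ∈ 𝔥 ↔ (Pi.single j X : ∀ j, Matrix (Fin (n j)) (Fin (n j)) ℂ) ∈ 𝔤 := fun X => Iff.rfl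
    obtain ⟨h1, -⟩ := hM.ref j hj
    have hRR : (fun j => 1 + (ζ j - 1) • vecMulVec (if U j then 0 else v j) (μ j)) *
        (fun j => 1 + ((ζ j)⁻¹ - 1) • vecMulVec (if U j then 0 else v j) (μ j)) =
        (1 : ∀ j, Matrix (Fin (n j)) (Fin (n j)) ℂ) := by
      funext i
      rw [Pi.mul_apply, Pi.one_apply]
      by_cases hi : U i
      · rw [if_pos hi, zero_vecMulVec, smul_zero, smul_zero, add_zero, one_mul]
      · rw [if_neg hi]
        refine REFL.refl_mul ?_ (hM.zer i)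
        rw [vecMulVec_mul_vecMulVec, (hM.ref i hi).1, one_smul]
    have hRR' : (fun j => 1 + ((ζ j)⁻¹ - 1) • vecMulVec (if U j then 0 else v j) (μ j)) *
        (fun j => 1 + (ζ j - 1) • vecMulVec (if U j then 0 else v j) (μ j)) =
        (1 : ∀ j, Matrix (Fin (n j)) (Fin (n j)) ℂ) := by
      funext i
      have := congrFun hRR i
      rw [Pi.mul_apply, Pi.one_apply] at this ⊢
      exact mul_eq_one_comm.1 this
    have htr := hREFLA (n j) (N j) (v j) (μ j) (ζ j) 𝔥 (hM.two j) (hL.nil j) h1 (hM.cyc j) (hM.zer j) hz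
      (fun c X hX => ?_) (fun X hX => ?_) (fun X hX => ?_) ?_
    · exact slm_of_rank 𝔥 htr hZ
    · rw [hmem] at hX ⊢
      have h3 := hL.eLie c _ hX
      rw [← conj_single j (fun j => E (N j) c) (fun j => E (N j) (-c)) X]
      exact h3
    · rw [hmem] at hX ⊢
      have h3 := hL.conj _ _ hRR hR hR' _ hX
      rw [conj_single] at h3
      simp only [if_neg hj] at h3
      exact h3
    · rw [hmem] at hX ⊢
      have h3 := hL.conj _ _ hRR' hR' hR _ hX
      rw [conj_single] at h3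
      simp only [if_neg hj] at h3
      exact h3
    · rw [hmem]
      exact hsep
  · show (if U i then 0 else v i) = 0 ∨ (μ i ⬝ᵥ (if U i then 0 else v i) = 1 ∧ ζ i ≠ 1)
    by_cases hi : U i
    · left
      rw [if_pos hi]
    · right
      rw [if_neg hi]
      exact hM.ref i hi
  · have hi' : ¬ U i := by
      intro h
      simp only [if_pos h] at hi
      exact hi rfl
    have hk' : ¬ U k := by
      intro h
      simp only [if_pos h] at hk
      exact hk rfl
    simp only [if_neg hi', if_neg hk']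
    exact hM.sepR i k hik hi' hk'

/-! ### reflections of order two -/

section two

open Classical in
/-- extension by zero -/
noncomputable def ex0 (n : Fin r → ℕ) (T : Fin r → Prop) :
    (∀ j : {j // T j}, Matrix (Fin (n j)) (Fin (n j)) ℂ) →ₗ[ℂ] (∀ j, Matrix (Fin (n j)) (Fin (n j)) ℂ) where
  toFun X := fun j => if h : T j then X ⟨j, h⟩ else 0
  map_add' X Z := by
    funext j
    rw [Pi.add_apply]
    by_cases h : T j
    · simp only [dif_pos h, Pi.add_apply]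
    · simp only [dif_neg h, add_zero]
  map_smul' c X := by
    funext j
    rw [RingHom.id_apply, Pi.smul_apply]
    by_cases h : T j
    · simp only [dif_pos h, Pi.smul_apply]
    · simp only [dif_neg h, smul_zero]

lemma ex0_pos {T : Fin r → Prop} (X : ∀ j : {j // T j}, Matrix (Fin (n j)) (Fin (n j)) ℂ) {j : Fin r} (h : T j) :
    ex0 n T X j = X ⟨j, h⟩ := dif_pos h

lemma ex0_neg {T : Fin r → Prop} (X : ∀ j : {j // T j}, Matrix (Fin (n j)) (Fin (n j)) ℂ) {j : Fin r} (h : ¬ T j) :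
    ex0 n T X j = 0 := dif_neg h

lemma ex0_mul {T : Fin r → Prop} (X Z : ∀ j : {j // T j}, Matrix (Fin (n j)) (Fin (n j)) ℂ) :
    ex0 n T (X * Z) = ex0 n T X * ex0 n T Z := by
  funext j
  rw [Pi.mul_apply]
  by_cases h : T j
  · rw [ex0_pos _ h, ex0_pos _ h, ex0_pos _ h, Pi.mul_apply]
  · rw [ex0_neg _ h, ex0_neg X h, zero_mul]

/-- restriction -/
def rs {n : Fin r → ℕ} (T : Fin r → Prop) (a : ∀ j, Matrix (Fin (n j)) (Fin (n j)) ℂ) :
    ∀ j : {j // T j}, Matrix (Fin (n j)) (Fin (n j)) ℂ := fun j => a j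

lemma ex0_left {T : Fin r → Prop} (a b : ∀ j, Matrix (Fin (n j)) (Fin (n j)) ℂ)
    (X : ∀ j : {j // T j}, Matrix (Fin (n j)) (Fin (n j)) ℂ) :
    ex0 n T (rs T a * X * rs T b) = a * ex0 n T X * b := by
  funext j
  rw [Pi.mul_apply, Pi.mul_apply]
  by_cases h : T j
  · rw [ex0_pos _ h, ex0_pos _ h, Pi.mul_apply, Pi.mul_apply]
    rfl
  · rw [ex0_neg _ h, ex0_neg _ h, mul_zero, zero_mul]

lemma ex0_single {T : Fin r → Prop} [DecidableEq {j // T j}] (j : Fin r) (h : T j) (Z : Matrix (Fin (n j)) (Fin (n j)) ℂ) :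
    ex0 n T (Pi.single (⟨j, h⟩ : {j // T j}) Z) = Pi.single j Z := by
  funext i
  by_cases hi : i = j
  · subst hi
    rw [ex0_pos _ h, Pi.single_eq_same, Pi.single_eq_same]
  · rw [Pi.single_eq_of_ne hi]
    by_cases hT : T i
    · rw [ex0_pos _ hT, Pi.single_eq_of_ne]
      intro h'
      exact hi (congrArg Subtype.val h')
    · rw [ex0_neg _ hT]

open Classical in
/-- **the Lie algebra of the reflections of order two** -/
theorem ref_two (hSEPR : S_SEPR2) (hREFLA : S_REFLA) (hOD : S_OD) (hR2 : S_REFL2A) (hSI : S_SIMP) (hRIB : S_RIB)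
    (hPA : S_PAIR) (hRO : S_REFLO) (hSO : S_SIMPO) (hPO : S_PAIRO) (hL : LP N S 𝔤) (hM : LM2 N J S v μ ζ U O κ)
    (j : Fin r) (hj : ¬ U j) (hz : ζ j ^ 2 = 1) (Z : Matrix (Fin (n j)) (Fin (n j)) ℂ) (hZ : Z ∈ Lb n J O j) :
    (Pi.single j Z : ∀ j, Matrix (Fin (n j)) (Fin (n j)) ℂ) ∈ 𝔤 := by
  set T : Fin r → Prop := fun j => ¬ U j ∧ ζ j ^ 2 = 1 with hT
  have hm1 : ∀ i, T i → ζ i = -1 := by
    intro i hi
    have h1 : (ζ i - 1) * (ζ i + 1) = 0 := by linear_combination hi.2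
    rcases mul_eq_zero.1 h1 with h | h
    · exact absurd (sub_eq_zero.1 h) (hM.ref i hi.1).2
    · exact eq_neg_of_add_eq_zero_left h
  have hR := ref_part2 hL hM 1
  have hR' := ref_part2 hL hM (-1)
  simp only [zpow_one] at hR
  simp only [_root_.zpow_neg, zpow_one] at hR'
  set ρ : ∀ j, Matrix (Fin (n j)) (Fin (n j)) ℂ := fun j => 1 + (ζ j - 1) • vecMulVec (if U j then 0 else v j) (μ j) with hρ
  set ρ' : ∀ j, Matrix (Fin (n j)) (Fin (n j)) ℂ := fun j => 1 + ((ζ j)⁻¹ - 1) • vecMulVec (if U j then 0 else v j) (μ j) with hρ'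
  have hRR : ρ * ρ' = 1 := by
    funext i
    rw [Pi.mul_apply, Pi.one_apply, hρ, hρ']
    by_cases hi : U i
    · simp only [if_pos hi, zero_vecMulVec, smul_zero, add_zero, one_mul]
    · simp only [if_neg hi]
      refine REFL.refl_mul ?_ (hM.zer i)
      rw [vecMulVec_mul_vecMulVec, (hM.ref i hi).1, one_smul]
  have hρT : ∀ i, T i → ρ i = rf (v i) (μ i) := by
    intro i hi
    rw [hρ]
    simp only [if_neg hi.1, hm1 i hi]
    unfold rf
    module
  have hρT' : ∀ i, T i → ρ' i = rf (v i) (μ i) := by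
    intro i hi
    rw [hρ']
    simp only [if_neg hi.1, hm1 i hi, inv_neg, inv_one]
    unfold rf
    module
  -- the data of the separation
  have hcur : N - ρ * N * ρ' ∈ 𝔤 := hL.cur ρ ρ' hRR hR hR'
  have hodd : ex0 n T (fun j => offd (vecMulVec (v j) (μ j)) (N j)) ∈ 𝔤 := by
    have h1 : ∀ i, ¬ T i → (Pi.single i ((N - ρ * N * ρ') i) : ∀ j, Matrix (Fin (n j)) (Fin (n j)) ℂ) ∈ 𝔤 := by
      intro i hi
      by_cases hU : U i
      · have : (N - ρ * N * ρ') i = 0 := by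
          rw [Pi.sub_apply, Pi.mul_apply, Pi.mul_apply, hρ, hρ']
          simp only [if_pos hU, zero_vecMulVec, smul_zero, add_zero, one_mul, mul_one, sub_self]
        rw [this, Pi.single_zero]
        exact 𝔤.zero_mem
      · have hz' : ζ i ^ 2 ≠ 1 := fun h => hi ⟨hU, h⟩
        refine ref_big hSEPR hREFLA hL hM i hU hz' _ ?_
        rw [mem_slm, Pi.sub_apply, Pi.mul_apply, Pi.mul_apply, trace_sub, Matrix.mul_assoc, Matrix.trace_mul_comm (ρ i),
          Matrix.mul_assoc]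
        have : ρ' i * ρ i = 1 := by
          have := congrFun hRR i
          rw [Pi.mul_apply, Pi.one_apply] at this
          exact mul_eq_one_comm.1 this
        rw [this, mul_one, sub_self]
    have h2 : N - ρ * N * ρ' - ∑ i ∈ Finset.univ.filter (fun i => ¬ T i), Pi.single i ((N - ρ * N * ρ') i) ∈ 𝔤 :=
      𝔤.sub_mem hcur (𝔤.sum_mem fun i hi => h1 i (Finset.mem_filter.1 hi).2)
    have h3 : (2 : ℂ) • ex0 n T (fun j => offd (vecMulVec (v j) (μ j)) (N j)) =
        N - ρ * N * ρ' - ∑ i ∈ Finset.univ.filter (fun i => ¬ T i), Pi.single i ((N - ρ * N * ρ') i) := by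
      funext k
      have e1 : (∑ i ∈ Finset.univ.filter (fun i => ¬ T i), (Pi.single i ((N - ρ * N * ρ') i) :
          ∀ j, Matrix (Fin (n j)) (Fin (n j)) ℂ)) k = if T k then 0 else (N - ρ * N * ρ') k := by
        rw [Finset.sum_apply]
        by_cases hk : T k
        · rw [if_pos hk]
          refine Finset.sum_eq_zero fun i hi => ?_
          rw [Pi.single_eq_of_ne]
          rintro rfl
          exact (Finset.mem_filter.1 hi).2 hk
        · rw [if_neg hk, Finset.sum_eq_single k]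
          · rw [Pi.single_eq_same]
          · intro i _ hik
            rw [Pi.single_eq_of_ne (Ne.symm hik)]
          · intro h
            exact absurd (Finset.mem_filter.2 ⟨Finset.mem_univ k, hk⟩) h
      rw [Pi.smul_apply, Pi.sub_apply, e1]
      by_cases hk : T k
      · rw [if_pos hk, sub_zero, ex0_pos _ hk, two_offd (hM.ref k hk.1).1, Pi.sub_apply, Pi.mul_apply, Pi.mul_apply,
          hρT k hk, hρT' k hk]
      · rw [if_neg hk, sub_self, ex0_neg _ hk, smul_zero]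
    have h4 := 𝔤.smul_mem (2 : ℂ)⁻¹ (h3 ▸ h2)
    rwa [smul_smul, inv_mul_cancel₀ (by norm_num), one_smul] at h4
  have hST : ST (fun j : {j // T j} => n j) (fun j => N j) (fun j => J j) (fun j => v j) (fun j => μ j) (fun j => O j)
      (𝔤.comap (ex0 n T)) := by
    refine ⟨fun i => hM.two i, fun i => hL.nil i, fun i => (hM.ref i i.2.1).1, fun i => hM.cyc i, ?_, ?_, ?_, hodd,
      fun i hi => hM.tyO i i.2.1 i.2.2 hi, fun i hi => hM.tyS i i.2.1 i.2.2 hi, fun i k hik => ?_, fun i k hik => ?_,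
      fun i k hi hk => hM.no23 i k i.2.1 i.2.2 k.2.1 k.2.2 hi hk⟩
    · intro X hX
      rw [Submodule.mem_comap] at hX ⊢
      have h1 := ex0_left (T := T) N 1 X
      have h2 := ex0_left (T := T) 1 N X
      rw [mul_one] at h1
      rw [one_mul] at h2
      have e0 : rs T (1 : ∀ j, Matrix (Fin (n j)) (Fin (n j)) ℂ) = 1 := rfl
      rw [e0, mul_one] at h1
      rw [e0, one_mul] at h2
      show ex0 n T (rs T N * X - X * rs T N) ∈ 𝔤
      rw [map_sub, h1, h2]
      exact hL.adN _ hX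
    · intro X hX Z hZ
      rw [Submodule.mem_comap] at hX hZ ⊢
      rw [map_sub, ex0_mul, ex0_mul]
      exact hL.brk _ hX _ hZ
    · intro X hX
      rw [Submodule.mem_comap] at hX ⊢
      have h1 := ex0_left (T := T) ρ ρ' X
      have e1 : rs T ρ = fun j : {j // T j} => rf (v j) (μ j) := funext fun i => hρT i i.2
      have e2 : rs T ρ' = fun j : {j // T j} => rf (v j) (μ j) := funext fun i => hρT' i i.2
      rw [e1, e2] at h1
      rw [h1]
      exact hL.conj ρ ρ' hRR hR hR' _ hX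
    · refine (hM.sepR i k (fun h => hik (Subtype.ext h)) i.2.1 k.2.1).1 ?_
      rw [hm1 i i.2, hm1 k k.2]
    · refine (hM.sepR i k (fun h => hik (Subtype.ext h)) i.2.1 k.2.1).2 ?_
      rw [hm1 i i.2, hm1 k k.2]
      norm_num
  have h5 := sept hOD hR2 hSI hRIB hPA hRO hSO hPO hST ⟨j, hj, hz⟩ Z hZ
  rw [Submodule.mem_comap, ex0_single] at h5
  exact h5

end two

open Classical in
/-- **the group** -/
theorem grp2 (hSEP : S_SEP') (hSEPR : S_SEPR2) (hREFLA : S_REFLA) (hOD : S_OD) (hR2 : S_REFL2A) (hSI : S_SIMP)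
    (hRIB : S_RIB) (hPA : S_PAIR) (hRO : S_REFLO) (hSO : S_SIMPO) (hPO : S_PAIRO) (hSOG : S_SOG) (hL : LP N S 𝔤)
    (hex : ∀ X ∈ 𝔤, X * X * X = 0 → ∀ t : ℂ, 1 + t • X + (t ^ 2 / 2) • (X * X) ∈ S)
    (hM : LM2 N J S v μ ζ U O κ) :
    (∀ j, U j → ∀ s : ℂ, Pi.mulSingle j (1 + s • vecMulVec (v j) (μ j)) ∈ S) ∧
    (∀ j, ¬ U j → (ζ j ^ 2 = 1 → ¬ O j) → ∀ g : Matrix (Fin (n j)) (Fin (n j)) ℂ, g.det = 1 → Pi.mulSingle j g ∈ S) ∧
    ∀ j, ¬ U j → ζ j ^ 2 = 1 → O j → ∀ g : Matrix (Fin (n j)) (Fin (n j)) ℂ, g.transpose * J j * g = J j → g.det = 1 →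
      Pi.mulSingle j g ∈ S := by
  refine ⟨?_, ?_, ?_⟩
  · intro j hj s
    have h1 := hSEP r n N (fun j => if U j then v j else 0) μ S hL.nil (fun i => ?_) hL.econj (uni_part2 hL hM)
      (fun M hM' => ?_) (fun i k hik hi hk => ?_) j s
    · simp only [if_pos hj] at h1
      exact h1
    · show μ i ⬝ᵥ (if U i then v i else 0) = 0
      by_cases hi : U i
      · rw [if_pos hi]
        exact hM.uni i hi
      · rw [if_neg hi, dotProduct_zero]
    · exact hL.clos M {c | c ≠ 0} (Set.infinite_of_finite_compl (by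
        have : {c : ℂ | c ≠ 0}ᶜ = {0} := by
          ext c
          simp
        rw [this]
        exact Set.finite_singleton 0)) (fun c hc => hM' c hc) 0
    · have hi' : U i := by
        by_contra h
        simp only [if_neg h] at hi
        exact hi rfl
      have hk' : U k := by
        by_contra h
        simp only [if_neg h] at hk
        exact hk rfl
      simp only [if_pos hi', if_pos hk']
      exact hM.sepU i k hik hi' hk'
  · intro j hj hO g hg
    refine grp_sl hL j (fun Z hZ => ?_) g hg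
    by_cases hz : ζ j ^ 2 = 1
    · refine ref_two hSEPR hREFLA hOD hR2 hSI hRIB hPA hRO hSO hPO hL hM j hj hz Z ?_
      rw [Lb_S (hO hz)]
      exact hZ
    · exact ref_big hSEPR hREFLA hL hM j hj hz Z hZ
  · intro j hj hz hO g hg hg1
    have hOT := hM.tyO j hj hz hO
    refine grp_so hSOG hex j hOT.three hOT.sym hOT.det (fun Z hZ => ?_) g hg hg1
    refine ref_two hSEPR hREFLA hOD hR2 hSI hRIB hPA hRO hSO hPO hL hM j hj hz Z ?_
    rw [Lb_O hO]
    exact hZ

end Pool.Agent.Run7.h225.HG
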