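import Pool.Agent.Run7.h225.HG.Iface4

/-!
# The numbers `h(m)` determine the size and the function `q`
-/

set_option autoImplicit false

open Matrix Pool.Agent.Y119.HY

namespace Pool.Agent.Run7.h225.HG.HQ

variable {n : ℕ} {N : Matrix (Fin n) (Fin n) ℂ} {v μ : Fin n → ℂ}

/-- `d = μ(N v)` -/
noncomputable def dd (N : Matrix (Fin n) (Fin n) ℂ) (v μ : Fin n → ℂ) : ℂ := μ ⬝ᵥ (N *ᵥ v)

/-- `A = N - d` -/
noncomputable def AA (N : Matrix (Fin n) (Fin n) ℂ) (v μ : Fin n → ℂ) : Matrix (Fin n) (Fin n) ℂ := N - dd N v μ • 1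

/-- `c_k = μ(A^k v)` -/
noncomputable def cc (N : Matrix (Fin n) (Fin n) ℂ) (v μ : Fin n → ℂ) (k : ℕ) : ℂ := μ ⬝ᵥ ((AA N v μ ^ k) *ᵥ v)

/-- `w_m` -/
noncomputable def ww (N : Matrix (Fin n) (Fin n) ℂ) (v μ : Fin n → ℂ) : ℕ → (Fin n → ℂ)
  | 0 => AA N v μ *ᵥ v
  | m + 1 => AA N v μ *ᵥ ww N v μ m - (μ ⬝ᵥ (N *ᵥ ww N v μ m)) • v

lemma AA_mulVec (w : Fin n → ℂ) : AA N v μ *ᵥ w = N *ᵥ w - dd N v μ • w := by
  unfold AA
  rw [sub_mulVec, smul_mulVec, one_mulVec]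

lemma ww_mu (h1 : μ ⬝ᵥ v = 1) (m : ℕ) : μ ⬝ᵥ ww N v μ m = 0 := by
  induction m with
  | zero =>
    show μ ⬝ᵥ (AA N v μ *ᵥ v) = 0
    rw [AA_mulVec, dotProduct_sub, dotProduct_smul, h1, smul_eq_mul, mul_one]
    exact sub_self _
  | succ m ih =>
    show μ ⬝ᵥ (AA N v μ *ᵥ ww N v μ m - (μ ⬝ᵥ (N *ᵥ ww N v μ m)) • v) = 0
    rw [AA_mulVec, dotProduct_sub, dotProduct_sub, dotProduct_smul, dotProduct_smul, h1, ih, smul_eq_mul, smul_eq_mul,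
      mul_zero, mul_one, sub_zero, sub_self]

lemma mu_n0 (h1 : μ ⬝ᵥ v = 1) : μ ᵥ* n0 N (vecMulVec v μ) = dd N v μ • μ := by
  have e1 : μ ᵥ* vecMulVec v μ = μ := by rw [vecMul_vecMulVec, h1, one_smul]
  have e2 : μ ᵥ* (1 - vecMulVec v μ) = 0 := by rw [vecMul_sub, vecMul_one, e1, sub_self]
  unfold n0
  rw [vecMul_add, ← vecMul_vecMul, ← vecMul_vecMul, e1, ← vecMul_vecMul, ← vecMul_vecMul, e2, zero_vecMul, zero_vecMul,
    add_zero, vecMul_vecMulVec, ← dotProduct_mulVec]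
  rfl

lemma n0_mulVec {w : Fin n → ℂ} (hw : μ ⬝ᵥ w = 0) :
    n0 N (vecMulVec v μ) *ᵥ w = N *ᵥ w - (μ ⬝ᵥ (N *ᵥ w)) • v := by
  have e1 : vecMulVec v μ *ᵥ w = 0 := by
    rw [vecMulVec_mulVec, hw]
    simp
  have e2 : (1 - vecMulVec v μ) *ᵥ w = w := by rw [sub_mulVec, one_mulVec, e1, sub_zero]
  unfold n0
  rw [add_mulVec, ← mulVec_mulVec, ← mulVec_mulVec, e1, mulVec_zero, mulVec_zero, zero_add, ← mulVec_mulVec, ← mulVec_mulVec,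
    e2, sub_mulVec, one_mulVec, vecMulVec_mulVec]
  congr 1
  funext i
  simp [mul_comm]

lemma iter (h1 : μ ⬝ᵥ v = 1) (m : ℕ) :
    (fun X => n0 N (vecMulVec v μ) * X - X * n0 N (vecMulVec v μ))^[m] ((1 - vecMulVec v μ) * N * vecMulVec v μ) =
      vecMulVec (ww N v μ m) μ := by
  induction m with
  | zero =>
    show (1 - vecMulVec v μ) * N * vecMulVec v μ = vecMulVec (AA N v μ *ᵥ v) μ
    rw [mul_vecMulVec, AA_mulVec, ← mulVec_mulVec, sub_mulVec, one_mulVec, vecMulVec_mulVec]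
    congr 2
    funext i
    simp [dd, mul_comm]
  | succ m ih =>
    rw [Function.iterate_succ_apply', ih]
    show n0 N (vecMulVec v μ) * vecMulVec (ww N v μ m) μ - vecMulVec (ww N v μ m) μ * n0 N (vecMulVec v μ) =
      vecMulVec (AA N v μ *ᵥ ww N v μ m - (μ ⬝ᵥ (N *ᵥ ww N v μ m)) • v) μ
    rw [mul_vecMulVec, vecMulVec_mul, mu_n0 h1, n0_mulVec (ww_mu h1 m), AA_mulVec, vecMulVec_smul, sub_vecMulVec,
      sub_vecMulVec, sub_vecMulVec, smul_vecMulVec, smul_vecMulVec]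
    abel

lemma hm_eq (h1 : μ ⬝ᵥ v = 1) (m : ℕ) : hm N v μ m = μ ⬝ᵥ (N *ᵥ ww N v μ m) := by
  unfold hm
  rw [iter h1, mul_vecMulVec, ← mulVec_mulVec, sub_mulVec, one_mulVec, vecMulVec_mulVec, ww_mu h1]
  have e1 : (MulOpposite.op (0 : ℂ)) • v = 0 := by simp
  rw [e1, sub_zero, ← mulVec_mulVec, vecMulVec_mulVec, trace_vecMulVec]
  have e2 : (MulOpposite.op (μ ⬝ᵥ (N *ᵥ ww N v μ m))) • v = (μ ⬝ᵥ (N *ᵥ ww N v μ m)) • v := by
    funext i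
    simp [mul_comm]
  rw [e2, smul_dotProduct, dotProduct_comm v μ, h1, smul_eq_mul, mul_one]

lemma ww_eq (h1 : μ ⬝ᵥ v = 1) (m : ℕ) : ww N v μ m = (AA N v μ ^ (m + 1)) *ᵥ v -
    ∑ l ∈ Finset.range m, hm N v μ l • ((AA N v μ ^ (m - 1 - l)) *ᵥ v) := by
  induction m with
  | zero =>
    rw [Finset.range_zero, Finset.sum_empty, sub_zero, zero_add, pow_one]
    rfl
  | succ m ih =>
    show AA N v μ *ᵥ ww N v μ m - (μ ⬝ᵥ (N *ᵥ ww N v μ m)) • v = _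
    rw [← hm_eq h1, ih, mulVec_sub, mulVec_mulVec, ← pow_succ', Finset.sum_range_succ, mulVec_sum, sub_add_eq_sub_sub]
    congr 1
    · congr 1
      refine Finset.sum_congr rfl fun l hl => ?_
      rw [Finset.mem_range] at hl
      rw [mulVec_smul, mulVec_mulVec, ← pow_succ']
      congr 3
      omega
    · rw [show m + 1 - 1 - m = 0 by omega, pow_zero, one_mulVec]

lemma cc_zero (h1 : μ ⬝ᵥ v = 1) : cc N v μ 0 = 1 := by
  unfold cc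
  rw [pow_zero, one_mulVec, h1]

lemma cc_succ (h1 : μ ⬝ᵥ v = 1) (m : ℕ) : cc N v μ (m + 1) = ∑ l ∈ Finset.range m, hm N v μ l * cc N v μ (m - 1 - l) := by
  have h2 := ww_mu (N := N) h1 m
  rw [ww_eq h1, dotProduct_sub, dotProduct_sum] at h2
  have h3 := sub_eq_zero.1 h2
  unfold cc
  rw [h3]
  refine Finset.sum_congr rfl fun l _ => ?_
  rw [dotProduct_smul, smul_eq_mul]

/-- the linear form on polynomials -/
noncomputable def LL (A : Matrix (Fin n) (Fin n) ℂ) (v μ : Fin n → ℂ) : Polynomial ℂ →ₗ[ℂ] ℂ where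
  toFun := fun f => μ ⬝ᵥ ((Polynomial.aeval A f) *ᵥ v)
  map_add' := fun f g => by rw [map_add, add_mulVec, dotProduct_add]
  map_smul' := fun c f => by rw [map_smul, smul_mulVec, dotProduct_smul]; rfl

variable {n₁ n₂ : ℕ} {N₁ : Matrix (Fin n₁) (Fin n₁) ℂ} {N₂ : Matrix (Fin n₂) (Fin n₂) ℂ}
  {v₁ μ₁ : Fin n₁ → ℂ} {v₂ μ₂ : Fin n₂ → ℂ} {ε : ℂ}

lemma cc_rel (h1 : μ₁ ⬝ᵥ v₁ = 1) (h2 : μ₂ ⬝ᵥ v₂ = 1) (hε : ε * ε = 1)
    (hh : ∀ m, hm N₁ v₁ μ₁ m = ε ^ m * hm N₂ v₂ μ₂ m) (k : ℕ) : cc N₁ v₁ μ₁ k = ε ^ k * cc N₂ v₂ μ₂ k := by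
  induction k using Nat.strong_induction_on with
  | _ k ih =>
    cases k with
    | zero => rw [cc_zero h1, cc_zero h2, pow_zero, mul_one]
    | succ m =>
      rw [cc_succ h1, cc_succ h2, Finset.mul_sum]
      refine Finset.sum_congr rfl fun l hl => ?_
      rw [Finset.mem_range] at hl
      rw [hh, ih (m - 1 - l) (by omega)]
      have e1 : ε ^ (m + 1) = ε ^ l * ε ^ (m - 1 - l) := by
        have e2 : m + 1 = l + (m - 1 - l) + 2 := by omega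
        conv_lhs => rw [e2]
        rw [pow_add, pow_add, pow_two, hε, mul_one]
      rw [e1]
      ring

lemma core (hn₁ : 1 ≤ n₁) (hn₂ : 1 ≤ n₂) (hN₁ : N₁ ^ n₁ = 0) (hN₂ : N₂ ^ n₂ = 0) (h1 : μ₁ ⬝ᵥ v₁ = 1)
    (h2 : μ₂ ⬝ᵥ v₂ = 1) (hc₁ : μ₁ ⬝ᵥ ((N₁ ^ (n₁ - 1)) *ᵥ v₁) ≠ 0) (hc₂ : μ₂ ⬝ᵥ ((N₂ ^ (n₂ - 1)) *ᵥ v₂) ≠ 0)
    (hε : ε * ε = 1) (hh : ∀ m, hm N₁ v₁ μ₁ m = ε ^ m * hm N₂ v₂ μ₂ m) :
    n₁ = n₂ ∧ ∀ x, qf N₁ v₁ μ₁ x = qf N₂ v₂ μ₂ (ε * x) := by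
  set d₁ := dd N₁ v₁ μ₁ with hd₁
  set d₂ := ε * dd N₂ v₂ μ₂ with hd₂
  have hε0 : ε ≠ 0 := left_ne_zero_of_mul (hε.symm ▸ one_ne_zero)
  -- the linear forms agree
  have hL : LL (AA N₁ v₁ μ₁) v₁ μ₁ = LL (ε • AA N₂ v₂ μ₂) v₂ μ₂ := by
    refine Polynomial.lhom_ext' fun k => LinearMap.ext_ring ?_
    show μ₁ ⬝ᵥ ((Polynomial.aeval (AA N₁ v₁ μ₁) (Polynomial.monomial k (1 : ℂ))) *ᵥ v₁) =
      μ₂ ⬝ᵥ ((Polynomial.aeval (ε • AA N₂ v₂ μ₂) (Polynomial.monomial k (1 : ℂ))) *ᵥ v₂)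
    rw [Polynomial.aeval_monomial, Polynomial.aeval_monomial, map_one, map_one, one_mul, one_mul, smul_pow, smul_mulVec,
      dotProduct_smul]
    exact cc_rel h1 h2 hε hh k
  have hd : d₁ = d₂ := by
    by_contra hne
    have hcop : IsCoprime ((Polynomial.X + Polynomial.C d₁) ^ n₁) ((Polynomial.X + Polynomial.C d₂) ^ n₂) := by
      refine IsCoprime.pow ?_
      have h3 := Polynomial.isCoprime_X_sub_C_of_isUnit_sub (a := -d₁) (b := -d₂) (by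
        rw [isUnit_iff_ne_zero]
        intro h0
        apply hne
        linear_combination -h0)
      simpa using h3
    obtain ⟨a, b, hab⟩ := hcop
    have h3 : LL (AA N₁ v₁ μ₁) v₁ μ₁ (a * (Polynomial.X + Polynomial.C d₁) ^ n₁) = 0 := by
      show μ₁ ⬝ᵥ ((Polynomial.aeval (AA N₁ v₁ μ₁) (a * (Polynomial.X + Polynomial.C d₁) ^ n₁)) *ᵥ v₁) = 0
      have e1 : Polynomial.aeval (AA N₁ v₁ μ₁) ((Polynomial.X + Polynomial.C d₁) ^ n₁) = 0 := by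
        rw [map_pow, map_add, Polynomial.aeval_X, Polynomial.aeval_C, Algebra.algebraMap_eq_smul_one]
        unfold AA
        rw [← hd₁, sub_add_cancel, hN₁]
      rw [map_mul, e1, mul_zero, zero_mulVec, dotProduct_zero]
    have h4 : LL (ε • AA N₂ v₂ μ₂) v₂ μ₂ (b * (Polynomial.X + Polynomial.C d₂) ^ n₂) = 0 := by
      show μ₂ ⬝ᵥ ((Polynomial.aeval (ε • AA N₂ v₂ μ₂) (b * (Polynomial.X + Polynomial.C d₂) ^ n₂)) *ᵥ v₂) = 0
      have e1 : Polynomial.aeval (ε • AA N₂ v₂ μ₂) ((Polynomial.X + Polynomial.C d₂) ^ n₂) = 0 := by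
        rw [map_pow, map_add, Polynomial.aeval_X, Polynomial.aeval_C, Algebra.algebraMap_eq_smul_one]
        unfold AA
        rw [smul_sub, smul_smul, ← hd₂, sub_add_cancel, smul_pow, hN₂, smul_zero]
      rw [map_mul, e1, mul_zero, zero_mulVec, dotProduct_zero]
    have h5 : LL (AA N₁ v₁ μ₁) v₁ μ₁ 1 = 1 := by
      show μ₁ ⬝ᵥ ((Polynomial.aeval (AA N₁ v₁ μ₁) 1) *ᵥ v₁) = 1
      rw [map_one, one_mulVec, h1]
    rw [← hab, map_add, h3, zero_add, hL, h4] at h5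
    exact zero_ne_one h5
  have hpow : ∀ k, μ₁ ⬝ᵥ ((N₁ ^ k) *ᵥ v₁) = ε ^ k * (μ₂ ⬝ᵥ ((N₂ ^ k) *ᵥ v₂)) := by
    intro k
    have h3 := congrArg (fun l => l ((Polynomial.X + Polynomial.C d₁) ^ k)) hL
    have h4 : μ₁ ⬝ᵥ ((Polynomial.aeval (AA N₁ v₁ μ₁) ((Polynomial.X + Polynomial.C d₁) ^ k)) *ᵥ v₁) =
      μ₂ ⬝ᵥ ((Polynomial.aeval (ε • AA N₂ v₂ μ₂) ((Polynomial.X + Polynomial.C d₁) ^ k)) *ᵥ v₂) := h3
    have e1 : Polynomial.aeval (AA N₁ v₁ μ₁) ((Polynomial.X + Polynomial.C d₁) ^ k) = N₁ ^ k := by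
      rw [map_pow, map_add, Polynomial.aeval_X, Polynomial.aeval_C, Algebra.algebraMap_eq_smul_one]
      unfold AA
      rw [← hd₁, sub_add_cancel]
    have e2 : Polynomial.aeval (ε • AA N₂ v₂ μ₂) ((Polynomial.X + Polynomial.C d₁) ^ k) = ε ^ k • N₂ ^ k := by
      rw [hd, map_pow, map_add, Polynomial.aeval_X, Polynomial.aeval_C, Algebra.algebraMap_eq_smul_one]
      unfold AA
      rw [smul_sub, smul_smul, ← hd₂, sub_add_cancel, smul_pow]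
    rw [e1, e2, smul_mulVec, dotProduct_smul, smul_eq_mul] at h4
    exact h4
  have hn : n₁ = n₂ := by
    rcases lt_trichotomy n₁ n₂ with h | h | h
    · exfalso
      have h3 := hpow (n₂ - 1)
      rw [pow_eq_zero_of_le (by omega : n₁ ≤ n₂ - 1) hN₁, zero_mulVec, dotProduct_zero] at h3
      rcases mul_eq_zero.1 h3.symm with h4 | h4
      · exact pow_ne_zero _ hε0 h4
      · exact hc₂ h4
    · exact h
    · exfalso
      have h3 := hpow (n₁ - 1)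
      rw [pow_eq_zero_of_le (by omega : n₂ ≤ n₁ - 1) hN₂, zero_mulVec, dotProduct_zero, mul_zero] at h3
      exact hc₁ h3
  refine ⟨hn, fun x => ?_⟩
  unfold qf E
  rw [sum_mulVec, sum_mulVec, dotProduct_sum, dotProduct_sum]
  refine Finset.sum_congr (by rw [hn]) fun k _ => ?_
  rw [smul_mulVec, smul_mulVec, dotProduct_smul, dotProduct_smul, hpow, mul_pow]
  simp only [smul_eq_mul]
  ring

theorem p_HQ : S_HQ := by
  intro n₁ n₂ N₁ N₂ v₁ μ₁ v₂ μ₂ hn₁ hn₂ hN₁ hN₂ h1 h2 hc₁ hc₂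
  constructor
  · intro hh
    have := core (ε := 1) hn₁ hn₂ hN₁ hN₂ h1 h2 hc₁ hc₂ (mul_one 1) (fun m => by rw [one_pow, one_mul]; exact hh m)
    simpa using this
  · intro hh
    have := core (ε := -1) hn₁ hn₂ hN₁ hN₂ h1 h2 hc₁ hc₂ (by norm_num) hh
    simpa using this

end Pool.Agent.Run7.h225.HG.HQ
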