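import Pool.Agent.Run7.h225.HG.Iface2

/-!
# INT: intertwiners (helper13)

Proof of `S_INT` (`Iface2.lean`).
-/

set_option autoImplicit false

open PowerSeries Matrix
open Pool.Agent.Y119.HY

namespace Pool.Agent.Run7.h225.HG.INT

variable {n : ℕ}

/-! ### formal part -/

section formal

variable {R : Type*} [Ring R] [Algebra ℂ R]

/-- `z dφ/dz + [φ, A]` -/
noncomputable def dv (A : R) (φ : PowerSeries R) : PowerSeries R :=
  PowerSeries.mk (fun k => (k : ℂ) • coeff k φ) + φ * C A - C A * φ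

lemma coeff_dv (A : R) (φ : PowerSeries R) (k : ℕ) :
    coeff k (dv A φ) = (k : ℂ) • coeff k φ + (coeff k φ * A - A * coeff k φ) := by
  unfold dv
  rw [map_sub, map_add, coeff_mk, coeff_mul_C, coeff_C_mul, add_sub_assoc]

lemma dv_mul (A : R) (φ ψ : PowerSeries R) : dv A (φ * ψ) = dv A φ * ψ + φ * dv A ψ := by
  have h : PowerSeries.mk (fun k => (k : ℂ) • coeff k (φ * ψ)) =
      PowerSeries.mk (fun k => (k : ℂ) • coeff k φ) * ψ + φ * PowerSeries.mk (fun k => (k : ℂ) • coeff k ψ) := by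
    ext k
    rw [coeff_mk, map_add, coeff_mul, coeff_mul, coeff_mul, Finset.smul_sum, ← Finset.sum_add_distrib]
    refine Finset.sum_congr rfl fun p hp => ?_
    rw [coeff_mk, coeff_mk, smul_mul_assoc, mul_smul_comm, ← add_smul]
    congr 1
    rw [← Finset.HasAntidiagonal.mem_antidiagonal.1 hp]
    push_cast
    rfl
  unfold dv
  rw [h]
  noncomm_ring

lemma dv_C {A g : R} (h : A * g = g * A) : dv A (C g) = 0 := by
  ext k
  rw [coeff_dv, map_zero, coeff_C]
  split_ifs with hk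
  · rw [hk, h]
    simp
  · simp

omit [Algebra ℂ R] in
lemma one_sub_X_comm (φ : PowerSeries R) : (1 - X) * φ = φ * (1 - X) := by
  rw [sub_mul, mul_sub, one_mul, mul_one, X_mul]

lemma step_iff {A : R} {φ ψ : PowerSeries R} (h0 : coeff 0 (dv A φ) = 0)
    (hs : ∀ k, coeff (k + 1) (dv A φ) = coeff k (dv A φ) + coeff k ψ) : (1 - X) * dv A φ = X * ψ := by
  ext k
  rw [sub_mul, one_mul, map_sub]
  rcases k with _ | k
  · rw [coeff_zero_X_mul, coeff_zero_X_mul, h0, sub_zero]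
  · rw [coeff_succ_X_mul, coeff_succ_X_mul, hs]
    abel

lemma step_of {A : R} {φ ψ : PowerSeries R} (h : (1 - X) * dv A φ = X * ψ) (k : ℕ) :
    coeff (k + 1) (dv A φ) = coeff k (dv A φ) + coeff k ψ := by
  have h1 := congrArg (coeff (k + 1)) h
  rw [sub_mul, one_mul, map_sub, coeff_succ_X_mul, coeff_succ_X_mul] at h1
  rw [← h1]
  abel

/-- the product of a solution and a dual solution -/
lemma prod_step {A g B₁ B₂ : R} {h t : PowerSeries R} (hg : A * g = g * A) (hh : (1 - X) * dv A h = X * (C B₂ * h))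
    (ht : (1 - X) * dv A t = X * -(t * C B₁)) :
    (1 - X) * dv A (h * C g * t) = X * (C B₂ * (h * C g * t) - h * C g * t * C B₁) := by
  rw [dv_mul, dv_mul, dv_C hg, mul_zero, add_zero, mul_add]
  have e1 : (1 - X) * (dv A h * C g * t) = X * (C B₂ * (h * C g * t)) := by
    rw [← mul_assoc, ← mul_assoc, hh]
    simp only [mul_assoc]
  have e2 : (1 - X) * (h * C g * dv A t) = X * -(h * C g * t * C B₁) := by
    rw [← mul_assoc, one_sub_X_comm, mul_assoc, ht, ← mul_assoc, ← X_mul, mul_assoc]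
    congr 1
    rw [mul_neg, mul_assoc]
    simp only [mul_assoc]
  rw [e1, e2, ← mul_add, sub_eq_add_neg]

end formal

variable {A B : Matrix (Fin n) (Fin n) ℂ} {H H' : ℕ → Matrix (Fin n) (Fin n) ℂ}

lemma sol_dv (hH : Sol A B H) : (1 - X) * dv A (PowerSeries.mk H) = X * (C B * PowerSeries.mk H) := by
  refine step_iff ?_ fun k => ?_
  · rw [coeff_dv, coeff_mk, hH.zero]
    simp
  · rw [coeff_dv, coeff_dv, coeff_C_mul, coeff_mk, coeff_mk]
    have := hH.step k
    push_cast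
    exact this

lemma sol_dv' (hH : Sol (-A.transpose) (-B.transpose) H') :
    (1 - X) * dv A (PowerSeries.mk fun k => (H' k).transpose) = X * -((PowerSeries.mk fun k => (H' k).transpose) * C B) := by
  refine step_iff ?_ fun k => ?_
  · rw [coeff_dv, coeff_mk, hH.zero]
    simp
  · rw [coeff_dv, coeff_dv, map_neg, coeff_mul_C, coeff_mk, coeff_mk]
    have := congrArg Matrix.transpose (hH.step k)
    simp only [Matrix.transpose_add, Matrix.transpose_sub, Matrix.transpose_smul, Matrix.transpose_mul,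
      Matrix.transpose_neg, Matrix.transpose_transpose] at this
    push_cast
    calc _ = ((k : ℂ) + 1) • (H' (k + 1)).transpose + (-A * (H' (k + 1)).transpose - (H' (k + 1)).transpose * -A) := by
          simp only [neg_mul, mul_neg]; abel
      _ = _ := by rw [this]; simp only [neg_mul, mul_neg]; abel

/-- the pairing of the solution and the dual solution, formally -/
lemma pair_one (hA : A ^ n = 0) (hH : Sol A B H) (hH' : Sol (-A.transpose) (-B.transpose) H') :
    (PowerSeries.mk fun k => (H' k).transpose) * PowerSeries.mk H = 1 := by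
  have e1 := sol_dv hH
  have e2 := sol_dv' hH'
  set t := PowerSeries.mk fun k => (H' k).transpose with ht
  set h := PowerSeries.mk H with hh
  have h1 : (1 - X) * dv A (t * h) = X * 0 := by
    rw [dv_mul, mul_add, ← mul_assoc, e2, ← mul_assoc, one_sub_X_comm, mul_assoc, mul_assoc, e1, ← mul_assoc t, ← X_mul]
    simp only [mul_assoc, neg_mul, mul_neg, mul_zero]
    abel
  have h2 : ∀ k, coeff k (dv A (t * h)) = 0 := by
    intro k
    induction k with
    | zero =>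
      have := congrArg (coeff 0) h1
      rw [sub_mul, one_mul, map_sub, coeff_zero_X_mul, coeff_zero_X_mul, sub_zero] at this
      exact this
    | succ k ih => rw [step_of h1 k, ih, map_zero, add_zero]
  obtain ⟨p, hp⟩ := DD_nil hA
  ext1 k
  rcases k with _ | k
  · rw [coeff_mul, ht, hh]
    simp [hH.zero, hH'.zero]
  · have h3 := h2 (k + 1)
    rw [coeff_dv] at h3
    have h4 : (((k + 1 : ℕ) : ℂ)) ≠ 0 := by exact_mod_cast Nat.succ_ne_zero k
    have h5 := RR_left hp h4 (coeff (k + 1) (t * h))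
    rw [DD_apply, h3] at h5
    rw [← h5, coeff_one, if_neg (Nat.succ_ne_zero k)]
    unfold RR
    simp


/-! ### analytic part -/

/-- the Cauchy product -/
noncomputable def cv (c d : ℕ → ℂ) (k : ℕ) : ℂ := ∑ p ∈ Finset.HasAntidiagonal.antidiagonal k, c p.1 * d p.2

lemma cv_PG {c d : ℕ → ℂ} (hc : PG c) (hd : PG d) : PG (cv c d) := by
  obtain ⟨a, p, ha⟩ := hc
  obtain ⟨b, q, hb⟩ := hd
  have ha0 := PG.nonneg ha
  have hb0 := PG.nonneg hb
  refine ⟨a * b, p + q + 1, fun k => ?_⟩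
  unfold cv
  have h1 : ∀ x ∈ Finset.HasAntidiagonal.antidiagonal k, ‖c x.1 * d x.2‖ ≤ (a * ((k : ℝ) + 1) ^ p) * (b * ((k : ℝ) + 1) ^ q) := by
    intro x hx
    have hx' := Finset.HasAntidiagonal.mem_antidiagonal.1 hx
    rw [norm_mul]
    have e1 : (x.1 : ℝ) ≤ k := by exact_mod_cast (by omega : x.1 ≤ k)
    have e2 : (x.2 : ℝ) ≤ k := by exact_mod_cast (by omega : x.2 ≤ k)
    refine mul_le_mul ((ha _).trans ?_) ((hb _).trans ?_) (norm_nonneg _) (by positivity)
    · gcongr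
    · gcongr
  refine (norm_sum_le _ _).trans ((Finset.sum_le_sum h1).trans (le_of_eq ?_))
  rw [Finset.sum_const, Finset.Nat.card_antidiagonal, nsmul_eq_mul]
  push_cast
  ring

lemma ps_cv {c d : ℕ → ℂ} (hc : PG c) (hd : PG d) {z : ℂ} (hz : ‖z‖ < 1) : ps (cv c d) z = ps c z * ps d z := by
  unfold ps
  have h1 : Summable fun k => ‖c k * z ^ k‖ :=
    (hc.summable (norm_nonneg z) hz).congr fun k => by rw [norm_mul, norm_pow]
  have h2 : Summable fun k => ‖d k * z ^ k‖ :=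
    (hd.summable (norm_nonneg z) hz).congr fun k => by rw [norm_mul, norm_pow]
  rw [tsum_mul_tsum_eq_tsum_sum_antidiagonal_of_summable_norm h1 h2]
  refine tsum_congr fun k => ?_
  unfold cv
  rw [Finset.sum_mul]
  refine Finset.sum_congr rfl fun p hp => ?_
  rw [← Finset.HasAntidiagonal.mem_antidiagonal.1 hp, pow_add]
  ring

lemma ps_bd {c : ℕ → ℂ} (hc : PG c) : ∃ b : ℝ, ∀ z : ℂ, ‖z‖ ≤ 1 / 2 → ‖ps c z‖ ≤ b := by
  have hs := hc.summable (r := 1 / 2) (by norm_num) (by norm_num)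
  refine ⟨∑' k, ‖c k‖ * (1 / 2) ^ k, fun z hz => ?_⟩
  unfold ps
  refine tsum_of_norm_bounded hs.hasSum fun k => ?_
  rw [norm_mul, norm_pow]
  gcongr

/-- the coefficients of `H g H'ᵀ` -/
noncomputable def Ph (H : ℕ → Matrix (Fin n) (Fin n) ℂ) (g : Matrix (Fin n) (Fin n) ℂ)
    (H' : ℕ → Matrix (Fin n) (Fin n) ℂ) (k : ℕ) : Matrix (Fin n) (Fin n) ℂ :=
  coeff k (PowerSeries.mk H * C g * PowerSeries.mk fun k => (H' k).transpose)

variable {g : Matrix (Fin n) (Fin n) ℂ}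

lemma Ph_entry (k : ℕ) (i j : Fin n) :
    Ph H g H' k i j = ∑ l, ∑ m, g l m * cv (fun k => H k i l) (fun k => H' k j m) k := by
  unfold Ph cv
  rw [coeff_mul, Matrix.sum_apply]
  simp only [Finset.mul_sum]
  rw [Finset.sum_congr rfl fun l _ => Finset.sum_comm, Finset.sum_comm]
  refine Finset.sum_congr rfl fun p _ => ?_
  rw [coeff_mul_C, coeff_mk, coeff_mk, Matrix.mul_apply, Finset.sum_comm]
  refine Finset.sum_congr rfl fun m _ => ?_
  rw [Matrix.mul_apply, Matrix.transpose_apply, Finset.sum_mul]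
  exact Finset.sum_congr rfl fun l _ => by ring

lemma Ph_PG (hH : ∀ i j, PG fun k => H k i j) (hH' : ∀ i j, PG fun k => H' k i j) (i j : Fin n) :
    PG fun k => Ph H g H' k i j := by
  simp only [Ph_entry]
  exact PG.sum _ fun l _ => PG.sum _ fun m _ => (cv_PG (hH i l) (hH' j m)).smul _

lemma ps_Ph (hH : ∀ i j, PG fun k => H k i j) (hH' : ∀ i j, PG fun k => H' k i j) (i j : Fin n) {z : ℂ} (hz : ‖z‖ < 1) :
    ps (fun k => Ph H g H' k i j) z = (Hf H z * g * (Hf H' z).transpose) i j := by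
  have hp : ∀ l m : Fin n, PG fun k => g l m * cv (fun k => H k i l) (fun k => H' k j m) k :=
    fun l m => (cv_PG (hH i l) (hH' j m)).smul _
  have h1 : (fun k => Ph H g H' k i j) =
      fun k => ∑ l, ∑ m, g l m * cv (fun k => H k i l) (fun k => H' k j m) k := funext fun k => Ph_entry k i j
  rw [h1, ps_sum Finset.univ (f := fun l k => ∑ m, g l m * cv (fun k => H k i l) (fun k => H' k j m) k)
    (fun l _ => PG.sum _ fun m _ => hp l m) hz]
  simp only [Matrix.mul_apply, Finset.sum_mul, Matrix.transpose_apply]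
  rw [Finset.sum_comm (f := fun x y => Hf H z i y * g y x * Hf H' z j x)]
  refine Finset.sum_congr rfl fun l _ => ?_
  rw [ps_sum Finset.univ (f := fun m k => g l m * cv (fun k => H k i l) (fun k => H' k j m) k) (fun m _ => hp l m) hz]
  refine Finset.sum_congr rfl fun m _ => ?_
  rw [ps_smul (c := cv (fun k => H k i l) (fun k => H' k j m)), ps_cv (hH i l) (hH' j m) hz]
  unfold Hf
  simp only [Matrix.of_apply]
  ring

/-- the recursion -/
lemma Ph_step {B₁ B₂ : Matrix (Fin n) (Fin n) ℂ} (hg : A * g = g * A) (hH : Sol A B₂ H)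
    (hH' : Sol (-A.transpose) (-B₁.transpose) H') (k : ℕ) :
    ((k : ℂ) + 1) • Ph H g H' (k + 1) + (Ph H g H' (k + 1) * A - A * Ph H g H' (k + 1)) =
    (k : ℂ) • Ph H g H' k + (Ph H g H' k * A - A * Ph H g H' k) + (B₂ * Ph H g H' k - Ph H g H' k * B₁) := by
  have h1 := step_of (prod_step hg (sol_dv hH) (sol_dv' hH')) k
  rw [coeff_dv, coeff_dv, map_sub, coeff_C_mul, coeff_mul_C] at h1
  push_cast at h1
  exact h1

/-! ### the exponentials -/

lemma E_T (N : Matrix (Fin n) (Fin n) ℂ) (s : ℂ) : (E N.transpose s).transpose = E N s := by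
  unfold E
  rw [Matrix.transpose_sum]
  refine Finset.sum_congr rfl fun i _ => ?_
  rw [Matrix.transpose_smul, ← Matrix.transpose_pow, Matrix.transpose_transpose]

lemma E_semi {N N' : Matrix (Fin n) (Fin n) ℂ} (h : N * g = g * N') (s : ℂ) : E N s * g = g * E N' s := by
  have h1 : ∀ i : ℕ, N ^ i * g = g * N' ^ i := by
    intro i
    induction i with
    | zero => simp
    | succ i ih => rw [pow_succ', Matrix.mul_assoc, ih, ← Matrix.mul_assoc, h, Matrix.mul_assoc, ← pow_succ']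
  unfold E
  rw [Finset.sum_mul, Finset.mul_sum]
  refine Finset.sum_congr rfl fun i _ => ?_
  rw [smul_mul_assoc, mul_smul_comm, h1]

lemma point {x : ℂ} {B₁ B₂ g M₂ Mi₁ : Matrix (Fin n) (Fin n) ℂ} {H₂ H₁' K₂ K₁' : ℕ → Matrix (Fin n) (Fin n) ℂ}
    (hA : A ^ n = 0) (hB₁ : B₁ ^ n = 0) (hg : A * g = g * A) (hB : B₂ * (M₂ * g * Mi₁) = (M₂ * g * Mi₁) * B₁)
    (c₂ : Yf A H₂ x = Yf (-B₂) K₂ (1 - x) * M₂)
    (c₁ : Yf (-A.transpose) H₁' x = Yf B₁.transpose K₁' (1 - x) * Mi₁.transpose) :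
    Hf H₂ x * g * (Hf H₁' x).transpose = Hf K₂ (1 - x) * (M₂ * g * Mi₁) * (Hf K₁' (1 - x)).transpose := by
  unfold Yf at c₁ c₂
  set L := Complex.log x
  set ℓ := Complex.log (1 - x)
  have e1 : E A L * E A (-L) = 1 := E_mul_neg hA L
  have e2 : E A (-L) * g = g * E A (-L) := E_semi hg _
  have e3 : (E (-A.transpose) L).transpose = E A (-L) := by rw [E_neg, E_T]
  have e4 : (E B₁.transpose ℓ).transpose = E B₁ ℓ := E_T _ _
  have e5 : E (-B₂) ℓ * (M₂ * g * Mi₁) = (M₂ * g * Mi₁) * E (-B₁) ℓ := by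
    refine E_semi ?_ _
    rw [neg_mul, mul_neg, hB]
  have e6 : E (-B₁) ℓ * E B₁ ℓ = 1 := by
    rw [E_neg, ← E_add hB₁, neg_add_cancel, E_zero hB₁]
  have c₁' := congrArg Matrix.transpose c₁
  rw [Matrix.transpose_mul, Matrix.transpose_mul, Matrix.transpose_mul, Matrix.transpose_transpose, e3, e4] at c₁'
  calc Hf H₂ x * g * (Hf H₁' x).transpose
      = Hf H₂ x * (E A L * E A (-L)) * g * (Hf H₁' x).transpose := by rw [e1, mul_one]
    _ = Hf H₂ x * E A L * (E A (-L) * g) * (Hf H₁' x).transpose := by simp only [Matrix.mul_assoc]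
    _ = (Hf H₂ x * E A L) * g * (E A (-L) * (Hf H₁' x).transpose) := by rw [e2]; simp only [Matrix.mul_assoc]
    _ = Hf K₂ (1 - x) * (E (-B₂) ℓ * (M₂ * g * Mi₁)) * E B₁ ℓ * (Hf K₁' (1 - x)).transpose := by
      rw [c₂, c₁']; simp only [Matrix.mul_assoc]
    _ = Hf K₂ (1 - x) * (M₂ * g * Mi₁) * (E (-B₁) ℓ * E B₁ ℓ) * (Hf K₁' (1 - x)).transpose := by
      rw [e5]; simp only [Matrix.mul_assoc]
    _ = _ := by rw [e6, mul_one]


/-! ### the hypergeometric data -/

lemma Bsq {Q : Polynomial ℚ} (h : Q.coeff (n - 1) = 0) : cm (Bm n Q) * cm (Bm n Q) = 0 := by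
  have h1 : Bm n Q * Bm n Q = 0 := by
    ext i j
    rw [Matrix.mul_apply, Matrix.zero_apply]
    refine Finset.sum_eq_zero fun l _ => ?_
    unfold Bm
    simp only [Matrix.of_apply]
    by_cases hi : (i : ℕ) + 1 = n
    · by_cases hl : (l : ℕ) + 1 = n
      · rw [if_pos hi, show (l : ℕ) = n - 1 by omega, h, zero_mul]
      · rw [if_neg hl, mul_zero]
    · rw [if_neg hi, zero_mul]
  rw [← cm_mul, h1, cm_zero]

lemma nil_of_sq (hn : 2 ≤ n) {B : Matrix (Fin n) (Fin n) ℂ} (h : B * B = 0) : B ^ n = 0 := by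
  have : B ^ n = B ^ 2 * B ^ (n - 2) := by rw [← pow_add]; congr 1; omega
  rw [this, sq, h, zero_mul]

lemma aseq_eq (Q : Polynomial ℚ) (k : ℕ) : ((a0 n Q k : ℚ) : ℂ) = aseq n Q k := by
  induction k with
  | zero =>
    unfold a0 aq aseq
    simp
  | succ k ih =>
    rw [a0_succ, Rat.cast_mul, ih]
    unfold aseq
    rw [Finset.prod_range_succ]

lemma Hc_col (hn : 0 < n) (Q : Polynomial ℚ) (k : ℕ) (j : Fin n) :
    Hc n Q k j ⟨0, hn⟩ = (k : ℂ) ^ (j : ℕ) * aseq n Q k := by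
  rw [← aseq_eq]
  unfold Hc Hq hq a0
  rw [cm_apply, Matrix.of_apply]
  have h1 : PowerSeries.coeff (((⟨0, hn⟩ : Fin n)) : ℕ) (kx k ^ (j : ℕ) * aq n Q k) =
      (k : ℚ) ^ (j : ℕ) * PowerSeries.constantCoeff (aq n Q k) := by
    show PowerSeries.coeff 0 _ = _
    rw [PowerSeries.coeff_zero_eq_constantCoeff_apply, map_mul, map_pow]
    unfold kx
    simp
  rw [h1]
  push_cast
  rfl

lemma col_zero (hn : 0 < n) (hg : cm (Am n) * g = g * cm (Am n)) (i : Fin n) (hi : (i : ℕ) ≠ 0) :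
    g i ⟨0, hn⟩ = 0 := by
  have h1 := congrFun (congrFun hg ⟨i - 1, by omega⟩) ⟨0, hn⟩
  rw [Matrix.mul_apply, Matrix.mul_apply] at h1
  have h2 : ∑ l, g ⟨i - 1, by omega⟩ l * cm (Am n) l ⟨0, hn⟩ = 0 := by
    refine Finset.sum_eq_zero fun l _ => ?_
    rw [cm_apply]
    unfold Am
    simp only [Matrix.of_apply]
    rw [if_neg (by omega)]
    simp
  have h3 : ∑ l, cm (Am n) ⟨i - 1, by omega⟩ l * g l ⟨0, hn⟩ = g i ⟨0, hn⟩ := by
    rw [Finset.sum_eq_single i]
    · rw [cm_apply]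
      unfold Am
      simp only [Matrix.of_apply]
      rw [if_pos (by omega)]
      simp
    · intro b _ hb
      rw [cm_apply]
      unfold Am
      simp only [Matrix.of_apply]
      rw [if_neg]
      · simp
      · intro h'
        exact hb (Fin.ext (by omega))
    · intro h'
      exact absurd (Finset.mem_univ _) h'
  rw [← h3, h1, h2]

end Pool.Agent.Run7.h225.HG.INT

namespace Pool.Agent.Run7.h225.HG

open INT in
theorem p_INT : S_INT := by
  intro hASY hREC n Q₁ Q₂ hQ₁ hQ₂ hz₁ hz₂ H₁' K₁ K₁' H₂' K₂ K₂' M₁ Mi₁ M₂ Mi₂ g gi D₁ D₂ hgi hAg hint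
  have hn := hQ₁.two
  have hn0 : 0 < n := by omega
  have hA : cm (Am n) ^ n = 0 := Ac_nil
  have hB₁s := Bsq hz₁
  have hB₂s := Bsq hz₂
  set A := cm (Am n) with hAd
  set B₁ := cm (Bm n Q₁) with hB₁d
  set B₂ := cm (Bm n Q₂) with hB₂d
  have hB₁ : B₁ ^ n = 0 := nil_of_sq hn hB₁s
  have hB₂ : (-B₂) ^ n = 0 := nil_of_sq hn (by rw [neg_mul_neg, hB₂s])
  have hA' : (-A.transpose) ^ n = 0 := by rw [neg_pow, ← Matrix.transpose_pow, hA, Matrix.transpose_zero, mul_zero]
  have hB₁' : B₁.transpose ^ n = 0 := by rw [← Matrix.transpose_pow, hB₁, Matrix.transpose_zero]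
  have hBg : B₂ * (M₂ * g * Mi₁) = (M₂ * g * Mi₁) * B₁ := by
    calc B₂ * (M₂ * g * Mi₁) = (M₂ * Mi₂) * B₂ * M₂ * g * Mi₁ := by
          rw [D₂.l, one_mul]; simp only [Matrix.mul_assoc]
      _ = M₂ * ((Mi₂ * B₂ * M₂) * g) * Mi₁ := by simp only [Matrix.mul_assoc]
      _ = M₂ * (g * (Mi₁ * B₁ * M₁)) * Mi₁ := by rw [hint]
      _ = M₂ * g * Mi₁ * B₁ * (M₁ * Mi₁) := by simp only [Matrix.mul_assoc]
      _ = _ := by rw [D₁.l, mul_one]
  have g1 : ∀ i j, PG fun k => Hc n Q₂ k i j := fun i j => D₂.hH.growth hA i j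
  have g2 : ∀ i j, PG fun k => H₁' k i j := fun i j => D₁.hH'.growth hA' i j
  have g3 : ∀ i j, PG fun k => K₂ k i j := fun i j => D₂.hK.growth hB₂ i j
  have g4 : ∀ i j, PG fun k => K₁' k i j := fun i j => D₁.hK'.growth hB₁' i j
  have gΦ := Ph_PG (g := g) g1 g2
  have gΨ := Ph_PG (g := M₂ * g * Mi₁) g3 g4
  obtain ⟨K, hK⟩ := hASY n A B₁ B₂ (Ph (Hc n Q₂) g H₁') hB₁s hB₂s (Ph_step hAg D₂.hH D₁.hH')
    (fun i j x h0 h1 => (gΦ i j).summable h0.le h1) (by
      choose b₁ hb₁ using fun i j => ps_bd (gΦ i j)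
      choose b₂ hb₂ using fun i j => ps_bd (gΨ i j)
      refine ⟨∑ i, ∑ j, (|b₁ i j| + |b₂ i j|), fun i j x h0 h1 => ?_⟩
      have e : |b₁ i j| + |b₂ i j| ≤ ∑ i, ∑ j, (|b₁ i j| + |b₂ i j|) :=
        (Finset.single_le_sum (f := fun j => |b₁ i j| + |b₂ i j|) (fun _ _ => by positivity) (Finset.mem_univ j)).trans
          (Finset.single_le_sum (f := fun i => ∑ j, (|b₁ i j| + |b₂ i j|)) (fun _ _ => by positivity) (Finset.mem_univ i))
      have hx1 : ‖(x : ℂ)‖ < 1 := by rw [Complex.norm_real, Real.norm_of_nonneg h0.le]; exact h1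
      refine le_trans ?_ e
      show ‖ps (fun k => Ph (Hc n Q₂) g H₁' k i j) x‖ ≤ _
      by_cases hx : x ≤ 1 / 2
      · have := hb₁ i j x (by rw [Complex.norm_real, Real.norm_of_nonneg h0.le]; exact hx)
        linarith [le_abs_self (b₁ i j), abs_nonneg (b₂ i j)]
      · have e2 : ‖(1 - (x : ℂ))‖ = 1 - x := by
          have : (1 - (x : ℂ)) = ((1 - x : ℝ) : ℂ) := by push_cast; rfl
          rw [this, Complex.norm_real, Real.norm_of_nonneg (by linarith)]
        have hL : (x : ℂ) ∈ Lens := real_mem_Lens h0 h1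
        have e3 : ps (fun k => Ph (Hc n Q₂) g H₁' k i j) x = ps (fun k => Ph K₂ (M₂ * g * Mi₁) K₁' k i j) (1 - x) := by
          rw [ps_Ph g1 g2 i j hx1, ps_Ph g3 g4 i j (by rw [e2]; linarith),
            point hA hB₁ hAg hBg (D₂.con _ hL) (D₁.con' _ hL)]
        rw [e3]
        have := hb₂ i j (1 - x) (by rw [e2]; linarith)
        linarith [le_abs_self (b₂ i j), abs_nonneg (b₁ i j)])
  -- the product with the first solution
  have hprod : PowerSeries.mk (Hc n Q₂) * PowerSeries.C g * (PowerSeries.mk fun k => (H₁' k).transpose) *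
      PowerSeries.mk (Hc n Q₁) = PowerSeries.mk (Hc n Q₂) * PowerSeries.C g := by
    rw [mul_assoc, pair_one hA D₁.hH D₁.hH', mul_one]
  have hsum : ∀ k, K ≤ k → ∑ l ∈ Finset.range K, Ph (Hc n Q₂) g H₁' l * Hc n Q₁ (k - l) = Hc n Q₂ k * g := by
    intro k hk
    have h1 := congrArg (PowerSeries.coeff k) hprod
    rw [PowerSeries.coeff_mul, PowerSeries.coeff_mul_C, PowerSeries.coeff_mk,
      Finset.Nat.sum_antidiagonal_eq_sum_range_succ_mk] at h1
    rw [← h1]
    have h2 : ∑ l ∈ Finset.range k.succ, Ph (Hc n Q₂) g H₁' l * Hc n Q₁ (k - l) =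
        ∑ l ∈ Finset.range K, Ph (Hc n Q₂) g H₁' l * Hc n Q₁ (k - l) := by
      symm
      refine Finset.sum_subset (Finset.range_subset_range.2 (by omega)) fun l _ hl => ?_
      rw [Finset.mem_range, not_lt] at hl
      rw [hK l hl, zero_mul]
    rw [← h2]
    refine Finset.sum_congr rfl fun l _ => ?_
    rw [PowerSeries.coeff_mk]
    rfl
  have hcol := fun i => col_zero (g := g) hn0 hAg i
  have hc : g ⟨0, hn0⟩ ⟨0, hn0⟩ ≠ 0 := by
    intro h0
    have h1 : gi * g = 1 := mul_eq_one_comm.1 hgi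
    have h2 := congrFun (congrFun h1 ⟨0, hn0⟩) ⟨0, hn0⟩
    rw [Matrix.mul_apply, Matrix.one_apply_eq] at h2
    rw [Finset.sum_eq_zero] at h2
    · exact zero_ne_one h2
    · intro l _
      by_cases hl : (l : ℕ) = 0
      · have : l = ⟨0, hn0⟩ := Fin.ext hl
        rw [this, h0, mul_zero]
      · rw [hcol l hl, mul_zero]
  refine hREC n Q₁ Q₂ hQ₁.ne hQ₂.ne K (fun l j => Ph (Hc n Q₂) g H₁' l ⟨0, hn0⟩ j) _ hc fun k hk => ?_
  have h3 : ∑ l, Hc n Q₂ k ⟨0, hn0⟩ l * g l ⟨0, hn0⟩ = aseq n Q₂ k * g ⟨0, hn0⟩ ⟨0, hn0⟩ := by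
    rw [Finset.sum_eq_single (⟨0, hn0⟩ : Fin n)]
    · rw [Hc_col hn0, pow_zero, one_mul]
    · intro b _ hb
      rw [hcol b fun h => hb (Fin.ext h), mul_zero]
    · intro h'
      exact absurd (Finset.mem_univ _) h'
  have h1 := congrFun (congrFun (hsum k hk) ⟨0, hn0⟩) ⟨0, hn0⟩
  rw [Matrix.sum_apply, Matrix.mul_apply, h3] at h1
  rw [mul_comm (g _ _), ← h1]
  refine Finset.sum_congr rfl fun l hl => ?_
  rw [Matrix.mul_apply]
  refine Finset.sum_congr rfl fun j _ => ?_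
  rw [Hc_col hn0, Nat.cast_sub (by have := Finset.mem_range.1 hl; omega), mul_assoc]

end Pool.Agent.Run7.h225.HG
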