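import Pool.Agent.Run7.h225.HG.Iface4
import Pool.Agent.Run7.h225.HG.INT

/-!
# INTR: intertwiners for complex reflections (helper13)

Proof of `S_INTR` (`Iface4.lean`).
-/

set_option autoImplicit false

open PowerSeries Matrix
open Pool.Agent.Y119.HY

namespace Pool.Agent.Run7.h225.HG.INTR

open Pool.Agent.Run7.h225.HG.INT

variable {n : ℕ} {A B : Matrix (Fin n) (Fin n) ℂ} {H H' : ℕ → Matrix (Fin n) (Fin n) ℂ}
  {g : Matrix (Fin n) (Fin n) ℂ}

/-! ### power series around `1` -/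

/-- the coefficients of the derivative `z d/dz` in the variable `w = 1 - z` -/
noncomputable def d1 (c : ℕ → ℂ) (k : ℕ) : ℂ := (k : ℂ) * c k + -1 * (((k + 1 : ℕ) : ℂ) * c (k + 1))

lemma d1_PG {c : ℕ → ℂ} (h : PG c) : PG (d1 c) := h.nat.add ((h.nat.shift).smul (-1))

lemma ps_d1 {c : ℕ → ℂ} (h : PG c) {w : ℂ} (hw : ‖w‖ < 1) (h0 : w ≠ 0) : ps (d1 c) w = (w - 1) * deriv (ps c) w := by
  have h1 := ps_deriv h hw
  have h2 := ps_shift h.nat hw
  rw [Nat.cast_zero, zero_mul, zero_add] at h2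
  have h3 : deriv (ps c) w = ps (fun k => ((k + 1 : ℕ) : ℂ) * c (k + 1)) w := by
    apply mul_left_cancel₀ h0
    rw [h1, h2]
  unfold d1
  rw [ps_add h.nat ((h.nat.shift).smul (-1)) hw, ps_smul, ← h1, ← h3]
  ring

/-- differentiation on the lens -/
lemma lens_step {a c : ℕ → ℂ} (ha : PG a) (hc : PG c) (h : ∀ z ∈ Lens, ps a z = ps c (1 - z)) :
    ∀ z ∈ Lens, ps (fun k => (k : ℂ) * a k) z = ps (d1 c) (1 - z) := by
  intro z hz
  have hz' := mem_Lens.1 hz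
  have h0 : (1 - z) ≠ 0 := by
    intro h'
    have : z = 1 := by linear_combination -h'
    rw [this] at hz'
    simp at hz'
  rw [← ps_deriv ha hz'.1, ps_d1 hc hz'.2 h0]
  have h1 : ps a =ᶠ[nhds z] fun z => ps c (1 - z) := by
    filter_upwards [isOpen_Lens.mem_nhds hz] with w hw using h w hw
  have h2 : HasDerivAt (ps c) (deriv (ps c) (1 - z)) (1 - z) :=
    ((ps_an hc) (1 - z) (by rw [Metric.mem_ball, dist_zero_right]; exact hz'.2)).differentiableAt.hasDerivAt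
  have h3 : HasDerivAt (fun z => ps c (1 - z)) (deriv (ps c) (1 - z) * -1) z := by
    have h4 : HasDerivAt (fun z : ℂ => 1 - z) (-1) z := by
      simpa using (hasDerivAt_id z).const_sub 1
    exact h2.comp z h4
  rw [h1.deriv_eq, h3.deriv]
  ring

/-- all derivatives -/
lemma lens_all {a c : ℕ → ℂ} (ha : PG a) (hc : PG c) (h : ∀ z ∈ Lens, ps a z = ps c (1 - z)) (p : ℕ) :
    PG (fun k => (k : ℂ) ^ p * a k) ∧ ∃ c', PG c' ∧ ∀ z ∈ Lens, ps (fun k => (k : ℂ) ^ p * a k) z = ps c' (1 - z) := by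
  induction p with
  | zero =>
    simp only [pow_zero, one_mul]
    exact ⟨ha, c, hc, h⟩
  | succ p ih =>
    obtain ⟨h1, c', hc', h2⟩ := ih
    have e : (fun k : ℕ => (k : ℂ) ^ (p + 1) * a k) = fun k : ℕ => (k : ℂ) * ((k : ℂ) ^ p * a k) := by
      funext k
      ring
    rw [e]
    exact ⟨h1.nat, d1 c', d1_PG hc', lens_step h1 hc' h2⟩

/-- multiplication by `w ^ m` -/
noncomputable def sh (m : ℕ) (c : ℕ → ℂ) (k : ℕ) : ℂ := if m ≤ k then c (k - m) else 0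

lemma sh_PG (m : ℕ) {c : ℕ → ℂ} (h : PG c) : PG (sh m c) := by
  obtain ⟨C, p, hC⟩ := h
  have hC0 := PG.nonneg hC
  refine ⟨C, p, fun k => ?_⟩
  unfold sh
  split_ifs with hk
  · refine (hC _).trans ?_
    gcongr
    exact Nat.sub_le k m
  · rw [norm_zero]
    positivity

lemma ps_sh (m : ℕ) {c : ℕ → ℂ} (h : PG c) {w : ℂ} (hw : ‖w‖ < 1) : ps (sh m c) w = w ^ m * ps c w := by
  have h1 := (sh_PG m h).summable' hw
  unfold ps
  rw [← h1.sum_add_tsum_nat_add m, Finset.sum_eq_zero, zero_add, ← tsum_mul_left]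
  · refine tsum_congr fun k => ?_
    unfold sh
    rw [if_pos (Nat.le_add_left m k), Nat.add_sub_cancel, pow_add]
    ring
  · intro k hk
    unfold sh
    rw [if_neg (by have := Finset.mem_range.1 hk; omega), zero_mul]

/-! ### the hypergeometric data -/

lemma Bsq' (hn : 1 ≤ n) {Q : Polynomial ℚ} {s : ℚ} (h : Q.coeff (n - 1) = s) :
    cm (Bm n Q) * cm (Bm n Q) = (s : ℂ) • cm (Bm n Q) := by
  have h1 : Bm n Q * Bm n Q = s • Bm n Q := by
    ext i j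
    rw [Matrix.mul_apply, Matrix.smul_apply]
    unfold Bm
    simp only [Matrix.of_apply]
    by_cases hi : (i : ℕ) + 1 = n
    · rw [Finset.sum_eq_single (⟨n - 1, by omega⟩ : Fin n)]
      · rw [if_pos hi, if_pos hi, if_pos (show n - 1 + 1 = n by omega), h, smul_eq_mul]
      · intro l _ hl
        rw [if_neg (show ¬ (l : ℕ) + 1 = n from fun h' => hl (Fin.ext (by show (l : ℕ) = n - 1; omega))), mul_zero]
      · intro h'
        exact absurd (Finset.mem_univ _) h'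
    · simp [hi]
  rw [← cm_mul, h1]
  ext i j
  rw [cm_apply, Matrix.smul_apply, Matrix.smul_apply, cm_apply, smul_eq_mul, smul_eq_mul]
  push_cast
  rfl

lemma exp_semi {P₁ P₂ g' : Matrix (Fin n) (Fin n) ℂ} (h : P₂ * g' = g' * P₁) (a : ℂ) :
    (1 + a • P₂) * g' = g' * (1 + a • P₁) := by
  rw [add_mul, mul_add, one_mul, mul_one, smul_mul_assoc, mul_smul_comm, h]

lemma exp_mul {P : Matrix (Fin n) (Fin n) ℂ} (h : P * P = P) (a b : ℂ) :
    (1 + (a - 1) • P) * (1 + (b - 1) • P) = 1 + (a * b - 1) • P := by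
  rw [add_mul, mul_add, mul_add, one_mul, one_mul, mul_one, smul_mul_smul_comm, h, add_assoc, ← add_smul, ← add_smul]
  congr 2
  ring

lemma point' {x : ℂ} {s₁ s₂ : ℚ} {m : ℕ} (hs : s₁ = s₂ + m) (hx : 1 - x ≠ 0)
    {P₁ P₂ g M₂ Mi₁ : Matrix (Fin n) (Fin n) ℂ} {H₂ H₁' K₂ K₁' : ℕ → Matrix (Fin n) (Fin n) ℂ}
    (hA : A ^ n = 0) (hg : A * g = g * A) (hP : P₁ * P₁ = P₁) (hB : P₂ * (M₂ * g * Mi₁) = (M₂ * g * Mi₁) * P₁)
    (c₂ : Yf A H₂ x = Hf K₂ (1 - x) * (1 + (Complex.exp (-(s₂ : ℂ) * Complex.log (1 - x)) - 1) • P₂) * M₂)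
    (c₁ : Yf (-A.transpose) H₁' x =
      Hf K₁' (1 - x) * (1 + (Complex.exp ((s₁ : ℂ) * Complex.log (1 - x)) - 1) • P₁.transpose) * Mi₁.transpose) :
    Hf H₂ x * g * (Hf H₁' x).transpose =
      Hf K₂ (1 - x) * (M₂ * g * Mi₁ * (1 - P₁)) * (Hf K₁' (1 - x)).transpose +
      (1 - x) ^ m • (Hf K₂ (1 - x) * (M₂ * g * Mi₁ * P₁) * (Hf K₁' (1 - x)).transpose) := by
  unfold Yf at c₁ c₂
  set L := Complex.log x
  set ℓ := Complex.log (1 - x) with hℓ
  have e1 : E A L * E A (-L) = 1 := E_mul_neg hA L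
  have e2 : E A (-L) * g = g * E A (-L) := E_semi hg _
  have e3 : (E (-A.transpose) L).transpose = E A (-L) := by rw [E_neg, E_T]
  have c₁' := congrArg Matrix.transpose c₁
  rw [Matrix.transpose_mul, Matrix.transpose_mul, Matrix.transpose_mul, Matrix.transpose_transpose, e3,
    Matrix.transpose_add, Matrix.transpose_one, Matrix.transpose_smul, Matrix.transpose_transpose] at c₁'
  have e7 : Complex.exp (-(s₂ : ℂ) * ℓ) * Complex.exp ((s₁ : ℂ) * ℓ) = (1 - x) ^ m := by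
    rw [← Complex.exp_add, hs]
    push_cast
    rw [show -(s₂ : ℂ) * ℓ + ((s₂ : ℂ) + m) * ℓ = (m : ℂ) * ℓ by ring, Complex.exp_nat_mul, hℓ, Complex.exp_log hx]
  have e8 : (1 + (Complex.exp (-(s₂ : ℂ) * ℓ) - 1) • P₁) * (1 + (Complex.exp ((s₁ : ℂ) * ℓ) - 1) • P₁) =
      (1 - P₁) + (1 - x) ^ m • P₁ := by
    rw [exp_mul hP, e7, sub_smul, one_smul]
    abel
  calc Hf H₂ x * g * (Hf H₁' x).transpose
      = Hf H₂ x * (E A L * E A (-L)) * g * (Hf H₁' x).transpose := by rw [e1, mul_one]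
    _ = Hf H₂ x * E A L * (E A (-L) * g) * (Hf H₁' x).transpose := by simp only [Matrix.mul_assoc]
    _ = (Hf H₂ x * E A L) * g * (E A (-L) * (Hf H₁' x).transpose) := by rw [e2]; simp only [Matrix.mul_assoc]
    _ = Hf K₂ (1 - x) * ((1 + (Complex.exp (-(s₂ : ℂ) * ℓ) - 1) • P₂) * (M₂ * g * Mi₁)) *
        (1 + (Complex.exp ((s₁ : ℂ) * ℓ) - 1) • P₁) * (Hf K₁' (1 - x)).transpose := by
      rw [c₂, c₁']; simp only [Matrix.mul_assoc]
    _ = Hf K₂ (1 - x) * (M₂ * g * Mi₁) * ((1 + (Complex.exp (-(s₂ : ℂ) * ℓ) - 1) • P₁) *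
        (1 + (Complex.exp ((s₁ : ℂ) * ℓ) - 1) • P₁)) * (Hf K₁' (1 - x)).transpose := by
      rw [exp_semi hB]; simp only [Matrix.mul_assoc]
    _ = _ := by
      rw [e8, mul_add, add_mul]
      simp only [Matrix.mul_assoc, mul_smul_comm, smul_mul_assoc]

end Pool.Agent.Run7.h225.HG.INTR

namespace Pool.Agent.Run7.h225.HG

open INT INTR in
theorem p_INTR : S_INTR := by
  intro hASY hREC n Q₁ Q₂ hQ₁ hQ₂ s₁ s₂ m hz₁ hz₂ hs hs₁ hs₂ H₁' K₁ K₁' H₂' K₂ K₂' M₁ Mi₁ M₂ Mi₂ g gi D₁ D₂ hgi hAg hint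
  have hn := hQ₁.two
  have hn0 : 0 < n := by omega
  have hA : cm (Am n) ^ n = 0 := Ac_nil
  have hB₁s := Bsq' (n := n) (by omega) hz₁
  have hB₂s := Bsq' (n := n) (by omega) hz₂
  have hs₁c : (s₁ : ℂ) ≠ 0 := by exact_mod_cast hs₁
  have hs₂c : (s₂ : ℂ) ≠ 0 := by exact_mod_cast hs₂
  set A := cm (Am n) with hAd
  set B₁ := cm (Bm n Q₁) with hB₁d
  set B₂ := cm (Bm n Q₂) with hB₂d
  have hA' : (-A.transpose) ^ n = 0 := by rw [neg_pow, ← Matrix.transpose_pow, hA, Matrix.transpose_zero, mul_zero]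
  obtain ⟨P₁, hP₁d⟩ : ∃ P₁, P₁ = (s₁ : ℂ)⁻¹ • B₁ := ⟨_, rfl⟩
  obtain ⟨P₂, hP₂d⟩ : ∃ P₂, P₂ = (s₂ : ℂ)⁻¹ • B₂ := ⟨_, rfl⟩
  rw [← hP₁d, ← hP₂d] at hint
  have hP₁ : P₁ * P₁ = P₁ := by
    rw [hP₁d, smul_mul_smul_comm, hB₁s, smul_smul]
    congr 1
    field_simp
  have hPg : P₂ * (M₂ * g * Mi₁) = (M₂ * g * Mi₁) * P₁ := by
    calc P₂ * (M₂ * g * Mi₁) = (M₂ * Mi₂) * P₂ * M₂ * g * Mi₁ := by
          rw [D₂.l, one_mul]; simp only [Matrix.mul_assoc]
      _ = M₂ * ((Mi₂ * P₂ * M₂) * g) * Mi₁ := by simp only [Matrix.mul_assoc]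
      _ = M₂ * (g * (Mi₁ * P₁ * M₁)) * Mi₁ := by rw [hint]
      _ = M₂ * g * Mi₁ * P₁ * (M₁ * Mi₁) := by simp only [Matrix.mul_assoc]
      _ = _ := by rw [D₁.l, mul_one]
  have g1 : ∀ i j, PG fun k => Hc n Q₂ k i j := fun i j => D₂.hH.growth hA i j
  have g2 : ∀ i j, PG fun k => H₁' k i j := fun i j => D₁.hH'.growth hA' i j
  have g3 : ∀ i j, PG fun k => K₂ k i j := D₂.gK
  have g4 : ∀ i j, PG fun k => K₁' k i j := D₁.gK'
  have gΦ := Ph_PG (g := g) g1 g2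
  have gΨ := Ph_PG (g := M₂ * g * Mi₁ * (1 - P₁)) g3 g4
  have gΨ' := Ph_PG (g := M₂ * g * Mi₁ * P₁) g3 g4
  -- the expansion at `1`
  have hlens : ∀ i j, ∀ z ∈ Lens, ps (fun k => Ph (Hc n Q₂) g H₁' k i j) z =
      ps (fun k => Ph K₂ (M₂ * g * Mi₁ * (1 - P₁)) K₁' k i j +
        sh m (fun k => Ph K₂ (M₂ * g * Mi₁ * P₁) K₁' k i j) k) (1 - z) := by
    intro i j z hz
    have hz' := mem_Lens.1 hz
    have h0 : (1 - z) ≠ 0 := by
      intro h'
      have : z = 1 := by linear_combination -h'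
      rw [this] at hz'
      simp at hz'
    have c₁ := D₁.con' z hz
    have c₂ := D₂.con z hz
    rw [← hP₂d] at c₂
    rw [← Matrix.transpose_smul, ← hP₁d] at c₁
    rw [ps_add (gΨ i j) (sh_PG m (gΨ' i j)) hz'.2, ps_sh m (gΨ' i j) hz'.2, ps_Ph g1 g2 i j hz'.1,
      ps_Ph g3 g4 i j hz'.2, ps_Ph g3 g4 i j hz'.2, point' hs h0 hA hAg hP₁ hPg c₂ c₁, Matrix.add_apply,
      Matrix.smul_apply, smul_eq_mul]
  obtain ⟨K, hK⟩ := hASY n A B₁ B₂ (s₁ : ℝ) (s₂ : ℝ) (Ph (Hc n Q₂) g H₁') (by exact_mod_cast hs₁)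
    (by exact_mod_cast hs₂) (by rw [hB₁s]; push_cast; rfl) (by rw [hB₂s]; push_cast; rfl)
    (Ph_step hAg D₂.hH D₁.hH')
    (fun p i j x h0 h1 => by
      obtain ⟨h2, -⟩ := lens_all (gΦ i j) ((gΨ i j).add (sh_PG m (gΨ' i j))) (hlens i j) p
      refine (h2.summable h0.le h1).congr fun k => ?_
      rw [norm_mul, norm_pow, Complex.norm_natCast])
    (fun p => by
      choose h2 c' hc' h3 using fun i j => lens_all (gΦ i j) ((gΨ i j).add (sh_PG m (gΨ' i j))) (hlens i j) p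
      choose b₁ hb₁ using fun i j => ps_bd (h2 i j)
      choose b₂ hb₂ using fun i j => ps_bd (hc' i j)
      refine ⟨∑ i, ∑ j, (|b₁ i j| + |b₂ i j|), fun i j x h0 h1 => ?_⟩
      have e : |b₁ i j| + |b₂ i j| ≤ ∑ i, ∑ j, (|b₁ i j| + |b₂ i j|) :=
        (Finset.single_le_sum (f := fun j => |b₁ i j| + |b₂ i j|) (fun _ _ => by positivity) (Finset.mem_univ j)).trans
          (Finset.single_le_sum (f := fun i => ∑ j, (|b₁ i j| + |b₂ i j|)) (fun _ _ => by positivity) (Finset.mem_univ i))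
      refine le_trans ?_ e
      show ‖ps (fun k => (k : ℂ) ^ p * Ph (Hc n Q₂) g H₁' k i j) x‖ ≤ _
      by_cases hx : x ≤ 1 / 2
      · have := hb₁ i j x (by rw [Complex.norm_real, Real.norm_of_nonneg h0.le]; exact hx)
        linarith [le_abs_self (b₁ i j), abs_nonneg (b₂ i j)]
      · have e2 : ‖(1 - (x : ℂ))‖ = 1 - x := by
          have : (1 - (x : ℂ)) = ((1 - x : ℝ) : ℂ) := by push_cast; rfl
          rw [this, Complex.norm_real, Real.norm_of_nonneg (by linarith)]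
        have hL : (x : ℂ) ∈ Lens := real_mem_Lens h0 h1
        rw [h3 i j _ hL]
        have := hb₂ i j (1 - x) (by rw [e2]; linarith)
        linarith [le_abs_self (b₂ i j), abs_nonneg (b₁ i j)])
  -- the product with the first solution
  have hprod : PowerSeries.mk (Hc n Q₂) * PowerSeries.C g * (PowerSeries.mk fun k => (H₁' k).transpose) *
      PowerSeries.mk (Hc n Q₁) = PowerSeries.mk (Hc n Q₂) * PowerSeries.C g := by
    rw [mul_assoc, pair_one hA D₁.hH D₁.hH', mul_one]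
  have hsum : ∀ k, K ≤ k → ∑ l ∈ Finset.range K, Ph (Hc n Q₂) g H₁' l * Hc n Q₁ (k - l) = Hc n Q₂ k * g := by
    intro k hk
    have h1 := congrArg (PowerSeries.coeff k) hprod
    rw [PowerSeries.coeff_mul, PowerSeries.coeff_mul_C, PowerSeries.coeff_mk,
      Finset.Nat.sum_antidiagonal_eq_sum_range_succ_mk] at h1
    rw [← h1]
    have h2 : ∑ l ∈ Finset.range k.succ, Ph (Hc n Q₂) g H₁' l * Hc n Q₁ (k - l) =
        ∑ l ∈ Finset.range K, Ph (Hc n Q₂) g H₁' l * Hc n Q₁ (k - l) := by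
      symm
      refine Finset.sum_subset (Finset.range_subset_range.2 (by omega)) fun l _ hl => ?_
      rw [Finset.mem_range, not_lt] at hl
      rw [hK l hl, zero_mul]
    rw [← h2]
    refine Finset.sum_congr rfl fun l _ => ?_
    rw [PowerSeries.coeff_mk]
    rfl
  have hcol := fun i => col_zero (g := g) hn0 hAg i
  have hc : g ⟨0, hn0⟩ ⟨0, hn0⟩ ≠ 0 := by
    intro h0
    have h1 : gi * g = 1 := mul_eq_one_comm.1 hgi
    have h2 := congrFun (congrFun h1 ⟨0, hn0⟩) ⟨0, hn0⟩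
    rw [Matrix.mul_apply, Matrix.one_apply_eq] at h2
    rw [Finset.sum_eq_zero] at h2
    · exact zero_ne_one h2
    · intro l _
      by_cases hl : (l : ℕ) = 0
      · have : l = ⟨0, hn0⟩ := Fin.ext hl
        rw [this, h0, mul_zero]
      · rw [hcol l hl, mul_zero]
  refine hREC n Q₁ Q₂ hQ₁.ne hQ₂.ne K (fun l j => Ph (Hc n Q₂) g H₁' l ⟨0, hn0⟩ j) _ hc fun k hk => ?_
  have h3 : ∑ l, Hc n Q₂ k ⟨0, hn0⟩ l * g l ⟨0, hn0⟩ = aseq n Q₂ k * g ⟨0, hn0⟩ ⟨0, hn0⟩ := by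
    rw [Finset.sum_eq_single (⟨0, hn0⟩ : Fin n)]
    · rw [Hc_col hn0, pow_zero, one_mul]
    · intro b _ hb
      rw [hcol b fun h => hb (Fin.ext h), mul_zero]
    · intro h'
      exact absurd (Finset.mem_univ _) h'
  have h1 := congrFun (congrFun (hsum k hk) ⟨0, hn0⟩) ⟨0, hn0⟩
  rw [Matrix.sum_apply, Matrix.mul_apply, h3] at h1
  rw [mul_comm (g _ _), ← h1]
  refine Finset.sum_congr rfl fun l hl => ?_
  rw [Matrix.mul_apply]
  refine Finset.sum_congr rfl fun j _ => ?_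
  rw [Hc_col hn0, Nat.cast_sub (by have := Finset.mem_range.1 hl; omega), mul_assoc]

end Pool.Agent.Run7.h225.HG
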