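import Pool.Agent.Run7.h893.HO.Gen2

/-!
# Interface of the project HYG

Joint relations between the periods of several hypergeometric families at the same fibre, and families with special linear
monodromy. The statements of the independent pieces, with proofs in words in the comments.

Notation used in the comments: `E N c = exp (c N)` for the nilpotent matrix `N` (`Pool.Agent.Y119.HY.E`),
`v^a = E(a) v`, `μ^a = μ E(-a)` and `q(x) = μ (E(x) v)`, a polynomial in `x`. So `μ^a(v^b) = q(b - a)`.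
-/

set_option autoImplicit false

open Matrix Pool.Agent.Y119.HY

namespace Pool.Agent.Run7.h225.HG

/-- `q(x) = μ (exp (x N) v)` -/
noncomputable def qf {n : ℕ} (N : Matrix (Fin n) (Fin n) ℂ) (v μ : Fin n → ℂ) (x : ℂ) : ℂ := μ ⬝ᵥ (E N x *ᵥ v)

/-- **SLG.** A monoid which contains all transvections `1 + w ⊗ ξ`, `ξ(w) = 0`, contains all matrices of determinant `1`.
(Gauss elimination: Mathlib has `Matrix.Pivot.exists_list_transvec_mul_diagonal_mul_list_transvec` and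
`Matrix.diagonal_transvection_induction`; a diagonal matrix of determinant `1` is a product of matrices
`diag(…, a, …, a⁻¹, …)`, and `diag(a, a⁻¹)` is a product of four elementary matrices. There may be a lemma in
`Pool/Agent/H185/ZM/SLN.lean`. The case `n = 0` is trivial.) -/
def S_SLG : Prop := ∀ (n : ℕ) (S : Submonoid (Matrix (Fin n) (Fin n) ℂ)),
  (∀ w ξ : Fin n → ℂ, ξ ⬝ᵥ w = 0 → 1 + vecMulVec w ξ ∈ S) → ∀ g : Matrix (Fin n) (Fin n) ℂ, g.det = 1 → g ∈ S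

/-- **SLT.** A monoid `S` which is closed under conjugation by `E(c)` and contains `1 + s v ⊗ μ`, where `μ(v) = 0`,
`μ(N^(n-1) v) ≠ 0`, contains all transvections, if the function
`F(b, c) = q(-b) q(b-c) q(c) + q(b) q(c-b) q(-c)` does not vanish identically.

Proof. Let `T` be the set of the pairs `(w, ξ)` with `ξ(w) = 0` and `1 + s w ⊗ ξ ∈ S` for all `s`. It is closed under
scalars, `(w, ξ), (w', ξ) ∈ T` implies `(w + w', ξ) ∈ T`, similarly in `ξ`. `(E(c) w, ξ E(-c)) ∈ T`, so `(v^a, μ^a) ∈ T`.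
(conj) For `(w, ξ), (u, η) ∈ T` we have `(w + s η(w) u, ξ - s ξ(u) η) ∈ T`, by conjugation by `1 + s u ⊗ η`.
(one-sided) If `(w, ξ), (u, η) ∈ T`, `ξ(u) = 0` and `η(w) ≠ 0`, then `(u, ξ) ∈ T`, because for `a = w ⊗ ξ`, `b = u ⊗ η` we
have `a b = 0`, `(1 + s a)(1 + t b)(1 - s a)(1 - t b) = 1 - s t b a` and `b a = η(w) u ⊗ ξ`.
Step 1. Let `q(b - c) q(c) F(b, c) ≠ 0`, `s = -q(b) / (q(b-c) q(c))`. By (conj) for `(v^b, μ^b)` and `(v^c, μ^c)` we have
`(u, η) ∈ T` with `u = v^b + s q(b-c) v^c`, `η = μ^b - s q(c-b) μ^c`. Then `μ(u) = q(b) + s q(b-c) q(c) = 0` and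
`η(v) = q(-b) - s q(c-b) q(-c) = F(b, c) / (q(b-c) q(c)) ≠ 0`. By (one-sided) with `(v, μ)` we get `(u, μ) ∈ T`, hence
`(q(c) v^b - q(b) v^c, μ) ∈ T`. Fix `c` with `q(c) ≠ 0` and `F(·, c) ≠ 0` (a polynomial in `b`). The vectors `v^b` for all
but finitely many `b` span the whole space (a functional which vanishes on them gives a polynomial `l(E(b) v)` with
infinitely many zeros, `pl_ne` in `HY/Grp.lean`) and `x ↦ q(c) x - μ(x) v^c` maps the space onto the kernel of `μ`. So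
`(w, μ) ∈ T` for all `w` with `μ(w) = 0`, and the same for all `μ^c`.
Step 2. Let `Ξ` be the set of the `ξ` such that `(w, ξ) ∈ T` for all `w` with `ξ(w) = 0`. If `ξ, η ∈ Ξ` are linearly
independent, then there is `u` with `η(u) = 0`, `ξ(u) = 1`; for `w ∈ ker ξ` we get `(w + t η(w) u, ξ - t η) ∈ T` by (conj),
and every `x ∈ ker (ξ - t η)` is of this form (`w = x - t η(x) u`, `ξ(w) = ξ(x) - t η(x) = 0`, `η(w) = η(x)`). So `Ξ` is a
linear subspace, it contains the `μ^c`, which span the dual space (`N` transposed is again nilpotent and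
`N^(n-1)` does not kill `μ`), hence it is everything. -/
def S_SLT : Prop := ∀ (n : ℕ) (N : Matrix (Fin n) (Fin n) ℂ) (v μ : Fin n → ℂ) (S : Submonoid (Matrix (Fin n) (Fin n) ℂ)),
  N ^ n = 0 → μ ⬝ᵥ v = 0 → μ ⬝ᵥ ((N ^ (n - 1)) *ᵥ v) ≠ 0 →
  (∀ c : ℂ, ∀ g ∈ S, E N c * g * E N (-c) ∈ S) → (∀ s : ℂ, 1 + s • vecMulVec v μ ∈ S) →
  (∃ b c : ℂ, qf N v μ (-b) * qf N v μ (b - c) * qf N v μ c + qf N v μ b * qf N v μ (c - b) * qf N v μ (-c) ≠ 0) →
  ∀ w ξ : Fin n → ℂ, ξ ⬝ᵥ w = 0 → 1 + vecMulVec w ξ ∈ S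

/-- **SEPQ.** Polynomials `p, q ≠ 0` with `q(a) q(-a) = p(a) p(-a)` and
`q(a) q(b-a) q(-b) - q(b) q(a-b) q(-a) = p(a) p(b-a) p(-b) - p(b) p(a-b) p(-a)` satisfy `q = p` or `q(x) = -p(-x)`; and if
`q(-b) q(b-c) q(c) + q(b) q(c-b) q(-c) = 0` for all `b, c`, then `q(x) = -q(-x)`.

Proof. Let `R_q(a,b) = q(a) q(b-a) q(-b)`, `R'_q(a,b) = q(b) q(a-b) q(-a)`. Then `R_q R'_q = λ(a) λ(b-a) λ(b)` with
`λ(a) = q(a) q(-a)`, so `R_q` and `-R'_q` have the same sum and the same product as `R_p` and `-R'_p`, hence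
`(R_q - R_p)(R_q + R'_p) = 0` for all `a, b`, so one of the two polynomials in two variables vanishes identically.
If `R_q = -R'_p`, then `R_q = R_{p'}` for `p'(x) = -p(-x)`, and `λ_{p'} = λ_p`. So we may assume `R_q = R_p`:
`q(a) q(b-a) q(-b) = p(a) p(b-a) p(-b)` for all `a, b`. For fixed `a` with `q(a), p(a) ≠ 0` we compare degrees and leading
coefficients in `b`: `deg q = deg p` and `l_q^2 q(a) = l_p^2 p(a)`. So `q = C p` with `C = l_p^2 / l_q^2 = C^(-2)`, and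
`C^2 = 1` by the first equation, so `C = 1`. The last statement is the case of `p(x) = -q(-x)` of this, `R_q = R_p`. -/
def S_SEPQ : Prop := (∀ p q : Polynomial ℂ, p ≠ 0 → q ≠ 0 → (∀ a : ℂ, q.eval a * q.eval (-a) = p.eval a * p.eval (-a)) →
    (∀ a b : ℂ, q.eval a * q.eval (b - a) * q.eval (-b) - q.eval b * q.eval (a - b) * q.eval (-a) =
      p.eval a * p.eval (b - a) * p.eval (-b) - p.eval b * p.eval (a - b) * p.eval (-a)) →
    (∀ x, q.eval x = p.eval x) ∨ ∀ x, q.eval x = -p.eval (-x)) ∧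
  ∀ q : Polynomial ℂ, q ≠ 0 →
    (∀ b c : ℂ, q.eval (-b) * q.eval (b - c) * q.eval c + q.eval b * q.eval (c - b) * q.eval (-c) = 0) →
    ∀ x, q.eval x = -q.eval (-x)

/-- **SEP.** Separation. Let `S` be a submonoid of a product of matrix rings which is closed under specialisation of
polynomial families and under conjugation by `(exp (c N_j))_j` and contains `(1 + s v_j ⊗ μ_j)_j` for all `s`, `μ_j(v_j) = 0`.
If for all `i ≠ j` the functions `λ(a) = q(a) q(-a)` or the functions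
`Δ(a, b) = q(a) q(b-a) q(-b) - q(b) q(a-b) q(-a)` of the indices `i` and `j` are different, then `S` contains the elements
with `1 + s v_j ⊗ μ_j` at the place `j` and `1` at the other places.

Proof. For `β : Fin r → ℂ` let `X(β) = (β_j v_j ⊗ μ_j)_j`, `X(β) X(γ) = 0`. Let `B` be the set of the `β` with
`1 + s X(β) ∈ S` for all `s`. It is a linear subspace (`(1 + s X(β)) (1 + s X(γ)) = 1 + s X(β + γ)`) and contains
`1 = (1, …, 1)`.
(1) If `β ∈ B` and `1 + t Y ∈ S` for all `t`, then `1 + t X(β) Y X(β) ∈ S` for all `t`: conjugation by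
`1 + s X(β)` (inverse `1 - s X(β)`) gives `1 + t (Y + s [X(β), Y] - s² X(β) Y X(β)) ∈ S`; with `s = 1/σ` and `t σ²` instead of
`t` this is the value at `σ ≠ 0` of the polynomial family `1 + t (σ² Y + σ [X(β), Y] - X(β) Y X(β))`, take `σ = 0`.
(2) For `γ ∈ B` let `Y = E(c) X(γ) E(-c)`. Then `X(1) Y X(1) = X(λ(c) γ)`, so `λ(c) γ ∈ B`.
(3) For `γ ∈ B`, `X^a = E(a) X(γ) E(-a)` and `X^b = E(b) X(1) E(-b)` the conjugate of `1 + t X^b` by `1 + s X^a` shows that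
`Y_s = X^b + s [X^a, X^b] - s² X^a X^b X^a` satisfies `1 + t Y_s ∈ S`, so by (1) with `β = 1` the coefficients
of `X(1) Y_s X(1)` are in `B`. They are `λ(b) + s γ Δ(a, b) - s² (…)`; the difference for `s = 1` and `s = -1` gives
`γ Δ(a, b) ∈ B`.
(4) The set `A` of the `f : Fin r → ℂ` with `f γ ∈ B` for all `γ ∈ B` is a subalgebra of `Fin r → ℂ` with `1`, which
contains the `λ(c)` and the `Δ(a, b)`, so for `i ≠ j` there is `f ∈ A` with `f i ≠ f j`, hence `A` contains all functions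
(the indicator of `i` is the product over `j ≠ i` of `(f - f j) / (f i - f j)`). Apply this to `1 ∈ B`. -/
def S_SEP : Prop := ∀ (r : ℕ) (n : Fin r → ℕ) (N : ∀ j, Matrix (Fin (n j)) (Fin (n j)) ℂ) (v μ : ∀ j, Fin (n j) → ℂ)
  (S : Submonoid (∀ j, Matrix (Fin (n j)) (Fin (n j)) ℂ)),
  (∀ j, N j ^ n j = 0) → (∀ j, μ j ⬝ᵥ v j = 0) →
  (∀ c : ℂ, ∀ g ∈ S, (fun j => E (N j) c * g j * E (N j) (-c)) ∈ S) →
  (∀ s : ℂ, (fun j => 1 + s • vecMulVec (v j) (μ j)) ∈ S) →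
  (∀ M : ∀ j, Matrix (Fin (n j)) (Fin (n j)) (Polynomial ℂ),
    (∀ c : ℂ, c ≠ 0 → (fun j => (M j).map (Polynomial.eval c)) ∈ S) → (fun j => (M j).map (Polynomial.eval 0)) ∈ S) →
  (∀ i j, i ≠ j → (∃ a : ℂ, qf (N i) (v i) (μ i) a * qf (N i) (v i) (μ i) (-a) ≠
      qf (N j) (v j) (μ j) a * qf (N j) (v j) (μ j) (-a)) ∨
    ∃ a b : ℂ, qf (N i) (v i) (μ i) a * qf (N i) (v i) (μ i) (b - a) * qf (N i) (v i) (μ i) (-b) -
        qf (N i) (v i) (μ i) b * qf (N i) (v i) (μ i) (a - b) * qf (N i) (v i) (μ i) (-a) ≠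
      qf (N j) (v j) (μ j) a * qf (N j) (v j) (μ j) (b - a) * qf (N j) (v j) (μ j) (-b) -
        qf (N j) (v j) (μ j) b * qf (N j) (v j) (μ j) (a - b) * qf (N j) (v j) (μ j) (-a)) →
  ∀ j (s : ℂ), Function.update (fun _ => 1) j (1 + s • vecMulVec (v j) (μ j)) ∈ S

/-- **ASY.** A solution of the recursion of the local exponents whose generating function is bounded on `(0, 1)` has only
finitely many coefficients.

Proof. Let `V` be the space of matrices with the operators `D Φ = Φ N - N Φ`, `R Φ = B₂ Φ - Φ B₁`; `R³ = 0` (as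
`R² Φ = -2 B₂ Φ B₁`). So `(k + 1 + D) Φ_{k+1} = (k + D + R) Φ_k`. Let `h_k = ∑_{1 ≤ j < k} 1/j` and
`Ψ_k = k exp(-h_k R) Φ_k`, where `exp(x R) = 1 + x R + x² R² / 2`. For large `k` the operator `k + 1 + D` is invertible and
`Ψ_{k+1} = exp(-h_k R) G_k exp(h_k R) Ψ_k`, `G_k = exp(-R/k) (1 + D/(k+1))⁻¹ (1 + (D + R)/k) = 1 + O(1/k²)`, so
`‖Ψ_{k+1} - Ψ_k‖ ≤ a_k ‖Ψ_k‖` with `a_k = C (1 + h_k)^4 / k²`; since `h_k ≤ C k^(1/8)` we may take `a_k = C k^(-3/2)`. So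
`Ψ` is bounded, converges to some `Ψ_∞`, and `‖Ψ_k - Ψ_∞‖ ≤ C k^(-1/2)`. If `Ψ_∞ = 0`, then `‖Ψ_k‖ ≤ ∑_{l ≥ k} a_l ‖Ψ_l‖`
gives `Ψ_k = 0` for large `k`, since the supremum of `‖Ψ_l‖` for `l ≥ k` is at most half of itself, and we are done. If
`Ψ_∞ ≠ 0`, let `j ∈ {0, 1, 2}` be the largest with `R^j Ψ_∞ ≠ 0`. Then `k Φ_k = exp(h_k R) Ψ_k` is
`(h_k^j / j!) (R^j Ψ_∞ + o(1))`, so for an entry with `r = (R^j Ψ_∞)_{ab} ≠ 0` we have `Re (Φ_k)_{ab} / r ≥ c / k` for large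
`k` with `c > 0`, and `∑ Re((Φ_k)_{ab} / r) x^k ≥ c ∑_{k ≥ K} x^k / k - C` is unbounded for `x → 1`, a contradiction. -/
def S_ASY : Prop := ∀ (n : ℕ) (N B₁ B₂ : Matrix (Fin n) (Fin n) ℂ) (Φ : ℕ → Matrix (Fin n) (Fin n) ℂ),
  B₁ * B₁ = 0 → B₂ * B₂ = 0 →
  (∀ k : ℕ, ((k : ℂ) + 1) • Φ (k + 1) + (Φ (k + 1) * N - N * Φ (k + 1)) =
    (k : ℂ) • Φ k + (Φ k * N - N * Φ k) + (B₂ * Φ k - Φ k * B₁)) →
  (∀ i j, ∀ x : ℝ, 0 < x → x < 1 → Summable fun k => ‖Φ k i j‖ * x ^ k) →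
  (∃ C : ℝ, ∀ i j, ∀ x : ℝ, 0 < x → x < 1 → ‖∑' k, Φ k i j * (x : ℂ) ^ k‖ ≤ C) →
  ∃ K, ∀ k, K ≤ k → Φ k = 0

/-- the coefficients of the first solution -/
noncomputable def aseq (n : ℕ) (Q : Polynomial ℚ) (k : ℕ) : ℂ :=
  ∏ l ∈ Finset.range k, ((Q.eval (l : ℚ) / ((l : ℚ) + 1) ^ n : ℚ) : ℂ)

/-- **REC.** If the second sequence is a combination of shifts of the first with polynomial coefficients, then the quotient
is a rational function.

Proof. `a₁(k - l) ∏_{1 ≤ i ≤ l} Q₁(k - i) = a₁(k) ∏_{1 ≤ i ≤ l} (k - i + 1)^n` for `l ≤ k`. Let `s(x) = ∏_{1 ≤ i ≤ K} Q₁(x - i)`.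
Multiplication of the equation by `s(k)` gives `c a₂(k) s(k) = a₁(k) p(k)` for `k ≥ K`, `p` a polynomial. `s(k) ≠ 0` for
`k ≥ K`, so `p ≠ 0`. With `a_i(k+1) = a_i(k) Q_i(k) / (k+1)^n` the equations for `k` and `k + 1` give
`Q₁(k) s(k) p(k+1) = Q₂(k) s(k+1) p(k)` for all `k ≥ K`, hence an identity of polynomials. -/
def S_REC : Prop := ∀ (n : ℕ) (Q₁ Q₂ : Polynomial ℚ), (∀ l : ℕ, Q₁.eval (l : ℚ) ≠ 0) → (∀ l : ℕ, Q₂.eval (l : ℚ) ≠ 0) →
  ∀ (K : ℕ) (φ : ℕ → Fin n → ℂ) (c : ℂ), c ≠ 0 →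
  (∀ k, K ≤ k → ∑ l ∈ Finset.range K, ∑ j, φ l j * ((k : ℂ) - l) ^ (j : ℕ) * aseq n Q₁ (k - l) = c * aseq n Q₂ k) →
  ∃ s p : Polynomial ℂ, s ≠ 0 ∧ p ≠ 0 ∧ Q₁.map (algebraMap ℚ ℂ) * s * p.comp (Polynomial.X + 1) =
    Q₂.map (algebraMap ℚ ℂ) * s.comp (Polynomial.X + 1) * p

/-- **CLS.** The roots of polynomials which differ by a factor `f(x+1) / f(x)` are the same modulo `ℤ`.

Proof. For a rational number `y` let `N_y(P)` be the number of the roots of `P` (with multiplicity) of the form `y + a`,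
`a ∈ ℤ`. It is additive for products and invariant under `x ↦ x + 1`. So `N_y` is the same for the two products, and it is
the number of the `j` with `fract (β j) = fract y`. -/
def S_CLS : Prop := ∀ (n m : ℕ) (β : Fin n → ℚ) (γ : Fin m → ℚ) (s p : Polynomial ℂ), s ≠ 0 → p ≠ 0 →
  (∏ j, (Polynomial.X + Polynomial.C ((β j : ℚ) : ℂ))) * s * p.comp (Polynomial.X + 1) =
    (∏ j, (Polynomial.X + Polynomial.C ((γ j : ℚ) : ℂ))) * s.comp (Polynomial.X + 1) * p →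
  Multiset.map (fun j => Int.fract (β j)) Finset.univ.val = Multiset.map (fun j => Int.fract (γ j)) Finset.univ.val

end Pool.Agent.Run7.h225.HG
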