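import Pool.Agent.Run7.h225.HG.Iface2

/-!
# Interface of the project HYG, third part: reflections of order two
-/

set_option autoImplicit false

open PowerSeries Matrix
open Pool.Agent.Y113 hiding Bm
open Pool.Agent.Y120.GF Pool.Agent.Y120.GH Pool.Agent.Y119.HZ
open Pool.Agent.Y119.HY (Am Jm Bm Hq cm E Hf Hc Yf Vr Rel Gal Sol PG Lens)

namespace Pool.Agent.Run7.h225.HG

/-- **REFL2.** If the monodromy at `1` is a reflection `R = 1 - 2 v ⊗ μ`, `μ(v) = 1`, and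
`D(a, b, c) = q(b-a) q(c-b) q(a-c) - q(c-a) q(b-c) q(a-b)` does not vanish identically, then all transvections preserve the
relations.

Proof. Notation as in REFL: `𝔤` is the set of the matrices `X` with `D_X P ∈ Rel Y` for all `P ∈ Rel Y`, a Lie algebra
(`[D_X, D_X']` is `± D_[X, X']`); `P_a = v^a ⊗ μ^a`, `R_a = 1 - 2 P_a ∈ Gal Y` by `conj_E`. Let `e_ab = v^a ⊗ μ^b`,
`q_ab = μ^a(v^b) = q(b - a)`, `q_aa = 1`, so `e_ab e_cd = q_bc e_ad`, and `λ_ab = q_ab q_ba`.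
Step 1: `k_ab = [P_a, P_b] = q_ab e_ab - q_ba e_ba ∈ 𝔤`. The matrix `U = R_a R_b` satisfies `U⁻¹ = R_b R_a`,
`U - U⁻¹ = 4 [P_a, P_b]` and `(U - 1)(U² - (4 λ_ab - 2) U + 1) = 0`. Let `4 λ_ab - 2 = ζ + ζ⁻¹`. If `ζ ≠ ±1`, then
`U^k = F₀ + ζ^k F₁ + ζ^(-k) F₂` with the spectral projections `F_i` (polynomials in `U`), `F₁ - F₂` is a nonzero multiple of
`U - U⁻¹`. For `P ∈ Rel Y` the Laurent polynomial `x ↦ P(z, L, Y (F₀ + x F₁ + x⁻¹ F₂))` vanishes at `x = ζ^k`, `k ∈ ℕ`; if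
`ζ` is not a root of unity, it vanishes identically, and its derivative at `x = 1` gives `F₁ - F₂ ∈ 𝔤`. Since
`λ(x) = q(x) q(-x)` is not constant (`deg q = n - 1 ≥ 1`), `ζ` is a root of unity only for countably many `b - a`; as
`b ↦ k_ab` is polynomial and `𝔤` is a linear subspace, `k_ab ∈ 𝔤` for all `a, b`.
Step 2: an identity of matrices:
`[k_ab, k_bc] = q_ab q_bc e_ac - q_cb q_ba e_ca - λ_bc k_ab - λ_ab k_bc - D P_b`, `D = q_ab q_bc q_ca - q_ac q_cb q_ba`. So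
`m = q_ab q_bc e_ac - q_cb q_ba e_ca - D P_b ∈ 𝔤` and `q_ca m - q_cb q_ba k_ac = D (e_ac - q_ca P_b) ∈ 𝔤`. Hence
`e_ac - q_ca P_b ∈ 𝔤` if `D(a, b, c) ≠ 0`, and (polynomial in `a, b, c`, `𝔤` a linear subspace, `D` a nonzero polynomial) for
all `a, b, c`. With `a = c`: `P_a - P_b ∈ 𝔤`. The `e_ac` span all matrices (the `v^a` and the `μ^c` span), `tr e_ac = q_ca`,
`tr P_b = 1`, so `𝔤` contains all matrices of trace `0`: if `X = ∑ x_ac e_ac` has trace `0`, then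
`X = ∑ x_ac (e_ac - q_ca P_b)`. In particular `w ⊗ ξ ∈ 𝔤` for `ξ(w) = 0`, and `1 + w ⊗ ξ ∈ Gal Y` by (d) in REFL. -/
def S_REFL2 : Prop := ∀ (n : ℕ) (N0 N1 : Matrix (Fin n) (Fin n) ℂ) (H : ℕ → Matrix (Fin n) (Fin n) ℂ) (v μ : Fin n → ℂ),
  2 ≤ n → N0 ^ n = 0 → Sol N0 N1 H → μ ⬝ᵥ v = 1 → μ ⬝ᵥ ((N0 ^ (n - 1)) *ᵥ v) ≠ 0 →
  1 + (-2 : ℂ) • vecMulVec v μ ∈ Gal (Yf N0 H) →
  (∃ a b c : ℂ, qf N0 v μ (b - a) * qf N0 v μ (c - b) * qf N0 v μ (a - c) ≠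
    qf N0 v μ (c - a) * qf N0 v μ (b - c) * qf N0 v μ (a - b)) →
  ∀ w ξ : Fin n → ℂ, ξ ⬝ᵥ w = 0 → 1 + vecMulVec w ξ ∈ Gal (Yf N0 H)

end Pool.Agent.Run7.h225.HG
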