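import Pool.Agent.Run7.h225.HG.Jg
import Pool.Agent.Y916.Af.Gs3
import Pool.Agent.Y916.Sl.Many
import Pool.Agent.Y119.HA.Win

/-!
# Interface of the project HYG, fifth part: algebraic points

The pieces generalise the files `Pool/Agent/Y119/HA/{Base,Tup,Win}.lean` (one self-dual family, symplectic group) to a
system `Sys` with connected torsors `T z` at complex points `z` of the unit disk. The engine `Pool/Agent/Y916/Af`
(`tupDs`, `winDs` in `Gs3.lean`, `prod_irrD`, `opt_irrD` in `Prod.lean`) is general.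
-/

set_option autoImplicit false

open PowerSeries Matrix
open Pool.Agent.Y113 hiding Bm
open Pool.Agent.Y120.GF Pool.Agent.Y120.GH Pool.Agent.Y119.HZ
open Pool.Agent.Y119.HY (Am Jm Bm Hq cm E Hf Hc Yf Vr Rel Gal Sol PG Lens QD)
open Pool.Agent.Y916.Al (Ht)

namespace Pool.Agent.Run7.h225.HG

/-- **GFS.** The entries of the holomorphic part are a family of G-functions (`gfs_hf` in `HA/Base.lean`; the ingredients
for `Sys` are in the proof of `p_SYS1` in `SYS1.lean`: `ode_A2_s`, `gsysL`, `qu_s`). -/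
def S_GFS : Prop := ∀ (n : ℕ) (N B : Matrix (Fin n) (Fin n) ℚ) (H W : Matrix (Fin n) (Fin n) ℚ⟦X⟧), Sys n N B H W →
  ∃ (T : Polynomial ℤ) (A : Fin (n * n) → Fin (n * n) → Polynomial ℤ), Pool.Agent.Y916.Af.GFs T A (hfg H)

/-- connected torsors at the points of the unit disk -/
structure TG {n : ℕ} (N : Matrix (Fin n) (Fin n) ℚ) (H : Matrix (Fin n) (Fin n) ℚ⟦X⟧)
    (T : ℂ → Set (Matrix (Fin n) (Fin n) ℂ)) : Prop where
  pt : ∀ z : ℂ, ‖z‖ < 1 → Hf (Hcg H) z ∈ T z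
  lin : ∀ z : ℂ, ‖z‖ < 1 → ∀ X ∈ T z, ∀ c : ℂ, X * E (cm N) c ∈ T z
  irr : ∀ z : ℂ, ‖z‖ < 1 → Pool.Agent.Y118.UL.Irr {y : Fin (n * n) → ℂ | ∃ X ∈ T z, y = fun a => X (ix n a).1 (ix n a).2}
  vc : ∀ z : ℂ, ‖z‖ < 1 → ∀ X ∈ T z, (fun a => X (ix n a).1 (ix n a).2) ∈ Pool.Agent.Y916.Af.Vc (hfg H) z

/-- the exceptional tuples, `ExcH` in `HA/Tup.lean` -/
def ExcG {n : ℕ} (N : Matrix (Fin n) (Fin n) ℚ) (H : Matrix (Fin n) (Fin n) ℚ⟦X⟧)
    (T : ℂ → Set (Matrix (Fin n) (Fin n) ℂ)) (δ d : ℕ) (V : Submodule ℚ ℂ) {k : ℕ}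
    (Ω : Fin k → Matrix (Fin n) (Fin n) ℂ) (α : Fin k → ℂ) : Prop :=
  ∃ ℓ : Fin k → ℂ, (∀ i, Complex.exp (ℓ i) = α i) ∧
    ∃ L : IntermediateField ℚ ℂ, FiniteDimensional ℚ L ∧ Module.finrank ℚ L ≤ d ∧
    ∃ P : MvPolynomial (Jx (fun _ : Fin k => n)) ℂ, P.totalDegree ≤ δ ∧
      (∀ s, P.coeff s ∈ Submodule.span L (V : Set ℂ)) ∧
      MvPolynomial.aeval (pw (n := fun _ : Fin k => n) ℓ fun i => Hf (Hcg H) (1 / α i) * E (cm N) (-ℓ i) * Ω i) P = 0 ∧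
      ∃ (l : Fin k → ℂ) (g : Fin k → Matrix (Fin n) (Fin n) ℂ), (∀ i, g i ∈ T (1 / α i)) ∧
        MvPolynomial.aeval (pw (n := fun _ : Fin k => n) l fun i => g i * Ω i) P ≠ 0

/-- **TUPA.** `tup_hyp` of `HA/Tup.lean` for general systems. The set `Ys` there is replaced by
`{y | ∀ j, (fun a => y (j, some a)) is the list of the entries of some X ∈ T (1 / α j)}`; the substitution
`sub'` by `subg'` of `SYS2.lean` (`aeval_subg'`, `aeval_MVg'`). -/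
def S_TUPA : Prop := S_GFS → ∀ (n : ℕ) (N B : Matrix (Fin n) (Fin n) ℚ) (H W : Matrix (Fin n) (Fin n) ℚ⟦X⟧)
  (T : ℂ → Set (Matrix (Fin n) (Fin n) ℂ)), Sys n N B H W → TG N H T → ∀ (k m δ d D : ℕ), 1 ≤ m →
    ∃ c : ℝ, 0 < c ∧ ∃ C : ℝ, 0 ≤ C ∧ ∀ V : Submodule ℚ ℂ, Module.Finite ℚ V → Module.finrank ℚ V ≤ D →
      ∀ (Ω : Fin k → Matrix (Fin n) (Fin n) ℂ) (M : ℕ), 1 ≤ M →
      {α : Fin k → ℂ | (∀ i, Pool.Agent.Y916.Sl.SInt m M (α i)) ∧ ExcG N H T δ d V Ω α}.Finite ∧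
      ({α : Fin k → ℂ | (∀ i, Pool.Agent.Y916.Sl.SInt m M (α i)) ∧ ExcG N H T δ d V Ω α}.ncard : ℝ) ≤
        C * (M : ℝ) ^ (-c) * ({ξ : ℂ | Pool.Agent.Y916.Sl.SInt m M ξ}.ncard : ℝ) ^ k

/-- **WINA.** `win_hyp` of `HA/Win.lean` for general systems (`sK` with the rational coefficients `qeg N` of `SYS2.lean`
instead of `qe n`). -/
def S_WINA : Prop := S_GFS → ∀ (n : ℕ) (N B : Matrix (Fin n) (Fin n) ℚ) (H W : Matrix (Fin n) (Fin n) ℚ⟦X⟧)
  (T : ℂ → Set (Matrix (Fin n) (Fin n) ℂ)), Sys n N B H W → TG N H T →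
    ∃ G0 : ℕ, 1 ≤ G0 ∧ ∀ G : ℕ, G0 ≤ G → ∀ (Ω : Matrix (Fin n) (Fin n) ℂ) (q k m d δ A : ℕ), ∃ Ex : ℕ, ∀ (M : ℕ) (ξ : ℂ),
      ((M : ℝ) + 2) ^ Ex ≤ ‖ξ‖ → Ht m A ξ → ∀ w : Fin q → ℂ, ∃ S : Finset ℕ,
      (S.card : Cardinal) ≤ Algebra.trdeg ℚ (IntermediateField.adjoin ℚ (insert (2 * Real.pi * Complex.I)
        (Set.range fun p : Fin n × Fin n => Ω p.1 p.2))) + q + 1 ∧
      ∀ u : Fin k → ℕ, Function.Injective u → (∀ j, 1 ≤ u j ∧ u j ≤ M ∧ u j ∉ S) →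
      (∀ j, 1 < ‖ξ - ((G * u j : ℕ) : ℂ)‖) ∧
      ∀ ℓ : Fin k → ℂ, (∀ j, Complex.exp (ℓ j) = ξ - ((G * u j : ℕ) : ℂ)) →
      ∀ K : IntermediateField ℚ ℂ, FiniteDimensional ℚ K → Module.finrank ℚ K ≤ d →
      ∀ P : MvPolynomial (Pool.Agent.Y119.HA.Cx n q k) K, P.totalDegree ≤ δ →
      MvPolynomial.aeval (Pool.Agent.Y119.HA.cpt Ω w ℓ
        (fun j => Hf (Hcg H) (1 / (ξ - ((G * u j : ℕ) : ℂ))) * E (cm N) (-ℓ j) * Ω)) P = 0 →
      ∀ (l : Fin k → ℂ) (g : Fin k → Matrix (Fin n) (Fin n) ℂ), (∀ j, g j ∈ T (1 / (ξ - ((G * u j : ℕ) : ℂ)))) →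
      MvPolynomial.aeval (Pool.Agent.Y119.HA.cpt Ω w l (fun j => g j * Ω)) P = 0

/-- the joint torsor at complex points (`log` is the principal branch, `Re (1 - z) > 0`) -/
def TJ0 {r : ℕ} (n : Fin r → ℕ) (Q : Fin r → Polynomial ℚ) (z : ℂ) :
    Set (Matrix (Fin (∑ j, n j)) (Fin (∑ j, n j)) ℂ) :=
  {Z | ∃ X : ∀ j, Matrix (Fin (n j)) (Fin (n j)) ℂ, (∀ j, X j ∈ TJ (n j) (Q j) (Complex.log (1 - z))) ∧ Z = blk n ℂ X}

/-- the right half of the hypothesis of the next piece: the matrices of determinant one which respect the forms preserve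
the relations (this is `grp_all` with `m = 0`) -/
def GrpOK {r : ℕ} (n : Fin r → ℕ) (Q : Fin r → Polynomial ℚ) : Prop :=
  ∀ g : ∀ j, Matrix (Fin (n j)) (Fin (n j)) ℂ, (∀ j, (g j).det = 1) →
    (∀ j, QD (n j) (Q j) → (g j).transpose * cm (Jm (n j) (Q j)) * g j = cm (Jm (n j) (Q j))) →
    blk n ℂ g ∈ Gal (YJ n Q)

/-- **TGJ.** The joint torsors of hypergeometric families.

Proof. `pt`: `Hf (Hcg (blk H)) z = blk (Hf (Hc n_j Q_j) z)` (`BLK.Hf_blk`, `Hcg_Hp`); the determinant is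
`exp(-s log(1 - z))` for real `z = x` (`YJ_mem`, `det_E`; `Yf = Hf E(log x)`), so for complex `z` by analytic continuation
(`zero_of_real` in `HA/Base.lean`), the form as `form_c` there. `lin`: `det_E`, `E_isom`. `irr`: `T z` is
`Hf(z) G`, `G` the product of the groups `SL` and `Sp`; `sp_irr` in `Y118/CM/Sp.lean` shows how to connect two elements of
`Sp` by a polynomial curve (`Pc_all`); for `SL` a matrix of determinant `1` is a product of transvections (`p_SLG`), so the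
set of the `g` which are connected to `1` by products of polynomial curves is everything; two polynomials `P₁, P₂` not
vanishing at two points `g₁, g₂` of a curve `M(c)` have a nonvanishing product at almost all `c`. `vc`: for real `x` this is
`rel_inv_s` in `SYS2.lean` with `g = E(log x) κ E(-log x)`, `κ = Hf(x)⁻¹ X`, and for complex `z` the function
`z ↦ R(z, Hf(z) κ)`, `κ` constant, is analytic and vanishes on `(0, 1)` (`rel_inv_c`, `mem_Vc` in `HA/Base.lean`). -/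
def S_TGJ : Prop := ∀ (r : ℕ) (n : Fin r → ℕ) (Q : Fin r → Polynomial ℚ)
  (W : ∀ j, Matrix (Fin (n j)) (Fin (n j)) ℚ⟦X⟧), JT n Q W → GrpOK n Q →
  TG (blk n ℚ fun j => Am (n j)) (blk n ℚ⟦X⟧ fun j => Hp (n j) (Q j)) (TJ0 n Q)

end Pool.Agent.Run7.h225.HG
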