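import Pool.Agent.Run7.h225.HG.Iface4

/-!
# Interface of the project HYG, sixth part: reflections of order two

Setting. `P = v ⊗ μ` with `μ(v) = 1`, `ρ = 1 - 2 P` (a reflection), `V = ℂ v ⊕ U`, `U = ker μ`. A matrix `X` is even if
`ρ X ρ = X` and odd if `ρ X ρ = - X`. The odd matrices are the `v ⊗ ξ + w ⊗ μ` with `ξ(v) = 0`, `μ(w) = 0`; write `(ξ, w)`.
`N = N₀ + A_0`, `N₀ = n0 N P` even, `A_0 = offd P N` odd, `A_m = ad(N₀)^m A_0 = (ξ_m, w_m)`, `h(m) = hm N v μ m`.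

Identities (`{X, Y, Z} = [[X, Y], Z]`, brackets are commutators), for odd `X = (ξ, w)`, `Y = (η, u)`, `Z = (ζ, t)`:
`{X, Y, Z} = (ξ(u) ζ - η(w) ζ - ζ(w) η + ζ(u) ξ, η(t) w - ξ(t) u - ξ(u) t + η(w) t)`.
With `ξ_a(w_b) = (-1)^a h(a + b)` this gives
(I1) `{A_a, A_b, A_c} = (-1)^b h(b + c) A_a - (-1)^a h(a + c) A_b` if `a, b, c` have the same parity, and for all `a, b, c` if
`h(m) = 0` for all odd `m`;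
(I2) `{A_0, A_b, A_0} = 3 h(b) A_0* - h(0) A_b` for odd `b`, where `(ξ, w)* = (ξ, -w)`.
-/

set_option autoImplicit false

open Matrix PowerSeries
open Pool.Agent.Y119.HY (E Gal Yf cm)

namespace Pool.Agent.Run7.h225.HG

/-- the odd part `P X (1 - P) + (1 - P) X P` of `X` -/
noncomputable def offd {n : ℕ} (P X : Matrix (Fin n) (Fin n) ℂ) : Matrix (Fin n) (Fin n) ℂ :=
  P * X * (1 - P) + (1 - P) * X * P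

/-- the reflection `1 - 2 v ⊗ μ` -/
noncomputable def rf {n : ℕ} (v μ : Fin n → ℂ) : Matrix (Fin n) (Fin n) ℂ := 1 - (2 : ℂ) • vecMulVec v μ

/-- the matrices of trace zero -/
noncomputable def slm (n : ℕ) : Submodule ℂ (Matrix (Fin n) (Fin n) ℂ) := LinearMap.ker (Matrix.traceLinearMap (Fin n) ℂ ℂ)

lemma mem_slm {n : ℕ} {X : Matrix (Fin n) (Fin n) ℂ} : X ∈ slm n ↔ X.trace = 0 := Iff.rfl

/-- the matrices which are skew for the form `J` -/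
noncomputable def som {n : ℕ} (J : Matrix (Fin n) (Fin n) ℂ) : Submodule ℂ (Matrix (Fin n) (Fin n) ℂ) where
  carrier := {X | X.transpose * J + J * X = 0}
  zero_mem' := by
    show (0 : Matrix (Fin n) (Fin n) ℂ).transpose * J + J * 0 = 0
    rw [transpose_zero, zero_mul, mul_zero, add_zero]
  add_mem' := by
    intro X Z hX hZ
    have h1 : X.transpose * J + J * X = 0 := hX
    have h2 : Z.transpose * J + J * Z = 0 := hZ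
    show (X + Z).transpose * J + J * (X + Z) = 0
    rw [transpose_add, add_mul, mul_add, add_add_add_comm, h1, h2, add_zero]
  smul_mem' := by
    intro c X hX
    have h1 : X.transpose * J + J * X = 0 := hX
    show (c • X).transpose * J + J * (c • X) = 0
    rw [transpose_smul, smul_mul_assoc, mul_smul_comm, ← smul_add, h1, smul_zero]

lemma mem_som {n : ℕ} {J X : Matrix (Fin n) (Fin n) ℂ} : X ∈ som J ↔ X.transpose * J + J * X = 0 := Iff.rfl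

/-- the vectors `w_m` and the functionals `ξ_m` with `ad(N₀)^m (offd P N) = v ⊗ ξ_m + w_m ⊗ μ` -/
structure OD {n : ℕ} (N : Matrix (Fin n) (Fin n) ℂ) (v μ : Fin n → ℂ) (w ξ : ℕ → Fin n → ℂ) : Prop where
  two : 2 ≤ n
  mv : μ ⬝ᵥ v = 1
  mw : ∀ m, μ ⬝ᵥ w m = 0
  xv : ∀ m, ξ m ⬝ᵥ v = 0
  nv : n0 N (vecMulVec v μ) *ᵥ v = (μ ⬝ᵥ (N *ᵥ v)) • v
  nm : μ ᵥ* n0 N (vecMulVec v μ) = (μ ⬝ᵥ (N *ᵥ v)) • μ
  nw : ∀ m, n0 N (vecMulVec v μ) *ᵥ w m = w (m + 1) + (μ ⬝ᵥ (N *ᵥ v)) • w m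
  nx : ∀ m, ξ m ᵥ* n0 N (vecMulVec v μ) = (μ ⬝ᵥ (N *ᵥ v)) • ξ m - ξ (m + 1)
  od : offd (vecMulVec v μ) N = vecMulVec v (ξ 0) + vecMulVec (w 0) μ
  h : ∀ a b, ξ a ⬝ᵥ w b = (-1) ^ a * hm N v μ (a + b)
  sw : ∀ u : Fin n → ℂ, μ ⬝ᵥ u = 0 → u ∈ Submodule.span ℂ (Set.range w)
  sx : ∀ η : Fin n → ℂ, η ⬝ᵥ v = 0 → η ∈ Submodule.span ℂ (Set.range ξ)
  iw : LinearIndependent ℂ fun i : Fin (n - 1) => w i
  ix : LinearIndependent ℂ fun i : Fin (n - 1) => ξ i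

/-- **OD.** Proof: `d = μ(N v)`, `w_0 = N v - d v`, `ξ_0 = μ N - d μ`, `w_{m+1} = N₀ w_m - d w_m`, `ξ_{m+1} = d ξ_m - ξ_m N₀`.
`μ(N^(n-1) v) ≠ 0` and `N^n = 0` show that `v` is a cyclic vector for `N`. The span of `v` and the `w_m` is stable under `N`
(`N v = d v + w_0`, `N w_m = μ(N w_m) v + w_{m+1} + d w_m`), so it is everything. Hence the `w_m` span `ker μ` (dimension
`n - 1`), and since `w_m = (N₀ - d)^m w_0` the first `n - 1` of them are a basis. The same for the transposed matrices gives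
the `ξ_m`. -/
def S_OD : Prop := ∀ (n : ℕ) (N : Matrix (Fin n) (Fin n) ℂ) (v μ : Fin n → ℂ), 2 ≤ n → N ^ n = 0 → μ ⬝ᵥ v = 1 →
  μ ⬝ᵥ ((N ^ (n - 1)) *ᵥ v) ≠ 0 → ∃ w ξ, OD N v μ w ξ

/-- **REFL2A.** One block, not self-dual.

Proof. `ad(N₀)` preserves `𝔤` (`N₀ = N - offd P N`), so all `A_m ∈ 𝔤`. For `b` odd with `h(b) ≠ 0` (I2) gives `A_0* ∈ 𝔤`,
hence `v ⊗ ξ_0` and `w_0 ⊗ μ` are in `𝔤`, and (apply `ad(N₀)`) all `v ⊗ ξ_m`, `w_m ⊗ μ`, so all `v ⊗ η`, `η(v) = 0`, and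
`u ⊗ μ`, `μ(u) = 0`. For `x = a v + u`, `θ = b μ + η` with `θ(x) = 0`, i.e. `a b + η(u) = 0`:
`x ⊗ θ = a v ⊗ η + b u ⊗ μ + [u ⊗ μ, v ⊗ η]`. These `x ⊗ θ` span the matrices of trace `0` (matrix units `E_ij`, `i ≠ j`, and
`(e_i - e_j) ⊗ (e_i + e_j)`). -/
def S_REFL2A : Prop := ∀ (n : ℕ) (N : Matrix (Fin n) (Fin n) ℂ) (v μ : Fin n → ℂ) (w ξ : ℕ → Fin n → ℂ),
  OD N v μ w ξ → ∀ 𝔤 : Submodule ℂ (Matrix (Fin n) (Fin n) ℂ), (∀ X ∈ 𝔤, N * X - X * N ∈ 𝔤) →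
  (∀ X ∈ 𝔤, ∀ Z ∈ 𝔤, X * Z - Z * X ∈ 𝔤) → offd (vecMulVec v μ) N ∈ 𝔤 → (∃ m, Odd m ∧ hm N v μ m ≠ 0) → slm n ≤ 𝔤

/-- **SIMP.** `𝔰𝔩_n` is simple (ideals stable under the reflection).

Proof. Let `0 ≠ X ∈ K`. Its even and odd parts are in `K`. If `X` is even, `X v = e v`, `μ X = e μ`, then
`[X, v ⊗ η] = v ⊗ (e η - η X)` is not `0` for some `η` with `η(v) = 0` (otherwise `X = e`, trace `0`). So there is an odd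
`(ξ, w) ≠ 0` in `K`, and `[P - 1/n, (ξ, w)] = (ξ, -w)`, so `v ⊗ ξ, w ⊗ μ ∈ K`. If `ξ = 0`, take `η` with `η(v) = 0`,
`η(w) ≠ 0`: `[[w ⊗ μ, v ⊗ η], v ⊗ η] = -2 η(w) v ⊗ η`. So `v ⊗ ξ ∈ K` for some `ξ ≠ 0`. Take `u` with `μ(u) = 0`, `ξ(u) = 1`:
`P - u ⊗ ξ = [v ⊗ ξ, u ⊗ μ] ∈ K`, `[P - u ⊗ ξ, v ⊗ η] = v ⊗ (η + η(u) ξ)`, so all `v ⊗ η ∈ K`;
`[P - u ⊗ ξ, t ⊗ μ] = -(t + ξ(t) u) ⊗ μ`, so `u ⊗ μ` (`t = u`) and all `t ⊗ μ` are in `K`. Then as in REFL2A. -/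
def S_SIMP : Prop := ∀ (n : ℕ) (v μ : Fin n → ℂ), 2 ≤ n → μ ⬝ᵥ v = 1 →
  (∀ K : Submodule ℂ (Matrix (Fin n) (Fin n) ℂ), K ≤ slm n → (∀ X ∈ K, rf v μ * X * rf v μ ∈ K) →
    (∀ X ∈ K, ∀ Z ∈ slm n, X * Z - Z * X ∈ K) → K ≠ ⊥ → slm n ≤ K) ∧
  ∃ X ∈ slm n, ∃ Z ∈ slm n, X * Z - Z * X ≠ 0

/-- **RIB.** Goursat, Kolchin, Ribet.

Proof. For a finite set `F` of indices and `j ∉ F` let `K_F ≤ L j` be the space of the `X j`, `X ∈ 𝔤`, `X i = 0` for `i ∈ F`. It is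
an ideal of `L j`, stable under `ρ j`, so it is `0` or `L j`. For `F = {i}`: by `pair` there is `X ∈ 𝔤` with `X i = 0`, `X j ≠ 0`, and
then `K_{i} = L j`, or there is one with `X i ≠ 0`, `X j = 0`; then the same space for the pair `(j, i)` is `L i`, so for
`Y ∈ L j` choose `Z ∈ 𝔤` with `Z j = Y` and `X ∈ 𝔤` with `X j = 0`, `X i = Z i`; `Z - X` shows `Y ∈ K_{i}`. Induction:
`K_{F ∪ {i}}` contains the brackets of `K_F` and `K_{i}`, hence it is not `0` if both are `L j`. So it is `L j`. Take for `F` all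
indices except `j`. -/
def S_RIB : Prop := ∀ (ι : Type) [Fintype ι] [DecidableEq ι] (n : ι → ℕ) (ρ : ∀ j, Matrix (Fin (n j)) (Fin (n j)) ℂ)
  (L : ∀ j, Submodule ℂ (Matrix (Fin (n j)) (Fin (n j)) ℂ)) (𝔤 : Submodule ℂ (∀ j, Matrix (Fin (n j)) (Fin (n j)) ℂ)),
  (∀ X ∈ 𝔤, ρ * X * ρ ∈ 𝔤) → (∀ X ∈ 𝔤, ∀ Z ∈ 𝔤, X * Z - Z * X ∈ 𝔤) → (∀ X ∈ 𝔤, ∀ j, X j ∈ L j) →
  (∀ j, ∀ Z ∈ L j, ∃ X ∈ 𝔤, X j = Z) →
  (∀ j, ∀ K : Submodule ℂ (Matrix (Fin (n j)) (Fin (n j)) ℂ), K ≤ L j → (∀ X ∈ K, ρ j * X * ρ j ∈ K) →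
    (∀ X ∈ K, ∀ Z ∈ L j, X * Z - Z * X ∈ K) → K ≠ ⊥ → L j ≤ K) →
  (∀ j, ∃ X ∈ L j, ∃ Z ∈ L j, X * Z - Z * X ≠ 0) →
  (∀ i j, i ≠ j → ∃ X ∈ 𝔤, (X i = 0 ∧ X j ≠ 0) ∨ (X i ≠ 0 ∧ X j = 0)) →
  ∀ j, ∀ Z ∈ L j, (Pi.single j Z : ∀ j, Matrix (Fin (n j)) (Fin (n j)) ℂ) ∈ 𝔤

/-- two blocks: a Lie algebra `𝔤` of pairs, stable under `ad (N₁, N₂)` and the reflections, which contains
`(offd P₁ N₁, offd P₂ N₂)` -/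
structure LP2 {n₁ n₂ : ℕ} (N₁ : Matrix (Fin n₁) (Fin n₁) ℂ) (N₂ : Matrix (Fin n₂) (Fin n₂) ℂ) (v₁ μ₁ : Fin n₁ → ℂ)
    (v₂ μ₂ : Fin n₂ → ℂ) (𝔤 : Submodule ℂ (Matrix (Fin n₁) (Fin n₁) ℂ × Matrix (Fin n₂) (Fin n₂) ℂ)) : Prop where
  adN : ∀ X ∈ 𝔤, (N₁, N₂) * X - X * (N₁, N₂) ∈ 𝔤
  brk : ∀ X ∈ 𝔤, ∀ Z ∈ 𝔤, X * Z - Z * X ∈ 𝔤
  cj : ∀ X ∈ 𝔤, (rf v₁ μ₁, rf v₂ μ₂) * X * (rf v₁ μ₁, rf v₂ μ₂) ∈ 𝔤
  od : (offd (vecMulVec v₁ μ₁) N₁, offd (vecMulVec v₂ μ₂) N₂) ∈ 𝔤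

/-- **PAIR.** Two blocks which are not self-dual.

Proof. Suppose that `X ∈ 𝔤`, `X.1 = 0` implies `X.2 = 0`. `ad(N₀)` preserves `𝔤`, `A_m ∈ 𝔤` (pairs). Take `D ∈ 𝔤` with
`D.1 = P₁ - 1/n₁`. The first components of `ρ D ρ - D`, `[N₀, D]`, `[D, [D, A_0]] - A_0` are `0`, so the second ones are. Hence
(second block, `D = D.2`, `v = v₂`, …) `D` commutes with `P` (`D v = δ v`, `μ D = δ μ`) and with `N₀`, and for `T = δ - D` we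
have `[D, v ⊗ ξ] = v ⊗ ξ T`, `[D, w ⊗ μ] = -(T w) ⊗ μ` and `T² w_0 = w_0`, so `T² w_m = w_m` for all `m`, and `T² = 1` on
`U = ker μ`. If `T ≠ 1` and `T ≠ -1` on `U`, there are `w' ≠ 0` in `U` with `T w' = -w'` and `ξ' ≠ 0`, `ξ'(v) = 0`,
`ξ' T = ξ'`. Choose `Z, Z' ∈ 𝔤` with `Z.2 = v ⊗ ξ'`, `Z'.2 = w' ⊗ μ`; replace them by `([D, [D, Z]] + [D, Z]) / 2` and so on: the
second components do not change, the first ones become matrices `v₁ ⊗ η`, which commute. So `[v ⊗ ξ', w' ⊗ μ] = 0`, but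
this is `ξ'(w') P - w' ⊗ ξ' ≠ 0`. So `T = 1` or `T = -1` on `U`. Put `x = (A_0 + [D, A_0]) / 2`,
`y_m = ad(N₀)^m ((A_0 - [D, A_0]) / 2)`. The first component of `[[x, y_m], x]` is `2 h₁(m) x.1`, as `x.1 = v₁ ⊗ ξ_0`,
`(y_m).1 = w_m ⊗ μ₁`. If `T = 1`: `x.2 = v₂ ⊗ ξ_0`, `(y_m).2 = w_m ⊗ μ₂`, the second component is `2 h₂(m) x.2`, so
`h₁ = h₂`. If `T = -1`: `x.2 = w_0 ⊗ μ₂`, `(y_m).2 = v₂ ⊗ ξ_m`, the second component is `2 (-1)^m h₂(m) x.2`, so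
`h₁(m) = (-1)^m h₂(m)`. -/
def S_PAIR : Prop := ∀ (n₁ n₂ : ℕ) (N₁ : Matrix (Fin n₁) (Fin n₁) ℂ) (N₂ : Matrix (Fin n₂) (Fin n₂) ℂ)
  (v₁ μ₁ : Fin n₁ → ℂ) (v₂ μ₂ : Fin n₂ → ℂ) (w₁ ξ₁ : ℕ → Fin n₁ → ℂ) (w₂ ξ₂ : ℕ → Fin n₂ → ℂ),
  OD N₁ v₁ μ₁ w₁ ξ₁ → OD N₂ v₂ μ₂ w₂ ξ₂ →
  ∀ 𝔤 : Submodule ℂ (Matrix (Fin n₁) (Fin n₁) ℂ × Matrix (Fin n₂) (Fin n₂) ℂ), LP2 N₁ N₂ v₁ μ₁ v₂ μ₂ 𝔤 →
  (∀ Z ∈ slm n₁, ∃ X ∈ 𝔤, X.1 = Z) → (∀ Z ∈ slm n₂, ∃ X ∈ 𝔤, X.2 = Z) →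
  (∃ m, hm N₁ v₁ μ₁ m ≠ hm N₂ v₂ μ₂ m) → (∃ m, hm N₁ v₁ μ₁ m ≠ (-1) ^ m * hm N₂ v₂ μ₂ m) →
  ∃ X ∈ 𝔤, X.1 = 0 ∧ X.2 ≠ 0

/-- an orthogonal block: `N` is skew and the reflection is an isometry of the symmetric form `J` -/
structure OT {n : ℕ} (N J : Matrix (Fin n) (Fin n) ℂ) (v μ : Fin n → ℂ) : Prop where
  three : 3 ≤ n
  odd : Odd n
  sym : J.transpose = J
  det : J.det ≠ 0
  skew : N.transpose * J + J * N = 0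
  ref : ∃ c : ℂ, c ≠ 0 ∧ J *ᵥ v = c • μ

/-- **ODO.** In an orthogonal block `J w_m = -c ξ_m` (as `A_m` is skew), so `ξ_a(w_b) = ξ_b(w_a)` and `h(m) = 0` for odd `m`. -/
def S_ODO : Prop := ∀ (n : ℕ) (N J : Matrix (Fin n) (Fin n) ℂ) (v μ : Fin n → ℂ) (w ξ : ℕ → Fin n → ℂ),
  OD N v μ w ξ → OT N J v μ → (∀ m, Odd m → hm N v μ m = 0) ∧
    ∃ c : ℂ, c ≠ 0 ∧ J *ᵥ v = c • μ ∧ ∀ m, J *ᵥ w m = -(c • ξ m)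

/-- **REFLO.** One orthogonal block.

Proof. `A_m ∈ 𝔤` for all `m`. An odd matrix `(η, u)` is skew for `J` iff `J u = -c η`, so the odd skew matrices
`X_u = (-c⁻¹ J u, u)`, `u ∈ U`, are linear combinations of the `A_m`. An even skew matrix `Z` has `Z v = 0`, `μ Z = 0`, and is
a linear combination of brackets `[X_u, X_t]`: `[X_u, X_t] = c⁻¹ (u ⊗ J t - t ⊗ J u)` up to sign (the `P`-parts cancel
by the symmetry of `J`), and `Z J⁻¹` is antisymmetric, so a combination of `u ⊗ t - t ⊗ u` with `u, t` in the image of `Z`,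
which is in `U`. -/
def S_REFLO : Prop := ∀ (n : ℕ) (N J : Matrix (Fin n) (Fin n) ℂ) (v μ : Fin n → ℂ) (w ξ : ℕ → Fin n → ℂ),
  OD N v μ w ξ → OT N J v μ → ∀ 𝔤 : Submodule ℂ (Matrix (Fin n) (Fin n) ℂ), (∀ X ∈ 𝔤, N * X - X * N ∈ 𝔤) →
  (∀ X ∈ 𝔤, ∀ Z ∈ 𝔤, X * Z - Z * X ∈ 𝔤) → offd (vecMulVec v μ) N ∈ 𝔤 → som J ≤ 𝔤

/-- **SIMPO.** `𝔰𝔬_n`, `n ≥ 3`, is simple (ideals stable under a reflection).

Proof. `X_u` as in REFLO. Let `0 ≠ X ∈ K`. If the even part `Z` of `X` is not `0`, `[Z, X_u] = X_{Z u}` is not `0` for some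
`u`. So some `X_u ∈ K`, `u ≠ 0`. `{X_u, X_t, X_s} = c⁻¹ (± (t, s) X_u ∓ (u, s) X_t)`; choose `s ∈ U` with `(u, s) ≠ 0`. So all
`X_t ∈ K`, and all their brackets; see REFLO. -/
def S_SIMPO : Prop := ∀ (n : ℕ) (J : Matrix (Fin n) (Fin n) ℂ) (v μ : Fin n → ℂ) (c : ℂ), 3 ≤ n → μ ⬝ᵥ v = 1 →
  J.transpose = J → J.det ≠ 0 → c ≠ 0 → J *ᵥ v = c • μ →
  (∀ K : Submodule ℂ (Matrix (Fin n) (Fin n) ℂ), K ≤ som J → (∀ X ∈ K, rf v μ * X * rf v μ ∈ K) →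
    (∀ X ∈ K, ∀ Z ∈ som J, X * Z - Z * X ∈ K) → K ≠ ⊥ → som J ≤ K) ∧
  ∃ X ∈ som J, ∃ Z ∈ som J, X * Z - Z * X ≠ 0

/-- **PAIRO.** Pairs with an orthogonal block (the second one). `h_i(m)` are the numbers of the blocks, all
brackets of the pairs `A_m = ad(N₀)^m A_0 ∈ 𝔤`.

Proof. First part (both orthogonal): by (I1) `{A_a, A_b, A_c} - (-1)^b h₁(b + c) A_a + (-1)^a h₁(a + c) A_b` has the first
component `0` and the second one `(-1)^b δ(b + c) A_a - (-1)^a δ(a + c) A_b`, `δ = h₂ - h₁`. Take `a = 0`, `b = 1`, `δ(c) ≠ 0`;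
`A_0, A_1` are linearly independent in the second block, `n₂ ≥ 3`.
Second part (first block not self-dual). Let `δ = h₁(0) - h₂(0)`, `Z_b = {A_0, A_b, A_0} + h₁(0) A_b`, `b` odd. By (I2), (I1)
`Z_b.1 = 3 h₁(b) A_0*`, `Z_b.2 = δ A_b`. Let `h₁(b₀) ≠ 0`, `b₀` odd. If `δ = 0` take `X = Z_{b₀}`. If `n₂ ≥ 5`: `A_1, A_3` are
linearly independent in the second block, so there is an odd `b₁` such that `X = h₁(b₁) Z_{b₀} - h₁(b₀) Z_{b₁}` has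
`X.1 = 0`, `X.2 ≠ 0`. If `n₂ = 3`, then `n₁ ≥ 3`: in the second block `w_b = α w_0 + β w_1`, and `ξ_0(w_b) = 0`, `ξ_0(w_1) = 0`,
`ξ_0(w_0) = h₂(0) ≠ 0` (otherwise `ξ_0 = 0`), so `α = 0` and `A_b = β A_1` (`J w_m = -c ξ_m`); so `X = Z_{b₀} - δ β A_1` has
`X.2 = 0`, and `X.1 ≠ 0` since `w_0, w_1` are linearly independent in the first block. -/
def S_PAIRO : Prop := ∀ (n₁ n₂ : ℕ) (N₁ J₁ : Matrix (Fin n₁) (Fin n₁) ℂ) (N₂ J₂ : Matrix (Fin n₂) (Fin n₂) ℂ)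
  (v₁ μ₁ : Fin n₁ → ℂ) (v₂ μ₂ : Fin n₂ → ℂ) (w₁ ξ₁ : ℕ → Fin n₁ → ℂ) (w₂ ξ₂ : ℕ → Fin n₂ → ℂ),
  OD N₁ v₁ μ₁ w₁ ξ₁ → OD N₂ v₂ μ₂ w₂ ξ₂ → OT N₂ J₂ v₂ μ₂ →
  ∀ 𝔤 : Submodule ℂ (Matrix (Fin n₁) (Fin n₁) ℂ × Matrix (Fin n₂) (Fin n₂) ℂ), LP2 N₁ N₂ v₁ μ₁ v₂ μ₂ 𝔤 →
  (OT N₁ J₁ v₁ μ₁ → (∃ m, hm N₁ v₁ μ₁ m ≠ hm N₂ v₂ μ₂ m) → ∃ X ∈ 𝔤, X.1 = 0 ∧ X.2 ≠ 0) ∧
  ((∃ m, Odd m ∧ hm N₁ v₁ μ₁ m ≠ 0) → ¬ (n₁ = 2 ∧ n₂ = 3) →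
    ∃ X ∈ 𝔤, (X.1 = 0 ∧ X.2 ≠ 0) ∨ (X.1 ≠ 0 ∧ X.2 = 0))

/-- **SEPR2.** As SEPR, reflections of order two are allowed, the conclusion is for those of larger order. Same proof: on a
block with `ζ_j = -1` the only eigenvalues of `α` are `1` and `-1`, so `A_j = B_j = 0` there for `ζ² ≠ 1`. -/
def S_SEPR2 : Prop := ∀ (r : ℕ) (n : Fin r → ℕ) (N : ∀ j, Matrix (Fin (n j)) (Fin (n j)) ℂ)
  (S : Submonoid (∀ j, Matrix (Fin (n j)) (Fin (n j)) ℂ)) (𝔤 : Submodule ℂ (∀ j, Matrix (Fin (n j)) (Fin (n j)) ℂ)),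
  LP N S 𝔤 → ∀ (v μ : ∀ j, Fin (n j) → ℂ) (ζ : Fin r → ℂ), (∀ j, ζ j ≠ 0) →
  (∀ j, v j = 0 ∨ (μ j ⬝ᵥ v j = 1 ∧ ζ j ≠ 1)) →
  (fun j => 1 + (ζ j - 1) • vecMulVec (v j) (μ j)) ∈ S → (fun j => 1 + ((ζ j)⁻¹ - 1) • vecMulVec (v j) (μ j)) ∈ S →
  (∀ i j, i ≠ j → v i ≠ 0 → v j ≠ 0 → ζ i ^ 2 ≠ 1 → ζ j ^ 2 ≠ 1 →
    (ζ i = ζ j → ∃ m, hm (N i) (v i) (μ i) m ≠ hm (N j) (v j) (μ j) m) ∧
    (ζ i * ζ j = 1 → ∃ m, hm (N i) (v i) (μ i) m ≠ (-1) ^ m * hm (N j) (v j) (μ j) m)) →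
  ∀ j, v j ≠ 0 → ζ j ^ 2 ≠ 1 → (Pi.single j (vecMulVec (v j) (μ j) * N j - vecMulVec (v j) (μ j) * N j * vecMulVec (v j) (μ j)) :
    ∀ j, Matrix (Fin (n j)) (Fin (n j)) ℂ) ∈ 𝔤

/-- **LGB3.** As LGB, with the exponentials of the elements with `X³ = 0`. (`LG_exp` in `LieG.lean` is the case `X² = 0`; the
general proof: `Q(t) = P(x, log x, Y(x) exp(t X))` is a polynomial in `t` whose derivatives are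
`((Dv X)^k P)(x, log x, Y(x) exp(t X))`, they vanish at `t = 0`.) -/
def S_LGB3 : Prop := ∀ (r : ℕ) (n : Fin r → ℕ) (N B : ∀ j, Matrix (Fin (n j)) (Fin (n j)) ℚ)
  (H W : ∀ j, Matrix (Fin (n j)) (Fin (n j)) ℚ⟦X⟧), (∀ j, Sys (n j) (N j) (B j) (H j) (W j)) →
  ∃ (S : Submonoid (∀ j, Matrix (Fin (n j)) (Fin (n j)) ℂ)) (𝔤 : Submodule ℂ (∀ j, Matrix (Fin (n j)) (Fin (n j)) ℂ)),
    (∀ g, g ∈ S ↔ blk n ℂ g ∈ Gal (Yf (cm (blk n ℚ N)) (Hcg (blk n ℚ⟦X⟧ H)))) ∧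
    LP (fun j => cm (N j)) S 𝔤 ∧ ∀ X ∈ 𝔤, X * X * X = 0 → ∀ t : ℂ, 1 + t • X + (t ^ 2 / 2) • (X * X) ∈ S

/-- **SOG.** The special orthogonal group of a symmetric form in at least three variables is generated by the Eichler
(Siegel) transformations `exp(t X)`, `X = e ⊗ J c - c ⊗ J e`, `(e, e) = (e, c) = 0` (here `X³ = 0`).

Proof. Write `(x, y) = xᵀ J y` and let `G'` be the submonoid generated by these; it is normalised by the orthogonal group.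
`exp(X) x = x + (c, x) e - (e, x) c - (c, c) (e, x) e / 2`. By the theorem of Cartan and Dieudonné (maybe in the
files `Run7/h893/HO/*`, see `hyp_invar_o`) an isometry is a product of reflections `r_a`, `(a, a) = 1`, and the number is
even if `det g = 1`. So it is enough that `r_a r_b ∈ G'` for `(a, a) = (b, b) = 1`, and this holds if some `u ∈ G'` maps `b` to
`a` or `-a`: `r_a r_b = u (r_b u⁻¹ r_b)`. If `(a, b) = 1`, `e = b - a ≠ 0` is isotropic; take `c` with `(c, e) = 0`, `(c, b) = -1`.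
In general let `b ∉ ℂ a`, `b' ≠ 0` the projection of `b` to `a^⊥`. There is an isotropic `e ∈ a^⊥` with `(e, b') ≠ 0`: if
`(b', b') = 0`, `e = y - (y, y) b' / 2` with `y ∈ a^⊥`, `(y, b') = 1`; otherwise `e = b' + κ c`, `c ∈ a^⊥`, `(c, b') = 0`,
`(c, c) ≠ 0`, `κ² (c, c) = -(b', b')`. Scale `e` such that `(a + e, b) = 1`; `a' = a + e` has `(a, a') = 1`, `(a', b) = 1`. -/
def S_SOG : Prop := ∀ (n : ℕ) (J : Matrix (Fin n) (Fin n) ℂ), 3 ≤ n → J.transpose = J → J.det ≠ 0 →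
  ∀ S : Submonoid (Matrix (Fin n) (Fin n) ℂ),
  (∀ X ∈ som J, X * X * X = 0 → ∀ t : ℂ, 1 + t • X + (t ^ 2 / 2) • (X * X) ∈ S) →
  ∀ g : Matrix (Fin n) (Fin n) ℂ, g.transpose * J * g = J → g.det = 1 → g ∈ S

end Pool.Agent.Run7.h225.HG
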