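import Pool.Agent.Run7.h225.HG.Jv
import Pool.Agent.Run7.h225.HG.Iface5

/-!
# Interface of the project HYG, seventh part: algebraic points, all types
-/

set_option autoImplicit false

open PowerSeries Matrix
open Pool.Agent.Y113 hiding Bm
open Pool.Agent.Y120.GF Pool.Agent.Y120.GH Pool.Agent.Y119.HZ
open Pool.Agent.Y119.HY (Am Jm Bm Hq cm E Hf Hc Yf Vr Rel Gal Sol PG Lens QD)
open Run7.h893.HO

namespace Pool.Agent.Run7.h225.HG

/-- the joint torsor at complex points, all types (`log` is the principal branch, `Re (1 - z) > 0`) -/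
def TU0 {r : ℕ} (n : Fin r → ℕ) (Q : Fin r → Polynomial ℚ) (z : ℂ) :
    Set (Matrix (Fin (∑ j, n j)) (Fin (∑ j, n j)) ℂ) :=
  {Z | ∃ X : ∀ j, Matrix (Fin (n j)) (Fin (n j)) ℂ, (∀ j, X j ∈ TU (n j) (Q j) (Complex.log (1 - z)) z) ∧ Z = blk n ℂ X}

/-- the matrices of determinant one which respect the forms preserve the relations (`grp_all2` with `m = 0`) -/
def GrpOK2 {r : ℕ} (n : Fin r → ℕ) (Q : Fin r → Polynomial ℚ) : Prop :=
  ∀ g : ∀ j, Matrix (Fin (n j)) (Fin (n j)) ℂ, (∀ j, (g j).det = 1) →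
    (∀ j, QD (n j) (Q j) → (g j).transpose * cm (Jm (n j) (Q j)) * g j = cm (Jm (n j) (Q j))) →
    (∀ j, QO (n j) (Q j) → (g j).transpose * cm (J0m (n j)) * g j = cm (J0m (n j))) →
    blk n ℂ g ∈ Gal (YJ n Q)

/-- **TGU.** As TGJ (`Pool/Agent/Run7/h811/HG/TGJ.lean`), with orthogonal families (`QO`): their torsor is
`Xᵀ B(z) X = J0`, `det X = exp(-(n/2) log(1 - z))`. `Hf_mem` for complex `z` from `self_pair'` (real `z`) by analytic
continuation; the special orthogonal group is connected by polynomial curves by `S_SOG` (`1 + t X + t² X² / 2`). -/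
def S_TGU : Prop := S_SOG → ∀ (r : ℕ) (n : Fin r → ℕ) (Q : Fin r → Polynomial ℚ)
  (W : ∀ j, Matrix (Fin (n j)) (Fin (n j)) ℚ⟦X⟧), JU n Q W → GrpOK2 n Q →
  TG (blk n ℚ fun j => Am (n j)) (blk n ℚ⟦X⟧ fun j => Hp (n j) (Q j)) (TU0 n Q)

end Pool.Agent.Run7.h225.HG
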