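import Pool.Agent.Run7.h225.HG.Sg

/-!
# Systems with the same function `q`
-/

set_option autoImplicit false

open Matrix
open Pool.Agent.Y119.HZ
open Pool.Agent.Y119.HY (Am Jm Bm Hq cm E Hf Hc Yf Gal Sol PG Lens ps cm_mul cm_add ec uc Ac_ec Ac_last pl pl_eval pl_coeff
  cm_zero cm_one cm_transpose cm_apply Ac_nil mem_Lens symm_Lens Jm_rel chain_li)
open Run7.h893.HO

namespace Pool.Agent.Run7.h225.HG

section chain

variable {n : ℕ} {N : Matrix (Fin n) (Fin n) ℂ}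

/-- `q` as a linear functional -/
def lf (μ : Fin n → ℂ) : (Fin n → ℂ) →ₗ[ℂ] ℂ where
  toFun := fun x => μ ⬝ᵥ x
  map_add' := fun x y => dotProduct_add _ _ _
  map_smul' := fun c x => by rw [dotProduct_smul]; rfl

/-- the polynomial `q` -/
noncomputable def qp (N : Matrix (Fin n) (Fin n) ℂ) (v μ : Fin n → ℂ) : Polynomial ℂ := pl N v (lf μ)

lemma qp_eval (v μ : Fin n → ℂ) (x : ℂ) : (qp N v μ).eval x = qf N v μ x := pl_eval _ _ _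

lemma qp_coeff (v μ : Fin n → ℂ) (i : Fin n) : (qp N v μ).coeff i = (μ ⬝ᵥ ((N ^ (i : ℕ)) *ᵥ v)) / ((i : ℕ).factorial : ℂ) :=
  pl_coeff _ _ _

lemma qp_deg (v μ : Fin n → ℂ) (hn : 1 ≤ n) (h : μ ⬝ᵥ ((N ^ (n - 1)) *ᵥ v) ≠ 0) : (qp N v μ).natDegree = n - 1 := by
  apply le_antisymm
  · unfold qp pl
    refine Polynomial.natDegree_sum_le_of_forall_le _ _ fun i _ => ?_
    refine (Polynomial.natDegree_monomial_le _).trans ?_
    have := i.2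
    omega
  · refine Polynomial.le_natDegree_of_ne_zero ?_
    have h1 := qp_coeff (N := N) v μ ⟨n - 1, by omega⟩
    simp only at h1
    rw [h1]
    exact div_ne_zero h (by exact_mod_cast (n - 1).factorial_ne_zero)

lemma qf_trace (v μ : Fin n → ℂ) (x : ℂ) : qf N v μ x = (E N x * vecMulVec v μ).trace := by
  unfold qf
  rw [mul_vecMulVec, Matrix.trace_vecMulVec, dotProduct_comm]

/-- the matrix with the columns `N^k v` -/
noncomputable def Vc (N : Matrix (Fin n) (Fin n) ℂ) (v : Fin n → ℂ) : Matrix (Fin n) (Fin n) ℂ :=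
  Matrix.of fun i k => ((N ^ (k : ℕ)) *ᵥ v) i

lemma Vc_col (v : Fin n → ℂ) (k : Fin n) : (Vc N v).col k = (N ^ (k : ℕ)) *ᵥ v := rfl

lemma Vc_unit (hN : N ^ n = 0) {v : Fin n → ℂ} (hv : (N ^ (n - 1)) *ᵥ v ≠ 0) : IsUnit (Vc N v) := by
  rw [← Matrix.linearIndependent_cols_iff_isUnit]
  exact chain_li hN hv

lemma mul_Vc (hN : N ^ n = 0) (v : Fin n → ℂ) : N * Vc N v = Vc N v * (cm (Am n)).transpose := by
  ext i k
  have h1 : (N * Vc N v) i k = ((N ^ ((k : ℕ) + 1)) *ᵥ v) i := by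
    rw [pow_succ', ← Matrix.mulVec_mulVec]
    rfl
  rw [h1, Matrix.mul_apply]
  have hk := k.2
  by_cases h : (k : ℕ) + 1 < n
  · rw [Finset.sum_eq_single (⟨(k : ℕ) + 1, h⟩ : Fin n)]
    · rw [Matrix.transpose_apply, cm_apply]
      unfold Am Vc
      simp
    · intro b _ hb
      rw [Matrix.transpose_apply, cm_apply]
      unfold Am
      rw [Matrix.of_apply, if_neg, Rat.cast_zero, mul_zero]
      intro h'
      exact hb (Fin.ext (by simp only; omega))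
    · intro h'
      exact absurd (Finset.mem_univ _) h'
  · have h2 : (k : ℕ) + 1 = n := by omega
    rw [h2, hN, Matrix.zero_mulVec, Pi.zero_apply]
    symm
    refine Finset.sum_eq_zero fun b _ => ?_
    rw [Matrix.transpose_apply, cm_apply]
    unfold Am
    rw [Matrix.of_apply, if_neg, Rat.cast_zero, mul_zero]
    have := b.2
    omega

/-- cyclic vectors with the same `q` are conjugate under the centraliser -/
theorem exists_g (hn : 1 ≤ n) (hN : N ^ n = 0) {v₁ v₂ μ₁ μ₂ : Fin n → ℂ} (h₁ : (N ^ (n - 1)) *ᵥ v₁ ≠ 0)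
    (h₂ : (N ^ (n - 1)) *ᵥ v₂ ≠ 0) (hq : ∀ x, qf N v₁ μ₁ x = qf N v₂ μ₂ x) :
    ∃ g gi : Matrix (Fin n) (Fin n) ℂ, g * gi = 1 ∧ N * g = g * N ∧ g *ᵥ v₁ = v₂ ∧ μ₂ ᵥ* g = μ₁ := by
  have u₁ : IsUnit (Vc N v₁).det := (Matrix.isUnit_iff_isUnit_det _).1 (Vc_unit hN h₁)
  have u₂ : IsUnit (Vc N v₂).det := (Matrix.isUnit_iff_isUnit_det _).1 (Vc_unit hN h₂)
  have i₁ := Matrix.nonsing_inv_mul _ u₁
  have i₁' := Matrix.mul_nonsing_inv _ u₁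
  have i₂ := Matrix.nonsing_inv_mul _ u₂
  have i₂' := Matrix.mul_nonsing_inv _ u₂
  set V₁ := Vc N v₁ with hV₁
  set V₂ := Vc N v₂ with hV₂
  have e0 : ∀ v : Fin n → ℂ, Vc N v *ᵥ Pi.single ⟨0, by omega⟩ 1 = v := by
    intro v
    rw [Matrix.mulVec_single_one, Vc_col]
    simp
  have ek : ∀ (v : Fin n → ℂ) (k : Fin n), Vc N v *ᵥ Pi.single k 1 = (N ^ (k : ℕ)) *ᵥ v := by
    intro v k
    rw [Matrix.mulVec_single_one, Vc_col]
  have hgk : ∀ k : Fin n, (V₂ * V₁⁻¹) *ᵥ ((N ^ (k : ℕ)) *ᵥ v₁) = (N ^ (k : ℕ)) *ᵥ v₂ := by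
    intro k
    rw [← ek v₁, ← hV₁, Matrix.mulVec_mulVec, Matrix.mul_assoc, i₁, mul_one, hV₂, ek]
  refine ⟨V₂ * V₁⁻¹, V₁ * V₂⁻¹, ?_, ?_, ?_, ?_⟩
  · calc V₂ * V₁⁻¹ * (V₁ * V₂⁻¹) = V₂ * (V₁⁻¹ * V₁) * V₂⁻¹ := by simp only [Matrix.mul_assoc]
      _ = 1 := by rw [i₁, mul_one, i₂']
  · have s₁ := mul_Vc hN v₁
    have s₂ := mul_Vc hN v₂
    rw [← hV₁] at s₁
    rw [← hV₂] at s₂
    have s₁' : (cm (Am n)).transpose * V₁⁻¹ = V₁⁻¹ * N := by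
      calc (cm (Am n)).transpose * V₁⁻¹ = V₁⁻¹ * (V₁ * (cm (Am n)).transpose) * V₁⁻¹ := by
            rw [← Matrix.mul_assoc V₁⁻¹, i₁, one_mul]
        _ = V₁⁻¹ * N * (V₁ * V₁⁻¹) := by rw [← s₁]; simp only [Matrix.mul_assoc]
        _ = _ := by rw [i₁', mul_one]
    rw [← Matrix.mul_assoc, s₂, Matrix.mul_assoc, s₁', Matrix.mul_assoc]
  · have := hgk ⟨0, by omega⟩
    simpa using this
  · have hc : ∀ k : Fin n, μ₁ ⬝ᵥ ((N ^ (k : ℕ)) *ᵥ v₁) = μ₂ ⬝ᵥ ((N ^ (k : ℕ)) *ᵥ v₂) := by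
      intro k
      have h3 : qp N v₁ μ₁ = qp N v₂ μ₂ := Polynomial.funext fun x => by rw [qp_eval, qp_eval, hq]
      have h4 := congrArg (fun p => Polynomial.coeff p (k : ℕ)) h3
      rw [qp_coeff, qp_coeff] at h4
      have h5 : ((k : ℕ).factorial : ℂ) ≠ 0 := by exact_mod_cast (k : ℕ).factorial_ne_zero
      exact (div_left_inj' h5).1 h4
    have h6 : (μ₂ ᵥ* (V₂ * V₁⁻¹)) ᵥ* V₁ = μ₁ ᵥ* V₁ := by
      funext k
      have h7 : ∀ μ : Fin n → ℂ, (μ ᵥ* V₁) k = μ ⬝ᵥ ((N ^ (k : ℕ)) *ᵥ v₁) := fun μ => rfl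
      rw [h7, h7, ← dotProduct_mulVec, hgk, hc]
    have h8 := congrArg (fun x => x ᵥ* V₁⁻¹) h6
    rw [Matrix.vecMul_vecMul, Matrix.vecMul_vecMul (M := V₁), i₁', vecMul_one, vecMul_one] at h8
    exact h8

end chain

variable {n : ℕ} {Q Q₁ Q₂ : Polynomial ℚ}

section facts

variable {H' K K' : ℕ → Matrix (Fin n) (Fin n) ℂ} {M Mi : Matrix (Fin n) (Fin n) ℂ}

/-- the residue at `1` in the basis at `0` -/
noncomputable def XX (Q : Polynomial ℚ) (M Mi : Matrix (Fin n) (Fin n) ℂ) : Matrix (Fin n) (Fin n) ℂ :=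
  Mi * cm (Bm n Q) * M

lemma XX_vec (Q : Polynomial ℚ) (M Mi : Matrix (Fin n) (Fin n) ℂ) :
    XX Q M Mi = vecMulVec (Mi *ᵥ uc n) (bb n Q ᵥ* M) := by
  unfold XX
  rw [Bm_vec, mul_vecMulVec, vecMulVec_mul]

lemma B0 (hn : 1 ≤ n) (htr : Q.coeff (n - 1) = 0) : cm (Bm n Q) * cm (Bm n Q) = 0 := by
  rw [Bm_sq hn, htr, Rat.cast_zero, zero_smul]

lemma nB0 (hn : 2 ≤ n) (htr : Q.coeff (n - 1) = 0) : (-cm (Bm n Q)) ^ n = 0 := by
  have h1 : (-cm (Bm n Q)) ^ 2 = 0 := by rw [sq, neg_mul_neg, B0 (by omega) htr]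
  exact pow_eq_zero_of_le hn h1

lemma E_nB (hn : 2 ≤ n) (htr : Q.coeff (n - 1) = 0) (s : ℂ) : E (-cm (Bm n Q)) s = 1 + (-s) • cm (Bm n Q) := by
  rw [E_sq hn (by rw [neg_mul_neg, B0 (by omega) htr]), smul_neg, neg_smul]

lemma E_Bt (hn : 2 ≤ n) (htr : Q.coeff (n - 1) = 0) (s : ℂ) :
    E (cm (Bm n Q)).transpose s = 1 + s • (cm (Bm n Q)).transpose := by
  rw [E_sq hn (by rw [← Matrix.transpose_mul, B0 (by omega) htr, Matrix.transpose_zero])]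

/-- the functional and the vector of the transvection at `1` -/
theorem unip_facts (hQ : QG n Q) (hQ' : QG n (dq n Q)) (htr : Q.coeff (n - 1) = 0)
    (h : CD (cm (Am n)) (cm (Bm n Q)) (Hc n Q) H' K K' M Mi) :
    (bb n Q ᵥ* M) ⬝ᵥ (Mi *ᵥ uc n) = 0 ∧ (bb n Q ᵥ* M) ⬝ᵥ ((cm (Am n) ^ (n - 1)) *ᵥ (Mi *ᵥ uc n)) ≠ 0 ∧
    ∀ s : ℂ, 1 + s • vecMulVec (Mi *ᵥ uc n) (bb n Q ᵥ* M) ∈ Gal (Yf (cm (Am n)) (Hc n Q)) := by
  have hn := hQ.two
  have hm : (bb n Q ᵥ* M) ⬝ᵥ ec n ≠ 0 := by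
    refine mu_ne hQ (h.hK.growth (nB0 hn htr)) (σ := fun z => -Complex.log (1 - z)) fun z hz => ?_
    rw [h.con z hz, ← Bm_vec]
    unfold Yf
    rw [E_nB hn htr]
  have hv : uc n ⬝ᵥ (Mi *ᵥ uc n) ≠ 0 := by
    refine v_ne hQ hQ' h.hH' (h.hK'.growth (nilT' (nB0 hn htr))) (b := bb n Q) (σ := fun z => Complex.log (1 - z))
      fun z hz => ?_
    rw [h.con' z hz, ← transpose_vecMulVec, ← Bm_vec]
    unfold Yf
    rw [E_Bt hn htr]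
  refine ⟨?_, ?_, fun s => ?_⟩
  · rw [← dotProduct_mulVec, Matrix.mulVec_mulVec, h.l, one_mulVec, bb_uc (by omega), htr, Rat.cast_zero]
  · rw [Ac_last hn, dotProduct_smul, smul_eq_mul]
    refine mul_ne_zero ?_ hm
    have h1 : uc n ⬝ᵥ (Mi *ᵥ uc n) = (Mi *ᵥ uc n) ⟨n - 1, by omega⟩ := by
      unfold dotProduct
      rw [Finset.sum_eq_single (⟨n - 1, by omega⟩ : Fin n)]
      · unfold uc
        rw [if_pos (by simp only; omega), one_mul]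
      · intro b _ hb
        unfold uc
        rw [if_neg, zero_mul]
        intro h'
        exact hb (Fin.ext (by simp only; omega))
      · intro h'
        exact absurd (Finset.mem_univ _) h'
    rwa [h1] at hv
  · have h1 := Pool.Agent.Y119.HY.conj_mem_Gal (nB0 hn htr) h.hK (Y := Yf (cm (Am n)) (Hc n Q)) h.l
      (fun x hx hx1 => h.con x (Pool.Agent.Y119.HY.real_mem_Lens hx hx1)) (-s)
    rw [E_nB hn htr, neg_neg, mul_add, mul_one, add_mul, h.r, mul_smul_comm, smul_mul_assoc] at h1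
    rw [← XX_vec]
    exact h1

end facts

/-- two families with the same function `q` have the same exponents modulo `ℤ` -/
theorem intw_same (hINT : S_INT) (hASY : S_ASY) (hREC : S_REC) (hQ₁ : QG n Q₁) (hQ₁' : QG n (dq n Q₁)) (hQ₂ : QG n Q₂)
    (hQ₂' : QG n (dq n Q₂)) (ht₁ : Q₁.coeff (n - 1) = 0) (ht₂ : Q₂.coeff (n - 1) = 0)
    {H₁' K₁ K₁' H₂' K₂ K₂' : ℕ → Matrix (Fin n) (Fin n) ℂ} {M₁ Mi₁ M₂ Mi₂ : Matrix (Fin n) (Fin n) ℂ}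
    (h₁ : CD (cm (Am n)) (cm (Bm n Q₁)) (Hc n Q₁) H₁' K₁ K₁' M₁ Mi₁)
    (h₂ : CD (cm (Am n)) (cm (Bm n Q₂)) (Hc n Q₂) H₂' K₂ K₂' M₂ Mi₂)
    (hq : ∀ x, (E (cm (Am n)) x * XX Q₁ M₁ Mi₁).trace = (E (cm (Am n)) x * XX Q₂ M₂ Mi₂).trace) : RatEq Q₁ Q₂ := by
  obtain ⟨-, f₁, -⟩ := unip_facts hQ₁ hQ₁' ht₁ h₁
  obtain ⟨-, f₂, -⟩ := unip_facts hQ₂ hQ₂' ht₂ h₂
  have hne : ∀ {v μ : Fin n → ℂ}, μ ⬝ᵥ ((cm (Am n) ^ (n - 1)) *ᵥ v) ≠ 0 → (cm (Am n) ^ (n - 1)) *ᵥ v ≠ 0 := by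
    intro v μ h h0
    rw [h0, dotProduct_zero] at h
    exact h rfl
  obtain ⟨g, gi, hg1, hg2, hg3, hg4⟩ := exists_g (by have := hQ₁.two; omega) Ac_nil (hne f₁) (hne f₂) (μ₁ := bb n Q₁ ᵥ* M₁)
    (μ₂ := bb n Q₂ ᵥ* M₂) fun x => by
      rw [qf_trace, qf_trace, ← XX_vec, ← XX_vec]
      exact hq x
  refine hINT hASY hREC n Q₁ Q₂ hQ₁ hQ₂ ht₁ ht₂ H₁' K₁ K₁' H₂' K₂ K₂' M₁ Mi₁ M₂ Mi₂ g gi h₁ h₂ hg1 hg2 ?_
  have e₁ := XX_vec Q₁ M₁ Mi₁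
  have e₂ := XX_vec Q₂ M₂ Mi₂
  unfold XX at e₁ e₂
  rw [e₁, e₂, mul_vecMulVec, vecMulVec_mul, hg3, hg4]

/-- the connection data of the dual family -/
theorem CD_dq (hQ : QG n Q) (hQ' : QG n (dq n Q)) (htr : Q.coeff (n - 1) = 0)
    {H' K K' : ℕ → Matrix (Fin n) (Fin n) ℂ} {M Mi : Matrix (Fin n) (Fin n) ℂ}
    (h : CD (cm (Am n)) (cm (Bm n Q)) (Hc n Q) H' K K' M Mi) :
    ∃ (H2 K2 K3 : ℕ → Matrix (Fin n) (Fin n) ℂ), CD (cm (Am n)) (cm (Bm n (dq n Q))) (Hc n (dq n Q)) H2 K2 K3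
      (Ui n Q * Mi.transpose * (cm (Jm n Q)).transpose) (Ui n Q * M.transpose * (cm (Jm n Q)).transpose) := by
  have hn := hQ.two
  have hJ := DUAL.Jdet hQ
  have hB : (-(-(cm (Bm n Q)).transpose)) ^ n = 0 := by
    rw [neg_neg]
    exact nilT' (nB0 hn htr)
  have h1 := h.dual.conj (nilT Ac_nil) hB (Ui_mul hJ) (mul_Ui hJ)
  rw [Ui_A hJ, Ui_B hJ (by omega), dual_Hc hQ hQ' h.hH'] at h1
  exact ⟨_, _, _, h1⟩

lemma dq_tr (htr : Q.coeff (n - 1) = 0) : (dq n Q).coeff (n - 1) = 0 := by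
  rw [DUAL.dq_coeff, htr, mul_zero]

lemma dq_dq : dq n (dq n Q) = Q := by
  ext i
  rw [DUAL.dq_coeff, DUAL.dq_coeff]
  have h1 : (-1 : ℚ) ^ n * (-1) ^ n = 1 := by rw [← pow_add, Even.neg_one_pow ⟨_, rfl⟩]
  have h2 : (-1 : ℚ) ^ i * (-1) ^ i = 1 := by rw [← pow_add, Even.neg_one_pow ⟨_, rfl⟩]
  linear_combination ((-1 : ℚ) ^ i * (-1) ^ i * Q.coeff i) * h1 + Q.coeff i * h2

/-- the function `q` of the dual family -/
lemma q_dual (hQ : QG n Q) (M Mi : Matrix (Fin n) (Fin n) ℂ) (x : ℂ) :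
    (E (cm (Am n)) x * XX (dq n Q) (Ui n Q * Mi.transpose * (cm (Jm n Q)).transpose)
      (Ui n Q * M.transpose * (cm (Jm n Q)).transpose)).trace = -(E (cm (Am n)) (-x) * XX Q M Mi).trace := by
  have hn := hQ.two
  have hJ := DUAL.Jdet hQ
  set U := Ui n Q
  set V := (cm (Jm n Q)).transpose
  have hVU : V * U = 1 := mul_Ui hJ
  have hUV : U * V = 1 := Ui_mul hJ
  have e1 : XX (dq n Q) (U * Mi.transpose * V) (U * M.transpose * V) = -(U * (XX Q M Mi).transpose * V) := by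
    unfold XX
    rw [← Ui_B hJ (by omega)]
    calc U * M.transpose * V * (U * -(cm (Bm n Q)).transpose * V) * (U * Mi.transpose * V) =
          U * M.transpose * (V * U) * -(cm (Bm n Q)).transpose * (V * U) * Mi.transpose * V := by
            simp only [Matrix.mul_assoc]
      _ = -(U * (M.transpose * (cm (Bm n Q)).transpose * Mi.transpose) * V) := by
            rw [hVU, mul_one, mul_one, Matrix.mul_neg, Matrix.neg_mul, Matrix.neg_mul]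
            simp only [Matrix.mul_assoc]
      _ = _ := by rw [Matrix.transpose_mul, Matrix.transpose_mul, Matrix.mul_assoc (M.transpose)]
  have e2 : E (cm (Am n)) x = U * E (-(cm (Am n)).transpose) x * V := by
    rw [← E_conj _ _ _ hUV hVU, Ui_A hJ]
  have e3 : E (-(cm (Am n)).transpose) x = (E (cm (Am n)) (-x)).transpose := by
    rw [CON.E_transpose, ← Pool.Agent.Y119.HY.E_neg]
  rw [e1, e2, e3, Matrix.mul_neg, Matrix.trace_neg]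
  congr 1
  calc (U * (E (cm (Am n)) (-x)).transpose * V * (U * (XX Q M Mi).transpose * V)).trace =
        (U * ((E (cm (Am n)) (-x)).transpose * (V * U) * (XX Q M Mi).transpose * V)).trace := by
          simp only [Matrix.mul_assoc]
    _ = ((E (cm (Am n)) (-x)).transpose * (V * U) * (XX Q M Mi).transpose * (V * U)).trace := by
          rw [Matrix.trace_mul_comm]
          simp only [Matrix.mul_assoc]
    _ = _ := by
          rw [hVU, mul_one, mul_one, ← Matrix.transpose_mul, Matrix.trace_transpose, Matrix.trace_mul_comm]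

/-- two families with `q₁(x) = -q₂(-x)` have dual exponents modulo `ℤ` -/
theorem intw_dual (hINT : S_INT) (hASY : S_ASY) (hREC : S_REC) (hQ₁ : QG n Q₁) (hQ₁' : QG n (dq n Q₁)) (hQ₂ : QG n Q₂)
    (hQ₂' : QG n (dq n Q₂)) (ht₁ : Q₁.coeff (n - 1) = 0) (ht₂ : Q₂.coeff (n - 1) = 0)
    {H₁' K₁ K₁' H₂' K₂ K₂' : ℕ → Matrix (Fin n) (Fin n) ℂ} {M₁ Mi₁ M₂ Mi₂ : Matrix (Fin n) (Fin n) ℂ}
    (h₁ : CD (cm (Am n)) (cm (Bm n Q₁)) (Hc n Q₁) H₁' K₁ K₁' M₁ Mi₁)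
    (h₂ : CD (cm (Am n)) (cm (Bm n Q₂)) (Hc n Q₂) H₂' K₂ K₂' M₂ Mi₂)
    (hq : ∀ x, (E (cm (Am n)) x * XX Q₁ M₁ Mi₁).trace = -(E (cm (Am n)) (-x) * XX Q₂ M₂ Mi₂).trace) :
    RatEq Q₁ (dq n Q₂) := by
  obtain ⟨H2, K2, K3, h₃⟩ := CD_dq hQ₂ hQ₂' ht₂ h₂
  refine intw_same hINT hASY hREC hQ₁ hQ₁' hQ₂' (by rw [dq_dq]; exact hQ₂) ht₁ (dq_tr ht₂) h₁ h₃ fun x => ?_
  rw [q_dual hQ₂, hq]

end Pool.Agent.Run7.h225.HG
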