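import Pool.Agent.Run7.h225.HG.Iface4
import Pool.Agent.Run7.h225.HG.BLK

/-!
# Piece JFIN of the project HYG: the theorem on tuples for block systems (helper957)
-/

set_option autoImplicit false

open PowerSeries Matrix
open Pool.Agent.Y113 hiding Bm
open Pool.Agent.Y120.GF Pool.Agent.Y120.GH Pool.Agent.Y119.HZ
open Pool.Agent.Y119.HY (Am Jm Bm Hq cm E Hf Hc Yf Vr Rel Gal Sol PG Lens)

namespace Pool.Agent.Run7.h225.HG

namespace JFINp

variable {k : ℕ} {r : Fin k → ℕ} {n : ∀ i, Fin (r i) → ℕ}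

/-- the coordinates of the blocks in the block diagonal matrices -/
def rhoJ : (Σ i : Fin k, Option (Σ j : Fin (r i), Fin (n i j) × Fin (n i j))) → Jx (fun i => ∑ j, n i j)
  | ⟨i, none⟩ => ⟨i, none⟩
  | ⟨i, some ⟨j, p⟩⟩ => ⟨i, some (finSigmaFinEquiv ⟨j, p.1⟩, finSigmaFinEquiv ⟨j, p.2⟩)⟩

lemma rhoJ_inj : Function.Injective (rhoJ (r := r) (n := n)) := by
  rintro ⟨i, _ | ⟨j, p⟩⟩ ⟨i', _ | ⟨j', p'⟩⟩ h
  · simp only [rhoJ, Sigma.mk.injEq] at h
    obtain ⟨rfl, -⟩ := h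
    rfl
  · exfalso
    simp only [rhoJ, Sigma.mk.injEq] at h
    obtain ⟨rfl, h⟩ := h
    simp at h
  · exfalso
    simp only [rhoJ, Sigma.mk.injEq] at h
    obtain ⟨rfl, h⟩ := h
    simp at h
  · simp only [rhoJ, Sigma.mk.injEq] at h
    obtain ⟨rfl, h⟩ := h
    rw [heq_eq_eq, Option.some.injEq, Prod.mk.injEq] at h
    obtain ⟨h1, h2⟩ := h
    have h3 := finSigmaFinEquiv.injective h1
    have h4 := finSigmaFinEquiv.injective h2
    rw [Sigma.mk.injEq] at h3 h4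
    obtain ⟨rfl, h3⟩ := h3
    obtain ⟨-, h4⟩ := h4
    rw [heq_eq_eq] at h3 h4
    have : p = p' := Prod.ext h3 h4
    rw [this]

lemma pw_rhoJ (l : Fin k → ℂ) (X : ∀ i j, Matrix (Fin (n i j)) (Fin (n i j)) ℂ) :
    pw l (fun i => blk (n i) ℂ (X i)) ∘ rhoJ = pj l X := by
  funext v
  obtain ⟨i, _ | ⟨j, p⟩⟩ := v
  · rfl
  · show blk (n i) ℂ (X i) (finSigmaFinEquiv ⟨j, p.1⟩) (finSigmaFinEquiv ⟨j, p.2⟩) = X i j p.1 p.2
    rw [BLK.blk_apply, Equiv.symm_apply_apply, Equiv.symm_apply_apply, Matrix.blockDiagonal'_apply_eq]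

lemma coeff_rhoJ (V : Submodule ℚ ℂ)
    (P : MvPolynomial (Σ i : Fin k, Option (Σ j : Fin (r i), Fin (n i j) × Fin (n i j))) ℂ)
    (h : ∀ s, P.coeff s ∈ V) (s) : (MvPolynomial.rename rhoJ P).coeff s ∈ V := by
  classical
  by_cases hs : ∃ u, Finsupp.mapDomain (rhoJ (r := r) (n := n)) u = s
  · obtain ⟨u, rfl⟩ := hs
    rw [MvPolynomial.coeff_rename_mapDomain _ rhoJ_inj]
    exact h u
  · rw [MvPolynomial.coeff_rename_eq_zero]
    · exact V.zero_mem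
    · intro u hu
      exact absurd ⟨u, hu⟩ hs

end JFINp

open JFINp

theorem p_JFIN : S_JFIN := by
  intro h1 h2 h3 k δ D r n N B H W T hS hT
  have hB := fun i => h3 (r i) (n i) (N i) (B i) (H i) (W i) (hS i)
  obtain ⟨c, C, hc, hC, hmain⟩ := h2 h1 k δ D (fun i => ∑ j, n i j) (fun i => blk (n i) ℚ (N i))
    (fun i => blk (n i) ℚ (B i)) (fun i => blk (n i) ℚ⟦X⟧ (H i)) (fun i => blk (n i) ℚ⟦X⟧ (W i))
    (fun i z => (fun X => blk (n i) ℂ X) '' T i z) (fun i => (hB i).1) (by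
      rintro i x hx hx1 _ ⟨X, hX, rfl⟩ c
      obtain ⟨g, hg, hg'⟩ := hT i x hx hx1 X hX c
      refine ⟨blk (n i) ℂ g, hg, ?_⟩
      rw [(hB i).2.1, (hB i).2.2.1]
      show _ = blk (n i) ℂ X * _
      rw [← map_mul, ← map_mul]
      congr 1
      funext j
      exact hg' j)
  refine ⟨c, C, hc, hC, ?_⟩
  intro V _ hV Ω x N' hx hN' S hSt
  refine hmain V hV (fun i => blk (n i) ℂ (Ω i)) x N' hx hN' S ?_
  intro t ht
  obtain ⟨ht1, P, hP1, hP2, hP3, l, g, hg, hne⟩ := hSt t ht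
  refine ⟨ht1, MvPolynomial.rename rhoJ P, (MvPolynomial.totalDegree_rename_le _ _).trans hP1,
    coeff_rhoJ V P hP2, ?_, l, fun i => blk (n i) ℂ (g i), fun i => ⟨g i, hg i, rfl⟩, ?_⟩
  · rw [MvPolynomial.aeval_rename]
    have e1 : (fun i => Ytg (blk (n i) ℚ (N i)) (blk (n i) ℚ⟦X⟧ (H i)) (t i) * blk (n i) ℂ (Ω i)) =
        fun i => blk (n i) ℂ fun j => Ytg (N i j) (H i j) (t i) * Ω i j := by
      funext i
      rw [(hB i).2.2.2.1, ← map_mul]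
      rfl
    rw [e1, pw_rhoJ]
    exact hP3
  · rw [MvPolynomial.aeval_rename]
    have e1 : (fun i => blk (n i) ℂ (g i) * blk (n i) ℂ (Ω i)) =
        fun i => blk (n i) ℂ fun j => g i j * Ω i j := by
      funext i
      rw [← map_mul]
      rfl
    rw [e1, pw_rhoJ]
    exact hne

end Pool.Agent.Run7.h225.HG
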