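import Pool.Agent.Run7.h225.HG.Iface4
import Pool.Agent.Run7.h225.HG.BLK
import Pool.Agent.Run7.h225.HG.REFL

/-!
# The pair (monoid, Lie algebra) for block systems
-/

set_option autoImplicit false

open PowerSeries Matrix
open Pool.Agent.Y113 hiding Bm
open Pool.Agent.Y120.GF Pool.Agent.Y120.GH Pool.Agent.Y119.HZ
open Pool.Agent.Y119.HY (Am Jm Bm Hq cm E Hf Hc Yf Vr Rel Gal Sol PG Lens)

namespace Pool.Agent.Run7.h225.HG

namespace LGB

open Pool.Agent.Y119.HY in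
/-- the group is closed under specialisation of polynomial families, from an infinite set -/
lemma Gal_closed_inf {n : ℕ} (Y : ℂ → Matrix (Fin n) (Fin n) ℂ) (M : Matrix (Fin n) (Fin n) (Polynomial ℂ)) (T : Set ℂ)
    (hT : T.Infinite) (hM : ∀ c ∈ T, M.map (Polynomial.eval c) ∈ Gal Y) (c : ℂ) : M.map (Polynomial.eval c) ∈ Gal Y := by
  intro P hP x hx hx1
  set q : Polynomial ℂ := evp P (Polynomial.C (x : ℂ)) (Polynomial.C (Complex.log x))
    ((Y (x : ℂ)).map Polynomial.C * M) with hq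
  have hqe : ∀ c, q.eval c = ev P (x : ℂ) (Complex.log x) (Y (x : ℂ) * M.map (Polynomial.eval c)) := by
    intro c
    rw [hq, eval_evp, Polynomial.eval_C, Polynomial.eval_C]
    congr 1
    ext i j
    simp only [Matrix.map_apply, Matrix.mul_apply, Polynomial.eval_finsetSum, Polynomial.eval_mul, Polynomial.eval_C]
  have h0 : q = 0 := by
    refine Polynomial.eq_zero_of_infinite_isRoot q (hT.mono fun c hc => ?_)
    show q.eval c = 0
    rw [hqe]
    exact hM c hc P hP x hx hx1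
  rw [← hqe, h0, Polynomial.eval_zero]

open Pool.Agent.Y119.HY in
/-- the derivative of a curve in a linear subspace -/
lemma sub_deriv {n : ℕ} (S : Submodule ℂ (Matrix (Fin n) (Fin n) ℂ)) {M : ℂ → Matrix (Fin n) (Fin n) ℂ}
    {M' : Matrix (Fin n) (Fin n) ℂ} {c : ℂ} (h : ∀ s, M s ∈ S) (hd : HD M M' c) : M' ∈ S := by
  refine REFL.mem_of_func S fun f hf => ?_
  have e : ∀ X : Matrix (Fin n) (Fin n) ℂ, f X = ∑ i, ∑ j, X i j * f (Matrix.single i j 1) := by
    intro X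
    conv_lhs => rw [Matrix.matrix_eq_sum_single X]
    rw [map_sum]
    refine Finset.sum_congr rfl fun i _ => ?_
    rw [map_sum]
    refine Finset.sum_congr rfl fun j _ => ?_
    have : Matrix.single i j (X i j) = (X i j) • Matrix.single i j (1 : ℂ) := by
      rw [Matrix.smul_single, smul_eq_mul, mul_one]
    rw [this, map_smul, smul_eq_mul]
  have h1 : HasDerivAt (fun s => f (M s)) (f M') c := by
    rw [e M']
    have h2 : (fun s => f (M s)) = fun s => ∑ i, ∑ j, M s i j * f (Matrix.single i j 1) := by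
      funext s
      exact e _
    rw [h2]
    exact HasDerivAt.fun_sum fun i _ => HasDerivAt.fun_sum fun j _ => (hd i j).mul_const _
  have h3 : (fun s => f (M s)) = fun _ => 0 := by
    funext s
    exact hf _ (h s)
  rw [h3] at h1
  exact h1.unique (hasDerivAt_const c (0 : ℂ))

open Pool.Agent.Y119.HY in
lemma LP_of {r m : ℕ} {n : Fin r → ℕ} (φ : (∀ j, Matrix (Fin (n j)) (Fin (n j)) ℂ) →+* Matrix (Fin m) (Fin m) ℂ)
    (hsm : ∀ (c : ℂ) (X : ∀ j, Matrix (Fin (n j)) (Fin (n j)) ℂ), φ (c • X) = c • φ X)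
    (N : ∀ j, Matrix (Fin (n j)) (Fin (n j)) ℂ) (N0 N1 : Matrix (Fin m) (Fin m) ℂ) (H : ℕ → Matrix (Fin m) (Fin m) ℂ)
    (hN : ∀ j, N j ^ n j = 0) (hφN : φ N = N0) (hnil : N0 ^ m = 0) (hsol : Sol N0 N1 H)
    (hE : ∀ c, E N0 c = φ fun j => E (N j) c)
    (hcl : ∀ M : ∀ j, Matrix (Fin (n j)) (Fin (n j)) (Polynomial ℂ), ∃ M' : Matrix (Fin m) (Fin m) (Polynomial ℂ),
      ∀ c : ℂ, M'.map (Polynomial.eval c) = φ fun j => (M j).map (Polynomial.eval c)) :
    ∃ (S : Submonoid (∀ j, Matrix (Fin (n j)) (Fin (n j)) ℂ)) (𝔤 : Submodule ℂ (∀ j, Matrix (Fin (n j)) (Fin (n j)) ℂ)),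
    (∀ g, g ∈ S ↔ φ g ∈ Gal (Yf N0 H)) ∧ LP N S 𝔤 := by
  set Y := Yf N0 H with hYdef
  let φl : (∀ j, Matrix (Fin (n j)) (Fin (n j)) ℂ) →ₗ[ℂ] Matrix (Fin m) (Fin m) ℂ :=
    { toFun := fun X => φ X
      map_add' := fun X X' => map_add φ X X'
      map_smul' := fun c X => hsm c X }
  obtain ⟨S, hS⟩ : ∃ S : Submonoid (∀ j, Matrix (Fin (n j)) (Fin (n j)) ℂ), ∀ g, g ∈ S ↔ φ g ∈ Gal Y :=
    ⟨(Gal Y).comap φ.toMonoidHom, fun g => Iff.rfl⟩
  obtain ⟨𝔤, hg⟩ : ∃ 𝔤 : Submodule ℂ (∀ j, Matrix (Fin (n j)) (Fin (n j)) ℂ), ∀ X, X ∈ 𝔤 ↔ φ X ∈ LG Y :=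
    ⟨(LG Y).comap φl, fun g => Iff.rfl⟩
  refine ⟨S, 𝔤, hS, ?_⟩
  constructor
  · exact hN
  · intro M T hT hM c
    obtain ⟨M', hM'⟩ := hcl M
    rw [hS, ← hM']
    refine Gal_closed_inf Y M' T hT (fun c hc => ?_) c
    rw [hM', ← hS]
    exact hM c hc
  · intro c g hg
    rw [hS] at hg ⊢
    have e1 : φ (fun j => E (N j) c * g j * E (N j) (-c)) = E N0 c * φ g * E N0 (-c) := by
      rw [hE, hE, ← map_mul, ← map_mul]
      rfl
    rw [e1]
    exact conj_E hnil hsol c _ hg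
  · intro c X hX
    rw [hg] at hX ⊢
    have e1 : φ (fun j => E (N j) c * X j * E (N j) (-c)) = E N0 c * φ X * E N0 (-c) := by
      rw [hE, hE, ← map_mul, ← map_mul]
      rfl
    rw [e1]
    exact LG_E hnil hsol c hX
  · intro X hX
    rw [hg] at hX ⊢
    rw [map_sub, map_mul, map_mul, hφN]
    refine sub_deriv (LG Y) (M := fun s => E N0 s * φ X * E N0 (-s)) (c := 0)
      (fun s => LG_E hnil hsol s hX) ?_
    refine (((E_HD hnil 0).mul (HD.const (φ X) 0)).mul (REFL.E_neg_HD hnil 0)).congr ?_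
    simp only [neg_zero, E_zero hnil, one_mul, mul_one, mul_zero, add_zero]
    rw [mul_neg, ← sub_eq_add_neg]
  · intro g gi hgi hg1 hi X hX
    rw [hg] at hX ⊢
    rw [hS] at hg1 hi
    rw [map_mul, map_mul]
    refine LG_conj ?_ hg1 hi hX
    rw [← map_mul, hgi, map_one]
  · intro X hX Z hZ
    rw [hg] at hX hZ ⊢
    rw [map_sub, map_mul, map_mul]
    exact LG_bracket hX hZ
  · intro X hX h2 t
    rw [hg] at hX
    rw [hS, map_add, map_one, hsm]
    refine LG_exp hX ?_ t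
    rw [← map_mul, h2, map_zero]
  · intro g gi hgi hg1 hi
    rw [hS] at hg1 hi
    rw [hg, map_sub, map_mul, map_mul, hφN]
    refine REFL.curve_mem hnil hsol ?_ hg1 hi
    rw [← map_mul, hgi, map_one]

end LGB

open LGB BLK in
theorem p_LGB : S_LGB := by
  intro r n N B H W h
  have hS := Sys_blk N B H W h
  have hN : ∀ j, cm (N j) ^ n j = 0 := fun j => cm_nil (h j).nil
  have hE : ∀ c : ℂ, E (cm (blk n ℚ N)) c = blk n ℂ fun j => E (cm (N j)) c := by
    intro c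
    rw [cm_blk]
    exact E_blk (fun j => cm (N j)) hN c
  exact LP_of (blk n ℂ) (fun c X => blk_smul c X) (fun j => cm (N j)) (cm (blk n ℚ N)) _ _ hN (cm_blk N).symm
    (cm_nil hS.nil) (Sol_of_Sys hS) hE fun M => ⟨blk n (Polynomial ℂ) M, fun c => blk_map _ (Polynomial.eval_zero) M⟩

end Pool.Agent.Run7.h225.HG
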