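import Pool.Agent.Run7.h225.HG.Iface2
import Pool.Agent.Run7.h893.HO.Loc

/-!
# Local solutions at a semisimple singularity with an arbitrary rational exponent which is not an integer, and the connection
-/

set_option autoImplicit false

open Filter Topology Matrix Pool.Agent.Y119.HY
open Finset.HasAntidiagonal
open Run7.h893.HO (DD_cube RI RI_right RI_left Hf_ode' Sf Sf_mul Sf_one)

namespace Pool.Agent.Run7.h225.HG.LOCC

variable {n : ℕ}

/-! ### bounds -/

lemma rat_bound {s : ℚ} (hs : ∀ a : ℤ, (a : ℚ) ≠ s) (k : ℕ) :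
    ((k : ℝ) + 1) * (1 / (s.den : ℝ)) ≤ ‖((k : ℂ) + 1) ^ 2 - (s : ℂ) ^ 2‖ := by
  have hd : (0 : ℝ) < s.den := by exact_mod_cast s.den_pos
  have e1 : ((k : ℂ) + 1) ^ 2 - (s : ℂ) ^ 2 = (((((k : ℝ) + 1) - s) * (((k : ℝ) + 1) + s) : ℝ) : ℂ) := by
    push_cast
    ring
  have hlow : ∀ a : ℤ, 1 / (s.den : ℝ) ≤ |(a : ℝ) - s| := by
    intro a
    have h1 : (a : ℝ) - s = ((a * s.den - s.num : ℤ) : ℝ) / s.den := by
      have h2 : (s : ℝ) = s.num / s.den := by exact_mod_cast (Rat.num_div_den s).symm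
      rw [h2]
      field_simp
      push_cast
      ring
    rw [h1, abs_div, abs_of_pos hd]
    refine div_le_div_of_nonneg_right ?_ hd.le
    have h2 : a * s.den - s.num ≠ 0 := by
      intro h0
      apply hs a
      have h3 : (s.num : ℚ) = a * s.den := by exact_mod_cast (sub_eq_zero.1 h0).symm
      have hd' : (s.den : ℚ) ≠ 0 := by exact_mod_cast s.den_ne_zero
      rw [← Rat.num_div_den s, h3]
      field_simp
    have h3 : (1 : ℤ) ≤ |a * s.den - s.num| := Int.one_le_abs h2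
    exact_mod_cast h3
  have h1 := hlow ((k : ℤ) + 1)
  have h2 := hlow (-((k : ℤ) + 1))
  have h2' : 1 / (s.den : ℝ) ≤ |((k : ℝ) + 1) + s| := by
    have : |((k : ℝ) + 1) + s| = |((-((k : ℤ) + 1) : ℤ) : ℝ) - s| := by
      rw [← abs_neg]
      congr 1
      push_cast
      ring
    rw [this]
    exact h2
  have h1' : 1 / (s.den : ℝ) ≤ |((k : ℝ) + 1) - s| := by
    push_cast at h1
    exact h1
  rw [e1, Complex.norm_real, Real.norm_eq_abs, abs_mul]
  have hk : (0 : ℝ) ≤ k := Nat.cast_nonneg k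
  rcases le_total (0 : ℝ) s with h | h
  · have h3 : (k : ℝ) + 1 ≤ |((k : ℝ) + 1) + s| := (by linarith : (k : ℝ) + 1 ≤ ((k : ℝ) + 1) + s).trans (le_abs_self _)
    rw [mul_comm]
    exact mul_le_mul h1' h3 (by positivity) (abs_nonneg _)
  · have h3 : (k : ℝ) + 1 ≤ |((k : ℝ) + 1) - s| := (by linarith : (k : ℝ) + 1 ≤ ((k : ℝ) + 1) - s).trans (le_abs_self _)
    exact mul_le_mul h3 h2' (by positivity) (abs_nonneg _)

lemma rat_ne {s : ℚ} (hs : ∀ a : ℤ, (a : ℚ) ≠ s) (k : ℕ) : ((k : ℂ) + 1) ^ 2 - (s : ℂ) ^ 2 ≠ 0 := by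
  intro h0
  have h1 := rat_bound hs k
  rw [h0, norm_zero] at h1
  have : (0 : ℝ) ≤ k := Nat.cast_nonneg k
  have hd : (0 : ℝ) < s.den := by exact_mod_cast s.den_pos
  have : 0 < ((k : ℝ) + 1) * (1 / (s.den : ℝ)) := by positivity
  linarith

lemma neg_int {s : ℚ} (hs : ∀ a : ℤ, (a : ℚ) ≠ s) (a : ℤ) : (a : ℚ) ≠ -s := by
  intro h
  apply hs (-a)
  push_cast
  rw [h, neg_neg]

section growth

attribute [local instance] Matrix.linftyOpNormedAddCommGroup Matrix.linftyOpNormedRing Matrix.linftyOpNormedAlgebra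

variable {N0 : Matrix (Fin n) (Fin n) ℂ}

/-- existence -/
theorem exists_sol_s {s : ℚ} (hs : ∀ a : ℤ, (a : ℚ) ≠ s) (h : N0 * N0 = (s : ℂ) • N0) (N1 : Matrix (Fin n) (Fin n) ℂ) :
    ∃ H, Sol N0 N1 H := by
  set H : ℕ → Matrix (Fin n) (Fin n) ℂ := fun k => Nat.rec (motive := fun _ => Matrix (Fin n) (Fin n) ℂ) 1
    (fun k X => RI N0 (s : ℂ) ((k : ℂ) + 1) ((k : ℂ) • X + (X * N0 - N0 * X) + N1 * X)) k with hH
  refine ⟨H, rfl, fun k => ?_⟩
  have h1 : ((k : ℂ) + 1) ≠ 0 := by exact_mod_cast Nat.succ_ne_zero k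
  have h2 : H (k + 1) = RI N0 (s : ℂ) ((k : ℂ) + 1) ((k : ℂ) • H k + (H k * N0 - N0 * H k) + N1 * H k) := rfl
  have h3 := RI_right h h1 (rat_ne hs k) ((k : ℂ) • H k + (H k * N0 - N0 * H k) + N1 * H k)
  rw [← h2, DD_apply] at h3
  exact h3

lemma RI_norm_s {s : ℚ} (hs : ∀ a : ℤ, (a : ℚ) ≠ s) : ∃ K : ℝ, 0 ≤ K ∧ ∀ (k : ℕ) (Y : Matrix (Fin n) (Fin n) ℂ),
    ‖RI N0 (s : ℂ) ((k : ℂ) + 1) Y‖ ≤ K / ((k : ℝ) + 1) * ‖Y‖ := by
  have hd : (0 : ℝ) < s.den := by exact_mod_cast s.den_pos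
  set d : ℝ := (s.den : ℝ) with hdd
  refine ⟨1 + d * (2 * ‖N0‖) + d * ((2 * ‖N0‖) * (2 * ‖N0‖)), by positivity, fun k Y => ?_⟩
  have hk : (1 : ℝ) ≤ (k : ℝ) + 1 := by linarith [Nat.cast_nonneg (α := ℝ) k]
  have h1 : ‖((k : ℂ) + 1)‖ = (k : ℝ) + 1 := by
    have : ((k : ℂ) + 1) = (((k : ℝ) + 1 : ℝ) : ℂ) := by push_cast; rfl
    rw [this, Complex.norm_real, Real.norm_of_nonneg (by linarith)]
  have hb := rat_bound hs k
  have hinv : ‖(((k : ℂ) + 1) ^ 2 - (s : ℂ) ^ 2)⁻¹‖ ≤ d / ((k : ℝ) + 1) := by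
    rw [norm_inv, inv_eq_one_div, div_le_div_iff₀ (lt_of_lt_of_le (by positivity) hb) (by positivity)]
    have h2 : ((k : ℝ) + 1) = d * (((k : ℝ) + 1) * (1 / d)) := by field_simp
    rw [one_mul]
    calc ((k : ℝ) + 1) = d * (((k : ℝ) + 1) * (1 / d)) := h2
      _ ≤ _ := mul_le_mul_of_nonneg_left hb hd.le
  have hinv1 : ‖(((k : ℂ) + 1))⁻¹‖ ≤ 1 := by
    rw [norm_inv, h1]
    exact inv_le_one_of_one_le₀ hk
  have hinv2 : ‖(((k : ℂ) + 1))⁻¹‖ = 1 / ((k : ℝ) + 1) := by
    rw [norm_inv, h1, one_div]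
  have hD1 := DD_norm (N0 := N0) Y
  have hD2 : ‖DD N0 (DD N0 Y)‖ ≤ (2 * ‖N0‖) * ((2 * ‖N0‖) * ‖Y‖) :=
    (DD_norm _).trans (mul_le_mul_of_nonneg_left hD1 (by positivity))
  unfold RI
  have t1 : ‖(((k : ℂ) + 1))⁻¹ • Y‖ ≤ 1 / ((k : ℝ) + 1) * ‖Y‖ := by rw [norm_smul, hinv2]
  have t2 : ‖(((k : ℂ) + 1) ^ 2 - (s : ℂ) ^ 2)⁻¹ • DD N0 Y‖ ≤ d / ((k : ℝ) + 1) * ((2 * ‖N0‖) * ‖Y‖) := by
    rw [norm_smul]
    exact mul_le_mul hinv hD1 (norm_nonneg _) (by positivity)
  have t3 : ‖((((k : ℂ) + 1))⁻¹ * (((k : ℂ) + 1) ^ 2 - (s : ℂ) ^ 2)⁻¹) • DD N0 (DD N0 Y)‖ ≤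
      d / ((k : ℝ) + 1) * ((2 * ‖N0‖) * ((2 * ‖N0‖) * ‖Y‖)) := by
    rw [norm_smul, norm_mul]
    refine mul_le_mul ?_ hD2 (norm_nonneg _) (by positivity)
    calc ‖(((k : ℂ) + 1))⁻¹‖ * ‖(((k : ℂ) + 1) ^ 2 - (s : ℂ) ^ 2)⁻¹‖ ≤ 1 * (d / ((k : ℝ) + 1)) :=
          mul_le_mul hinv1 hinv (norm_nonneg _) (by positivity)
      _ = _ := one_mul _
  refine (norm_add_le _ _).trans ((add_le_add (norm_sub_le _ _) le_rfl).trans ?_)
  calc _ ≤ 1 / ((k : ℝ) + 1) * ‖Y‖ + d / ((k : ℝ) + 1) * ((2 * ‖N0‖) * ‖Y‖) +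
        d / ((k : ℝ) + 1) * ((2 * ‖N0‖) * ((2 * ‖N0‖) * ‖Y‖)) := add_le_add (add_le_add t1 t2) t3
    _ = _ := by ring

/-- growth -/
theorem growth_s {N1 : Matrix (Fin n) (Fin n) ℂ} {H : ℕ → Matrix (Fin n) (Fin n) ℂ} (hH : Sol N0 N1 H)
    {s : ℚ} (hs : ∀ a : ℤ, (a : ℚ) ≠ s) (h : N0 * N0 = (s : ℂ) • N0) (i j : Fin n) : PG fun k => H k i j := by
  obtain ⟨K, hK0, hK⟩ := RI_norm_s (N0 := N0) hs
  set K1 : ℝ := K * ‖N1 - 1‖ with hK1
  have hK10 : 0 ≤ K1 := by positivity
  set q : ℕ := ⌈K1⌉₊ with hq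
  have hstep : ∀ k, ‖H (k + 1)‖ ≤ (1 + K1 / ((k : ℝ) + 1)) * ‖H k‖ := by
    intro k
    have h1 : ((k : ℂ) + 1) ≠ 0 := by exact_mod_cast Nat.succ_ne_zero k
    have h2 : ((k : ℂ) + 1) • (H (k + 1) - H k) + DD N0 (H (k + 1) - H k) = (N1 - 1) * H k := by
      have h3 := hH.step k
      rw [DD_apply, sub_mul, mul_sub, sub_mul, one_mul]
      have h4 : ((k : ℂ) + 1) • (H (k + 1) - H k) = ((k : ℂ) + 1) • H (k + 1) - ((k : ℂ) • H k + H k) := by
        rw [smul_sub, add_smul (k : ℂ) 1 (H k), one_smul]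
      rw [h4]
      calc _ = (((k : ℂ) + 1) • H (k + 1) + (H (k + 1) * N0 - N0 * H (k + 1))) - (k : ℂ) • H k - H k
            - (H k * N0 - N0 * H k) := by abel
        _ = _ := by rw [h3]; abel
    have h5 := RI_left h h1 (rat_ne hs k) (H (k + 1) - H k)
    rw [h2] at h5
    have h6 : ‖H (k + 1) - H k‖ ≤ K1 / ((k : ℝ) + 1) * ‖H k‖ := by
      rw [← h5]
      refine (hK k _).trans ?_
      calc K / ((k : ℝ) + 1) * ‖(N1 - 1) * H k‖ ≤ K / ((k : ℝ) + 1) * (‖N1 - 1‖ * ‖H k‖) :=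
            mul_le_mul_of_nonneg_left (norm_mul_le _ _) (by positivity)
        _ = _ := by rw [hK1]; ring
    calc ‖H (k + 1)‖ = ‖H k + (H (k + 1) - H k)‖ := by rw [add_sub_cancel]
      _ ≤ ‖H k‖ + ‖H (k + 1) - H k‖ := norm_add_le _ _
      _ ≤ _ := by linarith
  have hbd : ∀ k : ℕ, ‖H k‖ ≤ ‖H 0‖ * ((k : ℝ) + 1) ^ q := by
    intro k
    induction k with
    | zero => simp
    | succ k ih =>
      have hk : (0 : ℝ) < (k : ℝ) + 1 := by positivity
      have h1 : 1 + K1 / ((k : ℝ) + 1) ≤ (1 + 1 / ((k : ℝ) + 1)) ^ q := by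
        have h2 := one_add_mul_le_pow (a := 1 / ((k : ℝ) + 1)) (by have : (0 : ℝ) ≤ 1 / ((k : ℝ) + 1) := by positivity
                                                                   linarith) q
        refine le_trans ?_ h2
        have : K1 ≤ q := Nat.le_ceil _
        rw [mul_one_div]
        gcongr
      calc ‖H (k + 1)‖ ≤ (1 + K1 / ((k : ℝ) + 1)) * ‖H k‖ := hstep k
        _ ≤ (1 + 1 / ((k : ℝ) + 1)) ^ q * (‖H 0‖ * ((k : ℝ) + 1) ^ q) :=
          mul_le_mul h1 ih (norm_nonneg _) (by positivity)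
        _ = ‖H 0‖ * ((1 + 1 / ((k : ℝ) + 1)) * ((k : ℝ) + 1)) ^ q := by rw [mul_pow]; ring
        _ = ‖H 0‖ * (((k + 1 : ℕ) : ℝ) + 1) ^ q := by
          congr 2
          push_cast
          field_simp
  exact ⟨‖H 0‖, q, fun k => (entry_le _ i j).trans (hbd k)⟩

end growth

/-! ### duality -/

variable {N0 N1 : Matrix (Fin n) (Fin n) ℂ} {H H' : ℕ → Matrix (Fin n) (Fin n) ℂ}


/-- the recursion for the coefficients of the pairing of a solution and a dual solution -/
lemma pair_step (hH : Sol N0 N1 H) (hH' : Sol (-N0.transpose) (-N1.transpose) H') (k : ℕ) :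
    (k : ℂ) • (∑ p ∈ antidiagonal k, (H' p.1).transpose * H p.2) +
      DD N0 (∑ p ∈ antidiagonal k, (H' p.1).transpose * H p.2) = 0 := by
  set U : ℕ → Matrix (Fin n) (Fin n) ℂ := fun k => (k : ℂ) • H k + (H k * N0 - N0 * H k) with hU
  set V : ℕ → Matrix (Fin n) (Fin n) ℂ := fun k => (k : ℂ) • (H' k).transpose +
    ((H' k).transpose * N0 - N0 * (H' k).transpose) with hV
  have hU0 : U 0 = 0 := by simp [hU, hH.zero]
  have hV0 : V 0 = 0 := by simp [hV, hH'.zero]
  have hUs : ∀ k, U (k + 1) = U k + N1 * H k := by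
    intro k
    have h := hH.step k
    simp only [hU]
    push_cast
    exact h
  have hVs : ∀ k, V (k + 1) = V k - (H' k).transpose * N1 := by
    intro k
    have h := congrArg Matrix.transpose (hH'.step k)
    simp only [transpose_add, transpose_sub, transpose_smul, transpose_mul, transpose_neg, transpose_transpose] at h
    simp only [hV]
    push_cast
    have e1 : ((k : ℂ) + 1) • (H' (k + 1)).transpose + ((H' (k + 1)).transpose * N0 - N0 * (H' (k + 1)).transpose) =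
        ((k : ℂ) + 1) • (H' (k + 1)).transpose + (-N0 * (H' (k + 1)).transpose - (H' (k + 1)).transpose * -N0) := by
      congr 1
      rw [neg_mul, mul_neg]
      abel
    rw [e1, h, neg_mul, mul_neg, mul_neg]
    abel
  set T : ℕ → Matrix (Fin n) (Fin n) ℂ := fun k => ∑ p ∈ antidiagonal k, (V p.1 * H p.2 + (H' p.1).transpose * U p.2)
    with hT
  have hT0 : ∀ k, T k = 0 := by
    intro k
    induction k with
    | zero => simp [hT, hU0, hV0]
    | succ k ih =>
      have h1 : T (k + 1) = ∑ p ∈ antidiagonal k, V (p.1 + 1) * H p.2 +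
          ∑ p ∈ antidiagonal k, (H' p.1).transpose * U (p.2 + 1) := by
        simp only [hT]
        rw [Finset.sum_add_distrib, Finset.Nat.sum_antidiagonal_succ, Finset.Nat.sum_antidiagonal_succ', hU0, hV0, zero_mul,
          zero_add, mul_zero, zero_add]
      rw [h1, ← Finset.sum_add_distrib, ← ih]
      simp only [hT]
      refine Finset.sum_congr rfl fun p _ => ?_
      rw [hUs, hVs, sub_mul, mul_add, Matrix.mul_assoc _ N1]
      abel
  have h2 := hT0 k
  simp only [hT, hU, hV] at h2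
  rw [DD_apply, Finset.smul_sum, Finset.sum_mul, Finset.mul_sum, ← Finset.sum_sub_distrib, ← Finset.sum_add_distrib, ← h2]
  refine Finset.sum_congr rfl fun p hp => ?_
  rw [Finset.HasAntidiagonal.mem_antidiagonal] at hp
  have h3 : (k : ℂ) = (p.1 : ℂ) + (p.2 : ℂ) := by rw [← hp]; push_cast; rfl
  rw [h3, add_smul]
  simp only [add_mul, sub_mul, mul_add, mul_sub, smul_mul_assoc, mul_smul_comm, Matrix.mul_assoc]
  abel

/-- the pairing is `1` -/
theorem dual_Hf (hH : Sol N0 N1 H) (hH' : Sol (-N0.transpose) (-N1.transpose) H') (hg : ∀ i j, PG fun k => H k i j)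
    (hg' : ∀ i j, PG fun k => H' k i j)
    (hinj : ∀ (k : ℕ) (X : Matrix (Fin n) (Fin n) ℂ), ((k : ℂ) + 1) • X + DD N0 X = 0 → X = 0) {z : ℂ}
    (hz : z ∈ Metric.ball (0 : ℂ) 1) : (Hf H' z).transpose * Hf H z = 1 := by
  rw [Metric.mem_ball, dist_zero_right] at hz
  have hP : ∀ k, ∑ p ∈ antidiagonal (k + 1), (H' p.1).transpose * H p.2 = 0 := by
    intro k
    refine hinj k _ ?_
    have := pair_step hH hH' (k + 1)
    push_cast at this
    exact this
  ext i j
  have h1 : ((Hf H' z).transpose * Hf H z) i j = ∑ l, ps (fun k => H' k l i) z * ps (fun k => H k l j) z := by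
    rw [Matrix.mul_apply]
    rfl
  rw [h1]
  have hs : ∀ (c : ℕ → ℂ), PG c → Summable fun k => ‖c k * z ^ k‖ := fun c hc => by
    refine (hc.summable (norm_nonneg z) hz).congr fun k => ?_
    rw [norm_mul, norm_pow]
  have h2 : ∀ l, ps (fun k => H' k l i) z * ps (fun k => H k l j) z =
      ∑' k, (∑ p ∈ antidiagonal k, (H' p.1 l i * H p.2 l j)) * z ^ k := by
    intro l
    unfold ps
    rw [tsum_mul_tsum_eq_tsum_sum_antidiagonal_of_summable_norm (hs _ (hg' l i)) (hs _ (hg l j))]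
    refine tsum_congr fun k => ?_
    rw [Finset.sum_mul]
    refine Finset.sum_congr rfl fun p hp => ?_
    rw [Finset.HasAntidiagonal.mem_antidiagonal] at hp
    rw [← hp, pow_add]
    ring
  have hsum : ∀ l, Summable fun k => (∑ p ∈ antidiagonal k, (H' p.1 l i * H p.2 l j)) * z ^ k := by
    intro l
    have h3 := (summable_norm_sum_mul_antidiagonal_of_summable_norm (hs _ (hg' l i)) (hs _ (hg l j))).of_norm
    refine h3.congr fun k => ?_
    rw [Finset.sum_mul]
    refine Finset.sum_congr rfl fun p hp => ?_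
    rw [Finset.HasAntidiagonal.mem_antidiagonal] at hp
    rw [← hp, pow_add]
    ring
  simp only [h2]
  rw [← Summable.tsum_finsetSum fun l _ => hsum l]
  rw [tsum_eq_single 0]
  · simp only [Finset.Nat.antidiagonal_zero, Finset.sum_singleton, pow_zero, mul_one, hH.zero, hH'.zero]
    have h4 := congrFun (congrFun (show ((1 : Matrix (Fin n) (Fin n) ℂ).transpose * (1 : Matrix (Fin n) (Fin n) ℂ)) = 1 by
      rw [transpose_one, mul_one]) i) j
    rw [Matrix.mul_apply] at h4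
    exact h4
  · intro k hk
    obtain ⟨k, rfl⟩ := Nat.exists_eq_succ_of_ne_zero hk
    rw [← Finset.sum_mul]
    have h5 := congrFun (congrFun (hP k) i) j
    rw [Matrix.sum_apply] at h5
    simp only [Matrix.mul_apply, Matrix.transpose_apply, Matrix.zero_apply] at h5
    rw [Finset.sum_comm] at h5
    show (∑ l, ∑ p ∈ antidiagonal (k + 1), H' p.1 l i * H p.2 l j) * z ^ (k + 1) = 0
    rw [h5, zero_mul]

lemma inj_nil (h : N0 ^ n = 0) (k : ℕ) (X : Matrix (Fin n) (Fin n) ℂ) (hX : ((k : ℂ) + 1) • X + DD N0 X = 0) : X = 0 := by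
  obtain ⟨p, hp⟩ := DD_nil h
  have h1 : ((k : ℂ) + 1) ≠ 0 := by exact_mod_cast Nat.succ_ne_zero k
  have h2 := RR_left hp h1 X
  rw [hX] at h2
  rw [← h2]
  unfold RR
  exact Finset.sum_eq_zero fun i _ => by rw [map_zero, smul_zero]

lemma inj_s {s : ℚ} (hs : ∀ a : ℤ, (a : ℚ) ≠ s) (h : N0 * N0 = (s : ℂ) • N0) (k : ℕ) (X : Matrix (Fin n) (Fin n) ℂ)
    (hX : ((k : ℂ) + 1) • X + DD N0 X = 0) : X = 0 := by
  have h1 : ((k : ℂ) + 1) ≠ 0 := by exact_mod_cast Nat.succ_ne_zero k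
  have h2 := RI_left h h1 (rat_ne hs k) X
  rw [hX] at h2
  rw [← h2]
  unfold RI
  simp

/-! ### the solution at the semisimple singularity -/

/-- the solution at the semisimple singularity -/
noncomputable def Zs (s : ℚ) (P : Matrix (Fin n) (Fin n) ℂ) (K : ℕ → Matrix (Fin n) (Fin n) ℂ) (w : ℂ) :
    Matrix (Fin n) (Fin n) ℂ := Hf K w * Sf P (Complex.exp ((s : ℂ) * Complex.log w))

theorem Zs_ode {s : ℚ} {P : Matrix (Fin n) (Fin n) ℂ} (hP : P * P = P) (hH : Sol ((s : ℂ) • P) N1 H)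
    (hg : ∀ i j, PG fun k => H k i j) {w : ℂ} (hw : ‖w‖ < 1) (hw0 : w ∈ Complex.slitPlane) :
    HD (Zs s P H) (Gm ((s : ℂ) • P) N1 w * Zs s P H w) w := by
  have hw0' : w ≠ 0 := Complex.slitPlane_ne_zero hw0
  have h1 := Hf_ode' hH hg hw hw0'
  set a : ℂ := Complex.exp ((s : ℂ) * Complex.log w) with ha
  have h2 : HD (fun w => Sf P (Complex.exp ((s : ℂ) * Complex.log w))) ((1 / w) • (((s : ℂ) • P) * Sf P a)) w := by
    intro i j
    have h3 : HasDerivAt (fun w => Complex.exp ((s : ℂ) * Complex.log w)) (a * ((s : ℂ) * w⁻¹)) w :=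
      ((Complex.hasDerivAt_log hw0).const_mul (s : ℂ)).cexp
    have h4 : ((1 / w) • (((s : ℂ) • P) * Sf P a)) i j = a * ((s : ℂ) * w⁻¹) * P i j := by
      unfold Sf
      rw [mul_add, mul_one, smul_mul_assoc, mul_smul_comm, hP]
      simp only [Matrix.add_apply, Matrix.smul_apply, smul_eq_mul]
      field_simp
      ring
    rw [h4]
    unfold Sf
    simp only [Matrix.add_apply, Matrix.smul_apply, smul_eq_mul]
    exact ((h3.sub_const 1).mul_const _).const_add _
  refine (h1.mul h2).congr ?_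
  show _ = Gm ((s : ℂ) • P) N1 w * (Hf H w * Sf P a)
  unfold Gm
  simp only [add_mul, smul_mul_assoc, sub_mul, mul_smul_comm, Matrix.mul_assoc, smul_sub]
  abel

/-- **the monodromy at the semisimple singularity preserves the relations** -/
theorem refl_mem_Gal_s {s : ℚ} {P : Matrix (Fin n) (Fin n) ℂ} (hP : P * P = P)
    {K : ℕ → Matrix (Fin n) (Fin n) ℂ} (hg : ∀ i j, PG fun k => K k i j) {Y : ℂ → Matrix (Fin n) (Fin n) ℂ}
    {M Mi : Matrix (Fin n) (Fin n) ℂ} (hMi : M * Mi = 1)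
    (hY : ∀ x : ℝ, 0 < x → x < 1 → Y x = Zs s P K (1 - (x : ℂ)) * M) (m : ℤ) :
    Mi * Sf P (Complex.exp (2 * Real.pi * Complex.I * (s * m))) * M ∈ Gal Y := by
  intro R hR x hx hx1
  -- the function on the half plane
  set F : ℂ → ℂ := fun u => ev R (1 - Complex.exp u) (Complex.log (1 - Complex.exp u))
    (Hf K (Complex.exp u) * Sf P (Complex.exp (s * u)) * M) with hF
  set U : Set ℂ := {u | u.re < 0} with hU
  have hUo : IsOpen U := isOpen_lt Complex.continuous_re continuous_const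
  have hUc : IsPreconnected U := (convex_halfSpace_re_lt 0).isPreconnected
  have hexp : ∀ u ∈ U, ‖Complex.exp u‖ < 1 := by
    intro u hu
    rw [Complex.norm_exp, Real.exp_lt_one_iff]
    exact hu
  have hslit : ∀ u ∈ U, 1 - Complex.exp u ∈ Complex.slitPlane := by
    intro u hu
    left
    have h1 := hexp u hu
    have h2 : (Complex.exp u).re ≤ ‖Complex.exp u‖ := Complex.re_le_norm _
    rw [Complex.sub_re, Complex.one_re]
    linarith
  have han1 : AnalyticOnNhd ℂ (fun u : ℂ => Complex.exp u) U := fun u _ => analyticAt_id.cexp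
  have hFan : AnalyticOnNhd ℂ F U := by
    have hpt : ∀ o : Vr n, AnalyticOnNhd ℂ (fun u => pt (1 - Complex.exp u) (Complex.log (1 - Complex.exp u))
        (Hf K (Complex.exp u) * Sf P (Complex.exp (s * u)) * M) o) U := by
      intro o
      rcases o with _ | _ | x
      · exact analyticOnNhd_const.sub han1
      · exact fun u hu => (analyticAt_const.sub (han1 u hu)).clog (hslit u hu)
      · simp only [pt, Option.elim_some, Matrix.mul_apply]
        refine Finset.analyticOnNhd_fun_sum _ fun l _ => AnalyticOnNhd.mul ?_ analyticOnNhd_const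
        refine Finset.analyticOnNhd_fun_sum _ fun k _ => AnalyticOnNhd.mul ?_ ?_
        · intro u hu
          have h3 : AnalyticAt ℂ (fun w => Hf K w x.1 k) (Complex.exp u) := ps_an (hg x.1 k) _ (by
            rw [Metric.mem_ball, dist_zero_right]
            exact hexp u hu)
          exact AnalyticAt.fun_comp (g := fun w => Hf K w x.1 k) (f := fun u : ℂ => Complex.exp u) h3 (han1 u hu)
        · unfold Sf
          simp only [Matrix.add_apply, Matrix.smul_apply, smul_eq_mul]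
          refine analyticOnNhd_const.add (AnalyticOnNhd.mul ?_ analyticOnNhd_const)
          exact fun u _ => ((analyticAt_const.mul analyticAt_id).cexp).sub analyticAt_const
    rw [hF]
    unfold ev
    clear hF hR
    induction R using MvPolynomial.induction_on with
    | C a => simpa using analyticOnNhd_const
    | add q r hq hr => simp only [map_add]; exact hq.add hr
    | mul_X q i hq => simp only [map_mul, MvPolynomial.eval_X]; exact hq.mul (hpt i)
  have hlog : ∀ u : ℝ, Complex.log ((Real.exp u : ℝ) : ℂ) = (u : ℂ) := by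
    intro u
    rw [← Complex.ofReal_log (Real.exp_pos _).le, Real.log_exp]
  have hzero : ∀ u : ℝ, u < 0 → F u = 0 := by
    intro u hu
    have h1 : 0 < 1 - Real.exp u := by
      have : Real.exp u < 1 := by rw [Real.exp_lt_one_iff]; exact hu
      linarith
    have h2 : 1 - Real.exp u < 1 := by linarith [Real.exp_pos u]
    have h3 := hR (1 - Real.exp u) h1 h2
    rw [hY _ h1 h2] at h3
    have e1 : (1 - ((1 - Real.exp u : ℝ) : ℂ)) = ((Real.exp u : ℝ) : ℂ) := by push_cast; ring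
    unfold Zs at h3
    rw [e1, hlog, Complex.ofReal_exp] at h3
    have e2 : ((1 - Real.exp u : ℝ) : ℂ) = 1 - Complex.exp u := by push_cast; rfl
    rw [e2] at h3
    exact h3
  have hall : ∀ u ∈ U, F u = 0 := by
    have h1 : (-1 : ℂ) ∈ U := by
      show (-1 : ℂ).re < 0
      simp
    refine hFan.eqOn_zero_of_preconnected_of_frequently_eq_zero hUc h1 ?_
    rw [Filter.frequently_iff]
    intro W hW
    rw [mem_nhdsWithin_iff_exists_mem_nhds_inter] at hW
    obtain ⟨W', hW', hsub⟩ := hW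
    obtain ⟨ε, hε, hball⟩ := Metric.mem_nhds_iff.1 hW'
    refine ⟨((-1 - ε / 2 : ℝ) : ℂ), hsub ⟨hball ?_, ?_⟩, hzero _ (by linarith)⟩
    · rw [Metric.mem_ball, dist_eq_norm]
      have : ((-1 - ε / 2 : ℝ) : ℂ) - (-1) = ((-(ε / 2) : ℝ) : ℂ) := by push_cast; ring
      rw [this, Complex.norm_real, norm_neg, Real.norm_of_nonneg (by linarith)]
      linarith
    · intro h2
      have h3 : ((-1 - ε / 2 : ℝ) : ℂ) = -1 := h2
      have h4 : (-1 - ε / 2 : ℝ) = -1 := by exact_mod_cast h3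
      linarith
  -- the value at the other side
  set u : ℝ := Real.log (1 - x) with hu
  have hu0 : u < 0 := Real.log_neg (by linarith) (by linarith)
  have hux : Real.exp u = 1 - x := Real.exp_log (by linarith)
  have h1 := hall (u + 2 * Real.pi * Complex.I * m) (by
    show ((u : ℂ) + 2 * Real.pi * Complex.I * m).re < 0
    have : ((u : ℂ) + 2 * Real.pi * Complex.I * m).re = u := by
      have e : ((u : ℂ) + 2 * Real.pi * Complex.I * m) = (u : ℂ) + ((2 * Real.pi * m : ℝ) : ℂ) * Complex.I := by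
        push_cast; ring
      rw [e, Complex.add_re, Complex.re_ofReal_mul, Complex.I_re, mul_zero, add_zero, Complex.ofReal_re]
    rw [this]
    exact hu0)
  have e1 : Complex.exp ((u : ℂ) + 2 * Real.pi * Complex.I * m) = 1 - (x : ℂ) := by
    rw [Complex.exp_add]
    have h2 : Complex.exp (2 * Real.pi * Complex.I * m) = 1 := by
      rw [mul_comm]
      exact Complex.exp_int_mul_two_pi_mul_I m
    rw [h2, mul_one, ← Complex.ofReal_exp, hux]
    push_cast
    rfl
  have e2 : Complex.exp (s * ((u : ℂ) + 2 * Real.pi * Complex.I * m)) =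
      Complex.exp (s * u) * Complex.exp (2 * Real.pi * Complex.I * (s * m)) := by
    rw [← Complex.exp_add]
    congr 1
    ring
  rw [hF] at h1
  simp only [e1, e2] at h1
  rw [sub_sub_cancel] at h1
  -- the matrix
  have e3 : Y x * (Mi * Sf P (Complex.exp (2 * Real.pi * Complex.I * (s * m))) * M) =
      Hf K (1 - (x : ℂ)) * Sf P (Complex.exp (s * u) * Complex.exp (2 * Real.pi * Complex.I * (s * m))) * M := by
    rw [hY x hx hx1]
    unfold Zs
    have e4 : (1 - (x : ℂ)) = ((Real.exp u : ℝ) : ℂ) := by rw [hux]; push_cast; rfl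
    rw [e4, hlog]
    calc _ = Hf K ((Real.exp u : ℝ) : ℂ) * Sf P (Complex.exp (s * u)) * (M * Mi) *
          Sf P (Complex.exp (2 * Real.pi * Complex.I * (s * m))) * M := by
          simp only [Matrix.mul_assoc]
      _ = Hf K ((Real.exp u : ℝ) : ℂ) * (Sf P (Complex.exp (s * u)) * Sf P (Complex.exp (2 * Real.pi * Complex.I * (s * m)))) *
          M := by
          rw [hMi, mul_one, Matrix.mul_assoc (Hf K _)]
      _ = _ := by rw [Sf_mul hP]
  rw [e3]
  exact h1

lemma Lens_ne' {z : ℂ} (h : z ∈ Lens) : z ≠ 0 ∧ 1 - z ≠ 0 :=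
  ⟨Complex.slitPlane_ne_zero (slit_Lens h), Complex.slitPlane_ne_zero (slit_Lens (symm_Lens h))⟩

/-- the pairing of a solution and a dual solution is constant -/
lemma pair_HD' {G G' : Matrix (Fin n) (Fin n) ℂ} (hG : G' = -G.transpose)
    {Y Z : ℂ → Matrix (Fin n) (Fin n) ℂ} {z : ℂ} (hY : HD Y (G' * Y z) z) (hZ : HD Z (G * Z z) z) :
    HD (fun w => (Y w).transpose * Z w) 0 z := by
  refine (hY.transpose.mul hZ).congr ?_
  rw [transpose_mul, hG, transpose_neg, transpose_transpose, mul_neg, neg_mul, Matrix.mul_assoc, neg_add_cancel]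

lemma Gm_dual (A B : Matrix (Fin n) (Fin n) ℂ) (z : ℂ) :
    Gm (-A.transpose) (-B.transpose) z = -(Gm A B z).transpose := by
  unfold Gm
  rw [transpose_add, transpose_smul, transpose_smul, smul_neg, smul_neg, neg_add]

/-- the system in the coordinate `1 - z` -/
lemma flip_ode {A B : Matrix (Fin n) (Fin n) ℂ} {Z : ℂ → Matrix (Fin n) (Fin n) ℂ} {z : ℂ}
    (h : HD Z (Gm (-B) (-A) (1 - z) * Z (1 - z)) (1 - z)) : HD (fun w => Z (1 - w)) (Gm A B z * Z (1 - z)) z := by
  have h2 : HasDerivAt (fun w : ℂ => 1 - w) (-1) z := by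
    simpa using (hasDerivAt_id z).const_sub 1
  refine (h.comp h2).congr ?_
  rw [← smul_mul_assoc]
  congr 1
  unfold Gm
  rw [sub_sub_cancel, smul_neg, smul_neg]
  rw [← neg_add, neg_smul, one_smul, neg_neg, add_comm]

lemma E_dual {A : Matrix (Fin n) (Fin n) ℂ} (hA : A ^ n = 0) (L : ℂ) : (E (-A.transpose) L).transpose * E A L = 1 := by
  have h1 : (E (-A.transpose) L).transpose = E A (-L) := by
    rw [E_neg]
    unfold E
    rw [transpose_sum]
    refine Finset.sum_congr rfl fun i _ => ?_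
    rw [transpose_smul, transpose_pow, transpose_transpose]
  have h2 := E_mul_neg hA (-L)
  rw [neg_neg] at h2
  rw [h1, h2]

/-- **Connection** between a fundamental solution and a second one with dual solutions -/
theorem connect_gen {Y Y' Z Z' : ℂ → Matrix (Fin n) (Fin n) ℂ} {G : ℂ → Matrix (Fin n) (Fin n) ℂ}
    (hY : ∀ z ∈ Lens, HD Y (G z * Y z) z) (hY' : ∀ z ∈ Lens, HD Y' (-(G z).transpose * Y' z) z)
    (hZ : ∀ z ∈ Lens, HD Z (G z * Z z) z) (hZ' : ∀ z ∈ Lens, HD Z' (-(G z).transpose * Z' z) z)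
    (h1 : ∀ z ∈ Lens, (Y' z).transpose * Y z = 1) (h2 : ∀ z ∈ Lens, (Z' z).transpose * Z z = 1) :
    ∃ M Mi : Matrix (Fin n) (Fin n) ℂ, M * Mi = 1 ∧ Mi * M = 1 ∧ (∀ z ∈ Lens, Y z = Z z * M) ∧
      ∀ z ∈ Lens, Y' z = Z' z * Mi.transpose := by
  have hhalf : ((1 / 2 : ℝ) : ℂ) ∈ Lens := real_mem_Lens (by norm_num) (by norm_num)
  set w : ℂ := ((1 / 2 : ℝ) : ℂ) with hw
  have h1' : ∀ z ∈ Lens, Y z * (Y' z).transpose = 1 := fun z hz => mul_eq_one_comm.1 (h1 z hz)
  have h2' : ∀ z ∈ Lens, Z z * (Z' z).transpose = 1 := fun z hz => mul_eq_one_comm.1 (h2 z hz)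
  have hM : ∀ z ∈ Lens, (Z' z).transpose * Y z = (Z' w).transpose * Y w := fun z hz =>
    const_Lens (F := fun z => (Z' z).transpose * Y z) (fun x hx => pair_HD' rfl (hZ' x hx) (hY x hx)) hz hhalf
  have hMi : ∀ z ∈ Lens, (Y' z).transpose * Z z = (Y' w).transpose * Z w := fun z hz =>
    const_Lens (F := fun z => (Y' z).transpose * Z z) (fun x hx => pair_HD' rfl (hY' x hx) (hZ x hx)) hz hhalf
  have e1 : (Z' w).transpose * Y w * ((Y' w).transpose * Z w) = 1 := by
    calc _ = (Z' w).transpose * (Y w * (Y' w).transpose) * Z w := by simp only [Matrix.mul_assoc]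
      _ = 1 := by rw [h1' w hhalf, mul_one, h2 w hhalf]
  refine ⟨(Z' w).transpose * Y w, (Y' w).transpose * Z w, e1, mul_eq_one_comm.1 e1, fun z hz => ?_, fun z hz => ?_⟩
  · rw [← hM z hz, ← Matrix.mul_assoc, h2' z hz, one_mul]
  · rw [← hMi z hz, transpose_mul, transpose_transpose, ← Matrix.mul_assoc]
    have h3 := congrArg Matrix.transpose (h2' z hz)
    rw [transpose_mul, transpose_transpose, transpose_one] at h3
    rw [h3, one_mul]

theorem locc : S_LOCC := by
  intro n s hs A B H hA hB hH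
  have hs0 : (s : ℂ) ≠ 0 := by
    intro h0
    have : s = 0 := by exact_mod_cast h0
    exact hs 0 (by rw [this]; simp)
  set P : Matrix (Fin n) (Fin n) ℂ := (s : ℂ)⁻¹ • B with hPd
  have hPP : P * P = P := by
    rw [hPd, smul_mul_smul_comm, hB, smul_smul]
    congr 1
    field_simp
  have hBP : B = (s : ℂ) • P := by rw [hPd, smul_smul, mul_inv_cancel₀ hs0, one_smul]
  have hsn : ∀ a : ℤ, (a : ℚ) ≠ -s := neg_int hs
  have hBn : -B = ((-s : ℚ) : ℂ) • P := by rw [hBP]; push_cast; rw [neg_smul]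
  have hBB : (-B) * (-B) = ((-s : ℚ) : ℂ) • (-B) := by
    rw [hBn, smul_mul_smul_comm, hPP]
    exact mul_smul _ _ _
  have hPT : P.transpose * P.transpose = P.transpose := by rw [← transpose_mul, hPP]
  have hBT : B.transpose = (s : ℂ) • P.transpose := by rw [hBP, transpose_smul]
  have hBBT : B.transpose * B.transpose = (s : ℂ) • B.transpose := by
    rw [hBT, smul_mul_smul_comm, hPT]
    exact mul_smul _ _ _
  have hAT : (-A.transpose) ^ n = 0 := by
    rw [neg_pow, ← transpose_pow, hA, transpose_zero, mul_zero]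
  obtain ⟨H', hH'⟩ := exists_sol hAT (-B.transpose)
  obtain ⟨K, hK⟩ := exists_sol_s hsn hBB (-A)
  obtain ⟨K', hK'⟩ := exists_sol_s hs hBBT A.transpose
  have hKg : ∀ i j, PG fun k => K k i j := fun i j => growth_s hK hsn hBB i j
  have hKg' : ∀ i j, PG fun k => K' k i j := fun i j => growth_s hK' hs hBBT i j
  have hHg : ∀ i j, PG fun k => H k i j := fun i j => hH.growth hA i j
  have hHg' : ∀ i j, PG fun k => H' k i j := fun i j => hH'.growth hAT i j
  have dH : ∀ z ∈ Metric.ball (0 : ℂ) 1, (Hf H' z).transpose * Hf H z = 1 := fun z hz =>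
    dual_Hf hH hH' hHg hHg' (inj_nil hA) hz
  have hK'' : Sol (-(-B).transpose) (-(-A).transpose) K' := by
    rw [transpose_neg, transpose_neg, neg_neg, neg_neg]
    exact hK'
  have dK : ∀ z ∈ Metric.ball (0 : ℂ) 1, (Hf K' z).transpose * Hf K z = 1 := fun z hz =>
    dual_Hf hK hK'' hKg hKg' (inj_s hsn hBB) hz
  have hball : ∀ z ∈ Lens, z ∈ Metric.ball (0 : ℂ) 1 := fun z hz => hz.1
  -- the four solutions
  have hY : ∀ z ∈ Lens, HD (Yf A H) (Gm A B z * Yf A H z) z := fun z hz =>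
    Yf_ode hH hA (mem_Lens.1 hz).1 (slit_Lens hz)
  have hY' : ∀ z ∈ Lens, HD (Yf (-A.transpose) H') (-(Gm A B z).transpose * Yf (-A.transpose) H' z) z := fun z hz => by
    rw [← Gm_dual]
    exact Yf_ode hH' hAT (mem_Lens.1 hz).1 (slit_Lens hz)
  have hKs : Sol (((-s : ℚ) : ℂ) • P) (-A) K := by rw [← hBn]; exact hK
  have hK's : Sol ((s : ℂ) • P.transpose) A.transpose K' := by rw [← hBT]; exact hK'
  have hZ : ∀ z ∈ Lens, HD (fun z => Zs (-s) P K (1 - z)) (Gm A B z * Zs (-s) P K (1 - z)) z := by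
    intro z hz
    have hz' := symm_Lens hz
    have h1 := Zs_ode hPP hKs hKg (mem_Lens.1 hz').1 (slit_Lens hz')
    rw [← hBn] at h1
    exact flip_ode h1
  have hZ' : ∀ z ∈ Lens, HD (fun z => Zs s P.transpose K' (1 - z))
      (-(Gm A B z).transpose * Zs s P.transpose K' (1 - z)) z := by
    intro z hz
    have hz' := symm_Lens hz
    have h1 := Zs_ode hPT hK's hKg' (mem_Lens.1 hz').1 (slit_Lens hz')
    rw [← hBT] at h1
    rw [← Gm_dual]
    refine flip_ode ?_
    rw [neg_neg, neg_neg]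
    exact h1
  have p1 : ∀ z ∈ Lens, (Yf (-A.transpose) H' z).transpose * Yf A H z = 1 := by
    intro z hz
    unfold Yf
    rw [transpose_mul]
    calc _ = (E (-A.transpose) (Complex.log z)).transpose * ((Hf H' z).transpose * Hf H z) * E A (Complex.log z) := by
          simp only [Matrix.mul_assoc]
      _ = 1 := by rw [dH z (hball z hz), mul_one, E_dual hA]
  have p2 : ∀ z ∈ Lens, (Zs s P.transpose K' (1 - z)).transpose * Zs (-s) P K (1 - z) = 1 := by
    intro z hz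
    unfold Zs
    have e1 : (Sf P.transpose (Complex.exp ((s : ℂ) * Complex.log (1 - z)))).transpose =
        Sf P (Complex.exp ((s : ℂ) * Complex.log (1 - z))) := by
      unfold Sf
      rw [transpose_add, transpose_one, transpose_smul, transpose_transpose]
    rw [transpose_mul, e1]
    calc _ = Sf P (Complex.exp ((s : ℂ) * Complex.log (1 - z))) * ((Hf K' (1 - z)).transpose * Hf K (1 - z)) *
          Sf P (Complex.exp (((-s : ℚ) : ℂ) * Complex.log (1 - z))) := by simp only [Matrix.mul_assoc]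
      _ = 1 := by
        rw [dK _ (hball _ (symm_Lens hz)), mul_one, Sf_mul hPP, ← Complex.exp_add]
        have : (s : ℂ) * Complex.log (1 - z) + ((-s : ℚ) : ℂ) * Complex.log (1 - z) = 0 := by push_cast; ring
        rw [this, Complex.exp_zero, Sf_one]
  obtain ⟨M, Mi, hMMi, hMiM, c1, c2⟩ := connect_gen hY hY' hZ hZ' p1 p2
  have hG := fun m : ℤ => refl_mem_Gal_s (s := -s) hPP hKg hMMi (fun x hx hx1 => c1 x (real_mem_Lens hx hx1)) m
  have hform : ∀ a : ℂ, Mi * Sf P a * M = 1 + (a - 1) • (Mi * ((s : ℂ)⁻¹ • B) * M) := by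
    intro a
    unfold Sf
    rw [mul_add, mul_one, add_mul, hMiM, mul_smul_comm, smul_mul_assoc]
  refine ⟨H', K, K', M, Mi, hH', hKg, hKg', hMMi, hMiM, fun z hz => ⟨dH z hz, dK z hz⟩, fun z hz => ?_, fun z hz => ?_, ?_, ?_⟩
  · rw [c1 z hz]
    unfold Zs Sf
    push_cast
    rfl
  · rw [c2 z hz]
    unfold Zs Sf
    rw [hPd, transpose_smul]
  · have h1 := hG (-1)
    rw [hform] at h1
    have e : Complex.exp (2 * Real.pi * Complex.I * (((-s : ℚ) : ℂ) * ((-1 : ℤ) : ℂ))) =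
        Complex.exp (2 * Real.pi * Complex.I * s) := by
      congr 1
      push_cast
      ring
    rw [e] at h1
    exact h1
  · have h1 := hG 1
    rw [hform] at h1
    have e : Complex.exp (2 * Real.pi * Complex.I * (((-s : ℚ) : ℂ) * ((1 : ℤ) : ℂ))) =
        Complex.exp (-(2 * Real.pi * Complex.I * s)) := by
      congr 1
      push_cast
      ring
    rw [e] at h1
    exact h1

end Pool.Agent.Run7.h225.HG.LOCC
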