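import Pool.Agent.Run7.h225.HG.Iface4
import Pool.Agent.Run7.h225.HG.LOCC

/-!
# The local monodromy at `1` preserves the relations, general form
-/

set_option autoImplicit false

open Filter Topology Matrix Pool.Agent.Y119.HY

namespace Pool.Agent.Run7.h225.HG.LOCJ

theorem locj : S_LOCJ := by
  intro n Y K Λ R M Mi c hg hΛ hMi hY hR P hP x hx hx1
  -- the function on the half plane
  set F : ℂ → ℂ := fun u => ev P (1 - Complex.exp u) (Complex.log (1 - Complex.exp u))
    (Hf K (Complex.exp u) * Λ u * M) with hF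
  set U : Set ℂ := {u | u.re < 0} with hU
  have hUo : IsOpen U := isOpen_lt Complex.continuous_re continuous_const
  have hUc : IsPreconnected U := (convex_halfSpace_re_lt 0).isPreconnected
  have hexp : ∀ u ∈ U, ‖Complex.exp u‖ < 1 := by
    intro u hu
    rw [Complex.norm_exp, Real.exp_lt_one_iff]
    exact hu
  have hslit : ∀ u ∈ U, 1 - Complex.exp u ∈ Complex.slitPlane := by
    intro u hu
    left
    have h1 := hexp u hu
    have h2 : (Complex.exp u).re ≤ ‖Complex.exp u‖ := Complex.re_le_norm _
    rw [Complex.sub_re, Complex.one_re]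
    linarith
  have han1 : AnalyticOnNhd ℂ (fun u : ℂ => Complex.exp u) U := fun u _ => analyticAt_id.cexp
  have hFan : AnalyticOnNhd ℂ F U := by
    have hpt : ∀ o : Vr n, AnalyticOnNhd ℂ (fun u => pt (1 - Complex.exp u) (Complex.log (1 - Complex.exp u))
        (Hf K (Complex.exp u) * Λ u * M) o) U := by
      intro o
      rcases o with _ | _ | x
      · exact analyticOnNhd_const.sub han1
      · exact fun u hu => (analyticAt_const.sub (han1 u hu)).clog (hslit u hu)
      · simp only [pt, Option.elim_some, Matrix.mul_apply]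
        refine Finset.analyticOnNhd_fun_sum _ fun l _ => AnalyticOnNhd.mul ?_ analyticOnNhd_const
        refine Finset.analyticOnNhd_fun_sum _ fun k _ => AnalyticOnNhd.mul ?_ ?_
        · intro u hu
          have h3 : AnalyticAt ℂ (fun w => Hf K w x.1 k) (Complex.exp u) := ps_an (hg x.1 k) _ (by
            rw [Metric.mem_ball, dist_zero_right]
            exact hexp u hu)
          exact AnalyticAt.fun_comp (g := fun w => Hf K w x.1 k) (f := fun u : ℂ => Complex.exp u) h3 (han1 u hu)
        · exact fun u _ => (hΛ k l).analyticAt u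
    rw [hF]
    unfold ev
    clear hF hP
    induction P using MvPolynomial.induction_on with
    | C a => simpa using analyticOnNhd_const
    | add q r hq hr => simp only [map_add]; exact hq.add hr
    | mul_X q i hq => simp only [map_mul, MvPolynomial.eval_X]; exact hq.mul (hpt i)
  have hlog : ∀ u : ℝ, Complex.log ((Real.exp u : ℝ) : ℂ) = (u : ℂ) := by
    intro u
    rw [← Complex.ofReal_log (Real.exp_pos _).le, Real.log_exp]
  have hzero : ∀ u : ℝ, u < 0 → F u = 0 := by
    intro u hu
    have h1 : 0 < 1 - Real.exp u := by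
      have : Real.exp u < 1 := by rw [Real.exp_lt_one_iff]; exact hu
      linarith
    have h2 : 1 - Real.exp u < 1 := by linarith [Real.exp_pos u]
    have h3 := hP (1 - Real.exp u) h1 h2
    rw [hY _ h1 h2] at h3
    have e1 : (1 - ((1 - Real.exp u : ℝ) : ℂ)) = ((Real.exp u : ℝ) : ℂ) := by push_cast; ring
    rw [e1, hlog, Complex.ofReal_exp] at h3
    have e2 : ((1 - Real.exp u : ℝ) : ℂ) = 1 - Complex.exp u := by push_cast; rfl
    rw [e2] at h3
    exact h3
  have hall : ∀ u ∈ U, F u = 0 := by
    have h1 : (-1 : ℂ) ∈ U := by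
      show (-1 : ℂ).re < 0
      simp
    refine hFan.eqOn_zero_of_preconnected_of_frequently_eq_zero hUc h1 ?_
    rw [Filter.frequently_iff]
    intro W hW
    rw [mem_nhdsWithin_iff_exists_mem_nhds_inter] at hW
    obtain ⟨W', hW', hsub⟩ := hW
    obtain ⟨ε, hε, hball⟩ := Metric.mem_nhds_iff.1 hW'
    refine ⟨((-1 - ε / 2 : ℝ) : ℂ), hsub ⟨hball ?_, ?_⟩, hzero _ (by linarith)⟩
    · rw [Metric.mem_ball, dist_eq_norm]
      have : ((-1 - ε / 2 : ℝ) : ℂ) - (-1) = ((-(ε / 2) : ℝ) : ℂ) := by push_cast; ring
      rw [this, Complex.norm_real, norm_neg, Real.norm_of_nonneg (by linarith)]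
      linarith
    · intro h2
      have h3 : ((-1 - ε / 2 : ℝ) : ℂ) = -1 := h2
      have h4 : (-1 - ε / 2 : ℝ) = -1 := by exact_mod_cast h3
      linarith
  -- the value at the other side
  set u : ℝ := Real.log (1 - x) with hu
  have hu0 : u < 0 := Real.log_neg (by linarith) (by linarith)
  have hux : Real.exp u = 1 - x := Real.exp_log (by linarith)
  have h1 := hall (u + 2 * Real.pi * Complex.I * c) (by
    show ((u : ℂ) + 2 * Real.pi * Complex.I * c).re < 0
    have : ((u : ℂ) + 2 * Real.pi * Complex.I * c).re = u := by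
      have e : ((u : ℂ) + 2 * Real.pi * Complex.I * c) = (u : ℂ) + ((2 * Real.pi * c : ℝ) : ℂ) * Complex.I := by
        push_cast; ring
      rw [e, Complex.add_re, Complex.re_ofReal_mul, Complex.I_re, mul_zero, add_zero, Complex.ofReal_re]
    rw [this]
    exact hu0)
  have e1 : Complex.exp ((u : ℂ) + 2 * Real.pi * Complex.I * c) = 1 - (x : ℂ) := by
    rw [Complex.exp_add]
    have h2 : Complex.exp (2 * Real.pi * Complex.I * c) = 1 := by
      rw [mul_comm]
      exact Complex.exp_int_mul_two_pi_mul_I c
    rw [h2, mul_one, ← Complex.ofReal_exp, hux]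
    push_cast
    rfl
  rw [hF] at h1
  simp only [e1, hR] at h1
  rw [sub_sub_cancel] at h1
  -- the matrix
  have e3 : Y x * (Mi * R * M) = Hf K (1 - (x : ℂ)) * (Λ u * R) * M := by
    rw [hY x hx hx1]
    have e4 : (1 - (x : ℂ)) = ((Real.exp u : ℝ) : ℂ) := by rw [hux]; push_cast; rfl
    rw [e4, hlog]
    calc _ = Hf K ((Real.exp u : ℝ) : ℂ) * Λ u * (M * Mi) * R * M := by
          simp only [Matrix.mul_assoc]
      _ = _ := by
          rw [hMi, mul_one, Matrix.mul_assoc (Hf K _)]
  rw [e3]
  exact h1

end Pool.Agent.Run7.h225.HG.LOCJ
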