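import Mathlib

/-!
# Sums of fractional parts
-/

set_option autoImplicit false

namespace Pool.Agent.Run7.h225.HG

/-- An odd number of non-integral rational numbers with integral sum is not symmetric modulo `ℤ`. -/
theorem fract_ne {n : ℕ} (hn : Odd n) {α : Fin n → ℚ} (h : ∀ j, ∀ a : ℤ, α j ≠ a) (hs : ∑ j, α j = 0) :
    Multiset.map (fun j => Int.fract (α j)) Finset.univ.val ≠
      Multiset.map (fun j => Int.fract (-α j)) Finset.univ.val := by
  intro h0
  have h1 := congrArg Multiset.sum h0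
  have h2 : ∑ j, Int.fract (α j) = ∑ j, Int.fract (-α j) := h1
  have h3 : ∀ j, Int.fract (-α j) = 1 - Int.fract (α j) := by
    intro j
    refine Int.fract_neg fun h4 => ?_
    have h5 := Int.floor_add_fract (α j)
    rw [h4, add_zero] at h5
    exact h j _ h5.symm
  simp only [h3] at h2
  rw [Finset.sum_sub_distrib, Finset.sum_const, Finset.card_univ, Fintype.card_fin, nsmul_eq_mul, mul_one] at h2
  have h6 : ∑ j, Int.fract (α j) = -((∑ j, ⌊α j⌋ : ℤ) : ℚ) := by
    have h7 : ∑ j, Int.fract (α j) = ∑ j, (α j - (⌊α j⌋ : ℚ)) := Finset.sum_congr rfl fun j _ => rfl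
    rw [h7, Finset.sum_sub_distrib, hs, zero_sub]
    push_cast
    rfl
  rw [h6] at h2
  have h8 : ((n : ℤ) : ℚ) = ((-2 * ∑ j, ⌊α j⌋ : ℤ) : ℚ) := by
    push_cast
    push_cast at h2
    linear_combination -h2
  have h9 : (n : ℤ) = -2 * ∑ j, ⌊α j⌋ := by exact_mod_cast h8
  obtain ⟨m, hm⟩ := hn
  omega

end Pool.Agent.Run7.h225.HG
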