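import Pool.Agent.Run7.h225.HG.Iface4
import Pool.Agent.Run7.h225.HG.REFL

/-!
# Complex reflections of order larger than two, abstract form
-/

set_option autoImplicit false

open Filter Topology Matrix Pool.Agent.Y119.HY

namespace Pool.Agent.Run7.h225.HG.REFLA

open Pool.Agent.Run7.h225.HG.REFL

variable {n : ℕ} {N : Matrix (Fin n) (Fin n) ℂ} {v μ : Fin n → ℂ} {ζ : ℂ} {𝔤 : Submodule ℂ (Matrix (Fin n) (Fin n) ℂ)}

variable (hn : 2 ≤ n) (hN : N ^ n = 0) (h1 : μ ⬝ᵥ v = 1) (hcyc : μ ⬝ᵥ ((N ^ (n - 1)) *ᵥ v) ≠ 0)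
  (hζ : ζ ≠ 0) (hζ2 : ζ ^ 2 ≠ 1) (hE : ∀ c : ℂ, ∀ X ∈ 𝔤, E N c * X * E N (-c) ∈ 𝔤)
  (hA : ∀ X ∈ 𝔤, (1 + (ζ - 1) • vecMulVec v μ) * X * (1 + (ζ⁻¹ - 1) • vecMulVec v μ) ∈ 𝔤)
  (hB : ∀ X ∈ 𝔤, (1 + (ζ⁻¹ - 1) • vecMulVec v μ) * X * (1 + (ζ - 1) • vecMulVec v μ) ∈ 𝔤)
  (hC : vecMulVec v μ * N - vecMulVec v μ * N * vecMulVec v μ ∈ 𝔤)

include hζ hζ2 hA hB in
/-- the component `P X (1 - P)` -/
lemma comp_mem0 {X : Matrix (Fin n) (Fin n) ℂ} (hX : X ∈ 𝔤) :
    vecMulVec v μ * X - vecMulVec v μ * X * vecMulVec v μ ∈ 𝔤 :=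
  refl_comp hζ hζ2 _ (𝔤.sub_mem hX (hA X hX)) (𝔤.sub_mem hX (hB X hX))

include hN hζ hζ2 hE hA hB in
/-- the component `P_c X (1 - P_c)` -/
lemma comp_memA (c : ℂ) {X : Matrix (Fin n) (Fin n) ℂ} (hX : X ∈ 𝔤) :
    vecMulVec (vc N v c) (mc N μ c) * X -
      vecMulVec (vc N v c) (mc N μ c) * X * vecMulVec (vc N v c) (mc N μ c) ∈ 𝔤 := by
  have h2 := hE (-c) X hX
  rw [neg_neg] at h2
  have h3 := hE c _ (comp_mem0 hζ hζ2 hA hB h2)
  have e1 : E N (-c) * E N c = 1 := by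
    have := E_mul_neg hN (-c)
    rwa [neg_neg] at this
  have e2 : E N c * E N (-c) = 1 := E_mul_neg hN c
  have e3 : vecMulVec (vc N v c) (mc N μ c) = E N c * vecMulVec v μ * E N (-c) := (conj_vec _ _ _ _).symm
  rw [e3]
  have e4 : E N c * (vecMulVec v μ * (E N (-c) * X * E N c) - vecMulVec v μ * (E N (-c) * X * E N c) * vecMulVec v μ) *
      E N (-c) = E N c * vecMulVec v μ * E N (-c) * X -
        E N c * vecMulVec v μ * E N (-c) * X * (E N c * vecMulVec v μ * E N (-c)) := by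
    rw [mul_sub, sub_mul]
    congr 1
    · calc _ = E N c * vecMulVec v μ * E N (-c) * X * (E N c * E N (-c)) := by simp only [Matrix.mul_assoc]
        _ = _ := by rw [e2, mul_one]
    · simp only [Matrix.mul_assoc]
  rw [e4] at h3
  exact h3

include hn hN h1 hcyc hζ hζ2 hE hA hB hC in
/-- all `v^b ⊗ ξ` with `ξ(v^b) = 0` -/
theorem orbit_memA (b : ℂ) (ξ : Fin n → ℂ) (hξ : ξ ⬝ᵥ vc N v b = 0) : vecMulVec (vc N v b) ξ ∈ 𝔤 := by
  -- a nonzero element
  set η : Fin n → ℂ := μ ᵥ* N - (μ ⬝ᵥ (N *ᵥ v)) • μ with hη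
  have hη0 : η ≠ 0 := by
    intro h0
    have e1 : μ ᵥ* N = (μ ⬝ᵥ (N *ᵥ v)) • μ := sub_eq_zero.1 h0
    set m := μ ⬝ᵥ (N *ᵥ v)
    have e2 : ∀ k : ℕ, μ ᵥ* (N ^ k) = m ^ k • μ := by
      intro k
      induction k with
      | zero => rw [pow_zero, pow_zero, vecMul_one, one_smul]
      | succ k ih =>
        rw [pow_succ, ← vecMul_vecMul, ih, smul_vecMul, e1, smul_smul, pow_succ]
    have hμ : μ ≠ 0 := by
      intro h
      rw [h, zero_dotProduct] at h1
      exact zero_ne_one h1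
    have e3 := e2 n
    rw [hN, vecMul_zero] at e3
    have hm0 : m = 0 := by
      rcases smul_eq_zero.1 e3.symm with h | h
      · exact pow_eq_zero_iff (by omega) |>.1 h
      · exact absurd h hμ
    apply hcyc
    rw [dotProduct_mulVec, e2, hm0, zero_pow (by omega), zero_smul, zero_dotProduct]
  have hη1 : ∀ c, vecMulVec (vc N v c) (η ᵥ* E N (-c)) ∈ 𝔤 := by
    intro c
    have h2 := hC
    have e1 : vecMulVec v μ * N - vecMulVec v μ * N * vecMulVec v μ = vecMulVec v η := by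
      rw [vecMulVec_mul, vecMulVec_mul_vecMulVec, ← dotProduct_mulVec, hη, vecMulVec_sub, vecMulVec_smul]
    rw [e1] at h2
    have h3 := hE c _ h2
    rw [conj_vec] at h3
    exact h3
  set ηb : Fin n → ℂ := η ᵥ* E N (-b) with hηb
  have hηb0 : ηb ≠ 0 := by
    intro h0
    apply hη0
    have e1 : ηb ᵥ* E N b = η := by
      rw [hηb, vecMul_vecMul]
      have := E_mul_neg hN (-b)
      rw [neg_neg] at this
      rw [this, vecMul_one]
    rw [← e1, h0, zero_vecMul]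
  have hηbv : ηb ⬝ᵥ vc N v b = 0 := by
    have e0 : η ⬝ᵥ v = 0 := by
      rw [hη, sub_dotProduct, smul_dotProduct, h1, ← dotProduct_mulVec, smul_eq_mul, mul_one, sub_self]
    unfold vc
    rw [hηb, ← dotProduct_mulVec, mulVec_mulVec]
    have := E_mul_neg hN (-b)
    rw [neg_neg] at this
    rw [this, one_mulVec, e0]
  -- transport
  have key : ∀ (c d : ℂ) (θ : Fin n → ℂ), vecMulVec (vc N v c) θ ∈ 𝔤 → mc N μ d ⬝ᵥ vc N v c ≠ 0 →
      vecMulVec (vc N v d) (θ - (θ ⬝ᵥ vc N v d) • mc N μ d) ∈ 𝔤 := by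
    intro c d θ hθ hne
    have h2 := comp_memA hN hζ hζ2 hE hA hB d hθ
    have e1 : vecMulVec (vc N v d) (mc N μ d) * vecMulVec (vc N v c) θ -
        vecMulVec (vc N v d) (mc N μ d) * vecMulVec (vc N v c) θ * vecMulVec (vc N v d) (mc N μ d) =
        (mc N μ d ⬝ᵥ vc N v c) • vecMulVec (vc N v d) (θ - (θ ⬝ᵥ vc N v d) • mc N μ d) := by
      rw [vecMulVec_mul_vecMulVec, vecMulVec_mul_vecMulVec, vecMulVec_sub, vecMulVec_smul, vecMulVec_smul,
        vecMulVec_smul, smul_dotProduct, smul_sub, smul_eq_mul, mul_smul]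
    rw [e1] at h2
    have h3 := 𝔤.smul_mem (mc N μ d ⬝ᵥ vc N v c)⁻¹ h2
    rwa [smul_smul, inv_mul_cancel₀ hne, one_smul] at h3
  -- the bad set
  set p1 := pl N v (dl ηb) with hp1
  set p2 := pl N v (dl (mc N μ b)) with hp2
  have hp10 : p1 ≠ 0 := pl_ne hN (cycV hcyc) fun h0 => hηb0 (by
    funext i
    have := congrArg (fun l : (Fin n → ℂ) →ₗ[ℂ] ℂ => l (Pi.single i 1)) h0
    have h2 : ηb ⬝ᵥ Pi.single i 1 = 0 := this
    rwa [dotProduct_single_one] at h2)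
  have hmb0 : mc N μ b ≠ 0 := by
    intro h0
    have := mc_vc_self hN h1 b
    rw [h0, zero_dotProduct] at this
    exact zero_ne_one this
  have hp20 : p2 ≠ 0 := pl_ne hN (cycV hcyc) fun h0 => hmb0 (by
    funext i
    have := congrArg (fun l : (Fin n → ℂ) →ₗ[ℂ] ℂ => l (Pi.single i 1)) h0
    have h2 : mc N μ b ⬝ᵥ Pi.single i 1 = 0 := this
    rwa [dotProduct_single_one] at h2)
  -- `μ^c(v^b)` as a polynomial in `c`
  set p3 := pl N.transpose μ (dl (vc N v b)) with hp3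
  have hvb0 : vc N v b ≠ 0 := by
    intro h0
    have := mc_vc_self hN h1 b
    rw [h0, dotProduct_zero] at this
    exact zero_ne_one this
  have hp30 : p3 ≠ 0 := pl_ne (nilT hN) (cycT hcyc) fun h0 => hvb0 (by
    funext i
    have := congrArg (fun l : (Fin n → ℂ) →ₗ[ℂ] ℂ => l (Pi.single i 1)) h0
    have h2 : vc N v b ⬝ᵥ Pi.single i 1 = 0 := this
    rwa [dotProduct_single_one] at h2)
  set T : Set ℂ := {c | p1.eval c ≠ 0 ∧ p2.eval c ≠ 0 ∧ p3.eval (-c) ≠ 0} with hT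
  have hTinf : T.Infinite := by
    have h2 : (p1 * p2 * p3.comp (-Polynomial.X)) ≠ 0 := by
      refine mul_ne_zero (mul_ne_zero hp10 hp20) fun h0 => hp30 ?_
      have h3 := congrArg (fun q : Polynomial ℂ => q.comp (-Polynomial.X)) h0
      simp only [Polynomial.comp_assoc, Polynomial.zero_comp] at h3
      have h4 : (-Polynomial.X : Polynomial ℂ).comp (-Polynomial.X) = Polynomial.X := by simp
      rw [h4, Polynomial.comp_X] at h3
      exact h3
    have h3 : Tᶜ ⊆ {c | (p1 * p2 * p3.comp (-Polynomial.X)).IsRoot c} := by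
      intro c hc
      simp only [hT, Set.mem_compl_iff, Set.mem_ofPred_eq, not_and_or, not_not] at hc
      show (p1 * p2 * p3.comp (-Polynomial.X)).eval c = 0
      rw [Polynomial.eval_mul, Polynomial.eval_mul, Polynomial.eval_comp, Polynomial.eval_neg, Polynomial.eval_X]
      rcases hc with h | h | h
      · rw [h]; ring
      · rw [h]; ring
      · rw [h]; ring
    have h4 : (Tᶜ).Finite := (Polynomial.finite_setOfPred_isRoot h2).subset h3
    have h5 := h4.infinite_compl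
    rwa [compl_compl] at h5
  have hTmem : ∀ c ∈ T, vecMulVec (vc N v b) (mc N μ c - (mc N μ c ⬝ᵥ vc N v b) • mc N μ b) ∈ 𝔤 := by
    intro c ⟨hc1, hc2, hc3⟩
    rw [hp1, pl_eval] at hc1
    rw [hp2, pl_eval] at hc2
    rw [hp3, pl_eval, ← mc_eq] at hc3
    have hc1' : ηb ⬝ᵥ vc N v c ≠ 0 := hc1
    have hc2' : mc N μ b ⬝ᵥ vc N v c ≠ 0 := hc2
    have hc3' : mc N μ c ⬝ᵥ vc N v b ≠ 0 := by
      rw [dotProduct_comm]
      exact hc3
    have h2 := key b c ηb (hη1 b) hc3'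
    have h3 := key c b _ h2 hc2'
    have h4 := 𝔤.sub_mem (hη1 b) h3
    have e1 : ηb - (ηb - (ηb ⬝ᵥ vc N v c) • mc N μ c -
        ((ηb - (ηb ⬝ᵥ vc N v c) • mc N μ c) ⬝ᵥ vc N v b) • mc N μ b) =
        (ηb ⬝ᵥ vc N v c) • (mc N μ c - (mc N μ c ⬝ᵥ vc N v b) • mc N μ b) := by
      rw [sub_dotProduct, hηbv, smul_dotProduct, zero_sub, smul_sub, smul_smul, neg_smul, smul_eq_mul]
      abel
    rw [← vecMulVec_sub, e1, vecMulVec_smul] at h4
    have h5 := 𝔤.smul_mem (ηb ⬝ᵥ vc N v c)⁻¹ h4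
    rwa [smul_smul, inv_mul_cancel₀ hc1', one_smul] at h5
  -- conclusion
  refine mem_of_func _ fun f hf => ?_
  set l := fr f (vc N v b) with hl
  have hlT : ∀ c ∈ T, l (mc N μ c) = (mc N μ c ⬝ᵥ vc N v b) * l (mc N μ b) := by
    intro c hc
    have h2 := hf _ (hTmem c hc)
    have h3 : l (mc N μ c - (mc N μ c ⬝ᵥ vc N v b) • mc N μ b) = 0 := h2
    rw [map_sub, map_smul, smul_eq_mul] at h3
    linear_combination h3
  have hl0 : l - l (mc N μ b) • dl (vc N v b) = 0 := by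
    refine span_m hN hcyc fun c => ?_
    have h2 : pl N.transpose μ (l - l (mc N μ b) • dl (vc N v b)) = 0 := by
      have h3 : (pl N.transpose μ (l - l (mc N μ b) • dl (vc N v b))).comp (-Polynomial.X) = 0 := by
        refine Polynomial.eq_zero_of_infinite_isRoot _ (hTinf.mono fun c hc => ?_)
        show Polynomial.eval c _ = 0
        rw [Polynomial.eval_comp, Polynomial.eval_neg, Polynomial.eval_X, pl_eval, ← mc_eq, LinearMap.sub_apply,
          LinearMap.smul_apply, hlT c hc]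
        show (mc N μ c ⬝ᵥ vc N v b) * l (mc N μ b) - l (mc N μ b) • (vc N v b ⬝ᵥ mc N μ c) = 0
        rw [dotProduct_comm (vc N v b), smul_eq_mul]
        ring
      have h4 := congrArg (fun q : Polynomial ℂ => q.comp (-Polynomial.X)) h3
      simp only [Polynomial.comp_assoc, Polynomial.zero_comp] at h4
      have h5 : (-Polynomial.X : Polynomial ℂ).comp (-Polynomial.X) = Polynomial.X := by simp
      rw [h5, Polynomial.comp_X] at h4
      exact h4
    have h3 := congrArg (Polynomial.eval (-c)) h2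
    rw [pl_eval, ← mc_eq, Polynomial.eval_zero] at h3
    exact h3
  have h6 := congrArg (fun l : (Fin n → ℂ) →ₗ[ℂ] ℂ => l ξ) hl0
  simp only [LinearMap.sub_apply, LinearMap.smul_apply, LinearMap.zero_apply] at h6
  have h7 : f (vecMulVec (vc N v b) ξ) - l (mc N μ b) • (vc N v b ⬝ᵥ ξ) = 0 := h6
  rw [dotProduct_comm, hξ, smul_zero, sub_zero] at h7
  exact h7

theorem refla : S_REFLA := by
  intro n N v μ ζ 𝔤 hn hN h1 hcyc hζ hζ2 hE hA hB hC w ξ hw
  exact all_of_orbit (by omega) hN hcyc h1 𝔤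
    (fun b ξ hξ => orbit_memA hn hN h1 hcyc hζ hζ2 hE hA hB hC b ξ hξ) w ξ hw

end Pool.Agent.Run7.h225.HG.REFLA
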