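import Pool.Agent.Run7.h225.HG.SEP
import Pool.Agent.Run7.h225.HG.Iface4

/-!
# SEP': separation in products of matrix rings, with trivial blocks (helper957, after `SEP.lean`)
-/

set_option autoImplicit false

open Matrix Pool.Agent.Y119.HY

namespace Pool.Agent.Run7.h225.HG

open SLTp SEPp

theorem t_sep' : S_SEP' := by
  intro r n N v μ S hN hμv hE hS hcl hsep
  set X : (Fin r → ℂ) → (∀ j, Matrix (Fin (n j)) (Fin (n j)) ℂ) :=
    fun β j => β j • vecMulVec (v j) (μ j) with hX
  have hXj : ∀ β j, X β j = β j • vecMulVec (v j) (μ j) := fun _ _ => rfl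
  have hXX : ∀ β γ, X β * X γ = 0 := by
    intro β γ
    funext j
    rw [Pi.mul_apply, hXj, hXj, smul_mul_smul_comm, mul_rank, hμv, zero_smul, smul_zero]
    rfl
  have hXadd : ∀ β γ, X (β + γ) = X β + X γ := by
    intro β γ
    funext j
    rw [Pi.add_apply, hXj, hXj, hXj, Pi.add_apply, add_smul]
  have hXsmul : ∀ (c : ℂ) β, X (c • β) = c • X β := by
    intro c β
    funext j
    rw [Pi.smul_apply, hXj, hXj, Pi.smul_apply, smul_eq_mul, mul_smul]
  -- specialisation
  have hsp : ∀ A0 A1 A2 : (∀ j, Matrix (Fin (n j)) (Fin (n j)) ℂ),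
      (∀ σ : ℂ, σ ≠ 0 → A0 + σ • A1 + σ ^ 2 • A2 ∈ S) → A0 ∈ S := by
    intro A0 A1 A2 h
    have key : ∀ c : ℂ, (fun j => (((A0 j).map Polynomial.C +
        (Polynomial.X : Polynomial ℂ) • (A1 j).map Polynomial.C +
        (Polynomial.X ^ 2 : Polynomial ℂ) • (A2 j).map Polynomial.C).map (Polynomial.eval c) :
        Matrix (Fin (n j)) (Fin (n j)) ℂ)) = A0 + c • A1 + c ^ 2 • A2 := by
      intro c
      funext j
      ext k l
      simp only [Matrix.map_apply, Matrix.add_apply, Matrix.smul_apply, smul_eq_mul,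
        Polynomial.eval_add, Polynomial.eval_mul, Polynomial.eval_X, Polynomial.eval_C,
        Polynomial.eval_pow, Pi.add_apply, Pi.smul_apply]
    have h1 := hcl (fun j => (A0 j).map Polynomial.C +
        (Polynomial.X : Polynomial ℂ) • (A1 j).map Polynomial.C +
        (Polynomial.X ^ 2 : Polynomial ℂ) • (A2 j).map Polynomial.C)
        (fun c hc => by rw [key c]; exact h c hc)
    rw [key 0] at h1
    simpa using h1
  -- the subspace B
  set B : Submodule ℂ (Fin r → ℂ) :=
    { carrier := {β | ∀ s : ℂ, 1 + s • X β ∈ S}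
      add_mem' := by
        intro β γ hβ hγ s
        have h1 : (1 + s • X β) * (1 + s • X γ) = 1 + s • X (β + γ) := by
          rw [hXadd, mul_add, add_mul, add_mul, smul_mul_smul_comm, hXX, smul_add]
          simp only [mul_one, one_mul, smul_zero, add_zero]
          abel
        rw [← h1]
        exact S.mul_mem (hβ s) (hγ s)
      zero_mem' := by
        intro s
        have h1 : X 0 = 0 := by
          funext j
          rw [hXj, Pi.zero_apply, zero_smul]
          rfl
        rw [h1, smul_zero, add_zero]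
        exact S.one_mem
      smul_mem' := by
        intro c β hβ s
        rw [hXsmul, smul_smul]
        exact hβ _ } with hB
  have hBm : ∀ β, β ∈ B ↔ ∀ s : ℂ, 1 + s • X β ∈ S := fun _ => Iff.rfl
  have hone : (1 : Fin r → ℂ) ∈ B := by
    rw [hBm]
    intro s
    have h1 : (1 : ∀ j, Matrix (Fin (n j)) (Fin (n j)) ℂ) + s • X 1 =
        (fun j => 1 + s • vecMulVec (v j) (μ j)) := by
      funext j
      rw [Pi.add_apply, Pi.smul_apply, hXj, Pi.one_apply, Pi.one_apply, one_smul]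
    rw [h1]
    exact hS s
  -- conjugates
  set Y : ℂ → (Fin r → ℂ) → (∀ j, Matrix (Fin (n j)) (Fin (n j)) ℂ) :=
    fun a γ j => γ j • vecMulVec (E (N j) a *ᵥ v j) (μ j ᵥ* E (N j) (-a)) with hY
  have hYj : ∀ a γ j, Y a γ j = γ j • vecMulVec (E (N j) a *ᵥ v j) (μ j ᵥ* E (N j) (-a)) :=
    fun _ _ _ => rfl
  have hYS : ∀ a γ, γ ∈ B → ∀ t : ℂ, 1 + t • Y a γ ∈ S := by
    intro a γ hγ t
    have h1 := hE a _ (hγ t)
    have h2 : (fun j => E (N j) a * ((1 : ∀ j, Matrix (Fin (n j)) (Fin (n j)) ℂ) + t • X γ) j *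
        E (N j) (-a)) = 1 + t • Y a γ := by
      funext j
      rw [Pi.add_apply, Pi.smul_apply, hXj, Pi.one_apply, Pi.add_apply, Pi.smul_apply, hYj,
        Pi.one_apply, mul_add, mul_one, add_mul, E_mul_neg (hN j), mul_smul_comm, smul_mul_assoc,
        mul_smul_comm, smul_mul_assoc, mul_vecMulVec, vecMulVec_mul]
    rw [h2] at h1
    exact h1
  set q : Fin r → ℂ → ℂ := fun j => qf (N j) (v j) (μ j) with hq
  have hq1 : ∀ j a, μ j ⬝ᵥ (E (N j) a *ᵥ v j) = q j a := fun _ _ => rfl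
  have hq2 : ∀ j a, (μ j ᵥ* E (N j) (-a)) ⬝ᵥ v j = q j (-a) := by
    intro j a
    rw [← dotProduct_mulVec, hq1]
  have hq3 : ∀ j a b, (μ j ᵥ* E (N j) (-a)) ⬝ᵥ (E (N j) b *ᵥ v j) = q j (b - a) :=
    fun j a b => q_pair (hN j) _ _ a b
  have hq0 : ∀ j, q j 0 = 0 := by
    intro j
    rw [← hq1, E_zero (hN j), one_mulVec]
    exact hμv j
  have hYY : ∀ a γ, Y a γ * Y a γ = 0 := by
    intro a γ
    funext j
    rw [Pi.mul_apply, hYj, smul_mul_smul_comm, mul_rank, hq3, sub_self, hq0, zero_smul, smul_zero]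
    rfl
  -- (2)
  have hlam : ∀ c γ, γ ∈ B → (fun j => q j c * q j (-c)) * γ ∈ B := by
    intro c γ hγ
    rw [hBm]
    intro s
    have h1 := sandwich hsp (hXX 1 1) hone (hYS c γ hγ) s
    have h2 : X 1 * Y c γ * X 1 = X ((fun j => q j c * q j (-c)) * γ) := by
      funext j
      rw [Pi.mul_apply, Pi.mul_apply, hXj, hXj, hYj, Pi.one_apply, one_smul, mul_smul_comm,
        mul_rank, smul_mul_assoc, smul_mul_assoc, mul_rank, hq1, hq2, Pi.mul_apply, smul_smul,
        smul_smul]
      congr 1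
      ring
    rw [h2] at h1
    exact h1
  -- (3)
  have hdel : ∀ a b γ, γ ∈ B → (fun j => q j a * q j (b - a) * q j (-b) -
      q j b * q j (a - b) * q j (-a)) * γ ∈ B := by
    intro a b γ hγ
    have h1 : ∀ s : ℂ, (fun j => q j b * q j (-b)) +
        s • ((fun j => q j a * q j (b - a) * q j (-b) - q j b * q j (a - b) * q j (-a)) * γ) -
        s ^ 2 • (fun j => γ j * γ j * (q j a * q j (b - a) * q j (a - b) * q j (-a))) ∈ B := by
      intro s
      rw [hBm]
      intro t
      have h2 := sandwich hsp (hXX 1 1) hone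
        (conj_all (hYY a γ) (hYS a γ hγ) (hYS b 1 hone) s) t
      have h3 : X 1 * (Y b 1 + s • (Y a γ * Y b 1 - Y b 1 * Y a γ) - s ^ 2 •
          (Y a γ * Y b 1 * Y a γ)) * X 1 = X ((fun j => q j b * q j (-b)) +
        s • ((fun j => q j a * q j (b - a) * q j (-b) - q j b * q j (a - b) * q j (-a)) * γ) -
        s ^ 2 • (fun j => γ j * γ j * (q j a * q j (b - a) * q j (a - b) * q j (-a)))) := by
        funext j
        simp only [Pi.mul_apply, Pi.add_apply, Pi.sub_apply, Pi.smul_apply, hXj, hYj,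
          Pi.one_apply, one_smul, smul_mul_assoc, mul_smul_comm, mul_rank, mul_add, add_mul,
          mul_sub, sub_mul, smul_add, smul_sub, smul_smul, hq1, hq2, hq3, smul_eq_mul]
        module
      rw [h3] at h2
      exact h2
    have h4 := B.sub_mem (h1 1) (h1 (-1))
    have h5 := B.smul_mem ((1 / 2 : ℂ)) h4
    have h6 : (1 / 2 : ℂ) • ((fun j => q j b * q j (-b)) +
        (1 : ℂ) • ((fun j => q j a * q j (b - a) * q j (-b) - q j b * q j (a - b) * q j (-a)) * γ) -
        (1 : ℂ) ^ 2 • (fun j => γ j * γ j * (q j a * q j (b - a) * q j (a - b) * q j (-a))) -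
        ((fun j => q j b * q j (-b)) +
        (-1 : ℂ) • ((fun j => q j a * q j (b - a) * q j (-b) - q j b * q j (a - b) * q j (-a)) * γ) -
        (-1 : ℂ) ^ 2 • (fun j => γ j * γ j * (q j a * q j (b - a) * q j (a - b) * q j (-a))))) =
        (fun j => q j a * q j (b - a) * q j (-b) - q j b * q j (a - b) * q j (-a)) * γ := by
      funext j
      simp only [Pi.mul_apply, Pi.add_apply, Pi.sub_apply, Pi.smul_apply, smul_eq_mul]
      ring
    rw [h6] at h5
    exact h5
  -- (4)
  set A : Subalgebra ℂ (Fin r → ℂ) :=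
    { carrier := {f | ∀ γ ∈ B, f * γ ∈ B}
      mul_mem' := by
        intro f g hf hg γ hγ
        rw [mul_assoc]
        exact hf _ (hg _ hγ)
      add_mem' := by
        intro f g hf hg γ hγ
        rw [add_mul]
        exact B.add_mem (hf _ hγ) (hg _ hγ)
      algebraMap_mem' := by
        intro c γ hγ
        rw [Algebra.algebraMap_eq_smul_one, smul_mul_assoc, one_mul]
        exact B.smul_mem c hγ } with hA
  have hAm : ∀ f, f ∈ A ↔ ∀ γ ∈ B, f * γ ∈ B := fun _ => Iff.rfl
  have hsepA : ∀ i j, i ≠ j → v i ≠ 0 → v j ≠ 0 → ∃ f ∈ A, f i = 1 ∧ f j = 0 := by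
    intro i j hij hvi hvj
    have h0 : ∃ f ∈ A, f i ≠ f j := by
      rcases hsep i j hij hvi hvj with ⟨a, ha⟩ | ⟨a, b, hab⟩
      · exact ⟨_, (hAm _).2 (hlam a), ha⟩
      · exact ⟨_, (hAm _).2 (hdel a b), hab⟩
    obtain ⟨f, hf, hfij⟩ := h0
    refine ⟨(f i - f j)⁻¹ • (f - f j • 1), A.smul_mem (A.sub_mem hf (A.smul_mem A.one_mem _)) _, ?_, ?_⟩
    · simp only [Pi.smul_apply, Pi.sub_apply, Pi.one_apply, smul_eq_mul, mul_one]
      exact inv_mul_cancel₀ (sub_ne_zero.2 hfij)
    · simp only [Pi.smul_apply, Pi.sub_apply, Pi.one_apply, smul_eq_mul, mul_one, sub_self,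
        mul_zero]
  intro j s
  by_cases hvj : v j = 0
  · have h0 : Function.update (fun _ => 1) j (1 + s • vecMulVec (v j) (μ j)) =
        (1 : ∀ j, Matrix (Fin (n j)) (Fin (n j)) ℂ) := by
      rw [hvj, zero_vecMulVec, smul_zero, add_zero]
      exact Function.update_eq_self j (1 : ∀ j, Matrix (Fin (n j)) (Fin (n j)) ℂ)
    rw [h0]
    exact S.one_mem
  choose f hf1 hf2 hf3 using fun i (hi : j ≠ i ∧ v i ≠ 0) => hsepA j i hi.1 hvj hi.2
  have hgA : (∏ i : {i // j ≠ i ∧ v i ≠ 0}, f i.1 i.2) ∈ A := A.prod_mem fun i _ => hf1 i.1 i.2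
  set g : Fin r → ℂ := ∏ i : {i // j ≠ i ∧ v i ≠ 0}, f i.1 i.2 with hg
  have hgj : g j = 1 := by
    rw [hg, Finset.prod_apply]
    exact Finset.prod_eq_one fun i _ => hf2 i.1 i.2
  have hgk : ∀ k, k ≠ j → v k ≠ 0 → g k = 0 := by
    intro k hk hvk
    rw [hg, Finset.prod_apply]
    exact Finset.prod_eq_zero (i := ⟨k, fun h => hk h.symm, hvk⟩) (Finset.mem_univ _) (hf3 _ _)
  have hfin := (hAm _).1 hgA 1 hone
  rw [mul_one] at hfin
  have h1 := hfin s
  have h2 : (1 : ∀ j, Matrix (Fin (n j)) (Fin (n j)) ℂ) + s • X g =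
      Function.update (fun _ => 1) j (1 + s • vecMulVec (v j) (μ j)) := by
    funext k
    rw [Pi.add_apply, Pi.smul_apply, hXj, Pi.one_apply]
    by_cases hk : k = j
    · subst hk
      rw [hgj, one_smul, Function.update_self]
    · by_cases hvk : v k = 0
      · rw [hvk, zero_vecMulVec, smul_zero, smul_zero, add_zero, Function.update_of_ne hk]
      · rw [hgk k hk hvk, zero_smul, smul_zero, add_zero, Function.update_of_ne hk]
  rw [← h2]
  exact h1

end Pool.Agent.Run7.h225.HG
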