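import Pool.Agent.Run7.h225.HG.Iface4

/-!
# SEPR: separation of complex reflections (project HYG, helper225; piece by helper617)
-/

set_option autoImplicit false

open Matrix

namespace Pool.Agent.Run7.h225.HG

noncomputable section

namespace SEPR

section mat

variable {n : ℕ}

lemma idem {v μ : Fin n → ℂ} (h : v = 0 ∨ μ ⬝ᵥ v = 1) : vecMulVec v μ * vecMulVec v μ = vecMulVec v μ := by
  rcases h with h | h
  · subst h
    simp
  · rw [vecMulVec_mul_vecMulVec, h, one_smul]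

lemma rk1 (x y : Fin n → ℂ) (Z : Matrix (Fin n) (Fin n) ℂ) :
    vecMulVec x y * Z * vecMulVec x y = (vecMulVec x y * Z).trace • vecMulVec x y := by
  rw [vecMulVec_mul, vecMulVec_mul_vecMulVec, trace_vecMulVec, dotProduct_comm]
  ext i j
  simp only [vecMulVec_apply, Matrix.smul_apply, Pi.smul_apply, smul_eq_mul]
  ring

variable (P N : Matrix (Fin n) (Fin n) ℂ) (hP : P * P = P)

include hP in
lemma l1 (z : ℂ) : (1 + (z - 1) • P) * P = z • P := by
  rw [add_mul, one_mul, smul_mul_assoc, hP, sub_smul, one_smul]; abel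

include hP in
lemma l2 (z : ℂ) : P * (1 + (z - 1) • P) = z • P := by
  rw [mul_add, mul_one, mul_smul_comm, hP, sub_smul, one_smul]; abel

include hP in
lemma l3 (z : ℂ) : (1 + (z - 1) • P) * (1 - P) = 1 - P := by
  rw [mul_sub, l1 P hP, mul_one, sub_smul, one_smul]; abel

include hP in
lemma l4 (z : ℂ) : (1 - P) * (1 + (z - 1) • P) = 1 - P := by
  rw [sub_mul, l2 P hP, one_mul, sub_smul, one_smul]; abel

include hP in
lemma inv1 {z : ℂ} (hz : z ≠ 0) : (1 + (z - 1) • P) * (1 + (z⁻¹ - 1) • P) = 1 := by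
  rw [mul_add, mul_one, mul_smul_comm, l1 P hP, smul_smul, add_assoc, ← add_smul]
  have : z - 1 + (z⁻¹ - 1) * z = 0 := by field_simp; ring
  rw [this, zero_smul, add_zero]

include hP in
lemma conjA (z : ℂ) (w : ℂ) : (1 + (z - 1) • P) * (P * N * (1 - P)) * (1 + (w - 1) • P) = z • (P * N * (1 - P)) := by
  calc _ = ((1 + (z - 1) • P) * P) * N * ((1 - P) * (1 + (w - 1) • P)) := by simp only [mul_assoc]
    _ = _ := by rw [l1 P hP, l4 P hP, smul_mul_assoc, smul_mul_assoc]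

include hP in
lemma conjB (z : ℂ) (w : ℂ) : (1 + (z - 1) • P) * ((1 - P) * N * P) * (1 + (w - 1) • P) = w • ((1 - P) * N * P) := by
  calc _ = ((1 + (z - 1) • P) * (1 - P)) * N * (P * (1 + (w - 1) • P)) := by simp only [mul_assoc]
    _ = _ := by rw [l3 P hP, l2 P hP, mul_smul_comm]

lemma lin (g g' X Y : Matrix (Fin n) (Fin n) ℂ) (a b : ℂ) :
    g * (a • X + b • Y) * g' = a • (g * X * g') + b • (g * Y * g') := by
  simp only [mul_add, add_mul, mul_smul_comm, smul_mul_assoc]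

lemma sub_n0 : N - n0 N P = P * N * (1 - P) + (1 - P) * N * P := by
  unfold n0; noncomm_ring

include hP in
lemma cur0 {z : ℂ} (hz : z ≠ 0) : N - (1 + (z - 1) • P) * N * (1 + (z⁻¹ - 1) • P) =
    (1 - z) • (P * N * (1 - P)) + (1 - z⁻¹) • ((1 - P) * N * P) := by
  have e : N = P * N * P + P * N * (1 - P) + (1 - P) * N * P + (1 - P) * N * (1 - P) := by noncomm_ring
  have c1 : (1 + (z - 1) • P) * (P * N * P) * (1 + (z⁻¹ - 1) • P) = P * N * P := by
    calc _ = ((1 + (z - 1) • P) * P) * N * (P * (1 + (z⁻¹ - 1) • P)) := by simp only [mul_assoc]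
      _ = _ := by
        rw [l1 P hP, l2 P hP, smul_mul_assoc, mul_smul_comm, smul_mul_assoc, smul_smul, inv_mul_cancel₀ hz, one_smul]
  have c4 : (1 + (z - 1) • P) * ((1 - P) * N * (1 - P)) * (1 + (z⁻¹ - 1) • P) = (1 - P) * N * (1 - P) := by
    calc _ = ((1 + (z - 1) • P) * (1 - P)) * N * ((1 - P) * (1 + (z⁻¹ - 1) • P)) := by simp only [mul_assoc]
      _ = _ := by rw [l3 P hP, l4 P hP]
  have e2 : (1 + (z - 1) • P) * N * (1 + (z⁻¹ - 1) • P) = P * N * P + z • (P * N * (1 - P)) +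
      z⁻¹ • ((1 - P) * N * P) + (1 - P) * N * (1 - P) := by
    have key : ∀ g g' a b c d : Matrix (Fin n) (Fin n) ℂ, g * (a + b + c + d) * g' =
        g * a * g' + g * b * g' + g * c * g' + g * d * g' := by
      intro g g' a b c d; noncomm_ring
    calc _ = (1 + (z - 1) • P) * (P * N * P + P * N * (1 - P) + (1 - P) * N * P + (1 - P) * N * (1 - P)) *
          (1 + (z⁻¹ - 1) • P) := by rw [← e]
      _ = _ := by rw [key, c1, c4, conjA P N hP, conjB P N hP]
  rw [e2]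
  have e3 : ∀ X : Matrix (Fin n) (Fin n) ℂ, N - X =
      (P * N * P + P * N * (1 - P) + (1 - P) * N * P + (1 - P) * N * (1 - P)) - X := fun X => by rw [← e]
  rw [e3]
  module

lemma trace_ad (M X Z : Matrix (Fin n) (Fin n) ℂ) : (X * (M * Z - Z * M)).trace = - ((M * X - X * M) * Z).trace := by
  rw [mul_sub, sub_mul, trace_sub, trace_sub, ← mul_assoc, ← mul_assoc, trace_mul_cycle X Z M]
  simp only [mul_assoc]
  ring

lemma trace_ad_iter (M : Matrix (Fin n) (Fin n) ℂ) (m : ℕ) : ∀ X Z : Matrix (Fin n) (Fin n) ℂ,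
    (X * (fun X => M * X - X * M)^[m] Z).trace = (-1) ^ m * ((fun X => M * X - X * M)^[m] X * Z).trace := by
  induction m with
  | zero => intro X Z; simp
  | succ m ih =>
    intro X Z
    rw [Function.iterate_succ_apply, ih X, trace_ad, Function.iterate_succ_apply', pow_succ]
    ring

end mat

section main

variable {r : ℕ} {n : Fin r → ℕ} {N : ∀ j, Matrix (Fin (n j)) (Fin (n j)) ℂ}
  {S : Submonoid (∀ j, Matrix (Fin (n j)) (Fin (n j)) ℂ)}
  {𝔤 : Submodule ℂ (∀ j, Matrix (Fin (n j)) (Fin (n j)) ℂ)}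

/-- the element with coefficients `a`, `b` on the two off-diagonal blocks -/
def el (N P : ∀ j, Matrix (Fin (n j)) (Fin (n j)) ℂ) (a b : Fin r → ℂ) : ∀ j, Matrix (Fin (n j)) (Fin (n j)) ℂ :=
  fun j => a j • (P j * N j * (1 - P j)) + b j • ((1 - P j) * N j * P j)

lemma pow_mem (h : LP N S 𝔤) (P : ∀ j, Matrix (Fin (n j)) (Fin (n j)) ℂ) (hP : ∀ j, P j * P j = P j)
    (ζ : Fin r → ℂ) (hζ : ∀ j, ζ j ≠ 0) (h1 : (fun j => 1 + (ζ j - 1) • P j) ∈ S)
    (h2 : (fun j => 1 + ((ζ j)⁻¹ - 1) • P j) ∈ S) (m : ℕ) :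
    el N P (fun j => ζ j ^ m * (1 - ζ j)) (fun j => (ζ j)⁻¹ ^ m * (1 - (ζ j)⁻¹)) ∈ 𝔤 := by
  have hi : (fun j => 1 + (ζ j - 1) • P j) * (fun j => 1 + ((ζ j)⁻¹ - 1) • P j) = 1 := by
    funext j
    exact inv1 (P j) (hP j) (hζ j)
  induction m with
  | zero =>
    have h3 := h.cur _ _ hi h1 h2
    have e : N - (fun j => 1 + (ζ j - 1) • P j) * N * (fun j => 1 + ((ζ j)⁻¹ - 1) • P j) =
        el N P (fun j => ζ j ^ 0 * (1 - ζ j)) (fun j => (ζ j)⁻¹ ^ 0 * (1 - (ζ j)⁻¹)) := by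
      funext j
      simp only [el, pow_zero, one_mul]
      exact cur0 (P j) (N j) (hP j) (hζ j)
    rwa [e] at h3
  | succ m ih =>
    have h3 := h.conj _ _ hi h1 h2 _ ih
    have e : (fun j => 1 + (ζ j - 1) • P j) * el N P (fun j => ζ j ^ m * (1 - ζ j))
        (fun j => (ζ j)⁻¹ ^ m * (1 - (ζ j)⁻¹)) * (fun j => 1 + ((ζ j)⁻¹ - 1) • P j) =
        el N P (fun j => ζ j ^ (m + 1) * (1 - ζ j)) (fun j => (ζ j)⁻¹ ^ (m + 1) * (1 - (ζ j)⁻¹)) := by
      funext j
      simp only [el, Pi.mul_apply]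
      rw [lin, conjA (P j) (N j) (hP j), conjB (P j) (N j) (hP j), smul_smul, smul_smul]
      congr 2 <;> ring
    rwa [e] at h3

lemma poly_mem (h : LP N S 𝔤) (P : ∀ j, Matrix (Fin (n j)) (Fin (n j)) ℂ) (hP : ∀ j, P j * P j = P j)
    (ζ : Fin r → ℂ) (hζ : ∀ j, ζ j ≠ 0) (h1 : (fun j => 1 + (ζ j - 1) • P j) ∈ S)
    (h2 : (fun j => 1 + ((ζ j)⁻¹ - 1) • P j) ∈ S) (p : Polynomial ℂ) :
    el N P (fun j => p.eval (ζ j) * (1 - ζ j)) (fun j => p.eval (ζ j)⁻¹ * (1 - (ζ j)⁻¹)) ∈ 𝔤 := by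
  induction p using Polynomial.induction_on' with
  | add p q hp hq =>
    have h3 := 𝔤.add_mem hp hq
    refine (congrArg (· ∈ 𝔤) ?_).mp h3
    funext j
    simp only [el, Pi.add_apply, Polynomial.eval_add]
    module
  | monomial m c =>
    have h3 := 𝔤.smul_mem c (pow_mem h P hP ζ hζ h1 h2 m)
    refine (congrArg (· ∈ 𝔤) ?_).mp h3
    funext j
    simp only [el, Pi.smul_apply, Polynomial.eval_monomial, smul_add, smul_smul, mul_assoc]

lemma fun_mem (h : LP N S 𝔤) (P : ∀ j, Matrix (Fin (n j)) (Fin (n j)) ℂ) (hP : ∀ j, P j * P j = P j)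
    (ζ : Fin r → ℂ) (hζ : ∀ j, ζ j ≠ 0) (h1 : (fun j => 1 + (ζ j - 1) • P j) ∈ S)
    (h2 : (fun j => 1 + ((ζ j)⁻¹ - 1) • P j) ∈ S) (hz : ∀ j, P j = 0 ∨ ζ j ^ 2 ≠ 1) (F : ℂ → ℂ) :
    el N P (fun j => F (ζ j)) (fun j => F (ζ j)⁻¹) ∈ 𝔤 := by
  classical
  set s : Finset ℂ := ((Finset.univ.image ζ) ∪ (Finset.univ.image fun j => (ζ j)⁻¹)).erase 1 with hs
  set p := Lagrange.interpolate s id (fun x => F x / (1 - x)) with hp
  have hev : ∀ x ∈ s, p.eval x * (1 - x) = F x := by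
    intro x hx
    have h4 := Lagrange.eval_interpolate_at_node (fun x => F x / (1 - x)) (s := s) (v := id)
      Function.injective_id.injOn hx
    rw [id] at h4
    rw [hp, h4, div_mul_cancel₀]
    intro h5
    exact (Finset.mem_erase.1 hx).1 (by linear_combination -h5)
  refine (congrArg (· ∈ 𝔤) ?_).mp (poly_mem h P hP ζ hζ h1 h2 p)
  funext j
  rcases hz j with h3 | h3
  · simp [el, h3]
  · have n1 : ζ j ≠ 1 := by rintro h4; rw [h4] at h3; simp at h3
    have n2 : (ζ j)⁻¹ ≠ 1 := by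
      intro h4
      exact n1 (inv_eq_one.1 h4)
    simp only [el]
    rw [hev (ζ j) (Finset.mem_erase.2 ⟨n1, Finset.mem_union_left _ (Finset.mem_image_of_mem _ (Finset.mem_univ j))⟩),
      hev (ζ j)⁻¹ (Finset.mem_erase.2 ⟨n2, Finset.mem_union_right _
        (Finset.mem_image.2 ⟨j, Finset.mem_univ j, rfl⟩)⟩)]

/-- the step: `(f_j T_j)`, `W`, `T` in `𝔤` imply `(f_j tr(T_j W_j) T_j)` in `𝔤` -/
lemma step (h : LP N S 𝔤) (T W : ∀ j, Matrix (Fin (n j)) (Fin (n j)) ℂ) (hT : T ∈ 𝔤) (hW : W ∈ 𝔤)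
    (hr : ∀ j, ∀ Z, T j * Z * T j = (T j * Z).trace • T j) (h0 : ∀ j, T j * T j = 0) (f : Fin r → ℂ)
    (hf : (fun j => f j • T j) ∈ 𝔤) : (fun j => (f j * (T j * W j).trace) • T j) ∈ 𝔤 := by
  have h1 := 𝔤.smul_mem (1 / 2 : ℂ) (h.brk _ (h.brk _ hf _ hW) _ hT)
  refine (congrArg (· ∈ 𝔤) ?_).mp h1
  funext j
  simp only [Pi.smul_apply, Pi.sub_apply, Pi.mul_apply]
  have e : (f j • T j * W j - W j * f j • T j) * T j - T j * (f j • T j * W j - W j * f j • T j) =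
      (2 * f j) • (T j * W j * T j) := by
    simp only [smul_mul_assoc, mul_smul_comm, sub_mul, mul_sub]
    have e1 : W j * T j * T j = 0 := by rw [mul_assoc, h0, mul_zero]
    have e2 : T j * (T j * W j) = 0 := by rw [← mul_assoc, h0, zero_mul]
    rw [e1, e2, ← mul_assoc (T j) (W j) (T j)]
    module
  rw [e, hr, smul_smul, smul_smul]
  congr 1
  ring

lemma iter_apply (M X : ∀ j, Matrix (Fin (n j)) (Fin (n j)) ℂ) (m : ℕ) (j : Fin r) :
    ((fun X => M * X - X * M)^[m] X) j = (fun X => M j * X - X * M j)^[m] (X j) := by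
  induction m with
  | zero => rfl
  | succ m ih =>
    rw [Function.iterate_succ_apply', Function.iterate_succ_apply', ← ih]
    rfl

theorem sepr (h : LP N S 𝔤) (v μ : ∀ j, Fin (n j) → ℂ) (ζ : Fin r → ℂ) (hζ : ∀ j, ζ j ≠ 0)
    (hv : ∀ j, v j = 0 ∨ (μ j ⬝ᵥ v j = 1 ∧ ζ j ^ 2 ≠ 1))
    (h1 : (fun j => 1 + (ζ j - 1) • vecMulVec (v j) (μ j)) ∈ S)
    (h2 : (fun j => 1 + ((ζ j)⁻¹ - 1) • vecMulVec (v j) (μ j)) ∈ S)
    (hs : ∀ i j, i ≠ j → v i ≠ 0 → v j ≠ 0 → (ζ i = ζ j → ∃ m, hm (N i) (v i) (μ i) m ≠ hm (N j) (v j) (μ j) m) ∧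
      (ζ i * ζ j = 1 → ∃ m, hm (N i) (v i) (μ i) m ≠ (-1) ^ m * hm (N j) (v j) (μ j) m)) :
    ∀ j, v j ≠ 0 → (Pi.single j (vecMulVec (v j) (μ j) * N j - vecMulVec (v j) (μ j) * N j * vecMulVec (v j) (μ j)) :
      ∀ j, Matrix (Fin (n j)) (Fin (n j)) ℂ) ∈ 𝔤 := by
  classical
  intro j₀ hj₀
  set P : ∀ j, Matrix (Fin (n j)) (Fin (n j)) ℂ := fun j => vecMulVec (v j) (μ j) with hPdef
  have hP : ∀ j, P j * P j = P j := fun j => idem ((hv j).imp id And.left)
  have hz : ∀ j, P j = 0 ∨ ζ j ^ 2 ≠ 1 := fun j => (hv j).imp (fun h => by simp [hPdef, h]) And.right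
  have hfm := fun_mem h P hP ζ hζ h1 h2 hz
  -- `N - N₀`
  set N0 : ∀ j, Matrix (Fin (n j)) (Fin (n j)) ℂ := fun j => n0 (N j) (P j) with hN0
  have hN : N - N0 ∈ 𝔤 := by
    refine (congrArg (· ∈ 𝔤) ?_).mp (hfm fun _ => 1)
    funext j
    simp only [el, one_smul, Pi.sub_apply, hN0]
    exact (sub_n0 (P j) (N j)).symm
  have had : ∀ X ∈ 𝔤, N0 * X - X * N0 ∈ 𝔤 := by
    intro X hX
    refine (congrArg (· ∈ 𝔤) ?_).mp (𝔤.sub_mem (h.adN X hX) (h.brk _ hN _ hX))
    noncomm_ring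
  have hadm : ∀ X ∈ 𝔤, ∀ m : ℕ, (fun X => N0 * X - X * N0)^[m] X ∈ 𝔤 := by
    intro X hX m
    induction m with
    | zero => exact hX
    | succ m ih => rw [Function.iterate_succ_apply']; exact had _ ih
  set z := ζ j₀ with hzdef
  set T := el N P (fun j => if ζ j = z then 1 else 0) (fun j => if (ζ j)⁻¹ = z then 1 else 0) with hT
  set U := el N P (fun j => if ζ j = z⁻¹ then 1 else 0) (fun j => if (ζ j)⁻¹ = z⁻¹ then 1 else 0) with hU
  have hT𝔤 : T ∈ 𝔤 := hfm fun x => if x = z then 1 else 0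
  have hU𝔤 : U ∈ 𝔤 := hfm fun x => if x = z⁻¹ then 1 else 0
  -- the three cases
  have hz0 : z ≠ 0 := hζ j₀
  have tri : ∀ j, (v j ≠ 0 ∧ ζ j = z ∧ T j = P j * N j * (1 - P j) ∧ U j = (1 - P j) * N j * P j) ∨
      (v j ≠ 0 ∧ z * ζ j = 1 ∧ T j = (1 - P j) * N j * P j ∧ U j = P j * N j * (1 - P j)) ∨ T j = 0 := by
    intro j
    by_cases hvj : v j = 0
    · right; right
      have : P j = 0 := by simp [hPdef, hvj]
      simp [hT, el, this]
    have hz2 : ζ j ^ 2 ≠ 1 := ((hv j).resolve_left hvj).2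
    have hzj := hζ j
    by_cases hc : ζ j = z
    · left
      have n1 : (ζ j)⁻¹ ≠ z := by
        intro h4
        apply hz2
        rw [← hc] at h4
        rw [pow_two]
        nth_rewrite 1 [← h4]
        exact inv_mul_cancel₀ hzj
      have n2 : ζ j ≠ z⁻¹ := by
        intro h4
        apply n1
        rw [h4, inv_inv]
      refine ⟨hvj, hc, ?_, ?_⟩
      · simp only [hT, el, if_pos hc, if_neg n1, one_smul, zero_smul, add_zero]
      · simp only [hU, el, if_neg n2, if_pos (congrArg (·⁻¹) hc), one_smul, zero_smul, zero_add]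
    · right
      by_cases hd : (ζ j)⁻¹ = z
      · left
        have n3 : ζ j = z⁻¹ := by rw [← hd, inv_inv]
        have n4 : (ζ j)⁻¹ ≠ z⁻¹ := fun h4 => hc (inv_injective h4)
        refine ⟨hvj, ?_, ?_, ?_⟩
        · rw [n3]; exact mul_inv_cancel₀ hz0
        · simp only [hT, el, if_neg hc, if_pos hd, one_smul, zero_smul, zero_add]
        · simp only [hU, el, if_pos n3, if_neg n4, one_smul, zero_smul, add_zero]
      · right
        simp only [hT, el, if_neg hc, if_neg hd, zero_smul, add_zero]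
  have hAv : ∀ j, P j * N j * (1 - P j) = vecMulVec (v j) ((μ j ᵥ* N j) ᵥ* (1 - P j)) := fun j => by
    simp only [hPdef, vecMulVec_mul]
  have hBv : ∀ j, (1 - P j) * N j * P j = vecMulVec (((1 - P j) * N j) *ᵥ v j) (μ j) := fun j => by
    simp only [hPdef, mul_vecMulVec]
  have hr : ∀ j, ∀ Z, T j * Z * T j = (T j * Z).trace • T j := by
    intro j Z
    rcases tri j with ⟨-, -, h3, -⟩ | ⟨-, -, h3, -⟩ | h3
    · rw [h3, hAv j]; exact rk1 _ _ Z
    · rw [h3, hBv j]; exact rk1 _ _ Z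
    · rw [h3]; simp
  have hPQ : ∀ j, P j * (1 - P j) = 0 := fun j => by rw [mul_sub, mul_one, hP, sub_self]
  have hQP : ∀ j, (1 - P j) * P j = 0 := fun j => by rw [sub_mul, one_mul, hP, sub_self]
  have h0 : ∀ j, T j * T j = 0 := by
    intro j
    rcases tri j with ⟨-, -, h3, -⟩ | ⟨-, -, h3, -⟩ | h3
    · rw [h3]
      calc _ = P j * N j * ((1 - P j) * P j) * N j * (1 - P j) := by simp only [mul_assoc]
        _ = 0 := by rw [hQP]; simp
    · rw [h3]
      calc _ = (1 - P j) * N j * (P j * (1 - P j)) * N j * P j := by simp only [mul_assoc]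
        _ = 0 := by rw [hPQ]; simp
    · rw [h3, zero_mul]
  -- the traces
  set W : ℕ → ∀ j, Matrix (Fin (n j)) (Fin (n j)) ℂ := fun m => (fun X => N0 * X - X * N0)^[m] U with hW
  have hW𝔤 : ∀ m, W m ∈ 𝔤 := fun m => hadm U hU𝔤 m
  have tr1 : ∀ j, v j ≠ 0 → ζ j = z → T j = P j * N j * (1 - P j) → U j = (1 - P j) * N j * P j → ∀ m,
      (T j * W m j).trace = hm (N j) (v j) (μ j) m := by
    intro j _ _ h3 h4 m
    simp only [hW]
    rw [iter_apply, h3, h4]
    rfl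
  have tr2 : ∀ j, T j = (1 - P j) * N j * P j → U j = P j * N j * (1 - P j) → ∀ m,
      (T j * W m j).trace = (-1) ^ m * hm (N j) (v j) (μ j) m := by
    intro j h3 h4 m
    simp only [hW]
    rw [iter_apply, trace_ad_iter, h3, h4, trace_mul_comm]
    rfl
  -- the first index
  have hT0 : T j₀ = P j₀ * N j₀ * (1 - P j₀) := by
    rcases tri j₀ with ⟨-, -, h3, -⟩ | ⟨-, h3, -, -⟩ | h3
    · exact h3
    · exfalso
      exact ((hv j₀).resolve_left hj₀).2 (by rw [pow_two]; exact h3)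
    · have n1 : (ζ j₀)⁻¹ ≠ z := by
        intro h4
        apply ((hv j₀).resolve_left hj₀).2
        rw [pow_two]
        nth_rewrite 1 [← hzdef, ← h4]
        exact inv_mul_cancel₀ hz0
      simp only [hT, el, ← hzdef, if_true, one_smul]
      rw [← hzdef] at n1
      rw [if_neg n1, zero_smul, add_zero]
  have hU0 : U j₀ = (1 - P j₀) * N j₀ * P j₀ := by
    have n2 : z ≠ z⁻¹ := by
      intro h4
      apply ((hv j₀).resolve_left hj₀).2
      rw [pow_two, ← hzdef]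
      nth_rewrite 1 [h4]
      exact inv_mul_cancel₀ hz0
    simp only [hU, el, ← hzdef, if_neg n2, if_true, one_smul, zero_smul, zero_add]
  have htr0 := tr1 j₀ hj₀ rfl hT0 hU0
  have sepm : ∀ i, i ≠ j₀ → T i ≠ 0 → ∃ m, (T i * W m i).trace ≠ (T j₀ * W m j₀).trace := by
    intro i hi hTi
    rcases tri i with ⟨h3, h4, h5, h6⟩ | ⟨h3, h4, h5, h6⟩ | h3
    · obtain ⟨m, hm'⟩ := (hs j₀ i hi.symm hj₀ h3).1 h4.symm
      exact ⟨m, by rw [tr1 i h3 h4 h5 h6, htr0]; exact hm'.symm⟩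
    · obtain ⟨m, hm'⟩ := (hs j₀ i hi.symm hj₀ h3).2 h4
      exact ⟨m, by rw [tr2 i h5 h6, htr0]; exact hm'.symm⟩
    · exact absurd h3 hTi
  -- the product
  have hprod : ∀ s : Finset (Fin r), j₀ ∉ s → ∃ f : Fin r → ℂ, (fun j => f j • T j) ∈ 𝔤 ∧ f j₀ = 1 ∧
      ∀ i ∈ s, f i • T i = 0 := by
    intro s
    induction s using Finset.induction_on with
    | empty =>
      intro _
      exact ⟨fun _ => 1, by simpa using hT𝔤, rfl, by simp⟩
    | insert a s ha ih =>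
      intro hjs
      rw [Finset.mem_insert, not_or] at hjs
      obtain ⟨f, hf, hf1, hf2⟩ := ih hjs.2
      by_cases hTa : T a = 0
      · refine ⟨f, hf, hf1, fun i hi => ?_⟩
        rcases Finset.mem_insert.1 hi with rfl | hi
        · rw [hTa, smul_zero]
        · exact hf2 i hi
      obtain ⟨m, hm'⟩ := sepm a (Ne.symm hjs.1) hTa
      set t : Fin r → ℂ := fun j => (T j * W m j).trace with ht
      have hm2 : t j₀ - t a ≠ 0 := fun h5 => hm' (sub_eq_zero.1 h5).symm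
      have h5 := step h T (W m) hT𝔤 (hW𝔤 m) hr h0 f hf
      have h6 := 𝔤.smul_mem (t j₀ - t a)⁻¹ (𝔤.sub_mem h5 (𝔤.smul_mem (t a) hf))
      refine ⟨fun j => f j * (t j - t a) / (t j₀ - t a), ?_, ?_, ?_⟩
      · refine (congrArg (· ∈ 𝔤) ?_).mp h6
        funext j
        simp only [Pi.smul_apply, Pi.sub_apply, smul_smul, ← sub_smul]
        congr 1
        simp only [ht]
        field_simp
      · simp only [hf1, one_mul]
        exact div_self hm2
      · intro i hi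
        rcases Finset.mem_insert.1 hi with rfl | hi
        · simp
        · have h7 := hf2 i hi
          simp only
          rw [mul_comm, mul_div_right_comm, mul_smul, h7, smul_zero]
  obtain ⟨f, hf, hf1, hf2⟩ := hprod (Finset.univ.erase j₀) (by simp)
  refine (congrArg (· ∈ 𝔤) ?_).mp hf
  funext j
  by_cases hj : j = j₀
  · subst hj
    rw [Pi.single_eq_same, hf1, one_smul, hT0, mul_sub, mul_one]
  · rw [Pi.single_eq_of_ne hj]
    exact hf2 j (Finset.mem_erase.2 ⟨hj, Finset.mem_univ j⟩)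

end main

end SEPR

/-- **SEPR.** -/
theorem p_SEPR : S_SEPR := fun _ _ _ _ _ h v μ ζ hζ hv h1 h2 hs => SEPR.sepr h v μ ζ hζ hv h1 h2 hs

end

end Pool.Agent.Run7.h225.HG
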