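import Pool.Agent.Run7.h225.HG.Jg
import Pool.Agent.Run7.h225.HG.Par
import Pool.Agent.Run7.h225.HG.ASY
import Pool.Agent.Run7.h225.HG.ASY2
import Pool.Agent.Run7.h225.HG.HQ
import Pool.Agent.Run7.h225.HG.INTR
import Pool.Agent.Run7.h225.HG.JFIN
import Pool.Agent.Run7.h225.HG.LGB
import Pool.Agent.Run7.h225.HG.SEP1
import Pool.Agent.Run7.h225.HG.SEPR
import Pool.Agent.Run7.h225.HG.LOCJ
import Pool.Agent.Run7.h225.HG.REFLA

/-!
# Several hypergeometric families at the same fibre, in terms of the exponents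
-/

set_option autoImplicit false

open Matrix PowerSeries
open Pool.Agent.Y113 hiding Bm
open Pool.Agent.Y119.HZ
open Pool.Agent.Y119.HY (Am Jm Bm Hq cm E Hf Hc Yf Gal Sol PG Lens QD)
open Run7.h893.HO

namespace Pool.Agent.Run7.h225.HG

/-- the fractional parts -/
def fr {n : ℕ} (α : Fin n → ℚ) : Multiset ℚ := Multiset.map (fun j => Int.fract (α j)) Finset.univ.val

lemma fr_card {n : ℕ} (α : Fin n → ℚ) : (fr α).card = n := by
  unfold fr
  rw [Multiset.card_map, Finset.card_val, Finset.card_univ, Fintype.card_fin]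

/-- even polynomials -/
theorem QD_of_even {n : ℕ} {Q : Polynomial ℚ} (hQ : QG n Q) (h : Q.comp (-Polynomial.X) = Q) : QD n Q := by
  have h1 : ∀ j, Q.coeff j = (-1) ^ j * Q.coeff j := by
    intro j
    have e : Q.comp (-Polynomial.X) = Q.comp (Polynomial.C (-1) * Polynomial.X) := by
      rw [map_neg, map_one, neg_one_mul]
    have h2 : (Q.comp (-Polynomial.X)).coeff j = Q.coeff j := by rw [h]
    rw [e, Polynomial.comp_C_mul_X_coeff] at h2
    rw [mul_comm]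
    exact h2.symm
  have h3 : ∀ j, Odd j → Q.coeff j = 0 := by
    intro j hj
    have h4 := h1 j
    rw [hj.neg_one_pow] at h4
    linarith
  refine ⟨hQ.two, ?_, hQ.monic, hQ.deg, h3, hQ.ne⟩
  by_contra hn
  have h4 := h3 n (Nat.not_even_iff_odd.1 hn)
  have h5 := hQ.monic.coeff_natDegree
  rw [hQ.deg, h4] at h5
  exact zero_ne_one h5

theorem even_of_QD {n : ℕ} {Q : Polynomial ℚ} (h : QD n Q) : Q.comp (-Polynomial.X) = Q := by
  have e : Q.comp (-Polynomial.X) = Q.comp (Polynomial.C (-1) * Polynomial.X) := by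
    rw [map_neg, map_one, neg_one_mul]
  rw [e]
  ext j
  rw [Polynomial.comp_C_mul_X_coeff]
  rcases Nat.even_or_odd j with hj | hj
  · rw [hj.neg_one_pow, mul_one]
  · rw [h.sym j hj, zero_mul]

section

variable {r : ℕ} {n : Fin r → ℕ} {α : ∀ j, Fin (n j) → ℚ}

/-- **the types of the families in terms of the exponents** -/
theorem JT_QA (hn : ∀ j, 2 ≤ n j) (hα : ∀ j i, ∀ a : ℤ, α j i ≠ a)
    (ht : ∀ j, (∑ i, α j i = 0 ∧ ((QA (α j)).comp (-Polynomial.X) = QA (α j) ∨ Odd (n j) ∨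
        fr (α j) ≠ fr fun i => -α j i)) ∨ ∀ a : ℤ, 2 * ∑ i, α j i ≠ a)
    (hne : ∀ i j, i ≠ j → fr (α i) ≠ fr (α j) ∧ fr (α i) ≠ fr fun l => -α j l) :
    ∃ W, JT n (fun j => QA (α j)) W := by
  have hQ := fun j => QG_QA (hn j) (nonint (hα j))
  have hQ' : ∀ j, QG (n j) (dq (n j) (QA (α j))) := by
    intro j
    rw [dq_QA]
    exact QG_QA (hn j) (nonint' (hα j))
  have hs : ∀ j, (QA (α j)).coeff (n j - 1) = ∑ i, α j i := fun j => QA_coeff (by have := hn j; omega) (α j)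
  have hW := fun j => wex_QA (hn j) (hα j)
  choose W hW1 hW2 using hW
  refine ⟨W, ⟨⟨hQ, hQ', fun j => ?_, fun j => ?_, fun i j hij hnn => ?_⟩, fun j h0 => ?_⟩⟩
  · rw [hs]
    rcases ht j with h | h
    · exact Or.inl h.1
    · exact Or.inr fun a => (h a).symm
  · refine Fm.sys (hQ j) (fun i l => ?_) (hW1 j) (hW2 j)
    unfold Hp
    rw [Matrix.of_apply]
    exact sdc_hps_g (Fintype.card_fin _) (nonint (hα j)) (hQ j) i l
  · refine ⟨fun h => (hne i j hij).1 (RatEq_QA h), fun h => (hne i j hij).2 ?_⟩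
    rw [dq_QA] at h
    exact RatEq_QA h
  · rcases ht j with ⟨h1, h2⟩ | h
    · rcases h2 with h2 | h2 | h2
      · exact Or.inl (QD_of_even (hQ j) h2)
      · refine Or.inr fun h3 => ?_
        rw [dq_QA] at h3
        exact fract_ne h2 (hα j) h1 (RatEq_QA h3)
      · refine Or.inr fun h3 => h2 ?_
        rw [dq_QA] at h3
        exact RatEq_QA h3
    · exfalso
      rw [hs] at h0
      refine h 0 ?_
      rw [h0, mul_zero, Int.cast_zero]

end

/-- **from the group to the torsor**, without hypotheses -/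
theorem tor_joint {r : ℕ} {n : Fin r → ℕ} {Q : Fin r → Polynomial ℚ} {W : ∀ j, Matrix (Fin (n j)) (Fin (n j)) ℚ⟦X⟧}
    (hJ : JT n Q W) {x : ℝ} (hx : 0 < x) (hx1 : x < 1) {l : ℂ} (hl : Complex.exp l = 1 - (x : ℂ))
    {X : ∀ j, Matrix (Fin (n j)) (Fin (n j)) ℂ} (hX : ∀ j, X j ∈ TJ (n j) (Q j) l) (c : ℂ) :
    ∃ g : ∀ j, Matrix (Fin (n j)) (Fin (n j)) ℂ, blk n ℂ g ∈ Gal (YJ n Q) ∧
      ∀ j, Yf (cm (Am (n j))) (Hc (n j) (Q j)) x * g j = X j * E (cm (Am (n j))) c :=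
  tor_all t_sep' p_SEPR REFLA.refla LOCJ.locj t_asy HQ.p_HQ p_INTR t_asy2 p_LGB hJ hx hx1 hl hX c

/-- **Few exceptional tuples, several families at the same fibre.** -/
theorem tuples_joint (k δ D : ℕ) (r : Fin k → ℕ) (n : ∀ i, Fin (r i) → ℕ) (Q : ∀ i, Fin (r i) → Polynomial ℚ)
    (W : ∀ i j, Matrix (Fin (n i j)) (Fin (n i j)) ℚ⟦X⟧) (hJ : ∀ i, JT (n i) (Q i) (W i)) :
    ∃ c C : ℝ, 0 < c ∧ 0 ≤ C ∧ ∀ (V : Submodule ℚ ℂ) [Module.Finite ℚ V], Module.finrank ℚ V ≤ D →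
      ∀ Ω : (∀ i j, Matrix (Fin (n i j)) (Fin (n i j)) ℂ), ∀ (x : Fin k → ℕ) (N' : ℕ), (∀ i, 1 ≤ x i) → 1 ≤ N' →
      ∀ S : Finset (Fin k → ℕ), (∀ t ∈ S, (∀ i, x i < t i ∧ t i ≤ x i + N') ∧
        ∃ P : MvPolynomial (Σ i : Fin k, Option (Σ j : Fin (r i), Fin (n i j) × Fin (n i j))) ℂ,
        P.totalDegree ≤ δ ∧ (∀ s, P.coeff s ∈ V) ∧
        MvPolynomial.aeval (pj (fun i => ((Real.log (t i) : ℝ) : ℂ)) fun i j => Yt (n i j) (Q i j) (t i) * Ω i j) P = 0 ∧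
        ∃ (l : Fin k → ℂ) (g : ∀ i j, Matrix (Fin (n i j)) (Fin (n i j)) ℂ),
          (∀ i, ∃ L : ℂ, Complex.exp L = 1 - (((1 / (t i : ℝ) : ℝ)) : ℂ) ∧ ∀ j, g i j ∈ TJ (n i j) (Q i j) L) ∧
          MvPolynomial.aeval (pj l fun i j => g i j * Ω i j) P ≠ 0) →
      (S.card : ℝ) ≤ C * (N' : ℝ) ^ (k - 1) * ∑ i, (1 + N' / ((x i : ℝ) + N') ^ c) := by
  have h := p_JFIN p_SYS1 p_SYS2 p_BLK k δ D r n (fun i j => Am (n i j)) (fun i j => Bm (n i j) (Q i j))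
    (fun i j => Hp (n i j) (Q i j)) W
    (fun i z => {X | ∃ L : ℂ, Complex.exp L = 1 - z ∧ ∀ j, X j ∈ TJ (n i j) (Q i j) L})
    (fun i j => (hJ i).sys j) (fun i x hx hx1 X hX c => by
      obtain ⟨L, hL, hX⟩ := hX
      obtain ⟨g, hg, hg'⟩ := tor_joint (hJ i) hx hx1 hL hX c
      refine ⟨g, hg, fun j => ?_⟩
      rw [Hcg_Hp]
      exact hg' j)
  have hY : ∀ (i : Fin k) (j : Fin (r i)) (t : ℕ), Ytg (Am (n i j)) (Hp (n i j) (Q i j)) t = Yt (n i j) (Q i j) t := by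
    intro i j t
    unfold Ytg Yt
    rw [Hcg_Hp]
  simp only [hY] at h
  exact h

end Pool.Agent.Run7.h225.HG
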