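import Pool.Agent.Run7.h225.HG.Jv
import Pool.Agent.Run7.h225.HG.JA

/-!
# Several hypergeometric families at the same fibre, all types, in terms of the exponents
-/

set_option autoImplicit false

open Matrix PowerSeries
open Pool.Agent.Y113 hiding Bm
open Pool.Agent.Y119.HZ
open Pool.Agent.Y119.HY (Am Jm Bm Hq cm E Hf Hc Yf Gal Sol PG Lens QD)
open Run7.h893.HO

namespace Pool.Agent.Run7.h225.HG

section one

variable {n : ℕ} {α : Fin n → ℚ}

lemma QA_comp (α : Fin n → ℚ) : (QA α).comp (-(Polynomial.X + 1)) =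
    Polynomial.C ((-1 : ℚ) ^ n) * QA fun j => 1 - α j := by
  unfold QA
  rw [Polynomial.prod_comp]
  have h1 : Polynomial.C ((-1 : ℚ) ^ n) = ∏ _j : Fin n, Polynomial.C (-1 : ℚ) := by
    rw [Finset.prod_const, Finset.card_univ, Fintype.card_fin, map_pow]
  rw [h1, ← Finset.prod_mul_distrib]
  refine Finset.prod_congr rfl fun j _ => ?_
  rw [Polynomial.add_comp, Polynomial.X_comp, Polynomial.C_comp, map_sub, map_neg, map_one]
  ring

/-- orthogonal families -/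
theorem QO_of_comp (hn : 2 ≤ n) (hα : ∀ j, ∀ l : ℕ, (l : ℚ) + α j ≠ 0)
    (h : (QA α).comp (-(Polynomial.X + 1)) = -QA α) : QO n (QA α) := by
  have hQ := QG_QA hn hα
  have h1 := h
  rw [QA_comp] at h1
  have hodd : Odd n := by
    have h2 := congrArg (fun P => Polynomial.coeff P n) h1
    have e1 : (QA fun j => 1 - α j).coeff n = 1 := by
      have := (QA_monic fun j => 1 - α j).coeff_natDegree
      rwa [QA_deg] at this
    have e2 : (QA α).coeff n = 1 := by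
      have := (QA_monic α).coeff_natDegree
      rwa [QA_deg] at this
    simp only [Polynomial.coeff_C_mul, Polynomial.coeff_neg, e1, e2, mul_one] at h2
    by_contra hne
    rw [(Nat.not_odd_iff_even.1 hne).neg_one_pow] at h2
    norm_num at h2
  refine ⟨hQ, hodd, h, ?_⟩
  rw [hodd.neg_one_pow] at h1
  have h2 : (QA fun j => 1 - α j) = QA α := by
    rw [map_neg, map_one, neg_one_mul] at h1
    exact neg_injective h1
  have h3 := QA_coeff (by omega) fun j => 1 - α j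
  rw [h2, QA_coeff (by omega), Finset.sum_sub_distrib, Finset.sum_const, Finset.card_univ, Fintype.card_fin, nsmul_eq_mul,
    mul_one] at h3
  rw [QA_coeff (by omega)]
  linarith

end one

section

variable {r : ℕ} {n : Fin r → ℕ} {α : ∀ j, Fin (n j) → ℚ}

/-- **the types of the families in terms of the exponents** -/
theorem JU_QA (hn : ∀ j, 2 ≤ n j) (hα : ∀ j i, ∀ a : ℤ, α j i ≠ a)
    (hs : ∀ j, ∑ i, α j i = 0 ∨ ∀ a : ℤ, ∑ i, α j i ≠ a)
    (ht : ∀ j, fr (α j) ≠ (fr fun i => -α j i) ∨ (QA (α j)).comp (-Polynomial.X) = QA (α j) ∨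
      (QA (α j)).comp (-(Polynomial.X + 1)) = -QA (α j))
    (hne : ∀ i j, i ≠ j → fr (α i) ≠ fr (α j) ∧ fr (α i) ≠ fr fun l => -α j l)
    (h23 : ∀ i j, n i = 2 → (∃ a : ℤ, 2 * ∑ l, α i l = a) → ∑ l, α i l ≠ 0 → n j = 3 →
      (QA (α j)).comp (-(Polynomial.X + 1)) ≠ -QA (α j)) :
    ∃ W, JU n (fun j => QA (α j)) W := by
  have hQ := fun j => QG_QA (hn j) (nonint (hα j))
  have hQ' : ∀ j, QG (n j) (dq (n j) (QA (α j))) := by
    intro j
    rw [dq_QA]
    exact QG_QA (hn j) (nonint' (hα j))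
  have hcf : ∀ j, (QA (α j)).coeff (n j - 1) = ∑ i, α j i := fun j => QA_coeff (by have := hn j; omega) (α j)
  have hW := fun j => wex_QA (hn j) (hα j)
  choose W hW1 hW2 using hW
  have hre : ∀ i j, RatEq (QA (α i)) (dq (n j) (QA (α j))) → fr (α i) = fr fun l => -α j l := by
    intro i j h
    rw [dq_QA] at h
    exact RatEq_QA h
  refine ⟨W, ⟨hQ, hQ', fun j => ?_, fun j => ?_, fun i j hij hnn => ?_, fun j h0 => ?_, fun j h1 h0 => ?_,
    fun i j h1 h0 hO hO' h23' => ?_⟩⟩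
  · rw [hcf]
    rcases hs j with h | h
    · exact Or.inl h
    · exact Or.inr fun a => (h a).symm
  · refine Fm.sys (hQ j) (fun i l => ?_) (hW1 j) (hW2 j)
    unfold Hp
    rw [Matrix.of_apply]
    exact sdc_hps_g (Fintype.card_fin _) (nonint (hα j)) (hQ j) i l
  · exact ⟨fun h => (hne i j hij).1 (RatEq_QA h), fun h => (hne i j hij).2 (hre i j h)⟩
  · rcases ht j with h2 | h2 | h2
    · exact Or.inr fun h3 => h2 (hre j j h3)
    · exact Or.inl (QD_of_even (hQ j) h2)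
    · exfalso
      have h3 := (QO_of_comp (hn j) (nonint (hα j)) h2).half
      rw [h0] at h3
      have h4 : (n j : ℚ) ≠ 0 := by
        have := hn j
        exact_mod_cast (show n j ≠ 0 by omega)
      apply h4
      linarith
  · rcases ht j with h2 | h2 | h2
    · exact Or.inr fun h3 => h2 (hre j j h3)
    · exact absurd (QD_tr (QD_of_even (hQ j) h2)) h0
    · exact Or.inl (QO_of_comp (hn j) (nonint (hα j)) h2)
  · rw [hcf] at h1 h0
    obtain ⟨a, ha⟩ := h1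
    exact h23 i j h23'.1 ⟨a, ha.symm⟩ h0 h23'.2 hO'.sym

end

/-- the pieces -/
theorem tuples_joint2 (hH : HH) (k δ D : ℕ) (r : Fin k → ℕ) (n : ∀ i, Fin (r i) → ℕ) (Q : ∀ i, Fin (r i) → Polynomial ℚ)
    (W : ∀ i j, Matrix (Fin (n i j)) (Fin (n i j)) ℚ⟦X⟧) (hJ : ∀ i, JU (n i) (Q i) (W i)) :
    ∃ c C : ℝ, 0 < c ∧ 0 ≤ C ∧ ∀ (V : Submodule ℚ ℂ) [Module.Finite ℚ V], Module.finrank ℚ V ≤ D →
      ∀ Ω : (∀ i j, Matrix (Fin (n i j)) (Fin (n i j)) ℂ), ∀ (x : Fin k → ℕ) (N' : ℕ), (∀ i, 1 ≤ x i) → 1 ≤ N' →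
      ∀ S : Finset (Fin k → ℕ), (∀ t ∈ S, (∀ i, x i < t i ∧ t i ≤ x i + N') ∧
        ∃ P : MvPolynomial (Σ i : Fin k, Option (Σ j : Fin (r i), Fin (n i j) × Fin (n i j))) ℂ,
        P.totalDegree ≤ δ ∧ (∀ s, P.coeff s ∈ V) ∧
        MvPolynomial.aeval (pj (fun i => ((Real.log (t i) : ℝ) : ℂ)) fun i j => Yt (n i j) (Q i j) (t i) * Ω i j) P = 0 ∧
        ∃ (l : Fin k → ℂ) (g : ∀ i j, Matrix (Fin (n i j)) (Fin (n i j)) ℂ),
          (∀ i, ∃ L : ℂ, Complex.exp L = 1 - (((1 / (t i : ℝ) : ℝ)) : ℂ) ∧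
            ∀ j, g i j ∈ TU (n i j) (Q i j) L (((1 / (t i : ℝ) : ℝ)) : ℂ)) ∧
          MvPolynomial.aeval (pj l fun i j => g i j * Ω i j) P ≠ 0) →
      (S.card : ℝ) ≤ C * (N' : ℝ) ^ (k - 1) * ∑ i, (1 + N' / ((x i : ℝ) + N') ^ c) := by
  have h := p_JFIN p_SYS1 p_SYS2 p_BLK k δ D r n (fun i j => Am (n i j)) (fun i j => Bm (n i j) (Q i j))
    (fun i j => Hp (n i j) (Q i j)) W
    (fun i z => {X | ∃ L : ℂ, Complex.exp L = 1 - z ∧ ∀ j, X j ∈ TU (n i j) (Q i j) L z})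
    (fun i j => (hJ i).sys j) (fun i x hx hx1 X hX c => by
      obtain ⟨L, hL, hX⟩ := hX
      obtain ⟨g, hg, hg'⟩ := tor_all2 hH (hJ i) hx hx1 hL hX c
      refine ⟨g, hg, fun j => ?_⟩
      rw [Hcg_Hp]
      exact hg' j)
  have hY : ∀ (i : Fin k) (j : Fin (r i)) (t : ℕ), Ytg (Am (n i j)) (Hp (n i j) (Q i j)) t = Yt (n i j) (Q i j) t := by
    intro i j t
    unfold Ytg Yt
    rw [Hcg_Hp]
  simp only [hY] at h
  exact h

end Pool.Agent.Run7.h225.HG
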