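import Pool.Agent.Run7.h225.HG.Iface6

/-!
# Project HYG, piece OD (helper382): the vectors `w_m` and the functionals `ξ_m`
-/

set_option autoImplicit false

open Matrix

namespace Pool.Agent.Run7.h225.HG

namespace ODp

variable {n : ℕ}

lemma P_mv (v μ x : Fin n → ℂ) : vecMulVec v μ *ᵥ x = (μ ⬝ᵥ x) • v := by
  rw [vecMulVec_mulVec]
  ext i
  simp [mul_comm]

lemma P_vm (v μ x : Fin n → ℂ) : x ᵥ* vecMulVec v μ = (x ⬝ᵥ v) • μ := by
  rw [vecMul_vecMulVec]

/-- `d = μ (N v)` -/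
noncomputable def dd (N : Matrix (Fin n) (Fin n) ℂ) (v μ : Fin n → ℂ) : ℂ := μ ⬝ᵥ (N *ᵥ v)

lemma n0_eq (N : Matrix (Fin n) (Fin n) ℂ) (v μ : Fin n → ℂ) : n0 N (vecMulVec v μ) =
    N - vecMulVec v (μ ᵥ* N) - vecMulVec (N *ᵥ v) μ + (2 * dd N v μ) • vecMulVec v μ := by
  unfold n0 dd
  have h1 : vecMulVec v μ * N = vecMulVec v (μ ᵥ* N) := vecMulVec_mul _ _ _
  have h2 : N * vecMulVec v μ = vecMulVec (N *ᵥ v) μ := mul_vecMulVec _ _ _
  have h3 : vecMulVec v μ * N * vecMulVec v μ = (μ ⬝ᵥ (N *ᵥ v)) • vecMulVec v μ := by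
    rw [mul_assoc, h2, vecMulVec_mul_vecMulVec]
    ext i j
    simp [vecMulVec]
    ring
  have e : (1 - vecMulVec v μ) * N * (1 - vecMulVec v μ) = N - vecMulVec v μ * N - N * vecMulVec v μ +
      vecMulVec v μ * N * vecMulVec v μ := by noncomm_ring
  rw [e, h3, h1, h2, two_mul, add_smul]
  abel

lemma n0_mv (N : Matrix (Fin n) (Fin n) ℂ) (v μ x : Fin n → ℂ) : n0 N (vecMulVec v μ) *ᵥ x =
    N *ᵥ x - (μ ⬝ᵥ (N *ᵥ x)) • v - (μ ⬝ᵥ x) • (N *ᵥ v) + (2 * dd N v μ * (μ ⬝ᵥ x)) • v := by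
  rw [n0_eq, add_mulVec, sub_mulVec, sub_mulVec, P_mv, P_mv, smul_mulVec, P_mv, smul_smul, ← dotProduct_mulVec]

/-- the vectors `w_m` -/
noncomputable def wq (N : Matrix (Fin n) (Fin n) ℂ) (v μ : Fin n → ℂ) : ℕ → Fin n → ℂ
  | 0 => N *ᵥ v - dd N v μ • v
  | m + 1 => n0 N (vecMulVec v μ) *ᵥ wq N v μ m - dd N v μ • wq N v μ m

lemma nv (N : Matrix (Fin n) (Fin n) ℂ) (v μ : Fin n → ℂ) (h1 : μ ⬝ᵥ v = 1) :
    n0 N (vecMulVec v μ) *ᵥ v = dd N v μ • v := by
  rw [n0_mv, h1, mul_one, one_smul]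
  show N *ᵥ v - dd N v μ • v - N *ᵥ v + (2 * dd N v μ) • v = _
  rw [two_mul, add_smul]
  abel

lemma n0_tr (N : Matrix (Fin n) (Fin n) ℂ) (v μ : Fin n → ℂ) :
    n0 N.transpose (vecMulVec μ v) = (n0 N (vecMulVec v μ)).transpose := by
  unfold n0
  rw [transpose_add, transpose_mul, transpose_mul, transpose_mul, transpose_mul, transpose_vecMulVec,
    transpose_sub, transpose_one, transpose_vecMulVec, mul_assoc, mul_assoc]

lemma dd_tr (N : Matrix (Fin n) (Fin n) ℂ) (v μ : Fin n → ℂ) : dd N.transpose μ v = dd N v μ := by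
  unfold dd
  rw [mulVec_transpose, dotProduct_mulVec, dotProduct_comm]

lemma nm (N : Matrix (Fin n) (Fin n) ℂ) (v μ : Fin n → ℂ) (h1 : μ ⬝ᵥ v = 1) :
    μ ᵥ* n0 N (vecMulVec v μ) = dd N v μ • μ := by
  have h := nv N.transpose μ v (by rw [dotProduct_comm]; exact h1)
  rw [n0_tr, mulVec_transpose, dd_tr] at h
  exact h

lemma mw (N : Matrix (Fin n) (Fin n) ℂ) (v μ : Fin n → ℂ) (h1 : μ ⬝ᵥ v = 1) (m : ℕ) : μ ⬝ᵥ wq N v μ m = 0 := by
  induction m with
  | zero =>
    show μ ⬝ᵥ (N *ᵥ v - dd N v μ • v) = 0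
    rw [dotProduct_sub, dotProduct_smul, h1, smul_eq_mul, mul_one]
    exact sub_self _
  | succ m ih =>
    show μ ⬝ᵥ (n0 N (vecMulVec v μ) *ᵥ wq N v μ m - dd N v μ • wq N v μ m) = 0
    rw [dotProduct_sub, dotProduct_mulVec, nm N v μ h1, dotProduct_smul, smul_dotProduct, ih]
    simp

lemma nw (N : Matrix (Fin n) (Fin n) ℂ) (v μ : Fin n → ℂ) (m : ℕ) :
    n0 N (vecMulVec v μ) *ᵥ wq N v μ m = wq N v μ (m + 1) + dd N v μ • wq N v μ m := by
  show _ = n0 N (vecMulVec v μ) *ᵥ wq N v μ m - dd N v μ • wq N v μ m + _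
  rw [sub_add_cancel]

/-- `N` on the vectors `w_m` -/
lemma Nw (N : Matrix (Fin n) (Fin n) ℂ) (v μ : Fin n → ℂ) (h1 : μ ⬝ᵥ v = 1) (m : ℕ) :
    N *ᵥ wq N v μ m = wq N v μ (m + 1) + dd N v μ • wq N v μ m + (μ ⬝ᵥ (N *ᵥ wq N v μ m)) • v := by
  have h := n0_mv N v μ (wq N v μ m)
  rw [nw, mw N v μ h1, zero_smul, mul_zero, zero_smul, sub_zero, add_zero] at h
  rw [h]
  abel

/-- the span of `v` and the `w_m` is everything -/
lemma span_top (N : Matrix (Fin n) (Fin n) ℂ) (v μ : Fin n → ℂ) (hn : 2 ≤ n) (hN : N ^ n = 0) (h1 : μ ⬝ᵥ v = 1)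
    (hc : μ ⬝ᵥ ((N ^ (n - 1)) *ᵥ v) ≠ 0) :
    Submodule.span ℂ ({v} ∪ Set.range (wq N v μ)) = ⊤ := by
  set S := Submodule.span ℂ ({v} ∪ Set.range (wq N v μ)) with hS
  have hv : v ∈ S := Submodule.subset_span (Or.inl rfl)
  have hw : ∀ m, wq N v μ m ∈ S := fun m => Submodule.subset_span (Or.inr ⟨m, rfl⟩)
  have hst : ∀ x ∈ S, N *ᵥ x ∈ S := by
    intro x hx
    induction hx using Submodule.span_induction with
    | mem x hx =>
      rcases hx with hx | ⟨m, rfl⟩
      · rw [Set.mem_singleton_iff] at hx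
        subst hx
        have : N *ᵥ x = wq N x μ 0 + dd N x μ • x := by
          show N *ᵥ x = N *ᵥ x - dd N x μ • x + dd N x μ • x
          rw [sub_add_cancel]
        rw [this]
        exact S.add_mem (hw 0) (S.smul_mem _ hv)
      · rw [Nw N v μ h1]
        exact S.add_mem (S.add_mem (hw _) (S.smul_mem _ (hw _))) (S.smul_mem _ hv)
    | zero => rw [mulVec_zero]; exact S.zero_mem
    | add x y _ _ hx hy => rw [mulVec_add]; exact S.add_mem hx hy
    | smul c x _ hx => rw [mulVec_smul]; exact S.smul_mem _ hx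
  have hpow : ∀ k : ℕ, (N ^ k) *ᵥ v ∈ S := by
    intro k
    induction k with
    | zero => rw [pow_zero, one_mulVec]; exact hv
    | succ k ih =>
      rw [pow_succ', ← mulVec_mulVec]
      exact hst _ ih
  -- the powers are linearly independent
  have hli : LinearIndependent ℂ fun k : Fin n => (N ^ (k : ℕ)) *ᵥ v := by
    have hne : (N ^ (n - 1)) *ᵥ v ≠ 0 := fun h => hc (by rw [h, dotProduct_zero])
    rw [Fintype.linearIndependent_iff]
    intro g hg
    by_contra hcon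
    push Not at hcon
    -- the smallest index with nonzero coefficient
    have hex : ∃ i : ℕ, ∃ h : i < n, g ⟨i, h⟩ ≠ 0 := by
      obtain ⟨i, hi⟩ := hcon
      exact ⟨i, i.2, hi⟩
    classical
    obtain ⟨hi, hgi⟩ := Nat.find_spec hex
    set i := Nat.find hex with hidef
    have hmin : ∀ j : Fin n, (j : ℕ) < i → g j = 0 := by
      intro j hj
      by_contra hne'
      exact Nat.find_min hex hj ⟨j.2, hne'⟩
    have h2 := congrArg (fun x => (N ^ (n - 1 - i)) *ᵥ x) hg
    simp only [mulVec_zero] at h2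
    rw [mulVec_sum] at h2
    rw [Finset.sum_eq_single (⟨i, hi⟩ : Fin n)] at h2
    · rw [mulVec_smul, mulVec_mulVec, ← pow_add] at h2
      simp only at h2
      rw [show n - 1 - i + i = n - 1 by omega] at h2
      rcases smul_eq_zero.1 h2 with h3 | h3
      · exact hgi h3
      · exact hne h3
    · intro j _ hj
      rcases Nat.lt_trichotomy (j : ℕ) i with h3 | h3 | h3
      · rw [hmin j h3, zero_smul, mulVec_zero]
      · exact absurd (Fin.ext h3) hj
      · rw [mulVec_smul, mulVec_mulVec, ← pow_add]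
        have h4 : N ^ (n - 1 - i + (j : ℕ)) = 0 := by
          obtain ⟨r, hr⟩ := Nat.exists_eq_add_of_le (show n ≤ n - 1 - i + (j : ℕ) by omega)
          rw [hr, pow_add, hN, zero_mul]
        rw [h4, zero_mulVec, smul_zero]
    · intro h3
      exact absurd (Finset.mem_univ _) h3
  have hspan := hli.span_eq_top_of_card_eq_finrank' (by rw [Fintype.card_fin, Module.finrank_fin_fun])
  rw [eq_top_iff, ← hspan, Submodule.span_le]
  rintro _ ⟨k, rfl⟩
  exact hpow k

lemma sw (N : Matrix (Fin n) (Fin n) ℂ) (v μ : Fin n → ℂ) (hn : 2 ≤ n) (hN : N ^ n = 0) (h1 : μ ⬝ᵥ v = 1)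
    (hc : μ ⬝ᵥ ((N ^ (n - 1)) *ᵥ v) ≠ 0) (u : Fin n → ℂ) (hu : μ ⬝ᵥ u = 0) :
    u ∈ Submodule.span ℂ (Set.range (wq N v μ)) := by
  have h := span_top N v μ hn hN h1 hc
  rw [Submodule.span_union] at h
  have hmem : u ∈ Submodule.span ℂ {v} ⊔ Submodule.span ℂ (Set.range (wq N v μ)) := by rw [h]; trivial
  obtain ⟨y, hy, z, hz, hyz⟩ := Submodule.mem_sup.1 hmem
  obtain ⟨a, rfl⟩ := Submodule.mem_span_singleton.1 hy
  have hμz : μ ⬝ᵥ z = 0 := by
    clear hyz
    induction hz using Submodule.span_induction with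
    | mem x hx =>
      obtain ⟨m, rfl⟩ := hx
      exact mw N v μ h1 m
    | zero => rw [dotProduct_zero]
    | add x y _ _ hx hy => rw [dotProduct_add, hx, hy, add_zero]
    | smul c x _ hx => rw [dotProduct_smul, hx, smul_zero]
  have h2 : μ ⬝ᵥ (a • v + z) = 0 := by rw [hyz]; exact hu
  rw [dotProduct_add, dotProduct_smul, h1, hμz, smul_eq_mul, mul_one, add_zero] at h2
  rw [← hyz, h2, zero_smul, zero_add]
  exact hz

/-- the hyperplane -/
noncomputable def Hy (μ : Fin n → ℂ) : Submodule ℂ (Fin n → ℂ) where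
  carrier := {u | μ ⬝ᵥ u = 0}
  zero_mem' := dotProduct_zero _
  add_mem' := by
    intro x y hx hy
    have hx' : μ ⬝ᵥ x = 0 := hx
    have hy' : μ ⬝ᵥ y = 0 := hy
    show μ ⬝ᵥ (x + y) = 0
    rw [dotProduct_add, hx', hy', add_zero]
  smul_mem' := by
    intro c x hx
    have hx' : μ ⬝ᵥ x = 0 := hx
    show μ ⬝ᵥ (c • x) = 0
    rw [dotProduct_smul, hx', smul_zero]

lemma Hy_finrank (v μ : Fin n → ℂ) (h1 : μ ⬝ᵥ v = 1) : n ≤ Module.finrank ℂ (Hy μ) + 1 := by
  have h : Hy μ ⊔ Submodule.span ℂ {v} = ⊤ := by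
    rw [eq_top_iff]
    intro x _
    have e : x = (x - (μ ⬝ᵥ x) • v) + (μ ⬝ᵥ x) • v := by rw [sub_add_cancel]
    rw [e]
    apply Submodule.add_mem_sup
    · show μ ⬝ᵥ (x - (μ ⬝ᵥ x) • v) = 0
      rw [dotProduct_sub, dotProduct_smul, h1, smul_eq_mul, mul_one, sub_self]
    · exact Submodule.smul_mem _ _ (Submodule.mem_span_singleton_self v)
  have h2 := Submodule.finrank_add_le_finrank_add_finrank (Hy μ) (Submodule.span ℂ {v})
  rw [h, finrank_top, Module.finrank_fin_fun] at h2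
  have hv : v ≠ 0 := by
    intro h0
    rw [h0, dotProduct_zero] at h1
    exact zero_ne_one h1
  have h3 := finrank_span_singleton (K := ℂ) hv
  omega

lemma iw (N : Matrix (Fin n) (Fin n) ℂ) (v μ : Fin n → ℂ) (hn : 2 ≤ n) (hN : N ^ n = 0) (h1 : μ ⬝ᵥ v = 1)
    (hc : μ ⬝ᵥ ((N ^ (n - 1)) *ᵥ v) ≠ 0) : LinearIndependent ℂ fun i : Fin (n - 1) => wq N v μ i := by
  have key : ∀ k : ℕ, k ≤ n - 1 → LinearIndependent ℂ fun i : Fin k => wq N v μ i := by
    intro k
    induction k with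
    | zero => intro _; exact linearIndependent_empty_type
    | succ k ih =>
      intro hk
      rw [linearIndependent_finSucc']
      refine ⟨ih (by omega), ?_⟩
      intro hmem
      set D := Submodule.span ℂ (Set.range (Fin.init fun i : Fin (k + 1) => wq N v μ i)) with hD
      have hlow : ∀ j : ℕ, j < k → wq N v μ j ∈ D := by
        intro j hj
        exact Submodule.subset_span ⟨⟨j, hj⟩, rfl⟩
      have hkm : wq N v μ k ∈ D := hmem
      have hst : ∀ x ∈ D, n0 N (vecMulVec v μ) *ᵥ x ∈ D := by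
        intro x hx
        induction hx using Submodule.span_induction with
        | mem x hx =>
          obtain ⟨i, rfl⟩ := hx
          show n0 N (vecMulVec v μ) *ᵥ wq N v μ i ∈ D
          rw [nw]
          apply D.add_mem
          · rcases Nat.lt_or_ge ((i : ℕ) + 1) k with h3 | h3
            · exact hlow _ h3
            · rw [show (i : ℕ) + 1 = k by have := i.2; omega]
              exact hkm
          · exact D.smul_mem _ (hlow _ i.2)
        | zero => rw [mulVec_zero]; exact D.zero_mem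
        | add x y _ _ hx hy => rw [mulVec_add]; exact D.add_mem hx hy
        | smul c x _ hx => rw [mulVec_smul]; exact D.smul_mem _ hx
      have hall : ∀ m, wq N v μ m ∈ D := by
        intro m
        induction m with
        | zero =>
          rcases Nat.eq_zero_or_pos k with h3 | h3
          · rw [h3] at hkm; exact hkm
          · exact hlow 0 h3
        | succ m ihm =>
          show n0 N (vecMulVec v μ) *ᵥ wq N v μ m - dd N v μ • wq N v μ m ∈ D
          exact D.sub_mem (hst _ ihm) (D.smul_mem _ ihm)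
      have hle : Hy μ ≤ D := by
        intro u hu
        have h3 := sw N v μ hn hN h1 hc u hu
        refine (Submodule.span_le.2 ?_) h3
        rintro _ ⟨m, rfl⟩
        exact hall m
      have h4 := Submodule.finrank_mono hle
      have h5 : Module.finrank ℂ D ≤ k := by
        have := finrank_range_le_card (R := ℂ) (Fin.init fun i : Fin (k + 1) => wq N v μ i)
        rw [Fintype.card_fin] at this
        exact this
      have h6 := Hy_finrank v μ h1
      omega
  exact key (n - 1) le_rfl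

/-- the functionals `ξ_m` -/
noncomputable def xq (N : Matrix (Fin n) (Fin n) ℂ) (v μ : Fin n → ℂ) (m : ℕ) : Fin n → ℂ :=
  (-1 : ℂ) ^ m • wq N.transpose μ v m

lemma xq_zero (N : Matrix (Fin n) (Fin n) ℂ) (v μ : Fin n → ℂ) : xq N v μ 0 = μ ᵥ* N - dd N v μ • μ := by
  unfold xq
  rw [pow_zero, one_smul]
  show N.transpose *ᵥ μ - dd N.transpose μ v • μ = _
  rw [dd_tr, mulVec_transpose]

lemma nx (N : Matrix (Fin n) (Fin n) ℂ) (v μ : Fin n → ℂ) (m : ℕ) :
    xq N v μ m ᵥ* n0 N (vecMulVec v μ) = dd N v μ • xq N v μ m - xq N v μ (m + 1) := by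
  have h := nw N.transpose μ v m
  rw [n0_tr, mulVec_transpose, dd_tr] at h
  unfold xq
  rw [smul_vecMul, h, pow_succ]
  ext i
  simp
  ring

end ODp

open ODp

theorem p_OD : S_OD := by
  intro n N v μ hn hN h1 hc
  have h1' : v ⬝ᵥ μ = 1 := by rw [dotProduct_comm]; exact h1
  have hN' : N.transpose ^ n = 0 := by rw [← transpose_pow, hN, transpose_zero]
  have hc' : v ⬝ᵥ ((N.transpose ^ (n - 1)) *ᵥ μ) ≠ 0 := by
    rw [← transpose_pow, mulVec_transpose, dotProduct_comm, ← dotProduct_mulVec]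
    exact hc
  have hneg : ∀ m : ℕ, ((-1 : ℂ) ^ m) * ((-1 : ℂ) ^ m) = 1 := by
    intro m
    rw [← mul_pow]; norm_num
  have hrange : Submodule.span ℂ (Set.range (wq N.transpose μ v)) ≤ Submodule.span ℂ (Set.range (xq N v μ)) := by
    rw [Submodule.span_le]
    rintro _ ⟨m, rfl⟩
    have e : wq N.transpose μ v m = (-1 : ℂ) ^ m • xq N v μ m := by
      unfold xq
      rw [smul_smul, hneg, one_smul]
    rw [e]
    exact Submodule.smul_mem _ _ (Submodule.subset_span ⟨m, rfl⟩)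
  have hw0 : (1 - vecMulVec v μ) * N * vecMulVec v μ = vecMulVec (wq N v μ 0) μ := by
    rw [sub_mul, one_mul, sub_mul, mul_vecMulVec, mul_assoc, mul_vecMulVec, vecMulVec_mul_vecMulVec]
    show _ = vecMulVec (N *ᵥ v - dd N v μ • v) μ
    rw [sub_vecMulVec, smul_vecMulVec]
    congr 1
    ext i j
    simp [vecMulVec, dd]
    ring
  have hx0 : vecMulVec v μ * N * (1 - vecMulVec v μ) = vecMulVec v (xq N v μ 0) := by
    rw [xq_zero, mul_sub, mul_one, vecMulVec_mul, vecMulVec_mul_vecMulVec, vecMulVec_sub]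
    congr 1
    unfold dd
    rw [dotProduct_mulVec]
  have had : ∀ m : ℕ, (fun X => n0 N (vecMulVec v μ) * X - X * n0 N (vecMulVec v μ))^[m]
      ((1 - vecMulVec v μ) * N * vecMulVec v μ) = vecMulVec (wq N v μ m) μ := by
    intro m
    induction m with
    | zero => exact hw0
    | succ m ih =>
      rw [Function.iterate_succ_apply', ih]
      rw [mul_vecMulVec, vecMulVec_mul, nm N v μ h1, nw, add_vecMulVec, smul_vecMulVec, vecMulVec_smul]
      simp
  have hh0 : ∀ m, xq N v μ 0 ⬝ᵥ wq N v μ m = hm N v μ m := by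
    intro m
    unfold hm
    rw [hx0, had, vecMulVec_mul_vecMulVec, trace_vecMulVec]
    simp [dotProduct_comm v, h1]
  have hstep : ∀ a b, xq N v μ (a + 1) ⬝ᵥ wq N v μ b = -(xq N v μ a ⬝ᵥ wq N v μ (b + 1)) := by
    intro a b
    have e1 := nx N v μ a
    have e2 := nw N v μ b
    have e3 : (xq N v μ a ᵥ* n0 N (vecMulVec v μ)) ⬝ᵥ wq N v μ b = xq N v μ a ⬝ᵥ (n0 N (vecMulVec v μ) *ᵥ wq N v μ b) :=
      (dotProduct_mulVec _ _ _).symm
    rw [e1, e2, sub_dotProduct, smul_dotProduct, dotProduct_add, dotProduct_smul] at e3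
    linear_combination -e3
  refine ⟨wq N v μ, xq N v μ, hn, h1, mw N v μ h1, ?_, nv N v μ h1, nm N v μ h1, nw N v μ, nx N v μ, ?_, ?_,
    sw N v μ hn hN h1 hc, ?_, iw N v μ hn hN h1 hc, ?_⟩
  · intro m
    unfold xq
    rw [smul_dotProduct, dotProduct_comm, mw N.transpose μ v h1', smul_zero]
  · unfold offd
    rw [hx0, hw0]
  · intro a
    induction a with
    | zero => intro b; rw [hh0, pow_zero, one_mul, zero_add]
    | succ a ih =>
      intro b
      rw [hstep, ih, pow_succ, show a + 1 + b = a + (b + 1) by ring]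
      ring
  · intro η hη
    exact hrange (sw N.transpose μ v hn hN' h1' hc' η (by rw [dotProduct_comm]; exact hη))
  · have h := iw N.transpose μ v hn hN' h1' hc'
    have h2 := h.units_smul (fun i : Fin (n - 1) => Units.mk0 ((-1 : ℂ) ^ (i : ℕ)) (pow_ne_zero _ (by norm_num)))
    exact h2

end Pool.Agent.Run7.h225.HG
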