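import Pool.Agent.Run7.h225.HG.Iface6

/-! Project HYG (helper225), piece ODO, by helper68. -/

set_option autoImplicit false

open Matrix

namespace Pool.Agent.Run7.h225.HG

/-- `X v ⊗ μ` -/
lemma h68_vmv_mulVec {n : ℕ} (a b x : Fin n → ℂ) : vecMulVec a b *ᵥ x = (b ⬝ᵥ x) • a := by
  ext i
  simp only [mulVec, vecMulVec_apply, dotProduct, Pi.smul_apply, smul_eq_mul, Finset.sum_mul]
  refine Finset.sum_congr rfl fun j _ => ?_
  ring

lemma h68_vecMul_vmv {n : ℕ} (a b x : Fin n → ℂ) : x ᵥ* vecMulVec a b = (x ⬝ᵥ a) • b := by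
  ext i
  simp only [vecMul, vecMulVec_apply, dotProduct, Pi.smul_apply, smul_eq_mul, Finset.sum_mul]
  refine Finset.sum_congr rfl fun j _ => ?_
  ring

/-- `N = N₀ + offd P N` -/
lemma h68_dec {n : ℕ} (P N : Matrix (Fin n) (Fin n) ℂ) : n0 N P + offd P N = N := by
  unfold n0 offd
  noncomm_ring

theorem p_ODO : S_ODO := by
  intro n N J v μ w ξ h o
  obtain ⟨c, c0, hc⟩ := o.ref
  have hJT : ∀ x : Fin n → ℂ, x ᵥ* J = J *ᵥ x := by
    intro x
    rw [← vecMul_transpose, o.sym]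
  have hsym : ∀ x y : Fin n → ℂ, x ⬝ᵥ (J *ᵥ y) = y ⬝ᵥ (J *ᵥ x) := by
    intro x y
    rw [dotProduct_mulVec, hJT, dotProduct_comm]
  have hsk : ∀ x : Fin n → ℂ, J *ᵥ (N *ᵥ x) = -((J *ᵥ x) ᵥ* N) := by
    intro x
    have h1 := congrArg (fun M => M *ᵥ x) o.skew
    simp only [add_mulVec, zero_mulVec, ← mulVec_mulVec] at h1
    rw [mulVec_transpose] at h1
    exact eq_neg_of_add_eq_zero_right h1
  -- `d = 0`
  have hd : μ ⬝ᵥ (N *ᵥ v) = 0 := by
    have h1 : v ⬝ᵥ (J *ᵥ (N *ᵥ v)) = c * (μ ⬝ᵥ (N *ᵥ v)) := by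
      rw [hsym, hc, dotProduct_smul, dotProduct_comm, smul_eq_mul]
    have h2 : v ⬝ᵥ (J *ᵥ (N *ᵥ v)) = -(c * (μ ⬝ᵥ (N *ᵥ v))) := by
      rw [hsk, hc, dotProduct_neg, smul_vecMul, dotProduct_smul, dotProduct_comm, ← dotProduct_mulVec,
        smul_eq_mul]
    have h3 : c * (μ ⬝ᵥ (N *ᵥ v)) = 0 := by
      have h4 := h1.symm.trans h2
      have h5 : (2 : ℂ) * (c * (μ ⬝ᵥ (N *ᵥ v))) = 0 := by linear_combination h4
      rcases mul_eq_zero.1 h5 with h6 | h6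
      · norm_num at h6
      · exact h6
    exact (mul_eq_zero.1 h3).resolve_left c0
  set P : Matrix (Fin n) (Fin n) ℂ := vecMulVec v μ with hP
  have hw0 : w 0 = N *ᵥ v := by
    have h1 := congrArg (fun M => M *ᵥ v) h.od
    have h2 : P *ᵥ v = v := by rw [hP, h68_vmv_mulVec, h.mv, one_smul]
    have h3 : offd P N *ᵥ v = N *ᵥ v := by
      unfold offd
      simp only [add_mulVec, ← mulVec_mulVec, sub_mulVec, one_mulVec, h2, sub_self, mulVec_zero,
        zero_add]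
      rw [hP, h68_vmv_mulVec, hd, zero_smul, sub_zero]
    simp only [add_mulVec] at h1
    rw [h3, h68_vmv_mulVec, h68_vmv_mulVec, h.xv, h.mv, zero_smul, one_smul, zero_add] at h1
    exact h1.symm
  have hx0 : ξ 0 = μ ᵥ* N := by
    have h1 := congrArg (fun M => μ ᵥ* M) h.od
    have h2 : μ ᵥ* P = μ := by rw [hP, h68_vecMul_vmv, h.mv, one_smul]
    have h3 : μ ᵥ* offd P N = μ ᵥ* N := by
      unfold offd
      simp only [vecMul_add, ← vecMul_vecMul, vecMul_sub, vecMul_one, h2, sub_self, zero_vecMul,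
        add_zero]
      rw [hP, h68_vecMul_vmv, ← dotProduct_mulVec, hd, zero_smul, sub_zero]
    simp only [vecMul_add] at h1
    rw [h3, h68_vecMul_vmv, h68_vecMul_vmv, h.mv, h.mw, zero_smul, one_smul, add_zero] at h1
    exact h1.symm
  -- `J P = Pᵀ J`
  have hJP : ∀ x : Fin n → ℂ, J *ᵥ (P *ᵥ x) = (J *ᵥ x) ᵥ* P := by
    intro x
    rw [hP, h68_vmv_mulVec, h68_vecMul_vmv, mulVec_smul, hc, dotProduct_comm (J *ᵥ x) v, hsym, hc,
      dotProduct_smul, smul_smul, smul_eq_mul, dotProduct_comm x μ, mul_comm]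
  have hJQ : ∀ x : Fin n → ℂ, J *ᵥ ((1 - P) *ᵥ x) = (J *ᵥ x) ᵥ* (1 - P) := by
    intro x
    rw [sub_mulVec, one_mulVec, mulVec_sub, hJP, vecMul_sub, vecMul_one]
  have hN0 : ∀ x : Fin n → ℂ, J *ᵥ (n0 N P *ᵥ x) = -((J *ᵥ x) ᵥ* n0 N P) := by
    intro x
    unfold n0
    simp only [add_mulVec, ← mulVec_mulVec, mulVec_add, vecMul_add, ← vecMul_vecMul, hJP, hJQ, hsk,
      neg_vecMul]
    abel
  have hJw : ∀ m, J *ᵥ w m = -(c • ξ m) := by
    intro m
    induction m with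
    | zero => rw [hw0, hsk, hc, hx0, smul_vecMul]
    | succ m ih =>
      have h1 : w (m + 1) = n0 N P *ᵥ w m := by rw [h.nw m, hd, zero_smul, add_zero]
      have h2 : ξ (m + 1) = -(ξ m ᵥ* n0 N P) := by rw [h.nx m, hd, zero_smul, zero_sub, neg_neg]
      rw [h1, hN0, ih, h2, neg_vecMul, smul_vecMul, smul_neg]
  refine ⟨?_, c, c0, hc, hJw⟩
  intro m hm
  have h1 : ξ 0 ⬝ᵥ w m = ξ m ⬝ᵥ w 0 := by
    have h2 := hsym (w m) (w 0)
    rw [hJw, hJw, dotProduct_neg, dotProduct_neg, dotProduct_smul, dotProduct_smul, neg_inj,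
      dotProduct_comm (w m), dotProduct_comm (w 0), smul_eq_mul, smul_eq_mul] at h2
    exact mul_left_cancel₀ c0 h2
  rw [h.h, h.h, zero_add, add_zero, pow_zero, one_mul, hm.neg_one_pow] at h1
  linear_combination (1 / 2 : ℂ) * h1

end Pool.Agent.Run7.h225.HG
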