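import Pool.Agent.Run7.h225.HG.Iface6

/-!
# PAIR: two blocks which are not self-dual (project HYG, piece PAIR)

See `S_PAIR` in `Iface6.lean`.
-/

set_option autoImplicit false

open Matrix

namespace Pool.Agent.Run7.h225.HG.PR

lemma n0_eq {n : ℕ} (N P : Matrix (Fin n) (Fin n) ℂ) : n0 N P = N - offd P N := by
  unfold n0 offd
  noncomm_ring

/-- the bracket -/
def br {R : Type} [Ring R] (X Z : R) : R := X * Z - Z * X

section one

variable {n : ℕ} {N : Matrix (Fin n) (Fin n) ℂ} {v μ : Fin n → ℂ} {w ξ : ℕ → Fin n → ℂ}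

lemma P_xi (hv : μ ⬝ᵥ v = 1) (η : Fin n → ℂ) : vecMulVec v μ * vecMulVec v η = vecMulVec v η := by
  rw [vecMulVec_mul_vecMulVec, hv, one_smul]

lemma xi_P {η : Fin n → ℂ} (hη : η ⬝ᵥ v = 0) : vecMulVec v η * vecMulVec v μ = 0 := by
  rw [vecMulVec_mul_vecMulVec, hη, zero_smul, vecMulVec_zero]

lemma P_w {u : Fin n → ℂ} (hu : μ ⬝ᵥ u = 0) : vecMulVec v μ * vecMulVec u μ = 0 := by
  rw [vecMulVec_mul_vecMulVec, hu, zero_smul, vecMulVec_zero]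

lemma w_P (hv : μ ⬝ᵥ v = 1) (u : Fin n → ℂ) : vecMulVec u μ * vecMulVec v μ = vecMulVec u μ := by
  rw [vecMulVec_mul_vecMulVec, hv, one_smul]

lemma P_P (hv : μ ⬝ᵥ v = 1) : vecMulVec v μ * vecMulVec v μ = vecMulVec v μ := P_xi hv μ

lemma N0_w (h : OD N v μ w ξ) (m : ℕ) :
    br (n0 N (vecMulVec v μ)) (vecMulVec (w m) μ) = vecMulVec (w (m + 1)) μ := by
  unfold br
  rw [mul_vecMulVec, vecMulVec_mul, h.nw, h.nm, add_vecMulVec, smul_vecMulVec, vecMulVec_smul]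
  abel

lemma N0_x (h : OD N v μ w ξ) (m : ℕ) :
    br (n0 N (vecMulVec v μ)) (vecMulVec v (ξ m)) = vecMulVec v (ξ (m + 1)) := by
  unfold br
  rw [mul_vecMulVec, vecMulVec_mul, h.nv, h.nx, vecMulVec_sub, smul_vecMulVec, vecMulVec_smul]
  abel

lemma N0_P (h : OD N v μ w ξ) : br (n0 N (vecMulVec v μ)) (vecMulVec v μ) = 0 := by
  unfold br
  rw [mul_vecMulVec, vecMulVec_mul, h.nv, h.nm, smul_vecMulVec, vecMulVec_smul]
  abel

/-- triple bracket, first form -/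
lemma triple_x (hv : μ ⬝ᵥ v = 1) {η u : Fin n → ℂ} (hη : η ⬝ᵥ v = 0) :
    br (br (vecMulVec v η) (vecMulVec u μ)) (vecMulVec v η) = (2 * (η ⬝ᵥ u)) • vecMulVec v η := by
  unfold br
  simp only [vecMulVec_mul_vecMulVec, sub_mul, mul_sub, hv, hη, one_smul, vecMulVec_smul, smul_mul_assoc,
    mul_smul_comm, zero_smul, vecMulVec_zero, smul_zero, sub_zero]
  rw [two_mul, add_smul]
  abel

/-- triple bracket, second form -/
lemma triple_w (hv : μ ⬝ᵥ v = 1) {η u : Fin n → ℂ} (hu : μ ⬝ᵥ u = 0) :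
    br (br (vecMulVec u μ) (vecMulVec v η)) (vecMulVec u μ) = (2 * (η ⬝ᵥ u)) • vecMulVec u μ := by
  unfold br
  simp only [vecMulVec_mul_vecMulVec, sub_mul, mul_sub, hv, hu, one_smul, vecMulVec_smul, smul_mul_assoc,
    mul_smul_comm, zero_smul, vecMulVec_zero, smul_zero, sub_zero]
  rw [two_mul, add_smul]
  abel

lemma x0_ne (h : OD N v μ w ξ) : ξ 0 ≠ 0 :=
  h.ix.ne_zero (⟨0, by have := h.two; omega⟩ : Fin (n - 1))

lemma w0_ne (h : OD N v μ w ξ) : w 0 ≠ 0 :=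
  h.iw.ne_zero (⟨0, by have := h.two; omega⟩ : Fin (n - 1))

lemma v_ne (hv : μ ⬝ᵥ v = 1) : v ≠ 0 := by
  rintro rfl
  rw [dotProduct_zero] at hv
  exact zero_ne_one hv

lemma μ_ne (hv : μ ⬝ᵥ v = 1) : μ ≠ 0 := by
  rintro rfl
  rw [zero_dotProduct] at hv
  exact zero_ne_one hv

/-- the analysis of the second component of `D` -/
lemma key (h : OD N v μ w ξ) {Δ : Matrix (Fin n) (Fin n) ℂ}
    (h1 : rf v μ * Δ * rf v μ = Δ) (h2 : br (n0 N (vecMulVec v μ)) Δ = 0)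
    (h3 : br Δ (br Δ (offd (vecMulVec v μ) N)) = offd (vecMulVec v μ) N) :
    ∃ T : Matrix (Fin n) (Fin n) ℂ, T *ᵥ v = 0 ∧ μ ᵥ* T = 0 ∧ T * T = 1 - vecMulVec v μ ∧
      (∀ η : Fin n → ℂ, br Δ (vecMulVec v η) = vecMulVec v (η ᵥ* T)) ∧
      (∀ u : Fin n → ℂ, br Δ (vecMulVec u μ) = - vecMulVec (T *ᵥ u) μ) := by
  have hv := h.mv
  have hPP := P_P hv
  set P := vecMulVec v μ with hP
  -- commutation with `P`
  have e0 : P * Δ + Δ * P = (2 : ℂ) • (P * Δ * P) := by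
    have : rf v μ * Δ * rf v μ = Δ - (2 : ℂ) • (P * Δ + Δ * P - (2 : ℂ) • (P * Δ * P)) := by
      unfold rf
      rw [← hP]
      simp only [sub_mul, mul_sub, one_mul, mul_one, smul_mul_assoc, mul_smul_comm, smul_sub, smul_add]
      abel
    rw [this] at h1
    have h1' : (2 : ℂ) • (P * Δ + Δ * P - (2 : ℂ) • (P * Δ * P)) = 0 := by
      have := sub_eq_self.mp h1
      exact this
    have h1'' := (smul_eq_zero.mp h1').resolve_left two_ne_zero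
    exact sub_eq_zero.mp h1''
  have e1 : P * Δ = P * Δ * P := by
    have := congrArg (fun X => P * X) e0
    simp only [mul_add, mul_smul_comm, ← mul_assoc, hPP] at this
    rw [two_smul] at this
    exact add_right_cancel this
  have e2 : Δ * P = P * Δ * P := by
    have := congrArg (fun X => X * P) e0
    simp only [add_mul, smul_mul_assoc, mul_assoc, hPP] at this
    rw [two_smul] at this
    simp only [← mul_assoc] at this
    exact add_left_cancel this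
  set δ : ℂ := μ ⬝ᵥ (Δ *ᵥ v) with hδ
  have hPDP : P * Δ * P = δ • P := by
    rw [hP, mul_assoc, mul_vecMulVec, vecMulVec_mul_vecMulVec, vecMulVec_smul, ← hδ]
  have dv : Δ *ᵥ v = δ • v := by
    have hPv : P *ᵥ v = v := by
      rw [hP, vecMulVec_mulVec, hv]; simp
    calc Δ *ᵥ v = Δ *ᵥ (P *ᵥ v) := by rw [hPv]
      _ = (Δ * P) *ᵥ v := by rw [mulVec_mulVec]
      _ = (δ • P) *ᵥ v := by rw [e2, hPDP]
      _ = δ • v := by rw [smul_mulVec, hPv]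
  have dm : μ ᵥ* Δ = δ • μ := by
    have hPv : μ ᵥ* P = μ := by
      rw [hP, vecMul_vecMulVec, hv, one_smul]
    calc μ ᵥ* Δ = (μ ᵥ* P) ᵥ* Δ := by rw [hPv]
      _ = μ ᵥ* (P * Δ) := by rw [vecMul_vecMul]
      _ = μ ᵥ* (δ • P) := by rw [e1, hPDP]
      _ = δ • μ := by rw [vecMul_smul, hPv]
  set T : Matrix (Fin n) (Fin n) ℂ := δ • (1 : Matrix (Fin n) (Fin n) ℂ) - Δ with hT
  have Tv : T *ᵥ v = 0 := by
    rw [hT, sub_mulVec, smul_mulVec, one_mulVec, dv, sub_self]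
  have mT : μ ᵥ* T = 0 := by
    rw [hT, vecMul_sub, vecMul_smul, vecMul_one, dm, sub_self]
  have bx : ∀ η : Fin n → ℂ, br Δ (vecMulVec v η) = vecMulVec v (η ᵥ* T) := by
    intro η
    unfold br
    rw [mul_vecMulVec, vecMulVec_mul, dv, hT, vecMul_sub, vecMul_smul, vecMul_one, vecMulVec_sub, smul_vecMulVec,
      vecMulVec_smul]
  have bw : ∀ u : Fin n → ℂ, br Δ (vecMulVec u μ) = - vecMulVec (T *ᵥ u) μ := by
    intro u
    unfold br
    rw [mul_vecMulVec, vecMulVec_mul, dm, hT, sub_mulVec, smul_mulVec, one_mulVec, sub_vecMulVec, smul_vecMulVec,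
      vecMulVec_smul]
    abel
  have br_add : ∀ X Z W : Matrix (Fin n) (Fin n) ℂ, br X (Z + W) = br X Z + br X W := by
    intro X Z W
    unfold br
    noncomm_ring
  have br_neg : ∀ X Z : Matrix (Fin n) (Fin n) ℂ, br X (-Z) = - br X Z := by
    intro X Z
    unfold br
    noncomm_ring
  rw [h.od, br_add, bx, bw, br_add, br_neg, bx, bw, neg_neg] at h3
  -- `T² w₀ = w₀`
  have t0 : T *ᵥ (T *ᵥ w 0) = w 0 := by
    have := congrArg (fun X => X *ᵥ v) h3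
    simp only [add_mulVec, vecMulVec_mulVec, hv, h.xv 0] at this
    have hz : ((ξ 0 ᵥ* T) ᵥ* T) ⬝ᵥ v = 0 := by
      rw [← dotProduct_mulVec, Tv, dotProduct_zero]
    rw [hz] at this
    simpa using this
  have cT : n0 N P * T = T * n0 N P := by
    have h2' : n0 N P * Δ = Δ * n0 N P := sub_eq_zero.mp h2
    rw [hT, mul_sub, sub_mul, h2', mul_smul_comm, smul_mul_assoc, mul_one, one_mul]
  have tw : ∀ m, T *ᵥ (T *ᵥ w m) = w m := by
    intro m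
    induction m with
    | zero => exact t0
    | succ m ih =>
      have e : w (m + 1) = n0 N P *ᵥ w m - (μ ⬝ᵥ (N *ᵥ v)) • w m := by
        rw [h.nw]; abel
      have hc : ∀ y : Fin n → ℂ, T *ᵥ (n0 N P *ᵥ y) = n0 N P *ᵥ (T *ᵥ y) := by
        intro y
        rw [mulVec_mulVec, ← cT, ← mulVec_mulVec]
      rw [e, mulVec_sub, mulVec_sub, mulVec_smul, mulVec_smul, ih, hc, hc, ih]
  have tu : ∀ u : Fin n → ℂ, μ ⬝ᵥ u = 0 → T *ᵥ (T *ᵥ u) = u := by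
    intro u hu
    have hmem := h.sw u hu
    refine Submodule.span_induction (p := fun x _ => T *ᵥ (T *ᵥ x) = x) ?_ ?_ ?_ ?_ hmem
    · rintro x ⟨m, rfl⟩
      exact tw m
    · simp
    · intro x y _ _ hx hy
      rw [mulVec_add, mulVec_add, hx, hy]
    · intro a x _ hx
      rw [mulVec_smul, mulVec_smul, hx]
  have TT : T * T = 1 - P := by
    apply Matrix.ext_of_mulVec_single
    intro i
    set x : Fin n → ℂ := Pi.single i 1
    have hx : μ ⬝ᵥ (x - (μ ⬝ᵥ x) • v) = 0 := by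
      rw [dotProduct_sub, dotProduct_smul, hv, smul_eq_mul, mul_one, sub_self]
    have := tu _ hx
    rw [mulVec_sub, mulVec_smul, Tv, smul_zero, sub_zero] at this
    rw [← mulVec_mulVec, this, sub_mulVec, one_mulVec, hP, vecMulVec_mulVec]
    simp
  exact ⟨T, Tv, mT, TT, bx, bw⟩

end one

section two

variable {n₁ n₂ : ℕ} {N₁ : Matrix (Fin n₁) (Fin n₁) ℂ} {N₂ : Matrix (Fin n₂) (Fin n₂) ℂ}
  {v₁ μ₁ : Fin n₁ → ℂ} {v₂ μ₂ : Fin n₂ → ℂ}
  {𝔤 : Submodule ℂ (Matrix (Fin n₁) (Fin n₁) ℂ × Matrix (Fin n₂) (Fin n₂) ℂ)}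

lemma br_fst {R S : Type} [Ring R] [Ring S] (X Z : R × S) : (br X Z).1 = br X.1 Z.1 := rfl

lemma br_snd {R S : Type} [Ring R] [Ring S] (X Z : R × S) : (br X Z).2 = br X.2 Z.2 := rfl

lemma adN0 (h : LP2 N₁ N₂ v₁ μ₁ v₂ μ₂ 𝔤) {X : Matrix (Fin n₁) (Fin n₁) ℂ × Matrix (Fin n₂) (Fin n₂) ℂ} (hX : X ∈ 𝔤) :
    br ((n0 N₁ (vecMulVec v₁ μ₁), n0 N₂ (vecMulVec v₂ μ₂)) :
      Matrix (Fin n₁) (Fin n₁) ℂ × Matrix (Fin n₂) (Fin n₂) ℂ) X ∈ 𝔤 := by
  have e : br ((n0 N₁ (vecMulVec v₁ μ₁), n0 N₂ (vecMulVec v₂ μ₂)) :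
      Matrix (Fin n₁) (Fin n₁) ℂ × Matrix (Fin n₂) (Fin n₂) ℂ) X =
      ((N₁, N₂) * X - X * (N₁, N₂)) - ((offd (vecMulVec v₁ μ₁) N₁, offd (vecMulVec v₂ μ₂) N₂) * X -
        X * (offd (vecMulVec v₁ μ₁) N₁, offd (vecMulVec v₂ μ₂) N₂)) := by
    unfold br
    rw [n0_eq, n0_eq]
    refine Prod.ext ?_ ?_
    · simp only [Prod.fst_sub, Prod.fst_mul]
      noncomm_ring
    · simp only [Prod.snd_sub, Prod.snd_mul]
      noncomm_ring
  rw [e]
  exact 𝔤.sub_mem (h.adN X hX) (h.brk _ h.od X hX)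

end two

theorem main : S_PAIR := by
  intro n₁ n₂ N₁ N₂ v₁ μ₁ v₂ μ₂ w₁ ξ₁ w₂ ξ₂ o₁ o₂ 𝔤 hg s₁ s₂ ne₁ ne₂
  by_contra hcon
  have H : ∀ X ∈ 𝔤, X.1 = 0 → X.2 = 0 := by
    intro X hX hX1
    by_contra h
    exact hcon ⟨X, hX, hX1, h⟩
  clear hcon
  have hb : ∀ X ∈ 𝔤, ∀ Z ∈ 𝔤, br X Z ∈ 𝔤 := fun X hX Z hZ => hg.brk X hX Z hZ
  have hv₁ := o₁.mv
  have hv₂ := o₂.mv
  -- the element `D`
  have htr : vecMulVec v₁ μ₁ - ((n₁ : ℂ)⁻¹) • (1 : Matrix (Fin n₁) (Fin n₁) ℂ) ∈ slm n₁ := by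
    have hn : (n₁ : ℂ) ≠ 0 := by
      have := o₁.two
      exact Nat.cast_ne_zero.mpr (by omega)
    rw [mem_slm, trace_sub, trace_vecMulVec, trace_smul, trace_one, Fintype.card_fin, smul_eq_mul,
      inv_mul_cancel₀ hn, dotProduct_comm, hv₁, sub_self]
  obtain ⟨D, hD, hD1⟩ := s₁ _ htr
  set c : ℂ := (n₁ : ℂ)⁻¹
  set P₁ := vecMulVec v₁ μ₁ with hP₁
  set A : Matrix (Fin n₁) (Fin n₁) ℂ × Matrix (Fin n₂) (Fin n₂) ℂ :=
    (offd P₁ N₁, offd (vecMulVec v₂ μ₂) N₂) with hA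
  have hAg : A ∈ 𝔤 := hg.od
  have bD1 : ∀ X : Matrix (Fin n₁) (Fin n₁) ℂ, br D.1 X = P₁ * X - X * P₁ := by
    intro X
    rw [hD1]
    unfold br
    rw [sub_mul, mul_sub, smul_mul_assoc, mul_smul_comm, one_mul, mul_one]
    abel
  have k1 : rf v₂ μ₂ * D.2 * rf v₂ μ₂ = D.2 := by
    have hm := 𝔤.sub_mem (hg.cj D hD) hD
    have h0 := H _ hm ?_
    · have : rf v₂ μ₂ * D.2 * rf v₂ μ₂ - D.2 = 0 := h0
      exact sub_eq_zero.mp this
    · show rf v₁ μ₁ * D.1 * rf v₁ μ₁ - D.1 = 0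
      have hr : rf v₁ μ₁ * rf v₁ μ₁ = 1 := by
        unfold rf
        simp only [sub_mul, mul_sub, one_mul, mul_one, smul_mul_assoc, mul_smul_comm, P_P hv₁]
        module
      have hr2 : rf v₁ μ₁ * P₁ = P₁ * rf v₁ μ₁ := by
        unfold rf
        rw [sub_mul, mul_sub, one_mul, mul_one, smul_mul_assoc, mul_smul_comm]
      rw [hD1, mul_sub, sub_mul, hr2, mul_assoc, hr, mul_smul_comm, smul_mul_assoc, mul_one, mul_one, hr, sub_self]
  have k2 : br (n0 N₂ (vecMulVec v₂ μ₂)) D.2 = 0 := by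
    have hm := adN0 hg hD
    have h0 := H _ hm ?_
    · exact h0
    · show br (n0 N₁ (vecMulVec v₁ μ₁)) D.1 = 0
      have hc := N0_P o₁
      unfold br at hc ⊢
      rw [hD1, mul_sub, sub_mul, mul_smul_comm, smul_mul_assoc, mul_one, one_mul, sub_sub_sub_cancel_right]
      exact hc
  have bA : br D.1 A.1 = vecMulVec v₁ (ξ₁ 0) - vecMulVec (w₁ 0) μ₁ := by
    rw [bD1]
    show P₁ * offd P₁ N₁ - offd P₁ N₁ * P₁ = _
    rw [hP₁, o₁.od, mul_add, add_mul, P_xi hv₁, P_w (o₁.mw 0), xi_P (o₁.xv 0), w_P hv₁]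
    abel
  have k3 : br D.2 (br D.2 (offd (vecMulVec v₂ μ₂) N₂)) = offd (vecMulVec v₂ μ₂) N₂ := by
    have hm := 𝔤.sub_mem (hb D hD _ (hb D hD A hAg)) hAg
    have h0 := H _ hm ?_
    · exact sub_eq_zero.mp h0
    · show br D.1 (br D.1 A.1) - A.1 = 0
      rw [bA, bD1]
      show _ - offd P₁ N₁ = 0
      rw [hP₁, o₁.od, mul_sub, sub_mul, P_xi hv₁, P_w (o₁.mw 0), xi_P (o₁.xv 0), w_P hv₁]
      abel
  obtain ⟨T, Tv, mT, TT, bx, bw⟩ := key o₂ k1 k2 k3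
  set P₂ := vecMulVec v₂ μ₂ with hP₂
  have TQ : T * (1 - P₂) = T := by
    rw [mul_sub, mul_one, hP₂, mul_vecMulVec, Tv, zero_vecMulVec, sub_zero]
  have QT : (1 - P₂) * T = T := by
    rw [sub_mul, one_mul, hP₂, vecMulVec_mul, mT, vecMulVec_zero, sub_zero]
  have QQ : (1 - P₂) * (1 - P₂) = 1 - P₂ := by
    rw [mul_sub, mul_one, sub_mul, one_mul, hP₂, P_P hv₂, sub_self, sub_zero]
  -- the elements `x`, `y`
  set y₀ : Matrix (Fin n₁) (Fin n₁) ℂ × Matrix (Fin n₂) (Fin n₂) ℂ := (2 : ℂ)⁻¹ • (A - br D A) with hy₀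
  set x : Matrix (Fin n₁) (Fin n₁) ℂ × Matrix (Fin n₂) (Fin n₂) ℂ := (2 : ℂ)⁻¹ • (A + br D A) with hx
  have hxg : x ∈ 𝔤 := 𝔤.smul_mem _ (𝔤.add_mem hAg (hb D hD A hAg))
  have hyg : y₀ ∈ 𝔤 := 𝔤.smul_mem _ (𝔤.sub_mem hAg (hb D hD A hAg))
  have hx1 : x.1 = vecMulVec v₁ (ξ₁ 0) := by
    show (2 : ℂ)⁻¹ • (A.1 + br D.1 A.1) = _
    rw [bA]
    show (2 : ℂ)⁻¹ • (offd P₁ N₁ + _) = _
    rw [hP₁, o₁.od]
    module
  have hy1 : y₀.1 = vecMulVec (w₁ 0) μ₁ := by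
    show (2 : ℂ)⁻¹ • (A.1 - br D.1 A.1) = _
    rw [bA]
    show (2 : ℂ)⁻¹ • (offd P₁ N₁ - _) = _
    rw [hP₁, o₁.od]
    module
  have bA2 : br D.2 A.2 = vecMulVec v₂ (ξ₂ 0 ᵥ* T) - vecMulVec (T *ᵥ w₂ 0) μ₂ := by
    show br D.2 (offd P₂ N₂) = _
    rw [hP₂, o₂.od]
    have : br D.2 (vecMulVec v₂ (ξ₂ 0) + vecMulVec (w₂ 0) μ₂) =
        br D.2 (vecMulVec v₂ (ξ₂ 0)) + br D.2 (vecMulVec (w₂ 0) μ₂) := by
      unfold br
      noncomm_ring
    rw [this, bx, bw]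
    abel
  set N0 : Matrix (Fin n₁) (Fin n₁) ℂ × Matrix (Fin n₂) (Fin n₂) ℂ := (n0 N₁ (vecMulVec v₁ μ₁), n0 N₂ (vecMulVec v₂ μ₂))
    with hN0
  have hymg : ∀ m : ℕ, (fun X => br N0 X)^[m] y₀ ∈ 𝔤 := by
    intro m
    induction m with
    | zero => exact hyg
    | succ m ih =>
      rw [Function.iterate_succ_apply']
      exact adN0 hg ih
  have hym1 : ∀ m : ℕ, ((fun X => br N0 X)^[m] y₀).1 = vecMulVec (w₁ m) μ₁ := by
    intro m
    induction m with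
    | zero => exact hy1
    | succ m ih =>
      rw [Function.iterate_succ_apply', br_fst, ih]
      exact N0_w o₁ m
  have h01 : ∀ m, ξ₁ 0 ⬝ᵥ w₁ m = hm N₁ v₁ μ₁ m := by
    intro m
    rw [o₁.h, pow_zero, one_mul, zero_add]
  have tr1 : ∀ m : ℕ, (br (br x ((fun X => br N0 X)^[m] y₀)) x).1 = (2 * hm N₁ v₁ μ₁ m) • x.1 := by
    intro m
    rw [br_fst, br_fst, hym1, hx1, triple_x hv₁ (o₁.xv 0), h01]
  have tr2 : ∀ m : ℕ, br (br x.2 ((fun X => br N0 X)^[m] y₀).2) x.2 = (2 * hm N₁ v₁ μ₁ m) • x.2 := by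
    intro m
    have hmem := 𝔤.sub_mem (hb _ (hb _ hxg _ (hymg m)) _ hxg) (𝔤.smul_mem (2 * hm N₁ v₁ μ₁ m) hxg)
    have h0 := H _ hmem ?_
    · exact sub_eq_zero.mp h0
    · show (br (br x ((fun X => br N0 X)^[m] y₀)) x).1 - (2 * hm N₁ v₁ μ₁ m) • x.1 = 0
      rw [tr1, sub_self]
  by_cases hT1 : T = 1 - P₂
  · -- case `T = 1` on `U`
    have e1 : ξ₂ 0 ᵥ* T = ξ₂ 0 := by
      rw [hT1, vecMul_sub, vecMul_one, hP₂, vecMul_vecMulVec, o₂.xv, zero_smul, sub_zero]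
    have e2 : T *ᵥ w₂ 0 = w₂ 0 := by
      rw [hT1, sub_mulVec, one_mulVec, hP₂, vecMulVec_mulVec, o₂.mw]
      simp
    rw [e1, e2] at bA2
    have hx2 : x.2 = vecMulVec v₂ (ξ₂ 0) := by
      show (2 : ℂ)⁻¹ • (A.2 + br D.2 A.2) = _
      rw [bA2]
      show (2 : ℂ)⁻¹ • (offd P₂ N₂ + _) = _
      rw [hP₂, o₂.od]
      module
    have hy2 : y₀.2 = vecMulVec (w₂ 0) μ₂ := by
      show (2 : ℂ)⁻¹ • (A.2 - br D.2 A.2) = _
      rw [bA2]
      show (2 : ℂ)⁻¹ • (offd P₂ N₂ - _) = _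
      rw [hP₂, o₂.od]
      module
    have hym2 : ∀ m : ℕ, ((fun X => br N0 X)^[m] y₀).2 = vecMulVec (w₂ m) μ₂ := by
      intro m
      induction m with
      | zero => exact hy2
      | succ m ih =>
        rw [Function.iterate_succ_apply', br_snd, ih]
        exact N0_w o₂ m
    obtain ⟨m, hne⟩ := ne₁
    apply hne
    have := tr2 m
    rw [hym2, hx2, triple_x hv₂ (o₂.xv 0), o₂.h, pow_zero, one_mul, zero_add] at this
    have hne0 : vecMulVec v₂ (ξ₂ 0) ≠ 0 := vecMulVec_ne_zero (v_ne hv₂) (x0_ne o₂)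
    have h2 := smul_left_injective ℂ hne0 this
    simpa using h2.symm
  by_cases hT2 : T = -(1 - P₂)
  · -- case `T = -1` on `U`
    have e1 : ξ₂ 0 ᵥ* T = -ξ₂ 0 := by
      rw [hT2, vecMul_neg, vecMul_sub, vecMul_one, hP₂, vecMul_vecMulVec, o₂.xv, zero_smul, sub_zero]
    have e2 : T *ᵥ w₂ 0 = -w₂ 0 := by
      rw [hT2, neg_mulVec, sub_mulVec, one_mulVec, hP₂, vecMulVec_mulVec, o₂.mw]
      simp
    rw [e1, e2, vecMulVec_neg, neg_vecMulVec] at bA2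
    have hx2 : x.2 = vecMulVec (w₂ 0) μ₂ := by
      show (2 : ℂ)⁻¹ • (A.2 + br D.2 A.2) = _
      rw [bA2]
      show (2 : ℂ)⁻¹ • (offd P₂ N₂ + _) = _
      rw [hP₂, o₂.od]
      module
    have hy2 : y₀.2 = vecMulVec v₂ (ξ₂ 0) := by
      show (2 : ℂ)⁻¹ • (A.2 - br D.2 A.2) = _
      rw [bA2]
      show (2 : ℂ)⁻¹ • (offd P₂ N₂ - _) = _
      rw [hP₂, o₂.od]
      module
    have hym2 : ∀ m : ℕ, ((fun X => br N0 X)^[m] y₀).2 = vecMulVec v₂ (ξ₂ m) := by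
      intro m
      induction m with
      | zero => exact hy2
      | succ m ih =>
        rw [Function.iterate_succ_apply', br_snd, ih]
        exact N0_x o₂ m
    obtain ⟨m, hne⟩ := ne₂
    apply hne
    have := tr2 m
    rw [hym2, hx2, triple_w hv₂ (o₂.mw 0), o₂.h, add_zero] at this
    have hne0 : vecMulVec (w₂ 0) μ₂ ≠ 0 := vecMulVec_ne_zero (w0_ne o₂) (μ_ne hv₂)
    have h2 := smul_left_injective ℂ hne0 this
    simpa using h2.symm
  · -- neither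
    have hE1 : (1 - P₂) - T ≠ 0 := fun h => hT1 (sub_eq_zero.mp h).symm
    have hE2 : (1 - P₂) + T ≠ 0 := fun h => hT2 (by
      have := eq_neg_of_add_eq_zero_right h
      exact this)
    have TT' : T * T = 1 - P₂ := TT
    have a1 : T * ((1 - P₂) - T) = -((1 - P₂) - T) := by
      rw [mul_sub, TQ, TT']
      abel
    have a2 : ((1 - P₂) + T) * T = (1 - P₂) + T := by
      rw [add_mul, QT, TT']
      abel
    have a3 : ((1 - P₂) + T) * ((1 - P₂) - T) = 0 := by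
      rw [mul_sub, add_mul, add_mul, QQ, TQ, QT, TT']
      abel
    -- a column and a row
    obtain ⟨p, hp⟩ : ∃ p : Fin n₂ → ℂ, ((1 - P₂) - T) *ᵥ p ≠ 0 := by
      by_contra hh
      push Not at hh
      apply hE1
      apply Matrix.ext_of_mulVec_single
      intro i
      rw [hh, zero_mulVec]
    obtain ⟨q, hq⟩ : ∃ q : Fin n₂ → ℂ, q ᵥ* ((1 - P₂) + T) ≠ 0 := by
      by_contra hh
      push Not at hh
      apply hE2
      apply Matrix.ext_of_single_vecMul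
      intro i
      rw [hh, vecMul_zero]
    set w' : Fin n₂ → ℂ := ((1 - P₂) - T) *ᵥ p with hw'
    set ξ' : Fin n₂ → ℂ := q ᵥ* ((1 - P₂) + T) with hξ'
    have Pv : P₂ *ᵥ v₂ = v₂ := by
      rw [hP₂, vecMulVec_mulVec, hv₂]; simp
    have mP : μ₂ ᵥ* P₂ = μ₂ := by
      rw [hP₂, vecMul_vecMulVec, hv₂, one_smul]
    have Tw' : T *ᵥ w' = -w' := by
      rw [hw', mulVec_mulVec, a1, neg_mulVec]
    have xT' : ξ' ᵥ* T = ξ' := by
      rw [hξ', vecMul_vecMul, a2]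
    have mw' : μ₂ ⬝ᵥ w' = 0 := by
      rw [hw', dotProduct_mulVec, vecMul_sub, vecMul_sub, vecMul_one, mP, mT, sub_self, sub_zero, zero_dotProduct]
    have xv' : ξ' ⬝ᵥ v₂ = 0 := by
      rw [hξ', ← dotProduct_mulVec, add_mulVec, sub_mulVec, one_mulVec, Pv, Tv, sub_self, add_zero, dotProduct_zero]
    have xw' : ξ' ⬝ᵥ w' = 0 := by
      rw [hξ', hw', ← dotProduct_mulVec, mulVec_mulVec, a3, zero_mulVec, dotProduct_zero]
    obtain ⟨Z, hZ, hZ2⟩ := s₂ (vecMulVec v₂ ξ') (by rw [mem_slm, trace_vecMulVec, dotProduct_comm, xv'])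
    obtain ⟨Z', hZ', hZ2'⟩ := s₂ (vecMulVec w' μ₂) (by rw [mem_slm, trace_vecMulVec, dotProduct_comm, mw'])
    have bb : ∀ X ∈ 𝔤, br D X = X ∨ br D.2 X.2 = X.2 → ∃ X' ∈ 𝔤, X'.2 = X.2 ∧ X'.1 = P₁ * X.1 * (1 - P₁) := by
      intro X hX hor
      have hX2 : br D.2 X.2 = X.2 := by
        rcases hor with h | h
        · exact congrArg Prod.snd h
        · exact h
      refine ⟨(2 : ℂ)⁻¹ • (br D (br D X) + br D X), 𝔤.smul_mem _ (𝔤.add_mem (hb D hD _ (hb D hD X hX))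
        (hb D hD X hX)), ?_, ?_⟩
      · show (2 : ℂ)⁻¹ • (br D.2 (br D.2 X.2) + br D.2 X.2) = X.2
        rw [hX2, hX2]
        module
      · show (2 : ℂ)⁻¹ • (br D.1 (br D.1 X.1) + br D.1 X.1) = _
        rw [bD1, bD1]
        have hPP : P₁ * P₁ = P₁ := P_P hv₁
        have e : P₁ * (P₁ * X.1 - X.1 * P₁) - (P₁ * X.1 - X.1 * P₁) * P₁ + (P₁ * X.1 - X.1 * P₁) =
            (2 : ℂ) • (P₁ * X.1 * (1 - P₁)) := by
          rw [mul_sub, sub_mul, ← mul_assoc, ← mul_assoc, hPP, mul_assoc X.1, hPP, mul_sub, mul_one]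
          module
        rw [e, smul_smul, inv_mul_cancel₀ two_ne_zero, one_smul]
    obtain ⟨Y, hY, hY2, hY1⟩ := bb Z hZ (Or.inr (by rw [hZ2, bx, xT']))
    obtain ⟨Y', hY', hY2', hY1'⟩ := bb Z' hZ' (Or.inr (by rw [hZ2', bw, Tw', neg_vecMulVec, neg_neg]))
    have h0 := H _ (hb _ hY _ hY') ?_
    · rw [br_snd, hY2, hY2', hZ2, hZ2'] at h0
      unfold br at h0
      rw [vecMulVec_mul_vecMulVec, vecMulVec_mul_vecMulVec, xw', hv₂, zero_smul, one_smul, vecMulVec_zero, zero_sub,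
        neg_eq_zero] at h0
      exact vecMulVec_ne_zero hp hq h0
    · rw [br_fst, hY1, hY1']
      unfold br
      have hQP : (1 - P₁) * P₁ = 0 := by
        rw [sub_mul, one_mul, hP₁, P_P hv₁, sub_self]
      have e : ∀ X X' : Matrix (Fin n₁) (Fin n₁) ℂ, P₁ * X * (1 - P₁) * (P₁ * X' * (1 - P₁)) = 0 := by
        intro X X'
        calc P₁ * X * (1 - P₁) * (P₁ * X' * (1 - P₁)) = P₁ * X * ((1 - P₁) * P₁) * (X' * (1 - P₁)) := by
              simp only [mul_assoc]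
          _ = 0 := by rw [hQP, mul_zero, zero_mul]
      rw [e, e, sub_self]

end Pool.Agent.Run7.h225.HG.PR

namespace Pool.Agent.Run7.h225.HG

theorem p_PAIR : S_PAIR := PR.main

end Pool.Agent.Run7.h225.HG
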