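import Pool.Agent.Run7.h225.HG.Iface6

/-!
# Project HYG, piece REFL2A (helper382): one block, not self-dual

Reusable: `OddB.vv_mul`, `OddB.trip` (the triple bracket of odd matrices), `OddB.slm_le` (the end of the
proofs of REFL2A and SIMP), `OddB.n0_add`, `OddB.ad_A`.
-/

set_option autoImplicit false

open Matrix

namespace Pool.Agent.Run7.h225.HG

namespace OddB

variable {n : ℕ}

lemma vv_mul (a b c d : Fin n → ℂ) : vecMulVec a b * vecMulVec c d = (b ⬝ᵥ c) • vecMulVec a d := by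
  rw [vecMulVec_mul_vecMulVec, vecMulVec_smul]

/-- the odd matrix `(ξ, w)` -/
noncomputable def om (v μ ξ w : Fin n → ℂ) : Matrix (Fin n) (Fin n) ℂ := vecMulVec v ξ + vecMulVec w μ

/-- the bracket of two odd matrices -/
lemma brk2 {v μ ξ w η u : Fin n → ℂ} (h1 : μ ⬝ᵥ v = 1) (hξ : ξ ⬝ᵥ v = 0) (hw : μ ⬝ᵥ w = 0) (hη : η ⬝ᵥ v = 0)
    (hu : μ ⬝ᵥ u = 0) : om v μ ξ w * om v μ η u - om v μ η u * om v μ ξ w =
      (ξ ⬝ᵥ u - η ⬝ᵥ w) • vecMulVec v μ + vecMulVec w η - vecMulVec u ξ := by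
  unfold om
  simp only [mul_add, add_mul, vv_mul, h1, hξ, hw, hη, hu]
  module

/-- the triple bracket of odd matrices -/
lemma trip {v μ ξ w η u ζ t : Fin n → ℂ} (h1 : μ ⬝ᵥ v = 1) (hξ : ξ ⬝ᵥ v = 0) (hw : μ ⬝ᵥ w = 0) (hη : η ⬝ᵥ v = 0)
    (hu : μ ⬝ᵥ u = 0) (hζ : ζ ⬝ᵥ v = 0) (ht : μ ⬝ᵥ t = 0) :
    (om v μ ξ w * om v μ η u - om v μ η u * om v μ ξ w) * om v μ ζ t -
      om v μ ζ t * (om v μ ξ w * om v μ η u - om v μ η u * om v μ ξ w) =
    om v μ ((ξ ⬝ᵥ u) • ζ - (η ⬝ᵥ w) • ζ - (ζ ⬝ᵥ w) • η + (ζ ⬝ᵥ u) • ξ)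
      ((η ⬝ᵥ t) • w - (ξ ⬝ᵥ t) • u - (ξ ⬝ᵥ u) • t + (η ⬝ᵥ w) • t) := by
  rw [brk2 h1 hξ hw hη hu]
  unfold om
  simp only [mul_add, add_mul, mul_sub, sub_mul, vv_mul, smul_mul_assoc, mul_smul_comm, h1, hξ, hw, hη, hu, hζ, ht,
    vecMulVec_add, vecMulVec_sub, vecMulVec_smul, add_vecMulVec, sub_vecMulVec, smul_vecMulVec]
  module

lemma n0_add (N P : Matrix (Fin n) (Fin n) ℂ) : n0 N P + offd P N = N := by
  unfold n0 offd
  noncomm_ring

/-- `ad(N₀)` on the elements -/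
lemma ad_n0 {N : Matrix (Fin n) (Fin n) ℂ} {v μ : Fin n → ℂ} {w ξ : ℕ → Fin n → ℂ} (h : OD N v μ w ξ) (m : ℕ) :
    n0 N (vecMulVec v μ) * vecMulVec v (ξ m) - vecMulVec v (ξ m) * n0 N (vecMulVec v μ) = vecMulVec v (ξ (m + 1)) ∧
    n0 N (vecMulVec v μ) * vecMulVec (w m) μ - vecMulVec (w m) μ * n0 N (vecMulVec v μ) = vecMulVec (w (m + 1)) μ := by
  constructor
  · rw [mul_vecMulVec, vecMulVec_mul, h.nv, h.nx, vecMulVec_sub, vecMulVec_smul, smul_vecMulVec]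
    module
  · rw [mul_vecMulVec, vecMulVec_mul, h.nw, h.nm, add_vecMulVec, vecMulVec_smul, smul_vecMulVec]
    module

lemma ad_A {N : Matrix (Fin n) (Fin n) ℂ} {v μ : Fin n → ℂ} {w ξ : ℕ → Fin n → ℂ} (h : OD N v μ w ξ) (m : ℕ) :
    n0 N (vecMulVec v μ) * om v μ (ξ m) (w m) - om v μ (ξ m) (w m) * n0 N (vecMulVec v μ) =
      om v μ (ξ (m + 1)) (w (m + 1)) := by
  unfold om
  obtain ⟨h1, h2⟩ := ad_n0 h m
  rw [← h1, ← h2]
  noncomm_ring

lemma ad_mem {N : Matrix (Fin n) (Fin n) ℂ} {v μ : Fin n → ℂ} {𝔤 : Submodule ℂ (Matrix (Fin n) (Fin n) ℂ)}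
    (hN : ∀ X ∈ 𝔤, N * X - X * N ∈ 𝔤) (hb : ∀ X ∈ 𝔤, ∀ Z ∈ 𝔤, X * Z - Z * X ∈ 𝔤) (h0 : offd (vecMulVec v μ) N ∈ 𝔤) :
    ∀ X ∈ 𝔤, n0 N (vecMulVec v μ) * X - X * n0 N (vecMulVec v μ) ∈ 𝔤 := by
  intro X hX
  have h1 := 𝔤.sub_mem (hN X hX) (hb _ h0 X hX)
  have e : N * X - X * N - (offd (vecMulVec v μ) N * X - X * offd (vecMulVec v μ) N) =
      n0 N (vecMulVec v μ) * X - X * n0 N (vecMulVec v μ) := by
    have e2 : n0 N (vecMulVec v μ) = N - offd (vecMulVec v μ) N := eq_sub_of_add_eq (n0_add N (vecMulVec v μ))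
    rw [e2]
    noncomm_ring
  rw [e] at h1
  exact h1

lemma A_mem {N : Matrix (Fin n) (Fin n) ℂ} {v μ : Fin n → ℂ} {w ξ : ℕ → Fin n → ℂ} (h : OD N v μ w ξ)
    {𝔤 : Submodule ℂ (Matrix (Fin n) (Fin n) ℂ)}
    (hN : ∀ X ∈ 𝔤, N * X - X * N ∈ 𝔤) (hb : ∀ X ∈ 𝔤, ∀ Z ∈ 𝔤, X * Z - Z * X ∈ 𝔤) (h0 : offd (vecMulVec v μ) N ∈ 𝔤)
    (m : ℕ) : om v μ (ξ m) (w m) ∈ 𝔤 := by
  induction m with
  | zero =>
    rw [h.od] at h0
    exact h0
  | succ m ih =>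
    rw [← ad_A h m]
    exact ad_mem hN hb h0 _ ih

/-- the end of the proofs of REFL2A and SIMP -/
lemma slm_le {v μ : Fin n → ℂ} (h1 : μ ⬝ᵥ v = 1) (𝔤 : Submodule ℂ (Matrix (Fin n) (Fin n) ℂ))
    (hv : ∀ η : Fin n → ℂ, η ⬝ᵥ v = 0 → vecMulVec v η ∈ 𝔤) (hμ : ∀ u : Fin n → ℂ, μ ⬝ᵥ u = 0 → vecMulVec u μ ∈ 𝔤)
    (hb : ∀ u η : Fin n → ℂ, μ ⬝ᵥ u = 0 → η ⬝ᵥ v = 0 →
      vecMulVec u μ * vecMulVec v η - vecMulVec v η * vecMulVec u μ ∈ 𝔤) : slm n ≤ 𝔤 := by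
  have key : ∀ x θ : Fin n → ℂ, θ ⬝ᵥ x = 0 → vecMulVec x θ ∈ 𝔤 := by
    intro x θ hxθ
    obtain ⟨a, ha⟩ : ∃ a, a = μ ⬝ᵥ x := ⟨_, rfl⟩
    obtain ⟨b, hb'⟩ : ∃ b, b = θ ⬝ᵥ v := ⟨_, rfl⟩
    obtain ⟨u, hu⟩ : ∃ u, u = x - a • v := ⟨_, rfl⟩
    obtain ⟨η, hη⟩ : ∃ η, η = θ - b • μ := ⟨_, rfl⟩
    have hx : x = a • v + u := by rw [hu]; abel
    have hθ : θ = b • μ + η := by rw [hη]; abel
    have hμu : μ ⬝ᵥ u = 0 := by rw [hu, dotProduct_sub, dotProduct_smul, h1, ← ha]; simp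
    have hηv : η ⬝ᵥ v = 0 := by rw [hη, sub_dotProduct, smul_dotProduct, h1, ← hb']; simp
    have hab : a * b + η ⬝ᵥ u = 0 := by
      rw [hx, hθ, dotProduct_add, add_dotProduct, add_dotProduct, dotProduct_smul, dotProduct_smul, smul_dotProduct,
        smul_dotProduct, h1, hηv, hμu] at hxθ
      simp only [smul_eq_mul, mul_one, mul_zero, add_zero, zero_add] at hxθ
      exact hxθ
    have h2 := hb u η hμu hηv
    rw [vv_mul, vv_mul, h1, one_smul] at h2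
    have h3 := 𝔤.add_mem (𝔤.add_mem (𝔤.smul_mem a (hv η hηv)) (𝔤.smul_mem b (hμ u hμu))) h2
    have e : vecMulVec x θ = a • vecMulVec v η + b • vecMulVec u μ +
        (vecMulVec u η - (η ⬝ᵥ u) • vecMulVec v μ) := by
      rw [show η ⬝ᵥ u = -(a * b) by linear_combination hab, hx, hθ]
      simp only [add_vecMulVec, vecMulVec_add, smul_vecMulVec, vecMulVec_smul]
      module
    rw [e]
    exact h3
  intro X hX
  rw [mem_slm] at hX
  rcases Nat.eq_zero_or_pos n with hn | hn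
  · subst hn
    have : X = 0 := Subsingleton.elim _ _
    rw [this]; exact 𝔤.zero_mem
  · obtain ⟨o, -⟩ : ∃ o : Fin n, True := ⟨⟨0, hn⟩, trivial⟩
    have hE : ∀ i j : Fin n, Matrix.single i j (1 : ℂ) = vecMulVec (Pi.single i 1) (Pi.single j 1) := by
      intro i j
      exact single_eq_single_vecMulVec_single i j
    have hdot : ∀ i j : Fin n, (Pi.single i (1 : ℂ) : Fin n → ℂ) ⬝ᵥ Pi.single j 1 = if i = j then 1 else 0 := by
      intro i j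
      simp [Pi.single_apply, eq_comm]
    have hoff : ∀ i j : Fin n, i ≠ j → Matrix.single i j (1 : ℂ) ∈ 𝔤 := by
      intro i j hij
      rw [hE]
      apply key
      rw [hdot, if_neg (Ne.symm hij)]
    have hdiag : ∀ i : Fin n, Matrix.single i i (1 : ℂ) - Matrix.single o o 1 ∈ 𝔤 := by
      intro i
      by_cases hio : i = o
      · rw [hio, sub_self]; exact 𝔤.zero_mem
      · have h3 := key (Pi.single i 1 - Pi.single o 1) (Pi.single i 1 + Pi.single o 1) (by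
          rw [add_dotProduct, dotProduct_sub, dotProduct_sub, hdot, hdot, hdot, hdot, if_pos rfl, if_pos rfl, if_neg hio,
            if_neg (Ne.symm hio)]
          ring)
        rw [sub_vecMulVec, vecMulVec_add, vecMulVec_add, ← hE, ← hE, ← hE, ← hE] at h3
        have h4 := 𝔤.add_mem (𝔤.sub_mem h3 (hoff i o hio)) (hoff o i (Ne.symm hio))
        have e : single i i (1 : ℂ) + single i o 1 - (single o i 1 + single o o 1) - single i o 1 + single o i 1 =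
            single i i (1 : ℂ) - single o o 1 := by abel
        rw [e] at h4
        exact h4
    have hXsum : X = ∑ i, ∑ j, (if i = j then X i i • (Matrix.single i i (1 : ℂ) - Matrix.single o o 1) else
        X i j • Matrix.single i j (1 : ℂ)) := by
      have e1 : ∀ i j : Fin n, (if i = j then X i i • (Matrix.single i i (1 : ℂ) - Matrix.single o o 1) else
          X i j • Matrix.single i j (1 : ℂ)) = Matrix.single i j (X i j) - (if i = j then X i i • Matrix.single o o 1 else 0) := by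
        intro i j
        split_ifs with h
        · subst h
          rw [smul_sub]
          congr 1
          rw [Matrix.smul_single, smul_eq_mul, mul_one]
        · rw [sub_zero, Matrix.smul_single, smul_eq_mul, mul_one]
      simp_rw [e1, Finset.sum_sub_distrib]
      rw [← matrix_eq_sum_single X]
      have e2 : ∑ i : Fin n, ∑ j : Fin n, (if i = j then X i i • Matrix.single o o (1 : ℂ) else 0) = 0 := by
        simp only [Finset.sum_ite_eq, Finset.mem_univ, if_true]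
        rw [← Finset.sum_smul]
        have : ∑ i, X i i = X.trace := rfl
        rw [this, hX, zero_smul]
      rw [e2, sub_zero]
    rw [hXsum]
    refine 𝔤.sum_mem fun i _ => 𝔤.sum_mem fun j _ => ?_
    split_ifs with h
    · exact 𝔤.smul_mem _ (hdiag i)
    · exact 𝔤.smul_mem _ (hoff i j h)

end OddB

open OddB

theorem p_REFL2A : S_REFL2A := by
  intro n N v μ w ξ h 𝔤 hN hb h0 ⟨b, hbo, hbh⟩
  have hA := A_mem h hN hb h0
  have had := ad_mem (v := v) (μ := μ) hN hb h0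
  have h00 : ξ 0 ⬝ᵥ w 0 = hm N v μ 0 := by rw [h.h]; simp
  have h0b : ξ 0 ⬝ᵥ w b = hm N v μ b := by rw [h.h]; simp
  have hb0 : ξ b ⬝ᵥ w 0 = -hm N v μ b := by rw [h.h, hbo.neg_one_pow]; simp
  -- the identity (I2)
  have hT := trip h.mv (h.xv 0) (h.mw 0) (h.xv b) (h.mw b) (h.xv 0) (h.mw 0)
  have hTm : om v μ ((ξ 0 ⬝ᵥ w b) • ξ 0 - (ξ b ⬝ᵥ w 0) • ξ 0 - (ξ 0 ⬝ᵥ w 0) • ξ b + (ξ 0 ⬝ᵥ w b) • ξ 0)
      ((ξ b ⬝ᵥ w 0) • w 0 - (ξ 0 ⬝ᵥ w 0) • w b - (ξ 0 ⬝ᵥ w b) • w 0 + (ξ b ⬝ᵥ w 0) • w 0) ∈ 𝔤 := by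
    rw [← hT]
    exact hb _ (hb _ (hA 0) _ (hA b)) _ (hA 0)
  rw [h00, h0b, hb0] at hTm
  have hv0 : vecMulVec v (ξ 0) ∈ 𝔤 := by
    have h3 := 𝔤.add_mem (𝔤.add_mem hTm (𝔤.smul_mem (hm N v μ 0) (hA b))) (𝔤.smul_mem (3 * hm N v μ b) (hA 0))
    have e : om v μ (hm N v μ b • ξ 0 - -hm N v μ b • ξ 0 - hm N v μ 0 • ξ b + hm N v μ b • ξ 0)
        (-hm N v μ b • w 0 - hm N v μ 0 • w b - hm N v μ b • w 0 + -hm N v μ b • w 0) +
        hm N v μ 0 • om v μ (ξ b) (w b) + (3 * hm N v μ b) • om v μ (ξ 0) (w 0) = (6 * hm N v μ b) • vecMulVec v (ξ 0) := by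
      unfold om
      simp only [vecMulVec_add, vecMulVec_sub, vecMulVec_smul, add_vecMulVec, sub_vecMulVec, smul_vecMulVec]
      module
    rw [e] at h3
    have h4 := 𝔤.smul_mem (6 * hm N v μ b)⁻¹ h3
    rwa [smul_smul, inv_mul_cancel₀ (mul_ne_zero (by norm_num) hbh), one_smul] at h4
  have hw0 : vecMulVec (w 0) μ ∈ 𝔤 := by
    have h3 := 𝔤.sub_mem (hA 0) hv0
    unfold om at h3
    rwa [add_sub_cancel_left] at h3
  have hvm : ∀ m, vecMulVec v (ξ m) ∈ 𝔤 := by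
    intro m
    induction m with
    | zero => exact hv0
    | succ m ih => rw [← (ad_n0 h m).1]; exact had _ ih
  have hwm : ∀ m, vecMulVec (w m) μ ∈ 𝔤 := by
    intro m
    induction m with
    | zero => exact hw0
    | succ m ih => rw [← (ad_n0 h m).2]; exact had _ ih
  have hv : ∀ η : Fin n → ℂ, η ⬝ᵥ v = 0 → vecMulVec v η ∈ 𝔤 := by
    intro η hη
    have h3 := h.sx η hη
    clear hη
    induction h3 using Submodule.span_induction with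
    | mem x hx => obtain ⟨m, rfl⟩ := hx; exact hvm m
    | zero => rw [vecMulVec_zero]; exact 𝔤.zero_mem
    | add x y _ _ hx hy => rw [vecMulVec_add]; exact 𝔤.add_mem hx hy
    | smul c x _ hx => rw [vecMulVec_smul]; exact 𝔤.smul_mem _ hx
  have hμ : ∀ u : Fin n → ℂ, μ ⬝ᵥ u = 0 → vecMulVec u μ ∈ 𝔤 := by
    intro u hu
    have h3 := h.sw u hu
    clear hu
    induction h3 using Submodule.span_induction with
    | mem x hx => obtain ⟨m, rfl⟩ := hx; exact hwm m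
    | zero => rw [zero_vecMulVec]; exact 𝔤.zero_mem
    | add x y _ _ hx hy => rw [add_vecMulVec]; exact 𝔤.add_mem hx hy
    | smul c x _ hx => rw [smul_vecMulVec]; exact 𝔤.smul_mem _ hx
  exact slm_le h.mv 𝔤 hv hμ fun u η hu hη => hb _ (hμ u hu) _ (hv η hη)

end Pool.Agent.Run7.h225.HG
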