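import Pool.Agent.Run7.h225.HG.ODO

/-! Project HYG (helper225), piece REFLO, by helper68. -/

set_option autoImplicit false

open Matrix

namespace Pool.Agent.Run7.h225.HG

lemma h68_vmv_mul {n : ℕ} (a b x y : Fin n → ℂ) :
    vecMulVec a b * vecMulVec x y = (b ⬝ᵥ x) • vecMulVec a y := by
  rw [vecMulVec_mul_vecMulVec]
  ext i j
  simp only [vecMulVec_apply, Matrix.smul_apply, smul_eq_mul, Pi.smul_apply]
  ring

lemma h68_mul_vmv {n : ℕ} (M : Matrix (Fin n) (Fin n) ℂ) (a b : Fin n → ℂ) :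
    M * vecMulVec a b = vecMulVec (M *ᵥ a) b := by
  rw [mul_vecMulVec]

lemma h68_vmv_mulM {n : ℕ} (M : Matrix (Fin n) (Fin n) ℂ) (a b : Fin n → ℂ) :
    vecMulVec a b * M = vecMulVec a (b ᵥ* M) := by
  rw [vecMulVec_mul]

/-- the skew matrix `x ⊗ J y - y ⊗ J x` -/
noncomputable def h68_B {n : ℕ} (J : Matrix (Fin n) (Fin n) ℂ) (x y : Fin n → ℂ) : Matrix (Fin n) (Fin n) ℂ :=
  vecMulVec x (J *ᵥ y) - vecMulVec y (J *ᵥ x)

/-- every skew matrix is a combination of the `x ⊗ J y - y ⊗ J x` -/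
lemma h68_som_le {n : ℕ} (J : Matrix (Fin n) (Fin n) ℂ) (hs : J.transpose = J) (hd : J.det ≠ 0)
    (𝔤 : Submodule ℂ (Matrix (Fin n) (Fin n) ℂ)) (hB : ∀ x y, h68_B J x y ∈ 𝔤) : som J ≤ 𝔤 := by
  intro Z hZ
  rw [mem_som] at hZ
  have hu : IsUnit J.det := isUnit_iff_ne_zero.2 hd
  have h1 : Z.transpose = -(J * Z * J⁻¹) := by
    have h2 : Z.transpose * J = -(J * Z) := eq_neg_of_add_eq_zero_left hZ
    calc Z.transpose = Z.transpose * J * J⁻¹ := by rw [Matrix.mul_nonsing_inv_cancel_right _ _ hu]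
      _ = -(J * Z * J⁻¹) := by rw [h2, Matrix.neg_mul]
  have hA : (Z * J⁻¹).transpose = -(Z * J⁻¹) := by
    rw [transpose_mul, transpose_nonsing_inv, hs, h1, Matrix.mul_neg, ← Matrix.mul_assoc, ← Matrix.mul_assoc,
      Matrix.nonsing_inv_mul _ hu, Matrix.one_mul]
  have hZ2 : Z = (1 / 2 : ℂ) • ∑ i, ∑ j, (Z * J⁻¹) i j • h68_B J (Pi.single i 1) (Pi.single j 1) := by
    set A := Z * J⁻¹ with hAd
    have hZA : Z = A * J := by rw [hAd, Matrix.nonsing_inv_mul_cancel_right _ _ hu]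
    have hAs : ∀ i j, A i j = -A j i := by
      intro i j
      have := congrFun (congrFun hA j) i
      simpa [transpose_apply] using this
    ext k l
    rw [Matrix.smul_apply, Matrix.sum_apply, smul_eq_mul]
    have h3 : ∀ i, (∑ j, A i j • h68_B J (Pi.single i 1) (Pi.single j 1)) k l
        = ∑ j, (A i j * ((Pi.single i (1 : ℂ) : Fin n → ℂ) k * J l j)
          - A i j * ((Pi.single j (1 : ℂ) : Fin n → ℂ) k * J l i)) := by
      intro i
      rw [Matrix.sum_apply]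
      refine Finset.sum_congr rfl fun j _ => ?_
      simp only [h68_B, Matrix.smul_apply, Matrix.sub_apply, vecMulVec_apply, smul_eq_mul,
        mulVec_single_one, Matrix.col_apply]
      ring
    simp only [h3, Finset.sum_sub_distrib]
    have h4 : ∑ i, ∑ j, A i j * ((Pi.single i (1 : ℂ) : Fin n → ℂ) k * J l j) = ∑ j, A k j * J l j := by
      rw [Finset.sum_eq_single k]
      · simp
      · intro b _ hb
        refine Finset.sum_eq_zero fun j _ => ?_
        rw [Pi.single_eq_of_ne hb.symm]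
        ring
      · intro hk
        exact absurd (Finset.mem_univ k) hk
    have h5 : ∑ i, ∑ j, A i j * ((Pi.single j (1 : ℂ) : Fin n → ℂ) k * J l i) = -∑ j, A k j * J l j := by
      rw [Finset.sum_comm, Finset.sum_eq_single k]
      · rw [← Finset.sum_neg_distrib]
        refine Finset.sum_congr rfl fun j _ => ?_
        rw [Pi.single_eq_same, hAs j k]
        ring
      · intro b _ hb
        refine Finset.sum_eq_zero fun j _ => ?_
        rw [Pi.single_eq_of_ne hb.symm]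
        ring
      · intro hk
        exact absurd (Finset.mem_univ k) hk
    rw [h4, h5, sub_neg_eq_add, hZA, Matrix.mul_apply]
    have h6 : ∀ j, J l j = J j l := by
      intro j
      have := congrFun (congrFun hs j) l
      simpa [transpose_apply] using this
    simp only [h6]
    ring
  rw [hZ2]
  exact 𝔤.smul_mem _ (Submodule.sum_mem _ fun i _ => Submodule.sum_mem _ fun j _ => 𝔤.smul_mem _ (hB _ _))

/-- `A_m ∈ 𝔤` for all `m` -/
lemma h68_Am {n : ℕ} {N : Matrix (Fin n) (Fin n) ℂ} {v μ : Fin n → ℂ} {w ξ : ℕ → Fin n → ℂ} (h : OD N v μ w ξ)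
    (𝔤 : Submodule ℂ (Matrix (Fin n) (Fin n) ℂ)) (hN : ∀ X ∈ 𝔤, N * X - X * N ∈ 𝔤)
    (hb : ∀ X ∈ 𝔤, ∀ Z ∈ 𝔤, X * Z - Z * X ∈ 𝔤) (ho : offd (vecMulVec v μ) N ∈ 𝔤) :
    ∀ m, vecMulVec v (ξ m) + vecMulVec (w m) μ ∈ 𝔤 := by
  intro m
  induction m with
  | zero =>
    rw [← h.od]
    exact ho
  | succ m ih =>
    set P := vecMulVec v μ with hP
    set X := vecMulVec v (ξ m) + vecMulVec (w m) μ with hX
    have h1 : n0 N P * X - X * n0 N P ∈ 𝔤 := by
      have h2 : n0 N P = N - offd P N := by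
        rw [eq_sub_iff_add_eq]
        exact h68_dec P N
      have h3 : n0 N P * X - X * n0 N P = (N * X - X * N) - (offd P N * X - X * offd P N) := by
        rw [h2]
        noncomm_ring
      rw [h3]
      exact 𝔤.sub_mem (hN _ ih) (hb _ ho _ ih)
    have h4 : n0 N P * X - X * n0 N P = vecMulVec v (ξ (m + 1)) + vecMulVec (w (m + 1)) μ := by
      rw [hX, Matrix.mul_add, Matrix.add_mul, h68_mul_vmv, h68_mul_vmv, h68_vmv_mulM, h68_vmv_mulM, h.nv, h.nm,
        h.nw, h.nx]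
      ext i j
      simp only [Matrix.sub_apply, Matrix.add_apply, vecMulVec_apply, Pi.smul_apply, Pi.sub_apply, Pi.add_apply,
        smul_eq_mul]
      ring
    rw [← h4]
    exact h1

theorem p_REFLO : S_REFLO := by
  intro n N J v μ w ξ h o 𝔤 hN hb ho
  obtain ⟨-, c, c0, hc, hJw⟩ := p_ODO n N J v μ w ξ h o
  have hJT : ∀ x : Fin n → ℂ, x ᵥ* J = J *ᵥ x := by
    intro x
    rw [← vecMul_transpose, o.sym]
  have hsym : ∀ x y : Fin n → ℂ, (J *ᵥ x) ⬝ᵥ y = (J *ᵥ y) ⬝ᵥ x := by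
    intro x y
    rw [dotProduct_comm, dotProduct_mulVec, hJT]
  have hA := h68_Am h 𝔤 hN hb ho
  -- all `X_u` are in `𝔤`
  have hX : ∀ u : Fin n → ℂ, μ ⬝ᵥ u = 0 → vecMulVec v (-(c⁻¹ • (J *ᵥ u))) + vecMulVec u μ ∈ 𝔤 := by
    intro u hu
    refine Submodule.span_induction (p := fun u _ => vecMulVec v (-(c⁻¹ • (J *ᵥ u))) + vecMulVec u μ ∈ 𝔤)
      ?_ ?_ ?_ ?_ (h.sw u hu)
    · rintro _ ⟨m, rfl⟩
      rw [hJw, smul_neg, neg_neg, smul_smul, inv_mul_cancel₀ c0, one_smul]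
      exact hA m
    · have h1 : vecMulVec v (-(c⁻¹ • (J *ᵥ (0 : Fin n → ℂ)))) + vecMulVec (0 : Fin n → ℂ) μ = 0 := by
        rw [mulVec_zero, smul_zero, neg_zero, vecMulVec_zero, zero_vecMulVec, add_zero]
      rw [h1]
      exact 𝔤.zero_mem
    · intro x y _ _ hx hy
      have h1 : vecMulVec v (-(c⁻¹ • (J *ᵥ (x + y)))) + vecMulVec (x + y) μ
          = (vecMulVec v (-(c⁻¹ • (J *ᵥ x))) + vecMulVec x μ) + (vecMulVec v (-(c⁻¹ • (J *ᵥ y))) + vecMulVec y μ) := by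
        rw [mulVec_add]
        ext i j
        simp only [Matrix.add_apply, vecMulVec_apply, Pi.smul_apply, Pi.neg_apply, Pi.add_apply, smul_eq_mul]
        ring
      rw [h1]
      exact 𝔤.add_mem hx hy
    · intro a x _ hx
      have h1 : vecMulVec v (-(c⁻¹ • (J *ᵥ (a • x)))) + vecMulVec (a • x) μ
          = a • (vecMulVec v (-(c⁻¹ • (J *ᵥ x))) + vecMulVec x μ) := by
        rw [mulVec_smul]
        ext i j
        simp only [Matrix.add_apply, Matrix.smul_apply, vecMulVec_apply, Pi.smul_apply, Pi.neg_apply, smul_eq_mul]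
        ring
      rw [h1]
      exact 𝔤.smul_mem _ hx
  -- brackets of the `X_u`
  have hBU : ∀ u t : Fin n → ℂ, μ ⬝ᵥ u = 0 → μ ⬝ᵥ t = 0 → h68_B J u t ∈ 𝔤 := by
    intro u t hu ht
    have h1 := hb _ (hX u hu) _ (hX t ht)
    have hJv : ∀ x : Fin n → ℂ, (J *ᵥ x) ⬝ᵥ v = c * (μ ⬝ᵥ x) := by
      intro x
      rw [hsym, hc, smul_dotProduct, smul_eq_mul]
    have h2 : (vecMulVec v (-(c⁻¹ • (J *ᵥ u))) + vecMulVec u μ) * (vecMulVec v (-(c⁻¹ • (J *ᵥ t))) + vecMulVec t μ)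
        - (vecMulVec v (-(c⁻¹ • (J *ᵥ t))) + vecMulVec t μ) * (vecMulVec v (-(c⁻¹ • (J *ᵥ u))) + vecMulVec u μ)
        = (-c⁻¹) • h68_B J u t := by
      simp only [Matrix.mul_add, Matrix.add_mul, h68_vmv_mul, neg_dotProduct, smul_dotProduct, hJv, hu, ht, h.mv,
        hsym t u, h68_B]
      ext i j
      simp only [Matrix.sub_apply, Matrix.add_apply, Matrix.smul_apply, vecMulVec_apply, Pi.smul_apply, Pi.neg_apply,
        smul_eq_mul]
      ring
    rw [h2] at h1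
    have h3 : h68_B J u t = (-c) • ((-c⁻¹) • h68_B J u t) := by
      rw [smul_smul, neg_mul_neg, mul_inv_cancel₀ c0, one_smul]
    rw [h3]
    exact 𝔤.smul_mem _ h1
  refine h68_som_le J o.sym o.det 𝔤 fun x y => ?_
  -- decomposition of `x` and `y`
  set a := μ ⬝ᵥ x with ha
  set b := μ ⬝ᵥ y with hbb
  have hu : μ ⬝ᵥ (x - a • v) = 0 := by
    rw [dotProduct_sub, dotProduct_smul, h.mv, smul_eq_mul, mul_one, ha, sub_self]
  have ht : μ ⬝ᵥ (y - b • v) = 0 := by
    rw [dotProduct_sub, dotProduct_smul, h.mv, smul_eq_mul, mul_one, hbb, sub_self]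
  have hBv : ∀ t : Fin n → ℂ, μ ⬝ᵥ t = 0 → h68_B J v t ∈ 𝔤 := by
    intro t ht
    have h1 : h68_B J v t = (-c) • (vecMulVec v (-(c⁻¹ • (J *ᵥ t))) + vecMulVec t μ) := by
      rw [h68_B, hc]
      ext i j
      simp only [Matrix.sub_apply, Matrix.add_apply, Matrix.smul_apply, vecMulVec_apply, Pi.smul_apply, Pi.neg_apply,
        smul_eq_mul]
      field_simp
      ring
    rw [h1]
    exact 𝔤.smul_mem _ (hX t ht)
  have h1 : h68_B J x y = a • h68_B J v (y - b • v) - b • h68_B J v (x - a • v) + h68_B J (x - a • v) (y - b • v) := by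
    simp only [h68_B, mulVec_sub, mulVec_smul]
    ext i j
    simp only [Matrix.sub_apply, Matrix.add_apply, Matrix.smul_apply, vecMulVec_apply, Pi.smul_apply, Pi.sub_apply,
      smul_eq_mul]
    ring
  rw [h1]
  exact 𝔤.add_mem (𝔤.sub_mem (𝔤.smul_mem _ (hBv _ ht)) (𝔤.smul_mem _ (hBv _ hu))) (hBU _ _ hu ht)

end Pool.Agent.Run7.h225.HG
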