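import Pool.Agent.Run7.h225.HG.Iface6

/-!
# Piece RIB: Goursat, Kolchin, Ribet for Lie algebras (helper136)
-/

set_option autoImplicit false

namespace Run7.h136.HG

section
variable {ι : Type} {n : ι → ℕ}

/-- the `j`-th components of the elements of `𝔤` vanishing on `F` -/
def KF (𝔤 : Submodule ℂ (∀ j, Matrix (Fin (n j)) (Fin (n j)) ℂ)) (F : Finset ι) (j : ι) :
    Submodule ℂ (Matrix (Fin (n j)) (Fin (n j)) ℂ) where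
  carrier := {Z | ∃ X ∈ 𝔤, (∀ i ∈ F, X i = 0) ∧ X j = Z}
  zero_mem' := ⟨0, 𝔤.zero_mem, fun _ _ => rfl, rfl⟩
  add_mem' := by
    rintro a b ⟨X, hX, hX0, rfl⟩ ⟨Y, hY, hY0, rfl⟩
    exact ⟨X + Y, 𝔤.add_mem hX hY, fun i hi => by rw [Pi.add_apply, hX0 i hi, hY0 i hi, add_zero],
      rfl⟩
  smul_mem' := by
    rintro c a ⟨X, hX, hX0, rfl⟩
    exact ⟨c • X, 𝔤.smul_mem c hX, fun i hi => by rw [Pi.smul_apply, hX0 i hi, smul_zero], rfl⟩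

theorem mem_KF {𝔤 : Submodule ℂ (∀ j, Matrix (Fin (n j)) (Fin (n j)) ℂ)} {F : Finset ι} {j : ι}
    {Z : Matrix (Fin (n j)) (Fin (n j)) ℂ} :
    Z ∈ KF 𝔤 F j ↔ ∃ X ∈ 𝔤, (∀ i ∈ F, X i = 0) ∧ X j = Z := Iff.rfl

end

theorem rib (ι : Type) [Fintype ι] [DecidableEq ι] (n : ι → ℕ) (ρ : ∀ j, Matrix (Fin (n j)) (Fin (n j)) ℂ)
  (L : ∀ j, Submodule ℂ (Matrix (Fin (n j)) (Fin (n j)) ℂ)) (𝔤 : Submodule ℂ (∀ j, Matrix (Fin (n j)) (Fin (n j)) ℂ))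
  (h1 : ∀ X ∈ 𝔤, ρ * X * ρ ∈ 𝔤) (h2 : ∀ X ∈ 𝔤, ∀ Z ∈ 𝔤, X * Z - Z * X ∈ 𝔤) (h3 : ∀ X ∈ 𝔤, ∀ j, X j ∈ L j)
  (h4 : ∀ j, ∀ Z ∈ L j, ∃ X ∈ 𝔤, X j = Z)
  (h5 : ∀ j, ∀ K : Submodule ℂ (Matrix (Fin (n j)) (Fin (n j)) ℂ), K ≤ L j → (∀ X ∈ K, ρ j * X * ρ j ∈ K) →
    (∀ X ∈ K, ∀ Z ∈ L j, X * Z - Z * X ∈ K) → K ≠ ⊥ → L j ≤ K)
  (h6 : ∀ j, ∃ X ∈ L j, ∃ Z ∈ L j, X * Z - Z * X ≠ 0)
  (h7 : ∀ i j, i ≠ j → ∃ X ∈ 𝔤, (X i = 0 ∧ X j ≠ 0) ∨ (X i ≠ 0 ∧ X j = 0)) :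
  ∀ j, ∀ Z ∈ L j, (Pi.single j Z : ∀ j, Matrix (Fin (n j)) (Fin (n j)) ℂ) ∈ 𝔤 := by
  -- dichotomy
  have dich : ∀ (F : Finset ι) (j : ι) (Z : Matrix (Fin (n j)) (Fin (n j)) ℂ), Z ∈ KF 𝔤 F j → Z ≠ 0 →
      L j ≤ KF 𝔤 F j := by
    intro F j Z hZ hZ0
    apply h5 j
    · rintro _ ⟨X, hX, _, rfl⟩
      exact h3 X hX j
    · rintro _ ⟨X, hX, hX0, rfl⟩
      refine ⟨ρ * X * ρ, h1 X hX, fun i hi => ?_, rfl⟩
      show ρ i * X i * ρ i = 0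
      rw [hX0 i hi, mul_zero, zero_mul]
    · rintro _ ⟨X, hX, hX0, rfl⟩ Y hY
      obtain ⟨Z', hZ', rfl⟩ := h4 j Y hY
      refine ⟨X * Z' - Z' * X, h2 X hX Z' hZ', fun i hi => ?_, rfl⟩
      show X i * Z' i - Z' i * X i = 0
      rw [hX0 i hi, mul_zero, zero_mul, sub_zero]
    · intro h
      rw [h] at hZ
      exact hZ0 ((Submodule.mem_bot ℂ).1 hZ)
  -- one index
  have one : ∀ i j, i ≠ j → L j ≤ KF 𝔤 {i} j := by
    intro i j hij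
    obtain ⟨X, hX, h | h⟩ := h7 i j hij
    · refine dich {i} j (X j) ⟨X, hX, ?_, rfl⟩ h.2
      intro l hl
      rw [Finset.mem_singleton.1 hl]
      exact h.1
    · have h8 : L i ≤ KF 𝔤 {j} i := by
        refine dich {j} i (X i) ⟨X, hX, ?_, rfl⟩ h.1
        intro l hl
        rw [Finset.mem_singleton.1 hl]
        exact h.2
      intro Y hY
      obtain ⟨Z, hZ, rfl⟩ := h4 j Y hY
      obtain ⟨X', hX', hX'0, hX'i⟩ := h8 (h3 Z hZ i)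
      refine ⟨Z - X', 𝔤.sub_mem hZ hX', ?_, ?_⟩
      · intro l hl
        rw [Finset.mem_singleton.1 hl, Pi.sub_apply, hX'i, sub_self]
      · rw [Pi.sub_apply, hX'0 j (Finset.mem_singleton_self j), sub_zero]
  -- all finite sets
  have all : ∀ (j : ι) (F : Finset ι), j ∉ F → L j ≤ KF 𝔤 F j := by
    intro j F
    induction F using Finset.induction_on with
    | empty =>
      intro _ Z hZ
      obtain ⟨X, hX, hXj⟩ := h4 j Z hZ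
      exact ⟨X, hX, fun i hi => absurd hi (Finset.notMem_empty i), hXj⟩
    | insert i F hi ih =>
      intro hj
      rw [Finset.mem_insert, not_or] at hj
      have hF := ih hj.2
      have hi' := one i j (Ne.symm hj.1)
      obtain ⟨A, hA, B, hB, hAB⟩ := h6 j
      obtain ⟨X, hX, hX0, rfl⟩ := hF hA
      obtain ⟨Y, hY, hY0, rfl⟩ := hi' hB
      refine dich (insert i F) j (X j * Y j - Y j * X j) ⟨X * Y - Y * X, h2 X hX Y hY, ?_, rfl⟩ hAB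
      intro l hl
      show X l * Y l - Y l * X l = 0
      rcases Finset.mem_insert.1 hl with rfl | hl
      · rw [hY0 l (Finset.mem_singleton_self l), mul_zero, zero_mul, sub_zero]
      · rw [hX0 l hl, mul_zero, zero_mul, sub_zero]
  intro j Z hZ
  obtain ⟨X, hX, hX0, hXj⟩ := all j (Finset.univ.erase j) (Finset.notMem_erase j _) hZ
  have : (Pi.single j Z : ∀ j, Matrix (Fin (n j)) (Fin (n j)) ℂ) = X := by
    funext i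
    by_cases hij : i = j
    · subst hij
      rw [Pi.single_eq_same, hXj]
    · rw [Pi.single_eq_of_ne hij, hX0 i (Finset.mem_erase.2 ⟨hij, Finset.mem_univ i⟩)]
  rw [this]
  exact hX

end Run7.h136.HG

namespace Pool.Agent.Run7.h225.HG

theorem p_RIB : S_RIB := fun ι _ _ n ρ L 𝔤 h1 h2 h3 h4 h5 h6 h7 =>
  _root_.Run7.h136.HG.rib ι n ρ L 𝔤 h1 h2 h3 h4 h5 h6 h7

end Pool.Agent.Run7.h225.HG
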