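import Pool.Agent.Run7.h225.HG.SEPR
import Pool.Agent.Run7.h225.HG.Iface6

/-!
# SEPR2: separation of complex reflections, reflections of order two allowed (project HYG, helper225; piece by helper617)
-/

set_option autoImplicit false

open Matrix

namespace Pool.Agent.Run7.h225.HG

noncomputable section

namespace SEPR

section main2

variable {r : ℕ} {n : Fin r → ℕ} {N : ∀ j, Matrix (Fin (n j)) (Fin (n j)) ℂ}
  {S : Submonoid (∀ j, Matrix (Fin (n j)) (Fin (n j)) ℂ)}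
  {𝔤 : Submodule ℂ (∀ j, Matrix (Fin (n j)) (Fin (n j)) ℂ)}

lemma fun_mem2 (h : LP N S 𝔤) (P : ∀ j, Matrix (Fin (n j)) (Fin (n j)) ℂ) (hP : ∀ j, P j * P j = P j)
    (ζ : Fin r → ℂ) (hζ : ∀ j, ζ j ≠ 0) (h1 : (fun j => 1 + (ζ j - 1) • P j) ∈ S)
    (h2 : (fun j => 1 + ((ζ j)⁻¹ - 1) • P j) ∈ S) (hz : ∀ j, P j = 0 ∨ ζ j ≠ 1) (F : ℂ → ℂ) :
    el N P (fun j => F (ζ j)) (fun j => F (ζ j)⁻¹) ∈ 𝔤 := by
  classical
  set s : Finset ℂ := ((Finset.univ.image ζ) ∪ (Finset.univ.image fun j => (ζ j)⁻¹)).erase 1 with hs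
  set p := Lagrange.interpolate s id (fun x => F x / (1 - x)) with hp
  have hev : ∀ x ∈ s, p.eval x * (1 - x) = F x := by
    intro x hx
    have h4 := Lagrange.eval_interpolate_at_node (fun x => F x / (1 - x)) (s := s) (v := id)
      Function.injective_id.injOn hx
    rw [id] at h4
    rw [hp, h4, div_mul_cancel₀]
    intro h5
    exact (Finset.mem_erase.1 hx).1 (by linear_combination -h5)
  refine (congrArg (· ∈ 𝔤) ?_).mp (poly_mem h P hP ζ hζ h1 h2 p)
  funext j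
  rcases hz j with h3 | h3
  · simp [el, h3]
  · have n1 : ζ j ≠ 1 := h3
    have n2 : (ζ j)⁻¹ ≠ 1 := by
      intro h4
      exact n1 (inv_eq_one.1 h4)
    simp only [el]
    rw [hev (ζ j) (Finset.mem_erase.2 ⟨n1, Finset.mem_union_left _ (Finset.mem_image_of_mem _ (Finset.mem_univ j))⟩),
      hev (ζ j)⁻¹ (Finset.mem_erase.2 ⟨n2, Finset.mem_union_right _
        (Finset.mem_image.2 ⟨j, Finset.mem_univ j, rfl⟩)⟩)]

theorem sepr2 (h : LP N S 𝔤) (v μ : ∀ j, Fin (n j) → ℂ) (ζ : Fin r → ℂ) (hζ : ∀ j, ζ j ≠ 0)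
    (hv : ∀ j, v j = 0 ∨ (μ j ⬝ᵥ v j = 1 ∧ ζ j ≠ 1))
    (h1 : (fun j => 1 + (ζ j - 1) • vecMulVec (v j) (μ j)) ∈ S)
    (h2 : (fun j => 1 + ((ζ j)⁻¹ - 1) • vecMulVec (v j) (μ j)) ∈ S)
    (hs : ∀ i j, i ≠ j → v i ≠ 0 → v j ≠ 0 → ζ i ^ 2 ≠ 1 → ζ j ^ 2 ≠ 1 →
      (ζ i = ζ j → ∃ m, hm (N i) (v i) (μ i) m ≠ hm (N j) (v j) (μ j) m) ∧
      (ζ i * ζ j = 1 → ∃ m, hm (N i) (v i) (μ i) m ≠ (-1) ^ m * hm (N j) (v j) (μ j) m)) :
    ∀ j, v j ≠ 0 → ζ j ^ 2 ≠ 1 → (Pi.single j (vecMulVec (v j) (μ j) * N j - vecMulVec (v j) (μ j) * N j * vecMulVec (v j) (μ j)) :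
      ∀ j, Matrix (Fin (n j)) (Fin (n j)) ℂ) ∈ 𝔤 := by
  classical
  intro j₀ hj₀ hj2
  set P : ∀ j, Matrix (Fin (n j)) (Fin (n j)) ℂ := fun j => vecMulVec (v j) (μ j) with hPdef
  have hP : ∀ j, P j * P j = P j := fun j => idem ((hv j).imp id And.left)
  have hz : ∀ j, P j = 0 ∨ ζ j ≠ 1 := fun j => (hv j).imp (fun h => by simp [hPdef, h]) And.right
  have hfm := fun_mem2 h P hP ζ hζ h1 h2 hz
  -- `N - N₀`
  set N0 : ∀ j, Matrix (Fin (n j)) (Fin (n j)) ℂ := fun j => n0 (N j) (P j) with hN0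
  have hN : N - N0 ∈ 𝔤 := by
    refine (congrArg (· ∈ 𝔤) ?_).mp (hfm fun _ => 1)
    funext j
    simp only [el, one_smul, Pi.sub_apply, hN0]
    exact (sub_n0 (P j) (N j)).symm
  have had : ∀ X ∈ 𝔤, N0 * X - X * N0 ∈ 𝔤 := by
    intro X hX
    refine (congrArg (· ∈ 𝔤) ?_).mp (𝔤.sub_mem (h.adN X hX) (h.brk _ hN _ hX))
    noncomm_ring
  have hadm : ∀ X ∈ 𝔤, ∀ m : ℕ, (fun X => N0 * X - X * N0)^[m] X ∈ 𝔤 := by
    intro X hX m
    induction m with
    | zero => exact hX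
    | succ m ih => rw [Function.iterate_succ_apply']; exact had _ ih
  set z := ζ j₀ with hzdef
  set T := el N P (fun j => if ζ j = z then 1 else 0) (fun j => if (ζ j)⁻¹ = z then 1 else 0) with hT
  set U := el N P (fun j => if ζ j = z⁻¹ then 1 else 0) (fun j => if (ζ j)⁻¹ = z⁻¹ then 1 else 0) with hU
  have hT𝔤 : T ∈ 𝔤 := hfm fun x => if x = z then 1 else 0
  have hU𝔤 : U ∈ 𝔤 := hfm fun x => if x = z⁻¹ then 1 else 0
  -- the three cases
  have hz0 : z ≠ 0 := hζ j₀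
  have tri : ∀ j, ((v j ≠ 0 ∧ ζ j ^ 2 ≠ 1) ∧ ζ j = z ∧ T j = P j * N j * (1 - P j) ∧ U j = (1 - P j) * N j * P j) ∨
      ((v j ≠ 0 ∧ ζ j ^ 2 ≠ 1) ∧ z * ζ j = 1 ∧ T j = (1 - P j) * N j * P j ∧ U j = P j * N j * (1 - P j)) ∨ T j = 0 := by
    intro j
    by_cases hvj : v j = 0
    · right; right
      have : P j = 0 := by simp [hPdef, hvj]
      simp [hT, el, this]
    have hzj := hζ j
    by_cases hz2 : ζ j ^ 2 = 1
    · right; right
      have m1 : ζ j ≠ z := fun h4 => hj2 (by rw [← h4]; exact hz2)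
      have m2 : (ζ j)⁻¹ ≠ z := fun h4 => hj2 (by rw [← h4, inv_pow, hz2, inv_one])
      simp only [hT, el, if_neg m1, if_neg m2, zero_smul, add_zero]
    by_cases hc : ζ j = z
    · left
      have n1 : (ζ j)⁻¹ ≠ z := by
        intro h4
        apply hz2
        rw [← hc] at h4
        rw [pow_two]
        nth_rewrite 1 [← h4]
        exact inv_mul_cancel₀ hzj
      have n2 : ζ j ≠ z⁻¹ := by
        intro h4
        apply n1
        rw [h4, inv_inv]
      refine ⟨⟨hvj, hz2⟩, hc, ?_, ?_⟩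
      · simp only [hT, el, if_pos hc, if_neg n1, one_smul, zero_smul, add_zero]
      · simp only [hU, el, if_neg n2, if_pos (congrArg (·⁻¹) hc), one_smul, zero_smul, zero_add]
    · right
      by_cases hd : (ζ j)⁻¹ = z
      · left
        have n3 : ζ j = z⁻¹ := by rw [← hd, inv_inv]
        have n4 : (ζ j)⁻¹ ≠ z⁻¹ := fun h4 => hc (inv_injective h4)
        refine ⟨⟨hvj, hz2⟩, ?_, ?_, ?_⟩
        · rw [n3]; exact mul_inv_cancel₀ hz0
        · simp only [hT, el, if_neg hc, if_pos hd, one_smul, zero_smul, zero_add]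
        · simp only [hU, el, if_pos n3, if_neg n4, one_smul, zero_smul, add_zero]
      · right
        simp only [hT, el, if_neg hc, if_neg hd, zero_smul, add_zero]
  have hAv : ∀ j, P j * N j * (1 - P j) = vecMulVec (v j) ((μ j ᵥ* N j) ᵥ* (1 - P j)) := fun j => by
    simp only [hPdef, vecMulVec_mul]
  have hBv : ∀ j, (1 - P j) * N j * P j = vecMulVec (((1 - P j) * N j) *ᵥ v j) (μ j) := fun j => by
    simp only [hPdef, mul_vecMulVec]
  have hr : ∀ j, ∀ Z, T j * Z * T j = (T j * Z).trace • T j := by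
    intro j Z
    rcases tri j with ⟨-, -, h3, -⟩ | ⟨-, -, h3, -⟩ | h3
    · rw [h3, hAv j]; exact rk1 _ _ Z
    · rw [h3, hBv j]; exact rk1 _ _ Z
    · rw [h3]; simp
  have hPQ : ∀ j, P j * (1 - P j) = 0 := fun j => by rw [mul_sub, mul_one, hP, sub_self]
  have hQP : ∀ j, (1 - P j) * P j = 0 := fun j => by rw [sub_mul, one_mul, hP, sub_self]
  have h0 : ∀ j, T j * T j = 0 := by
    intro j
    rcases tri j with ⟨-, -, h3, -⟩ | ⟨-, -, h3, -⟩ | h3
    · rw [h3]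
      calc _ = P j * N j * ((1 - P j) * P j) * N j * (1 - P j) := by simp only [mul_assoc]
        _ = 0 := by rw [hQP]; simp
    · rw [h3]
      calc _ = (1 - P j) * N j * (P j * (1 - P j)) * N j * P j := by simp only [mul_assoc]
        _ = 0 := by rw [hPQ]; simp
    · rw [h3, zero_mul]
  -- the traces
  set W : ℕ → ∀ j, Matrix (Fin (n j)) (Fin (n j)) ℂ := fun m => (fun X => N0 * X - X * N0)^[m] U with hW
  have hW𝔤 : ∀ m, W m ∈ 𝔤 := fun m => hadm U hU𝔤 m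
  have tr1 : ∀ j, v j ≠ 0 → ζ j = z → T j = P j * N j * (1 - P j) → U j = (1 - P j) * N j * P j → ∀ m,
      (T j * W m j).trace = hm (N j) (v j) (μ j) m := by
    intro j _ _ h3 h4 m
    simp only [hW]
    rw [iter_apply, h3, h4]
    rfl
  have tr2 : ∀ j, T j = (1 - P j) * N j * P j → U j = P j * N j * (1 - P j) → ∀ m,
      (T j * W m j).trace = (-1) ^ m * hm (N j) (v j) (μ j) m := by
    intro j h3 h4 m
    simp only [hW]
    rw [iter_apply, trace_ad_iter, h3, h4, trace_mul_comm]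
    rfl
  -- the first index
  have hT0 : T j₀ = P j₀ * N j₀ * (1 - P j₀) := by
    rcases tri j₀ with ⟨-, -, h3, -⟩ | ⟨-, h3, -, -⟩ | h3
    · exact h3
    · exfalso
      exact hj2 (by rw [pow_two]; exact h3)
    · have n1 : (ζ j₀)⁻¹ ≠ z := by
        intro h4
        apply hj2
        rw [pow_two]
        nth_rewrite 1 [← h4]
        exact inv_mul_cancel₀ hz0
      simp only [hT, el, ← hzdef, if_true, one_smul]
      rw [← hzdef] at n1
      rw [if_neg n1, zero_smul, add_zero]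
  have hU0 : U j₀ = (1 - P j₀) * N j₀ * P j₀ := by
    have n2 : z ≠ z⁻¹ := by
      intro h4
      apply hj2
      rw [pow_two]
      nth_rewrite 1 [h4]
      exact inv_mul_cancel₀ hz0
    simp only [hU, el, ← hzdef, if_neg n2, if_true, one_smul, zero_smul, zero_add]
  have htr0 := tr1 j₀ hj₀ rfl hT0 hU0
  have sepm : ∀ i, i ≠ j₀ → T i ≠ 0 → ∃ m, (T i * W m i).trace ≠ (T j₀ * W m j₀).trace := by
    intro i hi hTi
    rcases tri i with ⟨h3, h4, h5, h6⟩ | ⟨h3, h4, h5, h6⟩ | h3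
    · obtain ⟨m, hm'⟩ := (hs j₀ i hi.symm hj₀ h3.1 hj2 h3.2).1 h4.symm
      exact ⟨m, by rw [tr1 i h3.1 h4 h5 h6, htr0]; exact hm'.symm⟩
    · obtain ⟨m, hm'⟩ := (hs j₀ i hi.symm hj₀ h3.1 hj2 h3.2).2 h4
      exact ⟨m, by rw [tr2 i h5 h6, htr0]; exact hm'.symm⟩
    · exact absurd h3 hTi
  -- the product
  have hprod : ∀ s : Finset (Fin r), j₀ ∉ s → ∃ f : Fin r → ℂ, (fun j => f j • T j) ∈ 𝔤 ∧ f j₀ = 1 ∧
      ∀ i ∈ s, f i • T i = 0 := by
    intro s
    induction s using Finset.induction_on with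
    | empty =>
      intro _
      exact ⟨fun _ => 1, by simpa using hT𝔤, rfl, by simp⟩
    | insert a s ha ih =>
      intro hjs
      rw [Finset.mem_insert, not_or] at hjs
      obtain ⟨f, hf, hf1, hf2⟩ := ih hjs.2
      by_cases hTa : T a = 0
      · refine ⟨f, hf, hf1, fun i hi => ?_⟩
        rcases Finset.mem_insert.1 hi with rfl | hi
        · rw [hTa, smul_zero]
        · exact hf2 i hi
      obtain ⟨m, hm'⟩ := sepm a (Ne.symm hjs.1) hTa
      set t : Fin r → ℂ := fun j => (T j * W m j).trace with ht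
      have hm2 : t j₀ - t a ≠ 0 := fun h5 => hm' (sub_eq_zero.1 h5).symm
      have h5 := step h T (W m) hT𝔤 (hW𝔤 m) hr h0 f hf
      have h6 := 𝔤.smul_mem (t j₀ - t a)⁻¹ (𝔤.sub_mem h5 (𝔤.smul_mem (t a) hf))
      refine ⟨fun j => f j * (t j - t a) / (t j₀ - t a), ?_, ?_, ?_⟩
      · refine (congrArg (· ∈ 𝔤) ?_).mp h6
        funext j
        simp only [Pi.smul_apply, Pi.sub_apply, smul_smul, ← sub_smul]
        congr 1
        simp only [ht]
        field_simp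
      · simp only [hf1, one_mul]
        exact div_self hm2
      · intro i hi
        rcases Finset.mem_insert.1 hi with rfl | hi
        · simp
        · have h7 := hf2 i hi
          simp only
          rw [mul_comm, mul_div_right_comm, mul_smul, h7, smul_zero]
  obtain ⟨f, hf, hf1, hf2⟩ := hprod (Finset.univ.erase j₀) (by simp)
  refine (congrArg (· ∈ 𝔤) ?_).mp hf
  funext j
  by_cases hj : j = j₀
  · subst hj
    rw [Pi.single_eq_same, hf1, one_smul, hT0, mul_sub, mul_one]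
  · rw [Pi.single_eq_of_ne hj]
    exact hf2 j (Finset.mem_erase.2 ⟨hj, Finset.mem_univ j⟩)

end main2

end SEPR

/-- **SEPR2.** -/
theorem p_SEPR2 : S_SEPR2 := fun _ _ _ _ _ h v μ ζ hζ hv h1 h2 hs => SEPR.sepr2 h v μ ζ hζ hv h1 h2 hs

end

end Pool.Agent.Run7.h225.HG
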