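import Pool.Agent.Run7.h225.HG.Iface6

/-!
# Piece SIMP: `𝔰𝔩_n` is simple (helper136)
-/

set_option autoImplicit false

namespace Run7.h136.HG

open Matrix

section
variable {n : ℕ}

theorem single_trace_zero {i j : Fin n} (h : i ≠ j) (c : ℂ) :
    (Matrix.single i j c).trace = 0 := by
  rw [Matrix.trace, Matrix.diag_single_of_ne (h := h)]
  simp

/-- a subspace of `gl_n` closed under brackets with trace-zero matrices and containing one
off-diagonal matrix unit contains all off-diagonal matrix units -/
theorem all_single (K : Submodule ℂ (Matrix (Fin n) (Fin n) ℂ))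
    (hK : ∀ X ∈ K, ∀ Z : Matrix (Fin n) (Fin n) ℂ, Z.trace = 0 → X * Z - Z * X ∈ K)
    {i j : Fin n} (hij : i ≠ j) (h : Matrix.single i j (1 : ℂ) ∈ K) :
    ∀ k l : Fin n, k ≠ l → Matrix.single k l (1 : ℂ) ∈ K := by
  -- reversal
  have rev : ∀ a b : Fin n, a ≠ b → Matrix.single a b (1 : ℂ) ∈ K →
      Matrix.single b a (1 : ℂ) ∈ K := by
    intro a b hab hK'
    have h1 := hK _ (hK _ hK' (Matrix.single b a 1) (single_trace_zero (Ne.symm hab) 1))
      (Matrix.single b a 1) (single_trace_zero (Ne.symm hab) 1)
    have h2 : (Matrix.single a b (1 : ℂ) * Matrix.single b a 1 -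
        Matrix.single b a 1 * Matrix.single a b 1) * Matrix.single b a 1 -
        Matrix.single b a 1 * (Matrix.single a b (1 : ℂ) * Matrix.single b a 1 -
          Matrix.single b a 1 * Matrix.single a b 1) = (-2 : ℂ) • Matrix.single b a 1 := by
      rw [Matrix.single_mul_single_same, Matrix.single_mul_single_same, sub_mul, mul_sub,
        Matrix.single_mul_single_of_ne (h := hab), Matrix.single_mul_single_same,
        Matrix.single_mul_single_same, Matrix.single_mul_single_of_ne (h := hab)]
      rw [neg_smul, two_smul]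
      simp only [mul_one, zero_sub, sub_zero]
      abel
    rw [h2] at h1
    have h3 := K.smul_mem (-2 : ℂ)⁻¹ h1
    rwa [smul_smul, inv_mul_cancel₀ (by norm_num), one_smul] at h3
  -- change of the column
  have col : ∀ a b c : Fin n, a ≠ b → a ≠ c → Matrix.single a b (1 : ℂ) ∈ K →
      Matrix.single a c (1 : ℂ) ∈ K := by
    intro a b c hab hac hK'
    by_cases hbc : b = c
    · rw [← hbc]; exact hK'
    · have h1 := hK _ hK' (Matrix.single b c 1) (single_trace_zero hbc 1)
      rw [Matrix.single_mul_single_same, Matrix.single_mul_single_of_ne (h := Ne.symm hac),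
        sub_zero, mul_one] at h1
      exact h1
  intro k l hkl
  by_cases hik : i = k
  · subst hik
    exact col i j l hij hkl h
  · exact col k i l (Ne.symm hik) hkl (rev i k hik (col i j k hij hik h))

/-- such a subspace contains all matrices of trace zero -/
theorem le_of_all (K : Submodule ℂ (Matrix (Fin n) (Fin n) ℂ)) (hn : 2 ≤ n)
    (hK : ∀ X ∈ K, ∀ Z : Matrix (Fin n) (Fin n) ℂ, Z.trace = 0 → X * Z - Z * X ∈ K)
    (h : ∀ k l : Fin n, k ≠ l → Matrix.single k l (1 : ℂ) ∈ K)
    (X : Matrix (Fin n) (Fin n) ℂ) (hX : X.trace = 0) : X ∈ K := by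
  have hdiag : ∀ k l : Fin n, Matrix.single k k (1 : ℂ) - Matrix.single l l 1 ∈ K := by
    intro k l
    by_cases hkl : k = l
    · rw [hkl, sub_self]; exact K.zero_mem
    · have h1 := hK _ (h k l hkl) (Matrix.single l k 1) (single_trace_zero (Ne.symm hkl) 1)
      rw [Matrix.single_mul_single_same, Matrix.single_mul_single_same, mul_one] at h1
      exact h1
  let z : Fin n := ⟨0, by omega⟩
  have hX1 : X = ∑ k, ∑ l, (X k l • Matrix.single k l (1 : ℂ) -
      if k = l then X k l • Matrix.single z z (1 : ℂ) else 0) := by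
    have h1 : ∑ k, ∑ l, (if k = l then X k l • Matrix.single z z (1 : ℂ) else 0) = 0 := by
      have h2 : ∀ k, ∑ l, (if k = l then X k l • Matrix.single z z (1 : ℂ) else 0) =
          X k k • Matrix.single z z (1 : ℂ) := by
        intro k
        rw [Finset.sum_ite_eq Finset.univ k]
        simp
      simp_rw [h2]
      rw [← Finset.sum_smul]
      have h3 : ∑ k, X k k = 0 := hX
      rw [h3, zero_smul]
    simp_rw [Finset.sum_sub_distrib]
    rw [h1, sub_zero]
    conv_lhs => rw [Matrix.matrix_eq_sum_single X]
    refine Finset.sum_congr rfl fun k _ => Finset.sum_congr rfl fun l _ => ?_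
    rw [Matrix.smul_single, smul_eq_mul, mul_one]
  rw [hX1]
  refine K.sum_mem fun k _ => K.sum_mem fun l _ => ?_
  by_cases hkl : k = l
  · rw [if_pos hkl, ← smul_sub, ← hkl]
    exact K.smul_mem _ (hdiag k z)
  · rw [if_neg hkl, sub_zero]
    exact K.smul_mem _ (h k l hkl)

/-- `𝔰𝔩_n` is simple -/
theorem sl_simple (K : Submodule ℂ (Matrix (Fin n) (Fin n) ℂ)) (hn : 2 ≤ n)
    (hK0 : ∀ X ∈ K, X.trace = 0)
    (hK : ∀ X ∈ K, ∀ Z : Matrix (Fin n) (Fin n) ℂ, Z.trace = 0 → X * Z - Z * X ∈ K)
    (hne : K ≠ ⊥) (X : Matrix (Fin n) (Fin n) ℂ) (hX : X.trace = 0) : X ∈ K := by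
  obtain ⟨A, hA, hA0⟩ := Submodule.exists_mem_ne_zero_of_ne_bot hne
  have hex : ∃ i j : Fin n, i ≠ j ∧ Matrix.single i j (1 : ℂ) ∈ K := by
    by_cases hoff : ∃ i j : Fin n, i ≠ j ∧ A i j ≠ 0
    · obtain ⟨i, j, hij, hAij⟩ := hoff
      refine ⟨j, i, Ne.symm hij, ?_⟩
      have h1 := hK _ (hK _ hA (Matrix.single j i 1) (single_trace_zero (Ne.symm hij) 1))
        (Matrix.single j i 1) (single_trace_zero (Ne.symm hij) 1)
      have h2 : (A * Matrix.single j i 1 - Matrix.single j i 1 * A) * Matrix.single j i 1 -
          Matrix.single j i 1 * (A * Matrix.single j i 1 - Matrix.single j i 1 * A) =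
          (-2 * A i j) • Matrix.single j i (1 : ℂ) := by
        rw [sub_mul, mul_sub, mul_assoc A, Matrix.single_mul_single_of_ne (h := hij), mul_zero,
          ← mul_assoc (Matrix.single j i (1 : ℂ)) (Matrix.single j i (1 : ℂ)) A,
          Matrix.single_mul_single_of_ne (h := hij), zero_mul, Matrix.single_mul_mul_single,
          ← mul_assoc, Matrix.single_mul_mul_single]
        rw [mul_smul, neg_smul, two_smul, Matrix.smul_single, smul_eq_mul]
        simp only [mul_one, one_mul, zero_sub, sub_zero]
        abel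
      rw [h2] at h1
      have h3 := K.smul_mem (-2 * A i j)⁻¹ h1
      rwa [smul_smul, inv_mul_cancel₀ (mul_ne_zero (by norm_num) hAij), one_smul] at h3
    · push Not at hoff
      by_cases hd : ∃ i j : Fin n, A i i ≠ A j j
      · obtain ⟨i, j, hij'⟩ := hd
        have hij : i ≠ j := fun h => hij' (by rw [h])
        refine ⟨i, j, hij, ?_⟩
        have h1 := hK _ hA (Matrix.single i j 1) (single_trace_zero hij 1)
        have h2 : A * Matrix.single i j 1 - Matrix.single i j 1 * A =
            (A i i - A j j) • Matrix.single i j (1 : ℂ) := by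
          ext k l
          rw [Matrix.sub_apply, Matrix.smul_apply, smul_eq_mul, sub_mul]
          by_cases hl : l = j
          · subst hl
            rw [Matrix.mul_single_apply_same]
            by_cases hk : k = i
            · subst hk
              rw [Matrix.single_mul_apply_same, Matrix.single_apply_same]
              ring
            · rw [Matrix.single_mul_apply_of_ne (h := hk), hoff k i hk,
                Matrix.single_apply_of_row_ne (Ne.symm hk)]
              ring
          · rw [Matrix.mul_single_apply_of_ne (hbj := hl),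
              Matrix.single_apply_of_col_ne _ _ (Ne.symm hl)]
            by_cases hk : k = i
            · subst hk
              rw [Matrix.single_mul_apply_same, hoff j l (Ne.symm hl)]
              ring
            · rw [Matrix.single_mul_apply_of_ne (h := hk)]
              ring
        rw [h2] at h1
        have h3 := K.smul_mem (A i i - A j j)⁻¹ h1
        rwa [smul_smul, inv_mul_cancel₀ (sub_ne_zero.2 hij'), one_smul] at h3
      · exfalso
        push Not at hd
        apply hA0
        let z : Fin n := ⟨0, by omega⟩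
        have htr : A.trace = (n : ℂ) * A z z := by
          rw [Matrix.trace]
          simp only [Matrix.diag_apply]
          rw [Finset.sum_congr rfl fun k _ => hd k z, Finset.sum_const, Finset.card_univ,
            Fintype.card_fin, nsmul_eq_mul]
        have hz : A z z = 0 := by
          rw [hK0 A hA] at htr
          have hn0 : (n : ℂ) ≠ 0 := by
            have : n ≠ 0 := by omega
            exact_mod_cast this
          rcases mul_eq_zero.1 htr.symm with h | h
          · exact absurd h hn0
          · exact h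
        ext k l
        rw [Matrix.zero_apply]
        by_cases hkl : k = l
        · rw [← hkl, hd k z, hz]
        · exact hoff k l hkl
  obtain ⟨i, j, hij, hs⟩ := hex
  exact le_of_all K hn hK (all_single K hK hij hs) X hX

theorem sl_nonabelian (hn : 2 ≤ n) : ∃ X : Matrix (Fin n) (Fin n) ℂ, X.trace = 0 ∧
    ∃ Z : Matrix (Fin n) (Fin n) ℂ, Z.trace = 0 ∧ X * Z - Z * X ≠ 0 := by
  let a : Fin n := ⟨0, by omega⟩
  let b : Fin n := ⟨1, by omega⟩
  have hab : a ≠ b := by
    intro h
    have := congrArg Fin.val h
    simp [a, b] at this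
  refine ⟨Matrix.single a b 1, single_trace_zero hab 1, Matrix.single b a 1,
    single_trace_zero (Ne.symm hab) 1, ?_⟩
  rw [Matrix.single_mul_single_same, Matrix.single_mul_single_same]
  intro h
  have h1 := congrFun (congrFun h a) a
  rw [Matrix.sub_apply, Matrix.single_apply_same, Matrix.single_apply_of_row_ne (Ne.symm hab)] at h1
  simp at h1

end

end Run7.h136.HG

namespace Pool.Agent.Run7.h225.HG

theorem p_SIMP : S_SIMP := by
  intro n v μ hn _
  refine ⟨?_, ?_⟩
  · intro K hK _ hbr hne X hX
    exact _root_.Run7.h136.HG.sl_simple K hn (fun Y hY => mem_slm.1 (hK hY))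
      (fun Y hY Z hZ => hbr Y hY Z (mem_slm.2 hZ)) hne X (mem_slm.1 hX)
  · obtain ⟨X, hX, Z, hZ, h⟩ := _root_.Run7.h136.HG.sl_nonabelian hn
    exact ⟨X, mem_slm.2 hX, Z, mem_slm.2 hZ, h⟩

end Pool.Agent.Run7.h225.HG
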