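import Pool.Agent.Run7.h225.HG.REFLO
import Pool.Agent.Run7.h225.HG.OD

/-!
# Project HYG, piece SIMPO (helper382): `𝔰𝔬_n` is simple (ideals stable under a reflection)
-/

set_option autoImplicit false

open Matrix

namespace Pool.Agent.Run7.h225.HG

namespace SIMPOp

variable {n : ℕ} {J : Matrix (Fin n) (Fin n) ℂ}

lemma ip_symm (hs : J.transpose = J) (x y : Fin n → ℂ) : x ⬝ᵥ (J *ᵥ y) = y ⬝ᵥ (J *ᵥ x) := by
  rw [dotProduct_mulVec, ← mulVec_transpose, hs, dotProduct_comm]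

lemma B_mv (x y s : Fin n → ℂ) : h68_B J x y *ᵥ s = (s ⬝ᵥ (J *ᵥ y)) • x - (s ⬝ᵥ (J *ᵥ x)) • y := by
  unfold h68_B
  rw [sub_mulVec, h68_vmv_mulVec, h68_vmv_mulVec, dotProduct_comm, dotProduct_comm (J *ᵥ x)]

lemma B_mem (hs : J.transpose = J) (x y : Fin n → ℂ) : h68_B J x y ∈ som J := by
  rw [mem_som]
  unfold h68_B
  have hx : ∀ x : Fin n → ℂ, x ᵥ* J = J *ᵥ x := fun x => by
    conv_lhs => rw [← hs]
    rw [vecMul_transpose]
  rw [transpose_sub, transpose_vecMulVec, transpose_vecMulVec, sub_mul, mul_sub, vecMulVec_mul, vecMulVec_mul,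
    mul_vecMulVec, mul_vecMulVec, hx, hx]
  abel

lemma B_brk {Z : Matrix (Fin n) (Fin n) ℂ} (hZ : Z ∈ som J) (x y : Fin n → ℂ) :
    Z * h68_B J x y - h68_B J x y * Z = h68_B J (Z *ᵥ x) y + h68_B J x (Z *ᵥ y) := by
  rw [mem_som] at hZ
  have h : ∀ y : Fin n → ℂ, (J *ᵥ y) ᵥ* Z = -(J *ᵥ (Z *ᵥ y)) := by
    intro y
    rw [← mulVec_transpose, mulVec_mulVec, eq_neg_of_add_eq_zero_left hZ, neg_mulVec, mulVec_mulVec]
  unfold h68_B
  rw [mul_sub, sub_mul, mul_vecMulVec, mul_vecMulVec, vecMulVec_mul, vecMulVec_mul, h, h, vecMulVec_neg, vecMulVec_neg]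
  abel

/-- the orthogonal complement of `v` -/
lemma ortho {v μ : Fin n → ℂ} {c : ℂ} (hc : c ≠ 0) (hJv : J *ᵥ v = c • μ) {u : Fin n → ℂ} :
    u ⬝ᵥ (J *ᵥ v) = 0 ↔ μ ⬝ᵥ u = 0 := by
  rw [hJv, dotProduct_smul, smul_eq_mul, mul_eq_zero, dotProduct_comm u μ]
  constructor
  · intro h; exact h.resolve_left hc
  · intro h; exact Or.inr h

lemma vv {v μ : Fin n → ℂ} {c : ℂ} (h1 : μ ⬝ᵥ v = 1) (hJv : J *ᵥ v = c • μ) : v ⬝ᵥ (J *ᵥ v) = c := by
  rw [hJv, dotProduct_smul, dotProduct_comm, h1, smul_eq_mul, mul_one]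

/-- bracket of two odd elements -/
lemma B_odd (hs : J.transpose = J) {v μ : Fin n → ℂ} {c : ℂ} (hc : c ≠ 0) (h1 : μ ⬝ᵥ v = 1) (hJv : J *ᵥ v = c • μ)
    {u t : Fin n → ℂ} (hu : μ ⬝ᵥ u = 0) (ht : μ ⬝ᵥ t = 0) :
    h68_B J u v * h68_B J t v - h68_B J t v * h68_B J u v = c • h68_B J t u := by
  rw [B_brk (B_mem hs u v), B_mv, B_mv, vv h1 hJv, (ortho hc hJv).2 ht, ip_symm hs v u, (ortho hc hJv).2 hu]
  unfold h68_B
  simp only [zero_smul, zero_sub, sub_zero, neg_vecMulVec, smul_vecMulVec, mulVec_neg, mulVec_smul, vecMulVec_neg,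
    vecMulVec_smul]
  module

/-- triple bracket -/
lemma B_trip (hs : J.transpose = J) {v μ : Fin n → ℂ} {c : ℂ} (hc : c ≠ 0) (hJv : J *ᵥ v = c • μ)
    {u t s : Fin n → ℂ} (hu : μ ⬝ᵥ u = 0) (ht : μ ⬝ᵥ t = 0) :
    h68_B J t u * h68_B J s v - h68_B J s v * h68_B J t u =
      (s ⬝ᵥ (J *ᵥ u)) • h68_B J t v - (s ⬝ᵥ (J *ᵥ t)) • h68_B J u v := by
  rw [B_brk (B_mem hs t u), B_mv, B_mv, ip_symm hs v u, ip_symm hs v t, (ortho hc hJv).2 hu, (ortho hc hJv).2 ht]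
  unfold h68_B
  simp only [zero_smul, sub_zero, mulVec_zero, vecMulVec_zero, zero_vecMulVec, sub_vecMulVec, smul_vecMulVec, mulVec_sub,
    mulVec_smul, vecMulVec_sub, vecMulVec_smul, add_zero]
  module

lemma mulVec_ne {u : Fin n → ℂ} (hd : J.det ≠ 0) (hu : u ≠ 0) : ∃ y : Fin n → ℂ, y ⬝ᵥ (J *ᵥ u) ≠ 0 := by
  by_contra hcon
  push Not at hcon
  have h1 : J *ᵥ u = 0 := by
    ext i
    have := hcon (Pi.single i 1)
    rw [single_dotProduct, one_mul] at this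
    exact this
  exact hu (Matrix.eq_zero_of_mulVec_eq_zero hd h1)

/-- the part of a matrix which is odd -/
lemma odd_part {X : Matrix (Fin n) (Fin n) ℂ} (hs : J.transpose = J) {v μ : Fin n → ℂ} {c : ℂ} (hc : c ≠ 0)
    (hJv : J *ᵥ v = c • μ) (hX : X ∈ som J) :
    X - rf v μ * X * rf v μ = (2 * c⁻¹) • h68_B J (X *ᵥ v) v := by
  have hX' := hX
  rw [mem_som] at hX
  have hμX : μ ᵥ* X = -(c⁻¹ • (J *ᵥ (X *ᵥ v))) := by
    have h2 : (J *ᵥ v) ᵥ* X = -(J *ᵥ (X *ᵥ v)) := by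
      rw [← mulVec_transpose, mulVec_mulVec, eq_neg_of_add_eq_zero_left hX, neg_mulVec, mulVec_mulVec]
    rw [hJv, smul_vecMul] at h2
    rw [← smul_neg, ← h2, smul_smul, inv_mul_cancel₀ hc, one_smul]
  have hvXv : μ ⬝ᵥ (X *ᵥ v) = 0 := by
    have h3 : μ ⬝ᵥ (X *ᵥ v) = -(c⁻¹ * (c * (μ ⬝ᵥ (X *ᵥ v)))) := by
      conv_lhs => rw [dotProduct_mulVec, hμX]
      rw [neg_dotProduct, smul_dotProduct, dotProduct_comm (J *ᵥ (X *ᵥ v)), ip_symm hs, hJv, dotProduct_smul,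
        dotProduct_comm (X *ᵥ v), smul_eq_mul, smul_eq_mul]
    rw [← mul_assoc, inv_mul_cancel₀ hc, one_mul] at h3
    have h4 : (2 : ℂ) * (μ ⬝ᵥ (X *ᵥ v)) = 0 := by linear_combination h3
    exact (mul_eq_zero.1 h4).resolve_left two_ne_zero
  have hXP : X * vecMulVec v μ = vecMulVec (X *ᵥ v) μ := mul_vecMulVec _ _ _
  have hPX : vecMulVec v μ * X = -(c⁻¹ • vecMulVec v (J *ᵥ (X *ᵥ v))) := by
    rw [vecMulVec_mul, hμX, vecMulVec_neg, vecMulVec_smul]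
  have hPXP : vecMulVec v μ * X * vecMulVec v μ = 0 := by
    rw [mul_assoc, hXP, vecMulVec_mul_vecMulVec, hvXv, zero_smul, vecMulVec_zero]
  have e : X - rf v μ * X * rf v μ = (2 : ℂ) • (X * vecMulVec v μ) + (2 : ℂ) • (vecMulVec v μ * X) -
      (4 : ℂ) • (vecMulVec v μ * X * vecMulVec v μ) := by
    unfold rf
    simp only [sub_mul, mul_sub, one_mul, mul_one, smul_mul_assoc, mul_smul_comm, smul_sub, smul_smul]
    module
  rw [e, hPXP, hXP, hPX]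
  unfold h68_B
  rw [hJv, vecMulVec_smul]
  have h5 : (2 * c⁻¹) • (c • vecMulVec (X *ᵥ v) μ - vecMulVec v (J *ᵥ (X *ᵥ v))) =
      (2 * (c⁻¹ * c)) • vecMulVec (X *ᵥ v) μ - (2 * c⁻¹) • vecMulVec v (J *ᵥ (X *ᵥ v)) := by module
  rw [h5, inv_mul_cancel₀ hc]
  module

end SIMPOp

open SIMPOp

theorem p_SIMPO : S_SIMPO := by
  intro n J v μ c hn h1 hs hd hc hJv
  have hvne : v ≠ 0 := by
    intro h0
    rw [h0, dotProduct_zero] at h1
    exact zero_ne_one h1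
  -- projection to the hyperplane
  have hproj : ∀ x : Fin n → ℂ, μ ⬝ᵥ (x - (μ ⬝ᵥ x) • v) = 0 := by
    intro x
    rw [dotProduct_sub, dotProduct_smul, h1, smul_eq_mul, mul_one, sub_self]
  constructor
  · intro K hK hρ hid hne
    -- all odd elements
    have hall : ∀ u : Fin n → ℂ, μ ⬝ᵥ u = 0 → u ≠ 0 → h68_B J u v ∈ K → som J ≤ K := by
      intro u hu hune huK
      have hpair : ∀ u : Fin n → ℂ, μ ⬝ᵥ u = 0 → h68_B J u v ∈ K → ∀ t : Fin n → ℂ, μ ⬝ᵥ t = 0 → h68_B J t u ∈ K := by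
        intro u hu huK t ht
        have h2 := hid _ huK _ (B_mem hs t v)
        rw [B_odd hs hc h1 hJv hu ht] at h2
        have h3 := K.smul_mem c⁻¹ h2
        rwa [smul_smul, inv_mul_cancel₀ hc, one_smul] at h3
      have hodd : ∀ t : Fin n → ℂ, μ ⬝ᵥ t = 0 → h68_B J t v ∈ K := by
        intro t ht
        obtain ⟨y, hy⟩ := mulVec_ne hd hune
        obtain ⟨s, hs'⟩ : ∃ s, s = y - (μ ⬝ᵥ y) • v := ⟨_, rfl⟩
        have hsu : s ⬝ᵥ (J *ᵥ u) = y ⬝ᵥ (J *ᵥ u) := by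
          rw [hs', sub_dotProduct, smul_dotProduct, ip_symm hs v u, (ortho hc hJv).2 hu, smul_zero, sub_zero]
        have h2 := hid _ (hpair u hu huK t ht) _ (B_mem hs s v)
        rw [B_trip hs hc hJv hu ht, hsu] at h2
        have h3 := K.add_mem h2 (K.smul_mem (s ⬝ᵥ (J *ᵥ t)) huK)
        rw [sub_add_cancel] at h3
        have h4 := K.smul_mem (y ⬝ᵥ (J *ᵥ u))⁻¹ h3
        rwa [smul_smul, inv_mul_cancel₀ hy, one_smul] at h4
      apply h68_som_le J hs hd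
      intro x y
      obtain ⟨x', hx'⟩ : ∃ x', x' = x - (μ ⬝ᵥ x) • v := ⟨_, rfl⟩
      obtain ⟨y', hy'⟩ : ∃ y', y' = y - (μ ⬝ᵥ y) • v := ⟨_, rfl⟩
      have hx0 : μ ⬝ᵥ x' = 0 := by rw [hx']; exact hproj x
      have hy0 : μ ⬝ᵥ y' = 0 := by rw [hy']; exact hproj y
      have h2 := K.add_mem (K.sub_mem (K.smul_mem (μ ⬝ᵥ y) (hodd x' hx0)) (K.smul_mem (μ ⬝ᵥ x) (hodd y' hy0)))
        (hpair y' hy0 (hodd y' hy0) x' hx0)
      have e : h68_B J x y = (μ ⬝ᵥ y) • h68_B J x' v - (μ ⬝ᵥ x) • h68_B J y' v + h68_B J x' y' := by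
        have ex : x = x' + (μ ⬝ᵥ x) • v := by rw [hx', sub_add_cancel]
        have ey : y = y' + (μ ⬝ᵥ y) • v := by rw [hy', sub_add_cancel]
        generalize μ ⬝ᵥ x = a at ex ⊢
        generalize μ ⬝ᵥ y = b at ey ⊢
        rw [ex, ey]
        unfold h68_B
        simp only [mulVec_add, mulVec_smul, add_vecMulVec, vecMulVec_add, smul_vecMulVec, vecMulVec_smul]
        module
      rw [e]
      exact h2
    -- a nonzero element
    obtain ⟨X, hXK, hX0⟩ := Submodule.exists_mem_ne_zero_of_ne_bot hne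
    have hXs := hK hXK
    have hμX : ∀ x : Fin n → ℂ, μ ⬝ᵥ (X *ᵥ x) = -(c⁻¹ * (x ⬝ᵥ (J *ᵥ (X *ᵥ v)))) := by
      intro x
      have h2 := hXs
      rw [mem_som] at h2
      have h3 : (J *ᵥ v) ⬝ᵥ (X *ᵥ x) = -(x ⬝ᵥ (J *ᵥ (X *ᵥ v))) := by
        rw [dotProduct_mulVec, ← mulVec_transpose, mulVec_mulVec, eq_neg_of_add_eq_zero_left h2, neg_mulVec,
          neg_dotProduct, dotProduct_comm, mulVec_mulVec]
      rw [hJv, smul_dotProduct, smul_eq_mul] at h3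
      rw [← mul_neg, ← h3, ← mul_assoc, inv_mul_cancel₀ hc, one_mul]
    by_cases hXv : X *ᵥ v = 0
    · -- even part
      have hex : ∃ u : Fin n → ℂ, μ ⬝ᵥ u = 0 ∧ X *ᵥ u ≠ 0 := by
        by_contra hcon
        push Not at hcon
        apply hX0
        ext i j
        have h2 := hcon _ (hproj (Pi.single j 1))
        rw [mulVec_sub, mulVec_smul, hXv, smul_zero, sub_zero, mulVec_single_one] at h2
        exact congrFun h2 i
      obtain ⟨u, hu, hXu⟩ := hex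
      have h2 := hid _ hXK _ (B_mem hs u v)
      rw [B_brk hXs, hXv] at h2
      have h3 : h68_B J u 0 = 0 := by
        unfold h68_B
        rw [mulVec_zero, vecMulVec_zero, zero_vecMulVec, sub_zero]
      rw [h3, add_zero] at h2
      refine hall _ ?_ hXu h2
      rw [hμX, hXv, mulVec_zero, dotProduct_zero, mul_zero, neg_zero]
    · have h2 := K.sub_mem hXK (hρ X hXK)
      rw [odd_part hs hc hJv hXs] at h2
      have h3 := K.smul_mem (2 * c⁻¹)⁻¹ h2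
      rw [smul_smul, inv_mul_cancel₀ (mul_ne_zero two_ne_zero (inv_ne_zero hc)), one_smul] at h3
      refine hall _ ?_ hXv h3
      have h4 := hμX v
      rw [ip_symm hs, hJv, dotProduct_smul, dotProduct_comm (X *ᵥ v), smul_eq_mul, ← mul_assoc, inv_mul_cancel₀ hc,
        one_mul] at h4
      have h5 : (2 : ℂ) * (μ ⬝ᵥ (X *ᵥ v)) = 0 := by linear_combination h4
      exact (mul_eq_zero.1 h5).resolve_left two_ne_zero
  · -- two independent vectors of the hyperplane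
    have hfr := ODp.Hy_finrank v μ h1
    have hbot : ODp.Hy μ ≠ ⊥ := by
      intro h0
      rw [h0, finrank_bot] at hfr
      omega
    obtain ⟨u, hu, hune⟩ := Submodule.exists_mem_ne_zero_of_ne_bot hbot
    have hnle : ¬ ODp.Hy μ ≤ Submodule.span ℂ {u} := by
      intro hle
      have h2 := Submodule.finrank_mono hle
      rw [finrank_span_singleton hune] at h2
      omega
    obtain ⟨t, ht, htn⟩ := SetLike.not_le_iff_exists.1 hnle
    have hu' : μ ⬝ᵥ u = 0 := hu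
    have ht' : μ ⬝ᵥ t = 0 := ht
    refine ⟨_, B_mem hs u v, _, B_mem hs t v, ?_⟩
    rw [B_odd hs hc h1 hJv hu' ht']
    intro h0
    rw [smul_eq_zero] at h0
    have h2 := h0.resolve_left hc
    obtain ⟨y, hy⟩ := mulVec_ne hd hune
    have h3 := congrArg (fun M => M *ᵥ y) h2
    simp only [zero_mulVec] at h3
    rw [B_mv] at h3
    apply htn
    rw [Submodule.mem_span_singleton]
    refine ⟨(y ⬝ᵥ (J *ᵥ u))⁻¹ * (y ⬝ᵥ (J *ᵥ t)), ?_⟩
    rw [mul_smul, ← sub_eq_zero.1 h3, smul_smul, inv_mul_cancel₀ hy, one_smul]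

end Pool.Agent.Run7.h225.HG
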