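import Pool.Agent.Run7.h225.HG.JB
import Pool.Agent.Run7.h225.HG.SEPR2
import Pool.Agent.Run7.h225.HG.OD
import Pool.Agent.Run7.h225.HG.REFL2A
import Pool.Agent.Run7.h225.HG.SIMP
import Pool.Agent.Run7.h225.HG.RIB
import Pool.Agent.Run7.h225.HG.PAIR
import Pool.Agent.Run7.h225.HG.REFLO
import Pool.Agent.Run7.h225.HG.SIMPO
import Pool.Agent.Run7.h225.HG.ODO
import Pool.Agent.Run7.h803.HG.PAIRO
import Pool.Agent.Run7.h803.HG.SOG
import Pool.Agent.Run7.h225.HG.LGB3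

/-!
# The pieces of the project HYG
-/

set_option autoImplicit false

namespace Pool.Agent.Run7.h225.HG

/-- all pieces -/
theorem pieces : HH where
  SEP := t_sep'
  SEPR := p_SEPR2
  REFLA := REFLA.refla
  OD := p_OD
  R2 := p_REFL2A
  SI := p_SIMP
  RIB := p_RIB
  PA := p_PAIR
  RO := p_REFLO
  SO := p_SIMPO
  PO := Run7.h803.PAIRO.p_PAIRO p_ODO
  SOG := Run7.h803.SOG.p_SOG
  LOCJ := LOCJ.locj
  ASY := t_asy
  HQ := HQ.p_HQ
  INTR := p_INTR
  ASY2 := t_asy2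
  LGB := p_LGB3

end Pool.Agent.Run7.h225.HG
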