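import Pool.Agent.Run7.h225.HG.Iface5

/-!
# TUPA: almost all tuples of fibres of a general system at algebraic integers of bounded degree

Adapted from `Pool/Agent/Y119/HA/Tup.lean` (helper419).
-/

set_option autoImplicit false

open PowerSeries Matrix
open Pool.Agent.Y113 hiding Bm
open Pool.Agent.Y120.GF Pool.Agent.Y120.GH Pool.Agent.Y119.HZ
open Pool.Agent.Y119.HY (cm E Hf Yf E_mul_neg)

namespace Pool.Agent.Run7.h225.HG.TUPA

open Pool.Agent.Run7.h225.HG.SYS2 (subg' aeval_subg' aeval_MVg' cm_nil)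

section one

variable {n : ℕ} {N B : Matrix (Fin n) (Fin n) ℚ} {H W : Matrix (Fin n) (Fin n) ℚ⟦X⟧}

theorem nrh_hfg (hG : S_GFS) (hS : Sys n N B H W) : Pool.Agent.Y916.Af.NRh (hfg H) := by
  obtain ⟨T, A, h⟩ := hG n N B H W hS
  exact Pool.Agent.Y916.Af.nrh_of_gfs h

theorem sz_hfg (hG : S_GFS) (hS : Sys n N B H W) : Pool.Agent.Y916.Af.SZ (hfg H) := by
  obtain ⟨T, A, h⟩ := hG n N B H W hS
  exact h.hsize

/-- the values -/
theorem evc_hfg (z : ℂ) (i : Fin (n * n)) :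
    Pool.Agent.Y916.Al.evc z (hfg H i) = Hf (Hcg H) z (ix n i).1 (ix n i).2 := by
  unfold Hf
  rw [Matrix.of_apply]
  unfold Pool.Agent.Y119.HY.ps Pool.Agent.Y916.Al.evc hfg
  refine tsum_congr fun m => ?_
  rfl

end one

variable {n k : ℕ} {N B : Matrix (Fin n) (Fin n) ℚ} {H W : Matrix (Fin n) (Fin n) ℚ⟦X⟧}
  {T : ℂ → Set (Matrix (Fin n) (Fin n) ℂ)}

/-! ### the irreducible set -/

/-- the product of the torsors and of the lines of the logarithms -/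
def Ys (k n : ℕ) (T : ℂ → Set (Matrix (Fin n) (Fin n) ℂ)) (α : Fin k → ℂ) : Set (Fin k × Option (Fin (n * n)) → ℂ) :=
  {y | ∀ j, (fun o => y (j, o)) ∈ {y : Option (Fin (n * n)) → ℂ |
    (fun s => y (some s)) ∈ {y : Fin (n * n) → ℂ | ∃ X ∈ T (1 / α j), y = fun a => X (ix n a).1 (ix n a).2}}}

theorem ys_irr (hT : TG N H T) {α : Fin k → ℂ} (hα : ∀ i, ‖1 / α i‖ < 1) (d : ℕ) :
    Pool.Agent.Y916.Af.IrrD d (Ys k n T α) :=
  Pool.Agent.Y916.Af.prod_irrD _ fun j => Pool.Agent.Y916.Af.opt_irrD _ (Pool.Agent.Y916.Af.irrD_of_irr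
    (hT.irr _ (hα j)) d)

/-- the coordinates -/
def cf2 (v : Vx (fun _ : Fin k => n)) : Fin k × Option (Fin (n * n)) := (v.1, v.2)

/-- the point of a tuple of matrices and numbers -/
def yp (Z : Fin k → Matrix (Fin n) (Fin n) ℂ) (l : Fin k → ℂ) : Fin k × Option (Fin (n * n)) → ℂ :=
  fun a => a.2.elim (l a.1) fun j => Z a.1 (ix n j).1 (ix n j).2

theorem yp_mem {Z : Fin k → Matrix (Fin n) (Fin n) ℂ} {α : Fin k → ℂ} (hZ : ∀ i, Z i ∈ T (1 / α i))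
    (l : Fin k → ℂ) : yp Z l ∈ Ys k n T α := fun j => ⟨Z j, hZ j, rfl⟩

theorem aeval_yp (N : Matrix (Fin n) (Fin n) ℚ) (Ω : Fin k → Matrix (Fin n) (Fin n) ℂ)
    (Z : Fin k → Matrix (Fin n) (Fin n) ℂ) (l : Fin k → ℂ)
    (P : MvPolynomial (Jx (fun _ : Fin k => n)) ℂ) :
    MvPolynomial.aeval (yp Z l) (MvPolynomial.rename cf2
        (MvPolynomial.aeval (subg' (n := fun _ : Fin k => n) (fun _ => N) Ω) P)) =
      MvPolynomial.aeval (pw (n := fun _ : Fin k => n) l fun i => Z i * E (cm N) (-l i) * Ω i) P := by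
  rw [MvPolynomial.aeval_rename]
  have h1 : (yp Z l ∘ cf2) = Pool.Agent.Y120.GH.pt (r := fun _ : Fin k => n * n) (fun i j => Z i (ix n j).1 (ix n j).2) l := rfl
  rw [h1]
  have h2 : MvPolynomial.aeval (Pool.Agent.Y120.GH.pt (r := fun _ : Fin k => n * n) (fun i j => Z i (ix n j).1 (ix n j).2) l)
      (MvPolynomial.aeval (subg' (n := fun _ : Fin k => n) (fun _ => N) Ω) P) =
      MvPolynomial.aeval (fun v => MvPolynomial.aeval (Pool.Agent.Y120.GH.pt (r := fun _ : Fin k => n * n)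
        (fun i j => Z i (ix n j).1 (ix n j).2) l) (subg' (n := fun _ : Fin k => n) (fun _ => N) Ω v)) P :=
    MvPolynomial.aeval_bind₁ _ _ _
  rw [h2]
  have h3 := fun v => aeval_subg' (n := fun _ : Fin k => n) (fun _ => N) Ω Z l v
  simp only [h3]

/-! ### almost all tuples -/

theorem exc_of (hS : Sys n N B H W) (hT : TG N H T) (δ₁ : ℕ) {δ d : ℕ} {V : Submodule ℚ ℂ}
    {Ω : Fin k → Matrix (Fin n) (Fin n) ℂ}
    {α : Fin k → ℂ} (h1 : ∀ i, 1 < ‖α i‖) (hα : ExcG N H T δ d V Ω α) :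
    Pool.Agent.Y916.Af.ExcD δ₁ (hfg H) (δ * dg (fun _ : Fin k => n)) d (Vn (n := fun _ : Fin k => n) Ω V δ) α := by
  obtain ⟨ℓ, hℓ, L, hL1, hL2, P, hPd, hPc, hP0, l, g, hg, hPg⟩ := hα
  have hz : ∀ i, ‖1 / α i‖ < 1 := by
    intro i
    rw [norm_div, norm_one, div_lt_one (by linarith [h1 i])]
    exact h1 i
  have hN : cm N ^ n = 0 := cm_nil hS
  set W' : Submodule ℚ ℂ := (Submodule.span L (V : Set ℂ)).restrictScalars ℚ with hW
  have hMV := aeval_MVg' (n := fun _ : Fin k => n) (fun _ => N) Ω (V := W') hPd hPc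
  have h3 : Pool.Agent.Y916.Af.ptc (hfg H) α ℓ = yp (fun i => Hf (Hcg H) (1 / α i)) ℓ := by
    funext a
    rcases a with ⟨i, _ | j⟩
    · rfl
    · exact evc_hfg _ _
  refine ⟨ℓ, hℓ, Ys k n T α, ys_irr hT hz δ₁, ?_, ?_, L, hL1, hL2,
    MvPolynomial.rename cf2 (MvPolynomial.aeval (subg' (n := fun _ : Fin k => n) (fun _ => N) Ω) P), ?_, ?_, ?_, ?_⟩
  · rw [h3]
    exact yp_mem (fun i => hT.pt _ (hz i)) ℓ
  · intro y hy j
    obtain ⟨g', hg', h4⟩ := hy j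
    have h5 : (fun i => y (j, some i)) = fun i => g' (ix n i).1 (ix n i).2 := h4
    rw [h5]
    exact hT.vc _ (hz j) g' hg'
  · exact (MvPolynomial.totalDegree_rename_le _ _).trans hMV.2
  · intro s
    have hinj : Function.Injective (cf2 (k := k) (n := n)) := by
      rintro ⟨i, a⟩ ⟨j, b⟩ hab
      simp only [cf2, Prod.mk.injEq] at hab
      obtain ⟨rfl, rfl⟩ := hab
      rfl
    by_cases hs : ∃ s', s = Finsupp.mapDomain cf2 s'
    · obtain ⟨s', rfl⟩ := hs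
      rw [MvPolynomial.coeff_rename_mapDomain _ hinj]
      exact Pool.Agent.Y119.HA.Vn_span L (n := fun _ : Fin k => n) Ω (V := W') (V' := V) (fun v hv => hv) δ _ (hMV.1 s')
    · rw [MvPolynomial.coeff_rename_eq_zero]
      · exact Submodule.zero_mem _
      · intro u hu
        exact absurd ⟨u, hu.symm⟩ hs
  · rw [h3, aeval_yp]
    exact hP0
  · refine ⟨yp (fun i => g i * E (cm N) (l i)) l, yp_mem (fun i => hT.lin _ (hz i) _ (hg i) (l i)) l, ?_⟩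
    rw [aeval_yp]
    have h4 : (fun i => g i * E (cm N) (l i) * E (cm N) (-l i) * Ω i) = fun i => g i * Ω i := by
      funext i
      have e1 : E (cm N) (l i) * E (cm N) (-l i) = 1 := E_mul_neg hN (l i)
      rw [Matrix.mul_assoc (g i), e1, mul_one]
    rw [h4]
    exact hPg

/-- **almost all tuples of algebraic integers of bounded degree** -/
theorem tup_hyp (hG : S_GFS) (hS : Sys n N B H W) (hT : TG N H T) (k m δ d D : ℕ) (hm : 1 ≤ m) :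
    ∃ c : ℝ, 0 < c ∧ ∃ C : ℝ, 0 ≤ C ∧ ∀ V : Submodule ℚ ℂ, Module.Finite ℚ V → Module.finrank ℚ V ≤ D →
      ∀ (Ω : Fin k → Matrix (Fin n) (Fin n) ℂ) (M : ℕ), 1 ≤ M →
      {α : Fin k → ℂ | (∀ i, Pool.Agent.Y916.Sl.SInt m M (α i)) ∧ ExcG N H T δ d V Ω α}.Finite ∧
      ({α : Fin k → ℂ | (∀ i, Pool.Agent.Y916.Sl.SInt m M (α i)) ∧ ExcG N H T δ d V Ω α}.ncard : ℝ) ≤
        C * (M : ℝ) ^ (-c) * ({ξ : ℂ | Pool.Agent.Y916.Sl.SInt m M ξ}.ncard : ℝ) ^ k := by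
  classical
  obtain ⟨δ₁, c, hc, C, hC, h1⟩ := Pool.Agent.Y916.Af.tupDs (nrh_hfg hG hS) (sz_hfg hG hS) k m
    (δ * dg (fun _ : Fin k => n)) d ((Fintype.card (Option (Ix (fun _ : Fin k => n)))) ^ δ * D)
  obtain ⟨c₁, hc₁, hmany⟩ := Pool.Agent.Y916.Sl.many m hm
  obtain ⟨C₂, hC₂, h₂⟩ := Pool.Agent.Y916.Af.small_tuples m k 1 le_rfl
  refine ⟨min c 1, lt_min hc one_pos, (C + C₂) / c₁ ^ k, by positivity, fun V hV hVD Ω M hM => ?_⟩
  have hT1 : (1 : ℝ) ≤ M := by exact_mod_cast hM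
  obtain ⟨hfin, hrank⟩ := Vn_fin (n := fun _ : Fin k => n) Ω V δ
  obtain ⟨h2, h3⟩ := h1 (Vn (n := fun _ : Fin k => n) Ω V δ) hfin (hrank.trans (Nat.mul_le_mul_left _ hVD)) M hM
  have h4 := h₂ M hM
  set B2 := (Fintype.piFinset fun _ : Fin k => Pool.Agent.Y916.Sl.NF m M).filter fun α => ∃ i, ‖α i‖ ≤ (1 : ℕ) with hB2'
  set X := {α : Fin k → ℂ | (∀ i, Pool.Agent.Y916.Sl.AInt m M (α i)) ∧ Pool.Agent.Y916.Af.ExcD δ₁ (hfg H)
    (δ * dg (fun _ : Fin k => n)) d (Vn (n := fun _ : Fin k => n) Ω V δ) α} with hX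
  have hsub : {α : Fin k → ℂ | (∀ i, Pool.Agent.Y916.Sl.SInt m M (α i)) ∧ ExcG N H T δ d V Ω α} ⊆
      X ∪ (B2 : Set (Fin k → ℂ)) := by
    rintro α ⟨hα, hE⟩
    by_cases hs : ∃ i, ‖α i‖ ≤ (1 : ℕ)
    · right
      rw [hB2', Finset.mem_coe, Finset.mem_filter, Fintype.mem_piFinset]
      exact ⟨fun i => Pool.Agent.Y916.Sl.mem_NF.2 (Pool.Agent.Y916.Sl.SInt.aint (hα i)), hs⟩
    · left
      push Not at hs
      refine ⟨fun i => Pool.Agent.Y916.Sl.SInt.aint (hα i), exc_of hS hT δ₁ (fun i => by simpa using hs i) hE⟩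
  have hfin2 : (X ∪ (B2 : Set (Fin k → ℂ))).Finite := h2.union (Finset.finite_toSet _)
  refine ⟨hfin2.subset hsub, ?_⟩
  have h5 := (Set.ncard_le_ncard hsub hfin2).trans (Set.ncard_union_le _ _)
  rw [Set.ncard_coe_finset] at h5
  have h6 : (M : ℝ) ^ (((k * Pool.Agent.Y916.Sl.Mm m : ℕ) : ℝ) - c) ≤
      (M : ℝ) ^ (((k * Pool.Agent.Y916.Sl.Mm m : ℕ) : ℝ) - min c 1) :=
    Real.rpow_le_rpow_of_exponent_le hT1 (by linarith [min_le_left c 1])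
  have h7 : (M : ℝ) ^ (((k * Pool.Agent.Y916.Sl.Mm m : ℕ) : ℝ) - 1) ≤
      (M : ℝ) ^ (((k * Pool.Agent.Y916.Sl.Mm m : ℕ) : ℝ) - min c 1) :=
    Real.rpow_le_rpow_of_exponent_le hT1 (by linarith [min_le_right c 1])
  have h8 : ({α : Fin k → ℂ | (∀ i, Pool.Agent.Y916.Sl.SInt m M (α i)) ∧ ExcG N H T δ d V Ω α}.ncard : ℝ) ≤
      (C + C₂) * (M : ℝ) ^ (((k * Pool.Agent.Y916.Sl.Mm m : ℕ) : ℝ) - min c 1) := by
    calc ({α : Fin k → ℂ | (∀ i, Pool.Agent.Y916.Sl.SInt m M (α i)) ∧ ExcG N H T δ d V Ω α}.ncard : ℝ) ≤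
          (X.ncard : ℝ) + B2.card := by exact_mod_cast h5
      _ ≤ C * (M : ℝ) ^ (((k * Pool.Agent.Y916.Sl.Mm m : ℕ) : ℝ) - min c 1) +
          C₂ * (M : ℝ) ^ (((k * Pool.Agent.Y916.Sl.Mm m : ℕ) : ℝ) - min c 1) :=
          add_le_add (h3.trans (mul_le_mul_of_nonneg_left h6 hC)) (h4.trans (mul_le_mul_of_nonneg_left h7 hC₂))
      _ = _ := by ring
  exact h8.trans (Pool.Agent.Y916.Sl.prop_bound hc₁ (by positivity) hM (hmany M hM))

end Pool.Agent.Run7.h225.HG.TUPA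

namespace Pool.Agent.Run7.h225.HG

/-- **TUPA** -/
theorem p_TUPA : S_TUPA := fun hG _ _ _ _ _ _ hS hT k m δ d D hm => TUPA.tup_hyp hG hS hT k m δ d D hm

end Pool.Agent.Run7.h225.HG
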