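import Pool.Agent.Run7.h225.HG.Iface5

/-!
# WINA: windows at algebraic points for general systems

Adaptation of `Pool/Agent/Y119/HA/Win.lean` to general systems and general connected torsors.
-/

set_option autoImplicit false

open PowerSeries Matrix
open Pool.Agent.Y113 hiding Bm
open Pool.Agent.Y120.GF Pool.Agent.Y120.GH Pool.Agent.Y119.HZ
open Pool.Agent.Y119.HY (cm E Hf Yf Rel Gal Sol E_mul_neg)
open Pool.Agent.Y916.Al (Ht)

namespace Pool.Agent.Run7.h225.HG.WINA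

open Pool.Agent.Run7.h225.HG.SYS2 (qeg E_qeg cm_nil)
open Pool.Agent.Y119.HA (Cx cpt yp aeval_degm)

variable {n : ℕ} {N B : Matrix (Fin n) (Fin n) ℚ} {H W : Matrix (Fin n) (Fin n) ℚ⟦X⟧} {k : ℕ}

/-- the values -/
theorem evc_hfg (z : ℂ) (i : Fin (n * n)) :
    Pool.Agent.Y916.Al.evc z (hfg H i) = Hf (Hcg H) z (ix n i).1 (ix n i).2 := by
  unfold Hf
  rw [Matrix.of_apply]
  unfold Pool.Agent.Y119.HY.ps Pool.Agent.Y916.Al.evc hfg
  refine tsum_congr fun m => ?_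
  rfl

/-- the substitution -/
noncomputable def sKg (K : Type) [Field K] [Algebra ℚ K] (N : Matrix (Fin n) (Fin n) ℚ) (q k : ℕ) :
    Cx n q k → MvPolynomial ((Fin (n * n) ⊕ Fin q) ⊕ Fin k × Option (Fin (n * n))) K
  | Sum.inl (Sum.inl p) => MvPolynomial.X (Sum.inl (Sum.inl ((ix n).symm p)))
  | Sum.inl (Sum.inr i) => MvPolynomial.X (Sum.inl (Sum.inr i))
  | Sum.inr ⟨j, none⟩ => MvPolynomial.X (Sum.inr (j, none))
  | Sum.inr ⟨j, some p⟩ => ∑ c, ∑ d, MvPolynomial.X (Sum.inr (j, some ((ix n).symm (p.1, c)))) *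
      (∑ l ∈ Finset.range n, MvPolynomial.C (algebraMap ℚ K (qeg N l c d)) * MvPolynomial.X (Sum.inr (j, none)) ^ l) *
      MvPolynomial.X (Sum.inl (Sum.inl ((ix n).symm (d, p.2))))

theorem sKg_deg (K : Type) [Field K] [Algebra ℚ K] (N : Matrix (Fin n) (Fin n) ℚ) (q k : ℕ) (v : Cx n q k) :
    (sKg K N q k v).totalDegree ≤ n + 2 := by
  rcases v with (p | i) | ⟨j, _ | p⟩
  · show (MvPolynomial.X _ : MvPolynomial _ K).totalDegree ≤ _
    rw [MvPolynomial.totalDegree_X]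
    omega
  · show (MvPolynomial.X _ : MvPolynomial _ K).totalDegree ≤ _
    rw [MvPolynomial.totalDegree_X]
    omega
  · show (MvPolynomial.X _ : MvPolynomial _ K).totalDegree ≤ _
    rw [MvPolynomial.totalDegree_X]
    omega
  · refine (MvPolynomial.totalDegree_finsetSum _ _).trans (Finset.sup_le fun c _ => ?_)
    refine (MvPolynomial.totalDegree_finsetSum _ _).trans (Finset.sup_le fun d _ => ?_)
    refine (MvPolynomial.totalDegree_mul _ _).trans ?_
    rw [MvPolynomial.totalDegree_X]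
    have h2 : (∑ l ∈ Finset.range n, MvPolynomial.C (algebraMap ℚ K (qeg N l c d)) *
        (MvPolynomial.X (Sum.inr (j, none)) : MvPolynomial ((Fin (n * n) ⊕ Fin q) ⊕ Fin k × Option (Fin (n * n))) K) ^ l).totalDegree
        ≤ n := by
      refine (MvPolynomial.totalDegree_finsetSum _ _).trans (Finset.sup_le fun l hl => ?_)
      refine (MvPolynomial.totalDegree_mul _ _).trans ?_
      rw [MvPolynomial.totalDegree_C, zero_add, MvPolynomial.totalDegree_X_pow]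
      exact (Finset.mem_range.1 hl).le
    have h3 := MvPolynomial.totalDegree_mul (MvPolynomial.X (Sum.inr (j, some ((ix n).symm (p.1, c)))) :
      MvPolynomial ((Fin (n * n) ⊕ Fin q) ⊕ Fin k × Option (Fin (n * n))) K) (∑ l ∈ Finset.range n,
        MvPolynomial.C (algebraMap ℚ K (qeg N l c d)) * MvPolynomial.X (Sum.inr (j, none)) ^ l)
    rw [MvPolynomial.totalDegree_X] at h3
    omega

theorem sKg_val (K : IntermediateField ℚ ℂ) {q : ℕ} (Ω : Matrix (Fin n) (Fin n) ℂ) (w : Fin q → ℂ) (l : Fin k → ℂ)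
    (Z : Fin k → Matrix (Fin n) (Fin n) ℂ) (v : Cx n q k) :
    MvPolynomial.aeval (Sum.elim (Sum.elim (fun a => Ω (ix n a).1 (ix n a).2) w) (yp Z l)) (sKg K N q k v) =
      cpt Ω w l (fun i => Z i * E (cm N) (-l i) * Ω) v := by
  rcases v with (p | i) | ⟨j, _ | p⟩
  · show MvPolynomial.aeval _ (MvPolynomial.X _) = Ω p.1 p.2
    rw [MvPolynomial.aeval_X]
    show Ω (ix n ((ix n).symm p)).1 (ix n ((ix n).symm p)).2 = _
    rw [Equiv.apply_symm_apply]
  · show MvPolynomial.aeval _ (MvPolynomial.X _) = w i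
    rw [MvPolynomial.aeval_X]
    rfl
  · show MvPolynomial.aeval _ (MvPolynomial.X _) = l j
    rw [MvPolynomial.aeval_X]
    rfl
  · show MvPolynomial.aeval _ (∑ c, ∑ d, MvPolynomial.X (Sum.inr (j, some ((ix n).symm (p.1, c)))) *
      (∑ l ∈ Finset.range n, MvPolynomial.C (algebraMap ℚ K (qeg N l c d)) * MvPolynomial.X (Sum.inr (j, none)) ^ l) *
      MvPolynomial.X (Sum.inl (Sum.inl ((ix n).symm (d, p.2))))) = (Z j * E (cm N) (-l j) * Ω) p.1 p.2
    rw [map_sum, Matrix.mul_apply]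
    simp only [Matrix.mul_apply, Finset.sum_mul]
    rw [Finset.sum_comm]
    refine Finset.sum_congr rfl fun c _ => ?_
    rw [map_sum]
    refine Finset.sum_congr rfl fun d _ => ?_
    rw [map_mul, map_mul, map_sum, MvPolynomial.aeval_X, MvPolynomial.aeval_X, E_qeg]
    congr 1
    · congr 1
      · show Z j (ix n ((ix n).symm (p.1, c))).1 (ix n ((ix n).symm (p.1, c))).2 = _
        rw [Equiv.apply_symm_apply]
      · refine Finset.sum_congr rfl fun e _ => ?_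
        rw [map_mul, map_pow, MvPolynomial.aeval_X, MvPolynomial.aeval_C]
        rfl
    · show Ω (ix n ((ix n).symm (d, p.2))).1 (ix n ((ix n).symm (d, p.2))).2 = _
      rw [Equiv.apply_symm_apply]

theorem sKg_aeval (K : IntermediateField ℚ ℂ) {q : ℕ} (Ω : Matrix (Fin n) (Fin n) ℂ) (w : Fin q → ℂ) (l : Fin k → ℂ)
    (Z : Fin k → Matrix (Fin n) (Fin n) ℂ) (P : MvPolynomial (Cx n q k) K) :
    MvPolynomial.aeval (Sum.elim (Sum.elim (fun a => Ω (ix n a).1 (ix n a).2) w) (yp Z l))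
      (MvPolynomial.aeval (sKg K N q k) P) = MvPolynomial.aeval (cpt Ω w l (fun i => Z i * E (cm N) (-l i) * Ω)) P := by
  have h2 : MvPolynomial.aeval (Sum.elim (Sum.elim (fun a => Ω (ix n a).1 (ix n a).2) w) (yp Z l))
      (MvPolynomial.aeval (sKg K N q k) P) = MvPolynomial.aeval (fun v => MvPolynomial.aeval (Sum.elim (Sum.elim
        (fun a => Ω (ix n a).1 (ix n a).2) w) (yp Z l)) (sKg K N q k v)) P := MvPolynomial.aeval_bind₁ _ _ _
  rw [h2]
  simp only [sKg_val]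

/-- the product of torsors and of the lines of the logarithms -/
def Yg (T : ℂ → Set (Matrix (Fin n) (Fin n) ℂ)) (z : Fin k → ℂ) : Set (Fin k × Option (Fin (n * n)) → ℂ) :=
  {y | ∀ j, (fun o => y (j, o)) ∈ {y : Option (Fin (n * n)) → ℂ |
    (fun s => y (some s)) ∈ {y : Fin (n * n) → ℂ | ∃ X ∈ T (z j), y = fun a => X (ix n a).1 (ix n a).2}}}

theorem yg_irr {T : ℂ → Set (Matrix (Fin n) (Fin n) ℂ)} (hT : TG N H T) {z : Fin k → ℂ} (hz : ∀ j, ‖z j‖ < 1) (d : ℕ) :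
    Pool.Agent.Y916.Af.IrrD d (Yg T z) :=
  Pool.Agent.Y916.Af.prod_irrD _ fun j => Pool.Agent.Y916.Af.opt_irrD _
    (Pool.Agent.Y916.Af.irrD_of_irr (hT.irr (z j) (hz j)) d)

theorem yg_mem {T : ℂ → Set (Matrix (Fin n) (Fin n) ℂ)} {z : Fin k → ℂ} {Z : Fin k → Matrix (Fin n) (Fin n) ℂ}
    (hZ : ∀ i, Z i ∈ T (z i)) (l : Fin k → ℂ) : yp Z l ∈ Yg T z := fun j => ⟨Z j, hZ j, rfl⟩

end Pool.Agent.Run7.h225.HG.WINA

namespace Pool.Agent.Run7.h225.HG

open WINA in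
open Pool.Agent.Run7.h225.HG.SYS2 (cm_nil) in
open Pool.Agent.Y119.HA (Cx cpt yp aeval_degm) in
/-- **windows** -/
theorem p_WINA : S_WINA := by
  classical
  intro hGFS n N B H W T hS hT
  obtain ⟨TT, AA, hG1⟩ := hGFS n N B H W hS
  obtain ⟨G0, hG0, hW⟩ := Pool.Agent.Y916.Af.winDs (Pool.Agent.Y916.Af.nrh_of_gfs hG1) hG1.hsize
  refine ⟨G0, hG0, fun G hG Ω q k m d δ A => ?_⟩
  obtain ⟨δ₁, Ex, h1⟩ := hW G hG (n * n) (fun a => Ω (ix n a).1 (ix n a).2) q k m d (δ * (n + 2)) A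
  have hG1' : 1 ≤ G := hG0.trans hG
  have hGR : (1 : ℝ) ≤ G := by exact_mod_cast hG1'
  refine ⟨Ex + G + 2, fun M ξ hξ hHt w => ?_⟩
  have hH0 : (0 : ℝ) ≤ M := Nat.cast_nonneg M
  have hH2 : (2 : ℝ) ≤ (M : ℝ) + 2 := by linarith
  have hH1 : (1 : ℝ) ≤ (M : ℝ) + 2 := by linarith
  have hGp : (G : ℝ) ≤ ((M : ℝ) + 2) ^ G := by
    refine le_trans ?_ (pow_le_pow_left₀ (by norm_num) hH2 G)
    exact_mod_cast (Nat.lt_two_pow_self (n := G)).le
  have hbig : (G : ℝ) * (M + 2) * (M + 2) ≤ ‖ξ‖ := by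
    refine le_trans ?_ ((pow_le_pow_right₀ hH1 (by omega : G + 2 ≤ Ex + G + 2)).trans hξ)
    rw [pow_add, pow_two, mul_assoc]
    exact mul_le_mul_of_nonneg_right hGp (by positivity)
  obtain ⟨S, hSc, h2⟩ := h1 M ξ ((pow_le_pow_right₀ hH1 (by omega : Ex ≤ Ex + G + 2)).trans hξ) hHt w
  have hrange : Set.range (fun a => Ω (ix n a).1 (ix n a).2) = Set.range fun p : Fin n × Fin n => Ω p.1 p.2 := by
    ext x
    constructor
    · rintro ⟨a, rfl⟩
      exact ⟨ix n a, rfl⟩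
    · rintro ⟨p, rfl⟩
      exact ⟨(ix n).symm p, by simp⟩
  rw [hrange] at hSc
  refine ⟨S, hSc, fun u hu hub => ?_⟩
  have hα : ∀ j, 1 < ‖ξ - ((G * u j : ℕ) : ℂ)‖ := by
    intro j
    have h5 := norm_sub_norm_le ξ ((G * u j : ℕ) : ℂ)
    rw [Complex.norm_natCast] at h5
    have h6 : ((G * u j : ℕ) : ℝ) ≤ G * M := by
      push_cast
      exact mul_le_mul_of_nonneg_left (by exact_mod_cast (hub j).2.1) (by linarith)
    nlinarith
  refine ⟨hα, fun ℓ hℓ K hKf hKd P hPd hP0 l g hg => ?_⟩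
  have hz : ∀ j, ‖1 / (ξ - ((G * u j : ℕ) : ℂ))‖ < 1 := by
    intro j
    rw [norm_div, norm_one, div_lt_one (by linarith [hα j])]
    exact hα j
  have hN : cm N ^ n = 0 := cm_nil hS
  have h3 : Pool.Agent.Y916.Af.ptc (hfg H) (fun j => ξ - ((G * u j : ℕ) : ℂ)) ℓ =
      yp (fun j => Hf (Hcg H) (1 / (ξ - ((G * u j : ℕ) : ℂ)))) ℓ := by
    funext a
    rcases a with ⟨i, _ | j⟩
    · rfl
    · exact evc_hfg _ _
  have h4 := h2 u hu hub ℓ hℓ (Yg T fun j => 1 / (ξ - ((G * u j : ℕ) : ℂ))) (yg_irr hT hz δ₁) (by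
    rw [h3]
    exact yg_mem (fun i => hT.pt _ (hz i)) ℓ) (by
    intro y hy j
    obtain ⟨g', hg', h4⟩ := hy j
    have h5 : (fun i => y (j, some i)) = fun i => g' (ix n i).1 (ix n i).2 := h4
    rw [h5]
    exact hT.vc _ (hz j) g' hg') K hKf hKd (MvPolynomial.aeval (sKg K N q k) P) (aeval_degm _ (sKg_deg K N q k) P hPd) (by
    rw [h3, sKg_aeval]
    exact hP0) (yp (fun i => g i * E (cm N) (l i)) l) (yg_mem (fun i => hT.lin _ (hz i) _ (hg i) (l i)) l)
  rw [sKg_aeval] at h4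
  have h6 : (fun i => g i * E (cm N) (l i) * E (cm N) (-l i) * Ω) = fun i => g i * Ω := by
    funext i
    have e1 : E (cm N) (l i) * E (cm N) (-l i) = 1 := E_mul_neg hN (l i)
    rw [Matrix.mul_assoc (g i), e1, mul_one]
  rw [h6] at h4
  exact h4

end Pool.Agent.Run7.h225.HG
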