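import Pool.Agent.Run7.h225.HG.Iface

/-! Project HYG, piece SLG. -/

set_option autoImplicit false

open Matrix

namespace Pool.Agent.Run7.h225.HG

namespace SLG

/-- The diagonal matrix with entries `a, a⁻¹` as a product of elementary matrices. -/
theorem hyp {n : ℕ} (i j : Fin n) (hij : i ≠ j) (a b : ℂ) (hab : a * b = 1) :
    (1 + single i j a) * (1 + single j i (-b)) * (1 + single i j a) *
      ((1 + single i j (-1)) * (1 + single j i 1) * (1 + single i j (-1))) =
      diagonal (Pi.mulSingle i a * Pi.mulSingle j b) := by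
  have hd : diagonal (Pi.mulSingle i a * Pi.mulSingle j b) =
      1 + single i i (a - 1) + single j j (b - 1) := by
    ext p q
    by_cases hpq : p = q
    · subst hpq
      rw [diagonal_apply_eq, Pi.mul_apply, Matrix.add_apply, Matrix.add_apply, one_apply_eq]
      by_cases h1 : p = i
      · subst h1
        simp [hij, hij.symm, single_apply]
      · by_cases h2 : p = j
        · subst h2
          simp [h1, hij]
        · simp [h1, h2, Ne.symm h1, Ne.symm h2, single_apply]
    · rw [diagonal_apply_ne _ hpq, Matrix.add_apply, Matrix.add_apply, one_apply_ne hpq,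
        single_apply_of_ne, single_apply_of_ne]
      · simp
      · rintro ⟨h1, h2⟩
        exact hpq (h1.symm.trans h2)
      · rintro ⟨h1, h2⟩
        exact hpq (h1.symm.trans h2)
  rw [hd]
  simp only [add_mul, mul_add, one_mul, mul_one, single_mul_single_same,
    single_mul_single_of_ne _ _ _ _ hij, single_mul_single_of_ne _ _ _ _ hij.symm,
    add_zero]
  have e1 : a * -b = -1 := by rw [mul_neg, hab]
  have e2 : -b * a = -1 := by rw [neg_mul, mul_comm, hab]
  simp only [e1, e2]
  ext p q
  simp only [Matrix.add_apply, single_apply]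
  split_ifs <;> ring

theorem mem_diag {n : ℕ} (S : Submonoid (Matrix (Fin n) (Fin n) ℂ))
    (h : ∀ i j : Fin n, i ≠ j → ∀ c : ℂ, 1 + single i j c ∈ S) (D : Fin n → ℂ)
    (hD : ∏ i, D i = 1) : diagonal D ∈ S := by
  rcases n with _ | n
  · have : diagonal D = (1 : Matrix (Fin 0) (Fin 0) ℂ) := Subsingleton.elim _ _
    rw [this]
    exact S.one_mem
  · have hne : ∀ i, D i ≠ 0 := by
      intro i h0
      rw [Finset.prod_eq_zero (Finset.mem_univ i) h0] at hD
      exact zero_ne_one hD
    have h1 : D = ∏ i ∈ Finset.univ.erase (0 : Fin (n + 1)),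
        (Pi.mulSingle i (D i) * Pi.mulSingle 0 (D i)⁻¹ : Fin (n + 1) → ℂ) := by
      funext j
      rw [Finset.prod_apply]
      by_cases hj : j = 0
      · subst hj
        have h2 : ∀ i ∈ Finset.univ.erase (0 : Fin (n + 1)),
            (Pi.mulSingle i (D i) * Pi.mulSingle 0 (D i)⁻¹ : Fin (n + 1) → ℂ) 0 = (D i)⁻¹ := by
          intro i hi
          rw [Pi.mul_apply, Pi.mulSingle_eq_same, Pi.mulSingle_eq_of_ne (Finset.ne_of_mem_erase hi).symm,
            one_mul]
        rw [Finset.prod_congr rfl h2, Finset.prod_inv_distrib]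
        have h3 := Finset.mul_prod_erase Finset.univ D (Finset.mem_univ 0)
        rw [hD] at h3
        exact eq_inv_of_mul_eq_one_left h3
      · rw [Finset.prod_eq_single j]
        · rw [Pi.mul_apply, Pi.mulSingle_eq_same, Pi.mulSingle_eq_of_ne hj, mul_one]
        · intro i _ hi
          rw [Pi.mul_apply, Pi.mulSingle_eq_of_ne hi.symm, Pi.mulSingle_eq_of_ne hj, mul_one]
        · intro hj'
          exact absurd (Finset.mem_erase.2 ⟨hj, Finset.mem_univ j⟩) hj'
    have h2 : D ∈ S.comap (diagonalRingHom (Fin (n + 1)) ℂ : (Fin (n + 1) → ℂ) →* _) := by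
      rw [h1]
      refine Submonoid.prod_mem _ fun i hi => ?_
      show diagonal _ ∈ S
      have hi0 : i ≠ 0 := Finset.ne_of_mem_erase hi
      rw [← hyp i 0 hi0 (D i) (D i)⁻¹ (mul_inv_cancel₀ (hne i))]
      exact S.mul_mem (S.mul_mem (S.mul_mem (h _ _ hi0 _) (h _ _ hi0.symm _)) (h _ _ hi0 _))
        (S.mul_mem (S.mul_mem (h _ _ hi0 _) (h _ _ hi0.symm _)) (h _ _ hi0 _))
    exact h2

end SLG

theorem p_SLG : S_SLG := by
  intro n S hS g hg
  have h : ∀ i j : Fin n, i ≠ j → ∀ c : ℂ, 1 + single i j c ∈ S := by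
    intro i j hij c
    have h1 := hS (Pi.single i c) (Pi.single j 1) (by simp [hij])
    have h2 : single i j c = vecMulVec (Pi.single i c) (Pi.single j 1 : Fin n → ℂ) := by
      ext p q
      rw [vecMulVec_apply, single_apply, Pi.single_apply, Pi.single_apply]
      by_cases hp : i = p
      · subst hp
        by_cases hq : j = q
        · subst hq
          simp
        · simp [hq, Ne.symm hq]
      · simp [hp, Ne.symm hp]
    rw [h2]
    exact h1
  obtain ⟨L, L', D, hgD⟩ := Pivot.exists_list_transvec_mul_diagonal_mul_list_transvec g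
  have hL : ∀ L : List (TransvectionStruct (Fin n) ℂ), (L.map TransvectionStruct.toMatrix).prod ∈ S := by
    intro L
    refine S.list_prod_mem fun x hx => ?_
    obtain ⟨t, -, rfl⟩ := List.mem_map.1 hx
    exact h t.i t.j t.hij t.c
  rw [hgD]
  refine S.mul_mem (S.mul_mem (hL L) (SLG.mem_diag S h D ?_)) (hL L')
  rw [hgD, det_mul, det_mul, TransvectionStruct.det_toMatrix_prod,
    TransvectionStruct.det_toMatrix_prod, one_mul, mul_one, det_diagonal] at hg
  exact hg

end Pool.Agent.Run7.h225.HG
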