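import Pool.Agent.Run7.h225.HG.JW
import Pool.Agent.Run7.h225.HG.JC
import Pool.Agent.Run7.h225.HG.GFS
import Pool.Agent.Run7.h225.HG.WINA
import Pool.Agent.Run7.h225.HG.TUPA
import Pool.Agent.Run7.h594.HG.TGU

/-!
# The torsors of several hypergeometric families at algebraic points
-/

set_option autoImplicit false

open PowerSeries Matrix
open Pool.Agent.Y113 hiding Bm
open Pool.Agent.Y119.HZ
open Pool.Agent.Y119.HY (Am Jm Bm Hq cm E Hf Hc Yf Vr Rel Gal Sol PG Lens QD)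
open Run7.h893.HO

namespace Pool.Agent.Run7.h225.HG

variable {r : ℕ} {n : Fin r → ℕ} {Q : Fin r → Polynomial ℚ} {W : ∀ j, Matrix (Fin (n j)) (Fin (n j)) ℚ⟦X⟧}

theorem tg (hJ : JU n Q W) : TG (blk n ℚ fun j => Am (n j)) (blk n ℚ⟦X⟧ fun j => Hp (n j) (Q j)) (TU0 n Q) :=
  Run7.h594.HG.p_TGU Run7.h803.SOG.p_SOG r n Q W hJ (grpOK2 pieces hJ)

theorem mem_TU {m : ℕ} {P : Polynomial ℚ} (hP : QG m P) {z : ℂ} (hz : ‖z‖ < 1) (c : ℂ) :
    Hf (Hc m P) z * E (cm (Am m)) c ∈ TU m P (Complex.log (1 - z)) z :=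
  Run7.h594.HG.TU_mul (Run7.h594.HG.Hf_memU hP hz) (Run7.h594.HG.E_GU hP c)

end Pool.Agent.Run7.h225.HG
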