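import Pool.Agent.Run7.h225.HG.Iface7
import Pool.Agent.Run7.h225.HG.JB

/-!
# Several hypergeometric families at the same algebraic point
-/

set_option autoImplicit false

open PowerSeries Matrix
open Pool.Agent.Y113 hiding Bm
open Pool.Agent.Y120.GF Pool.Agent.Y120.GH Pool.Agent.Y119.HZ
open Pool.Agent.Y119.HY (Am Jm Bm Hq cm E Hf Hc Yf Vr Rel Gal Sol PG Lens QD)
open Pool.Agent.Y916.Al (Ht)
open Run7.h893.HO

namespace Pool.Agent.Run7.h225.HG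

/-- the coordinates of `k` numbers and `k` lists of matrices -/
abbrev Cj {r : ℕ} (n : Fin r → ℕ) (k : ℕ) : Type := Σ _ : Fin k, Option (Σ j : Fin r, Fin (n j) × Fin (n j))

/-- the point with the coordinates `l_i` and the entries of the matrices `X_ij` -/
def pjc {r : ℕ} {n : Fin r → ℕ} {k : ℕ} (l : Fin k → ℂ) (X : Fin k → ∀ j, Matrix (Fin (n j)) (Fin (n j)) ℂ) : Cj n k → ℂ
  | ⟨i, none⟩ => l i
  | ⟨i, some ⟨j, p⟩⟩ => X i j p.1 p.2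

/-- the coordinates of the constants -/
def cs {r : ℕ} {n : Fin r → ℕ} {q : ℕ} (Ω : ∀ j, Matrix (Fin (n j)) (Fin (n j)) ℂ) (w : Fin q → ℂ) :
    (Σ j : Fin r, Fin (n j) × Fin (n j)) ⊕ Fin q → ℂ := Sum.elim (fun p => Ω p.1 p.2.1 p.2.2) w

section maps

variable {r : ℕ} {n : Fin r → ℕ}

/-- the coordinates of the blocks in the block diagonal matrices -/
def rb (n : Fin r → ℕ) : (Σ j : Fin r, Fin (n j) × Fin (n j)) → Fin (∑ j, n j) × Fin (∑ j, n j) :=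
  fun p => (finSigmaFinEquiv ⟨p.1, p.2.1⟩, finSigmaFinEquiv ⟨p.1, p.2.2⟩)

lemma rb_inj : Function.Injective (rb n) := by
  rintro ⟨j, p⟩ ⟨j', p'⟩ h
  have h1 := congrArg Prod.fst h
  have h2 := congrArg Prod.snd h
  have h3 := finSigmaFinEquiv.injective h1
  have h4 := finSigmaFinEquiv.injective h2
  simp only [Sigma.mk.injEq] at h3 h4
  obtain ⟨rfl, h3⟩ := h3
  obtain ⟨-, h4⟩ := h4
  have : p = p' := Prod.ext (eq_of_heq h3) (eq_of_heq h4)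
  rw [this]

lemma blk_rb (X : ∀ j, Matrix (Fin (n j)) (Fin (n j)) ℂ) (p : Σ j : Fin r, Fin (n j) × Fin (n j)) :
    blk n ℂ X (rb n p).1 (rb n p).2 = X p.1 p.2.1 p.2.2 := by
  obtain ⟨j, p⟩ := p
  show blk n ℂ X (finSigmaFinEquiv ⟨j, p.1⟩) (finSigmaFinEquiv ⟨j, p.2⟩) = X j p.1 p.2
  rw [BLK.blk_apply, Equiv.symm_apply_apply, Equiv.symm_apply_apply, Matrix.blockDiagonal'_apply_eq]

/-- the coordinates -/
def rc (n : Fin r → ℕ) (k : ℕ) : Cj n k → Jx (fun _ : Fin k => ∑ j, n j)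
  | ⟨i, none⟩ => ⟨i, none⟩
  | ⟨i, some p⟩ => ⟨i, some (rb n p)⟩

lemma rc_inj (k : ℕ) : Function.Injective (rc n k) := by
  rintro ⟨i, _ | p⟩ ⟨i', _ | p'⟩ h
  · simp only [rc, Sigma.mk.injEq] at h
    obtain ⟨rfl, -⟩ := h
    rfl
  · exfalso
    simp only [rc, Sigma.mk.injEq] at h
    obtain ⟨rfl, h⟩ := h
    simp at h
  · exfalso
    simp only [rc, Sigma.mk.injEq] at h
    obtain ⟨rfl, h⟩ := h
    simp at h
  · simp only [rc, Sigma.mk.injEq] at h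
    obtain ⟨rfl, h⟩ := h
    rw [heq_eq_eq, Option.some.injEq] at h
    rw [rb_inj h]

lemma pw_rc {k : ℕ} (l : Fin k → ℂ) (X : Fin k → ∀ j, Matrix (Fin (n j)) (Fin (n j)) ℂ) :
    pw (n := fun _ : Fin k => ∑ j, n j) l (fun i => blk n ℂ (X i)) ∘ rc n k = pjc l X := by
  funext v
  obtain ⟨i, _ | ⟨j, p⟩⟩ := v
  · rfl
  · exact blk_rb (X i) ⟨j, p⟩

/-- all coordinates -/
def rt (n : Fin r → ℕ) (q k : ℕ) : ((Σ j : Fin r, Fin (n j) × Fin (n j)) ⊕ Fin q) ⊕ Cj n k →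
    Pool.Agent.Y119.HA.Cx (∑ j, n j) q k := Sum.map (Sum.map (rb n) id) (rc n k)

lemma cpt_rt {k q : ℕ} (Ω : ∀ j, Matrix (Fin (n j)) (Fin (n j)) ℂ) (w : Fin q → ℂ) (l : Fin k → ℂ)
    (X : Fin k → ∀ j, Matrix (Fin (n j)) (Fin (n j)) ℂ) :
    Pool.Agent.Y119.HA.cpt (blk n ℂ Ω) w l (fun i => blk n ℂ (X i)) ∘ rt n q k = Sum.elim (cs Ω w) (pjc l X) := by
  funext v
  obtain (p | a) | c := v
  · exact blk_rb Ω p
  · rfl
  · exact congrFun (pw_rc l X) c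

lemma adj_blk (Ω : ∀ j, Matrix (Fin (n j)) (Fin (n j)) ℂ) :
    IntermediateField.adjoin ℚ (insert (2 * Real.pi * Complex.I)
      (Set.range fun p : Fin (∑ j, n j) × Fin (∑ j, n j) => blk n ℂ Ω p.1 p.2)) =
    IntermediateField.adjoin ℚ (insert (2 * Real.pi * Complex.I)
      (Set.range fun p : Σ j : Fin r, Fin (n j) × Fin (n j) => Ω p.1 p.2.1 p.2.2)) := by
  apply le_antisymm
  · rw [IntermediateField.adjoin_le_iff]
    rintro x (rfl | ⟨p, rfl⟩)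
    · exact IntermediateField.subset_adjoin _ _ (Set.mem_insert _ _)
    · rcases BLK.blk_cases p.1 p.2 with h | ⟨j, i, k, h⟩
      · simp only [h]
        exact zero_mem _
      · simp only [h]
        exact IntermediateField.subset_adjoin _ _ (Set.mem_insert_of_mem _ ⟨⟨j, i, k⟩, rfl⟩)
  · rw [IntermediateField.adjoin_le_iff]
    rintro x (rfl | ⟨p, rfl⟩)
    · exact IntermediateField.subset_adjoin _ _ (Set.mem_insert _ _)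
    · exact IntermediateField.subset_adjoin _ _ (Set.mem_insert_of_mem _ ⟨rb n p, blk_rb Ω p⟩)

lemma trdeg_eq {K L : IntermediateField ℚ ℂ} (h : K = L) : Algebra.trdeg ℚ K = Algebra.trdeg ℚ L := by
  subst h
  rfl

lemma trdeg_blk (Ω : ∀ j, Matrix (Fin (n j)) (Fin (n j)) ℂ) :
    Algebra.trdeg ℚ (IntermediateField.adjoin ℚ (insert (2 * Real.pi * Complex.I)
      (Set.range fun p : Fin (∑ j, n j) × Fin (∑ j, n j) => blk n ℂ Ω p.1 p.2))) =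
    Algebra.trdeg ℚ (IntermediateField.adjoin ℚ (insert (2 * Real.pi * Complex.I)
      (Set.range fun p : Σ j : Fin r, Fin (n j) × Fin (n j) => Ω p.1 p.2.1 p.2.2))) := trdeg_eq (adj_blk Ω)

end maps

variable {r : ℕ} {n : Fin r → ℕ} {Q : Fin r → Polynomial ℚ} {W : ∀ j, Matrix (Fin (n j)) (Fin (n j)) ℚ⟦X⟧}

theorem grpOK2 (hH : HH) (hJ : JU n Q W) : GrpOK2 n Q := by
  obtain ⟨S, 𝔤, hS, hL, hex⟩ := hH.LGB r n (fun j => Am (n j)) (fun j => Bm (n j) (Q j)) (fun j => Hp (n j) (Q j)) W hJ.sys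
  intro g hg hg' hg2
  refine (hS _).1 (grp_all2 hH hJ hL hex hS 0 g (fun j => ?_) hg' hg2)
  rw [hg j, Int.cast_zero, mul_zero, mul_zero, Complex.exp_zero]

lemma Hf_mul_E (hJ : JU n Q W) (z c : ℂ) (Ω : ∀ j, Matrix (Fin (n j)) (Fin (n j)) ℂ) :
    Hf (Hcg (blk n ℚ⟦X⟧ fun j => Hp (n j) (Q j))) z * E (cm (blk n ℚ fun j => Am (n j))) c * blk n ℂ Ω =
      blk n ℂ fun j => Hf (Hc (n j) (Q j)) z * E (cm (Am (n j))) c * Ω j := by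
  have e1 : E (cm (blk n ℚ fun j => Am (n j))) c = blk n ℂ fun j => E (cm (Am (n j))) c :=
    (p_BLK r n (fun j => Am (n j)) (fun j => Bm (n j) (Q j)) (fun j => Hp (n j) (Q j)) W hJ.sys).2.2.1 c
  have e2 : Hf (Hcg (blk n ℚ⟦X⟧ fun j => Hp (n j) (Q j))) z = blk n ℂ fun j => Hf (Hc (n j) (Q j)) z := by
    rw [BLK.Hcg_blk, BLK.Hf_blk]
    simp only [Hcg_Hp]
  rw [e1, e2, ← map_mul, ← map_mul]
  rfl

/-- **windows** -/
theorem win_joint (hTG : TG (blk n ℚ fun j => Am (n j)) (blk n ℚ⟦X⟧ fun j => Hp (n j) (Q j)) (TU0 n Q))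
    (hGFS : S_GFS) (hW : S_WINA) (hJ : JU n Q W) :
    ∃ G0 : ℕ, 1 ≤ G0 ∧ ∀ G : ℕ, G0 ≤ G → ∀ (Ω : ∀ j, Matrix (Fin (n j)) (Fin (n j)) ℂ) (q k m d δ A : ℕ), ∃ Ex : ℕ,
      ∀ (M : ℕ) (ξ : ℂ), ((M : ℝ) + 2) ^ Ex ≤ ‖ξ‖ → Ht m A ξ → ∀ w : Fin q → ℂ, ∃ S : Finset ℕ,
      (S.card : Cardinal) ≤ Algebra.trdeg ℚ (IntermediateField.adjoin ℚ (insert (2 * Real.pi * Complex.I)
        (Set.range fun p : Σ j : Fin r, Fin (n j) × Fin (n j) => Ω p.1 p.2.1 p.2.2))) + q + 1 ∧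
      ∀ u : Fin k → ℕ, Function.Injective u → (∀ j, 1 ≤ u j ∧ u j ≤ M ∧ u j ∉ S) →
      (∀ j, 1 < ‖ξ - ((G * u j : ℕ) : ℂ)‖) ∧
      ∀ ℓ : Fin k → ℂ, (∀ j, Complex.exp (ℓ j) = ξ - ((G * u j : ℕ) : ℂ)) →
      ∀ K : IntermediateField ℚ ℂ, FiniteDimensional ℚ K → Module.finrank ℚ K ≤ d →
      ∀ P : MvPolynomial (((Σ j : Fin r, Fin (n j) × Fin (n j)) ⊕ Fin q) ⊕ Cj n k) K, P.totalDegree ≤ δ →
      MvPolynomial.aeval (Sum.elim (cs Ω w) (pjc ℓ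
        (fun i j => Hf (Hc (n j) (Q j)) (1 / (ξ - ((G * u i : ℕ) : ℂ))) * E (cm (Am (n j))) (-ℓ i) * Ω j))) P = 0 →
      ∀ (l : Fin k → ℂ) (g : Fin k → ∀ j, Matrix (Fin (n j)) (Fin (n j)) ℂ),
      (∀ i j, g i j ∈ TU (n j) (Q j) (Complex.log (1 - 1 / (ξ - ((G * u i : ℕ) : ℂ)))) (1 / (ξ - ((G * u i : ℕ) : ℂ)))) →
      MvPolynomial.aeval (Sum.elim (cs Ω w) (pjc l (fun i j => g i j * Ω j))) P = 0 := by
  have hS : Sys (∑ j, n j) (blk n ℚ fun j => Am (n j)) (blk n ℚ fun j => Bm (n j) (Q j))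
      (blk n ℚ⟦X⟧ fun j => Hp (n j) (Q j)) (blk n ℚ⟦X⟧ W) := (p_BLK r n _ _ _ W hJ.sys).1
  obtain ⟨G0, hG0, h⟩ := hW hGFS _ _ _ _ _ _ hS hTG
  refine ⟨G0, hG0, fun G hG Ω q k m d δ A => ?_⟩
  obtain ⟨Ex, h⟩ := h G hG (blk n ℂ Ω) q k m d δ A
  refine ⟨Ex, fun M ξ hξ hht w => ?_⟩
  obtain ⟨S, hScard, h⟩ := h M ξ hξ hht w
  refine ⟨S, (trdeg_blk Ω) ▸ hScard, fun u hu hub => ?_⟩
  obtain ⟨h1, h⟩ := h u hu hub
  refine ⟨h1, fun ℓ hℓ K hKf hKd P hPd hP0 l g hg => ?_⟩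
  have h2 := h ℓ hℓ K hKf hKd (MvPolynomial.rename (rt n q k) P) ((MvPolynomial.totalDegree_rename_le _ _).trans hPd) (by
    rw [MvPolynomial.aeval_rename]
    simp only [Hf_mul_E hJ]
    rw [cpt_rt]
    exact hP0) l (fun i => blk n ℂ (g i)) (fun i => ⟨g i, hg i, rfl⟩)
  rw [MvPolynomial.aeval_rename] at h2
  have h3 : (fun i => blk n ℂ (g i) * blk n ℂ Ω) = fun i => blk n ℂ fun j => g i j * Ω j := by
    funext i
    rw [← map_mul]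
    rfl
  rw [h3, cpt_rt] at h2
  exact h2

lemma coeff_rc {k : ℕ} (L : Type) [Field L] [Algebra L ℂ] (V : Submodule L ℂ) (P : MvPolynomial (Cj n k) ℂ)
    (h : ∀ s, P.coeff s ∈ V) (s) : (MvPolynomial.rename (rc n k) P).coeff s ∈ V := by
  classical
  by_cases hs : ∃ u, Finsupp.mapDomain (rc n k) u = s
  · obtain ⟨u, rfl⟩ := hs
    rw [MvPolynomial.coeff_rename_mapDomain _ (rc_inj k)]
    exact h u
  · rw [MvPolynomial.coeff_rename_eq_zero]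
    · exact V.zero_mem
    · intro u hu
      exact absurd ⟨u, hu⟩ hs

/-- the exceptional tuples -/
def ExcJ {r : ℕ} (n : Fin r → ℕ) (Q : Fin r → Polynomial ℚ) (δ d : ℕ) (V : Submodule ℚ ℂ) {k : ℕ}
    (Ω : Fin k → ∀ j, Matrix (Fin (n j)) (Fin (n j)) ℂ) (α : Fin k → ℂ) : Prop :=
  ∃ ℓ : Fin k → ℂ, (∀ i, Complex.exp (ℓ i) = α i) ∧
    ∃ L : IntermediateField ℚ ℂ, FiniteDimensional ℚ L ∧ Module.finrank ℚ L ≤ d ∧
    ∃ P : MvPolynomial (Cj n k) ℂ, P.totalDegree ≤ δ ∧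
      (∀ s, P.coeff s ∈ Submodule.span L (V : Set ℂ)) ∧
      MvPolynomial.aeval (pjc ℓ fun i j => Hf (Hc (n j) (Q j)) (1 / α i) * E (cm (Am (n j))) (-ℓ i) * Ω i j) P = 0 ∧
      ∃ (l : Fin k → ℂ) (g : Fin k → ∀ j, Matrix (Fin (n j)) (Fin (n j)) ℂ),
        (∀ i j, g i j ∈ TU (n j) (Q j) (Complex.log (1 - 1 / α i)) (1 / α i)) ∧
        MvPolynomial.aeval (pjc l fun i j => g i j * Ω i j) P ≠ 0

/-- **almost all tuples** -/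
theorem tup_joint (hTG : TG (blk n ℚ fun j => Am (n j)) (blk n ℚ⟦X⟧ fun j => Hp (n j) (Q j)) (TU0 n Q))
    (hGFS : S_GFS) (hT : S_TUPA) (hJ : JU n Q W) (k m δ d D : ℕ) (hm : 1 ≤ m) :
    ∃ c : ℝ, 0 < c ∧ ∃ C : ℝ, 0 ≤ C ∧ ∀ V : Submodule ℚ ℂ, Module.Finite ℚ V → Module.finrank ℚ V ≤ D →
      ∀ (Ω : Fin k → ∀ j, Matrix (Fin (n j)) (Fin (n j)) ℂ) (M : ℕ), 1 ≤ M →
      {α : Fin k → ℂ | (∀ i, Pool.Agent.Y916.Sl.SInt m M (α i)) ∧ ExcJ n Q δ d V Ω α}.Finite ∧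
      ({α : Fin k → ℂ | (∀ i, Pool.Agent.Y916.Sl.SInt m M (α i)) ∧ ExcJ n Q δ d V Ω α}.ncard : ℝ) ≤
        C * (M : ℝ) ^ (-c) * ({ξ : ℂ | Pool.Agent.Y916.Sl.SInt m M ξ}.ncard : ℝ) ^ k := by
  have hS : Sys (∑ j, n j) (blk n ℚ fun j => Am (n j)) (blk n ℚ fun j => Bm (n j) (Q j))
      (blk n ℚ⟦X⟧ fun j => Hp (n j) (Q j)) (blk n ℚ⟦X⟧ W) := (p_BLK r n _ _ _ W hJ.sys).1
  obtain ⟨c, hc, C, hC, h⟩ := hT hGFS _ _ _ _ _ _ hS hTG k m δ d D hm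
  refine ⟨c, hc, C, hC, fun V hVf hV Ω M hM => ?_⟩
  obtain ⟨h1, h2⟩ := h V hVf hV (fun i => blk n ℂ (Ω i)) M hM
  have hsub : {α : Fin k → ℂ | (∀ i, Pool.Agent.Y916.Sl.SInt m M (α i)) ∧ ExcJ n Q δ d V Ω α} ⊆
      {α : Fin k → ℂ | (∀ i, Pool.Agent.Y916.Sl.SInt m M (α i)) ∧ ExcG (blk n ℚ fun j => Am (n j))
        (blk n ℚ⟦X⟧ fun j => Hp (n j) (Q j)) (TU0 n Q) δ d V (fun i => blk n ℂ (Ω i)) α} := by
    rintro α ⟨hα, ℓ, hℓ, L, hL1, hL2, P, hPd, hPc, hP0, l, g, hg, hPg⟩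
    refine ⟨hα, ℓ, hℓ, L, hL1, hL2, MvPolynomial.rename (rc n k) P, (MvPolynomial.totalDegree_rename_le _ _).trans hPd,
      coeff_rc L _ P hPc, ?_, l, fun i => blk n ℂ (g i), fun i => ⟨g i, hg i, rfl⟩, ?_⟩
    · rw [MvPolynomial.aeval_rename]
      simp only [Hf_mul_E hJ]
      rw [pw_rc]
      exact hP0
    · rw [MvPolynomial.aeval_rename]
      have h3 : (fun i => blk n ℂ (g i) * blk n ℂ (Ω i)) = fun i => blk n ℂ fun j => g i j * Ω i j := by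
        funext i
        rw [← map_mul]
        rfl
      rw [h3, pw_rc]
      exact hPg
  refine ⟨h1.subset hsub, le_trans ?_ h2⟩
  exact_mod_cast Set.ncard_le_ncard hsub h1

end Pool.Agent.Run7.h225.HG
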