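import Pool.Agent.Run7.h225.HG.Jt

/-!
# Several hypergeometric families at the same fibre: the group and the torsor
-/

set_option autoImplicit false

open Matrix PowerSeries
open Pool.Agent.Y113 hiding Bm
open Pool.Agent.Y119.HZ
open Pool.Agent.Y119.HY (Am Jm Bm Hq cm E Hf Hc Yf Gal Sol PG Lens cm_mul cm_add ec uc Ac_ec Ac_last
  cm_zero cm_one cm_transpose cm_apply Ac_nil mem_Lens symm_Lens Jm_rel conj_E E_mul_neg QD om om_eq tv cm_Bm Jc_skew
  Jc_det Jc_rel sp_all connect tv_skew real_mem_Lens E_isom E_zero E_add)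
open Run7.h893.HO

namespace Pool.Agent.Run7.h225.HG

section one

variable {n : ℕ} {Q : Polynomial ℚ} {H' K K' : ℕ → Matrix (Fin n) (Fin n) ℂ} {M Mi : Matrix (Fin n) (Fin n) ℂ}

lemma QD_tr (hQ : QD n Q) : Q.coeff (n - 1) = 0 := by
  have h1 := hQ.two
  obtain ⟨m, hm⟩ := hQ.even
  exact hQ.sym _ ⟨m - 1, by omega⟩

lemma QD_BJ (hQ : QD n Q) : (cm (Bm n Q)).transpose * cm (Jm n Q) + cm (Jm n Q) * cm (Bm n Q) = 0 := by
  rw [cm_Bm hQ, transpose_neg, neg_mul, mul_neg, ← neg_add, tv_skew (Jc_skew hQ), neg_zero]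

/-- the connection matrix of a self-dual family is an isometry -/
theorem M_isom (hQ : QD n Q) (hQg : QG n Q) (h : CD (cm (Am n)) (cm (Bm n Q)) (Hc n Q) H' K K' M Mi) :
    M.transpose * cm (Jm n Q) * M = cm (Jm n Q) := by
  obtain ⟨M', Mi', h1, h2, h3, h4⟩ := connect (Jc_det hQ) Ac_nil Jc_rel (nB0 hQ.two (QD_tr hQ)) (QD_BJ hQ) (sol_c_g hQg) h.hK
  have hz : ((1 / 2 : ℝ) : ℂ) ∈ Lens := real_mem_Lens (by norm_num) (by norm_num)
  have h5 := (h.con _ hz).symm.trans (h4 _ hz)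
  set z : ℂ := ((1 / 2 : ℝ) : ℂ)
  have h6 : E (-cm (Bm n Q)) (-Complex.log (1 - z)) * (Hf K' (1 - z)).transpose * Yf (-cm (Bm n Q)) K (1 - z) = 1 := by
    unfold Yf
    calc E (-cm (Bm n Q)) (-Complex.log (1 - z)) * (Hf K' (1 - z)).transpose *
          (Hf K (1 - z) * E (-cm (Bm n Q)) (Complex.log (1 - z))) =
          E (-cm (Bm n Q)) (-Complex.log (1 - z)) * ((Hf K' (1 - z)).transpose * Hf K (1 - z)) *
            E (-cm (Bm n Q)) (Complex.log (1 - z)) := by simp only [Matrix.mul_assoc]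
      _ = 1 := by
        rw [h.iK (1 - z) (by
          have := (mem_Lens.1 (symm_Lens hz)).1
          rwa [Metric.mem_ball, dist_zero_right]), mul_one]
        have := E_mul_neg (nB0 hQ.two (QD_tr hQ)) (-Complex.log (1 - z))
        rwa [neg_neg] at this
  have h7 : M = M' := by
    have h8 := congrArg (fun X => E (-cm (Bm n Q)) (-Complex.log (1 - z)) * (Hf K' (1 - z)).transpose * X) h5
    rw [← Matrix.mul_assoc, ← Matrix.mul_assoc, h6, one_mul, one_mul] at h8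
    exact h8
  rw [h7]
  exact h3

/-- the functional of the transvection -/
theorem mu_eq (hQ : QD n Q) (hQg : QG n Q) (h : CD (cm (Am n)) (cm (Bm n Q)) (Hc n Q) H' K K' M Mi) :
    bb n Q ᵥ* M = -((Mi *ᵥ uc n) ᵥ* cm (Jm n Q)) := by
  have h1 := M_isom hQ hQg h
  have h2 : bb n Q = -(uc n ᵥ* cm (Jm n Q)) := by
    have h3 := (Bm_vec n Q).symm.trans (cm_Bm hQ)
    funext j
    have hn := hQ.two
    have h4 := congrFun (congrFun h3 (⟨n - 1, by omega⟩ : Fin n)) j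
    rw [Matrix.neg_apply, vecMulVec_apply, vecMulVec_apply] at h4
    have h5 : uc n (⟨n - 1, by omega⟩ : Fin n) = 1 := by
      unfold uc
      rw [if_pos (by simp only; omega)]
    rw [h5, one_mul, one_mul] at h4
    rw [h4]
    rfl
  have h3 : cm (Jm n Q) * M = Mi.transpose * cm (Jm n Q) := by
    calc cm (Jm n Q) * M = Mi.transpose * M.transpose * cm (Jm n Q) * M := by
          rw [← Matrix.transpose_mul, h.l, Matrix.transpose_one, one_mul]
      _ = Mi.transpose * (M.transpose * cm (Jm n Q) * M) := by simp only [Matrix.mul_assoc]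
      _ = _ := by rw [h1]
  rw [h2, neg_vecMul, vecMul_vecMul, h3, ← vecMul_vecMul, vecMul_transpose]

end one

section joint

variable {r : ℕ} {n : Fin r → ℕ} {Q : Fin r → Polynomial ℚ} {W : ∀ j, Matrix (Fin (n j)) (Fin (n j)) ℚ⟦X⟧}
  {K : ∀ j, ℕ → Matrix (Fin (n j)) (Fin (n j)) ℂ} {M Mi : ∀ j, Matrix (Fin (n j)) (Fin (n j)) ℂ}
  {N : ∀ j, Matrix (Fin (n j)) (Fin (n j)) ℂ}
  {S : Submonoid (∀ j, Matrix (Fin (n j)) (Fin (n j)) ℂ)} {𝔤 : Submodule ℂ (∀ j, Matrix (Fin (n j)) (Fin (n j)) ℂ)}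

/-- the block of `S` -/
def Sj (S : Submonoid (∀ j, Matrix (Fin (n j)) (Fin (n j)) ℂ)) (j : Fin r) : Submonoid (Matrix (Fin (n j)) (Fin (n j)) ℂ) :=
  S.comap (MonoidHom.mulSingle (fun j => Matrix (Fin (n j)) (Fin (n j)) ℂ) j)

lemma mem_Sj {j : Fin r} {g : Matrix (Fin (n j)) (Fin (n j)) ℂ} : g ∈ Sj S j ↔ Pi.mulSingle j g ∈ S := Iff.rfl

lemma Sj_E (hL : LP N S 𝔤) (j : Fin r) (c : ℂ) (g : Matrix (Fin (n j)) (Fin (n j)) ℂ) (hg : g ∈ Sj S j) :
    E (N j) c * g * E (N j) (-c) ∈ Sj S j := by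
  rw [mem_Sj] at hg ⊢
  refine (congrArg (· ∈ S) ?_).mp (hL.econj c _ hg)
  funext i
  by_cases hi : i = j
  · subst hi
    rw [Pi.mulSingle_eq_same, Pi.mulSingle_eq_same]
  · rw [Pi.mulSingle_eq_of_ne hi, Pi.mulSingle_eq_of_ne hi, mul_one, E_mul_neg (hL.nil i)]

lemma Sj_cl (hL : LP N S 𝔤) (j : Fin r) (M : Matrix (Fin (n j)) (Fin (n j)) (Polynomial ℂ))
    (h : ∀ c : ℂ, c ≠ 0 → M.map (Polynomial.eval c) ∈ Sj S j) : M.map (Polynomial.eval 0) ∈ Sj S j := by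
  set M' : ∀ j, Matrix (Fin (n j)) (Fin (n j)) (Polynomial ℂ) := Pi.mulSingle j M with hM'
  have e : ∀ c : ℂ, (fun i => (M' i).map (Polynomial.eval c)) = Pi.mulSingle j (M.map (Polynomial.eval c)) := by
    intro c
    funext i
    by_cases hi : i = j
    · subst hi
      rw [hM', Pi.mulSingle_eq_same, Pi.mulSingle_eq_same]
    · rw [hM', Pi.mulSingle_eq_of_ne hi, Pi.mulSingle_eq_of_ne hi]
      ext a b
      rw [Matrix.map_apply, Matrix.one_apply, Matrix.one_apply]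
      split_ifs <;> simp
  have h1 := hL.clos M' {c | c ≠ 0} (Set.infinite_of_finite_compl (by
    have : {c : ℂ | c ≠ 0}ᶜ = {0} := by
      ext c
      simp
    rw [this]
    exact Set.finite_singleton 0)) (fun c hc => by rw [e]; exact h c hc) 0
  rw [e] at h1
  exact h1

/-- unipotent families which are not self-dual -/
theorem Sj_sl (hASY : S_ASY) (hJ : JF n Q W) (hL : LP (fun j => cm (Am (n j))) S 𝔤)
    (hD : ∀ j, LD (n j) (Q j) (K j) (M j) (Mi j)) {j : Fin r} (hj : (Q j).coeff (n j - 1) = 0)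
    (hne : ¬ RatEq (Q j) (dq (n j) (Q j)))
    (h1 : ∀ s : ℂ, 1 + s • vecMulVec (Mi j *ᵥ uc (n j)) (bs (n j) (Q j) ᵥ* M j) ∈ Sj S j)
    (g : Matrix (Fin (n j)) (Fin (n j)) ℂ) (hg : g.det = 1) : g ∈ Sj S j := by
  have hQ := hJ.q j
  have hQ' := hJ.q' j
  have hn := hQ.two
  obtain ⟨H', K', h⟩ := (hD j).u hj
  obtain ⟨f1, f2, -⟩ := unip_facts hQ hQ' hj h
  have hb : bs (n j) (Q j) = bb (n j) (Q j) := by
    unfold bs
    rw [if_pos hj]
  rw [hb] at h1
  refine p_SLG (n j) (Sj S j) (fun w ξ hw => ?_) g hg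
  refine t_slt (n j) (cm (Am (n j))) (Mi j *ᵥ uc (n j)) (bb (n j) (Q j) ᵥ* M j) (Sj S j) Ac_nil f1 f2
    (fun c g hg => Sj_E hL j c g hg) h1 ?_ w ξ hw
  by_contra hcon
  push Not at hcon
  apply hne
  refine intw_dual p_INT hASY p_REC hQ hQ' hQ hQ' hj hj h h fun x => ?_
  rw [XX_vec, ← qf_trace, ← qf_trace]
  have h2 := p_SEPQ.2 (qp (cm (Am (n j))) (Mi j *ᵥ uc (n j)) (bb (n j) (Q j) ᵥ* M j)) ?_ ?_ x
  · rw [qp_eval, qp_eval] at h2
    exact h2
  · intro h0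
    have h2 := qp_deg (N := cm (Am (n j))) (Mi j *ᵥ uc (n j)) (bb (n j) (Q j) ᵥ* M j) (by omega) f2
    rw [h0, Polynomial.natDegree_zero] at h2
    omega
  · intro b c
    simp only [qp_eval]
    exact hcon b c

/-- self-dual families -/
theorem Sj_sp (hJ : JF n Q W) (hL : LP (fun j => cm (Am (n j))) S 𝔤) (hD : ∀ j, LD (n j) (Q j) (K j) (M j) (Mi j))
    {j : Fin r} (hQD : QD (n j) (Q j))
    (h1 : ∀ s : ℂ, 1 + s • vecMulVec (Mi j *ᵥ uc (n j)) (bs (n j) (Q j) ᵥ* M j) ∈ Sj S j)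
    (g : Matrix (Fin (n j)) (Fin (n j)) ℂ) (hg : g.transpose * cm (Jm (n j) (Q j)) * g = cm (Jm (n j) (Q j))) :
    g ∈ Sj S j := by
  have hj := QD_tr hQD
  obtain ⟨H', K', h⟩ := (hD j).u hj
  obtain ⟨f1, f2, -⟩ := unip_facts (hJ.q j) (hJ.q' j) hj h
  have hb : bs (n j) (Q j) = bb (n j) (Q j) := by
    unfold bs
    rw [if_pos hj]
  rw [hb] at h1
  have hμ := mu_eq hQD (hJ.q j) h
  rw [hμ] at h1 f2
  refine sp_all (Jc_skew hQD) (N := cm (Am (n j))) Ac_nil Jc_rel (v := Mi j *ᵥ uc (n j)) ?_ (Sj S j)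
    (fun c g hg => Sj_E hL j c g hg) (fun s => ?_) (Sj_cl hL j) (Jc_det hQD) g hg
  · rw [om_eq]
    rw [neg_dotProduct] at f2
    exact neg_ne_zero.1 f2
  · have h2 := h1 (-s)
    rw [vecMulVec_neg, smul_neg, neg_smul, neg_neg] at h2
    exact h2

/-- the types of the families -/
structure JT {r : ℕ} (n : Fin r → ℕ) (Q : Fin r → Polynomial ℚ) (W : ∀ j, Matrix (Fin (n j)) (Fin (n j)) ℚ⟦X⟧) : Prop
    extends JF n Q W where
  sd : ∀ j, (Q j).coeff (n j - 1) = 0 → QD (n j) (Q j) ∨ ¬ RatEq (Q j) (dq (n j) (Q j))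

/-- the torsor of one family, depending on a logarithm `l` of `1 - z` -/
def TJ (n : ℕ) (Q : Polynomial ℚ) (l : ℂ) : Set (Matrix (Fin n) (Fin n) ℂ) :=
  {X | X.det = Complex.exp (-((Q.coeff (n - 1) : ℚ) : ℂ) * l) ∧
    (QD n Q → X.transpose * cm (Jm n Q) * X = cm (Jm n Q))}

lemma YJ_mem {m : ℕ} {P : Polynomial ℚ} (hP : QG m P) {x : ℝ} (hx : 0 < x) (hx1 : x < 1) :
    Yf (cm (Am m)) (Hc m P) (x : ℂ) ∈ TJ m P (Complex.log (1 - (x : ℂ))) := by
  have hn := hP.two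
  constructor
  · rw [(Pool.Agent.Run7.h67.HG.t_DET m _ _ _ Ac_nil (sol_c_g hP) x hx hx1).1, tr_Bm (by omega)]
    congr 2
    have : (1 - (x : ℂ)) = ((1 - x : ℝ) : ℂ) := by push_cast; rfl
    rw [this, Complex.ofReal_log (by linarith)]
  · intro hQD
    exact Pool.Agent.Y119.HY.self_pair Ac_nil Jc_rel (QD_BJ hQD) (sol_c_g hP) (real_mem_Lens hx hx1)

/-- **the group of several families contains the tuples of the right determinants** -/
theorem grp_all (hSEP : S_SEP') (hSEPR : S_SEPR) (hREFLA : S_REFLA) (hLOCJ : S_LOCJ) (hASY : S_ASY) (hHQ : S_HQ)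
    (hINTR : S_INTR) (hASY2 : S_ASY2) (hJ : JT n Q W) (hL : LP (fun j => cm (Am (n j))) S 𝔤)
    (hS : ∀ g, g ∈ S ↔ blk n ℂ g ∈ Gal (YJ n Q)) (m : ℤ) (g : ∀ j, Matrix (Fin (n j)) (Fin (n j)) ℂ)
    (hg : ∀ j, (g j).det = Complex.exp (-((Q j).coeff (n j - 1) : ℚ) * (2 * Real.pi * Complex.I * m)))
    (hg' : ∀ j, QD (n j) (Q j) → (g j).transpose * cm (Jm (n j) (Q j)) * g j = cm (Jm (n j) (Q j))) : g ∈ S := by
  classical
  have hD' := fun j => LD_exists (hJ.q j) (hJ.typ j)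
  choose K M Mi hD using hD'
  have hM := LM_of hLOCJ hASY hHQ hINTR hASY2 hJ.toJF hD hS
  obtain ⟨hA, hB⟩ := grp hSEP hSEPR hREFLA hL hM
  set v : ∀ j, Fin (n j) → ℂ := fun j => Mi j *ᵥ uc (n j) with hv
  set μ : ∀ j, Fin (n j) → ℂ := fun j => bs (n j) (Q j) ᵥ* M j with hμ
  set ζ : Fin r → ℂ := fun j => Complex.exp (-(2 * Real.pi * Complex.I * ((Q j).coeff (n j - 1) : ℚ))) with hζ
  set R : ∀ j, Matrix (Fin (n j)) (Fin (n j)) ℂ := fun j =>
    1 + (ζ j ^ m - 1) • vecMulVec (if (Q j).coeff (n j - 1) = 0 then 0 else v j) (μ j) with hRd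
  set R' : ∀ j, Matrix (Fin (n j)) (Fin (n j)) ℂ := fun j =>
    1 + (ζ j ^ (-m) - 1) • vecMulVec (if (Q j).coeff (n j - 1) = 0 then 0 else v j) (μ j) with hRd'
  have hR : R ∈ S := by
    refine (congrArg (· ∈ S) ?_).mp (ref_part hL hM m)
    funext j
    rw [hRd]
    by_cases h0 : (Q j).coeff (n j - 1) = 0
    · simp only [if_pos h0]
    · simp only [if_neg h0]
  have hRR : R' * R = 1 := by
    funext j
    rw [Pi.mul_apply, Pi.one_apply]
    by_cases h0 : (Q j).coeff (n j - 1) = 0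
    · simp only [hRd, hRd', if_pos h0, zero_vecMulVec, smul_zero, add_zero, mul_one]
    · simp only [hRd, hRd', if_neg h0]
      have h1 := REFL.refl_mul (ζ := ζ j ^ (-m)) (P := vecMulVec (v j) (μ j)) (by
        rw [vecMulVec_mul_vecMulVec, (hM.ref j h0).1, one_smul]) (zpow_ne_zero _ (hM.zer j))
      rw [← _root_.zpow_neg, neg_neg] at h1
      exact h1
  have key : g * R' ∈ S := by
    refine all_of_single fun j => ?_
    rw [Pi.mul_apply]
    by_cases h0 : (Q j).coeff (n j - 1) = 0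
    · have e1 : R' j = 1 := by
        simp only [hRd', if_pos h0, zero_vecMulVec, smul_zero, add_zero]
      rw [e1, mul_one]
      rcases hJ.sd j h0 with h1 | h1
      · exact Sj_sp hJ.toJF hL hD h1 (fun s => hA j h0 s) (g j) (hg' j h1)
      · refine Sj_sl hASY hJ.toJF hL hD h0 h1 (fun s => hA j h0 s) (g j) ?_
        rw [hg j, h0, Rat.cast_zero, neg_zero, zero_mul, Complex.exp_zero]
    · refine hB j h0 _ ?_
      have e1 : R' j = 1 + (ζ j ^ (-m) - 1) • vecMulVec (v j) (μ j) := by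
        simp only [hRd', if_neg h0]
      rw [e1, Matrix.det_mul, det_refl (hM.ref j h0).1, hg j, hζ]
      simp only
      rw [← Complex.exp_int_mul, ← Complex.exp_add, ← Complex.exp_zero]
      congr 1
      push_cast
      ring
  have h2 : g * R' * R ∈ S := mul_mem key hR
  rwa [mul_assoc, hRR, mul_one] at h2

/-- **from the group to the torsor** -/
theorem tor_all (hSEP : S_SEP') (hSEPR : S_SEPR) (hREFLA : S_REFLA) (hLOCJ : S_LOCJ) (hASY : S_ASY) (hHQ : S_HQ)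
    (hINTR : S_INTR) (hASY2 : S_ASY2) (hLGB : S_LGB) (hJ : JT n Q W)
    {x : ℝ} (hx : 0 < x) (hx1 : x < 1) {l : ℂ} (hl : Complex.exp l = 1 - (x : ℂ))
    {X : ∀ j, Matrix (Fin (n j)) (Fin (n j)) ℂ} (hX : ∀ j, X j ∈ TJ (n j) (Q j) l) (c : ℂ) :
    ∃ g : ∀ j, Matrix (Fin (n j)) (Fin (n j)) ℂ, blk n ℂ g ∈ Gal (YJ n Q) ∧
      ∀ j, Yf (cm (Am (n j))) (Hc (n j) (Q j)) x * g j = X j * E (cm (Am (n j))) c := by
  obtain ⟨S, 𝔤, hS, hL⟩ := hLGB r n (fun j => Am (n j)) (fun j => Bm (n j) (Q j)) (fun j => Hp (n j) (Q j)) W hJ.sys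
  obtain ⟨m, hm'⟩ : ∃ m : ℤ, l = Complex.log (1 - (x : ℂ)) + m * (2 * Real.pi * Complex.I) := by
    rw [← Complex.exp_eq_exp_iff_exists_int, hl, Complex.exp_log]
    intro h0
    have : (1 - x : ℝ) = 0 := by exact_mod_cast h0
    linarith
  have hYd : ∀ j, (Yf (cm (Am (n j))) (Hc (n j) (Q j)) (x : ℂ)).det ≠ 0 := by
    intro j
    rw [(YJ_mem (hJ.q j) hx hx1).1]
    exact Complex.exp_ne_zero _
  refine ⟨fun j => (Yf (cm (Am (n j))) (Hc (n j) (Q j)) (x : ℂ))⁻¹ * (X j * E (cm (Am (n j))) c), ?_, fun j => ?_⟩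
  · refine (hS _).1 ?_
    refine grp_all hSEP hSEPR hREFLA hLOCJ hASY hHQ hINTR hASY2 hJ hL hS m _ (fun j => ?_) fun j hQD => ?_
    · have hu := hYd j
      rw [Matrix.det_mul, Matrix.det_mul, det_E c (hJ.q j), mul_one, Matrix.det_nonsing_inv, Ring.inverse_eq_inv',
        (hX j).1, (YJ_mem (hJ.q j) hx hx1).1, ← Complex.exp_neg, ← Complex.exp_add]
      congr 1
      rw [hm']
      ring
    · set Y := Yf (cm (Am (n j))) (Hc (n j) (Q j)) (x : ℂ) with hY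
      have h1 : Y.transpose * cm (Jm (n j) (Q j)) * Y = cm (Jm (n j) (Q j)) := (YJ_mem (hJ.q j) hx hx1).2 hQD
      have h2 : (X j).transpose * cm (Jm (n j) (Q j)) * X j = cm (Jm (n j) (Q j)) := (hX j).2 hQD
      have h3 := E_isom (Ac_nil (n := n j)) (Jc_rel (n := n j) (Q := Q j)) c
      have hu : IsUnit Y.det := Ne.isUnit (hYd j)
      have h4 : (Y⁻¹).transpose * cm (Jm (n j) (Q j)) * Y⁻¹ = cm (Jm (n j) (Q j)) := by
        calc (Y⁻¹).transpose * cm (Jm (n j) (Q j)) * Y⁻¹ =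
              (Y⁻¹).transpose * (Y.transpose * cm (Jm (n j) (Q j)) * Y) * Y⁻¹ := by rw [h1]
          _ = (Y * Y⁻¹).transpose * cm (Jm (n j) (Q j)) * (Y * Y⁻¹) := by
            rw [Matrix.transpose_mul]
            simp only [Matrix.mul_assoc]
          _ = _ := by rw [Matrix.mul_nonsing_inv _ hu, Matrix.transpose_one, one_mul, mul_one]
      have iso : ∀ A B : Matrix (Fin (n j)) (Fin (n j)) ℂ, A.transpose * cm (Jm (n j) (Q j)) * A = cm (Jm (n j) (Q j)) →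
          B.transpose * cm (Jm (n j) (Q j)) * B = cm (Jm (n j) (Q j)) →
          (A * B).transpose * cm (Jm (n j) (Q j)) * (A * B) = cm (Jm (n j) (Q j)) := by
        intro A B hA hB
        rw [Matrix.transpose_mul]
        calc B.transpose * A.transpose * cm (Jm (n j) (Q j)) * (A * B) =
              B.transpose * (A.transpose * cm (Jm (n j) (Q j)) * A) * B := by simp only [Matrix.mul_assoc]
          _ = _ := by rw [hA, hB]
      exact iso _ _ h4 (iso _ _ h2 h3)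
  · have hu : IsUnit (Yf (cm (Am (n j))) (Hc (n j) (Q j)) (x : ℂ)).det := Ne.isUnit (hYd j)
    rw [← Matrix.mul_assoc, Matrix.mul_nonsing_inv _ hu, one_mul]

end joint

end Pool.Agent.Run7.h225.HG
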