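import Pool.Agent.Run7.h225.HG.Pair
import Pool.Agent.Run7.h225.HG.Tup
import Pool.Agent.Run7.h225.HG.BLK

/-!
# Several hypergeometric families at the same fibre: the local monodromies
-/

set_option autoImplicit false

open Matrix PowerSeries
open Pool.Agent.Y113 hiding Bm
open Pool.Agent.Y119.HZ
open Pool.Agent.Y119.HY (Am Jm Bm Hq cm E Hf Hc Yf Gal Sol PG Lens cm_mul cm_add ec uc Ac_ec Ac_last
  cm_zero cm_one cm_transpose cm_apply Ac_nil mem_Lens symm_Lens Jm_rel conj_E E_mul_neg)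
open Run7.h893.HO

namespace Pool.Agent.Run7.h225.HG

/-! ### one family -/

/-- the function of the logarithm in the local monodromy at `1` -/
noncomputable def tau (s : ℚ) (l : ℂ) : ℂ := if s = 0 then -l else Complex.exp (-(s : ℂ) * l) - 1

/-- the functional of the pseudo-reflection -/
noncomputable def bs (n : ℕ) (Q : Polynomial ℚ) : Fin n → ℂ :=
  if Q.coeff (n - 1) = 0 then bb n Q else ((Q.coeff (n - 1) : ℚ) : ℂ)⁻¹ • bb n Q

section one

variable {n : ℕ} {Q : Polynomial ℚ} {K : ℕ → Matrix (Fin n) (Fin n) ℂ} {M Mi : Matrix (Fin n) (Fin n) ℂ}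

/-- the local data at `1` -/
structure LD (n : ℕ) (Q : Polynomial ℚ) (K : ℕ → Matrix (Fin n) (Fin n) ℂ) (M Mi : Matrix (Fin n) (Fin n) ℂ) : Prop where
  u : Q.coeff (n - 1) = 0 → ∃ H' K', CD (cm (Am n)) (cm (Bm n Q)) (Hc n Q) H' K K' M Mi
  r : Q.coeff (n - 1) ≠ 0 → ∃ H' K', CR (Q.coeff (n - 1)) (cm (Am n)) (cm (Bm n Q)) (Hc n Q) H' K K' M Mi

theorem LD_exists (hQ : QG n Q) (ht : Q.coeff (n - 1) = 0 ∨ ∀ a : ℤ, (a : ℚ) ≠ 2 * Q.coeff (n - 1)) :
    ∃ K M Mi, LD n Q K M Mi := by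
  have hn := hQ.two
  rcases ht with h | h
  · obtain ⟨H', K, K', M, Mi, hc⟩ := p_CON n _ _ _ Ac_nil (nB0 hn h) (sol_c_g hQ)
    exact ⟨K, M, Mi, fun _ => ⟨H', K', hc⟩, fun h' => absurd h h'⟩
  · obtain ⟨H', K, K', M, Mi, hc⟩ := CR_exists hQ (fun a ha => h (2 * a) (by push_cast; rw [ha]))
    refine ⟨K, M, Mi, fun h' => ?_, fun _ => ⟨H', K', hc⟩⟩
    exfalso
    apply h 0
    rw [h', mul_zero, Int.cast_zero]

lemma LD.l (h : LD n Q K M Mi) : M * Mi = 1 := by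
  by_cases h0 : Q.coeff (n - 1) = 0
  · obtain ⟨_, _, hc⟩ := h.u h0
    exact hc.l
  · obtain ⟨_, _, hc⟩ := h.r h0
    exact hc.l

lemma LD.gK (hQ : QG n Q) (h : LD n Q K M Mi) (i j : Fin n) : PG fun k => K k i j := by
  by_cases h0 : Q.coeff (n - 1) = 0
  · obtain ⟨_, _, hc⟩ := h.u h0
    exact hc.hK.growth (nB0 hQ.two h0) i j
  · obtain ⟨_, _, hc⟩ := h.r h0
    exact hc.gK i j

lemma LD.con (hQ : QG n Q) (h : LD n Q K M Mi) {z : ℂ} (hz : z ∈ Lens) : Yf (cm (Am n)) (Hc n Q) z =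
    Hf K (1 - z) * (1 + tau (Q.coeff (n - 1)) (Complex.log (1 - z)) • vecMulVec (uc n) (bs n Q)) * M := by
  by_cases h0 : Q.coeff (n - 1) = 0
  · obtain ⟨_, _, hc⟩ := h.u h0
    rw [hc.con z hz]
    unfold Yf tau bs
    rw [E_nB hQ.two h0, if_pos h0, if_pos h0, ← Bm_vec]
  · obtain ⟨_, _, hc⟩ := h.r h0
    rw [hc.con z hz]
    unfold tau bs
    rw [if_neg h0, if_neg h0, vecMulVec_smul, ← Bm_vec]

lemma bs_uc (hQ : QG n Q) : bs n Q ⬝ᵥ uc n = if Q.coeff (n - 1) = 0 then 0 else 1 := by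
  have hn := hQ.two
  unfold bs
  by_cases h0 : Q.coeff (n - 1) = 0
  · rw [if_pos h0, if_pos h0, bb_uc (by omega), h0, Rat.cast_zero]
  · rw [if_neg h0, if_neg h0, smul_dotProduct, bb_uc (by omega), smul_eq_mul, inv_mul_cancel₀]
    exact_mod_cast h0

lemma tau_diff (s : ℚ) : Differentiable ℂ (tau s) := by
  unfold tau
  split_ifs
  · exact differentiable_id.neg
  · exact ((differentiable_id.const_mul _).cexp).sub_const _

/-- the local monodromy -/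
lemma tau_mul (hQ : QG n Q) (a b : ℂ) :
    (1 + tau (Q.coeff (n - 1)) a • vecMulVec (uc n) (bs n Q)) * (1 + tau (Q.coeff (n - 1)) b • vecMulVec (uc n) (bs n Q)) =
      1 + tau (Q.coeff (n - 1)) (a + b) • vecMulVec (uc n) (bs n Q) := by
  rw [add_mul, one_mul, mul_add, mul_one, smul_mul_smul_comm, vecMulVec_mul_vecMulVec, bs_uc hQ]
  unfold tau
  by_cases h0 : Q.coeff (n - 1) = 0
  · rw [if_pos h0, if_pos h0, if_pos h0, if_pos h0, zero_smul, vecMulVec_zero, smul_zero, add_zero, neg_add, add_smul]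
    abel
  · rw [if_neg h0, if_neg h0, if_neg h0, if_neg h0, one_smul, mul_add (-_) a b, Complex.exp_add]
    set x := Complex.exp (-((Q.coeff (n - 1) : ℚ) : ℂ) * a)
    set y := Complex.exp (-((Q.coeff (n - 1) : ℚ) : ℂ) * b)
    rw [show x * y - 1 = (x - 1) + (y - 1) + (x - 1) * (y - 1) by ring, add_smul, add_smul]
    abel

lemma conj_tau (h : LD n Q K M Mi) (a : ℂ) : Mi * (1 + a • vecMulVec (uc n) (bs n Q)) * M =
    1 + a • vecMulVec (Mi *ᵥ uc n) (bs n Q ᵥ* M) := by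
  rw [mul_add, mul_one, add_mul, mul_eq_one_comm.1 h.l, mul_smul_comm, smul_mul_assoc, mul_vecMulVec, vecMulVec_mul]

lemma LD.facts (hQ : QG n Q) (hQ' : QG n (dq n Q)) (h : LD n Q K M Mi) :
    (bs n Q ᵥ* M) ⬝ᵥ (Mi *ᵥ uc n) = (if Q.coeff (n - 1) = 0 then 0 else 1) ∧
    (bs n Q ᵥ* M) ⬝ᵥ ((cm (Am n) ^ (n - 1)) *ᵥ (Mi *ᵥ uc n)) ≠ 0 := by
  by_cases h0 : Q.coeff (n - 1) = 0
  · obtain ⟨_, _, hc⟩ := h.u h0
    obtain ⟨f1, f2, -⟩ := unip_facts hQ hQ' h0 hc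
    rw [if_pos h0]
    unfold bs
    rw [if_pos h0]
    exact ⟨f1, f2⟩
  · obtain ⟨_, _, hc⟩ := h.r h0
    obtain ⟨f1, f2⟩ := refl_facts' hQ hQ' rfl h0 hc
    rw [if_neg h0]
    unfold bs
    rw [if_neg h0]
    exact ⟨f1, f2⟩

end one

/-! ### several families -/

/-- several families at the same fibre -/
structure JF {r : ℕ} (n : Fin r → ℕ) (Q : Fin r → Polynomial ℚ) (W : ∀ j, Matrix (Fin (n j)) (Fin (n j)) ℚ⟦X⟧) : Prop where
  q : ∀ j, QG (n j) (Q j)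
  q' : ∀ j, QG (n j) (dq (n j) (Q j))
  typ : ∀ j, (Q j).coeff (n j - 1) = 0 ∨ ∀ a : ℤ, (a : ℚ) ≠ 2 * (Q j).coeff (n j - 1)
  sys : ∀ j, Sys (n j) (Am (n j)) (Bm (n j) (Q j)) (Hp (n j) (Q j)) (W j)
  ne : ∀ i j, i ≠ j → n i = n j → ¬ RatEq (Q i) (Q j) ∧ ¬ RatEq (Q i) (dq (n j) (Q j))

variable {r : ℕ} {n : Fin r → ℕ} {Q : Fin r → Polynomial ℚ} {W : ∀ j, Matrix (Fin (n j)) (Fin (n j)) ℚ⟦X⟧}
  {K : ∀ j, ℕ → Matrix (Fin (n j)) (Fin (n j)) ℂ} {M Mi : ∀ j, Matrix (Fin (n j)) (Fin (n j)) ℂ}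

/-- the joint solution -/
noncomputable def YJ {r : ℕ} (n : Fin r → ℕ) (Q : Fin r → Polynomial ℚ) :
    ℂ → Matrix (Fin (∑ j, n j)) (Fin (∑ j, n j)) ℂ :=
  Yf (cm (blk n ℚ fun j => Am (n j))) (Hcg (blk n ℚ⟦X⟧ fun j => Hp (n j) (Q j)))

lemma YJ_eq (hJ : JF n Q W) (z : ℂ) : YJ n Q z = blk n ℂ fun j => Yf (cm (Am (n j))) (Hc (n j) (Q j)) z := by
  obtain ⟨-, h, -⟩ := p_BLK r n (fun j => Am (n j)) (fun j => Bm (n j) (Q j)) (fun j => Hp (n j) (Q j)) W hJ.sys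
  rw [YJ, h]
  simp only [Hcg_Hp]

/-- the joint local monodromies at `1` preserve the relations -/
theorem loc_mem (hLOCJ : S_LOCJ) (hJ : JF n Q W) (hD : ∀ j, LD (n j) (Q j) (K j) (M j) (Mi j)) (m : ℤ) :
    blk n ℂ (fun j => 1 + tau ((Q j).coeff (n j - 1)) (2 * Real.pi * Complex.I * m) •
      vecMulVec (Mi j *ᵥ uc (n j)) (bs (n j) (Q j) ᵥ* M j)) ∈ Gal (YJ n Q) := by
  have h1 := hLOCJ (∑ j, n j) (YJ n Q) (fun k => blk n ℂ fun j => K j k)
    (fun l => blk n ℂ fun j => 1 + tau ((Q j).coeff (n j - 1)) l • vecMulVec (uc (n j)) (bs (n j) (Q j)))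
    (blk n ℂ fun j => 1 + tau ((Q j).coeff (n j - 1)) (2 * Real.pi * Complex.I * m) •
      vecMulVec (uc (n j)) (bs (n j) (Q j))) (blk n ℂ M) (blk n ℂ Mi) m ?_ ?_ ?_ ?_ ?_
  · rw [← map_mul, ← map_mul] at h1
    refine (congrArg (fun g => blk n ℂ g ∈ Gal (YJ n Q)) ?_).mp h1
    funext j
    exact conj_tau (hD j) _
  · intro a b
    rcases BLK.blk_cases a b with h | ⟨j, i, k, h⟩
    · simp only [h]
      exact PG.zero
    · simp only [h]
      exact (hD j).gK (hJ.q j) i k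
  · intro a b
    rcases BLK.blk_cases a b with h | ⟨j, i, k, h⟩
    · simp only [h]
      exact differentiable_const 0
    · simp only [h, Matrix.add_apply, Matrix.smul_apply, smul_eq_mul]
      exact ((tau_diff _).mul_const _).const_add _
  · rw [← map_mul, ← map_one (blk n ℂ)]
    congr 1
    funext j
    exact (hD j).l
  · intro x hx hx1
    rw [YJ_eq hJ, BLK.Hf_blk, ← map_mul, ← map_mul]
    congr 1
    funext j
    exact (hD j).con (hJ.q j) (Pool.Agent.Y119.HY.real_mem_Lens hx hx1)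
  · intro z
    rw [← map_mul]
    congr 1
    funext j
    exact (tau_mul (hJ.q j) _ _).symm

/-- **the local monodromies at `1`** -/
theorem LM_of (hLOCJ : S_LOCJ) (hASY : S_ASY) (hHQ : S_HQ) (hINTR : S_INTR) (hASY2 : S_ASY2) (hJ : JF n Q W)
    (hD : ∀ j, LD (n j) (Q j) (K j) (M j) (Mi j))
    {S : Submonoid (∀ j, Matrix (Fin (n j)) (Fin (n j)) ℂ)} (hS : ∀ g, g ∈ S ↔ blk n ℂ g ∈ Gal (YJ n Q)) :
    LM (fun j => cm (Am (n j))) S (fun j => Mi j *ᵥ uc (n j)) (fun j => bs (n j) (Q j) ᵥ* M j)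
      (fun j => Complex.exp (-(2 * Real.pi * Complex.I * ((Q j).coeff (n j - 1) : ℚ))))
      (fun j => (Q j).coeff (n j - 1) = 0) (-(2 * Real.pi * Complex.I)) where
  two := fun j => (hJ.q j).two
  cyc := fun j => ((hD j).facts (hJ.q j) (hJ.q' j)).2
  kap := neg_ne_zero.2 Complex.two_pi_I_ne_zero
  zer := fun j => Complex.exp_ne_zero _
  ord := by
    refine ⟨∏ j, ((Q j).coeff (n j - 1)).den, Finset.prod_pos fun j _ => Rat.den_pos _, fun j _ => ?_⟩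
    obtain ⟨c, hc⟩ : ((Q j).coeff (n j - 1)).den ∣ ∏ j, ((Q j).coeff (n j - 1)).den := Finset.dvd_prod_of_mem _ (Finset.mem_univ j)
    rw [hc, pow_mul, Complex.exp_neg, inv_pow, (zeta_primitive _).pow_eq_one, inv_one, one_pow]
  uni := by
    intro j hj
    have := ((hD j).facts (hJ.q j) (hJ.q' j)).1
    rw [if_pos hj] at this
    exact this
  ref := by
    intro j hj
    have := ((hD j).facts (hJ.q j) (hJ.q' j)).1
    rw [if_neg hj] at this
    refine ⟨this, ?_⟩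
    rw [Complex.exp_neg, inv_pow]
    intro h
    have h2 := zeta_sq ((hJ.typ j).resolve_left hj)
    rw [inv_eq_one] at h
    exact h2 h
  mem := by
    intro m
    rw [hS]
    refine (congrArg (fun g => blk n ℂ g ∈ Gal (YJ n Q)) ?_).mp (loc_mem hLOCJ hJ hD m)
    funext j
    congr 2
    unfold tau
    by_cases h0 : (Q j).coeff (n j - 1) = 0
    · rw [if_pos h0, if_pos h0]
      ring
    · rw [if_neg h0, if_neg h0, ← Complex.exp_int_mul]
      congr 2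
      ring
  sepU := by
    intro i j hij hi hj
    obtain ⟨H₁', K₁', h₁⟩ := (hD i).u hi
    obtain ⟨H₂', K₂', h₂⟩ := (hD j).u hj
    exact sepU_pair hASY (hJ.q i) (hJ.q' i) (hJ.q j) (hJ.q' j) hi hj h₁ h₂ (hJ.ne i j hij) rfl
      (by simp only [bs, if_pos hi]) rfl (by simp only [bs, if_pos hj])
  sepR := by
    intro i j hij hi hj
    obtain ⟨H₁', K₁', h₁⟩ := (hD i).r hi
    obtain ⟨H₂', K₂', h₂⟩ := (hD j).r hj
    obtain ⟨hA, hB⟩ := sepR_pair hHQ hINTR hASY2 (hJ.q i) (hJ.q' i) (hJ.q j) (hJ.q' j) rfl rfl hi hj h₁ h₂ (hJ.ne i j hij)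
      (v₁ := Mi i *ᵥ uc (n i)) (μ₁ := bs (n i) (Q i) ᵥ* M i) (v₂ := Mi j *ᵥ uc (n j)) (μ₂ := bs (n j) (Q j) ᵥ* M j) rfl
      (by simp only [bs, if_neg hi]) rfl (by simp only [bs, if_neg hj])
    have key : ∀ x y : ℂ, Complex.exp (-(2 * Real.pi * Complex.I * x)) = Complex.exp (-(2 * Real.pi * Complex.I * y)) →
        ∃ m : ℤ, x = y + m := by
      intro x y h
      rw [Complex.exp_eq_exp_iff_exists_int] at h
      obtain ⟨m, hm'⟩ := h
      refine ⟨-m, ?_⟩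
      have hpi : (2 * (Real.pi : ℂ) * Complex.I) ≠ 0 := Complex.two_pi_I_ne_zero
      have : x * (2 * Real.pi * Complex.I) = (y + ((-m : ℤ) : ℂ)) * (2 * Real.pi * Complex.I) := by
        push_cast
        linear_combination -hm'
      exact mul_right_cancel₀ hpi this
    have hcast : ∀ (x y : ℚ) (m : ℤ), (x : ℂ) = (y : ℂ) + m → x = y + m := by
      intro x y m h
      have : ((x : ℚ) : ℂ) = ((y + m : ℚ) : ℂ) := by
        push_cast
        exact h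
      exact Rat.cast_injective this
    refine ⟨fun h => hA ?_, fun h => hB ?_⟩
    · obtain ⟨m, hm'⟩ := key _ _ h
      exact ⟨m, hcast _ _ _ hm'⟩
    · have h2 : Complex.exp (-(2 * Real.pi * Complex.I * (((Q i).coeff (n i - 1) : ℚ) : ℂ))) =
          Complex.exp (-(2 * Real.pi * Complex.I * (-(((Q j).coeff (n j - 1) : ℚ) : ℂ)))) := by
        have h3 : Complex.exp (-(2 * Real.pi * Complex.I * (-(((Q j).coeff (n j - 1) : ℚ) : ℂ)))) *
            Complex.exp (-(2 * Real.pi * Complex.I * (((Q j).coeff (n j - 1) : ℚ) : ℂ))) = 1 := by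
          rw [← Complex.exp_add, ← Complex.exp_zero]
          congr 1
          ring
        exact mul_right_cancel₀ (Complex.exp_ne_zero _) (h.trans h3.symm)
      obtain ⟨m, hm'⟩ := key _ _ h2
      refine ⟨m, ?_⟩
      have h4 := hcast ((Q i).coeff (n i - 1)) (-(Q j).coeff (n j - 1)) m (by push_cast; exact hm')
      rw [h4]
      ring

end Pool.Agent.Run7.h225.HG
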