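import Pool.Agent.Run7.h225.HG.GRP2
import Pool.Agent.Run7.h225.HG.Jg
import Pool.Agent.Run7.h893.HO.Odd

/-!
# Several hypergeometric families at the same fibre, all types
-/

set_option autoImplicit false

open Matrix PowerSeries
open Pool.Agent.Y113 hiding Bm
open Pool.Agent.Y119.HZ
open Pool.Agent.Y119.HY (Am Jm Bm Hq cm E Hf Hc Yf Gal Sol PG Lens cm_mul cm_add ec uc Ac_ec Ac_last
  cm_zero cm_one cm_transpose cm_apply Ac_nil mem_Lens symm_Lens Jm_rel conj_E E_mul_neg QD om om_eq tv cm_Bm Jc_skew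
  Jc_det Jc_rel sp_all connect tv_skew real_mem_Lens E_isom E_zero E_add)
open Run7.h893.HO

namespace Pool.Agent.Run7.h225.HG

/-! ### one family -/

section one

variable {n : ℕ} {Q : Polynomial ℚ} {K : ℕ → Matrix (Fin n) (Fin n) ℂ} {M Mi : Matrix (Fin n) (Fin n) ℂ}

theorem LD_exists2 (hQ : QG n Q) (ht : Q.coeff (n - 1) = 0 ∨ ∀ a : ℤ, (a : ℚ) ≠ Q.coeff (n - 1)) :
    ∃ K M Mi, LD n Q K M Mi := by
  have hn := hQ.two
  rcases ht with h | h
  · obtain ⟨H', K, K', M, Mi, hc⟩ := p_CON n _ _ _ Ac_nil (nB0 hn h) (sol_c_g hQ)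
    exact ⟨K, M, Mi, fun _ => ⟨H', K', hc⟩, fun h' => absurd h h'⟩
  · obtain ⟨H', K, K', M, Mi, hc⟩ := CR_exists hQ h
    refine ⟨K, M, Mi, fun h' => ?_, fun _ => ⟨H', K', hc⟩⟩
    exfalso
    apply h 0
    rw [h', Int.cast_zero]

/-- the local monodromy of one family -/
theorem loc_one (hLOCJ : S_LOCJ) (hQ : QG n Q) (h : LD n Q K M Mi) (m : ℤ) :
    1 + tau (Q.coeff (n - 1)) (2 * Real.pi * Complex.I * m) • vecMulVec (Mi *ᵥ uc n) (bs n Q ᵥ* M) ∈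
      Gal (Yf (cm (Am n)) (Hc n Q)) := by
  have h1 := hLOCJ n (Yf (cm (Am n)) (Hc n Q)) K (fun l => 1 + tau (Q.coeff (n - 1)) l • vecMulVec (uc n) (bs n Q))
    (1 + tau (Q.coeff (n - 1)) (2 * Real.pi * Complex.I * m) • vecMulVec (uc n) (bs n Q)) M Mi m (fun i j => h.gK hQ i j)
    (fun i j => by
      simp only [Matrix.add_apply, Matrix.smul_apply, smul_eq_mul]
      exact ((tau_diff _).mul_const _).const_add _) h.l
    (fun x hx hx1 => h.con hQ (real_mem_Lens hx hx1)) (fun z => (tau_mul hQ _ _).symm)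
  rw [conj_tau h] at h1
  exact h1

lemma exp_half {s : ℚ} (m : ℤ) (h : (2 * s : ℚ) = m) (hm : Odd m) :
    Complex.exp (-(2 * Real.pi * Complex.I * (s : ℂ))) = -1 := by
  obtain ⟨k, hk⟩ := hm
  have h1 : (s : ℂ) = k + 1 / 2 := by
    have : ((2 * s : ℚ) : ℂ) = ((m : ℤ) : ℂ) := by
      rw [h]
      push_cast
      rfl
    rw [hk] at this
    push_cast at this
    linear_combination this / 2
  have h2 : -(2 * Real.pi * Complex.I * (s : ℂ)) = ((-k - 1 : ℤ) : ℂ) * (2 * Real.pi * Complex.I) + Real.pi * Complex.I := by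
    rw [h1]
    push_cast
    ring
  rw [h2, Complex.exp_add, Complex.exp_int_mul_two_pi_mul_I, Complex.exp_pi_mul_I, one_mul]

/-- the reflection of an orthogonal family -/
theorem ref_QO (hLOCJ : S_LOCJ) (hQ : QO n Q) (hQ' : QG n (dq n Q)) (h : LD n Q K M Mi) :
    ∃ c : ℂ, c ≠ 0 ∧ cm (J0m n) *ᵥ (Mi *ᵥ uc n) = c • (bs n Q ᵥ* M) := by
  have hn := hQ.two
  have h0 : Q.coeff (n - 1) ≠ 0 := by
    rw [hQ.half]
    have : (n : ℚ) ≠ 0 := by exact_mod_cast (show n ≠ 0 by omega)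
    positivity
  obtain ⟨f1, -⟩ := h.facts hQ.toQG hQ'
  rw [if_neg h0] at f1
  have h1 := loc_one hLOCJ hQ.toQG h 1
  have h2 : tau (Q.coeff (n - 1)) (2 * Real.pi * Complex.I * (1 : ℤ)) = -2 := by
    unfold tau
    rw [if_neg h0]
    have h3 := exp_half (s := Q.coeff (n - 1)) (n : ℤ) (by rw [hQ.half]; push_cast; ring) (by
      obtain ⟨k, hk⟩ := hQ.odd
      exact ⟨k, by exact_mod_cast hk⟩)
    have h4 : -((Q.coeff (n - 1) : ℚ) : ℂ) * (2 * Real.pi * Complex.I * ((1 : ℤ) : ℂ)) =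
        -(2 * Real.pi * Complex.I * ((Q.coeff (n - 1) : ℚ) : ℂ)) := by
      push_cast
      ring
    rw [h4, h3]
    norm_num
  rw [h2] at h1
  set v := Mi *ᵥ uc n with hv
  set μ := bs n Q ᵥ* M with hμ
  set J := cm (J0m n) with hJ
  have hC := comp_q hQ
  have h3 := Gal_form (fun x hx hx1 => self_pair' hC (sol_c_g hQ.toQG) (real_mem_Lens hx hx1)) h1
  have hvJ : v ᵥ* J = J *ᵥ v := by
    rw [← vecMul_transpose, hC.symm]
  set a := J *ᵥ v with ha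
  have h4 : vecMulVec μ a + vecMulVec a μ = (2 * (v ⬝ᵥ a)) • vecMulVec μ μ := by
    rw [transpose_add, transpose_one, transpose_smul, transpose_vecMulVec, add_mul, one_mul, smul_mul_assoc, vecMulVec_mul,
      hvJ, mul_add, mul_one, add_mul, mul_smul_comm, mul_vecMulVec, ← ha, smul_mul_assoc, mul_smul_comm,
      vecMulVec_mul_vecMulVec] at h3
    have h5 : (2 : ℂ) • (vecMulVec μ a + vecMulVec a μ) = (2 : ℂ) • ((2 * (v ⬝ᵥ a)) • vecMulVec μ μ) := by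
      rw [vecMulVec_smul, dotProduct_comm a v] at h3
      ext i j
      have h6 := congrFun (congrFun h3 i) j
      simp only [Matrix.add_apply, Matrix.smul_apply, smul_eq_mul] at h6 ⊢
      linear_combination -h6
    have h6 := congrArg (fun X => (2 : ℂ)⁻¹ • X) h5
    simp only [smul_smul] at h6
    rwa [inv_mul_cancel₀ (by norm_num), one_smul, ← mul_assoc, inv_mul_cancel₀ (by norm_num), one_mul] at h6
  have h5 : a = (v ⬝ᵥ a) • μ := by
    have h6 := congrArg (fun X => X *ᵥ v) h4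
    simp only [add_mulVec, vecMulVec_mulVec, smul_mulVec, f1, dotProduct_comm a v] at h6
    ext i
    have h7 := congrFun h6 i
    simp only [Pi.add_apply, Pi.smul_apply, MulOpposite.smul_eq_mul_unop, MulOpposite.unop_op, smul_eq_mul, mul_one] at h7 ⊢
    linear_combination h7
  refine ⟨v ⬝ᵥ a, fun h0 => ?_, h5⟩
  rw [h0, zero_smul] at h5
  have hv0 : v = 0 := Matrix.eq_zero_of_mulVec_eq_zero hC.det h5
  rw [hv0, dotProduct_zero] at f1
  exact zero_ne_one f1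

end one

/-- a family with a complex reflection which is not self-dual -/
theorem sepR_dual {n : ℕ} {Q : Polynomial ℚ} (hHQ : S_HQ) (hINTR : S_INTR) (hASY : S_ASY2) (hQ : QG n Q)
    (hQ' : QG n (dq n Q)) {s : ℚ} (ht : Q.coeff (n - 1) = s) (z : s ≠ 0)
    {H' K K' : ℕ → Matrix (Fin n) (Fin n) ℂ} {M Mi : Matrix (Fin n) (Fin n) ℂ}
    (h : CR s (cm (Am n)) (cm (Bm n Q)) (Hc n Q) H' K K' M Mi) (hne : ¬ RatEq Q (dq n Q)) {v μ : Fin n → ℂ}
    (e : v = Mi *ᵥ uc n) (e' : μ = ((s : ℂ)⁻¹ • bb n Q) ᵥ* M) (hm' : ∃ m : ℤ, s + s = m) :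
    ∃ m, Odd m ∧ hm (cm (Am n)) v μ m ≠ 0 := by
  subst e e'
  obtain ⟨g₁, f₁⟩ := refl_facts' hQ hQ' ht z h
  have hn := hQ.two
  obtain ⟨-, hB⟩ := hHQ n n (cm (Am n)) (cm (Am n)) _ _ _ _ (by omega) (by omega) Ac_nil Ac_nil g₁ g₁ f₁ f₁
  obtain ⟨m, hm'⟩ := hm'
  by_contra hcon
  push Not at hcon
  have hc : ∀ m, hm (cm (Am n)) (Mi *ᵥ uc n) (((s : ℂ)⁻¹ • bb n Q) ᵥ* M) m =
      (-1) ^ m * hm (cm (Am n)) (Mi *ᵥ uc n) (((s : ℂ)⁻¹ • bb n Q) ᵥ* M) m := by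
    intro m
    rcases Nat.even_or_odd m with hm | hm
    · rw [hm.neg_one_pow, one_mul]
    · rw [hcon m hm, mul_zero]
  obtain ⟨-, hq⟩ := hB hc
  refine hne (intwR_dual hINTR hASY p_REC hQ hQ' hQ hQ' hm' ht ht z z h h fun x => ?_)
  rw [PP_vec, ← qf_trace, ← qf_trace, hq]

/-! ### several families -/

/-- several families at the same fibre, all types -/
structure JU {r : ℕ} (n : Fin r → ℕ) (Q : Fin r → Polynomial ℚ) (W : ∀ j, Matrix (Fin (n j)) (Fin (n j)) ℚ⟦X⟧) : Prop where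
  q : ∀ j, QG (n j) (Q j)
  q' : ∀ j, QG (n j) (dq (n j) (Q j))
  typ : ∀ j, (Q j).coeff (n j - 1) = 0 ∨ ∀ a : ℤ, (a : ℚ) ≠ (Q j).coeff (n j - 1)
  sys : ∀ j, Sys (n j) (Am (n j)) (Bm (n j) (Q j)) (Hp (n j) (Q j)) (W j)
  ne : ∀ i j, i ≠ j → n i = n j → ¬ RatEq (Q i) (Q j) ∧ ¬ RatEq (Q i) (dq (n j) (Q j))
  sd : ∀ j, (Q j).coeff (n j - 1) = 0 → QD (n j) (Q j) ∨ ¬ RatEq (Q j) (dq (n j) (Q j))
  sd2 : ∀ j, (∃ a : ℤ, (a : ℚ) = 2 * (Q j).coeff (n j - 1)) → (Q j).coeff (n j - 1) ≠ 0 →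
    QO (n j) (Q j) ∨ ¬ RatEq (Q j) (dq (n j) (Q j))
  no23 : ∀ i j, (∃ a : ℤ, (a : ℚ) = 2 * (Q i).coeff (n i - 1)) → (Q i).coeff (n i - 1) ≠ 0 → ¬ QO (n i) (Q i) →
    QO (n j) (Q j) → ¬ (n i = 2 ∧ n j = 3)

variable {r : ℕ} {n : Fin r → ℕ} {Q : Fin r → Polynomial ℚ} {W : ∀ j, Matrix (Fin (n j)) (Fin (n j)) ℚ⟦X⟧}
  {K : ∀ j, ℕ → Matrix (Fin (n j)) (Fin (n j)) ℂ} {M Mi : ∀ j, Matrix (Fin (n j)) (Fin (n j)) ℂ}

lemma YJ_eq2 (hJ : JU n Q W) (z : ℂ) : YJ n Q z = blk n ℂ fun j => Yf (cm (Am (n j))) (Hc (n j) (Q j)) z := by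
  obtain ⟨-, h, -⟩ := p_BLK r n (fun j => Am (n j)) (fun j => Bm (n j) (Q j)) (fun j => Hp (n j) (Q j)) W hJ.sys
  rw [YJ, h]
  simp only [Hcg_Hp]

/-- the joint local monodromies at `1` preserve the relations -/
theorem loc_mem2 (hLOCJ : S_LOCJ) (hJ : JU n Q W) (hD : ∀ j, LD (n j) (Q j) (K j) (M j) (Mi j)) (m : ℤ) :
    blk n ℂ (fun j => 1 + tau ((Q j).coeff (n j - 1)) (2 * Real.pi * Complex.I * m) •
      vecMulVec (Mi j *ᵥ uc (n j)) (bs (n j) (Q j) ᵥ* M j)) ∈ Gal (YJ n Q) := by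
  have h1 := hLOCJ (∑ j, n j) (YJ n Q) (fun k => blk n ℂ fun j => K j k)
    (fun l => blk n ℂ fun j => 1 + tau ((Q j).coeff (n j - 1)) l • vecMulVec (uc (n j)) (bs (n j) (Q j)))
    (blk n ℂ fun j => 1 + tau ((Q j).coeff (n j - 1)) (2 * Real.pi * Complex.I * m) •
      vecMulVec (uc (n j)) (bs (n j) (Q j))) (blk n ℂ M) (blk n ℂ Mi) m ?_ ?_ ?_ ?_ ?_
  · rw [← map_mul, ← map_mul] at h1
    refine (congrArg (fun g => blk n ℂ g ∈ Gal (YJ n Q)) ?_).mp h1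
    funext j
    exact conj_tau (hD j) _
  · intro a b
    rcases BLK.blk_cases a b with h | ⟨j, i, k, h⟩
    · simp only [h]
      exact PG.zero
    · simp only [h]
      exact (hD j).gK (hJ.q j) i k
  · intro a b
    rcases BLK.blk_cases a b with h | ⟨j, i, k, h⟩
    · simp only [h]
      exact differentiable_const 0
    · simp only [h, Matrix.add_apply, Matrix.smul_apply, smul_eq_mul]
      exact ((tau_diff _).mul_const _).const_add _
  · rw [← map_mul, ← map_one (blk n ℂ)]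
    congr 1
    funext j
    exact (hD j).l
  · intro x hx hx1
    rw [YJ_eq2 hJ, BLK.Hf_blk, ← map_mul, ← map_mul]
    congr 1
    funext j
    exact (hD j).con (hJ.q j) (Pool.Agent.Y119.HY.real_mem_Lens hx hx1)
  · intro z
    rw [← map_mul]
    congr 1
    funext j
    exact (tau_mul (hJ.q j) _ _).symm

lemma exp_key {x y : ℚ} (h : Complex.exp (-(2 * Real.pi * Complex.I * (x : ℂ))) =
    Complex.exp (-(2 * Real.pi * Complex.I * (y : ℂ)))) : ∃ m : ℤ, x = y + m := by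
  rw [Complex.exp_eq_exp_iff_exists_int] at h
  obtain ⟨m, hm'⟩ := h
  refine ⟨-m, ?_⟩
  have hpi : (2 * (Real.pi : ℂ) * Complex.I) ≠ 0 := Complex.two_pi_I_ne_zero
  have h1 : (x : ℂ) * (2 * Real.pi * Complex.I) = ((y : ℂ) + ((-m : ℤ) : ℂ)) * (2 * Real.pi * Complex.I) := by
    push_cast
    linear_combination -hm'
  have h2 := mul_right_cancel₀ hpi h1
  have h3 : ((x : ℚ) : ℂ) = ((y + ((-m : ℤ) : ℚ) : ℚ) : ℂ) := by
    push_cast
    push_cast at h2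
    exact h2
  exact Rat.cast_injective h3

lemma exp_sq {s : ℚ} (h : Complex.exp (-(2 * Real.pi * Complex.I * (s : ℂ))) ^ 2 = 1) : ∃ a : ℤ, (a : ℚ) = 2 * s := by
  have h1 : Complex.exp (-(2 * Real.pi * Complex.I * ((2 * s : ℚ) : ℂ))) =
      Complex.exp (-(2 * Real.pi * Complex.I * ((0 : ℚ) : ℂ))) := by
    rw [Rat.cast_zero, mul_zero, neg_zero, Complex.exp_zero, ← h, ← Complex.exp_nat_mul]
    congr 1
    push_cast
    ring
  obtain ⟨m, hm'⟩ := exp_key h1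
  exact ⟨m, by rw [hm', zero_add]⟩

/-- **the local monodromies at `1`** -/
theorem LM2_of (hLOCJ : S_LOCJ) (hASY : S_ASY) (hHQ : S_HQ) (hINTR : S_INTR) (hASY2 : S_ASY2) (hJ : JU n Q W)
    (hD : ∀ j, LD (n j) (Q j) (K j) (M j) (Mi j))
    {S : Submonoid (∀ j, Matrix (Fin (n j)) (Fin (n j)) ℂ)} (hS : ∀ g, g ∈ S ↔ blk n ℂ g ∈ Gal (YJ n Q)) :
    LM2 (fun j => cm (Am (n j))) (fun j => cm (J0m (n j))) S (fun j => Mi j *ᵥ uc (n j)) (fun j => bs (n j) (Q j) ᵥ* M j)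
      (fun j => Complex.exp (-(2 * Real.pi * Complex.I * ((Q j).coeff (n j - 1) : ℚ))))
      (fun j => (Q j).coeff (n j - 1) = 0) (fun j => QO (n j) (Q j)) (-(2 * Real.pi * Complex.I)) where
  two := fun j => (hJ.q j).two
  cyc := fun j => ((hD j).facts (hJ.q j) (hJ.q' j)).2
  kap := neg_ne_zero.2 Complex.two_pi_I_ne_zero
  zer := fun j => Complex.exp_ne_zero _
  ord := by
    refine ⟨∏ j, ((Q j).coeff (n j - 1)).den, Finset.prod_pos fun j _ => Rat.den_pos _, fun j _ => ?_⟩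
    obtain ⟨c, hc⟩ : ((Q j).coeff (n j - 1)).den ∣ ∏ j, ((Q j).coeff (n j - 1)).den := Finset.dvd_prod_of_mem _ (Finset.mem_univ j)
    rw [hc, pow_mul, Complex.exp_neg, inv_pow, (zeta_primitive _).pow_eq_one, inv_one, one_pow]
  uni := by
    intro j hj
    have := ((hD j).facts (hJ.q j) (hJ.q' j)).1
    rw [if_pos hj] at this
    exact this
  ref := by
    intro j hj
    have := ((hD j).facts (hJ.q j) (hJ.q' j)).1
    rw [if_neg hj] at this
    refine ⟨this, fun h => ?_⟩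
    have h1 : Complex.exp (-(2 * Real.pi * Complex.I * (((Q j).coeff (n j - 1) : ℚ) : ℂ))) =
        Complex.exp (-(2 * Real.pi * Complex.I * ((0 : ℚ) : ℂ))) := by
      rw [Rat.cast_zero, mul_zero, neg_zero, Complex.exp_zero]
      exact h
    obtain ⟨m, hm'⟩ := exp_key h1
    rcases hJ.typ j with h2 | h2
    · exact hj h2
    · exact h2 m (by rw [hm', zero_add])
  mem := by
    intro m
    rw [hS]
    refine (congrArg (fun g => blk n ℂ g ∈ Gal (YJ n Q)) ?_).mp (loc_mem2 hLOCJ hJ hD m)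
    funext j
    congr 2
    unfold tau
    by_cases h0 : (Q j).coeff (n j - 1) = 0
    · rw [if_pos h0, if_pos h0]
      ring
    · rw [if_neg h0, if_neg h0, ← Complex.exp_int_mul]
      congr 2
      ring
  sepU := by
    intro i j hij hi hj
    obtain ⟨H₁', K₁', h₁⟩ := (hD i).u hi
    obtain ⟨H₂', K₂', h₂⟩ := (hD j).u hj
    exact sepU_pair hASY (hJ.q i) (hJ.q' i) (hJ.q j) (hJ.q' j) hi hj h₁ h₂ (hJ.ne i j hij) rfl
      (by simp only [bs, if_pos hi]) rfl (by simp only [bs, if_pos hj])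
  sepR := by
    intro i j hij hi hj
    obtain ⟨H₁', K₁', h₁⟩ := (hD i).r hi
    obtain ⟨H₂', K₂', h₂⟩ := (hD j).r hj
    obtain ⟨hA, hB⟩ := sepR_pair hHQ hINTR hASY2 (hJ.q i) (hJ.q' i) (hJ.q j) (hJ.q' j) rfl rfl hi hj h₁ h₂ (hJ.ne i j hij)
      (v₁ := Mi i *ᵥ uc (n i)) (μ₁ := bs (n i) (Q i) ᵥ* M i) (v₂ := Mi j *ᵥ uc (n j)) (μ₂ := bs (n j) (Q j) ᵥ* M j) rfl
      (by simp only [bs, if_neg hi]) rfl (by simp only [bs, if_neg hj])
    refine ⟨fun h => hA (exp_key h), fun h => hB ?_⟩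
    have h2 : Complex.exp (-(2 * Real.pi * Complex.I * (((Q i).coeff (n i - 1) : ℚ) : ℂ))) =
        Complex.exp (-(2 * Real.pi * Complex.I * ((-(Q j).coeff (n j - 1) : ℚ) : ℂ))) := by
      have h3 : Complex.exp (-(2 * Real.pi * Complex.I * ((-(Q j).coeff (n j - 1) : ℚ) : ℂ))) *
          Complex.exp (-(2 * Real.pi * Complex.I * (((Q j).coeff (n j - 1) : ℚ) : ℂ))) = 1 := by
        rw [← Complex.exp_add, ← Complex.exp_zero]
        congr 1
        push_cast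
        ring
      exact mul_right_cancel₀ (Complex.exp_ne_zero _) (h.trans h3.symm)
    obtain ⟨m, hm'⟩ := exp_key h2
    refine ⟨m, ?_⟩
    rw [hm']
    ring
  tyO := by
    intro j _ _ hO
    have hn := hO.two
    refine ⟨?_, hO.odd, (comp_q hO).symm, (comp_q hO).det, (comp_q hO).zero, ref_QO hLOCJ hO (hJ.q' j) (hD j)⟩
    obtain ⟨k, hk⟩ := hO.odd
    omega
  tyS := by
    intro j hj hz hO
    obtain ⟨a, ha⟩ := exp_sq hz
    obtain ⟨H', K', h⟩ := (hD j).r hj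
    exact sepR_dual hHQ hINTR hASY2 (hJ.q j) (hJ.q' j) rfl hj h ((hJ.sd2 j ⟨a, ha⟩ hj).resolve_left hO) rfl
      (by simp only [bs, if_neg hj]) ⟨a, by rw [ha]; ring⟩
  no23 := by
    intro i j hi hz _ _ hO hO'
    exact hJ.no23 i j (exp_sq hz) hi hO hO'

end Pool.Agent.Run7.h225.HG
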