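import Pool.Agent.Run7.h225.HG.Ju

/-!
# Several hypergeometric families at the same fibre, all types: the group and the torsor
-/

set_option autoImplicit false

open Matrix PowerSeries
open Pool.Agent.Y113 hiding Bm
open Pool.Agent.Y119.HZ
open Pool.Agent.Y119.HY (Am Jm Bm Hq cm E Hf Hc Yf Gal Sol PG Lens cm_mul cm_add ec uc Ac_ec Ac_last
  cm_zero cm_one cm_transpose cm_apply Ac_nil mem_Lens symm_Lens Jm_rel conj_E E_mul_neg QD om om_eq tv cm_Bm Jc_skew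
  Jc_det Jc_rel sp_all connect tv_skew real_mem_Lens E_isom E_zero E_add)
open Run7.h893.HO

namespace Pool.Agent.Run7.h225.HG

/-- the torsor of one family at `z`, depending on a logarithm `l` of `1 - z` -/
def TU (n : ℕ) (Q : Polynomial ℚ) (l z : ℂ) : Set (Matrix (Fin n) (Fin n) ℂ) :=
  {X | X.det = Complex.exp (-((Q.coeff (n - 1) : ℚ) : ℂ) * l) ∧
    (QD n Q → X.transpose * cm (Jm n Q) * X = cm (Jm n Q)) ∧
    (QO n Q → X.transpose * Bz (cm (J0m n)) (cm (J1m n Q)) z * X = cm (J0m n))}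

lemma YU_mem {m : ℕ} {P : Polynomial ℚ} (hP : QG m P) {x : ℝ} (hx : 0 < x) (hx1 : x < 1) :
    Yf (cm (Am m)) (Hc m P) (x : ℂ) ∈ TU m P (Complex.log (1 - (x : ℂ))) x :=
  ⟨(YJ_mem hP hx hx1).1, (YJ_mem hP hx hx1).2, fun hO => self_pair' (comp_q hO) (sol_c_g hP) (real_mem_Lens hx hx1)⟩

/-- the powers of a reflection are isometries -/
lemma refl_isom {m : ℕ} {J : Matrix (Fin m) (Fin m) ℂ} {v μ : Fin m → ℂ} {c a : ℂ} (hJ : J.transpose = J)
    (h : μ ⬝ᵥ v = 1) (hc : J *ᵥ v = c • μ) (ha : a ^ 2 = 1) :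
    (1 + (a - 1) • vecMulVec v μ).transpose * J * (1 + (a - 1) • vecMulVec v μ) = J := by
  have hvJ : v ᵥ* J = c • μ := by
    rw [← hc, ← vecMul_transpose, hJ]
  rw [transpose_add, transpose_one, transpose_smul, transpose_vecMulVec, add_mul, one_mul, smul_mul_assoc, vecMulVec_mul,
    hvJ, mul_add, mul_one, add_mul, mul_smul_comm, mul_vecMulVec, hc, smul_mul_assoc, mul_smul_comm,
    vecMulVec_smul, smul_mul_assoc, vecMulVec_mul_vecMulVec, h, one_smul, smul_vecMulVec]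
  ext i j
  simp only [Matrix.add_apply, Matrix.smul_apply, smul_eq_mul]
  linear_combination (c * vecMulVec μ μ i j) * ha

variable {r : ℕ} {n : Fin r → ℕ} {Q : Fin r → Polynomial ℚ} {W : ∀ j, Matrix (Fin (n j)) (Fin (n j)) ℚ⟦X⟧}
  {N : ∀ j, Matrix (Fin (n j)) (Fin (n j)) ℂ}
  {S : Submonoid (∀ j, Matrix (Fin (n j)) (Fin (n j)) ℂ)} {𝔤 : Submodule ℂ (∀ j, Matrix (Fin (n j)) (Fin (n j)) ℂ)}

/-- unipotent families which are not self-dual -/
theorem Sj_sl2 (hASY : S_ASY) (hL : LP (fun j => cm (Am (n j))) S 𝔤) {j : Fin r} (hQ : QG (n j) (Q j))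
    (hQ' : QG (n j) (dq (n j) (Q j))) {K : ℕ → Matrix (Fin (n j)) (Fin (n j)) ℂ} {M Mi : Matrix (Fin (n j)) (Fin (n j)) ℂ}
    (hD : LD (n j) (Q j) K M Mi) (hj : (Q j).coeff (n j - 1) = 0)
    (hne : ¬ RatEq (Q j) (dq (n j) (Q j)))
    (h1 : ∀ s : ℂ, 1 + s • vecMulVec (Mi *ᵥ uc (n j)) (bs (n j) (Q j) ᵥ* M) ∈ Sj S j)
    (g : Matrix (Fin (n j)) (Fin (n j)) ℂ) (hg : g.det = 1) : g ∈ Sj S j := by
  have hn := hQ.two
  obtain ⟨H', K', h⟩ := hD.u hj
  obtain ⟨f1, f2, -⟩ := unip_facts hQ hQ' hj h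
  have hb : bs (n j) (Q j) = bb (n j) (Q j) := by
    unfold bs
    rw [if_pos hj]
  rw [hb] at h1
  refine p_SLG (n j) (Sj S j) (fun w ξ hw => ?_) g hg
  refine t_slt (n j) (cm (Am (n j))) (Mi *ᵥ uc (n j)) (bb (n j) (Q j) ᵥ* M) (Sj S j) Ac_nil f1 f2
    (fun c g hg => Sj_E hL j c g hg) h1 ?_ w ξ hw
  by_contra hcon
  push Not at hcon
  apply hne
  refine intw_dual p_INT hASY p_REC hQ hQ' hQ hQ' hj hj h h fun x => ?_
  rw [XX_vec, ← qf_trace, ← qf_trace]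
  have h2 := p_SEPQ.2 (qp (cm (Am (n j))) (Mi *ᵥ uc (n j)) (bb (n j) (Q j) ᵥ* M)) ?_ ?_ x
  · rw [qp_eval, qp_eval] at h2
    exact h2
  · intro h0
    have h2 := qp_deg (N := cm (Am (n j))) (Mi *ᵥ uc (n j)) (bb (n j) (Q j) ᵥ* M) (by omega) f2
    rw [h0, Polynomial.natDegree_zero] at h2
    omega
  · intro b c
    simp only [qp_eval]
    exact hcon b c

/-- self-dual families of even order -/
theorem Sj_sp2 (hL : LP (fun j => cm (Am (n j))) S 𝔤) {j : Fin r} (hQ : QG (n j) (Q j))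
    (hQ' : QG (n j) (dq (n j) (Q j))) {K : ℕ → Matrix (Fin (n j)) (Fin (n j)) ℂ} {M Mi : Matrix (Fin (n j)) (Fin (n j)) ℂ}
    (hD : LD (n j) (Q j) K M Mi) (hQD : QD (n j) (Q j))
    (h1 : ∀ s : ℂ, 1 + s • vecMulVec (Mi *ᵥ uc (n j)) (bs (n j) (Q j) ᵥ* M) ∈ Sj S j)
    (g : Matrix (Fin (n j)) (Fin (n j)) ℂ) (hg : g.transpose * cm (Jm (n j) (Q j)) * g = cm (Jm (n j) (Q j))) :
    g ∈ Sj S j := by
  have hj := QD_tr hQD
  obtain ⟨H', K', h⟩ := hD.u hj
  obtain ⟨f1, f2, -⟩ := unip_facts hQ hQ' hj h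
  have hb : bs (n j) (Q j) = bb (n j) (Q j) := by
    unfold bs
    rw [if_pos hj]
  rw [hb] at h1
  have hμ := mu_eq hQD hQ h
  rw [hμ] at h1 f2
  refine sp_all (Jc_skew hQD) (N := cm (Am (n j))) Ac_nil Jc_rel (v := Mi *ᵥ uc (n j)) ?_ (Sj S j)
    (fun c g hg => Sj_E hL j c g hg) (fun s => ?_) (Sj_cl hL j) (Jc_det hQD) g hg
  · rw [om_eq]
    rw [neg_dotProduct] at f2
    exact neg_ne_zero.1 f2
  · have h2 := h1 (-s)
    rw [vecMulVec_neg, smul_neg, neg_smul, neg_neg] at h2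
    exact h2

/-- the hypotheses of the group theorem -/
structure HH : Prop where
  SEP : S_SEP'
  SEPR : S_SEPR2
  REFLA : S_REFLA
  OD : S_OD
  R2 : S_REFL2A
  SI : S_SIMP
  RIB : S_RIB
  PA : S_PAIR
  RO : S_REFLO
  SO : S_SIMPO
  PO : S_PAIRO
  SOG : S_SOG
  LOCJ : S_LOCJ
  ASY : S_ASY
  HQ : S_HQ
  INTR : S_INTR
  ASY2 : S_ASY2
  LGB : S_LGB3

/-- **the group of several families contains the tuples of the right determinants** -/
theorem grp_all2 (hH : HH) (hJ : JU n Q W) (hL : LP (fun j => cm (Am (n j))) S 𝔤)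
    (hex : ∀ X ∈ 𝔤, X * X * X = 0 → ∀ t : ℂ, 1 + t • X + (t ^ 2 / 2) • (X * X) ∈ S)
    (hS : ∀ g, g ∈ S ↔ blk n ℂ g ∈ Gal (YJ n Q)) (m : ℤ) (g : ∀ j, Matrix (Fin (n j)) (Fin (n j)) ℂ)
    (hg : ∀ j, (g j).det = Complex.exp (-((Q j).coeff (n j - 1) : ℚ) * (2 * Real.pi * Complex.I * m)))
    (hg' : ∀ j, QD (n j) (Q j) → (g j).transpose * cm (Jm (n j) (Q j)) * g j = cm (Jm (n j) (Q j)))
    (hg2 : ∀ j, QO (n j) (Q j) → (g j).transpose * cm (J0m (n j)) * g j = cm (J0m (n j))) : g ∈ S := by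
  classical
  have hD' := fun j => LD_exists2 (hJ.q j) (hJ.typ j)
  choose K M Mi hD using hD'
  have hM := LM2_of hH.LOCJ hH.ASY hH.HQ hH.INTR hH.ASY2 hJ hD hS
  obtain ⟨hA, hB, hC⟩ := grp2 hH.SEP hH.SEPR hH.REFLA hH.OD hH.R2 hH.SI hH.RIB hH.PA hH.RO hH.SO hH.PO hH.SOG hL hex hM
  set v : ∀ j, Fin (n j) → ℂ := fun j => Mi j *ᵥ uc (n j) with hv
  set μ : ∀ j, Fin (n j) → ℂ := fun j => bs (n j) (Q j) ᵥ* M j with hμ
  set ζ : Fin r → ℂ := fun j => Complex.exp (-(2 * Real.pi * Complex.I * ((Q j).coeff (n j - 1) : ℚ))) with hζ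
  set R : ∀ j, Matrix (Fin (n j)) (Fin (n j)) ℂ := fun j =>
    1 + (ζ j ^ m - 1) • vecMulVec (if (Q j).coeff (n j - 1) = 0 then 0 else v j) (μ j) with hRd
  set R' : ∀ j, Matrix (Fin (n j)) (Fin (n j)) ℂ := fun j =>
    1 + (ζ j ^ (-m) - 1) • vecMulVec (if (Q j).coeff (n j - 1) = 0 then 0 else v j) (μ j) with hRd'
  have hR : R ∈ S := by
    refine (congrArg (· ∈ S) ?_).mp (ref_part2 hL hM m)
    funext j
    rw [hRd]
    by_cases h0 : (Q j).coeff (n j - 1) = 0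
    · simp only [if_pos h0]
    · simp only [if_neg h0]
  have hRR : R' * R = 1 := by
    funext j
    rw [Pi.mul_apply, Pi.one_apply]
    by_cases h0 : (Q j).coeff (n j - 1) = 0
    · simp only [hRd, hRd', if_pos h0, zero_vecMulVec, smul_zero, add_zero, mul_one]
    · simp only [hRd, hRd', if_neg h0]
      have h1 := REFL.refl_mul (ζ := ζ j ^ (-m)) (P := vecMulVec (v j) (μ j)) (by
        rw [vecMulVec_mul_vecMulVec, (hM.ref j h0).1, one_smul]) (zpow_ne_zero _ (hM.zer j))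
      rw [← _root_.zpow_neg, neg_neg] at h1
      exact h1
  have key : g * R' ∈ S := by
    refine all_of_single fun j => ?_
    rw [Pi.mul_apply]
    by_cases h0 : (Q j).coeff (n j - 1) = 0
    · have e1 : R' j = 1 := by
        simp only [hRd', if_pos h0, zero_vecMulVec, smul_zero, add_zero]
      rw [e1, mul_one]
      rcases hJ.sd j h0 with h1 | h1
      · exact Sj_sp2 hL (hJ.q j) (hJ.q' j) (hD j) h1 (fun s => hA j h0 s) (g j) (hg' j h1)
      · refine Sj_sl2 hH.ASY hL (hJ.q j) (hJ.q' j) (hD j) h0 h1 (fun s => hA j h0 s) (g j) ?_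
        rw [hg j, h0, Rat.cast_zero, neg_zero, zero_mul, Complex.exp_zero]
    · have e1 : R' j = 1 + (ζ j ^ (-m) - 1) • vecMulVec (v j) (μ j) := by
        simp only [hRd', if_neg h0]
      have hdet : (g j * R' j).det = 1 := by
        rw [e1, Matrix.det_mul, det_refl (hM.ref j h0).1, hg j, hζ]
        simp only
        rw [← Complex.exp_int_mul, ← Complex.exp_add, ← Complex.exp_zero]
        congr 1
        push_cast
        ring
      by_cases hO : QO (n j) (Q j)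
      · have hz : ζ j ^ 2 = 1 := by
          have h3 := exp_half (s := (Q j).coeff (n j - 1)) (n j : ℤ) (by rw [hO.half]; push_cast; ring) (by
            obtain ⟨k, hk⟩ := hO.odd
            exact ⟨k, by exact_mod_cast hk⟩)
          show Complex.exp (-(2 * Real.pi * Complex.I * (((Q j).coeff (n j - 1) : ℚ) : ℂ))) ^ 2 = 1
          rw [h3]
          norm_num
        refine hC j h0 hz hO _ ?_ hdet
        obtain ⟨c, -, hc⟩ := (hM.tyO j h0 hz hO).ref
        have h4 := refl_isom (a := ζ j ^ (-m)) (hM.tyO j h0 hz hO).sym (hM.ref j h0).1 hc (by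
          rw [← zpow_natCast, ← _root_.zpow_mul, mul_comm, _root_.zpow_mul, zpow_natCast, hz, _root_.one_zpow])
        rw [e1, Matrix.transpose_mul]
        calc (1 + (ζ j ^ (-m) - 1) • vecMulVec (v j) (μ j)).transpose * (g j).transpose * cm (J0m (n j)) *
              (g j * (1 + (ζ j ^ (-m) - 1) • vecMulVec (v j) (μ j))) =
              (1 + (ζ j ^ (-m) - 1) • vecMulVec (v j) (μ j)).transpose * ((g j).transpose * cm (J0m (n j)) * g j) *
              (1 + (ζ j ^ (-m) - 1) • vecMulVec (v j) (μ j)) := by simp only [Matrix.mul_assoc]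
          _ = _ := by rw [hg2 j hO, h4]
      · exact hB j h0 (fun _ => hO) _ hdet
  have h2 : g * R' * R ∈ S := mul_mem key hR
  rwa [mul_assoc, hRR, mul_one] at h2

lemma conj_form {m : ℕ} {Y X F B J : Matrix (Fin m) (Fin m) ℂ} (hY : Y.transpose * B * Y = J) (hX : X.transpose * B * X = J)
    (hF : F.transpose * J * F = J) (hu : IsUnit Y.det) : (Y⁻¹ * (X * F)).transpose * J * (Y⁻¹ * (X * F)) = J := by
  have h4 : (Y⁻¹).transpose * J * Y⁻¹ = B := by
    calc (Y⁻¹).transpose * J * Y⁻¹ = (Y⁻¹).transpose * (Y.transpose * B * Y) * Y⁻¹ := by rw [hY]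
      _ = (Y * Y⁻¹).transpose * B * (Y * Y⁻¹) := by
        rw [Matrix.transpose_mul]
        simp only [Matrix.mul_assoc]
      _ = _ := by rw [Matrix.mul_nonsing_inv _ hu, Matrix.transpose_one, one_mul, mul_one]
  calc (Y⁻¹ * (X * F)).transpose * J * (Y⁻¹ * (X * F)) = F.transpose * (X.transpose * ((Y⁻¹).transpose * J * Y⁻¹) * X) * F := by
        rw [Matrix.transpose_mul, Matrix.transpose_mul]
        simp only [Matrix.mul_assoc]
    _ = J := by rw [h4, hX, hF]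

/-- **from the group to the torsor** -/
theorem tor_all2 (hH : HH) (hJ : JU n Q W) {x : ℝ} (hx : 0 < x) (hx1 : x < 1) {l : ℂ} (hl : Complex.exp l = 1 - (x : ℂ))
    {X : ∀ j, Matrix (Fin (n j)) (Fin (n j)) ℂ} (hX : ∀ j, X j ∈ TU (n j) (Q j) l x) (c : ℂ) :
    ∃ g : ∀ j, Matrix (Fin (n j)) (Fin (n j)) ℂ, blk n ℂ g ∈ Gal (YJ n Q) ∧
      ∀ j, Yf (cm (Am (n j))) (Hc (n j) (Q j)) x * g j = X j * E (cm (Am (n j))) c := by
  obtain ⟨S, 𝔤, hS, hL, hex⟩ := hH.LGB r n (fun j => Am (n j)) (fun j => Bm (n j) (Q j)) (fun j => Hp (n j) (Q j)) W hJ.sys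
  obtain ⟨m, hm'⟩ : ∃ m : ℤ, l = Complex.log (1 - (x : ℂ)) + m * (2 * Real.pi * Complex.I) := by
    rw [← Complex.exp_eq_exp_iff_exists_int, hl, Complex.exp_log]
    intro h0
    have : (1 - x : ℝ) = 0 := by exact_mod_cast h0
    linarith
  have hYd : ∀ j, (Yf (cm (Am (n j))) (Hc (n j) (Q j)) (x : ℂ)).det ≠ 0 := by
    intro j
    rw [(YU_mem (hJ.q j) hx hx1).1]
    exact Complex.exp_ne_zero _
  refine ⟨fun j => (Yf (cm (Am (n j))) (Hc (n j) (Q j)) (x : ℂ))⁻¹ * (X j * E (cm (Am (n j))) c), ?_, fun j => ?_⟩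
  · refine (hS _).1 ?_
    refine grp_all2 hH hJ hL hex hS m _ (fun j => ?_) (fun j hQD => ?_) fun j hO => ?_
    · have hu := hYd j
      rw [Matrix.det_mul, Matrix.det_mul, det_E c (hJ.q j), mul_one, Matrix.det_nonsing_inv, Ring.inverse_eq_inv',
        (hX j).1, (YU_mem (hJ.q j) hx hx1).1, ← Complex.exp_neg, ← Complex.exp_add]
      congr 1
      rw [hm']
      ring
    · exact conj_form ((YU_mem (hJ.q j) hx hx1).2.1 hQD) ((hX j).2.1 hQD)
        (E_isom (Ac_nil (n := n j)) (Jc_rel (n := n j) (Q := Q j)) c) (Ne.isUnit (hYd j))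
    · exact conj_form ((YU_mem (hJ.q j) hx hx1).2.2 hO) ((hX j).2.2 hO)
        (E_isom (Ac_nil (n := n j)) (comp_q hO).zero c) (Ne.isUnit (hYd j))
  · have hu : IsUnit (Yf (cm (Am (n j))) (Hc (n j) (Q j)) (x : ℂ)).det := Ne.isUnit (hYd j)
    rw [← Matrix.mul_assoc, Matrix.mul_nonsing_inv _ hu, one_mul]

end Pool.Agent.Run7.h225.HG
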