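import Pool.Agent.Run7.h225.HG.Iface6
import Pool.Agent.Run7.h225.HG.LGB

/-!
# The pair (monoid, Lie algebra) for block systems, with the exponentials of the elements with `X³ = 0`
-/

set_option autoImplicit false

open PowerSeries Matrix
open Pool.Agent.Y113 hiding Bm
open Pool.Agent.Y120.GF Pool.Agent.Y120.GH Pool.Agent.Y119.HZ
open Pool.Agent.Y119.HY (Am Jm Bm Hq cm E Hf Hc Yf Vr Rel Gal Sol PG Lens)

namespace Pool.Agent.Run7.h225.HG

namespace LGB3

open LGB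

section
open Pool.Agent.Y119.HY

variable {n : ℕ} {Y : ℂ → Matrix (Fin n) (Fin n) ℂ}

/-- the exponential of `t X` for `X³ = 0` -/
noncomputable def ex3 (X : Matrix (Fin n) (Fin n) ℂ) (t : ℂ) : Matrix (Fin n) (Fin n) ℂ :=
  1 + t • X + (t ^ 2 / 2) • (X * X)

/-- the polynomial `P(z, L, Z exp(t X))` -/
noncomputable def qt3 (P : MvPolynomial (Vr n) ℂ) (z L : ℂ) (Z X : Matrix (Fin n) (Fin n) ℂ) : Polynomial ℂ :=
  evp P (Polynomial.C z) (Polynomial.C L) (Z.map Polynomial.C * (1 + (Polynomial.X : Polynomial ℂ) • X.map Polynomial.C +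
    (Polynomial.C (1 / 2) * Polynomial.X ^ 2 : Polynomial ℂ) • (X * X).map Polynomial.C))

lemma qt3_eval (P : MvPolynomial (Vr n) ℂ) (z L : ℂ) (Z X : Matrix (Fin n) (Fin n) ℂ) (t : ℂ) :
    (qt3 P z L Z X).eval t = ev P z L (Z * ex3 X t) := by
  unfold qt3 ex3
  rw [eval_evp, Polynomial.eval_C, Polynomial.eval_C, map_mul_eval, map_C_eval]
  congr 2
  ext i j
  simp only [Matrix.map_apply, Matrix.add_apply, Matrix.smul_apply, smul_eq_mul, Polynomial.eval_add, Polynomial.eval_mul,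
    Polynomial.eval_X, Polynomial.eval_C, Polynomial.eval_pow]
  congr 1
  · congr 1
    rw [Matrix.one_apply, Matrix.one_apply]
    split_ifs <;> simp
  · ring

lemma ex3_HD (Z X : Matrix (Fin n) (Fin n) ℂ) (h3 : X * X * X = 0) (c : ℂ) :
    HD (fun s => Z * ex3 X s) (Z * ex3 X c * X) c := by
  have h1 : HD (fun s : ℂ => ex3 X s) (X + c • (X * X)) c := by
    intro i j
    unfold ex3
    simp only [Matrix.add_apply, Matrix.smul_apply, smul_eq_mul]
    have a1 := ((hasDerivAt_id c).mul_const (X i j)).const_add ((1 : Matrix (Fin n) (Fin n) ℂ) i j)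
    have a2 : HasDerivAt (fun s : ℂ => s ^ 2 / 2 * (X * X) i j) (c * (X * X) i j) c := by
      have := (((hasDerivAt_id c).pow 2).div_const 2).mul_const ((X * X) i j)
      refine this.congr_deriv ?_
      simp
    refine (a1.add a2).congr_deriv ?_
    rw [one_mul]
  refine ((HD.const Z c).mul h1).congr ?_
  rw [zero_mul, zero_add, Matrix.mul_assoc]
  congr 1
  unfold ex3
  rw [add_mul, add_mul, one_mul, smul_mul_assoc, smul_mul_assoc, h3, smul_zero, add_zero]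

lemma qt3_deriv {P : MvPolynomial (Vr n) ℂ} {z L : ℂ} {Z X : Matrix (Fin n) (Fin n) ℂ} (hX : X * X * X = 0) :
    Polynomial.derivative (qt3 P z L Z X) = qt3 (Dv X P) z L Z X := by
  refine Polynomial.funext fun t => ?_
  have h1 := (qt3 P z L Z X).hasDerivAt t
  have h3 := ev_HD P z L (ex3_HD Z X hX t)
  have h4 : (fun s => ev P z L (Z * ex3 X s)) = fun s => (qt3 P z L Z X).eval s := by
    funext s
    rw [qt3_eval]
  rw [h4] at h3
  rw [qt3_eval]
  exact h1.unique h3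

/-- exponentials of nilpotent elements of order three -/
lemma LG_exp3 {X : Matrix (Fin n) (Fin n) ℂ} (hX : X ∈ LG Y) (h2 : X * X * X = 0) (t : ℂ) :
    1 + t • X + (t ^ 2 / 2) • (X * X) ∈ Gal Y := by
  intro P hP x hx hx1
  show ev P (x : ℂ) (Complex.log x) (Y x * ex3 X t) = 0
  rw [← qt3_eval]
  have hit : ∀ k : ℕ, (Dv X)^[k] P ∈ Rel Y ∧
      Polynomial.derivative^[k] (qt3 P (x : ℂ) (Complex.log x) (Y x) X) = qt3 ((Dv X)^[k] P) (x : ℂ) (Complex.log x) (Y x) X := by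
    intro k
    induction k with
    | zero => exact ⟨hP, rfl⟩
    | succ k ih =>
      rw [Function.iterate_succ_apply', Function.iterate_succ_apply', ih.2, qt3_deriv h2]
      exact ⟨hX _ ih.1, rfl⟩
  have h0 : qt3 P (x : ℂ) (Complex.log x) (Y x) X = 0 := by
    ext k
    rw [Polynomial.coeff_zero]
    have h1 : (Polynomial.derivative^[k] (qt3 P (x : ℂ) (Complex.log x) (Y x) X)).eval 0 = 0 := by
      rw [(hit k).2, qt3_eval]
      have e0 : ex3 X 0 = 1 := by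
        unfold ex3
        rw [zero_smul, add_zero, zero_pow two_ne_zero, zero_div, zero_smul, add_zero]
      rw [e0, mul_one]
      exact (hit k).1 x hx hx1
    rw [← Polynomial.coeff_zero_eq_eval_zero, Polynomial.coeff_iterate_derivative, zero_add] at h1
    have h3 : ((k.descFactorial k : ℕ) : ℂ) * (qt3 P (x : ℂ) (Complex.log x) (Y x) X).coeff k = 0 := by
      rw [← nsmul_eq_mul]
      exact h1
    refine (mul_eq_zero.1 h3).resolve_left ?_
    rw [Nat.descFactorial_self]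
    exact_mod_cast k.factorial_ne_zero
  rw [h0, Polynomial.eval_zero]

end

open Pool.Agent.Y119.HY in
lemma LP_of3 {r m : ℕ} {n : Fin r → ℕ} (φ : (∀ j, Matrix (Fin (n j)) (Fin (n j)) ℂ) →+* Matrix (Fin m) (Fin m) ℂ)
    (hsm : ∀ (c : ℂ) (X : ∀ j, Matrix (Fin (n j)) (Fin (n j)) ℂ), φ (c • X) = c • φ X)
    (N : ∀ j, Matrix (Fin (n j)) (Fin (n j)) ℂ) (N0 N1 : Matrix (Fin m) (Fin m) ℂ) (H : ℕ → Matrix (Fin m) (Fin m) ℂ)
    (hN : ∀ j, N j ^ n j = 0) (hφN : φ N = N0) (hnil : N0 ^ m = 0) (hsol : Sol N0 N1 H)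
    (hE : ∀ c, E N0 c = φ fun j => E (N j) c)
    (hcl : ∀ M : ∀ j, Matrix (Fin (n j)) (Fin (n j)) (Polynomial ℂ), ∃ M' : Matrix (Fin m) (Fin m) (Polynomial ℂ),
      ∀ c : ℂ, M'.map (Polynomial.eval c) = φ fun j => (M j).map (Polynomial.eval c)) :
    ∃ (S : Submonoid (∀ j, Matrix (Fin (n j)) (Fin (n j)) ℂ)) (𝔤 : Submodule ℂ (∀ j, Matrix (Fin (n j)) (Fin (n j)) ℂ)),
    (∀ g, g ∈ S ↔ φ g ∈ Gal (Yf N0 H)) ∧ LP N S 𝔤 ∧
    ∀ X ∈ 𝔤, X * X * X = 0 → ∀ t : ℂ, 1 + t • X + (t ^ 2 / 2) • (X * X) ∈ S := by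
  set Y := Yf N0 H with hYdef
  let φl : (∀ j, Matrix (Fin (n j)) (Fin (n j)) ℂ) →ₗ[ℂ] Matrix (Fin m) (Fin m) ℂ :=
    { toFun := fun X => φ X
      map_add' := fun X X' => map_add φ X X'
      map_smul' := fun c X => hsm c X }
  obtain ⟨S, hS⟩ : ∃ S : Submonoid (∀ j, Matrix (Fin (n j)) (Fin (n j)) ℂ), ∀ g, g ∈ S ↔ φ g ∈ Gal Y :=
    ⟨(Gal Y).comap φ.toMonoidHom, fun g => Iff.rfl⟩
  obtain ⟨𝔤, hg⟩ : ∃ 𝔤 : Submodule ℂ (∀ j, Matrix (Fin (n j)) (Fin (n j)) ℂ), ∀ X, X ∈ 𝔤 ↔ φ X ∈ LG Y :=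
    ⟨(LG Y).comap φl, fun g => Iff.rfl⟩
  refine ⟨S, 𝔤, hS, ?_, fun X hX h3 t => ?_⟩
  swap
  · rw [hg] at hX
    rw [hS, map_add, map_add, map_one, hsm, hsm, map_mul]
    refine LG_exp3 hX ?_ t
    rw [← map_mul, ← map_mul, h3, map_zero]
  constructor
  · exact hN
  · intro M T hT hM c
    obtain ⟨M', hM'⟩ := hcl M
    rw [hS, ← hM']
    refine Gal_closed_inf Y M' T hT (fun c hc => ?_) c
    rw [hM', ← hS]
    exact hM c hc
  · intro c g hg
    rw [hS] at hg ⊢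
    have e1 : φ (fun j => E (N j) c * g j * E (N j) (-c)) = E N0 c * φ g * E N0 (-c) := by
      rw [hE, hE, ← map_mul, ← map_mul]
      rfl
    rw [e1]
    exact conj_E hnil hsol c _ hg
  · intro c X hX
    rw [hg] at hX ⊢
    have e1 : φ (fun j => E (N j) c * X j * E (N j) (-c)) = E N0 c * φ X * E N0 (-c) := by
      rw [hE, hE, ← map_mul, ← map_mul]
      rfl
    rw [e1]
    exact LG_E hnil hsol c hX
  · intro X hX
    rw [hg] at hX ⊢
    rw [map_sub, map_mul, map_mul, hφN]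
    refine sub_deriv (LG Y) (M := fun s => E N0 s * φ X * E N0 (-s)) (c := 0)
      (fun s => LG_E hnil hsol s hX) ?_
    refine (((E_HD hnil 0).mul (HD.const (φ X) 0)).mul (REFL.E_neg_HD hnil 0)).congr ?_
    simp only [neg_zero, E_zero hnil, one_mul, mul_one, mul_zero, add_zero]
    rw [mul_neg, ← sub_eq_add_neg]
  · intro g gi hgi hg1 hi X hX
    rw [hg] at hX ⊢
    rw [hS] at hg1 hi
    rw [map_mul, map_mul]
    refine LG_conj ?_ hg1 hi hX
    rw [← map_mul, hgi, map_one]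
  · intro X hX Z hZ
    rw [hg] at hX hZ ⊢
    rw [map_sub, map_mul, map_mul]
    exact LG_bracket hX hZ
  · intro X hX h2 t
    rw [hg] at hX
    rw [hS, map_add, map_one, hsm]
    refine LG_exp hX ?_ t
    rw [← map_mul, h2, map_zero]
  · intro g gi hgi hg1 hi
    rw [hS] at hg1 hi
    rw [hg, map_sub, map_mul, map_mul, hφN]
    refine REFL.curve_mem hnil hsol ?_ hg1 hi
    rw [← map_mul, hgi, map_one]

end LGB3

open LGB LGB3 BLK in
theorem p_LGB3 : S_LGB3 := by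
  intro r n N B H W h
  have hS := Sys_blk N B H W h
  have hN : ∀ j, cm (N j) ^ n j = 0 := fun j => cm_nil (h j).nil
  have hE : ∀ c : ℂ, E (cm (blk n ℚ N)) c = blk n ℂ fun j => E (cm (N j)) c := by
    intro c
    rw [cm_blk]
    exact E_blk (fun j => cm (N j)) hN c
  exact LP_of3 (blk n ℂ) (fun c X => blk_smul c X) (fun j => cm (N j)) (cm (blk n ℚ N)) _ _ hN (cm_blk N).symm
    (cm_nil hS.nil) (Sol_of_Sys hS) hE fun M => ⟨blk n (Polynomial ℂ) M, fun c => blk_map _ (Polynomial.eval_zero) M⟩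

end Pool.Agent.Run7.h225.HG
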