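import Pool.Agent.Run7.h225.HG.Iface

/-! Project HYG, piece REC. -/

set_option autoImplicit false

open Matrix

namespace Pool.Agent.Run7.h225.HG

namespace REC

open Polynomial Finset

/-- The complex polynomial. -/
noncomputable def qc (Q : Polynomial ℚ) : ℂ[X] := Q.map (algebraMap ℚ ℂ)

theorem qc_eval (Q : Polynomial ℚ) (m : ℕ) : (qc Q).eval (m : ℂ) = ((Q.eval (m : ℚ) : ℚ) : ℂ) := by
  have h : (m : ℂ) = algebraMap ℚ ℂ (m : ℚ) := by simp
  rw [qc, h, eval_map_algebraMap, aeval_algebraMap_apply]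
  simp

theorem qc_ne {Q : Polynomial ℚ} (hQ : ∀ l : ℕ, Q.eval (l : ℚ) ≠ 0) (m : ℕ) :
    (qc Q).eval (m : ℂ) ≠ 0 := by
  rw [qc_eval]
  exact_mod_cast hQ m

theorem aseq_succ (n : ℕ) (Q : Polynomial ℚ) (k : ℕ) :
    aseq n Q (k + 1) * ((k : ℂ) + 1) ^ n = aseq n Q k * (qc Q).eval (k : ℂ) := by
  rw [aseq, prod_range_succ, ← aseq, qc_eval]
  push_cast
  have h : ((k : ℂ) + 1) ≠ 0 := by exact_mod_cast Nat.succ_ne_zero k
  field_simp

theorem aseq_ne (n : ℕ) {Q : Polynomial ℚ} (hQ : ∀ l : ℕ, Q.eval (l : ℚ) ≠ 0) (k : ℕ) :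
    aseq n Q k ≠ 0 := by
  rw [aseq, prod_ne_zero_iff]
  intro l _
  have h1 : (Q.eval (l : ℚ) / ((l : ℚ) + 1) ^ n : ℚ) ≠ 0 :=
    div_ne_zero (hQ l) (pow_ne_zero _ (by positivity))
  exact_mod_cast h1

theorem shift (n : ℕ) (Q : Polynomial ℚ) (k : ℕ) : ∀ l ≤ k,
    aseq n Q (k - l) * ∏ i ∈ range l, (qc Q).eval ((k : ℂ) - (i + 1)) =
      aseq n Q k * ∏ i ∈ range l, ((k : ℂ) - i) ^ n := by
  intro l
  induction l with
  | zero => intro _; simp
  | succ l ih =>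
    intro hl
    obtain ⟨m, hm⟩ : ∃ m, k = m + (l + 1) := ⟨k - (l + 1), by omega⟩
    have h1 := ih (by omega)
    have e1 : k - l = m + 1 := by omega
    have e2 : k - (l + 1) = m := by omega
    have e3 : (k : ℂ) - ((l : ℂ) + 1) = m := by rw [hm]; push_cast; ring
    have e4 : (k : ℂ) - l = (m : ℂ) + 1 := by rw [hm]; push_cast; ring
    rw [prod_range_succ, prod_range_succ, e2, e3, e4]
    rw [e1] at h1
    have h2 := aseq_succ n Q m
    linear_combination ((m : ℂ) + 1) ^ n * h1 -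
      (∏ i ∈ range l, (qc Q).eval ((k : ℂ) - (i + 1))) * h2

/-- The common denominator. -/
noncomputable def ss (Q : Polynomial ℚ) (K : ℕ) : ℂ[X] :=
  ∏ i ∈ range K, (qc Q).comp (X - C ((i : ℂ) + 1))

/-- The numerator of the `l`-th shift. -/
noncomputable def TT (n : ℕ) (Q : Polynomial ℚ) (K l : ℕ) : ℂ[X] :=
  (∏ i ∈ range l, (X - C (i : ℂ)) ^ n) * ∏ i ∈ Ico l K, (qc Q).comp (X - C ((i : ℂ) + 1))

theorem ss_eval (Q : Polynomial ℚ) (K : ℕ) (x : ℂ) :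
    (ss Q K).eval x = ∏ i ∈ range K, (qc Q).eval (x - (i + 1)) := by
  rw [ss, eval_prod]
  exact prod_congr rfl fun i _ => by simp [eval_comp]

theorem TT_eval (n : ℕ) (Q : Polynomial ℚ) (K l : ℕ) (x : ℂ) :
    (TT n Q K l).eval x = (∏ i ∈ range l, (x - i) ^ n) *
      ∏ i ∈ Ico l K, (qc Q).eval (x - (i + 1)) := by
  rw [TT, eval_mul, eval_prod, eval_prod]
  congr 1
  · exact prod_congr rfl fun i _ => by simp
  · exact prod_congr rfl fun i _ => by simp [eval_comp]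

theorem shift_ss (n : ℕ) (Q : Polynomial ℚ) {K k l : ℕ} (hl : l ≤ K) (hk : K ≤ k) :
    aseq n Q (k - l) * (ss Q K).eval (k : ℂ) = aseq n Q k * (TT n Q K l).eval (k : ℂ) := by
  rw [ss_eval, TT_eval, ← prod_range_mul_prod_Ico _ hl, ← mul_assoc, ← mul_assoc,
    shift n Q k l (hl.trans hk)]

theorem ss_ne {Q : Polynomial ℚ} (hQ : ∀ l : ℕ, Q.eval (l : ℚ) ≠ 0) {K k : ℕ} (hk : K ≤ k) :
    (ss Q K).eval (k : ℂ) ≠ 0 := by
  rw [ss_eval, prod_ne_zero_iff]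
  intro i hi
  have hi' : i < K := mem_range.1 hi
  have e : (k : ℂ) - ((i : ℂ) + 1) = ((k - (i + 1) : ℕ) : ℂ) := by
    rw [Nat.cast_sub (by omega)]
    push_cast
    ring
  rw [e]
  exact qc_ne hQ _

end REC

open Polynomial Finset REC in
theorem p_REC : S_REC := by
  intro n Q₁ Q₂ h1 h2 K φ c hc h
  set p : ℂ[X] := ∑ l ∈ range K, ∑ j : Fin n, C (φ l j) * (X - C (l : ℂ)) ^ (j : ℕ) *
    TT n Q₁ K l with hp
  have hpe : ∀ k : ℕ, K ≤ k →
      c * aseq n Q₂ k * (ss Q₁ K).eval (k : ℂ) = aseq n Q₁ k * p.eval (k : ℂ) := by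
    intro k hk
    rw [← h k hk, hp, eval_finsetSum, sum_mul, mul_sum]
    refine sum_congr rfl fun l hl => ?_
    rw [eval_finsetSum, sum_mul, mul_sum]
    refine sum_congr rfl fun j _ => ?_
    have h3 := shift_ss n Q₁ (mem_range.1 hl).le hk
    simp only [eval_mul, eval_C, eval_pow, eval_sub, eval_X]
    linear_combination (φ l j * ((k : ℂ) - l) ^ (j : ℕ)) * h3
  have hs0 : ss Q₁ K ≠ 0 := by
    intro h0
    have h3 := ss_ne h1 (le_refl K)
    rw [h0, eval_zero] at h3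
    exact h3 rfl
  have hp0 : p ≠ 0 := by
    intro h0
    have h3 := hpe K le_rfl
    rw [h0, eval_zero, mul_zero] at h3
    exact mul_ne_zero (mul_ne_zero hc (aseq_ne n h2 K)) (ss_ne h1 le_rfl) h3
  refine ⟨ss Q₁ K, p, hs0, hp0, ?_⟩
  apply eq_of_infinite_eval_eq
  have hinf : (Set.range fun k : ℕ => ((k + K : ℕ) : ℂ)).Infinite := by
    apply Set.infinite_range_of_injective
    intro a b hab
    have h5 : ((a + K : ℕ) : ℂ) = ((b + K : ℕ) : ℂ) := hab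
    have h6 : a + K = b + K := by exact_mod_cast h5
    omega
  refine hinf.mono ?_
  rintro _ ⟨k', rfl⟩
  set k := k' + K with hk
  have hkK : K ≤ k := by omega
  have e1 := hpe k hkK
  have e2 := hpe (k + 1) (by omega)
  have e3 := aseq_succ n Q₁ k
  have e4 := aseq_succ n Q₂ k
  have hne := aseq_ne n h1 k
  have hk1 : ((k : ℂ) + 1) ^ n ≠ 0 := pow_ne_zero _ (by exact_mod_cast Nat.succ_ne_zero k)
  push_cast at e2
  show eval _ _ = eval _ _
  simp only [eval_mul, eval_comp, eval_add, eval_X, eval_one]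
  change (qc Q₁).eval (k : ℂ) * _ * _ = (qc Q₂).eval (k : ℂ) * _ * _
  set x1 := (qc Q₁).eval (k : ℂ)
  set x2 := (qc Q₂).eval (k : ℂ)
  set s0 := (ss Q₁ K).eval (k : ℂ)
  set s1 := (ss Q₁ K).eval ((k : ℂ) + 1)
  set p0 := p.eval (k : ℂ)
  set p1 := p.eval ((k : ℂ) + 1)
  have e5 : aseq n Q₁ k * (x1 * s0 * p1) = aseq n Q₁ k * (x2 * s1 * p0) := by
    linear_combination (x2 * s1) * e1 - (s0 * ((k : ℂ) + 1) ^ n) * e2 - (s0 * p1) * e3 +
      (c * s0 * s1) * e4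
  exact mul_left_cancel₀ hne e5

end Pool.Agent.Run7.h225.HG
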