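import Pool.Agent.Run7.h225.HG.Iface

/-! Project HYG, piece SEPQ. -/

set_option autoImplicit false

open Matrix

namespace Pool.Agent.Run7.h225.HG

namespace SEPQ

open Polynomial

/-- The polynomial `b ↦ q(a) q(b - a) q(-b)`. -/
noncomputable def RR (q : ℂ[X]) (a : ℂ) : ℂ[X] := C (q.eval a) * (q.comp (X - C a) * q.comp (-X))

theorem RR_eval (q : ℂ[X]) (a b : ℂ) :
    (RR q a).eval b = q.eval a * q.eval (b - a) * q.eval (-b) := by
  simp [RR, eval_comp, mul_assoc]

theorem RR_lc (q : ℂ[X]) (a : ℂ) :
    (RR q a).leadingCoeff = q.eval a * (q.leadingCoeff * (q.leadingCoeff * (-1) ^ q.natDegree)) := by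
  rw [RR, leadingCoeff_mul, leadingCoeff_mul, leadingCoeff_C,
    leadingCoeff_comp (by rw [natDegree_X_sub_C]; exact one_ne_zero),
    leadingCoeff_comp (by rw [natDegree_neg, natDegree_X]; exact one_ne_zero),
    leadingCoeff_X_sub_C, one_pow, mul_one, leadingCoeff_neg, leadingCoeff_X]

theorem key {p q : ℂ[X]} (hp : p ≠ 0) (hq : q ≠ 0)
    (h1 : ∀ a : ℂ, q.eval a * q.eval (-a) = p.eval a * p.eval (-a)) {S : Set ℂ} (hS : S.Infinite)
    (h2 : ∀ a ∈ S, RR q a = RR p a) : q = p := by
  set kq := q.leadingCoeff * (q.leadingCoeff * (-1) ^ q.natDegree) with hkq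
  set kp := p.leadingCoeff * (p.leadingCoeff * (-1) ^ p.natDegree) with hkp
  have hlq := leadingCoeff_ne_zero.2 hq
  have hlp := leadingCoeff_ne_zero.2 hp
  have hkq0 : kq ≠ 0 := mul_ne_zero hlq (mul_ne_zero hlq (pow_ne_zero _ (by norm_num)))
  have hkp0 : kp ≠ 0 := mul_ne_zero hlp (mul_ne_zero hlp (pow_ne_zero _ (by norm_num)))
  have h3 : C kq * q = C kp * p := by
    apply eq_of_infinite_eval_eq
    refine hS.mono fun a ha => ?_
    have h4 := congrArg leadingCoeff (h2 a ha)
    rw [RR_lc, RR_lc, ← hkq, ← hkp] at h4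
    simp only [Set.mem_ofPred_eq, eval_mul, eval_C]
    rw [mul_comm, h4, mul_comm]
  obtain ⟨c, hc0, hc⟩ : ∃ c : ℂ, c ≠ 0 ∧ q = C c * p := by
    refine ⟨kp / kq, div_ne_zero hkp0 hkq0, ?_⟩
    have h5 : C kq * q = C kq * (C (kp / kq) * p) := by
      rw [h3, ← mul_assoc, ← C_mul, mul_div_cancel₀ _ hkq0]
    exact mul_left_cancel₀ (C_ne_zero.2 hkq0) h5
  have hd : q.natDegree = p.natDegree := by rw [hc, natDegree_C_mul hc0]
  have hl : q.leadingCoeff = c * p.leadingCoeff := by
    rw [hc, leadingCoeff_mul, leadingCoeff_C]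
  have hk : kq = c ^ 2 * kp := by
    rw [hkq, hkp, hl, hd]
    ring
  have hc3 : c ^ 3 = 1 := by
    have h6 := h3
    rw [hc, hk, ← mul_assoc, ← C_mul] at h6
    have h7 : (C (c ^ 2 * kp * c) : ℂ[X]) = C kp := mul_right_cancel₀ hp h6
    have h8 : c ^ 2 * kp * c = kp := C_injective h7
    have h9 : c ^ 3 * kp = 1 * kp := by rw [one_mul]; linear_combination h8
    exact mul_right_cancel₀ hkp0 h9
  have hpp : p * p.comp (-X) ≠ 0 := by
    refine mul_ne_zero hp fun h => hp ?_
    have h10 : (p.comp (-X)).comp (-X) = p := by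
      rw [comp_assoc]
      simp
    rw [← h10, h, zero_comp]
  obtain ⟨a, ha⟩ : ∃ a, (p * p.comp (-X)).eval a ≠ 0 := by
    by_contra hcon
    push Not at hcon
    exact hpp (funext fun a => by rw [hcon a, eval_zero])
  have hpa : p.eval a * p.eval (-a) ≠ 0 := by
    simpa [eval_comp] using ha
  have hc2 : c ^ 2 = 1 := by
    have h11 := h1 a
    rw [hc] at h11
    simp only [eval_mul, eval_C] at h11
    have h12 : c ^ 2 * (p.eval a * p.eval (-a)) = 1 * (p.eval a * p.eval (-a)) := by
      linear_combination h11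
    exact mul_right_cancel₀ hpa h12
  have hc1 : c = 1 := by
    have : c ^ 3 = c * c ^ 2 := by ring
    rw [this, hc2, mul_one] at hc3
    exact hc3
  rw [hc, hc1, C_1, one_mul]

end SEPQ

open Polynomial SEPQ in
theorem p_SEPQ : S_SEPQ := by
  constructor
  · intro p q hp hq h1 h2
    set p' : ℂ[X] := -p.comp (-X) with hp'
    have hp'e : ∀ x, p'.eval x = -p.eval (-x) := by
      intro x
      simp [hp', eval_comp]
    have hp'0 : p' ≠ 0 := by
      intro h
      apply hp
      have h10 : (p.comp (-X)).comp (-X) = p := by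
        rw [comp_assoc]
        simp
      rw [hp', neg_eq_zero] at h
      rw [← h10, h, zero_comp]
    have hdis : ∀ a, RR q a = RR p a ∨ RR q a = RR p' a := by
      intro a
      have h3 : (RR q a - RR p a) * (RR q a - RR p' a) = 0 := by
        apply Polynomial.funext
        intro b
        simp only [eval_mul, eval_sub, eval_zero, RR_eval, hp'e, neg_neg, neg_sub]
        have e1 := h2 a b
        have e2 := h1 a
        have e3 := h1 b
        have e4 := h1 (b - a)
        rw [neg_sub] at e4
        set x1 := q.eval a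
        set x2 := q.eval (-a)
        set x3 := q.eval b
        set x4 := q.eval (-b)
        set x5 := q.eval (b - a)
        set x6 := q.eval (a - b)
        set y1 := p.eval a
        set y2 := p.eval (-a)
        set y3 := p.eval b
        set y4 := p.eval (-b)
        set y5 := p.eval (b - a)
        set y6 := p.eval (a - b)
        have e5 : (x1 * x5 * x4) * (x3 * x6 * x2) = (y1 * y5 * y4) * (y3 * y6 * y2) := by
          calc (x1 * x5 * x4) * (x3 * x6 * x2) = (x1 * x2) * (x3 * x4) * (x5 * x6) := by ring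
            _ = (y1 * y2) * (y3 * y4) * (y5 * y6) := by rw [e2, e3, e4]
            _ = _ := by ring
        linear_combination (x1 * x5 * x4) * e1 + e5
      rcases mul_eq_zero.1 h3 with h4 | h4
      · exact Or.inl (sub_eq_zero.1 h4)
      · exact Or.inr (sub_eq_zero.1 h4)
    have hun : ({a | RR q a = RR p a} ∪ {a | RR q a = RR p' a} : Set ℂ).Infinite := by
      have : ({a | RR q a = RR p a} ∪ {a | RR q a = RR p' a} : Set ℂ) = Set.univ :=
        Set.eq_univ_of_forall hdis
      rw [this]
      exact Set.infinite_univ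
    rcases Set.infinite_union.1 hun with h5 | h5
    · left
      intro x
      rw [key hp hq h1 h5 fun a ha => ha]
    · right
      intro x
      have h6 : q = p' := key hp'0 hq (fun a => by
        rw [h1 a, hp'e, hp'e, neg_neg]
        ring) h5 fun a ha => ha
      rw [← hp'e, ← h6]
  · intro q hq h
    set p' : ℂ[X] := -q.comp (-X) with hp'
    have hp'e : ∀ x, p'.eval x = -q.eval (-x) := by
      intro x
      simp [hp', eval_comp]
    have hp'0 : p' ≠ 0 := by
      intro h
      apply hq
      have h10 : (q.comp (-X)).comp (-X) = q := by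
        rw [comp_assoc]
        simp
      rw [hp', neg_eq_zero] at h
      rw [← h10, h, zero_comp]
    have h6 : q = p' := key hp'0 hq (fun a => by
        rw [hp'e, hp'e, neg_neg]
        ring) Set.infinite_univ fun a _ => by
      apply Polynomial.funext
      intro b
      rw [RR_eval, RR_eval, hp'e, hp'e, hp'e, neg_neg, neg_sub]
      linear_combination h b a
    intro x
    rw [← hp'e, ← h6]

end Pool.Agent.Run7.h225.HG
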