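import Pool.Agent.Run7.h225.HG.Iface

/-!
# SLT: all transvections (helper366)
-/

set_option autoImplicit false

open Matrix Pool.Agent.Y119.HY

namespace Pool.Agent.Run7.h225.HG

namespace SLTp

variable {n : ℕ}

/-- all transvections in the direction `w ⊗ ξ` -/
def TT (S : Submonoid (Matrix (Fin n) (Fin n) ℂ)) (w ξ : Fin n → ℂ) : Prop :=
  ∀ s : ℂ, 1 + s • vecMulVec w ξ ∈ S

lemma mul_rank (w ξ u η : Fin n → ℂ) :
    vecMulVec w ξ * vecMulVec u η = (ξ ⬝ᵥ u) • vecMulVec w η := by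
  rw [vecMulVec_mul_vecMulVec, vecMulVec_smul]

variable {S : Submonoid (Matrix (Fin n) (Fin n) ℂ)}

lemma TT_add_left {w w' ξ : Fin n → ℂ} (h : TT S w ξ) (h' : TT S w' ξ) (e : ξ ⬝ᵥ w' = 0) :
    TT S (w + w') ξ := by
  intro s
  have h1 : (1 + s • vecMulVec w ξ) * (1 + s • vecMulVec w' ξ) =
      1 + s • vecMulVec (w + w') ξ := by
    rw [mul_add, add_mul, add_mul, smul_mul_smul_comm, mul_rank, e, add_vecMulVec, smul_add]
    simp only [mul_one, one_mul, zero_smul, smul_zero, add_zero]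
    abel
  rw [← h1]
  exact S.mul_mem (h s) (h' s)

lemma TT_add_right {w ξ ξ' : Fin n → ℂ} (h : TT S w ξ) (h' : TT S w ξ') (e : ξ ⬝ᵥ w = 0) :
    TT S w (ξ + ξ') := by
  intro s
  have h1 : (1 + s • vecMulVec w ξ) * (1 + s • vecMulVec w ξ') =
      1 + s • vecMulVec w (ξ + ξ') := by
    rw [mul_add, add_mul, add_mul, smul_mul_smul_comm, mul_rank, e, vecMulVec_add, smul_add]
    simp only [mul_one, one_mul, zero_smul, smul_zero, add_zero]
    abel
  rw [← h1]
  exact S.mul_mem (h s) (h' s)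

lemma TT_smul_left {w ξ : Fin n → ℂ} (h : TT S w ξ) (c : ℂ) : TT S (c • w) ξ := by
  intro s
  rw [smul_vecMulVec, smul_smul]
  exact h _

lemma TT_smul_right {w ξ : Fin n → ℂ} (h : TT S w ξ) (c : ℂ) : TT S w (c • ξ) := by
  intro s
  rw [vecMulVec_smul, smul_smul]
  exact h _

/-- conjugation by a transvection -/
lemma TT_conj {w ξ u η : Fin n → ℂ} (h : TT S w ξ) (h' : TT S u η) (e : η ⬝ᵥ u = 0) (s : ℂ) :
    TT S (w + (s * (η ⬝ᵥ w)) • u) (ξ - (s * (ξ ⬝ᵥ u)) • η) := by
  intro t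
  have h1 : (1 + s • vecMulVec u η) * (1 + t • vecMulVec w ξ) * (1 + (-s) • vecMulVec u η) =
      1 + t • vecMulVec (w + (s * (η ⬝ᵥ w)) • u) (ξ - (s * (ξ ⬝ᵥ u)) • η) := by
    have e1 : vecMulVec (w + (s * (η ⬝ᵥ w)) • u) (ξ - (s * (ξ ⬝ᵥ u)) • η) =
        vecMulVec w ξ - (s * (ξ ⬝ᵥ u)) • vecMulVec w η + (s * (η ⬝ᵥ w)) • vecMulVec u ξ -
        (s * (η ⬝ᵥ w) * (s * (ξ ⬝ᵥ u))) • vecMulVec u η := by
      ext i j
      simp only [vecMulVec_apply, Pi.add_apply, Pi.sub_apply, Pi.smul_apply, smul_eq_mul,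
        Matrix.add_apply, Matrix.sub_apply, Matrix.smul_apply]
      ring
    rw [e1]
    simp only [mul_add, add_mul, one_mul, mul_one, smul_mul_smul_comm, mul_rank, e, zero_smul,
      smul_zero, add_zero, smul_smul, smul_add, smul_sub]
    ext i j
    simp only [vecMulVec_apply, Pi.add_apply, Pi.sub_apply, Pi.smul_apply, smul_eq_mul,
        Matrix.add_apply, Matrix.sub_apply, Matrix.smul_apply]
    ring
  rw [← h1]
  exact S.mul_mem (S.mul_mem (h' s) (h t)) (h' (-s))

/-- one-sided -/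
lemma TT_one {w ξ u η : Fin n → ℂ} (h : TT S w ξ) (h0 : ξ ⬝ᵥ w = 0) (h' : TT S u η)
    (e : η ⬝ᵥ u = 0) (e1 : ξ ⬝ᵥ u = 0) (e2 : η ⬝ᵥ w ≠ 0) : TT S u ξ := by
  have h1 := TT_conj h h' e (η ⬝ᵥ w)⁻¹
  rw [e1, mul_zero, zero_smul, sub_zero, inv_mul_cancel₀ e2, one_smul] at h1
  have h2 := TT_add_left h1 (TT_smul_left h (-1)) (by rw [dotProduct_smul, h0, smul_zero])
  have h3 : w + u + (-1 : ℂ) • w = u := by
    rw [neg_one_smul]; abel
  rwa [h3] at h2

variable {N : Matrix (Fin n) (Fin n) ℂ}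

lemma TT_E (hN : N ^ n = 0) (hE : ∀ c : ℂ, ∀ g ∈ S, E N c * g * E N (-c) ∈ S)
    {w ξ : Fin n → ℂ} (h : TT S w ξ) (c : ℂ) : TT S (E N c *ᵥ w) (ξ ᵥ* E N (-c)) := by
  intro s
  have h1 := hE c _ (h s)
  rw [mul_add, mul_one, add_mul, E_mul_neg hN, mul_smul_comm, smul_mul_assoc, mul_vecMulVec,
    vecMulVec_mul] at h1
  exact h1

lemma q_pair (hN : N ^ n = 0) (v μ : Fin n → ℂ) (a b : ℂ) :
    (μ ᵥ* E N (-a)) ⬝ᵥ (E N b *ᵥ v) = qf N v μ (b - a) := by
  unfold qf
  rw [← dotProduct_mulVec, mulVec_mulVec, ← E_add hN, neg_add_eq_sub]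

/-- the functional of a row vector -/
def fl (μ : Fin n → ℂ) : (Fin n → ℂ) →ₗ[ℂ] ℂ where
  toFun x := μ ⬝ᵥ x
  map_add' := dotProduct_add μ
  map_smul' c x := by rw [dotProduct_smul]; rfl

lemma fl_apply (μ x : Fin n → ℂ) : fl μ x = μ ⬝ᵥ x := rfl

lemma E_transpose (s : ℂ) : E N.transpose s = (E N s).transpose := by
  unfold E
  rw [transpose_sum]
  refine Finset.sum_congr rfl fun i _ => ?_
  rw [transpose_smul, transpose_pow]

/-- A subspace which contains all `E(b) v` with `p(b) ≠ 0` is everything. -/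
lemma top_of_E (hN : N ^ n = 0) {v : Fin n → ℂ} (hv : (N ^ (n - 1)) *ᵥ v ≠ 0)
    (W : Submodule ℂ (Fin n → ℂ)) (p : Polynomial ℂ) (hp : p ≠ 0)
    (h : ∀ b, p.eval b ≠ 0 → E N b *ᵥ v ∈ W) : W = ⊤ := by
  by_contra hcon
  obtain ⟨l, hl0, hlW⟩ := Submodule.exists_le_ker_of_lt_top W (lt_top_iff_ne_top.2 hcon)
  have h1 : pl N v l * p ≠ 0 := mul_ne_zero (pl_ne hN hv hl0) hp
  obtain ⟨b, hb⟩ : ∃ b, (pl N v l * p).eval b ≠ 0 := by
    by_contra hc
    push Not at hc
    exact h1 (Polynomial.funext fun c => by rw [hc c, Polynomial.eval_zero])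
  rw [Polynomial.eval_mul, pl_eval] at hb
  exact left_ne_zero_of_mul hb (LinearMap.mem_ker.1 (hlW (h b (right_ne_zero_of_mul hb))))

end SLTp

open SLTp

theorem t_slt : S_SLT := by
  intro n N v μ S hN hμv hμN hE hS ⟨b0, c0, hF⟩ w ξ hξw
  have hv1 : (N ^ (n - 1)) *ᵥ v ≠ 0 := by
    intro h
    rw [h, dotProduct_zero] at hμN
    exact hμN rfl
  have hμ0 : fl μ ≠ 0 := by
    intro h
    apply hμN
    rw [← fl_apply, h]
    rfl
  set Q := pl N v (fl μ) with hQ
  have hQ0 : Q ≠ 0 := pl_ne hN hv1 hμ0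
  have hQe : ∀ x, Q.eval x = qf N v μ x := fun x => pl_eval v (fl μ) x
  have hT : ∀ a, TT S (E N a *ᵥ v) (μ ᵥ* E N (-a)) := fun a => TT_E hN hE hS a
  have hT0 : TT S v μ := hS
  -- choice of c
  set P1 : Polynomial ℂ := Polynomial.C (qf N v μ (-b0)) * Q.comp (Polynomial.C b0 - Polynomial.X) * Q +
    Polynomial.C (qf N v μ b0) * Q.comp (Polynomial.X - Polynomial.C b0) * Q.comp (-Polynomial.X) with hP1
  have hP1e : ∀ c, P1.eval c = qf N v μ (-b0) * qf N v μ (b0 - c) * qf N v μ c +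
      qf N v μ b0 * qf N v μ (c - b0) * qf N v μ (-c) := by
    intro c
    simp only [hP1, Polynomial.eval_add, Polynomial.eval_mul, Polynomial.eval_C, Polynomial.eval_comp,
      Polynomial.eval_sub, Polynomial.eval_X, Polynomial.eval_neg, hQe]
  have hP10 : P1 ≠ 0 := by
    intro h
    apply hF
    rw [← hP1e, h, Polynomial.eval_zero]
  obtain ⟨c, hc⟩ : ∃ c, (P1 * Q).eval c ≠ 0 := by
    by_contra hc
    push Not at hc
    exact (mul_ne_zero hP10 hQ0) (Polynomial.funext fun c => by rw [hc c, Polynomial.eval_zero])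
  rw [Polynomial.eval_mul, hP1e, hQe] at hc
  have hqc : qf N v μ c ≠ 0 := right_ne_zero_of_mul hc
  have hFc := left_ne_zero_of_mul hc
  set P2 : Polynomial ℂ := Q.comp (-Polynomial.X) * Q.comp (Polynomial.X - Polynomial.C c) *
    Polynomial.C (qf N v μ c) +
    Q * Q.comp (Polynomial.C c - Polynomial.X) * Polynomial.C (qf N v μ (-c)) with hP2
  have hP2e : ∀ b, P2.eval b = qf N v μ (-b) * qf N v μ (b - c) * qf N v μ c +
      qf N v μ b * qf N v μ (c - b) * qf N v μ (-c) := by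
    intro b
    simp only [hP2, Polynomial.eval_add, Polynomial.eval_mul, Polynomial.eval_C, Polynomial.eval_comp,
      Polynomial.eval_sub, Polynomial.eval_X, Polynomial.eval_neg, hQe]
  have hP20 : P2 ≠ 0 := by
    intro h
    apply hFc
    rw [← hP2e, h, Polynomial.eval_zero]
  set P3 : Polynomial ℂ := Q.comp (Polynomial.X - Polynomial.C c) with hP3
  have hP3e : ∀ b, P3.eval b = qf N v μ (b - c) := by
    intro b
    simp only [hP3, Polynomial.eval_comp, Polynomial.eval_sub, Polynomial.eval_X, Polynomial.eval_C, hQe]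
  have hP30 : P3 ≠ 0 := by
    intro h
    apply hQ0
    refine Polynomial.funext fun x => ?_
    have := hP3e (x + c)
    rw [h, Polynomial.eval_zero, add_sub_cancel_right] at this
    rw [hQe, ← this, Polynomial.eval_zero]
  -- step 1
  have key : ∀ b, (P2 * P3).eval b ≠ 0 →
      TT S (qf N v μ c • (E N b *ᵥ v) - (μ ⬝ᵥ (E N b *ᵥ v)) • (E N c *ᵥ v)) μ := by
    intro b hb
    rw [Polynomial.eval_mul, hP2e, hP3e] at hb
    have hb1 := left_ne_zero_of_mul hb
    have hb2 := right_ne_zero_of_mul hb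
    set s : ℂ := -qf N v μ b / (qf N v μ (b - c) * qf N v μ c) with hs
    have h1 := TT_conj (hT b) (hT c) (by rw [q_pair hN, sub_self]; unfold qf; rw [E_zero hN, one_mulVec]; exact hμv) s
    rw [q_pair hN, q_pair hN] at h1
    set u := E N b *ᵥ v + (s * qf N v μ (b - c)) • (E N c *ᵥ v) with hu
    set η := μ ᵥ* E N (-b) - (s * qf N v μ (c - b)) • (μ ᵥ* E N (-c)) with hη
    have hμa : ∀ a, μ ⬝ᵥ (E N a *ᵥ v) = qf N v μ a := fun a => rfl
    have hμu : μ ⬝ᵥ u = 0 := by
      rw [hu, dotProduct_add, dotProduct_smul, hμa, hμa, hs, smul_eq_mul]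
      field_simp
      ring
    have hav : ∀ a, (μ ᵥ* E N (-a)) ⬝ᵥ v = qf N v μ (-a) := by
      intro a
      unfold qf
      rw [← dotProduct_mulVec]
    have hηv : η ⬝ᵥ v ≠ 0 := by
      have h2 : η ⬝ᵥ v = (qf N v μ (-b) * qf N v μ (b - c) * qf N v μ c +
        qf N v μ b * qf N v μ (c - b) * qf N v μ (-c)) / (qf N v μ (b - c) * qf N v μ c) := by
        rw [hη, sub_dotProduct, smul_dotProduct, hav, hav, hs, smul_eq_mul]
        field_simp
        ring
      rw [h2]
      exact div_ne_zero hb1 (mul_ne_zero hb2 hqc)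
    have hηu : η ⬝ᵥ u = 0 := by
      have e0 : qf N v μ 0 = 0 := by
        unfold qf; rw [E_zero hN, one_mulVec]; exact hμv
      rw [hη, hu, sub_dotProduct, smul_dotProduct, dotProduct_add, dotProduct_add, dotProduct_smul,
        dotProduct_smul, q_pair hN, q_pair hN, q_pair hN, q_pair hN, sub_self, sub_self, e0]
      simp only [smul_eq_mul]
      ring
    have h3 := TT_one hT0 hμv h1 hηu hμu hηv
    have h4 := TT_smul_left h3 (qf N v μ c)
    have h5 : qf N v μ c • u = qf N v μ c • (E N b *ᵥ v) - (μ ⬝ᵥ (E N b *ᵥ v)) • (E N c *ᵥ v) := by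
      have e5 : qf N v μ c * (s * qf N v μ (b - c)) = -qf N v μ b := by
        rw [hs]
        field_simp
      rw [hu, smul_add, smul_smul, e5, hμa, neg_smul, ← sub_eq_add_neg]
    rwa [h5] at h4
  set W : Submodule ℂ (Fin n → ℂ) :=
    { carrier := {x | TT S (qf N v μ c • x - (μ ⬝ᵥ x) • (E N c *ᵥ v)) μ}
      add_mem' := by
        intro x y hx hy
        have h1 : qf N v μ c • (x + y) - (μ ⬝ᵥ (x + y)) • (E N c *ᵥ v) =
            (qf N v μ c • x - (μ ⬝ᵥ x) • (E N c *ᵥ v)) + (qf N v μ c • y - (μ ⬝ᵥ y) • (E N c *ᵥ v)) := by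
          rw [smul_add, dotProduct_add, add_smul]
          abel
        change TT S _ μ
        rw [h1]
        refine TT_add_left hx hy ?_
        rw [dotProduct_sub, dotProduct_smul, dotProduct_smul, smul_eq_mul, smul_eq_mul]
        change qf N v μ c * (μ ⬝ᵥ y) - (μ ⬝ᵥ y) * qf N v μ c = 0
        ring
      zero_mem' := by
        intro s
        simp
      smul_mem' := by
        intro r x hx
        have h1 : qf N v μ c • (r • x) - (μ ⬝ᵥ (r • x)) • (E N c *ᵥ v) =
            r • (qf N v μ c • x - (μ ⬝ᵥ x) • (E N c *ᵥ v)) := by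
          rw [dotProduct_smul, smul_sub, smul_smul, smul_smul, smul_smul, smul_eq_mul,
            mul_comm r (qf N v μ c)]
        change TT S _ μ
        rw [h1]
        exact TT_smul_left hx r } with hW
  have hWtop : W = ⊤ := top_of_E hN hv1 W (P2 * P3) (mul_ne_zero hP20 hP30) fun b hb => key b hb
  have step1 : ∀ w, μ ⬝ᵥ w = 0 → TT S w μ := by
    intro w hw
    have h1 : (qf N v μ c)⁻¹ • w ∈ W := by rw [hWtop]; trivial
    have h2 : TT S (qf N v μ c • ((qf N v μ c)⁻¹ • w) - (μ ⬝ᵥ ((qf N v μ c)⁻¹ • w)) • (E N c *ᵥ v)) μ := h1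
    rw [dotProduct_smul, hw, smul_zero, zero_smul, sub_zero, smul_smul, mul_inv_cancel₀ hqc, one_smul] at h2
    exact h2
  have step1' : ∀ a w, (μ ᵥ* E N (-a)) ⬝ᵥ w = 0 → TT S w (μ ᵥ* E N (-a)) := by
    intro a w hw
    have h1 := TT_E hN hE (step1 (E N (-a) *ᵥ w) (by rw [dotProduct_mulVec]; exact hw)) a
    rw [mulVec_mulVec, E_mul_neg hN, one_mulVec] at h1
    exact h1
  -- step 2
  set Ξ : Submodule ℂ (Fin n → ℂ) :=
    { carrier := {ξ | ∀ w, ξ ⬝ᵥ w = 0 → TT S w ξ}
      add_mem' := by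
        intro ξ η hξ hη x hx
        by_cases hd : ∃ u, η ⬝ᵥ u = 0 ∧ ξ ⬝ᵥ u ≠ 0
        · obtain ⟨u', hu1, hu2⟩ := hd
          set u := (ξ ⬝ᵥ u')⁻¹ • u' with hu
          have e1 : η ⬝ᵥ u = 0 := by rw [hu, dotProduct_smul, hu1, smul_zero]
          have e2 : ξ ⬝ᵥ u = 1 := by rw [hu, dotProduct_smul, smul_eq_mul, inv_mul_cancel₀ hu2]
          have hx' : ξ ⬝ᵥ x + η ⬝ᵥ x = 0 := by rw [← add_dotProduct]; exact hx
          have h1 : ξ ⬝ᵥ (x + (η ⬝ᵥ x) • u) = 0 := by
            rw [dotProduct_add, dotProduct_smul, e2, smul_eq_mul, mul_one]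
            exact hx'
          have h2 : η ⬝ᵥ (x + (η ⬝ᵥ x) • u) = η ⬝ᵥ x := by
            rw [dotProduct_add, dotProduct_smul, e1, smul_zero, add_zero]
          have h3 := TT_conj (hξ _ h1) (hη _ e1) e1 (-1)
          rw [h2, e2] at h3
          have h4 : x + (η ⬝ᵥ x) • u + (-1 * (η ⬝ᵥ x)) • u = x := by
            rw [neg_one_mul, neg_smul]
            abel
          have h5 : ξ - ((-1 : ℂ) * 1) • η = ξ + η := by
            rw [mul_one, neg_one_smul, sub_neg_eq_add]
          rwa [h4, h5] at h3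
        · push Not at hd
          by_cases h0 : ∃ e, η ⬝ᵥ e ≠ 0
          · obtain ⟨e, he⟩ := h0
            have h1 : ξ = ((ξ ⬝ᵥ e) / (η ⬝ᵥ e)) • η := by
              refine dotProduct_eq _ _ fun y => ?_
              have h2 := hd (y - ((η ⬝ᵥ y) / (η ⬝ᵥ e)) • e) (by
                rw [dotProduct_sub, dotProduct_smul, smul_eq_mul, div_mul_cancel₀ _ he, sub_self])
              rw [dotProduct_sub, dotProduct_smul, smul_eq_mul, sub_eq_zero] at h2
              rw [h2, smul_dotProduct, smul_eq_mul]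
              ring
            set r := (ξ ⬝ᵥ e) / (η ⬝ᵥ e) with hr
            have h3 : ξ + η = (r + 1) • η := by
              rw [add_smul, one_smul, ← h1]
            rw [h3] at hx ⊢
            by_cases hr0 : r + 1 = 0
            · intro s
              rw [hr0, zero_smul, vecMulVec_zero, smul_zero, add_zero]
              exact S.one_mem
            · refine TT_smul_right (hη x ?_) _
              rw [smul_dotProduct, smul_eq_mul] at hx
              exact (mul_eq_zero.1 hx).resolve_left hr0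
          · push Not at h0
            have h1 : η = 0 := dotProduct_eq _ _ fun y => by rw [h0 y, zero_dotProduct]
            subst h1
            rw [add_zero] at hx ⊢
            exact hξ x hx
      zero_mem' := by
        intro w _ s
        rw [vecMulVec_zero, smul_zero, add_zero]
        exact S.one_mem
      smul_mem' := by
        intro r ξ hξ w hw
        by_cases hr : r = 0
        · intro s
          rw [hr, zero_smul, vecMulVec_zero, smul_zero, add_zero]
          exact S.one_mem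
        · refine TT_smul_right (hξ w ?_) _
          rw [smul_dotProduct, smul_eq_mul] at hw
          exact (mul_eq_zero.1 hw).resolve_left hr } with hΞ
  have hNT : N.transpose ^ n = 0 := by rw [← transpose_pow, hN, transpose_zero]
  have hμT : (N.transpose ^ (n - 1)) *ᵥ μ ≠ 0 := by
    rw [← transpose_pow, mulVec_transpose]
    intro h
    apply hμN
    rw [dotProduct_mulVec, h, zero_dotProduct]
  have hΞtop : Ξ = ⊤ := by
    refine top_of_E hNT hμT Ξ 1 one_ne_zero fun b _ => ?_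
    rw [E_transpose, mulVec_transpose]
    have h1 : μ ᵥ* E N b = μ ᵥ* E N (-(-b)) := by rw [neg_neg]
    rw [h1]
    exact fun w hw => step1' (-b) w hw
  have hfin : ξ ∈ Ξ := by rw [hΞtop]; trivial
  have h1 := (show ∀ w, ξ ⬝ᵥ w = 0 → TT S w ξ from hfin) w hξw 1
  rwa [one_smul] at h1

end Pool.Agent.Run7.h225.HG
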