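import Pool.Agent.Run7.h225.HG.Intw
import Pool.Agent.Run7.h225.HG.CLS
import Pool.Agent.Run7.h225.HG.REC
import Pool.Agent.Run7.h225.HG.SEPQ
import Pool.Agent.Run7.h225.HG.SLG
import Pool.Agent.Run7.h225.HG.SLT
import Pool.Agent.Run7.h225.HG.INT
import Pool.Agent.Run7.h225.HG.LOCC
import Pool.Agent.Run7.h67.HG.DET
import Pool.Agent.Run7.h893.HO.Ari

/-!
# Families with special linear monodromy: single families
-/

set_option autoImplicit false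

open Matrix
open Pool.Agent.Y119.HZ
open Pool.Agent.Y119.HY (Am Jm Bm Hq cm E Hf Hc Yf Gal Sol PG Lens ps cm_mul cm_add ec uc Ac_ec Ac_last
  cm_zero cm_one cm_transpose cm_apply Ac_nil mem_Lens symm_Lens Jm_rel conj_E)
open Run7.h893.HO

namespace Pool.Agent.Run7.h225.HG

variable {n : ℕ} {Q : Polynomial ℚ}

/-- unipotent monodromy at `1`, not self-dual: all transvections -/
theorem transv_unip (hASY : S_ASY) (hQ : QG n Q) (hQ' : QG n (dq n Q)) (htr : Q.coeff (n - 1) = 0)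
    (hne : ¬ RatEq Q (dq n Q)) (w ξ : Fin n → ℂ) (hw : ξ ⬝ᵥ w = 0) :
    1 + vecMulVec w ξ ∈ Gal (Yf (cm (Am n)) (Hc n Q)) := by
  have hn := hQ.two
  obtain ⟨H', K, K', M, Mi, h⟩ := p_CON n _ _ _ Ac_nil (nB0 hn htr) (sol_c_g hQ)
  obtain ⟨f1, f2, f3⟩ := unip_facts hQ hQ' htr h
  refine t_slt n (cm (Am n)) (Mi *ᵥ uc n) (bb n Q ᵥ* M) (Gal (Yf (cm (Am n)) (Hc n Q))) Ac_nil f1 f2
    (fun c g hg => conj_E Ac_nil (sol_c_g hQ) c g hg) f3 ?_ w ξ hw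
  by_contra hcon
  push Not at hcon
  apply hne
  refine intw_dual p_INT hASY p_REC hQ hQ' hQ hQ' htr htr h h fun x => ?_
  rw [XX_vec, ← qf_trace, ← qf_trace]
  have h1 := p_SEPQ.2 (qp (cm (Am n)) (Mi *ᵥ uc n) (bb n Q ᵥ* M)) ?_ ?_ x
  · rw [qp_eval, qp_eval] at h1
    exact h1
  · intro h0
    have h2 := qp_deg (N := cm (Am n)) (Mi *ᵥ uc n) (bb n Q ᵥ* M) (by omega) f2
    rw [h0, Polynomial.natDegree_zero] at h2
    omega
  · intro b c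
    simp only [qp_eval]
    exact hcon b c

/-! ### the torsor -/

/-- the matrices `X` with `det X ^ m * (1 - z) ^ (m s) = 1`, `s` the sum of the exponents at infinity, `m` its denominator -/
def TS (n : ℕ) (s : ℚ) (z : ℂ) : Set (Matrix (Fin n) (Fin n) ℂ) := {X | X.det ^ s.den * (1 - z) ^ s.num = 1}

lemma tr_Bm (hn : 1 ≤ n) : (cm (Bm n Q)).trace = ((Q.coeff (n - 1) : ℚ) : ℂ) := by
  rw [Bm_vec, Matrix.trace_vecMulVec, dotProduct_comm, bb_uc hn]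

lemma det_Yf (hQ : QG n Q) {x : ℝ} (hx : 0 < x) (hx1 : x < 1) :
    (Yf (cm (Am n)) (Hc n Q) (x : ℂ)).det ^ (Q.coeff (n - 1)).den * (1 - (x : ℂ)) ^ (Q.coeff (n - 1)).num = 1 := by
  have hn := hQ.two
  set s := Q.coeff (n - 1) with hs
  rw [(Pool.Agent.Run7.h67.HG.t_DET n _ _ _ Ac_nil (sol_c_g hQ) x hx hx1).1, tr_Bm (by omega), ← hs, ← Complex.exp_nat_mul]
  have h1 : (1 - (x : ℂ)) = Complex.exp ((Real.log (1 - x) : ℝ) : ℂ) := by
    rw [← Complex.ofReal_exp, Real.exp_log (by linarith)]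
    push_cast
    rfl
  rw [h1, ← Complex.exp_int_mul, ← Complex.exp_add]
  have h2 : (s.den : ℂ) * (-(s : ℂ) * ((Real.log (1 - x) : ℝ) : ℂ)) + (s.num : ℂ) * ((Real.log (1 - x) : ℝ) : ℂ) = 0 := by
    have h3 : (s.den : ℂ) * (s : ℂ) = (s.num : ℂ) := by
      have h4 : (s.den : ℚ) * s = (s.num : ℚ) := by
        rw [mul_comm]
        exact Rat.mul_den_eq_num s
      exact_mod_cast congrArg (fun q : ℚ => (q : ℂ)) h4
    linear_combination (-((Real.log (1 - x) : ℝ) : ℂ)) * h3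
  rw [h2, Complex.exp_zero]

lemma det_E (c : ℂ) (hQ : QG n Q) : (E (cm (Am n)) c).det = 1 :=
  (Pool.Agent.Run7.h67.HG.t_DET n _ _ _ Ac_nil (sol_c_g hQ) (1 / 2) (by norm_num) (by norm_num)).2 c

/-- from the group to the torsor -/
theorem tor_of (hQ : QG n Q)
    (hG : ∀ g : Matrix (Fin n) (Fin n) ℂ, g.det ^ (Q.coeff (n - 1)).den = 1 → g ∈ Gal (Yf (cm (Am n)) (Hc n Q)))
    {x : ℝ} (hx : 0 < x) (hx1 : x < 1) {X : Matrix (Fin n) (Fin n) ℂ} (hX : X ∈ TS n (Q.coeff (n - 1)) (x : ℂ)) (c : ℂ) :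
    ∃ g ∈ Gal (Yf (cm (Am n)) (Hc n Q)), Yf (cm (Am n)) (Hc n Q) x * g = X * E (cm (Am n)) c := by
  have h1 := det_Yf hQ hx hx1
  set Y := Yf (cm (Am n)) (Hc n Q) (x : ℂ) with hY
  set s := Q.coeff (n - 1) with hs
  have h1x : (1 - (x : ℂ)) ≠ 0 := by
    intro h0
    have : (1 - x : ℝ) = 0 := by exact_mod_cast h0
    linarith
  have hpow : (1 - (x : ℂ)) ^ s.num ≠ 0 := zpow_ne_zero _ h1x
  have hYd : Y.det ≠ 0 := by
    intro h0
    rw [h0, zero_pow (Nat.ne_of_gt s.den_pos), zero_mul] at h1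
    exact zero_ne_one h1
  have hu : IsUnit Y.det := Ne.isUnit hYd
  refine ⟨Y⁻¹ * (X * E (cm (Am n)) c), hG _ ?_, ?_⟩
  · have h2 : (Y⁻¹ * (X * E (cm (Am n)) c)).det = Y.det⁻¹ * X.det := by
      rw [Matrix.det_mul, Matrix.det_mul, det_E c hQ, mul_one, Matrix.det_nonsing_inv, Ring.inverse_eq_inv']
    have h3 : X.det ^ s.den * (1 - (x : ℂ)) ^ s.num = 1 := hX
    have h4 : X.det ^ s.den = Y.det ^ s.den := mul_right_cancel₀ hpow (h3.trans h1.symm)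
    rw [h2, mul_pow, h4, inv_pow, inv_mul_cancel₀ (pow_ne_zero _ hYd)]
  · rw [← Matrix.mul_assoc, Matrix.mul_nonsing_inv _ hu, one_mul]

/-- unipotent monodromy at `1`, not self-dual -/
theorem gal_unip (hASY : S_ASY) (hQ : QG n Q) (hQ' : QG n (dq n Q)) (htr : Q.coeff (n - 1) = 0)
    (hne : ¬ RatEq Q (dq n Q)) (g : Matrix (Fin n) (Fin n) ℂ) (hg : g.det = 1) : g ∈ Gal (Yf (cm (Am n)) (Hc n Q)) :=
  p_SLG n (Gal (Yf (cm (Am n)) (Hc n Q))) (fun w ξ hw => transv_unip hASY hQ hQ' htr hne w ξ hw) g hg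

/-! ### complex reflections -/

section refl

/-- the data of the reflection at `1` -/
theorem refl_facts (hQ : QG n Q) (hQ' : QG n (dq n Q)) (htr : ∀ a : ℤ, (a : ℚ) ≠ Q.coeff (n - 1)) :
    ∃ v μ : Fin n → ℂ, μ ⬝ᵥ v = 1 ∧ μ ⬝ᵥ ((cm (Am n) ^ (n - 1)) *ᵥ v) ≠ 0 ∧
    1 + (Complex.exp (2 * Real.pi * Complex.I * (Q.coeff (n - 1) : ℚ)) - 1) • vecMulVec v μ ∈
      Gal (Yf (cm (Am n)) (Hc n Q)) ∧
    1 + (Complex.exp (-(2 * Real.pi * Complex.I * (Q.coeff (n - 1) : ℚ))) - 1) • vecMulVec v μ ∈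
      Gal (Yf (cm (Am n)) (Hc n Q)) := by
  have hn := hQ.two
  set s := Q.coeff (n - 1) with hs
  have hs0 : (s : ℂ) ≠ 0 := by
    have := htr 0
    rw [Int.cast_zero] at this
    exact_mod_cast this.symm
  have hB : cm (Bm n Q) * cm (Bm n Q) = (s : ℂ) • cm (Bm n Q) := Bm_sq (by omega)
  obtain ⟨H', K, K', M, Mi, hH', hK, hK', hl, hr, -, hcon, hcon', hg1, hg2⟩ :=
    LOCC.locc n s htr (cm (Am n)) (cm (Bm n Q)) (Hc n Q) Ac_nil hB (sol_c_g hQ)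
  have hP : Mi * ((s : ℂ)⁻¹ • cm (Bm n Q)) * M = vecMulVec (Mi *ᵥ uc n) (((s : ℂ)⁻¹ • bb n Q) ᵥ* M) := by
    have e1 : (s : ℂ)⁻¹ • cm (Bm n Q) = vecMulVec (uc n) ((s : ℂ)⁻¹ • bb n Q) := by
      rw [Bm_vec, Matrix.vecMulVec_smul]
    rw [e1, mul_vecMulVec, vecMulVec_mul]
  have hm : (((s : ℂ)⁻¹ • bb n Q) ᵥ* M) ⬝ᵥ ec n ≠ 0 := by
    refine mu_ne hQ hK (σ := fun z => Complex.exp (-(s : ℂ) * Complex.log (1 - z)) - 1) fun z hz => ?_
    rw [hcon z hz, Bm_vec, Matrix.vecMulVec_smul]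
  have hv : uc n ⬝ᵥ (Mi *ᵥ uc n) ≠ 0 := by
    refine v_ne hQ hQ' hH' hK' (b := (s : ℂ)⁻¹ • bb n Q) (σ := fun z => Complex.exp ((s : ℂ) * Complex.log (1 - z)) - 1)
      fun z hz => ?_
    rw [hcon' z hz, Bm_vec, transpose_vecMulVec, Matrix.smul_vecMulVec]
  refine ⟨Mi *ᵥ uc n, ((s : ℂ)⁻¹ • bb n Q) ᵥ* M, ?_, ?_, ?_, ?_⟩
  · rw [← dotProduct_mulVec, Matrix.mulVec_mulVec, hl, one_mulVec, smul_dotProduct, bb_uc (by omega), ← hs, smul_eq_mul,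
      inv_mul_cancel₀ hs0]
  · rw [Ac_last hn, dotProduct_smul, smul_eq_mul]
    refine mul_ne_zero ?_ hm
    have h1 : uc n ⬝ᵥ (Mi *ᵥ uc n) = (Mi *ᵥ uc n) ⟨n - 1, by omega⟩ := by
      unfold dotProduct
      rw [Finset.sum_eq_single (⟨n - 1, by omega⟩ : Fin n)]
      · unfold uc
        rw [if_pos (by simp only; omega), one_mul]
      · intro b _ hb
        unfold uc
        rw [if_neg, zero_mul]
        intro h'
        exact hb (Fin.ext (by simp only; omega))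
      · intro h'
        exact absurd (Finset.mem_univ _) h'
    rwa [h1] at hv
  · rw [← hP]
    exact hg1
  · rw [← hP]
    exact hg2

end refl

end Pool.Agent.Run7.h225.HG
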