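import Pool.Agent.Run7.h225.HG.GRP

/-!
# Separation of two families
-/

set_option autoImplicit false

open Matrix
open Pool.Agent.Y119.HZ
open Pool.Agent.Y119.HY (Am Jm Bm Hq cm E Hf Hc Yf Gal Sol PG Lens uc Ac_nil)
open Run7.h893.HO

namespace Pool.Agent.Run7.h225.HG

variable {n₁ n₂ : ℕ} {Q₁ Q₂ : Polynomial ℚ}

/-- two unipotent families -/
theorem sepU_pair (hASY : S_ASY) (hQ₁ : QG n₁ Q₁) (hQ₁' : QG n₁ (dq n₁ Q₁)) (hQ₂ : QG n₂ Q₂) (hQ₂' : QG n₂ (dq n₂ Q₂))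
    (ht₁ : Q₁.coeff (n₁ - 1) = 0) (ht₂ : Q₂.coeff (n₂ - 1) = 0)
    {H₁' K₁ K₁' : ℕ → Matrix (Fin n₁) (Fin n₁) ℂ} {M₁ Mi₁ : Matrix (Fin n₁) (Fin n₁) ℂ}
    {H₂' K₂ K₂' : ℕ → Matrix (Fin n₂) (Fin n₂) ℂ} {M₂ Mi₂ : Matrix (Fin n₂) (Fin n₂) ℂ}
    (h₁ : CD (cm (Am n₁)) (cm (Bm n₁ Q₁)) (Hc n₁ Q₁) H₁' K₁ K₁' M₁ Mi₁)
    (h₂ : CD (cm (Am n₂)) (cm (Bm n₂ Q₂)) (Hc n₂ Q₂) H₂' K₂ K₂' M₂ Mi₂)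
    (hne : n₁ = n₂ → ¬ RatEq Q₁ Q₂ ∧ ¬ RatEq Q₁ (dq n₂ Q₂)) {v₁ μ₁ : Fin n₁ → ℂ} {v₂ μ₂ : Fin n₂ → ℂ}
    (e₁ : v₁ = Mi₁ *ᵥ uc n₁) (e₁' : μ₁ = bb n₁ Q₁ ᵥ* M₁) (e₂ : v₂ = Mi₂ *ᵥ uc n₂) (e₂' : μ₂ = bb n₂ Q₂ ᵥ* M₂) :
    (∃ a : ℂ, qf (cm (Am n₁)) v₁ μ₁ a * qf (cm (Am n₁)) v₁ μ₁ (-a) ≠
      qf (cm (Am n₂)) v₂ μ₂ a * qf (cm (Am n₂)) v₂ μ₂ (-a)) ∨
    ∃ a b : ℂ, qf (cm (Am n₁)) v₁ μ₁ a * qf (cm (Am n₁)) v₁ μ₁ (b - a) * qf (cm (Am n₁)) v₁ μ₁ (-b) -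
        qf (cm (Am n₁)) v₁ μ₁ b * qf (cm (Am n₁)) v₁ μ₁ (a - b) * qf (cm (Am n₁)) v₁ μ₁ (-a) ≠
      qf (cm (Am n₂)) v₂ μ₂ a * qf (cm (Am n₂)) v₂ μ₂ (b - a) * qf (cm (Am n₂)) v₂ μ₂ (-b) -
        qf (cm (Am n₂)) v₂ μ₂ b * qf (cm (Am n₂)) v₂ μ₂ (a - b) * qf (cm (Am n₂)) v₂ μ₂ (-a) := by
  subst e₁ e₁' e₂ e₂'
  obtain ⟨-, f₁, -⟩ := unip_facts hQ₁ hQ₁' ht₁ h₁
  obtain ⟨-, f₂, -⟩ := unip_facts hQ₂ hQ₂' ht₂ h₂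
  have hn₁ := hQ₁.two
  have hn₂ := hQ₂.two
  by_contra hcon
  push Not at hcon
  obtain ⟨hc1, hc2⟩ := hcon
  set q₁ := qp (cm (Am n₁)) (Mi₁ *ᵥ uc n₁) (bb n₁ Q₁ ᵥ* M₁) with hq₁
  set q₂ := qp (cm (Am n₂)) (Mi₂ *ᵥ uc n₂) (bb n₂ Q₂ ᵥ* M₂) with hq₂
  have hd₁ : q₁.natDegree = n₁ - 1 := qp_deg _ _ (by omega) f₁
  have hd₂ : q₂.natDegree = n₂ - 1 := qp_deg _ _ (by omega) f₂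
  have hz₁ : q₁ ≠ 0 := by
    intro h0
    rw [h0, Polynomial.natDegree_zero] at hd₁
    omega
  have hz₂ : q₂ ≠ 0 := by
    intro h0
    rw [h0, Polynomial.natDegree_zero] at hd₂
    omega
  have v₁ : ∀ x, q₁.eval x = qf (cm (Am n₁)) (Mi₁ *ᵥ uc n₁) (bb n₁ Q₁ ᵥ* M₁) x := fun x => qp_eval _ _ _
  have v₂ : ∀ x, q₂.eval x = qf (cm (Am n₂)) (Mi₂ *ᵥ uc n₂) (bb n₂ Q₂ ᵥ* M₂) x := fun x => qp_eval _ _ _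
  have h5 := p_SEPQ.1 q₂ q₁ hz₂ hz₁ (fun a => by rw [v₁, v₁, v₂, v₂]; exact hc1 a) fun a b => by
    simp only [v₁, v₂]
    exact hc2 a b
  have hn : n₁ = n₂ := by
    rcases h5 with h5 | h5
    · have : q₁ = q₂ := Polynomial.funext h5
      rw [this, hd₂] at hd₁
      omega
    · have : q₁ = -(q₂.comp (-Polynomial.X)) := by
        refine Polynomial.funext fun x => ?_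
        rw [h5, Polynomial.eval_neg, Polynomial.eval_comp, Polynomial.eval_neg, Polynomial.eval_X]
      have h6 : q₁.natDegree = q₂.natDegree := by
        rw [this, Polynomial.natDegree_neg, Polynomial.natDegree_comp, Polynomial.natDegree_neg, Polynomial.natDegree_X,
          mul_one]
      omega
  subst hn
  obtain ⟨hne1, hne2⟩ := hne rfl
  rcases h5 with h5 | h5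
  · refine hne1 (intw_same p_INT hASY p_REC hQ₁ hQ₁' hQ₂ hQ₂' ht₁ ht₂ h₁ h₂ fun x => ?_)
    rw [XX_vec, XX_vec, ← qf_trace, ← qf_trace, ← v₁, ← v₂, h5]
  · refine hne2 (intw_dual p_INT hASY p_REC hQ₁ hQ₁' hQ₂ hQ₂' ht₁ ht₂ h₁ h₂ fun x => ?_)
    rw [XX_vec, XX_vec, ← qf_trace, ← qf_trace, ← v₁, ← v₂, h5]

/-- two families with complex reflections -/
theorem sepR_pair (hHQ : S_HQ) (hINTR : S_INTR) (hASY : S_ASY2) (hQ₁ : QG n₁ Q₁) (hQ₁' : QG n₁ (dq n₁ Q₁))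
    (hQ₂ : QG n₂ Q₂) (hQ₂' : QG n₂ (dq n₂ Q₂)) {s₁ s₂ : ℚ}
    (ht₁ : Q₁.coeff (n₁ - 1) = s₁) (ht₂ : Q₂.coeff (n₂ - 1) = s₂) (z₁ : s₁ ≠ 0) (z₂ : s₂ ≠ 0)
    {H₁' K₁ K₁' : ℕ → Matrix (Fin n₁) (Fin n₁) ℂ} {M₁ Mi₁ : Matrix (Fin n₁) (Fin n₁) ℂ}
    {H₂' K₂ K₂' : ℕ → Matrix (Fin n₂) (Fin n₂) ℂ} {M₂ Mi₂ : Matrix (Fin n₂) (Fin n₂) ℂ}
    (h₁ : CR s₁ (cm (Am n₁)) (cm (Bm n₁ Q₁)) (Hc n₁ Q₁) H₁' K₁ K₁' M₁ Mi₁)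
    (h₂ : CR s₂ (cm (Am n₂)) (cm (Bm n₂ Q₂)) (Hc n₂ Q₂) H₂' K₂ K₂' M₂ Mi₂)
    (hne : n₁ = n₂ → ¬ RatEq Q₁ Q₂ ∧ ¬ RatEq Q₁ (dq n₂ Q₂)) {v₁ μ₁ : Fin n₁ → ℂ} {v₂ μ₂ : Fin n₂ → ℂ}
    (e₁ : v₁ = Mi₁ *ᵥ uc n₁) (e₁' : μ₁ = ((s₁ : ℂ)⁻¹ • bb n₁ Q₁) ᵥ* M₁) (e₂ : v₂ = Mi₂ *ᵥ uc n₂)
    (e₂' : μ₂ = ((s₂ : ℂ)⁻¹ • bb n₂ Q₂) ᵥ* M₂) :
    ((∃ m : ℤ, s₁ = s₂ + m) → ∃ m, hm (cm (Am n₁)) v₁ μ₁ m ≠ hm (cm (Am n₂)) v₂ μ₂ m) ∧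
    ((∃ m : ℤ, s₁ + s₂ = m) → ∃ m, hm (cm (Am n₁)) v₁ μ₁ m ≠ (-1) ^ m * hm (cm (Am n₂)) v₂ μ₂ m) := by
  subst e₁ e₁' e₂ e₂'
  obtain ⟨g₁, f₁⟩ := refl_facts' hQ₁ hQ₁' ht₁ z₁ h₁
  obtain ⟨g₂, f₂⟩ := refl_facts' hQ₂ hQ₂' ht₂ z₂ h₂
  have hn₁ := hQ₁.two
  have hn₂ := hQ₂.two
  obtain ⟨hA, hB⟩ := hHQ n₁ n₂ (cm (Am n₁)) (cm (Am n₂)) _ _ _ _ (by omega) (by omega) Ac_nil Ac_nil g₁ g₂ f₁ f₂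
  refine ⟨?_, ?_⟩
  · rintro ⟨m, hm'⟩
    by_contra hcon
    push Not at hcon
    obtain ⟨hn, hq⟩ := hA hcon
    subst hn
    refine (hne rfl).1 (intwR_same hINTR hASY p_REC hQ₁ hQ₁' hQ₂ hQ₂' hm' ht₁ ht₂ z₁ z₂ h₁ h₂ fun x => ?_)
    rw [PP_vec, PP_vec, ← qf_trace, ← qf_trace, hq]
  · rintro ⟨m, hm'⟩
    by_contra hcon
    push Not at hcon
    obtain ⟨hn, hq⟩ := hB hcon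
    subst hn
    refine (hne rfl).2 (intwR_dual hINTR hASY p_REC hQ₁ hQ₁' hQ₂ hQ₂' hm' ht₁ ht₂ z₁ z₂ h₁ h₂ fun x => ?_)
    rw [PP_vec, PP_vec, ← qf_trace, ← qf_trace, hq]

end Pool.Agent.Run7.h225.HG
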