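import Pool.Agent.Run7.h225.HG.REFL
import Pool.Agent.Run7.h225.HG.Iface3
import Pool.Agent.Run7.h893.HO.Inv

/-!
# Reflections of order two: all transvections preserve the relations
-/

set_option autoImplicit false

open Filter Topology Matrix Pool.Agent.Y119.HY

namespace Pool.Agent.Run7.h225.HG.REFL2

open Pool.Agent.Run7.h225.HG.REFL

variable {n : ℕ}

/-! ### the one-parameter group of the product of two reflections -/

/-- the spectral projection to the eigenvalue `1` -/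
noncomputable def F0 (U V : Matrix (Fin n) (Fin n) ℂ) (ζ : ℂ) : Matrix (Fin n) (Fin n) ℂ :=
  (-ζ / (ζ - 1) ^ 2) • (U + V - (ζ + ζ⁻¹) • 1)

/-- the one-parameter group -/
noncomputable def Mx (U V : Matrix (Fin n) (Fin n) ℂ) (ζ x : ℂ) : Matrix (Fin n) (Fin n) ℂ :=
  F0 U V ζ + ((x + x⁻¹) / 2) • (1 - F0 U V ζ) + ((x - x⁻¹) / 2) • ((ζ / ((ζ - 1) * (ζ + 1))) • (U - V))

lemma Mx_one (U V : Matrix (Fin n) (Fin n) ℂ) (ζ : ℂ) : Mx U V ζ 1 = 1 := by
  unfold Mx
  rw [inv_one, sub_self, zero_div, zero_smul, add_zero]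
  norm_num

lemma Mx_mul {U V : Matrix (Fin n) (Fin n) ℂ} {ζ x : ℂ} (hζ : ζ ≠ 0) (h1 : ζ - 1 ≠ 0) (h2 : ζ + 1 ≠ 0) (hx : x ≠ 0)
    (hVU : V * U = 1) (hU : U * U = (1 + (ζ + ζ⁻¹)) • U + V - (1 + (ζ + ζ⁻¹)) • 1) : Mx U V ζ x * U = Mx U V ζ (x * ζ) := by
  unfold Mx F0
  simp only [add_mul, sub_mul, smul_mul_assoc, one_mul, hVU, hU]
  ext i j
  simp only [Matrix.add_apply, Matrix.sub_apply, Matrix.smul_apply, smul_eq_mul]
  generalize U i j = u
  generalize V i j = v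
  generalize (1 : Matrix (Fin n) (Fin n) ℂ) i j = o
  field_simp
  ring

lemma Mx_pow {U V : Matrix (Fin n) (Fin n) ℂ} {ζ : ℂ} (hζ : ζ ≠ 0) (h1 : ζ - 1 ≠ 0) (h2 : ζ + 1 ≠ 0)
    (hVU : V * U = 1) (hU : U * U = (1 + (ζ + ζ⁻¹)) • U + V - (1 + (ζ + ζ⁻¹)) • 1) (k : ℕ) : Mx U V ζ (ζ ^ k) = U ^ k := by
  induction k with
  | zero => rw [pow_zero, pow_zero, Mx_one]
  | succ k ih => rw [pow_succ, pow_succ, ← ih, Mx_mul hζ h1 h2 (pow_ne_zero _ hζ) hVU hU]

lemma Mx_mem {Y : ℂ → Matrix (Fin n) (Fin n) ℂ} {U V : Matrix (Fin n) (Fin n) ℂ} {ζ : ℂ} (hζ : ζ ≠ 0) (hn : ‖ζ‖ ≠ 1)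
    (h1 : ζ - 1 ≠ 0) (h2 : ζ + 1 ≠ 0)
    (hVU : V * U = 1) (hU : U * U = (1 + (ζ + ζ⁻¹)) • U + V - (1 + (ζ + ζ⁻¹)) • 1) (hg : U ∈ Gal Y) {x : ℂ} (hx : x ≠ 0) :
    Mx U V ζ x ∈ Gal Y := by
  set M : Matrix (Fin n) (Fin n) (Polynomial ℂ) := Matrix.of fun i j =>
    Polynomial.C (F0 U V ζ i j) * Polynomial.X + Polynomial.C ((1 - F0 U V ζ) i j / 2) * (Polynomial.X ^ 2 + 1) +
      Polynomial.C (((ζ / ((ζ - 1) * (ζ + 1))) • (U - V)) i j / 2) * (Polynomial.X ^ 2 - 1) with hM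
  have hMx : ∀ y : ℂ, y ≠ 0 → (Polynomial.X.eval y)⁻¹ • M.map (Polynomial.eval y) = Mx U V ζ y := by
    intro y hy
    ext i j
    unfold Mx
    simp only [hM, Matrix.smul_apply, Matrix.map_apply, Matrix.of_apply, Polynomial.eval_add, Polynomial.eval_mul,
      Polynomial.eval_C, Polynomial.eval_X, Polynomial.eval_pow, Polynomial.eval_sub, Polynomial.eval_one, smul_eq_mul,
      Matrix.add_apply, Matrix.sub_apply]
    field_simp
  have hT : (Set.range fun k : ℕ => ζ ^ k).Infinite := by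
    refine Set.infinite_range_of_injective fun k l hkl => ?_
    have h3 : ‖ζ‖ ^ k = ‖ζ‖ ^ l := by
      have := congrArg norm hkl
      simpa using this
    exact pow_right_injective₀ (norm_pos_iff.2 hζ) hn h3
  have h3 := Run7.h893.HO.Gal_ZC Y M Polynomial.X _ hT (by
    rintro c ⟨k, rfl⟩
    have h0 : (ζ ^ k : ℂ) ≠ 0 := pow_ne_zero _ hζ
    refine ⟨by rw [Polynomial.eval_X]; exact h0, ?_⟩
    simp only
    rw [hMx _ h0, Mx_pow hζ h1 h2 hVU hU]
    exact Submonoid.pow_mem _ hg k) x (by rw [Polynomial.eval_X]; exact hx)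
  rw [hMx x hx] at h3
  exact h3

lemma Mx_HD (U V : Matrix (Fin n) (Fin n) ℂ) (ζ : ℂ) :
    HD (fun x => Mx U V ζ x) ((ζ / ((ζ - 1) * (ζ + 1))) • (U - V)) 1 := by
  intro i j
  unfold Mx
  simp only [Matrix.add_apply, Matrix.smul_apply, smul_eq_mul]
  have h1 : HasDerivAt (fun x : ℂ => x⁻¹) (-1) 1 := by
    have := hasDerivAt_inv (one_ne_zero (α := ℂ))
    simpa using this
  have h2 : HasDerivAt (fun x : ℂ => (x + x⁻¹) / 2) 0 1 := by
    have := ((hasDerivAt_id (1 : ℂ)).add h1).div_const 2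
    simpa using this
  have h3 : HasDerivAt (fun x : ℂ => (x - x⁻¹) / 2) 1 1 := by
    have := ((hasDerivAt_id (1 : ℂ)).sub h1).div_const 2
    refine this.congr_deriv ?_
    norm_num
  refine (((h2.mul_const ((1 - F0 U V ζ) i j)).const_add (F0 U V ζ i j)).add
    (h3.mul_const ((ζ / ((ζ - 1) * (ζ + 1))) * (U - V) i j))).congr_deriv ?_
  ring

lemma diff_mem {Y : ℂ → Matrix (Fin n) (Fin n) ℂ} {U V : Matrix (Fin n) (Fin n) ℂ} {ζ : ℂ} (hζ : ζ ≠ 0) (hn : ‖ζ‖ ≠ 1)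
    (hVU : V * U = 1) (hU : U * U = (1 + (ζ + ζ⁻¹)) • U + V - (1 + (ζ + ζ⁻¹)) • 1) (hg : U ∈ Gal Y) : U - V ∈ LG Y := by
  have h1 : ζ - 1 ≠ 0 := by
    intro h
    apply hn
    rw [sub_eq_zero.1 h, norm_one]
  have h2 : ζ + 1 ≠ 0 := by
    intro h
    apply hn
    rw [eq_neg_of_add_eq_zero_left h, norm_neg, norm_one]
  have h3 : ∀ᶠ x in 𝓝 (1 : ℂ), Mx U V ζ x ∈ Gal Y := by
    filter_upwards [isOpen_ne.mem_nhds (one_ne_zero (α := ℂ))] with x hx
    exact Mx_mem hζ hn h1 h2 hVU hU hg hx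
  have h4 := LG_curve h3 (Mx_one U V ζ) (Mx_HD U V ζ)
  have h5 : ζ / ((ζ - 1) * (ζ + 1)) ≠ 0 := div_ne_zero hζ (mul_ne_zero h1 h2)
  have h6 := (LG Y).smul_mem (ζ / ((ζ - 1) * (ζ + 1)))⁻¹ h4
  rwa [smul_smul, inv_mul_cancel₀ h5, one_smul] at h6

/-- **Step 1.** -/
lemma comm_mem {Y : ℂ → Matrix (Fin n) (Fin n) ℂ} {P Q : Matrix (Fin n) (Fin n) ℂ} {l : ℂ} (hP : P * P = P) (hQ : Q * Q = Q)
    (hPQ : P * Q * P = l • P) (hQP : Q * P * Q = l • Q) (hRP : 1 + (-2 : ℂ) • P ∈ Gal Y) (hRQ : 1 + (-2 : ℂ) • Q ∈ Gal Y)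
    (hl : 2 < ‖4 * l - 2‖) : P * Q - Q * P ∈ LG Y := by
  obtain ⟨r, hr⟩ := IsAlgClosed.exists_pow_nat_eq ((4 * l - 2) ^ 2 - 4) (n := 2) (by norm_num)
  set ζ : ℂ := (4 * l - 2 + r) / 2 with hζd
  have hm : ζ * ((4 * l - 2 - r) / 2) = 1 := by
    rw [hζd]
    linear_combination (-1 / 4) * hr
  have hζ : ζ ≠ 0 := left_ne_zero_of_mul_eq_one hm
  have hi : ζ⁻¹ = (4 * l - 2 - r) / 2 := inv_eq_of_mul_eq_one_right hm
  have hs : ζ + ζ⁻¹ = 4 * l - 2 := by
    rw [hi, hζd]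
    ring
  have hn : ‖ζ‖ ≠ 1 := by
    intro h
    rw [← hs] at hl
    have := norm_add_le ζ ζ⁻¹
    rw [norm_inv, h, inv_one] at this
    linarith
  set U := (1 + (-2 : ℂ) • P) * (1 + (-2 : ℂ) • Q) with hU
  set V := (1 + (-2 : ℂ) • Q) * (1 + (-2 : ℂ) • P) with hV
  have eU : U = 1 + (-2 : ℂ) • P + (-2 : ℂ) • Q + (4 : ℂ) • (P * Q) := by
    rw [hU, add_mul, one_mul, mul_add, mul_one, smul_mul_smul_comm]
    norm_num
    abel
  have eV : V = 1 + (-2 : ℂ) • P + (-2 : ℂ) • Q + (4 : ℂ) • (Q * P) := by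
    rw [hV, add_mul, one_mul, mul_add, mul_one, smul_mul_smul_comm]
    norm_num
    abel
  have eP : (1 + (-2 : ℂ) • P) * (1 + (-2 : ℂ) • P) = 1 := by
    rw [add_mul, one_mul, mul_add, mul_one, smul_mul_smul_comm, hP]
    have : ((-2 : ℂ) * -2) • P = -((-2 : ℂ) • P) - ((-2 : ℂ) • P) := by
      rw [← neg_smul, ← sub_smul]
      norm_num
    rw [this]
    abel
  have eQ : (1 + (-2 : ℂ) • Q) * (1 + (-2 : ℂ) • Q) = 1 := by
    rw [add_mul, one_mul, mul_add, mul_one, smul_mul_smul_comm, hQ]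
    have : ((-2 : ℂ) * -2) • Q = -((-2 : ℂ) • Q) - ((-2 : ℂ) • Q) := by
      rw [← neg_smul, ← sub_smul]
      norm_num
    rw [this]
    abel
  have hVU : V * U = 1 := by
    rw [hU, hV, Matrix.mul_assoc, ← Matrix.mul_assoc (1 + (-2 : ℂ) • P) (1 + (-2 : ℂ) • P), eP, one_mul, eQ]
  have hUV : U * V = 1 := by
    rw [hU, hV, Matrix.mul_assoc, ← Matrix.mul_assoc (1 + (-2 : ℂ) • Q) (1 + (-2 : ℂ) • Q), eQ, one_mul, eP]
  set C := (1 - l) • (1 : Matrix (Fin n) (Fin n) ℂ) - P - Q + P * Q + Q * P with hC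
  have c1 : P * C = 0 := by
    rw [hC, mul_add, mul_add, mul_sub, mul_sub, ← Matrix.mul_assoc, ← Matrix.mul_assoc, hP, hPQ, mul_smul_comm, mul_one,
      sub_smul, one_smul]
    abel
  have c2 : Q * C = 0 := by
    rw [hC, mul_add, mul_add, mul_sub, mul_sub, ← Matrix.mul_assoc, ← Matrix.mul_assoc, hQ, hQP, mul_smul_comm, mul_one,
      sub_smul, one_smul]
    abel
  have c3 : U * C = C := by
    rw [eU, add_mul, add_mul, add_mul, one_mul, smul_mul_assoc, smul_mul_assoc, smul_mul_assoc, Matrix.mul_assoc, c2, c1,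
      mul_zero, smul_zero, smul_zero, add_zero, add_zero, add_zero]
  have c4 : U + V - (ζ + ζ⁻¹) • 1 = (4 : ℂ) • C := by
    rw [hs, eU, eV, hC]
    ext i j
    simp only [Matrix.add_apply, Matrix.sub_apply, Matrix.smul_apply, smul_eq_mul]
    ring
  have hUU : U * U = (1 + (ζ + ζ⁻¹)) • U + V - (1 + (ζ + ζ⁻¹)) • 1 := by
    have h1 : U * (U + V - (ζ + ζ⁻¹) • 1) = U + V - (ζ + ζ⁻¹) • 1 := by
      rw [c4, mul_smul_comm, c3]
    rw [mul_sub, mul_add, hUV, mul_smul_comm, mul_one] at h1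
    have h2 : U * U = U + V - (ζ + ζ⁻¹) • 1 - 1 + (ζ + ζ⁻¹) • U := by
      rw [← h1]
      abel
    rw [h2, add_smul 1 (ζ + ζ⁻¹) U, add_smul 1 (ζ + ζ⁻¹) (1 : Matrix (Fin n) (Fin n) ℂ), one_smul, one_smul]
    abel
  have h := diff_mem hζ hn hVU hUU (mul_mem hRP hRQ)
  rw [eU, eV] at h
  have e : 1 + (-2 : ℂ) • P + (-2 : ℂ) • Q + (4 : ℂ) • (P * Q) - (1 + (-2 : ℂ) • P + (-2 : ℂ) • Q + (4 : ℂ) • (Q * P)) =
      (4 : ℂ) • (P * Q - Q * P) := by
    rw [smul_sub]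
    abel
  rw [e] at h
  have h3 := (LG Y).smul_mem (4 : ℂ)⁻¹ h
  rwa [smul_smul, inv_mul_cancel₀ (by norm_num), one_smul] at h3

/-! ### polynomial functions -/

/-- polynomial functions -/
def Pol (φ : ℂ → ℂ) : Prop := ∃ p : Polynomial ℂ, ∀ x, p.eval x = φ x

lemma Pol.const (a : ℂ) : Pol fun _ => a := ⟨Polynomial.C a, fun _ => Polynomial.eval_C⟩

lemma Pol.add {φ ψ : ℂ → ℂ} (h : Pol φ) (h' : Pol ψ) : Pol fun x => φ x + ψ x := by
  obtain ⟨p, hp⟩ := h
  obtain ⟨q, hq⟩ := h'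
  exact ⟨p + q, fun x => by rw [Polynomial.eval_add, hp, hq]⟩

lemma Pol.sub {φ ψ : ℂ → ℂ} (h : Pol φ) (h' : Pol ψ) : Pol fun x => φ x - ψ x := by
  obtain ⟨p, hp⟩ := h
  obtain ⟨q, hq⟩ := h'
  exact ⟨p - q, fun x => by rw [Polynomial.eval_sub, hp, hq]⟩

lemma Pol.mul {φ ψ : ℂ → ℂ} (h : Pol φ) (h' : Pol ψ) : Pol fun x => φ x * ψ x := by
  obtain ⟨p, hp⟩ := h
  obtain ⟨q, hq⟩ := h'
  exact ⟨p * q, fun x => by rw [Polynomial.eval_mul, hp, hq]⟩

lemma Pol.sub_right {φ : ℂ → ℂ} (h : Pol φ) (a : ℂ) : Pol fun x => φ (x - a) := by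
  obtain ⟨p, hp⟩ := h
  exact ⟨p.comp (Polynomial.X - Polynomial.C a), fun x => by
    rw [Polynomial.eval_comp, Polynomial.eval_sub, Polynomial.eval_X, Polynomial.eval_C, hp]⟩

lemma Pol.sub_left {φ : ℂ → ℂ} (h : Pol φ) (a : ℂ) : Pol fun x => φ (a - x) := by
  obtain ⟨p, hp⟩ := h
  exact ⟨p.comp (Polynomial.C a - Polynomial.X), fun x => by
    rw [Polynomial.eval_comp, Polynomial.eval_sub, Polynomial.eval_X, Polynomial.eval_C, hp]⟩

lemma Pol.exists {φ ψ : ℂ → ℂ} (h : Pol φ) (h' : Pol ψ) {x y : ℂ} (hx : φ x ≠ 0) (hy : ψ y ≠ 0) : ∃ z, φ z ≠ 0 ∧ ψ z ≠ 0 := by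
  obtain ⟨p, hp⟩ := h
  obtain ⟨q, hq⟩ := h'
  have h1 : p ≠ 0 := by
    rintro rfl
    rw [← hp, Polynomial.eval_zero] at hx
    exact hx rfl
  have h2 : q ≠ 0 := by
    rintro rfl
    rw [← hq, Polynomial.eval_zero] at hy
    exact hy rfl
  by_contra hc
  push Not at hc
  refine mul_ne_zero h1 h2 (Polynomial.funext fun z => ?_)
  rw [Polynomial.eval_mul, Polynomial.eval_zero, hp, hq]
  by_cases h3 : φ z = 0
  · rw [h3, zero_mul]
  · rw [hc z h3, mul_zero]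

lemma three {D g : ℂ → ℂ → ℂ → ℂ} (Da : ∀ b c, Pol fun a => D a b c) (Db : ∀ a c, Pol fun b => D a b c)
    (Dc : ∀ a b, Pol fun c => D a b c) (ga : ∀ b c, Pol fun a => g a b c) (gb : ∀ a c, Pol fun b => g a b c)
    (gc : ∀ a b, Pol fun c => g a b c) (h : ∀ a b c, D a b c * g a b c = 0) {a0 b0 c0 : ℂ} (h0 : D a0 b0 c0 ≠ 0)
    (a b c : ℂ) : g a b c = 0 := by
  by_contra hg
  obtain ⟨a', h1, h2⟩ := (Da b0 c0).exists (ga b c) h0 hg
  obtain ⟨b', h3, h4⟩ := (Db a' c0).exists (gb a' c) h1 h2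
  obtain ⟨c', h5, h6⟩ := (Dc a' b').exists (gc a' b') h3 h4
  exact mul_ne_zero h5 h6 (h a' b' c')

/-! ### Step 2 -/

variable {N : Matrix (Fin n) (Fin n) ℂ} {v μ : Fin n → ℂ}

/-- `e_ac = v^a ⊗ μ^c` -/
noncomputable def ee (N : Matrix (Fin n) (Fin n) ℂ) (v μ : Fin n → ℂ) (a c : ℂ) : Matrix (Fin n) (Fin n) ℂ :=
  vecMulVec (vc N v a) (mc N μ c)

lemma ee_mul (hN : N ^ n = 0) (a b c d : ℂ) : ee N v μ a b * ee N v μ c d = qf N v μ (c - b) • ee N v μ a d := by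
  unfold ee
  rw [vecMulVec_mul_vecMulVec, mc_vc hN, vecMulVec_smul]

lemma qf_zero (hN : N ^ n = 0) (h1 : μ ⬝ᵥ v = 1) : qf N v μ 0 = 1 := by
  unfold qf
  rw [E_zero hN, one_mulVec, h1]

lemma qf_pol : Pol (qf N v μ) := ⟨pl N v (dl μ), fun x => by
  rw [pl_eval]
  rfl⟩

/-- the brackets of the projections -/
lemma k_mem {N1 : Matrix (Fin n) (Fin n) ℂ} {H : ℕ → Matrix (Fin n) (Fin n) ℂ} (hn : 2 ≤ n) (hN : N ^ n = 0) (hH : Sol N N1 H)
    (h1 : μ ⬝ᵥ v = 1) (hcyc : μ ⬝ᵥ ((N ^ (n - 1)) *ᵥ v) ≠ 0) (hR : 1 + (-2 : ℂ) • vecMulVec v μ ∈ Gal (Yf N H)) (a b : ℂ) :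
    qf N v μ (b - a) • ee N v μ a b - qf N v μ (a - b) • ee N v μ b a ∈ LG (Yf N H) := by
  have hP : ∀ a, ee N v μ a a * ee N v μ a a = ee N v μ a a := by
    intro a
    rw [ee_mul hN, sub_self, qf_zero hN h1, one_smul]
  have hRa : ∀ a, 1 + (-2 : ℂ) • ee N v μ a a ∈ Gal (Yf N H) := by
    intro a
    have h2 := conj_E hN hH a _ hR
    rw [conj_refl hN] at h2
    exact h2
  set M : Matrix (Fin n) (Fin n) (Polynomial ℂ) := (ee N v μ a a).map Polynomial.C *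
    (Ep N * (vecMulVec v μ).map Polynomial.C * Ep (-N)) -
      (Ep N * (vecMulVec v μ).map Polynomial.C * Ep (-N)) * (ee N v μ a a).map Polynomial.C with hM
  have hMb : ∀ b, M.map (Polynomial.eval b) = ee N v μ a a * ee N v μ b b - ee N v μ b b * ee N v μ a a := by
    intro b
    have e0 : M.map (Polynomial.eval b) = ((ee N v μ a a).map Polynomial.C *
        (Ep N * (vecMulVec v μ).map Polynomial.C * Ep (-N))).map (Polynomial.eval b) -
        ((Ep N * (vecMulVec v μ).map Polynomial.C * Ep (-N)) * (ee N v μ a a).map Polynomial.C).map (Polynomial.eval b) := by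
      ext i j
      rw [hM, Matrix.map_apply, Matrix.sub_apply, Matrix.sub_apply, Polynomial.eval_sub]
      rfl
    rw [e0, map_mul_eval, map_mul_eval (Ep N * (vecMulVec v μ).map Polynomial.C * Ep (-N)), conj_poly, map_C_eval, conj_vec]
    rfl
  -- the good set
  set qp := pl N v (dl μ) with hqp
  have hqd : qp.natDegree = n - 1 := by
    refine le_antisymm (pl_natDegree (by omega) _) (Polynomial.le_natDegree_of_ne_zero ?_)
    have := pl_coeff (N := N) v (dl μ) ⟨n - 1, by omega⟩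
    simp only at this
    rw [hqp, this]
    refine div_ne_zero hcyc ?_
    exact_mod_cast (n - 1).factorial_ne_zero
  set lp : Polynomial ℂ := Polynomial.C 4 * (qp.comp (Polynomial.X - Polynomial.C a) *
    qp.comp (Polynomial.C a - Polynomial.X)) - Polynomial.C 2 with hlp
  have hd1 : (qp.comp (Polynomial.X - Polynomial.C a)).natDegree = n - 1 := by
    rw [Polynomial.natDegree_comp, Polynomial.natDegree_X_sub_C, mul_one, hqd]
  have hd2 : (qp.comp (Polynomial.C a - Polynomial.X)).natDegree = n - 1 := by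
    have : (Polynomial.C a - Polynomial.X : Polynomial ℂ).natDegree = 1 := by
      rw [← neg_sub, Polynomial.natDegree_neg, Polynomial.natDegree_X_sub_C]
    rw [Polynomial.natDegree_comp, this, mul_one, hqd]
  have hld : lp.natDegree = (n - 1) + (n - 1) := by
    rw [hlp, Polynomial.natDegree_sub_C, Polynomial.natDegree_C_mul (by norm_num), Polynomial.natDegree_mul, hd1, hd2]
    · intro h0
      rw [h0, Polynomial.natDegree_zero] at hd1
      omega
    · intro h0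
      rw [h0, Polynomial.natDegree_zero] at hd2
      omega
  have hle : ∀ b, lp.eval b = 4 * (qf N v μ (b - a) * qf N v μ (a - b)) - 2 := by
    intro b
    have hq : ∀ x, qp.eval x = qf N v μ x := fun x => by
      rw [hqp, pl_eval]
      rfl
    rw [hlp, Polynomial.eval_sub, Polynomial.eval_mul, Polynomial.eval_mul, Polynomial.eval_comp, Polynomial.eval_comp,
      Polynomial.eval_sub, Polynomial.eval_sub, Polynomial.eval_X, Polynomial.eval_C, Polynomial.eval_C, Polynomial.eval_C,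
      hq, hq]
  have hT : {b : ℂ | 2 < ‖lp.eval b‖}.Infinite := by
    have h2 : Tendsto (fun k : ℕ => ‖(k : ℂ)‖) atTop atTop := by
      simp only [Complex.norm_natCast]
      exact tendsto_natCast_atTop_atTop
    have h3 := Polynomial.tendsto_norm_atTop lp (Polynomial.natDegree_pos_iff_degree_pos.1 (by omega)) h2
    obtain ⟨K, hK⟩ := (h3.eventually_gt_atTop 2).exists_forall_of_atTop
    refine Set.infinite_of_injective_forall_mem (f := fun k : ℕ => ((k + K : ℕ) : ℂ)) (fun k l hkl => ?_) fun k =>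
      hK (k + K) (Nat.le_add_left _ _)
    have h5 : ((k + K : ℕ) : ℂ) = ((l + K : ℕ) : ℂ) := hkl
    have : k + K = l + K := by exact_mod_cast h5
    omega
  have h2 := sub_poly (LG (Yf N H)) M _ hT (fun b hb => by
    rw [hMb]
    have hb' : 2 < ‖lp.eval b‖ := hb
    rw [hle] at hb'
    refine comm_mem (l := qf N v μ (b - a) * qf N v μ (a - b)) (hP a) (hP b) ?_ ?_ (hRa a) (hRa b) hb'
    · rw [ee_mul hN, smul_mul_assoc, ee_mul hN, smul_smul]
    · rw [ee_mul hN, smul_mul_assoc, ee_mul hN, smul_smul, mul_comm]) b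
  rw [hMb, ee_mul hN, ee_mul hN] at h2
  exact h2

/-- the identity of Step 2 -/
lemma bracket_id (hN : N ^ n = 0) (h1 : μ ⬝ᵥ v = 1) (a b c : ℂ) :
    (qf N v μ (b - a) • ee N v μ a b - qf N v μ (a - b) • ee N v μ b a) *
        (qf N v μ (c - b) • ee N v μ b c - qf N v μ (b - c) • ee N v μ c b) -
      (qf N v μ (c - b) • ee N v μ b c - qf N v μ (b - c) • ee N v μ c b) *
        (qf N v μ (b - a) • ee N v μ a b - qf N v μ (a - b) • ee N v μ b a) =
      (qf N v μ (b - a) * qf N v μ (c - b)) • ee N v μ a c - (qf N v μ (b - c) * qf N v μ (a - b)) • ee N v μ c a -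
      (qf N v μ (c - b) * qf N v μ (b - c)) • (qf N v μ (b - a) • ee N v μ a b - qf N v μ (a - b) • ee N v μ b a) -
      (qf N v μ (b - a) * qf N v μ (a - b)) • (qf N v μ (c - b) • ee N v μ b c - qf N v μ (b - c) • ee N v μ c b) -
      (qf N v μ (b - a) * qf N v μ (c - b) * qf N v μ (a - c) - qf N v μ (c - a) * qf N v μ (b - c) * qf N v μ (a - b)) •
        ee N v μ b b := by
  simp only [sub_mul, mul_sub, smul_mul_assoc, mul_smul_comm, ee_mul hN, sub_self, qf_zero hN h1]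
  ext i j
  simp only [Matrix.sub_apply, Matrix.smul_apply, smul_eq_mul]
  ring

theorem refl2 : S_REFL2 := by
  intro n N N1 H v μ hn hN hH h1 hcyc hR hD w ξ hw
  obtain ⟨a0, b0, c0, hD⟩ := hD
  have hk := k_mem hn hN hH h1 hcyc hR
  have hmem : ∀ a b c : ℂ, (qf N v μ (b - a) * qf N v μ (c - b) * qf N v μ (a - c) -
      qf N v μ (c - a) * qf N v μ (b - c) * qf N v μ (a - b)) •
        (ee N v μ a c - qf N v μ (a - c) • ee N v μ b b) ∈ LG (Yf N H) := by
    intro a b c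
    have h2 := LG_bracket (hk a b) (hk b c)
    rw [bracket_id hN h1] at h2
    have h3 := (LG (Yf N H)).add_mem ((LG (Yf N H)).add_mem h2 ((LG (Yf N H)).smul_mem (qf N v μ (c - b) * qf N v μ (b - c))
      (hk a b))) ((LG (Yf N H)).smul_mem (qf N v μ (b - a) * qf N v μ (a - b)) (hk b c))
    have h4 := (LG (Yf N H)).sub_mem ((LG (Yf N H)).smul_mem (qf N v μ (a - c)) h3)
      ((LG (Yf N H)).smul_mem (qf N v μ (b - c) * qf N v μ (a - b)) (hk a c))
    convert h4 using 1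
    ext i j
    simp only [Matrix.add_apply, Matrix.sub_apply, Matrix.smul_apply, smul_eq_mul]
    ring
  have hw2 : vecMulVec w ξ ∈ LG (Yf N H) := by
    refine mem_of_func _ fun f hf => ?_
    obtain ⟨gp, hgp⟩ := exists_poly f (Ep N * (vecMulVec v μ).map Polynomial.C * Ep (-N))
    have hG : Pol fun b => f (ee N v μ b b) := ⟨gp, fun b => by
      rw [hgp, conj_poly, conj_vec]
      rfl⟩
    have hFa : ∀ c, Pol fun a => f (ee N v μ a c) := fun c => ⟨pl N v (fl f (mc N μ c)), fun a => by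
      rw [pl_eval]
      rfl⟩
    have hFc : ∀ a, Pol fun c => f (ee N v μ a c) := fun a =>
      ⟨(pl N.transpose μ (fr f (vc N v a))).comp (-Polynomial.X), fun c => by
        rw [Polynomial.eval_comp, Polynomial.eval_neg, Polynomial.eval_X, pl_eval, ← mc_eq]
        rfl⟩
    have hq := qf_pol (N := N) (v := v) (μ := μ)
    have key : ∀ a b c : ℂ, f (ee N v μ a c) - qf N v μ (a - c) * f (ee N v μ b b) = 0 := by
      refine three (D := fun a b c => qf N v μ (b - a) * qf N v μ (c - b) * qf N v μ (a - c) -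
        qf N v μ (c - a) * qf N v μ (b - c) * qf N v μ (a - b))
        (g := fun a b c => f (ee N v μ a c) - qf N v μ (a - c) * f (ee N v μ b b)) ?_ ?_ ?_ ?_ ?_ ?_ ?_ (sub_ne_zero.2 hD)
      · intro b c
        exact (((hq.sub_left b).mul (Pol.const _)).mul (hq.sub_right c)).sub
          (((hq.sub_left c).mul (Pol.const _)).mul (hq.sub_right b))
      · intro a c
        exact (((hq.sub_right a).mul (hq.sub_left c)).mul (Pol.const _)).sub
          (((Pol.const _).mul (hq.sub_right c)).mul (hq.sub_left a))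
      · intro a b
        exact (((Pol.const _).mul (hq.sub_right b)).mul (hq.sub_left a)).sub
          (((hq.sub_right a).mul (hq.sub_left b)).mul (Pol.const _))
      · intro b c
        exact (hFa c).sub ((hq.sub_right c).mul (Pol.const _))
      · intro a c
        exact (Pol.const _).sub ((Pol.const _).mul hG)
      · intro a b
        exact (hFc a).sub ((hq.sub_left a).mul (Pol.const _))
      · intro a b c
        have h2 := hf _ (hmem a b c)
        rw [map_smul, map_sub, map_smul, smul_eq_mul, smul_eq_mul] at h2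
        exact h2
    set κ := f (ee N v μ 0 0) with hκ
    have h2 : ∀ c, fl f (mc N μ c) - κ • dl (mc N μ c) = 0 := fun c => span_v hN hcyc fun a => by
      have h3 := key a 0 c
      rw [LinearMap.sub_apply, LinearMap.smul_apply]
      show f (ee N v μ a c) - κ • (mc N μ c ⬝ᵥ vc N v a) = 0
      rw [mc_vc hN, smul_eq_mul, ← h3]
      ring
    have h3 : fr f w - κ • dl w = 0 := span_m hN hcyc fun c => by
      have h4 := congrArg (fun l : (Fin n → ℂ) →ₗ[ℂ] ℂ => l w) (h2 c)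
      simp only [LinearMap.sub_apply, LinearMap.smul_apply, LinearMap.zero_apply] at h4
      have h5 : f (vecMulVec w (mc N μ c)) - κ • (mc N μ c ⬝ᵥ w) = 0 := h4
      rw [LinearMap.sub_apply, LinearMap.smul_apply]
      show f (vecMulVec w (mc N μ c)) - κ • (w ⬝ᵥ mc N μ c) = 0
      rw [dotProduct_comm w]
      exact h5
    have h4 := congrArg (fun l : (Fin n → ℂ) →ₗ[ℂ] ℂ => l ξ) h3
    simp only [LinearMap.sub_apply, LinearMap.smul_apply, LinearMap.zero_apply] at h4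
    have h5 : f (vecMulVec w ξ) - κ • (w ⬝ᵥ ξ) = 0 := h4
    rw [dotProduct_comm, hw, smul_zero, sub_zero] at h5
    exact h5
  have h3 := LG_exp hw2 (by rw [vecMulVec_mul_vecMulVec, hw, zero_smul, vecMulVec_zero]) 1
  rwa [one_smul] at h3

end Pool.Agent.Run7.h225.HG.REFL2
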