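import Pool.Agent.Run7.h225.HG.GRP
import Pool.Agent.Run7.h225.HG.Iface6

/-!
# Separation of reflections of order two
-/

set_option autoImplicit false

open Matrix
open Pool.Agent.Y119.HY (E)

namespace Pool.Agent.Run7.h225.HG

/-! ### matrices of trace zero -/

/-- the nilpotent matrices of rank one span the matrices of trace zero -/
theorem slm_of_rank {n : ℕ} (𝔥 : Submodule ℂ (Matrix (Fin n) (Fin n) ℂ))
    (h : ∀ w ξ : Fin n → ℂ, ξ ⬝ᵥ w = 0 → vecMulVec w ξ ∈ 𝔥) : slm n ≤ 𝔥 := by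
  intro X hX
  rw [mem_slm] at hX
  rcases Nat.eq_zero_or_pos n with h0 | h0
  · subst h0
    have : X = 0 := by
      ext i
      exact i.elim0
    rw [this]
    exact 𝔥.zero_mem
  · set o : Fin n := ⟨0, h0⟩
    have e1 : ∀ i j : Fin n, vecMulVec (Pi.single i (1 : ℂ)) (Pi.single j (1 : ℂ)) = Matrix.single i j (1 : ℂ) := by
      intro i j
      ext a b
      rw [vecMulVec_apply, Matrix.single_apply, Pi.single_apply, Pi.single_apply]
      by_cases ha : a = i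
      · by_cases hb : b = j
        · rw [if_pos ha, if_pos hb, if_pos ⟨ha.symm, hb.symm⟩, one_mul]
        · rw [if_neg hb, mul_zero, if_neg (fun h => hb h.2.symm)]
      · rw [if_neg ha, zero_mul, if_neg (fun h => ha h.1.symm)]
    have h1 : ∀ i j : Fin n, i ≠ j → Matrix.single i j (1 : ℂ) ∈ 𝔥 := by
      intro i j hij
      rw [← e1]
      refine h _ _ ?_
      rw [single_dotProduct, Pi.single_eq_of_ne hij.symm, mul_zero]
    have h2 : ∀ i : Fin n, Matrix.single i i (1 : ℂ) - Matrix.single o o (1 : ℂ) ∈ 𝔥 := by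
      intro i
      by_cases hi : i = o
      · rw [hi, sub_self]
        exact 𝔥.zero_mem
      · have h3 := h (Pi.single i 1 - Pi.single o 1) (Pi.single i 1 + Pi.single o 1) (by
          rw [add_dotProduct, dotProduct_sub, dotProduct_sub, single_dotProduct, single_dotProduct, single_dotProduct,
            single_dotProduct, Pi.single_eq_same, Pi.single_eq_same, Pi.single_eq_of_ne hi, Pi.single_eq_of_ne (Ne.symm hi)]
          ring)
        have e2 : vecMulVec (Pi.single i 1 - Pi.single o 1) (Pi.single i 1 + Pi.single o (1 : ℂ)) =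
            Matrix.single i i (1 : ℂ) - Matrix.single o o (1 : ℂ) + (Matrix.single i o (1 : ℂ) - Matrix.single o i (1 : ℂ)) := by
          rw [sub_vecMulVec, vecMulVec_add, vecMulVec_add, e1, e1, e1, e1]
          abel
        rw [e2] at h3
        have h4 := 𝔥.sub_mem h3 (𝔥.sub_mem (h1 i o hi) (h1 o i (Ne.symm hi)))
        rwa [add_sub_cancel_right] at h4
    have h3 : ∀ i j : Fin n, Matrix.single i j (1 : ℂ) - (if i = j then Matrix.single o o (1 : ℂ) else 0) ∈ 𝔥 := by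
      intro i j
      by_cases hij : i = j
      · subst hij
        rw [if_pos rfl]
        exact h2 i
      · rw [if_neg hij, sub_zero]
        exact h1 i j hij
    have h4 : X = ∑ i, ∑ j, X i j • (Matrix.single i j (1 : ℂ) - if i = j then Matrix.single o o (1 : ℂ) else 0) := by
      have e3 : ∑ i, ∑ j, X i j • (Matrix.single i j (1 : ℂ) - if i = j then Matrix.single o o (1 : ℂ) else 0) =
          (∑ i, ∑ j, X i j • Matrix.single i j (1 : ℂ)) - ∑ i, ∑ j, X i j • (if i = j then Matrix.single o o (1 : ℂ) else 0) := by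
        rw [← Finset.sum_sub_distrib]
        refine Finset.sum_congr rfl fun i _ => ?_
        rw [← Finset.sum_sub_distrib]
        exact Finset.sum_congr rfl fun j _ => smul_sub _ _ _
      have e4 : ∑ i, ∑ j, X i j • (if i = j then Matrix.single o o (1 : ℂ) else 0) = 0 := by
        have : ∀ i : Fin n, ∑ j, X i j • (if i = j then Matrix.single o o (1 : ℂ) else 0) = X i i • Matrix.single o o (1 : ℂ) := by
          intro i
          rw [Finset.sum_eq_single i]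
          · rw [if_pos rfl]
          · intro j _ hj
            rw [if_neg (Ne.symm hj), smul_zero]
          · intro h
            exact absurd (Finset.mem_univ _) h
        rw [Finset.sum_congr rfl fun i _ => this i, ← Finset.sum_smul]
        have : ∑ i, X i i = 0 := hX
        rw [this, zero_smul]
      rw [e3, e4, sub_zero]
      conv_lhs => rw [Matrix.matrix_eq_sum_single X]
      refine Finset.sum_congr rfl fun i _ => Finset.sum_congr rfl fun j _ => ?_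
      rw [Matrix.smul_single, smul_eq_mul, mul_one]
    rw [h4]
    exact 𝔥.sum_mem fun i _ => 𝔥.sum_mem fun j _ => 𝔥.smul_mem _ (h3 i j)

section rf

variable {n : ℕ} {v μ : Fin n → ℂ}

lemma PP1 (h : μ ⬝ᵥ v = 1) : vecMulVec v μ * vecMulVec v μ = vecMulVec v μ := by
  rw [vecMulVec_mul_vecMulVec, h, one_smul]

lemma rf_sq (h : μ ⬝ᵥ v = 1) : rf v μ * rf v μ = 1 := by
  unfold rf
  rw [sub_mul, one_mul, mul_sub, mul_one, smul_mul_smul_comm, PP1 h]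
  module

lemma two_offd (h : μ ⬝ᵥ v = 1) (X : Matrix (Fin n) (Fin n) ℂ) :
    (2 : ℂ) • offd (vecMulVec v μ) X = X - rf v μ * X * rf v μ := by
  unfold offd rf
  set P := vecMulVec v μ
  simp only [sub_mul, mul_sub, one_mul, mul_one, smul_mul_assoc, mul_smul_comm, smul_sub, smul_add, smul_smul]
  module

lemma offd_slm (h : μ ⬝ᵥ v = 1) (X : Matrix (Fin n) (Fin n) ℂ) : offd (vecMulVec v μ) X ∈ slm n := by
  rw [mem_slm]
  unfold offd
  have hP := PP1 h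
  set P := vecMulVec v μ
  rw [trace_add, Matrix.mul_assoc P, Matrix.trace_mul_comm P, Matrix.mul_assoc X, sub_mul, one_mul, hP, sub_self, mul_zero,
    trace_zero, Matrix.trace_mul_comm _ P, ← Matrix.mul_assoc, mul_sub, mul_one, hP, sub_self, zero_mul, trace_zero, add_zero]

variable {J X Z : Matrix (Fin n) (Fin n) ℂ}

lemma slm_brk : X * Z - Z * X ∈ slm n := by
  rw [mem_slm, trace_sub, Matrix.trace_mul_comm, sub_self]

lemma slm_cj (h : μ ⬝ᵥ v = 1) (hX : X ∈ slm n) : rf v μ * X * rf v μ ∈ slm n := by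
  rw [mem_slm] at hX ⊢
  rw [Matrix.trace_mul_comm, ← Matrix.mul_assoc, rf_sq h, one_mul, hX]

lemma som_brk (hX : X ∈ som J) (hZ : Z ∈ som J) : X * Z - Z * X ∈ som J := by
  rw [mem_som] at *
  have h1 : X.transpose * J = -(J * X) := eq_neg_of_add_eq_zero_left hX
  have h2 : Z.transpose * J = -(J * Z) := eq_neg_of_add_eq_zero_left hZ
  rw [transpose_sub, transpose_mul, transpose_mul, sub_mul, Matrix.mul_assoc, Matrix.mul_assoc, h1, h2, mul_neg, mul_neg,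
    ← Matrix.mul_assoc, ← Matrix.mul_assoc, h1, h2, neg_mul, neg_mul, neg_neg, neg_neg, mul_sub, Matrix.mul_assoc,
    Matrix.mul_assoc]
  abel

lemma rf_isom (hJ : J.transpose = J) {c : ℂ} (hc : J *ᵥ v = c • μ) : (rf v μ).transpose * J = J * rf v μ := by
  unfold rf
  rw [transpose_sub, transpose_one, transpose_smul, transpose_vecMulVec, sub_mul, mul_sub, one_mul, mul_one, smul_mul_assoc,
    mul_smul_comm, vecMulVec_mul, mul_vecMulVec, hc]
  have : v ᵥ* J = c • μ := by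
    rw [← hc, ← vecMul_transpose, hJ]
  rw [this, vecMulVec_smul, smul_vecMulVec]

lemma som_cj (h : μ ⬝ᵥ v = 1) (hJ : J.transpose = J) {c : ℂ} (hc : J *ᵥ v = c • μ) (hX : X ∈ som J) :
    rf v μ * X * rf v μ ∈ som J := by
  rw [mem_som] at hX ⊢
  have h1 := rf_isom hJ hc
  rw [transpose_mul, transpose_mul]
  calc (rf v μ).transpose * (X.transpose * (rf v μ).transpose) * J + J * (rf v μ * X * rf v μ) =
        (rf v μ).transpose * X.transpose * ((rf v μ).transpose * J) + J * rf v μ * X * rf v μ := by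
        simp only [Matrix.mul_assoc]
    _ = (rf v μ).transpose * X.transpose * (J * rf v μ) + (rf v μ).transpose * J * X * rf v μ := by rw [h1]
    _ = (rf v μ).transpose * (X.transpose * J + J * X) * rf v μ := by
        simp only [Matrix.mul_add, Matrix.add_mul, Matrix.mul_assoc]
    _ = 0 := by rw [hX, mul_zero, zero_mul]

end rf

/-! ### the separation -/

section sept

variable {ι : Type} [Fintype ι] [DecidableEq ι] {n : ι → ℕ}

open Classical in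
/-- the Lie algebra of a block -/
noncomputable def Lb (n : ι → ℕ) (J : ∀ j, Matrix (Fin (n j)) (Fin (n j)) ℂ) (O : ι → Prop) (j : ι) :
    Submodule ℂ (Matrix (Fin (n j)) (Fin (n j)) ℂ) := if O j then som (J j) else slm (n j)

/-- the data of the separation -/
structure ST (n : ι → ℕ) (N J : ∀ j, Matrix (Fin (n j)) (Fin (n j)) ℂ) (v μ : ∀ j, Fin (n j) → ℂ) (O : ι → Prop)
    (𝔤 : Submodule ℂ (∀ j, Matrix (Fin (n j)) (Fin (n j)) ℂ)) : Prop where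
  two : ∀ j, 2 ≤ n j
  nil : ∀ j, N j ^ n j = 0
  mv : ∀ j, μ j ⬝ᵥ v j = 1
  cyc : ∀ j, μ j ⬝ᵥ ((N j ^ (n j - 1)) *ᵥ v j) ≠ 0
  adN : ∀ X ∈ 𝔤, N * X - X * N ∈ 𝔤
  brk : ∀ X ∈ 𝔤, ∀ Z ∈ 𝔤, X * Z - Z * X ∈ 𝔤
  cj : ∀ X ∈ 𝔤, (fun j => rf (v j) (μ j)) * X * (fun j => rf (v j) (μ j)) ∈ 𝔤
  od : (fun j => offd (vecMulVec (v j) (μ j)) (N j)) ∈ 𝔤
  tyO : ∀ j, O j → OT (N j) (J j) (v j) (μ j)
  tyS : ∀ j, ¬ O j → ∃ m, Odd m ∧ hm (N j) (v j) (μ j) m ≠ 0
  sepA : ∀ i j, i ≠ j → ∃ m, hm (N i) (v i) (μ i) m ≠ hm (N j) (v j) (μ j) m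
  sepB : ∀ i j, i ≠ j → ∃ m, hm (N i) (v i) (μ i) m ≠ (-1) ^ m * hm (N j) (v j) (μ j) m
  no23 : ∀ i j, ¬ O i → O j → ¬ (n i = 2 ∧ n j = 3)

variable {N J : ∀ j, Matrix (Fin (n j)) (Fin (n j)) ℂ} {v μ : ∀ j, Fin (n j) → ℂ} {O : ι → Prop}
    {𝔤 : Submodule ℂ (∀ j, Matrix (Fin (n j)) (Fin (n j)) ℂ)}

lemma Lb_O {j : ι} (h : O j) : Lb n J O j = som (J j) := if_pos h

lemma Lb_S {j : ι} (h : ¬ O j) : Lb n J O j = slm (n j) := if_neg h

/-- the elements of `𝔤` in the product of the `Lb` -/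
noncomputable def g2 (n : ι → ℕ) (J : ∀ j, Matrix (Fin (n j)) (Fin (n j)) ℂ) (O : ι → Prop)
    (𝔤 : Submodule ℂ (∀ j, Matrix (Fin (n j)) (Fin (n j)) ℂ)) : Submodule ℂ (∀ j, Matrix (Fin (n j)) (Fin (n j)) ℂ) :=
  𝔤 ⊓ Submodule.pi Set.univ (Lb n J O)

lemma mem_g2 {X : ∀ j, Matrix (Fin (n j)) (Fin (n j)) ℂ} : X ∈ g2 n J O 𝔤 ↔ X ∈ 𝔤 ∧ ∀ j, X j ∈ Lb n J O j := by
  unfold g2
  rw [Submodule.mem_inf, Submodule.mem_pi]
  simp only [Set.mem_univ, forall_const]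

lemma g2_brk (hS : ST n N J v μ O 𝔤) {X Z : ∀ j, Matrix (Fin (n j)) (Fin (n j)) ℂ} (hX : X ∈ g2 n J O 𝔤)
    (hZ : Z ∈ g2 n J O 𝔤) : X * Z - Z * X ∈ g2 n J O 𝔤 := by
  rw [mem_g2] at *
  refine ⟨hS.brk _ hX.1 _ hZ.1, fun j => ?_⟩
  have h1 := hX.2 j
  have h2 := hZ.2 j
  rw [Pi.sub_apply, Pi.mul_apply, Pi.mul_apply]
  by_cases hO : O j
  · rw [Lb_O hO] at *
    exact som_brk h1 h2
  · rw [Lb_S hO]
    exact slm_brk

lemma g2_adN (hS : ST n N J v μ O 𝔤) {X : ∀ j, Matrix (Fin (n j)) (Fin (n j)) ℂ} (hX : X ∈ g2 n J O 𝔤) :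
    N * X - X * N ∈ g2 n J O 𝔤 := by
  rw [mem_g2] at *
  refine ⟨hS.adN _ hX.1, fun j => ?_⟩
  have h1 := hX.2 j
  rw [Pi.sub_apply, Pi.mul_apply, Pi.mul_apply]
  by_cases hO : O j
  · rw [Lb_O hO] at *
    exact som_brk (mem_som.2 (hS.tyO j hO).skew) h1
  · rw [Lb_S hO]
    exact slm_brk

lemma g2_cj (hS : ST n N J v μ O 𝔤) {X : ∀ j, Matrix (Fin (n j)) (Fin (n j)) ℂ} (hX : X ∈ g2 n J O 𝔤) :
    (fun j => rf (v j) (μ j)) * X * (fun j => rf (v j) (μ j)) ∈ g2 n J O 𝔤 := by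
  rw [mem_g2] at *
  refine ⟨hS.cj _ hX.1, fun j => ?_⟩
  have h1 := hX.2 j
  rw [Pi.mul_apply, Pi.mul_apply]
  by_cases hO : O j
  · rw [Lb_O hO] at *
    obtain ⟨c, -, hc⟩ := (hS.tyO j hO).ref
    exact som_cj (hS.mv j) (hS.tyO j hO).sym hc h1
  · rw [Lb_S hO] at *
    exact slm_cj (hS.mv j) h1

lemma g2_od (hS : ST n N J v μ O 𝔤) : (fun j => offd (vecMulVec (v j) (μ j)) (N j)) ∈ g2 n J O 𝔤 := by
  rw [mem_g2]
  refine ⟨hS.od, fun j => ?_⟩
  by_cases hO : O j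
  · rw [Lb_O hO]
    obtain ⟨c, -, hc⟩ := (hS.tyO j hO).ref
    have h1 := (som (J j)).smul_mem (2 : ℂ)⁻¹ ((som (J j)).sub_mem (mem_som.2 (hS.tyO j hO).skew)
      (som_cj (hS.mv j) (hS.tyO j hO).sym hc (mem_som.2 (hS.tyO j hO).skew)))
    rw [← two_offd (hS.mv j), smul_smul, inv_mul_cancel₀ (by norm_num), one_smul] at h1
    exact h1
  · rw [Lb_S hO]
    exact offd_slm (hS.mv j) _

/-- **the separation of reflections of order two** -/
theorem sept (hOD : S_OD) (hR2 : S_REFL2A) (hSI : S_SIMP) (hRIB : S_RIB) (hPA : S_PAIR) (hRO : S_REFLO) (hSO : S_SIMPO)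
    (hPO : S_PAIRO) (hS : ST n N J v μ O 𝔤) (j : ι) (Z : Matrix (Fin (n j)) (Fin (n j)) ℂ) (hZ : Z ∈ Lb n J O j) :
    (Pi.single j Z : ∀ j, Matrix (Fin (n j)) (Fin (n j)) ℂ) ∈ 𝔤 := by
  have hod := fun j => hOD (n j) (N j) (v j) (μ j) (hS.two j) (hS.nil j) (hS.mv j) (hS.cyc j)
  choose w ξ hod using hod
  -- the projections
  have hfull : ∀ j, ∀ Z ∈ Lb n J O j, ∃ X ∈ g2 n J O 𝔤, X j = Z := by
    intro j
    set 𝔭 : Submodule ℂ (Matrix (Fin (n j)) (Fin (n j)) ℂ) :=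
      (g2 n J O 𝔤).map (LinearMap.proj j) with h𝔭
    have hm : ∀ Y, Y ∈ 𝔭 ↔ ∃ X ∈ g2 n J O 𝔤, X j = Y := fun Y => Iff.rfl
    have h1 : ∀ X ∈ 𝔭, N j * X - X * N j ∈ 𝔭 := by
      intro Y hY
      obtain ⟨X, hX, rfl⟩ := (hm Y).1 hY
      exact (hm _).2 ⟨_, g2_adN hS hX, rfl⟩
    have h2 : ∀ X ∈ 𝔭, ∀ Z ∈ 𝔭, X * Z - Z * X ∈ 𝔭 := by
      intro Y hY Y' hY'
      obtain ⟨X, hX, rfl⟩ := (hm Y).1 hY
      obtain ⟨X', hX', rfl⟩ := (hm Y').1 hY'
      exact (hm _).2 ⟨_, g2_brk hS hX hX', rfl⟩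
    have h3 : offd (vecMulVec (v j) (μ j)) (N j) ∈ 𝔭 := (hm _).2 ⟨_, g2_od hS, rfl⟩
    intro Z hZ
    rw [← hm]
    by_cases hO : O j
    · rw [Lb_O hO] at hZ
      exact hRO (n j) (N j) (J j) (v j) (μ j) _ _ (hod j) (hS.tyO j hO) 𝔭 h1 h2 h3 hZ
    · rw [Lb_S hO] at hZ
      exact hR2 (n j) (N j) (v j) (μ j) _ _ (hod j) 𝔭 h1 h2 h3 (hS.tyS j hO) hZ
  -- the pairs
  have hpair : ∀ i j, i ≠ j → ∃ X ∈ g2 n J O 𝔤, (X i = 0 ∧ X j ≠ 0) ∨ (X i ≠ 0 ∧ X j = 0) := by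
    have key : ∀ i j, i ≠ j → (O i → O j) → ∃ X ∈ g2 n J O 𝔤, (X i = 0 ∧ X j ≠ 0) ∨ (X i ≠ 0 ∧ X j = 0) := by
      intro i j hij hOO
      set 𝔭 : Submodule ℂ (Matrix (Fin (n i)) (Fin (n i)) ℂ × Matrix (Fin (n j)) (Fin (n j)) ℂ) :=
        (g2 n J O 𝔤).map (LinearMap.prod (LinearMap.proj i) (LinearMap.proj j)) with h𝔭
      have hm : ∀ Y, Y ∈ 𝔭 ↔ ∃ X ∈ g2 n J O 𝔤, (X i, X j) = Y := fun Y => Iff.rfl
      have hLP : LP2 (N i) (N j) (v i) (μ i) (v j) (μ j) 𝔭 := by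
        refine ⟨?_, ?_, ?_, ?_⟩
        · intro Y hY
          obtain ⟨X, hX, rfl⟩ := (hm Y).1 hY
          exact (hm _).2 ⟨_, g2_adN hS hX, rfl⟩
        · intro Y hY Y' hY'
          obtain ⟨X, hX, rfl⟩ := (hm Y).1 hY
          obtain ⟨X', hX', rfl⟩ := (hm Y').1 hY'
          exact (hm _).2 ⟨_, g2_brk hS hX hX', rfl⟩
        · intro Y hY
          obtain ⟨X, hX, rfl⟩ := (hm Y).1 hY
          exact (hm _).2 ⟨_, g2_cj hS hX, rfl⟩
        · exact (hm _).2 ⟨_, g2_od hS, rfl⟩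
      have hfin : (∃ Y ∈ 𝔭, (Y.1 = 0 ∧ Y.2 ≠ 0) ∨ (Y.1 ≠ 0 ∧ Y.2 = 0)) →
          ∃ X ∈ g2 n J O 𝔤, (X i = 0 ∧ X j ≠ 0) ∨ (X i ≠ 0 ∧ X j = 0) := by
        rintro ⟨Y, hY, h⟩
        obtain ⟨X, hX, rfl⟩ := (hm Y).1 hY
        exact ⟨X, hX, h⟩
      by_cases hj : O j
      · have h1 := hPO (n i) (n j) (N i) (J i) (N j) (J j) (v i) (μ i) (v j) (μ j) _ _ _ _ (hod i) (hod j) (hS.tyO j hj) 𝔭 hLP
        by_cases hi : O i
        · obtain ⟨Y, hY, h⟩ := h1.1 (hS.tyO i hi) (hS.sepA i j hij)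
          exact hfin ⟨Y, hY, Or.inl h⟩
        · exact hfin (h1.2 (hS.tyS i hi) (hS.no23 i j hi hj))
      · have hi : ¬ O i := fun h => hj (hOO h)
        obtain ⟨Y, hY, h⟩ := hPA (n i) (n j) (N i) (N j) (v i) (μ i) (v j) (μ j) _ _ _ _ (hod i) (hod j) 𝔭 hLP
          (fun Z hZ => by
            obtain ⟨X, hX, h⟩ := hfull i Z (by rw [Lb_S hi]; exact hZ)
            exact ⟨_, (hm _).2 ⟨X, hX, rfl⟩, h⟩)
          (fun Z hZ => by
            obtain ⟨X, hX, h⟩ := hfull j Z (by rw [Lb_S hj]; exact hZ)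
            exact ⟨_, (hm _).2 ⟨X, hX, rfl⟩, h⟩) (hS.sepA i j hij) (hS.sepB i j hij)
        exact hfin ⟨Y, hY, Or.inl h⟩
    intro i j hij
    by_cases hOO : O i → O j
    · exact key i j hij hOO
    · have h1 : ¬ O j := fun h => hOO fun _ => h
      obtain ⟨X, hX, h⟩ := key j i (Ne.symm hij) fun h => absurd h h1
      refine ⟨X, hX, ?_⟩
      rcases h with ⟨h1, h2⟩ | ⟨h1, h2⟩
      · exact Or.inr ⟨h2, h1⟩
      · exact Or.inl ⟨h2, h1⟩
  have hgoal := hRIB ι n (fun j => rf (v j) (μ j)) (Lb n J O) (g2 n J O 𝔤) (fun X hX => g2_cj hS hX)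
    (fun X hX Z hZ => g2_brk hS hX hZ) (fun X hX j => (mem_g2.1 hX).2 j) hfull (fun j => ?_) (fun j => ?_) hpair j Z hZ
  · exact (mem_g2.1 hgoal).1
  · by_cases hO : O j
    · rw [Lb_O hO]
      obtain ⟨c, h0, hc⟩ := (hS.tyO j hO).ref
      exact (hSO (n j) (J j) (v j) (μ j) c (hS.tyO j hO).three (hS.mv j) (hS.tyO j hO).sym (hS.tyO j hO).det h0 hc).1
    · rw [Lb_S hO]
      exact (hSI (n j) (v j) (μ j) (hS.two j) (hS.mv j)).1
  · by_cases hO : O j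
    · rw [Lb_O hO]
      obtain ⟨c, h0, hc⟩ := (hS.tyO j hO).ref
      exact (hSO (n j) (J j) (v j) (μ j) c (hS.tyO j hO).three (hS.mv j) (hS.tyO j hO).sym (hS.tyO j hO).det h0 hc).2
    · rw [Lb_S hO]
      exact (hSI (n j) (v j) (μ j) (hS.two j) (hS.mv j)).2

end sept

end Pool.Agent.Run7.h225.HG
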