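import Pool.Agent.Run7.h225.HG.Cdd

/-!
# The vector and the functional of the pseudo-reflection at `1`
-/

set_option autoImplicit false

open Matrix
open Pool.Agent.Y119.HZ
open Pool.Agent.Y119.HY (Am Jm Bm Hq cm E Hf Hc Yf Gal Sol PG Lens ps cm_mul cm_add ec uc Ac_ec Ac_last
  cm_zero cm_one cm_transpose cm_apply Ac_nil mem_Lens symm_Lens Jm_rel)
open Run7.h893.HO

namespace Pool.Agent.Run7.h225.HG

variable {n : ℕ} {Q : Polynomial ℚ}

/-- the last row of the residue -/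
def bb (n : ℕ) (Q : Polynomial ℚ) : Fin n → ℂ := fun j => ((Q.coeff j : ℚ) : ℂ)

lemma Bm_vec (n : ℕ) (Q : Polynomial ℚ) : cm (Bm n Q) = vecMulVec (uc n) (bb n Q) := by
  ext i j
  rw [cm_apply, vecMulVec_apply]
  unfold Bm uc bb
  rw [Matrix.of_apply]
  split_ifs <;> simp

lemma bb_uc (hn : 1 ≤ n) : bb n Q ⬝ᵥ uc n = ((Q.coeff (n - 1) : ℚ) : ℂ) := by
  unfold dotProduct
  rw [Finset.sum_eq_single (⟨n - 1, by omega⟩ : Fin n)]
  · unfold bb uc
    rw [if_pos (by simp only; omega), mul_one]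
  · intro b _ hb
    unfold uc
    rw [if_neg, mul_zero]
    intro h'
    exact hb (Fin.ext (by simp only; omega))
  · intro h'
    exact absurd (Finset.mem_univ _) h'

lemma Bm_sq (hn : 1 ≤ n) : cm (Bm n Q) * cm (Bm n Q) = ((Q.coeff (n - 1) : ℚ) : ℂ) • cm (Bm n Q) := by
  rw [Bm_vec, vecMulVec_mul_vecMulVec, bb_uc hn]
  ext i j
  simp only [vecMulVec_apply, Matrix.smul_apply, Pi.smul_apply, smul_eq_mul]
  ring

lemma E_sq {N : Matrix (Fin n) (Fin n) ℂ} (hn : 2 ≤ n) (h : N * N = 0) (s : ℂ) : E N s = 1 + s • N := by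
  unfold E
  obtain ⟨m, rfl⟩ : ∃ m, n = m + 2 := ⟨n - 2, by omega⟩
  rw [Finset.sum_range_succ', Finset.sum_range_succ']
  have h1 : ∑ k ∈ Finset.range m, (s ^ (k + 1 + 1) / ((k + 1 + 1).factorial : ℂ)) • N ^ (k + 1 + 1) = 0 := by
    refine Finset.sum_eq_zero fun k _ => ?_
    rw [pow_succ N, pow_succ N, Matrix.mul_assoc, h, mul_zero, smul_zero]
  rw [h1]
  simp [add_comm]

lemma E_ec (s : ℂ) : E (cm (Am n)) s *ᵥ ec n = ec n := by
  rcases Nat.eq_zero_or_pos n with h0 | hpos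
  · subst h0
    funext i
    exact i.elim0
  unfold E
  obtain ⟨m, rfl⟩ : ∃ m, n = m + 1 := ⟨n - 1, by omega⟩
  rw [Finset.sum_range_succ', Matrix.add_mulVec, Matrix.sum_mulVec]
  have h1 : ∑ k ∈ Finset.range m, ((s ^ (k + 1) / ((k + 1).factorial : ℂ)) • cm (Am (m + 1)) ^ (k + 1)) *ᵥ ec (m + 1) = 0 := by
    refine Finset.sum_eq_zero fun k _ => ?_
    rw [Matrix.smul_mulVec, pow_succ (cm (Am (m + 1))), ← Matrix.mulVec_mulVec, Ac_ec, Matrix.mulVec_zero, smul_zero]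
  rw [h1]
  simp

/-- the functional does not vanish on the first solution -/
theorem mu_ne (hQ : QG n Q) {K : ℕ → Matrix (Fin n) (Fin n) ℂ} (hK : ∀ i j, PG fun k => K k i j)
    {M : Matrix (Fin n) (Fin n) ℂ} {b : Fin n → ℂ} {σ : ℂ → ℂ}
    (hcon : ∀ z ∈ Lens, Yf (cm (Am n)) (Hc n Q) z = Hf K (1 - z) * (1 + σ z • vecMulVec (uc n) b) * M) :
    (b ᵥ* M) ⬝ᵥ ec n ≠ 0 := by
  intro h0
  have hn := hQ.two
  refine sing_g hQ (fun z => (Hf K (1 - z) *ᵥ (M *ᵥ ec n)) ⟨0, by omega⟩) ?_ fun z hz => ?_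
  · simp only [mulVec, dotProduct]
    refine Finset.analyticOnNhd_fun_sum _ fun l _ => AnalyticOnNhd.mul ?_ analyticOnNhd_const
    intro z hz
    have h1 : AnalyticAt ℂ (fun w => Hf K w ⟨0, by omega⟩ l) (1 - z) := Pool.Agent.Y119.HY.ps_an (hK _ l) _ (by
      rw [Metric.mem_ball, dist_zero_right]
      rw [Metric.mem_ball, dist_eq_norm] at hz
      rwa [norm_sub_rev])
    exact AnalyticAt.fun_comp (g := fun w => Hf K w ⟨0, by omega⟩ l) (f := fun z : ℂ => 1 - z) h1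
      (analyticAt_const.sub analyticAt_id)
  · have h1 := congrArg (fun X => X *ᵥ ec n) (hcon z hz)
    unfold Yf at h1
    rw [← Matrix.mulVec_mulVec, E_ec, ← Matrix.mulVec_mulVec, ← Matrix.mulVec_mulVec, Matrix.add_mulVec, one_mulVec,
      Matrix.smul_mulVec, vecMulVec_mulVec, dotProduct_mulVec, h0] at h1
    simp only [MulOpposite.op_zero, zero_smul, smul_zero, add_zero] at h1
    rw [h1]

/-! ### the dual system -/

/-- the inverse transposed form -/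
noncomputable def Ui (n : ℕ) (Q : Polynomial ℚ) : Matrix (Fin n) (Fin n) ℂ := ((cm (Jm n Q))⁻¹).transpose

lemma cJ_det (hJ : (Jm n Q).det ≠ 0) : (cm (Jm n Q)).det ≠ 0 := by
  have h1 : (cm (Jm n Q)).det = (((Jm n Q).det : ℚ) : ℂ) := by
    have h2 : cm (Jm n Q) = (algebraMap ℚ ℂ).mapMatrix (Jm n Q) := by
      ext i j
      rw [cm_apply]
      rfl
    rw [h2, ← RingHom.map_det]
    rfl
  rw [h1]
  exact_mod_cast hJ

lemma Ui_mul (hJ : (Jm n Q).det ≠ 0) : Ui n Q * (cm (Jm n Q)).transpose = 1 := by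
  unfold Ui
  rw [← Matrix.transpose_mul, Matrix.mul_nonsing_inv _ (Ne.isUnit (cJ_det hJ)), Matrix.transpose_one]

lemma mul_Ui (hJ : (Jm n Q).det ≠ 0) : (cm (Jm n Q)).transpose * Ui n Q = 1 := mul_eq_one_comm.1 (Ui_mul hJ)

lemma Ui_A (hJ : (Jm n Q).det ≠ 0) : Ui n Q * (-(cm (Am n)).transpose) * (cm (Jm n Q)).transpose = cm (Am n) := by
  have h1 := congrArg cm (Jm_rel (n := n) (Q := Q))
  rw [cm_add, cm_mul, cm_mul, cm_transpose, cm_zero] at h1
  have h2 := congrArg Matrix.transpose h1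
  rw [Matrix.transpose_add, Matrix.transpose_mul, Matrix.transpose_mul, Matrix.transpose_transpose,
    Matrix.transpose_zero] at h2
  have h3 : -(cm (Am n)).transpose * (cm (Jm n Q)).transpose = (cm (Jm n Q)).transpose * cm (Am n) := by
    rw [Matrix.neg_mul]
    exact (eq_neg_of_add_eq_zero_left h2).symm
  rw [Matrix.mul_assoc, h3, ← Matrix.mul_assoc, Ui_mul hJ, one_mul]

lemma Ui_B (hJ : (Jm n Q).det ≠ 0) (hn : 1 ≤ n) :
    Ui n Q * (-(cm (Bm n Q)).transpose) * (cm (Jm n Q)).transpose = cm (Bm n (dq n Q)) := by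
  have h1 := congrArg cm (DUAL.rel (Q := Q) hn)
  rw [cm_add, cm_mul, cm_mul, cm_transpose, cm_zero] at h1
  have h2 := congrArg Matrix.transpose h1
  rw [Matrix.transpose_add, Matrix.transpose_mul, Matrix.transpose_mul, Matrix.transpose_transpose,
    Matrix.transpose_zero] at h2
  have h3 : -(cm (Bm n Q)).transpose * (cm (Jm n Q)).transpose = (cm (Jm n Q)).transpose * cm (Bm n (dq n Q)) := by
    rw [Matrix.neg_mul]
    exact (eq_neg_of_add_eq_zero_left h2).symm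
  rw [Matrix.mul_assoc, h3, ← Matrix.mul_assoc, Ui_mul hJ, one_mul]

/-- the dual solution -/
theorem dual_Hc (hQ : QG n Q) (hQ' : QG n (dq n Q)) {H' : ℕ → Matrix (Fin n) (Fin n) ℂ}
    (hH' : Sol (-(cm (Am n)).transpose) (-(cm (Bm n Q)).transpose) H') :
    (fun k => Ui n Q * H' k * (cm (Jm n Q)).transpose) = Hc n (dq n Q) := by
  have hJ := DUAL.Jdet hQ
  have h1 := Sol_conj hH' (Ui_mul hJ) (mul_Ui hJ)
  rw [Ui_A hJ, Ui_B hJ (by have := hQ.two; omega)] at h1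
  exact Sol_unique Ac_nil h1 (sol_c_g hQ')

lemma J_ec (hQ : QG n Q) : (cm (Jm n Q)).transpose *ᵥ ec n = ((Q.coeff 0 : ℚ) : ℂ) • uc n := by
  have hn := hQ.two
  funext i
  rw [Pool.Agent.Y119.HY.mv_apply, Finset.sum_eq_single (⟨0, by omega⟩ : Fin n)]
  · unfold ec uc
    rw [Pi.smul_apply, if_pos rfl, mul_one, Matrix.transpose_apply, cm_apply, smul_eq_mul]
    unfold Jm
    rw [Matrix.of_apply]
    have hi := i.2
    by_cases h : (i : ℕ) + 1 = n
    · rw [if_pos (by simp only; omega), if_pos h, pow_zero, one_mul, mul_one]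
      have e1 : ((⟨0, by omega⟩ : Fin n) : ℕ) + (i : ℕ) + 1 - n = 0 := by simp only; omega
      rw [e1]
    · rw [if_neg (by simp only; omega), if_neg h, mul_zero, Rat.cast_zero]
  · intro b _ hb
    unfold ec
    rw [if_neg, mul_zero]
    intro h'
    exact hb (Fin.ext h')
  · intro h'
    exact absurd (Finset.mem_univ _) h'

lemma Ui_uc (hQ : QG n Q) : Ui n Q *ᵥ uc n = (((Q.coeff 0 : ℚ) : ℂ))⁻¹ • ec n := by
  have hJ := DUAL.Jdet hQ
  have h0 : ((Q.coeff 0 : ℚ) : ℂ) ≠ 0 := by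
    have := hQ.ne 0
    rw [Nat.cast_zero, ← Polynomial.coeff_zero_eq_eval_zero] at this
    exact_mod_cast this
  have h1 := congrArg (fun x => Ui n Q *ᵥ x) (J_ec hQ)
  rw [Matrix.mulVec_mulVec, Ui_mul hJ, one_mulVec, Matrix.mulVec_smul] at h1
  rw [h1, smul_smul, inv_mul_cancel₀ h0, one_smul]

lemma At_uc (hQ : QG n Q) : (cm (Am n)).transpose *ᵥ uc n = 0 := by
  have hJ := DUAL.Jdet hQ
  have h0 : ((Q.coeff 0 : ℚ) : ℂ) ≠ 0 := by
    have := hQ.ne 0
    rw [Nat.cast_zero, ← Polynomial.coeff_zero_eq_eval_zero] at this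
    exact_mod_cast this
  have h1 := congrArg (fun X => X *ᵥ ec n) (Ui_A hJ)
  rw [← Matrix.mulVec_mulVec, J_ec hQ, ← Matrix.mulVec_mulVec, Ac_ec, Matrix.mulVec_smul, Matrix.neg_mulVec,
    Matrix.mulVec_smul, Matrix.mulVec_neg] at h1
  have h2 : Ui n Q *ᵥ ((cm (Am n)).transpose *ᵥ uc n) = 0 := by
    have h3 := (smul_eq_zero.1 h1).resolve_left h0
    exact neg_eq_zero.1 h3
  have h3 := congrArg (fun x => (cm (Jm n Q)).transpose *ᵥ x) h2
  rwa [Matrix.mulVec_mulVec, mul_Ui hJ, one_mulVec, Matrix.mulVec_zero] at h3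

lemma E_uc (hQ : QG n Q) (s : ℂ) : E (-(cm (Am n)).transpose) s *ᵥ uc n = uc n := by
  unfold E
  obtain ⟨m, rfl⟩ : ∃ m, n = m + 1 := ⟨n - 1, by have := hQ.two; omega⟩
  rw [Finset.sum_range_succ', Matrix.add_mulVec, Matrix.sum_mulVec]
  have h1 : ∑ k ∈ Finset.range m, ((s ^ (k + 1) / ((k + 1).factorial : ℂ)) • (-(cm (Am (m + 1))).transpose) ^ (k + 1)) *ᵥ
      uc (m + 1) = 0 := by
    refine Finset.sum_eq_zero fun k _ => ?_
    rw [Matrix.smul_mulVec, pow_succ (-(cm (Am (m + 1))).transpose), ← Matrix.mulVec_mulVec, Matrix.neg_mulVec, At_uc hQ, neg_zero, Matrix.mulVec_zero,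
      smul_zero]
  rw [h1]
  simp

/-- the vector has a nonzero last coordinate -/
theorem v_ne (hQ : QG n Q) (hQ' : QG n (dq n Q)) {H' K' : ℕ → Matrix (Fin n) (Fin n) ℂ}
    (hH' : Sol (-(cm (Am n)).transpose) (-(cm (Bm n Q)).transpose) H') (hK : ∀ i j, PG fun k => K' k i j)
    {Mi : Matrix (Fin n) (Fin n) ℂ} {b : Fin n → ℂ} {σ : ℂ → ℂ}
    (hcon : ∀ z ∈ Lens, Yf (-(cm (Am n)).transpose) H' z =
      Hf K' (1 - z) * (1 + σ z • vecMulVec b (uc n)) * Mi.transpose) :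
    uc n ⬝ᵥ (Mi *ᵥ uc n) ≠ 0 := by
  intro h0
  have hn := hQ.two
  have hJ := DUAL.Jdet hQ
  have hc0 : ((Q.coeff 0 : ℚ) : ℂ) ≠ 0 := by
    have := hQ.ne 0
    rw [Nat.cast_zero, ← Polynomial.coeff_zero_eq_eval_zero] at this
    exact_mod_cast this
  have hg' := hH'.growth (nilT Ac_nil)
  refine sing_g hQ' (fun z => (((Q.coeff 0 : ℚ) : ℂ) • (Ui n Q *ᵥ (Hf K' (1 - z) *ᵥ (Mi.transpose *ᵥ uc n)))) ⟨0, by omega⟩)
    ?_ fun z hz => ?_
  · simp only [Pi.smul_apply, smul_eq_mul, mulVec, dotProduct]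
    refine AnalyticOnNhd.mul analyticOnNhd_const ?_
    refine Finset.analyticOnNhd_fun_sum _ fun l _ => AnalyticOnNhd.mul analyticOnNhd_const ?_
    refine Finset.analyticOnNhd_fun_sum _ fun m _ => AnalyticOnNhd.mul ?_ analyticOnNhd_const
    intro z hz
    have h1 : AnalyticAt ℂ (fun w => Hf K' w l m) (1 - z) := Pool.Agent.Y119.HY.ps_an (hK _ m) _ (by
      rw [Metric.mem_ball, dist_zero_right]
      rw [Metric.mem_ball, dist_eq_norm] at hz
      rwa [norm_sub_rev])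
    exact AnalyticAt.fun_comp (g := fun w => Hf K' w l m) (f := fun z : ℂ => 1 - z) h1
      (analyticAt_const.sub analyticAt_id)
  · have h1 := congrArg (fun X => X *ᵥ uc n) (hcon z hz)
    unfold Yf at h1
    have h2 : uc n ⬝ᵥ (Mi.transpose *ᵥ uc n) = 0 := by
      rw [dotProduct_mulVec, Matrix.vecMul_transpose, dotProduct_comm]
      exact h0
    rw [← Matrix.mulVec_mulVec, E_uc hQ, ← Matrix.mulVec_mulVec, ← Matrix.mulVec_mulVec, Matrix.add_mulVec, one_mulVec,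
      Matrix.smul_mulVec, vecMulVec_mulVec, h2] at h1
    simp only [MulOpposite.op_zero, zero_smul, smul_zero, add_zero] at h1
    have h3 : Hf (Hc n (dq n Q)) z = Ui n Q * Hf H' z * (cm (Jm n Q)).transpose := by
      rw [← dual_Hc hQ hQ' hH']
      exact Hf_conj hg' _ _ (mem_Lens.1 hz).1
    rw [h3, ← Matrix.mulVec_mulVec, J_ec hQ, ← Matrix.mulVec_mulVec, Matrix.mulVec_smul, h1, Matrix.mulVec_smul]

end Pool.Agent.Run7.h225.HG
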