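import Pool.Agent.Run7.h225.HG.JD
import Pool.Agent.Y123.GN.E8

/-!
# Subtorsors which contain the periods of products of hypergeometric motives
-/

set_option autoImplicit false
set_option linter.unusedSectionVars false

open Matrix Module

namespace Pool.Agent.Run7.h225.HG.Sub

open Pool.Agent.TH127.PT Pool.Agent.Y123.ST Pool.Agent.TH119.DR
open Pool.Agent.Y123.GN (Nil Ug Sbl Rl GB Clf Spf cl_perf comm_all Ug_le Sbl_mul iso_flip sp_perf)

section blocks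

variable {B₀ : Type} [Fintype B₀] [DecidableEq B₀] {ι : Type} [Fintype ι] [DecidableEq ι] {n : ι → ℕ}

/-- the index type -/
abbrev IG (B₀ : Type) {ι : Type} (n : ι → ℕ) : Type := B₀ ⊕ Σ i, Fin (n i)

/-- block matrices -/
noncomputable def EG (x : Matrix B₀ B₀ ℂ) (X : ∀ i, Matrix (Fin (n i)) (Fin (n i)) ℂ) : Matrix (IG B₀ n) (IG B₀ n) ℂ :=
  fromBlocks x 0 0 (blockDiagonal' X)

theorem EG_mul (x y : Matrix B₀ B₀ ℂ) (X Y : ∀ i, Matrix (Fin (n i)) (Fin (n i)) ℂ) :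
    EG x X * EG y Y = EG (x * y) (fun i => X i * Y i) := by
  unfold EG
  rw [fromBlocks_multiply, ← blockDiagonal'_mul]
  simp

theorem EG_one : EG (1 : Matrix B₀ B₀ ℂ) (1 : ∀ i, Matrix (Fin (n i)) (Fin (n i)) ℂ) = 1 := by
  unfold EG
  rw [blockDiagonal'_one, fromBlocks_one]

theorem EG_zero : EG (0 : Matrix B₀ B₀ ℂ) (0 : ∀ i, Matrix (Fin (n i)) (Fin (n i)) ℂ) = 0 := by
  unfold EG
  rw [blockDiagonal'_zero, fromBlocks_zero]

theorem EG_add (x y : Matrix B₀ B₀ ℂ) (X Y : ∀ i, Matrix (Fin (n i)) (Fin (n i)) ℂ) :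
    EG x X + EG y Y = EG (x + y) (X + Y) := by
  unfold EG
  rw [fromBlocks_add, ← blockDiagonal'_add]
  simp

theorem EG_smul (z : ℂ) (x : Matrix B₀ B₀ ℂ) (X : ∀ i, Matrix (Fin (n i)) (Fin (n i)) ℂ) :
    z • EG x X = EG (z • x) (z • X) := by
  unfold EG
  rw [fromBlocks_smul, blockDiagonal'_smul]
  simp

/-- block matrices as a ring homomorphism -/
noncomputable def EGh (B₀ : Type) [Fintype B₀] [DecidableEq B₀] {ι : Type} [Fintype ι] [DecidableEq ι] (n : ι → ℕ) :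
    (Matrix B₀ B₀ ℂ × (∀ i, Matrix (Fin (n i)) (Fin (n i)) ℂ)) →+* Matrix (IG B₀ n) (IG B₀ n) ℂ where
  toFun x := EG x.1 x.2
  map_one' := EG_one
  map_mul' x y := (EG_mul _ _ _ _).symm
  map_zero' := EG_zero
  map_add' x y := (EG_add _ _ _ _).symm

theorem EGh_apply (x : Matrix B₀ B₀ ℂ) (X : ∀ i, Matrix (Fin (n i)) (Fin (n i)) ℂ) : EGh B₀ n (x, X) = EG x X := rfl

/-- a single block -/
noncomputable def e1 (B₀ : Type) [Fintype B₀] [DecidableEq B₀] {ι : Type} [Fintype ι] [DecidableEq ι] {n : ι → ℕ} (i : ι) :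
    Matrix (Fin (n i)) (Fin (n i)) ℂ →ₗ[ℂ] Matrix (IG B₀ n) (IG B₀ n) ℂ where
  toFun N := EG 0 (Pi.single i N)
  map_add' x y := by rw [EG_add, Pi.single_add, add_zero]
  map_smul' s x := by
    rw [RingHom.id_apply, EG_smul, smul_zero, Pi.single_smul]

theorem e1_apply (i : ι) (N : Matrix (Fin (n i)) (Fin (n i)) ℂ) : e1 B₀ i N = EG 0 (Pi.single i N) := rfl

theorem e1_left (i : ι) (x : Matrix B₀ B₀ ℂ) (X : ∀ i, Matrix (Fin (n i)) (Fin (n i)) ℂ)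
    (N : Matrix (Fin (n i)) (Fin (n i)) ℂ) : EG x X * e1 B₀ i N = e1 B₀ i (X i * N) := by
  rw [e1_apply, e1_apply, EG_mul, Matrix.mul_zero]
  congr 1
  funext j
  by_cases h : j = i
  · subst h
    rw [Pi.single_eq_same, Pi.single_eq_same]
  · rw [Pi.single_eq_of_ne h, Pi.single_eq_of_ne h, Matrix.mul_zero]

theorem e1_right (i : ι) (x : Matrix B₀ B₀ ℂ) (X : ∀ i, Matrix (Fin (n i)) (Fin (n i)) ℂ)
    (N : Matrix (Fin (n i)) (Fin (n i)) ℂ) : e1 B₀ i N * EG x X = e1 B₀ i (N * X i) := by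
  rw [e1_apply, e1_apply, EG_mul, Matrix.zero_mul]
  congr 1
  funext j
  by_cases h : j = i
  · subst h
    rw [Pi.single_eq_same, Pi.single_eq_same]
  · rw [Pi.single_eq_of_ne h, Pi.single_eq_of_ne h, Matrix.zero_mul]

theorem single_nilG {i : ι} {N : Matrix (Fin (n i)) (Fin (n i)) ℂ} (hN : IsNilpotent N) :
    IsNilpotent ((0, Pi.single i N) : Matrix B₀ B₀ ℂ × (∀ i, Matrix (Fin (n i)) (Fin (n i)) ℂ)) := by
  obtain ⟨m, hm⟩ := hN
  refine ⟨m + 1, ?_⟩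
  refine Prod.ext ?_ ?_
  · show (0 : Matrix B₀ B₀ ℂ) ^ (m + 1) = 0
    rw [pow_succ, Matrix.mul_zero]
  · funext j
    show (Pi.single i N : ∀ i, Matrix (Fin (n i)) (Fin (n i)) ℂ) j ^ (m + 1) = 0
    by_cases h : j = i
    · subst h
      rw [Pi.single_eq_same, pow_succ, hm, Matrix.zero_mul]
    · rw [Pi.single_eq_of_ne h, pow_succ, Matrix.mul_zero]

theorem e1_nil {i : ι} {N : Matrix (Fin (n i)) (Fin (n i)) ℂ} (hN : IsNilpotent N) : IsNilpotent (e1 B₀ i N) := by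
  rw [e1_apply, ← EGh_apply]
  exact (single_nilG hN).map (EGh B₀ n)

/-- one block, the others are `1` -/
theorem e1_exp {i : ι} {N : Matrix (Fin (n i)) (Fin (n i)) ℂ} (hN : IsNilpotent N) (t : ℂ) :
    IsNilpotent.exp (t • e1 B₀ i N) = EG 1 (Pi.mulSingle i (IsNilpotent.exp (t • N))) := by
  have h1 : t • e1 B₀ i N = EGh B₀ n (0, Pi.single i (t • N)) := by
    rw [EGh_apply, e1_apply, EG_smul, smul_zero, Pi.single_smul]
  have hn := single_nilG (B₀ := B₀) (hN.smul t)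
  rw [h1, ← IsNilpotent.map_exp hn (EGh B₀ n)]
  have h2 : (IsNilpotent.exp ((0, Pi.single i (t • N)) : Matrix B₀ B₀ ℂ × (∀ i, Matrix (Fin (n i)) (Fin (n i)) ℂ))).1
      = 1 := by
    have h3 := IsNilpotent.map_exp hn (RingHom.fst (Matrix B₀ B₀ ℂ) (∀ i, Matrix (Fin (n i)) (Fin (n i)) ℂ))
    have h4 : RingHom.fst (Matrix B₀ B₀ ℂ) (∀ i, Matrix (Fin (n i)) (Fin (n i)) ℂ) (0, Pi.single i (t • N)) = 0 := rfl
    rw [h4, IsNilpotent.exp_zero] at h3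
    exact h3
  have h5 : (IsNilpotent.exp ((0, Pi.single i (t • N)) : Matrix B₀ B₀ ℂ × (∀ i, Matrix (Fin (n i)) (Fin (n i)) ℂ))).2 =
      Pi.mulSingle i (IsNilpotent.exp (t • N)) := by
    funext j
    have h3 := IsNilpotent.map_exp hn ((Pi.evalRingHom (fun i : ι => Matrix (Fin (n i)) (Fin (n i)) ℂ) j).comp
      (RingHom.snd (Matrix B₀ B₀ ℂ) (∀ i, Matrix (Fin (n i)) (Fin (n i)) ℂ)))
    have h4 : ((Pi.evalRingHom (fun i : ι => Matrix (Fin (n i)) (Fin (n i)) ℂ) j).comp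
      (RingHom.snd (Matrix B₀ B₀ ℂ) (∀ i, Matrix (Fin (n i)) (Fin (n i)) ℂ))) (0, Pi.single i (t • N)) =
        (Pi.single i (t • N) : ∀ i, Matrix (Fin (n i)) (Fin (n i)) ℂ) j := rfl
    rw [h4] at h3
    refine Eq.trans h3 ?_
    by_cases h : j = i
    · subst h
      rw [Pi.single_eq_same, Pi.mulSingle_eq_same]
    · rw [Pi.single_eq_of_ne h, Pi.mulSingle_eq_of_ne h, IsNilpotent.exp_zero]
  show EG (IsNilpotent.exp ((0, Pi.single i (t • N)) : Matrix B₀ B₀ ℂ × (∀ i, Matrix (Fin (n i)) (Fin (n i)) ℂ))).1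
    (IsNilpotent.exp ((0, Pi.single i (t • N)) : Matrix B₀ B₀ ℂ × (∀ i, Matrix (Fin (n i)) (Fin (n i)) ℂ))).2 = _
  rw [h2, h5]

theorem e1_inj (i : ι) : Function.Injective (e1 B₀ i : Matrix (Fin (n i)) (Fin (n i)) ℂ → _) := by
  intro x y h
  have h1 := congrArg toBlocks₂₂ h
  rw [e1_apply, e1_apply, EG, EG, toBlocks_fromBlocks₂₂, toBlocks_fromBlocks₂₂] at h1
  have h2 := blockDiagonal'_injective h1
  have h3 := congrFun h2 i
  rwa [Pi.single_eq_same, Pi.single_eq_same] at h3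

/-- the units -/
noncomputable def EGu (B₀ : Type) [Fintype B₀] [DecidableEq B₀] {ι : Type} [Fintype ι] [DecidableEq ι] (n : ι → ℕ) :
    (∀ i, (Matrix (Fin (n i)) (Fin (n i)) ℂ)ˣ) →* (Matrix (IG B₀ n) (IG B₀ n) ℂ)ˣ where
  toFun g := ⟨EG 1 fun i => (g i : Matrix (Fin (n i)) (Fin (n i)) ℂ),
    EG 1 fun i => ((g i)⁻¹ : (Matrix (Fin (n i)) (Fin (n i)) ℂ)ˣ), by
      rw [EG_mul, Matrix.one_mul]
      have h1 : (fun i => (g i : Matrix (Fin (n i)) (Fin (n i)) ℂ) * ((g i)⁻¹ : (Matrix (Fin (n i)) (Fin (n i)) ℂ)ˣ)) = 1 := by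
        funext i
        exact (g i).mul_inv
      rw [h1, EG_one], by
      rw [EG_mul, Matrix.one_mul]
      have h1 : (fun i => (((g i)⁻¹ : (Matrix (Fin (n i)) (Fin (n i)) ℂ)ˣ) : Matrix (Fin (n i)) (Fin (n i)) ℂ) * g i) = 1 := by
        funext i
        exact (g i).inv_mul
      rw [h1, EG_one]⟩
  map_one' := Units.ext EG_one
  map_mul' g g' := Units.ext (by
    show EG 1 _ = EG 1 _ * EG 1 _
    rw [EG_mul, Matrix.one_mul]
    rfl)

theorem EGu_val (g : ∀ i, (Matrix (Fin (n i)) (Fin (n i)) ℂ)ˣ) :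
    ((EGu B₀ n g : (Matrix (IG B₀ n) (IG B₀ n) ℂ)ˣ) : Matrix (IG B₀ n) (IG B₀ n) ℂ) =
      EG 1 fun i => (g i : Matrix (Fin (n i)) (Fin (n i)) ℂ) := rfl

/-- the subgroup of the block matrices -/
noncomputable def GG (B₀ : Type) [Fintype B₀] [DecidableEq B₀] {ι : Type} [Fintype ι] [DecidableEq ι] {n : ι → ℕ}
    (𝒢 : ∀ i, Subgroup (Matrix (Fin (n i)) (Fin (n i)) ℂ)ˣ) : Subgroup (Matrix (IG B₀ n) (IG B₀ n) ℂ)ˣ :=
  (Subgroup.pi Set.univ 𝒢).map (EGu B₀ n)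

/-- the embedding of one factor -/
noncomputable def em (B₀ : Type) [Fintype B₀] [DecidableEq B₀] {ι : Type} [Fintype ι] [DecidableEq ι] {n : ι → ℕ} (i : ι) :
    (Matrix (Fin (n i)) (Fin (n i)) ℂ)ˣ →* (Matrix (IG B₀ n) (IG B₀ n) ℂ)ˣ :=
  (EGu B₀ n).comp (MonoidHom.mulSingle (fun i => (Matrix (Fin (n i)) (Fin (n i)) ℂ)ˣ) i)

theorem em_val (i : ι) (g : (Matrix (Fin (n i)) (Fin (n i)) ℂ)ˣ) :
    ((em B₀ i g : (Matrix (IG B₀ n) (IG B₀ n) ℂ)ˣ) : Matrix (IG B₀ n) (IG B₀ n) ℂ) =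
      EG 1 (Pi.mulSingle i (g : Matrix (Fin (n i)) (Fin (n i)) ℂ)) := by
  show EG 1 (fun j => ((Pi.mulSingle i g : ∀ i, (Matrix (Fin (n i)) (Fin (n i)) ℂ)ˣ) j :
    Matrix (Fin (n j)) (Fin (n j)) ℂ)) = _
  congr 1
  funext j
  by_cases h : j = i
  · subst h
    rw [Pi.mulSingle_eq_same, Pi.mulSingle_eq_same]
  · rw [Pi.mulSingle_eq_of_ne h, Pi.mulSingle_eq_of_ne h, Units.val_one]

theorem em_mem {𝒢 : ∀ i, Subgroup (Matrix (Fin (n i)) (Fin (n i)) ℂ)ˣ} {i : ι}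
    {g : (Matrix (Fin (n i)) (Fin (n i)) ℂ)ˣ} (hg : g ∈ 𝒢 i) : em B₀ i g ∈ GG B₀ 𝒢 := by
  refine ⟨Pi.mulSingle i g, fun j _ => ?_, rfl⟩
  show (Pi.mulSingle i g : ∀ i, (Matrix (Fin (n i)) (Fin (n i)) ℂ)ˣ) j ∈ 𝒢 j
  by_cases h : j = i
  · subst h
    rw [Pi.mulSingle_eq_same]
    exact hg
  · rw [Pi.mulSingle_eq_of_ne h]
    exact (𝒢 j).one_mem

theorem e1_Nil {𝒢 : ∀ i, Subgroup (Matrix (Fin (n i)) (Fin (n i)) ℂ)ˣ} {i : ι}
    {N : Matrix (Fin (n i)) (Fin (n i)) ℂ} (hN : N ∈ Nil (𝒢 i)) : e1 B₀ i N ∈ Nil (GG B₀ 𝒢) := by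
  refine ⟨e1_nil hN.1, fun t => ?_⟩
  obtain ⟨u, hu, hu'⟩ := hN.2 t
  refine ⟨em B₀ i u, em_mem hu, ?_⟩
  rw [em_val, hu', e1_exp hN.1]

theorem em_Ug {𝒢 : ∀ i, Subgroup (Matrix (Fin (n i)) (Fin (n i)) ℂ)ˣ} {i : ι} :
    (Ug (𝒢 i)).map (em B₀ i) ≤ Ug (GG B₀ 𝒢) := by
  unfold Ug
  rw [MonoidHom.map_closure]
  refine Subgroup.closure_mono ?_
  rintro _ ⟨u, ⟨N, hN, t, ht⟩, rfl⟩
  refine ⟨e1 B₀ i N, e1_Nil hN, t, ?_⟩
  rw [em_val, ht, e1_exp hN.1]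

/-- from the single blocks to all blocks -/
theorem all_blocksG {T : Set (Matrix (IG B₀ n) (IG B₀ n) ℂ)} {g : ∀ i, (Matrix (Fin (n i)) (Fin (n i)) ℂ)ˣ}
    (h : ∀ i, em B₀ i (g i) ∈ Sbl T) : EGu B₀ n g ∈ Sbl T := by
  classical
  have key : ∀ S : Finset ι, EGu B₀ n (fun j => if j ∈ S then g j else 1) ∈ Sbl T := by
    intro S
    induction S using Finset.induction_on with
    | empty =>
      have h1 : (fun j => if j ∈ (∅ : Finset ι) then g j else 1) =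
          (1 : ∀ i, (Matrix (Fin (n i)) (Fin (n i)) ℂ)ˣ) := by
        funext j
        simp
      rw [h1, map_one]
      intro x hx
      rw [Units.val_one, Matrix.one_mul]
      exact hx
    | insert i S hi ih =>
      have h1 := Sbl_mul (h i) ih
      have h2 : em B₀ i (g i) * EGu B₀ n (fun j => if j ∈ S then g j else 1) =
          EGu B₀ n (fun j => if j ∈ insert i S then g j else 1) := by
        show EGu B₀ n (Pi.mulSingle i (g i)) * _ = _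
        rw [← map_mul]
        congr 1
        funext j
        rw [Pi.mul_apply]
        by_cases hj : j = i
        · subst hj
          rw [Pi.mulSingle_eq_same, if_neg hi, if_pos (Finset.mem_insert_self _ _), mul_one]
        · rw [Pi.mulSingle_eq_of_ne hj, one_mul]
          by_cases hS : j ∈ S
          · rw [if_pos hS, if_pos (Finset.mem_insert_of_mem hS)]
          · rw [if_neg hS, if_neg (by rw [Finset.mem_insert]; tauto)]
      rwa [h2] at h1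
  have h1 := key Finset.univ
  simpa using h1


theorem card_IG (n : ι → ℕ) : Fintype.card (IG B₀ n) = Fintype.card B₀ + ∑ i, n i := by
  rw [Fintype.card_sum, Fintype.card_sigma]
  congr 1
  exact Finset.sum_congr rfl fun i _ => Fintype.card_fin _

/-- **subtorsors over all number fields of degree at most `D` at a point** -/
theorem stab_point (m D : ℕ) : ∃ d : ℕ, ∀ (B₀ : Type) [Fintype B₀] [DecidableEq B₀] (ι : Type) [Fintype ι]
    [DecidableEq ι] (n : ι → ℕ), Fintype.card (IG B₀ n) ≤ m → ∀ (C₀ : Matrix B₀ B₀ ℂ)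
    (Y F : ∀ i, Matrix (Fin (n i)) (Fin (n i)) ℂ), (∀ i, Clf (F i)) →
    (∀ g : ∀ i, (Matrix (Fin (n i)) (Fin (n i)) ℂ)ˣ, (∀ i, g i ∈ GB (F i)) →
      Rl ⊥ d (EG C₀ Y) (EG C₀ fun i => (g i : Matrix (Fin (n i)) (Fin (n i)) ℂ) * Y i)) →
    ∀ K : Subfield ℂ, FiniteDimensional ℚ K → finrank ℚ K ≤ D → ∀ T : Set (Matrix (IG B₀ n) (IG B₀ n) ℂ),
    IsSubtorsor K T → EG C₀ Y ∈ T → ∀ g : ∀ i, (Matrix (Fin (n i)) (Fin (n i)) ℂ)ˣ, (∀ i, g i ∈ GB (F i)) →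
      ∀ x ∈ T, EG 1 (fun i => (g i : Matrix (Fin (n i)) (Fin (n i)) ℂ)) * x ∈ T := by
  obtain ⟨d, -, hd⟩ := comm_all m D
  refine ⟨d, ?_⟩
  intro B₀ _ _ ι _ _ n hcard C₀ Y F hF hrel K hKf hKD T hT hcT g hg
  have hrelG : ∀ g ∈ Ug (GG B₀ (fun i => GB (F i))), Rl ⊥ d (EG C₀ Y) (g * EG C₀ Y) := by
    intro g hg
    obtain ⟨g', hg', rfl⟩ := Ug_le _ hg
    have h1 := hrel g' fun i => hg' i (Set.mem_univ i)
    rw [EGu_val, EG_mul, Matrix.one_mul]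
    exact h1
  obtain ⟨hcomm, -, -⟩ := hd (IG B₀ n) hcard _ (GG B₀ fun i => GB (F i)) hrelG K hKf hKD T hT hcT
  have h2 : EGu B₀ n g ∈ Sbl T := by
    refine all_blocksG fun i => ?_
    refine hcomm _ ?_
    have h1 : em B₀ i (g i) ∈ (⁅Ug (GB (F i)), Ug (GB (F i))⁆ : Subgroup _).map (em B₀ i) :=
      ⟨g i, cl_perf (hF i) (hg i), rfl⟩
    rw [Subgroup.map_commutator] at h1
    exact Subgroup.commutator_mono em_Ug em_Ug h1
  intro x hx
  have h3 := h2 _ hx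
  rw [EGu_val] at h3
  exact h3

/-- substitution of the variables in the block matrix -/
theorem Rl_sub {V : Type} {C₀ : Matrix B₀ B₀ ℂ} {Y X : ∀ i, Matrix (Fin (n i)) (Fin (n i)) ℂ}
    {x y : V → ℂ} {d : ℕ} (vc : B₀ × B₀ → MvPolynomial V (⊥ : IntermediateField ℚ ℂ))
    (hvc : ∀ b, (vc b).totalDegree ≤ 1) (vb : (Σ i, Fin (n i) × Fin (n i)) → V)
    (hx1 : ∀ b, MvPolynomial.aeval x (vc b) = C₀ b.1 b.2) (hx2 : ∀ i b, x (vb ⟨i, b⟩) = Y i b.1 b.2)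
    (hy1 : ∀ b, MvPolynomial.aeval y (vc b) = C₀ b.1 b.2) (hy2 : ∀ i b, y (vb ⟨i, b⟩) = X i b.1 b.2)
    (h : ∀ P : MvPolynomial V (⊥ : IntermediateField ℚ ℂ), P.totalDegree ≤ d → MvPolynomial.aeval x P = 0 →
      MvPolynomial.aeval y P = 0) : Rl ⊥ d (EG C₀ Y) (EG C₀ X) := by
  classical
  intro P hPK hPd hP0
  -- the substitution
  let φ : IG B₀ n × IG B₀ n → MvPolynomial V (⊥ : IntermediateField ℚ ℂ) := fun b =>
    match b with
    | (Sum.inl a, Sum.inl b) => vc (a, b)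
    | (Sum.inl _, Sum.inr _) => 0
    | (Sum.inr _, Sum.inl _) => 0
    | (Sum.inr ⟨i, a⟩, Sum.inr ⟨j, b⟩) => if h : i = j then MvPolynomial.X (vb ⟨j, (h ▸ a, b)⟩) else 0
  have hφd : ∀ b, (φ b).totalDegree ≤ 1 := by
    rintro ⟨a | ⟨i, a⟩, b | ⟨j, b⟩⟩
    · exact hvc _
    · show (0 : MvPolynomial V (⊥ : IntermediateField ℚ ℂ)).totalDegree ≤ 1
      rw [MvPolynomial.totalDegree_zero]
      omega
    · show (0 : MvPolynomial V (⊥ : IntermediateField ℚ ℂ)).totalDegree ≤ 1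
      rw [MvPolynomial.totalDegree_zero]
      omega
    · show (if h : i = j then MvPolynomial.X (vb ⟨j, (h ▸ a, b)⟩) else 0 :
        MvPolynomial V (⊥ : IntermediateField ℚ ℂ)).totalDegree ≤ 1
      split_ifs with hij
      · exact (MvPolynomial.totalDegree_X _).le
      · rw [MvPolynomial.totalDegree_zero]
        omega
  have hval : ∀ (z : V → ℂ) (Z : ∀ i, Matrix (Fin (n i)) (Fin (n i)) ℂ),
      (∀ b, MvPolynomial.aeval z (vc b) = C₀ b.1 b.2) →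
      (∀ i b, z (vb ⟨i, b⟩) = Z i b.1 b.2) → ∀ b, MvPolynomial.aeval z (φ b) = fl (EG C₀ Z) b := by
    rintro z Z h1 h2 ⟨a | ⟨i, a⟩, b | ⟨j, b⟩⟩
    · exact h1 (a, b)
    · show MvPolynomial.aeval z (0 : MvPolynomial V (⊥ : IntermediateField ℚ ℂ)) = 0
      rw [map_zero]
    · show MvPolynomial.aeval z (0 : MvPolynomial V (⊥ : IntermediateField ℚ ℂ)) = 0
      rw [map_zero]
    · show MvPolynomial.aeval z (if h : i = j then MvPolynomial.X (vb ⟨j, (h ▸ a, b)⟩) else 0 :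
        MvPolynomial V (⊥ : IntermediateField ℚ ℂ)) = blockDiagonal' Z ⟨i, a⟩ ⟨j, b⟩
      by_cases hij : i = j
      · subst hij
        rw [dif_pos rfl, MvPolynomial.aeval_X, h2, blockDiagonal'_apply_eq]
      · rw [dif_neg hij, map_zero, blockDiagonal'_apply_ne _ _ _ hij]
  obtain ⟨P', rfl⟩ : P ∈ Set.range (MvPolynomial.map (algebraMap (⊥ : IntermediateField ℚ ℂ) ℂ)) := by
    rw [MvPolynomial.mem_range_map_iff_coeffs_subset]
    intro z hz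
    rw [Finset.mem_coe, MvPolynomial.mem_coeffs_iff] at hz
    obtain ⟨m, -, rfl⟩ := hz
    have h1 := hPK m
    rw [Subfield.bot_eq_of_charZero] at h1
    obtain ⟨q, hq⟩ := h1
    refine ⟨⟨P.coeff m, ?_⟩, rfl⟩
    rw [← hq]
    exact (⊥ : IntermediateField ℚ ℂ).algebraMap_mem q
  have hinj : Function.Injective (algebraMap (⊥ : IntermediateField ℚ ℂ) ℂ) := (algebraMap (⊥ : IntermediateField ℚ ℂ) ℂ).injective
  have hPd' : P'.totalDegree ≤ d := by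
    unfold MvPolynomial.totalDegree at hPd ⊢
    rwa [MvPolynomial.support_map_of_injective _ hinj] at hPd
  have hev : ∀ (z : V → ℂ) (Z : ∀ i, Matrix (Fin (n i)) (Fin (n i)) ℂ),
      (∀ b, MvPolynomial.aeval z (vc b) = C₀ b.1 b.2) →
      (∀ i b, z (vb ⟨i, b⟩) = Z i b.1 b.2) → MvPolynomial.eval (fl (EG C₀ Z))
        (MvPolynomial.map (algebraMap (⊥ : IntermediateField ℚ ℂ) ℂ) P') =
        MvPolynomial.aeval z (MvPolynomial.bind₁ φ P') := by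
    intro z Z h1 h2
    rw [MvPolynomial.eval_map, MvPolynomial.aeval_bind₁, MvPolynomial.aeval_def]
    congr 1
    funext b
    exact (hval z Z h1 h2 b).symm
  rw [hev x Y hx1 hx2] at hP0
  rw [hev y X hy1 hy2]
  refine h _ ?_ hP0
  exact Pool.Agent.Y118.UL.aeval_deg hPd' hφd

end blocks

section one

open Pool.Agent.Y119.HY (Jm cm QD Jc_skew Jc_det cm_transpose)
open Pool.Agent.Run7.h225.HG (TU)
open Run7.h893.HO (QO J0m J1m Bz J0m_symm J0m_det)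

/-- the form on the other side -/
theorem flip_form {m : ℕ} {X L R : Matrix (Fin m) (Fin m) ℂ} (hR : R.det ≠ 0) (h : Xᵀ * L * X = R) :
    L.det ≠ 0 ∧ X * R⁻¹ * Xᵀ = L⁻¹ := by
  have hd : X.det * L.det * X.det ≠ 0 := by
    rw [← h, det_mul, det_mul, det_transpose] at hR
    exact hR
  have hX : X.det ≠ 0 := right_ne_zero_of_mul hd
  have hL : L.det ≠ 0 := right_ne_zero_of_mul (left_ne_zero_of_mul hd)
  refine ⟨hL, ?_⟩
  have hXu : IsUnit X.det := Ne.isUnit hX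
  have hXt : IsUnit Xᵀ.det := by
    rw [det_transpose]
    exact hXu
  rw [← h, Matrix.mul_inv_rev, Matrix.mul_inv_rev]
  calc X * (X⁻¹ * (L⁻¹ * Xᵀ⁻¹)) * Xᵀ = (X * X⁻¹) * L⁻¹ * (Xᵀ⁻¹ * Xᵀ) := by simp only [Matrix.mul_assoc]
    _ = L⁻¹ := by rw [mul_nonsing_inv _ hXu, nonsing_inv_mul _ hXt, Matrix.one_mul, Matrix.mul_one]

/-- the group of the torsor is a classical group -/
theorem form_G {m : ℕ} {P : Polynomial ℚ} {l z : ℂ} {Y : Matrix (Fin m) (Fin m) ℂ} (hY : Y ∈ TU m P l z) :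
    ∃ F : Matrix (Fin m) (Fin m) ℂ, Clf F ∧ ∀ g : (Matrix (Fin m) (Fin m) ℂ)ˣ, g ∈ GB F ↔
      (g : Matrix (Fin m) (Fin m) ℂ).det = 1 ∧
      (QD m P → (g : Matrix (Fin m) (Fin m) ℂ)ᵀ * cm (Jm m P) * (g : Matrix (Fin m) (Fin m) ℂ) = cm (Jm m P)) ∧
      (QO m P → (g : Matrix (Fin m) (Fin m) ℂ)ᵀ * Bz (cm (J0m m)) (cm (J1m m P)) z * (g : Matrix (Fin m) (Fin m) ℂ) =
        Bz (cm (J0m m)) (cm (J1m m P)) z) := by
  -- a general form
  have key : ∀ L : Matrix (Fin m) (Fin m) ℂ, L.det ≠ 0 → ∀ g : (Matrix (Fin m) (Fin m) ℂ)ˣ, g ∈ GB L⁻¹ ↔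
      (g : Matrix (Fin m) (Fin m) ℂ).det = 1 ∧
      (g : Matrix (Fin m) (Fin m) ℂ)ᵀ * L * (g : Matrix (Fin m) (Fin m) ℂ) = L := by
    intro L hL g
    have hLu : IsUnit L.det := Ne.isUnit hL
    constructor
    · intro hg
      have h2 := Pool.Agent.Y123.GN.iso_flip' (P := L⁻¹) (Pool.Agent.Y123.GN.inv_det hL) hg.2
      rw [nonsing_inv_nonsing_inv _ hLu] at h2
      exact ⟨hg.1, h2⟩
    · intro hg
      have h2 := Pool.Agent.Y123.GN.iso_flip (P := L⁻¹) (g := (g : Matrix (Fin m) (Fin m) ℂ))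
        (Pool.Agent.Y123.GN.inv_det hL) (by rw [nonsing_inv_nonsing_inv _ hLu]; exact hg.2)
      exact ⟨hg.1, h2⟩
  by_cases hD : QD m P
  · have hnO : ¬ QO m P := fun hO => (Nat.not_even_iff_odd.2 hO.odd) hD.even
    have hJ := Jc_det hD
    refine ⟨(cm (Jm m P))⁻¹, Or.inr (Or.inl ⟨?_, ?_⟩), fun g => ?_⟩
    · exact (Matrix.isUnit_iff_isUnit_det _).2 (Ne.isUnit (Pool.Agent.Y123.GN.inv_det hJ))
    · exact Pool.Agent.Y123.GN.inv_skew (Jc_skew hD) hJ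
    · rw [key _ hJ]
      exact ⟨fun h => ⟨h.1, fun _ => h.2, fun h' => absurd h' hnO⟩, fun h => ⟨h.1, h.2.1 hD⟩⟩
  · by_cases hO : QO m P
    · have hJ : (cm (J0m m)).det ≠ 0 := by
        have h : (cm (J0m m)).det = algebraMap ℚ ℂ (J0m m).det := (RingHom.map_det _ _).symm
        rw [h]
        exact (map_ne_zero _).2 J0m_det
      have hJs : (cm (J0m m))ᵀ = cm (J0m m) := by
        rw [← cm_transpose, J0m_symm hO.odd]
      obtain ⟨hB, hY2⟩ := flip_form hJ (hY.2.2 hO)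
      refine ⟨(Bz (cm (J0m m)) (cm (J1m m P)) z)⁻¹, Or.inr (Or.inr ⟨?_, ?_, ?_⟩), fun g => ?_⟩
      · exact (Matrix.isUnit_iff_isUnit_det _).2 (Ne.isUnit (Pool.Agent.Y123.GN.inv_det hB))
      · rw [← hY2, transpose_mul, transpose_mul, transpose_transpose, transpose_nonsing_inv, hJs, Matrix.mul_assoc]
      · intro h2
        have h1 := hO.odd
        rw [h2] at h1
        exact absurd h1 (by decide)
      · rw [key _ hB]
        exact ⟨fun h => ⟨h.1, fun h' => absurd h' hD, fun _ => h.2⟩, fun h => ⟨h.1, h.2.2 hO⟩⟩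
    · refine ⟨0, Or.inl rfl, fun g => ⟨fun hg => ⟨hg.1, fun h' => absurd h' hD, fun h' => absurd h' hO⟩,
        fun hg => ⟨hg.1, by rw [Matrix.mul_zero, Matrix.zero_mul]⟩⟩⟩

/-- the group acts on the torsor -/
theorem T_act {m : ℕ} {P : Polynomial ℚ} {l z : ℂ} {g Y : Matrix (Fin m) (Fin m) ℂ} (hY : Y ∈ TU m P l z)
    (h1 : g.det = 1) (h2 : QD m P → gᵀ * cm (Jm m P) * g = cm (Jm m P))
    (h3 : QO m P → gᵀ * Bz (cm (J0m m)) (cm (J1m m P)) z * g = Bz (cm (J0m m)) (cm (J1m m P)) z) :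
    g * Y ∈ TU m P l z := by
  have h4 : ∀ L : Matrix (Fin m) (Fin m) ℂ, (g * Y)ᵀ * L * (g * Y) = Yᵀ * (gᵀ * L * g) * Y := by
    intro L
    rw [transpose_mul]
    simp only [Matrix.mul_assoc]
  refine ⟨by rw [det_mul, h1, one_mul]; exact hY.1, fun hD => ?_, fun hO => ?_⟩
  · rw [h4, h2 hD]
    exact hY.2.1 hD
  · rw [h4, h3 hO]
    exact hY.2.2 hO

/-- two matrices with the same invariants differ by an element of the group -/
theorem quot_G {m : ℕ} {X X' : Matrix (Fin m) (Fin m) ℂ} (hX : X'.det ≠ 0) (hd : X.det = X'.det) :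
    ∃ g : (Matrix (Fin m) (Fin m) ℂ)ˣ, (g : Matrix (Fin m) (Fin m) ℂ).det = 1 ∧ (g : Matrix (Fin m) (Fin m) ℂ) * X' = X ∧
      ∀ L : Matrix (Fin m) (Fin m) ℂ, Xᵀ * L * X = X'ᵀ * L * X' →
        (g : Matrix (Fin m) (Fin m) ℂ)ᵀ * L * (g : Matrix (Fin m) (Fin m) ℂ) = L := by
  have hu : IsUnit X'.det := Ne.isUnit hX
  have hXu : IsUnit X.det := by
    rw [hd]
    exact hu
  have hut : IsUnit X'ᵀ.det := by
    rw [det_transpose]
    exact hu
  have h1 : (X * X'⁻¹) * (X' * X⁻¹) = 1 := by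
    calc (X * X'⁻¹) * (X' * X⁻¹) = X * (X'⁻¹ * X') * X⁻¹ := by simp only [Matrix.mul_assoc]
      _ = 1 := by rw [nonsing_inv_mul _ hu, Matrix.mul_one, mul_nonsing_inv _ hXu]
  refine ⟨⟨X * X'⁻¹, X' * X⁻¹, h1, mul_eq_one_comm.1 h1⟩, ?_, ?_, fun L hL => ?_⟩
  · show (X * X'⁻¹).det = 1
    rw [det_mul, hd, ← det_mul, mul_nonsing_inv _ hu, det_one]
  · show X * X'⁻¹ * X' = X
    rw [Matrix.mul_assoc, nonsing_inv_mul _ hu, Matrix.mul_one]
  · show (X * X'⁻¹)ᵀ * L * (X * X'⁻¹) = L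
    rw [transpose_mul, transpose_nonsing_inv]
    calc X'ᵀ⁻¹ * Xᵀ * L * (X * X'⁻¹) = X'ᵀ⁻¹ * (Xᵀ * L * X) * X'⁻¹ := by simp only [Matrix.mul_assoc]
      _ = X'ᵀ⁻¹ * (X'ᵀ * L * X') * X'⁻¹ := by rw [hL]
      _ = (X'ᵀ⁻¹ * X'ᵀ) * L * (X' * X'⁻¹) := by simp only [Matrix.mul_assoc]
      _ = L := by rw [nonsing_inv_mul _ hut, mul_nonsing_inv _ hu, Matrix.one_mul, Matrix.mul_one]

/-- elements of a rational span are values of polynomials of degree one -/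
theorem span_poly {V : Type} {x : V → ℂ} {c : ℂ} (hc : c ∈ Submodule.span ℚ (insert 1 (Set.range x))) :
    ∃ L : MvPolynomial V (⊥ : IntermediateField ℚ ℂ), L.totalDegree ≤ 1 ∧ MvPolynomial.aeval x L = c := by
  induction hc using Submodule.span_induction with
  | mem y hy =>
    rcases hy with rfl | ⟨v, rfl⟩
    · exact ⟨1, by rw [MvPolynomial.totalDegree_one]; omega, by rw [map_one]⟩
    · exact ⟨MvPolynomial.X v, (MvPolynomial.totalDegree_X _).le, by rw [MvPolynomial.aeval_X]⟩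
  | zero => exact ⟨0, by rw [MvPolynomial.totalDegree_zero]; omega, by rw [map_zero]⟩
  | add a b _ _ ha hb =>
    obtain ⟨L, h1, h2⟩ := ha
    obtain ⟨L', h1', h2'⟩ := hb
    exact ⟨L + L', (MvPolynomial.totalDegree_add _ _).trans (max_le h1 h1'), by rw [map_add, h2, h2']⟩
  | smul q a _ ha =>
    obtain ⟨L, h1, h2⟩ := ha
    refine ⟨q • L, (MvPolynomial.totalDegree_smul_le _ _).trans h1, ?_⟩
    rw [map_rat_smul, h2]

end one

section tate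

open Pool.Agent.Y123.GN (tpi tpi_tr tpi_ne)

variable {B₀ : Type} [Fintype B₀] [DecidableEq B₀] {ι : Type} [Fintype ι] [DecidableEq ι] {n : ι → ℕ}
  {K : Subfield ℂ} {T : Set (Matrix (IG B₀ n) (IG B₀ n) ℂ)}

theorem EG_block_unit {x : Matrix B₀ B₀ ℂ} {X : ∀ i, Matrix (Fin (n i)) (Fin (n i)) ℂ} (h : IsUnit (EG x X)) (i : ι) :
    IsUnit (X i) := by
  have h1 : EG x X * (EG x X)⁻¹ = 1 := Matrix.mul_nonsing_inv _ ((Matrix.isUnit_iff_isUnit_det _).1 h)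
  set U := (EG x X)⁻¹ with hU
  have h2 : X i * Matrix.of (fun a b => U (Sum.inr ⟨i, a⟩) (Sum.inr ⟨i, b⟩)) = 1 := by
    ext a b
    have h3 : (EG x X * U) (Sum.inr ⟨i, a⟩) (Sum.inr ⟨i, b⟩) = (1 : Matrix (IG B₀ n) (IG B₀ n) ℂ) (Sum.inr ⟨i, a⟩)
      (Sum.inr ⟨i, b⟩) := by rw [h1]
    have h4 : (1 : Matrix (IG B₀ n) (IG B₀ n) ℂ) (Sum.inr ⟨i, a⟩) (Sum.inr ⟨i, b⟩) =
        (1 : Matrix (Fin (n i)) (Fin (n i)) ℂ) a b := by
      rw [Matrix.one_apply, Matrix.one_apply]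
      by_cases hab : a = b
      · subst hab
        simp
      · simp [hab]
    rw [h4] at h3
    rw [← h3, Matrix.mul_apply, Matrix.mul_apply, Fintype.sum_sum_type, Fintype.sum_sigma]
    have h5 : ∀ c : B₀, EG x X (Sum.inr ⟨i, a⟩) (Sum.inl c) = 0 := fun c => rfl
    have h6 : ∀ j (c : Fin (n j)), EG x X (Sum.inr ⟨i, a⟩) (Sum.inr ⟨j, c⟩) = blockDiagonal' X ⟨i, a⟩ ⟨j, c⟩ :=
      fun j c => rfl
    simp only [h5, h6, zero_mul, Finset.sum_const_zero, zero_add]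
    rw [Finset.sum_eq_single i]
    · refine Finset.sum_congr rfl fun c _ => ?_
      rw [blockDiagonal'_apply_eq]
      rfl
    · intro j _ hj
      refine Finset.sum_eq_zero fun c _ => ?_
      rw [blockDiagonal'_apply_ne _ _ _ (Ne.symm hj), zero_mul]
    · intro hi
      exact absurd (Finset.mem_univ i) hi
  exact (Matrix.isUnit_iff_isUnit_det _).2 (IsUnit.of_mul_eq_one (b := (Matrix.of
    (fun a b => U (Sum.inr ⟨i, a⟩) (Sum.inr ⟨i, b⟩))).det) (by rw [← det_mul, h2, det_one]))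

theorem EG_inj {x y : Matrix B₀ B₀ ℂ} {X Y : ∀ i, Matrix (Fin (n i)) (Fin (n i)) ℂ} (h : EG x X = EG y Y) :
    x = y ∧ X = Y := by
  unfold EG at h
  obtain ⟨h1, -, -, h2⟩ := Matrix.fromBlocks_inj.1 h
  exact ⟨h1, Matrix.blockDiagonal'_injective h2⟩

theorem smul_one_inj [Nonempty B₀] {z z' : ℂ} (h : z • (1 : Matrix B₀ B₀ ℂ) = z' • (1 : Matrix B₀ B₀ ℂ)) : z = z' := by
  obtain ⟨b⟩ := ‹Nonempty B₀›
  have h1 := congrFun (congrFun h b) b
  rw [Matrix.smul_apply, Matrix.smul_apply, Matrix.one_apply_eq, smul_eq_mul, smul_eq_mul, mul_one, mul_one] at h1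
  exact h1

/-- all values of the Tate coordinate occur -/
theorem tate_all (hK : ∀ x ∈ K, IsAlgebraic ℚ x) (hT : IsSubtorsor K T) {Z : ∀ i, Matrix (Fin (n i)) (Fin (n i)) ℂ}
    (hc : EG (tpi • (1 : Matrix B₀ B₀ ℂ)) Z ∈ T) {z : ℂ} (hz : z ≠ 0) :
    ∃ X : ∀ i, Matrix (Fin (n i)) (Fin (n i)) ℂ, EG (z • (1 : Matrix B₀ B₀ ℂ)) X ∈ T := by
  have hτ : Transcendental K tpi := tpi_tr hK
  -- transcendental values
  have htr : ∀ z : ℂ, Transcendental K z → ∃ X : ∀ i, Matrix (Fin (n i)) (Fin (n i)) ℂ,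
      EG (z • (1 : Matrix B₀ B₀ ℂ)) X ∈ T := by
    intro z hz
    obtain ⟨σ, h1, h2⟩ := Pool.Agent.H37PG.exists_aut hτ hz
    have h3 := aut_mem hT (σ := σ) (fun x hx => h1 ⟨x, hx⟩) hc
    refine ⟨fun i => (Z i).map σ, ?_⟩
    have h4 : (EG (tpi • (1 : Matrix B₀ B₀ ℂ)) Z).map σ = EG (z • (1 : Matrix B₀ B₀ ℂ)) (fun i => (Z i).map σ) := by
      unfold EG
      rw [fromBlocks_map, blockDiagonal'_map _ _ (map_zero σ)]
      congr 1
      · ext a b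
        rw [Matrix.map_apply, Matrix.smul_apply, Matrix.smul_apply, smul_eq_mul, smul_eq_mul, map_mul, h2,
          Matrix.one_apply, apply_ite σ, map_one, map_zero]
      · ext a b
        exact map_zero σ
      · ext a b
        exact map_zero σ
    rw [h4] at h3
    exact h3
  by_cases hza : Transcendental K z
  · exact htr z hza
  have hza' : IsAlgebraic K z := by
    by_contra h
    exact hza h
  have h2 : Transcendental K (tpi ^ 2) := fun h => hτ (h.of_pow (by norm_num))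
  have h3 : Transcendental K (z * tpi) := by
    intro h
    apply hτ
    have h4 : tpi = z⁻¹ * (z * tpi) := by rw [← mul_assoc, inv_mul_cancel₀ hz, one_mul]
    rw [h4]
    exact hza'.inv.mul h
  obtain ⟨X₂, hX₂⟩ := htr _ h2
  obtain ⟨X₃, hX₃⟩ := htr _ h3
  have h4 := hT.torsor _ hc _ hX₂ _ hX₃
  have hinv : (EG ((tpi ^ 2) • (1 : Matrix B₀ B₀ ℂ)) X₂)⁻¹ =
      EG (((tpi ^ 2)⁻¹ : ℂ) • (1 : Matrix B₀ B₀ ℂ)) (fun i => (X₂ i)⁻¹) := by
    refine Matrix.inv_eq_right_inv ?_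
    rw [EG_mul, smul_mul_smul_comm, Matrix.one_mul, mul_inv_cancel₀ (pow_ne_zero 2 tpi_ne), one_smul]
    have h5 : (fun i => X₂ i * (X₂ i)⁻¹) = 1 := by
      funext i
      exact Matrix.mul_nonsing_inv _ ((Matrix.isUnit_iff_isUnit_det _).1 (EG_block_unit (hT.isUnit _ hX₂) i))
    rw [h5, EG_one]
  rw [hinv, EG_mul, EG_mul, smul_mul_smul_comm, smul_mul_smul_comm, Matrix.one_mul, Matrix.one_mul] at h4
  have h5 : tpi * (tpi ^ 2)⁻¹ * (z * tpi) = z := by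
    have := tpi_ne
    field_simp
  rw [h5] at h4
  exact ⟨_, h4⟩

end tate

end Pool.Agent.Run7.h225.HG.Sub
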