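import Pool.Agent.Run7.h225.HG.One
import Pool.Agent.Run7.h225.HG.Iface3

/-!
# Families with a complex reflection at `1`
-/

set_option autoImplicit false

open Matrix
open Pool.Agent.Y119.HZ
open Pool.Agent.Y119.HY (Am Jm Bm Hq cm E Hf Hc Yf Gal Sol PG Lens ps cm_mul cm_add ec uc Ac_ec Ac_last
  cm_zero cm_one cm_transpose cm_apply Ac_nil mem_Lens symm_Lens Jm_rel conj_E)
open Run7.h893.HO

namespace Pool.Agent.Run7.h225.HG

variable {n : ℕ} {Q : Polynomial ℚ}

lemma zeta_primitive (s : ℚ) : IsPrimitiveRoot (Complex.exp (2 * Real.pi * Complex.I * s)) s.den :=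
  Complex.isPrimitiveRoot_exp_rat s

lemma zeta_sq {s : ℚ} (h : ∀ a : ℤ, (a : ℚ) ≠ 2 * s) : Complex.exp (2 * Real.pi * Complex.I * s) ^ 2 ≠ 1 := by
  intro h0
  rw [← Complex.exp_nat_mul, Complex.exp_eq_one_iff] at h0
  obtain ⟨a, ha⟩ := h0
  have hpi : (2 * (Real.pi : ℂ) * Complex.I) ≠ 0 := Complex.two_pi_I_ne_zero
  have h1 : (2 * (s : ℂ)) = (a : ℂ) := by
    have h2 : (2 * (s : ℂ)) * (2 * Real.pi * Complex.I) = (a : ℂ) * (2 * Real.pi * Complex.I) := by
      rw [← ha]
      push_cast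
      ring
    exact mul_right_cancel₀ hpi h2
  apply h a
  have h3 : ((2 * s : ℚ) : ℂ) = ((a : ℚ) : ℂ) := by
    push_cast
    exact h1
  exact (Rat.cast_injective h3).symm

lemma zeta_neg {s : ℚ} (hs : ∀ a : ℤ, (a : ℚ) ≠ s) {a : ℤ} (h : (a : ℚ) = 2 * s) :
    Complex.exp (2 * Real.pi * Complex.I * s) = -1 := by
  have h1 : Complex.exp (2 * Real.pi * Complex.I * s) ^ 2 = 1 := by
    rw [← Complex.exp_nat_mul, Complex.exp_eq_one_iff]
    refine ⟨a, ?_⟩
    have h3 : ((a : ℚ) : ℂ) = ((2 * s : ℚ) : ℂ) := by rw [h]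
    push_cast at h3
    push_cast
    linear_combination (-(2 * Real.pi * Complex.I)) * h3
  rcases sq_eq_one_iff.1 h1 with h2 | h2
  · exfalso
    rw [Complex.exp_eq_one_iff] at h2
    obtain ⟨b, hb⟩ := h2
    apply hs b
    have hpi : (2 * (Real.pi : ℂ) * Complex.I) ≠ 0 := Complex.two_pi_I_ne_zero
    have h4 : (s : ℂ) = (b : ℂ) := by
      have h5 : (s : ℂ) * (2 * Real.pi * Complex.I) = (b : ℂ) * (2 * Real.pi * Complex.I) := by
        rw [← hb]
        ring
      exact mul_right_cancel₀ hpi h5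
    have h5 : ((s : ℚ) : ℂ) = ((b : ℚ) : ℂ) := by
      push_cast
      exact h4
    exact (Rat.cast_injective h5).symm
  · exact h2

/-- the transvections for a reflection at `1` -/
theorem transv_refl (hREFL : S_REFL) (hREFL2 : S_REFL2) (hQ : QG n Q) (hQ' : QG n (dq n Q))
    (htr : ∀ a : ℤ, (a : ℚ) ≠ Q.coeff (n - 1)) (hpar : (∀ a : ℤ, (a : ℚ) ≠ 2 * Q.coeff (n - 1)) ∨ Even n)
    (w ξ : Fin n → ℂ) (hw : ξ ⬝ᵥ w = 0) : 1 + vecMulVec w ξ ∈ Gal (Yf (cm (Am n)) (Hc n Q)) := by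
  have hn := hQ.two
  obtain ⟨v, μ, h1, h2, h3, h4⟩ := refl_facts hQ hQ' htr
  set s := Q.coeff (n - 1) with hs
  by_cases hint : ∀ a : ℤ, (a : ℚ) ≠ 2 * s
  · refine hREFL n (cm (Am n)) (cm (Bm n Q)) (Hc n Q) v μ (Complex.exp (2 * Real.pi * Complex.I * s)) hn Ac_nil
      (sol_c_g hQ) h1 h2 (Complex.exp_ne_zero _) (zeta_sq hint) h3 ?_ w ξ hw
    rw [← Complex.exp_neg]
    exact h4
  · have heven : Even n := hpar.resolve_left hint
    push Not at hint
    obtain ⟨a, ha⟩ := hint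
    have hz := zeta_neg htr ha
    rw [hz] at h3
    have e2 : (-1 - 1 : ℂ) = -2 := by norm_num
    rw [e2] at h3
    refine hREFL2 n (cm (Am n)) (cm (Bm n Q)) (Hc n Q) v μ hn Ac_nil (sol_c_g hQ) h1 h2 h3 ?_ w ξ hw
    by_contra hcon
    push Not at hcon
    set q := qp (cm (Am n)) v μ with hq
    have hqe : ∀ x, q.eval x = qf (cm (Am n)) v μ x := fun x => qp_eval _ _ _
    have hdeg : q.natDegree = n - 1 := qp_deg v μ (by omega) h2
    have hq0 : q ≠ 0 := by
      intro h0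
      rw [h0, Polynomial.natDegree_zero] at hdeg
      omega
    set p : Polynomial ℂ := q.comp (-Polynomial.X) with hp
    have hpe : ∀ x, p.eval x = q.eval (-x) := fun x => by rw [hp, Polynomial.eval_comp]; simp
    have hp0 : p ≠ 0 := by
      intro h0
      apply hq0
      refine Polynomial.funext fun x => ?_
      have := hpe (-x)
      rw [h0, Polynomial.eval_zero, neg_neg] at this
      rw [← this, Polynomial.eval_zero]
    have hR : ∀ a b : ℂ, q.eval a * q.eval (b - a) * q.eval (-b) = q.eval b * q.eval (a - b) * q.eval (-a) := by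
      intro a b
      have := hcon 0 a b
      simp only [← hqe, sub_zero, zero_sub] at this
      exact this
    have h5 : (∀ x, q.eval x = p.eval x) ∨ ∀ x, q.eval x = -p.eval (-x) := by
      refine p_SEPQ.1 p q hp0 hq0 (fun a => ?_) fun a b => ?_
      · rw [hpe, hpe, neg_neg]
        ring
      · simp only [hpe, neg_neg, neg_sub]
        linear_combination 2 * hR a b
    have heq : q = p := by
      rcases h5 with h5 | h5
      · exact Polynomial.funext h5
      · exfalso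
        apply hq0
        refine Polynomial.funext fun x => ?_
        have := h5 x
        rw [hpe, neg_neg] at this
        rw [Polynomial.eval_zero]
        linear_combination (1 / 2 : ℂ) * this
    -- leading coefficients
    have h6 : p.leadingCoeff = (-1) ^ (n - 1) * q.leadingCoeff := by
      rw [hp, Polynomial.leadingCoeff_comp (by rw [Polynomial.natDegree_neg, Polynomial.natDegree_X]; exact one_ne_zero),
        hdeg, Polynomial.leadingCoeff_neg, Polynomial.leadingCoeff_X, mul_comm]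
    have hodd : Odd (n - 1) := by
      obtain ⟨k, hk⟩ := heven
      exact ⟨k - 1, by omega⟩
    rw [← heq, hodd.neg_one_pow] at h6
    have h7 : q.leadingCoeff = 0 := by linear_combination (1 / 2 : ℂ) * h6
    exact hq0 (Polynomial.leadingCoeff_eq_zero.1 h7)

lemma det_refl {v μ : Fin n → ℂ} (h : μ ⬝ᵥ v = 1) (c : ℂ) : (1 + (c - 1) • vecMulVec v μ).det = c := by
  have h1 : (c - 1) • vecMulVec v μ = vecMulVec ((c - 1) • v) μ := (Matrix.smul_vecMulVec _ _ _).symm
  rw [h1, Matrix.vecMulVec_eq Unit, Matrix.det_one_add_replicateCol_mul_replicateRow,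
    dotProduct_smul, h, smul_eq_mul]
  ring

/-- **complex reflections at `1`** -/
theorem gal_refl (hREFL : S_REFL) (hREFL2 : S_REFL2) (hQ : QG n Q) (hQ' : QG n (dq n Q))
    (htr : ∀ a : ℤ, (a : ℚ) ≠ Q.coeff (n - 1)) (hpar : (∀ a : ℤ, (a : ℚ) ≠ 2 * Q.coeff (n - 1)) ∨ Even n)
    (g : Matrix (Fin n) (Fin n) ℂ) (hg : g.det ^ (Q.coeff (n - 1)).den = 1) : g ∈ Gal (Yf (cm (Am n)) (Hc n Q)) := by
  obtain ⟨v, μ, h1, h2, h3, h4⟩ := refl_facts hQ hQ' htr
  set s := Q.coeff (n - 1) with hs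
  set ζ := Complex.exp (2 * Real.pi * Complex.I * s) with hζ
  have hζ0 : ζ ≠ 0 := Complex.exp_ne_zero _
  have hζi : Complex.exp (-(2 * Real.pi * Complex.I * s)) = ζ⁻¹ := Complex.exp_neg _
  rw [hζi] at h4
  have : NeZero s.den := ⟨s.den_nz⟩
  obtain ⟨k, -, hk⟩ := (zeta_primitive s).eq_pow_of_pow_eq_one hg
  rw [← hζ] at hk
  set R := 1 + (ζ - 1) • vecMulVec v μ with hR
  set R' := 1 + (ζ⁻¹ - 1) • vecMulVec v μ with hR'
  have hP : vecMulVec v μ * vecMulVec v μ = vecMulVec v μ := by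
    rw [vecMulVec_mul_vecMulVec, h1]
    ext i j
    simp [vecMulVec_apply]
  have hRR : R' * R = 1 := by
    rw [hR, hR', add_mul, one_mul, mul_add, mul_one, smul_mul_smul_comm, hP]
    ext i j
    simp only [Matrix.add_apply, Matrix.smul_apply, smul_eq_mul]
    field_simp
    ring
  have hpow : R' ^ k * R ^ k = 1 := by
    have hc : Commute R' R := by
      show R' * R = R * R'
      rw [hRR, mul_eq_one_comm.1 hRR]
    rw [← hc.mul_pow, hRR, one_pow]
  have hdet : (g * R' ^ k).det = 1 := by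
    rw [Matrix.det_mul, Matrix.det_pow, hR', det_refl h1, ← hk, ← mul_pow, mul_inv_cancel₀ hζ0, one_pow]
  have h5 := p_SLG n (Gal (Yf (cm (Am n)) (Hc n Q)))
    (fun w ξ hw => transv_refl hREFL hREFL2 hQ hQ' htr hpar w ξ hw) (g * R' ^ k) hdet
  have h6 : g = (g * R' ^ k) * R ^ k := by rw [Matrix.mul_assoc, hpow, mul_one]
  rw [h6]
  exact mul_mem h5 (pow_mem h3 k)

end Pool.Agent.Run7.h225.HG
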